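import Pool.Agent.NCC.StB

/-!
# NCC, Apx: approximation by polynomials together with the derivative
-/

set_option autoImplicit false

namespace Pool.Agent.NCC

open Polynomial Set

private theorem Apx_anti (q : ℝ[X]) : ∃ P : ℝ[X], derivative P = q := by
  induction q using Polynomial.induction_on' with
  | add p q hp hq =>
    obtain ⟨P, hP⟩ := hp
    obtain ⟨Q, hQ⟩ := hq
    exact ⟨P + Q, by rw [derivative_add, hP, hQ]⟩
  | monomial n a =>
    refine ⟨monomial (n + 1) (a / ((n : ℝ) + 1)), ?_⟩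
    have h : ((n : ℝ) + 1) ≠ 0 := by positivity
    rw [derivative_monomial]
    have h1 : a / ((n : ℝ) + 1) * ((n + 1 : ℕ) : ℝ) = a := by
      push_cast
      exact div_mul_cancel₀ a h
    rw [h1, Nat.add_sub_cancel]

theorem thm_Apx : St_Apx := by
  intro t a b κ hab ht hκ
  have hba : 0 ≤ b - a := by linarith
  obtain ⟨κ', hκ'⟩ : ∃ κ', κ' = κ / (2 * (1 + (b - a))) := ⟨_, rfl⟩
  have hd : (0 : ℝ) < 2 * (1 + (b - a)) := by linarith
  have hk0 : 0 < κ' := by rw [hκ']; exact div_pos hκ hd
  have hk1 : κ' * (2 * (1 + (b - a))) = κ := by rw [hκ']; exact div_mul_cancel₀ κ hd.ne'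
  have hcont : Continuous (deriv t) := ht.continuous_deriv (le_refl 1)
  have hdiff : Differentiable ℝ t := ht.differentiable (by norm_num)
  obtain ⟨q, hq⟩ := exists_polynomial_near_of_continuousOn a b (deriv t) hcont.continuousOn κ' hk0
  obtain ⟨P, hP⟩ := Apx_anti q
  obtain ⟨p, hp⟩ : ∃ p : ℝ[X], p = P + C (t a - P.eval a) := ⟨_, rfl⟩
  have hpd : derivative p = q := by rw [hp, derivative_add, derivative_C, add_zero, hP]
  have hpa : p.eval a = t a := by
    rw [hp, eval_add, eval_C]
    ring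
  have hkey : ∀ x ∈ Icc a b, |p.eval x - t x| ≤ κ' * (b - a) := by
    intro x hx
    have hD : ∀ y ∈ Icc a b, DifferentiableAt ℝ (fun z => p.eval z - t z) y := fun y _ =>
      (p.differentiable y).sub (hdiff y)
    have hB : ∀ y ∈ Icc a b, ‖deriv (fun z => p.eval z - t z) y‖ ≤ κ' := by
      intro y hy
      have h1 : deriv (fun z => p.eval z - t z) y = (derivative p).eval y - deriv t y :=
        ((p.hasDerivAt y).sub (hdiff y).hasDerivAt).deriv
      rw [h1, hpd, Real.norm_eq_abs]
      exact (hq y hy).le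
    have h2 := Convex.norm_image_sub_le_of_norm_deriv_le hD hB (convex_Icc a b)
      (left_mem_Icc.2 hab) hx
    beta_reduce at h2
    rw [hpa, sub_self, sub_zero, Real.norm_eq_abs, Real.norm_eq_abs] at h2
    refine h2.trans (mul_le_mul_of_nonneg_left ?_ hk0.le)
    rw [abs_of_nonneg (by linarith [hx.1])]
    linarith [hx.2]
  refine ⟨p, fun x hx => ⟨?_, ?_⟩⟩
  · refine lt_of_le_of_lt (hkey x hx) ?_
    nlinarith
  · rw [hpd]
    refine lt_of_lt_of_le (hq x hx) ?_
    nlinarith

end Pool.Agent.NCC
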