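import Pool.Agent.NCC.StS

/-!
# NCC, module Bez: the Bezoutian of two polynomials at a common zero
-/

set_option autoImplicit false

namespace Pool.Agent.NCC

open MvPolynomial Module
open scoped Pointwise

private lemma Bez_mono {a b : ℤ} (h : a ≤ b) : Pd a ≤ Pd b :=
  restrictSupport_mono ℂ fun s (hs : ((s 0 + s 1 : ℕ) : ℤ) ≤ a) => le_trans hs h

private lemma Bez_mul {a b : ℤ} {p q : CP} (hp : p ∈ Pd a) (hq : q ∈ Pd b) :
    p * q ∈ Pd (a + b) := by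
  have h : p * q ∈ restrictSupport ℂ ({s : Fin 2 →₀ ℕ | ((s 0 + s 1 : ℕ) : ℤ) ≤ a} +
      {s : Fin 2 →₀ ℕ | ((s 0 + s 1 : ℕ) : ℤ) ≤ b}) := by
    rw [restrictSupport_add]
    exact Submodule.mul_mem_mul hp hq
  refine restrictSupport_mono ℂ ?_ h
  rintro _ ⟨s, hs, t, ht, rfl⟩
  have hs' : ((s 0 + s 1 : ℕ) : ℤ) ≤ a := hs
  have ht' : ((t 0 + t 1 : ℕ) : ℤ) ≤ b := ht
  show (((s + t) 0 + (s + t) 1 : ℕ) : ℤ) ≤ a + b
  rw [Finsupp.add_apply, Finsupp.add_apply]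
  push_cast at hs' ht' ⊢
  linarith

private lemma Bez_one : (1 : CP) ∈ Pd 0 := by
  have h : (1 : CP) = monomial 0 1 := rfl
  rw [h]
  refine (monomial_mem_restrictSupport ℂ).mpr (Or.inl ?_)
  show (((0 : Fin 2 →₀ ℕ) 0 + (0 : Fin 2 →₀ ℕ) 1 : ℕ) : ℤ) ≤ 0
  simp

private lemma Bez_X (i : Fin 2) : (X i : CP) ∈ Pd 1 := by
  refine (monomial_mem_restrictSupport ℂ).mpr (Or.inl ?_)
  show (((Finsupp.single i 1 : Fin 2 →₀ ℕ) 0 + (Finsupp.single i 1 : Fin 2 →₀ ℕ) 1 : ℕ) : ℤ) ≤ 1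
  fin_cases i <;> simp

private lemma Bez_C {a : ℤ} (z : ℂ) {p : CP} (hp : p ∈ Pd a) : C z * p ∈ Pd a := by
  rw [C_mul']
  exact Submodule.smul_mem _ z hp

/-- division by `x - q 0` and `y - q 1`, with quotients whose top parts do not depend on `q` -/
private def Bez_Cl (p : CP) (n : ℤ) : Prop :=
  ∃ T1 T2 : CP, T1 ∈ Pd (n - 1) ∧ T2 ∈ Pd (n - 1) ∧ ∀ q : Fin 2 → ℂ, ∃ p1 p2 : CP,
    p1 - T1 ∈ Pd (n - 2) ∧ p2 - T2 ∈ Pd (n - 2) ∧
    p = C (eval q p) + (X 0 - C (q 0)) * p1 + (X 1 - C (q 1)) * p2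

private lemma Bez_Cl_mono {p : CP} {m n : ℤ} (h : Bez_Cl p m) (hmn : m ≤ n) : Bez_Cl p n := by
  obtain ⟨T1, T2, h1, h2, h3⟩ := h
  refine ⟨T1, T2, Bez_mono (by linarith) h1, Bez_mono (by linarith) h2, fun q => ?_⟩
  obtain ⟨p1, p2, h4, h5, h6⟩ := h3 q
  exact ⟨p1, p2, Bez_mono (by linarith) h4, Bez_mono (by linarith) h5, h6⟩

private lemma Bez_Cl_zero (n : ℤ) : Bez_Cl 0 n := by
  refine ⟨0, 0, Submodule.zero_mem _, Submodule.zero_mem _, fun q => ⟨0, 0, ?_, ?_, ?_⟩⟩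
  · rw [sub_zero]; exact Submodule.zero_mem _
  · rw [sub_zero]; exact Submodule.zero_mem _
  · simp

private lemma Bez_Cl_one : Bez_Cl 1 0 := by
  refine ⟨0, 0, Submodule.zero_mem _, Submodule.zero_mem _, fun q => ⟨0, 0, ?_, ?_, ?_⟩⟩
  · rw [sub_zero]; exact Submodule.zero_mem _
  · rw [sub_zero]; exact Submodule.zero_mem _
  · simp

private lemma Bez_Cl_add {p p' : CP} {n : ℤ} (h : Bez_Cl p n) (h' : Bez_Cl p' n) :
    Bez_Cl (p + p') n := by
  obtain ⟨T1, T2, h1, h2, h3⟩ := h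
  obtain ⟨T1', T2', h1', h2', h3'⟩ := h'
  refine ⟨T1 + T1', T2 + T2', Submodule.add_mem _ h1 h1', Submodule.add_mem _ h2 h2',
    fun q => ?_⟩
  obtain ⟨p1, p2, h4, h5, h6⟩ := h3 q
  obtain ⟨p1', p2', h4', h5', h6'⟩ := h3' q
  refine ⟨p1 + p1', p2 + p2', ?_, ?_, ?_⟩
  · rw [add_sub_add_comm]; exact Submodule.add_mem _ h4 h4'
  · rw [add_sub_add_comm]; exact Submodule.add_mem _ h5 h5'
  · rw [map_add, C_add]
    linear_combination h6 + h6'

private lemma Bez_Cl_smul {p : CP} {n : ℤ} (z : ℂ) (h : Bez_Cl p n) : Bez_Cl (z • p) n := by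
  obtain ⟨T1, T2, h1, h2, h3⟩ := h
  refine ⟨z • T1, z • T2, Submodule.smul_mem _ _ h1, Submodule.smul_mem _ _ h2, fun q => ?_⟩
  obtain ⟨p1, p2, h4, h5, h6⟩ := h3 q
  refine ⟨z • p1, z • p2, ?_, ?_, ?_⟩
  · rw [← smul_sub]; exact Submodule.smul_mem _ _ h4
  · rw [← smul_sub]; exact Submodule.smul_mem _ _ h5
  · rw [← C_mul', ← C_mul', ← C_mul', map_mul, eval_C, C_mul]
    linear_combination C z * h6

private lemma Bez_mem {T p : CP} {n : ℤ} (hT : T ∈ Pd (n - 1)) (h : p - T ∈ Pd (n - 2)) :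
    p ∈ Pd (n - 1) := by
  have h1 : p = T + (p - T) := by ring
  rw [h1]
  exact Submodule.add_mem _ hT (Bez_mono (by linarith) h)

private lemma Bez_Cl_X0 {p : CP} {n : ℤ} (hp : p ∈ Pd n) (h : Bez_Cl p n) :
    Bez_Cl (X 0 * p) (n + 1) := by
  obtain ⟨T1, T2, h1, h2, h3⟩ := h
  refine ⟨p, 0, by rwa [add_sub_cancel_right], Submodule.zero_mem _, fun q => ?_⟩
  obtain ⟨p1, p2, h4, h5, h6⟩ := h3 q
  refine ⟨p + C (q 0) * p1, C (q 0) * p2, ?_, ?_, ?_⟩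
  · rw [add_sub_cancel_left]
    exact Bez_mono (by linarith) (Bez_C _ (Bez_mem h1 h4))
  · rw [sub_zero]
    exact Bez_mono (by linarith) (Bez_C _ (Bez_mem h2 h5))
  · rw [map_mul, eval_X, C_mul]
    linear_combination C (q 0) * h6

private lemma Bez_Cl_X1 {p : CP} {n : ℤ} (hp : p ∈ Pd n) (h : Bez_Cl p n) :
    Bez_Cl (X 1 * p) (n + 1) := by
  obtain ⟨T1, T2, h1, h2, h3⟩ := h
  refine ⟨0, p, Submodule.zero_mem _, by rwa [add_sub_cancel_right], fun q => ?_⟩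
  obtain ⟨p1, p2, h4, h5, h6⟩ := h3 q
  refine ⟨C (q 1) * p1, p + C (q 1) * p2, ?_, ?_, ?_⟩
  · rw [sub_zero]
    exact Bez_mono (by linarith) (Bez_C _ (Bez_mem h1 h4))
  · rw [add_sub_cancel_left]
    exact Bez_mono (by linarith) (Bez_C _ (Bez_mem h2 h5))
  · rw [map_mul, eval_X, C_mul]
    linear_combination C (q 1) * h6

private lemma Bez_pow1 (j : ℕ) : (X 1 ^ j : CP) ∈ Pd j ∧ Bez_Cl (X 1 ^ j) j := by
  induction j with
  | zero => exact ⟨by simpa using Bez_one, by simpa using Bez_Cl_one⟩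
  | succ j ih =>
    rw [pow_succ, mul_comm]
    push_cast
    refine ⟨?_, Bez_Cl_X1 ih.1 ih.2⟩
    rw [add_comm]
    exact Bez_mul (Bez_X 1) ih.1

private lemma Bez_pow (i j : ℕ) : (X 0 ^ i * X 1 ^ j : CP) ∈ Pd (i + j) ∧
    Bez_Cl (X 0 ^ i * X 1 ^ j) (i + j) := by
  induction i with
  | zero => simpa using Bez_pow1 j
  | succ i ih =>
    have h : (X 0 ^ (i + 1) * X 1 ^ j : CP) = X 0 * (X 0 ^ i * X 1 ^ j) := by ring
    have h2 : (((i + 1 : ℕ) : ℤ) + (j : ℤ)) = (i + j) + 1 := by push_cast; ring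
    rw [h, h2]
    refine ⟨?_, Bez_Cl_X0 ih.1 ih.2⟩
    rw [add_comm]
    exact Bez_mul (Bez_X 0) ih.1

private lemma Bez_all {n : ℤ} {p : CP} (hp : p ∈ Pd n) : Bez_Cl p n := by
  unfold Pd at hp
  rw [restrictSupport_eq_span] at hp
  refine Submodule.span_induction ?_ (Bez_Cl_zero n) (fun _ _ _ _ h h' => Bez_Cl_add h h')
    (fun z _ _ h => Bez_Cl_smul z h) hp
  rintro _ ⟨s, hs, rfl⟩
  have hs' : ((s 0 + s 1 : ℕ) : ℤ) ≤ n := hs
  have h : (monomial s (1 : ℂ) : CP) = X 0 ^ (s 0) * X 1 ^ (s 1) := by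
    rw [monomial_eq, C_1, one_mul, Finsupp.prod_fintype _ _ (fun i => pow_zero _),
      Fin.prod_univ_two]
  show Bez_Cl (monomial s (1 : ℂ)) n
  rw [h]
  exact Bez_Cl_mono (Bez_pow (s 0) (s 1)).2 (by push_cast at hs'; exact hs')

private lemma Bez_deg {p : CP} {c : ℕ} (h : p.totalDegree ≤ c) : p ∈ Pd c := by
  refine (mem_restrictSupport_iff ℂ).mpr fun s hs => ?_
  have h1 := (le_totalDegree hs).trans h
  rw [Finsupp.sum_fintype _ _ (fun i => rfl), Fin.sum_univ_two] at h1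
  show ((s 0 + s 1 : ℕ) : ℤ) ≤ c
  exact_mod_cast h1

/-- the values of the quotients at `q` are the first derivatives -/
private lemma Bez_der {p p1 p2 : CP} {q : Fin 2 → ℂ}
    (h : p = C (eval q p) + (X 0 - C (q 0)) * p1 + (X 1 - C (q 1)) * p2) :
    eval q p1 = eval q (pderiv 0 p) ∧ eval q p2 = eval q (pderiv 1 p) := by
  constructor
  · have h1 := congrArg (fun r => eval q (pderiv 0 r)) h
    simp only [map_add, map_sub, Derivation.leibniz, pderiv_C, smul_eq_mul, eval_X, eval_C,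
      map_mul, pderiv_X_self, sub_self, zero_mul, mul_zero, map_zero, map_one,
      pderiv_X_of_ne (show (1 : Fin 2) ≠ 0 by decide)] at h1
    rw [h1]
    ring
  · have h1 := congrArg (fun r => eval q (pderiv 1 r)) h
    simp only [map_add, map_sub, Derivation.leibniz, pderiv_C, smul_eq_mul, eval_X, eval_C,
      map_mul, pderiv_X_self, sub_self, zero_mul, mul_zero, map_zero, map_one,
      pderiv_X_of_ne (show (0 : Fin 2) ≠ 1 by decide)] at h1
    rw [h1]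
    ring

/-- [Bez] Bezoutian.

Proof. `Bez_all`: for `p ∈ Pd n` there are `T1, T2 ∈ Pd (n - 1)` such that for every point `q` we can write
`p = p(q) + (x - q 0) p1 + (y - q 1) p2` with `p1 - T1, p2 - T2 ∈ Pd (n - 2)`: this is additive in `p`, it
holds for `1`, and if it holds for `p ∈ Pd n`, it holds for `x p` (quotients `p + (q 0) p1`, `(q 0) p2`, top
parts `p`, `0`) and for `y p`. Then `p1 (q)`, `p2 (q)` are the first derivatives of `p` at `q`. For a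
common zero `q` of `F` and `G` put `B = F1 G2 - F2 G1`: `(x - q 0) B = G2 F - F2 G`,
`(y - q 1) B = F1 G - G1 F` are in the ideal, `B (q)` is the Jacobian determinant, and
`B - (T1 S2 - T2 S1) = (F1 - T1) G2 + T1 (G2 - S2) - (F2 - T2) G1 - T2 (G1 - S1)` is in `Pd (c + d - 3)`
(`S1`, `S2` the top parts for `G`), so `L (mk B) = L (mk (T1 S2 - T2 S1))` for all `q`. -/
theorem thm_Bez : St_Top → St_Bez := by
  intro _ F G c d hP L hL
  obtain ⟨T1, T2, hT1, hT2, hF⟩ := Bez_all (Bez_deg hP.hF)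
  obtain ⟨S1, S2, hS1, hS2, hG⟩ := Bez_all (Bez_deg hP.hG)
  refine ⟨L (mkq F G (T1 * S2 - T2 * S1)), fun q hqF hqG => ?_⟩
  obtain ⟨F1, F2, hF1, hF2, eF⟩ := hF q
  obtain ⟨G1, G2, hG1, hG2, eG⟩ := hG q
  have dF := Bez_der eF
  have dG := Bez_der eG
  rw [hqF, C_0, zero_add] at eF
  rw [hqG, C_0, zero_add] at eG
  refine ⟨F1 * G2 - F2 * G1, ?_, ?_, ?_⟩
  · intro i
    have hker : ∀ r : CP, r ∈ II F G → mkq F G r = 0 := fun r hr =>
      Ideal.Quotient.eq_zero_iff_mem.mpr hr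
    have hFI : F ∈ II F G := Ideal.subset_span (by simp)
    have hGI : G ∈ II F G := Ideal.subset_span (by simp)
    apply hker
    fin_cases i
    · have h : (X 0 - C (q 0)) * (F1 * G2 - F2 * G1) = G2 * F - F2 * G := by
        linear_combination (-G2) * eF + F2 * eG
      show (X 0 - C (q 0)) * (F1 * G2 - F2 * G1) ∈ II F G
      rw [h]
      exact Ideal.sub_mem _ (Ideal.mul_mem_left _ _ hFI) (Ideal.mul_mem_left _ _ hGI)
    · have h : (X 1 - C (q 1)) * (F1 * G2 - F2 * G1) = F1 * G - G1 * F := by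
        linear_combination (-F1) * eG + G1 * eF
      show (X 1 - C (q 1)) * (F1 * G2 - F2 * G1) ∈ II F G
      rw [h]
      exact Ideal.sub_mem _ (Ideal.mul_mem_left _ _ hGI) (Ideal.mul_mem_left _ _ hFI)
  · rw [map_sub, map_mul, map_mul, dF.1, dF.2, dG.1, dG.2, map_sub, map_mul, map_mul]
  · rw [← sub_eq_zero, ← map_sub, ← map_sub]
    apply hL
    refine Submodule.mem_map_of_mem (f := (mkq F G).toLinearMap) ?_
    have hG1' := Bez_mem hS1 hG1
    have hG2' := Bez_mem hS2 hG2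
    have h : F1 * G2 - F2 * G1 - (T1 * S2 - T2 * S1) =
        (F1 - T1) * G2 + T1 * (G2 - S2) - (F2 - T2) * G1 - T2 * (G1 - S1) := by ring
    rw [h]
    have e1 : ((c : ℤ) - 2) + ((d : ℤ) - 1) = c + d - 3 := by ring
    have e2 : ((c : ℤ) - 1) + ((d : ℤ) - 2) = c + d - 3 := by ring
    refine Submodule.sub_mem _ (Submodule.sub_mem _ (Submodule.add_mem _ ?_ ?_) ?_) ?_
    · rw [← e1]; exact Bez_mul hF1 hG2'
    · rw [← e2]; exact Bez_mul hT1 hG2
    · rw [← e1]; exact Bez_mul hF2 hG1'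
    · rw [← e2]; exact Bez_mul hT2 hG1

end Pool.Agent.NCC
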