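import Pool.Agent.NCC.StA

/-!
# NCC, part A: the signature balance of a small box
-/

set_option autoImplicit false

namespace Pool.Agent.NCC

open Polynomial Filter Topology Set

private theorem Box_ev_cont (F : BP) : Continuous (fun q : ℝ × ℝ => ev F q.1 q.2) := by
  have h : (fun q : ℝ × ℝ => ev F q.1 q.2) =
      fun q : ℝ × ℝ => ∑ i ∈ Finset.range (F.natDegree + 1), (F.coeff i).eval q.1 * q.2 ^ i := by
    funext q
    unfold ev sl
    rw [eval_map, eval₂_eq_sum_range]
    rfl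
  rw [h]
  refine continuous_finset_sum _ fun i _ => ?_
  exact ((F.coeff i).continuous.comp continuous_fst).mul (continuous_snd.pow i)

private theorem Box_const (S : Set ℝ) (hS : IsPreconnected S) (g : ℝ → ℤ)
    (hg : ∀ x ∈ S, ∀ᶠ x' in 𝓝 x, g x' = g x) {x y : ℝ} (hx : x ∈ S) (hy : y ∈ S) : g x = g y := by
  have hc : ContinuousOn g S := by
    intro z hz
    have h1 : ContinuousAt g z := by
      have h2 : ContinuousAt (fun _ : ℝ => g z) z := continuousAt_const
      exact h2.congr ((hg z hz).mono fun _ h => h.symm)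
    exact h1.continuousWithinAt
  exact hS.constant hc hx hy

private theorem Box_loc1 {c : ℕ} {F : BP} {w : ℂ →₀ ℤ} {nn : ℝ → ℝ → ℤ} (h : SigData c F w nn)
    (y x : ℝ) (hx : ∀ z ∈ w.support, z.re ≠ x) (hF : ev F x y ≠ 0) :
    ∀ᶠ x' in 𝓝 x, nn x' y = nn x y := by
  have h1 := h.loc x y hx hF
  have h2 : Tendsto (fun x' : ℝ => (x', y)) (𝓝 x) (𝓝 (x, y)) :=
    (Continuous.prodMk continuous_id continuous_const).tendsto x
  exact h2.eventually h1

private theorem Box_loc2 {c : ℕ} {F : BP} {w : ℂ →₀ ℤ} {nn : ℝ → ℝ → ℤ} (h : SigData c F w nn)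
    (y x : ℝ) (hx : ∀ z ∈ w.support, z.re ≠ x) (hF : ev F x y ≠ 0) :
    ∀ᶠ y' in 𝓝 y, nn x y' = nn x y := by
  have h1 := h.loc x y hx hF
  have h2 : Tendsto (fun y' : ℝ => (x, y')) (𝓝 y) (𝓝 (x, y)) :=
    (Continuous.prodMk continuous_const continuous_id).tendsto y
  exact h2.eventually h1

/-- the difference across the vertical line -/
private theorem Box_D {c : ℕ} {F : BP} {w : ℂ →₀ ℤ} {nn : ℝ → ℝ → ℤ} (h : SigData c F w nn)
    {β δ y : ℝ} (hδ : 0 < δ) (hs : ∀ z ∈ w.support, z.re ≠ β → δ < |z.re - β|)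
    (hy : ∀ x, |x - β| ≤ δ → ev F x y ≠ 0) {xp xm : ℝ} (hp : xp ∈ Ioc β (β + δ))
    (hm : xm ∈ Ico (β - δ) β) :
    (∀ z ∈ w.support, z.re = β → nn xp y - nn xm y = if z.im < y then - w z else w z) ∧
    ((∀ z ∈ w.support, z.re ≠ β) → nn xp y - nn xm y = 0) := by
  have hne : ∀ x, x ≠ β → |x - β| ≤ δ → ∀ z ∈ w.support, z.re ≠ x := by
    intro x hx hxδ z hz hzx
    have h1 := hs z hz (by rw [hzx]; exact hx)
    rw [hzx] at h1
    linarith
  have hpδ : |xp - β| ≤ δ := by
    rw [abs_le]; constructor <;> linarith [hp.1, hp.2]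
  have hmδ : |xm - β| ≤ δ := by
    rw [abs_le]; constructor <;> linarith [hm.1, hm.2]
  have hpne : xp ≠ β := ne_of_gt hp.1
  have hmne : xm ≠ β := ne_of_lt hm.2
  constructor
  · intro z hz hzβ
    obtain ⟨Y₀, hY⟩ := h.cross
    have hz0 : ev F β z.im = 0 := by
      have := h.zero z hz
      rwa [hzβ] at this
    have hzy : z.im ≠ y := by
      intro h1
      rw [h1] at hz0
      exact hy β (by simpa using hδ.le) hz0
    have e1 := Box_loc2 h y xp (hne xp hpne hpδ) (hy xp hpδ)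
    have e2 := Box_loc2 h y xm (hne xm hmne hmδ) (hy xm hmδ)
    have e3 : ∀ᶠ y' in 𝓝 y, ∀ x ∈ Icc (β - δ) (β + δ), ev F x y' ≠ 0 := by
      apply isCompact_Icc.eventually_forall_of_forall_eventually
      intro x hx
      have h2 : ev F x y ≠ 0 := hy x (by rw [abs_le]; constructor <;> linarith [hx.1, hx.2])
      have h3 : ContinuousAt (fun q : ℝ × ℝ => ev F q.2 q.1) (y, x) :=
        ((Box_ev_cont F).comp continuous_swap).continuousAt
      exact h3.eventually_ne h2
    have e4 : ∀ᶠ y' in 𝓝 y, (z.im < y' ↔ z.im < y) := by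
      rcases lt_or_gt_of_ne hzy with h1 | h1
      · filter_upwards [lt_mem_nhds h1] with y' hy'
        exact ⟨fun _ => h1, fun _ => hy'⟩
      · filter_upwards [gt_mem_nhds h1] with y' hy'
        exact ⟨fun h2 => absurd h2 (not_lt.2 hy'.le), fun h2 => absurd h2 (not_lt.2 h1.le)⟩
    have e5 : ∀ᶠ y' in 𝓝[≠] y, y' ∉ Y₀ :=
      nhdsNE_le_cofinite y (Y₀.finite_toSet.compl_mem_cofinite)
    have e6 := ((e1.and (e2.and (e3.and e4))).filter_mono nhdsWithin_le_nhds).and e5
    obtain ⟨y', ⟨k1, k2, k3, k4⟩, k5⟩ := e6.exists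
    have k3' : ∀ x, |x - β| ≤ δ → ev F x y' ≠ 0 := by
      intro x hx
      rw [abs_le] at hx
      exact k3 x ⟨by linarith [hx.1], by linarith [hx.2]⟩
    have hF' : ev F z.re y' ≠ 0 := by
      rw [hzβ]
      exact k3' β (by simpa using hδ.le)
    have e7 := hY z hz y' k5 hF'
    have e8 : ∀ᶠ t : ℝ in 𝓝[>] 0, t ∈ Ioc (0 : ℝ) δ := by
      filter_upwards [Ioc_mem_nhdsGT hδ] with t ht
      exact ht
    obtain ⟨t, ht1, ht2⟩ := (e7.and e8).exists
    rw [hzβ] at ht1
    have c1 : nn xp y' = nn (β + t) y' := by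
      refine Box_const (Ioc β (β + δ)) isPreconnected_Ioc (fun x => nn x y') ?_ hp
        ⟨by linarith [ht2.1], by linarith [ht2.2]⟩
      intro x hx
      have hxδ : |x - β| ≤ δ := by
        rw [abs_le]; constructor <;> linarith [hx.1, hx.2]
      exact Box_loc1 h y' x (hne x (ne_of_gt hx.1) hxδ) (k3' x hxδ)
    have c2 : nn xm y' = nn (β - t) y' := by
      refine Box_const (Ico (β - δ) β) isPreconnected_Ico (fun x => nn x y') ?_ hm
        ⟨by linarith [ht2.2], by linarith [ht2.1]⟩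
      intro x hx
      have hxδ : |x - β| ≤ δ := by
        rw [abs_le]; constructor <;> linarith [hx.1, hx.2]
      exact Box_loc1 h y' x (hne x (ne_of_lt hx.2) hxδ) (k3' x hxδ)
    rw [← k1, ← k2, c1, c2, ht1]
    simp only [k4]
  · intro hno
    have c1 : nn xp y = nn xm y := by
      refine Box_const (Icc (β - δ) (β + δ)) isPreconnected_Icc (fun x => nn x y) ?_
        ⟨by linarith [hp.1], hp.2⟩ ⟨hm.1, by linarith [hm.2]⟩
      intro x hx
      have hxδ : |x - β| ≤ δ := by
        rw [abs_le]; constructor <;> linarith [hx.1, hx.2]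
      refine Box_loc1 h y x ?_ (hy x hxδ)
      intro z hz hzx
      by_cases hxβ : x = β
      · exact hno z hz (hzx.trans hxβ)
      · exact hne x hxβ hxδ z hz hzx
    rw [c1, sub_self]

/-- [Box] signature balance -/
theorem thm_Box : St_Box := by
  intro c F w nn h β δ φ₀ y₁ y₂ hδ hs h1 h2 hφ hy xp hp xm hm
  obtain ⟨a1, a2⟩ := Box_D h hδ hs (fun x hx => (hy x hx).1) hp hm
  obtain ⟨b1, b2⟩ := Box_D h hδ hs (fun x hx => (hy x hx).2) hp hm
  by_cases hex : ∃ z ∈ w.support, z.re = β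
  · obtain ⟨z, hz, hzβ⟩ := hex
    have a := a1 z hz hzβ
    have b := b1 z hz hzβ
    have hz0 : ev F β z.im = 0 := by
      have := h.zero z hz
      rwa [hzβ] at this
    by_cases hzφ : z.im = φ₀
    · have hz' : (⟨β, φ₀⟩ : ℂ) = z := Complex.ext hzβ.symm hzφ.symm
      rw [hz']
      rw [if_neg (by rw [hzφ]; exact not_lt.2 h1.le)] at a
      rw [if_pos (by rw [hzφ]; exact h2)] at b
      linarith
    · have hw : w ⟨β, φ₀⟩ = 0 := by
        by_contra hne
        have h3 := h.inj ⟨β, φ₀⟩ (Finsupp.mem_support_iff.2 hne) z hz hzβ.symm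
        exact hzφ (by rw [← h3])
      rw [hw]
      by_cases h4 : z.im < y₁
      · rw [if_pos h4] at a
        rw [if_pos (h4.trans (h1.trans h2))] at b
        linarith
      · have h5 : ¬ z.im < y₂ := by
          intro h6
          exact hzφ (hφ z.im hz0 (not_lt.1 h4) h6.le)
        rw [if_neg h4] at a
        rw [if_neg h5] at b
        linarith
  · have hno : ∀ z ∈ w.support, z.re ≠ β := fun z hz hzβ => hex ⟨z, hz, hzβ⟩
    have a := a2 hno
    have b := b2 hno
    have hw : w ⟨β, φ₀⟩ = 0 := by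
      by_contra hne
      exact hno ⟨β, φ₀⟩ (Finsupp.mem_support_iff.2 hne) rfl
    rw [hw]
    linarith

end Pool.Agent.NCC
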