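import Pool.Agent.NCC.StA

/-!
# [Br] Branches over an interval
-/

set_option autoImplicit false

namespace Pool.Agent.NCC

open Polynomial Filter Topology Set

/-- The real roots of `f (x, ·)`. -/
private noncomputable def Br_rts (f : BP) (x : ℝ) : Finset ℝ := (sl f x).roots.toFinset

private theorem Br_mem (f : BP) (hf : f.Monic) (x y : ℝ) : y ∈ Br_rts f x ↔ ev f x y = 0 := by
  have h0 : sl f x ≠ 0 := (hf.map _).ne_zero
  unfold Br_rts
  rw [Multiset.mem_toFinset, mem_roots h0]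
  rfl

private theorem Br_card (f : BP) (hf : f.Monic) {a b : ℝ} {m : ℕ} {ψ : Fin m → ℝ → ℝ}
    (h : Brs f a b m ψ) (x : ℝ) (hx : x ∈ Ioo a b) : (Br_rts f x).card = m := by
  have h1 : Br_rts f x = Finset.univ.image (fun i => ψ i x) := by
    ext y
    rw [Br_mem f hf, h.root x hx y]
    simp
  rw [h1, Finset.card_image_of_injective _ (h.mono x hx).injective, Finset.card_univ,
    Fintype.card_fin]

/-- [Br] Branches over an interval. -/
theorem thm_Br (hL : St_BrL) : St_Br := by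
  intro f α β hf hs
  by_cases hαβ : α < β
  swap
  · refine ⟨0, fun i => i.elim0, ?_, ?_, fun i => i.elim0⟩
    · intro x hx
      exact absurd (hx.1.trans hx.2) hαβ
    · intro x hx
      exact absurd (hx.1.trans hx.2) hαβ
  -- the number of roots is constant
  obtain ⟨m, hm⟩ : ∃ m, ∀ x ∈ Ioo α β, (Br_rts f x).card = m := by
    have hpre : PreconnectedSpace (Ioo α β) := Subtype.preconnectedSpace isPreconnected_Ioo
    have hloc : IsLocallyConstant (fun x : Ioo α β => (Br_rts f x.1).card) := by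
      rw [IsLocallyConstant.iff_eventually_eq]
      rintro ⟨x₀, hx₀⟩
      obtain ⟨δ, m₀, ψ₀, hδ, hB⟩ := hL f x₀ hf (hs x₀ hx₀)
      have h1 : ∀ᶠ x in 𝓝 x₀, x ∈ Ioo (x₀ - δ) (x₀ + δ) :=
        Ioo_mem_nhds (by linarith) (by linarith)
      have h2 : ∀ᶠ y : Ioo α β in 𝓝 (⟨x₀, hx₀⟩ : Ioo α β), (y : ℝ) ∈ Ioo (x₀ - δ) (x₀ + δ) :=
        continuous_subtype_val.continuousAt.eventually h1
      filter_upwards [h2] with y hy
      show (Br_rts f y.1).card = (Br_rts f x₀).card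
      rw [Br_card f hf hB y.1 hy, Br_card f hf hB x₀ ⟨by linarith, by linarith⟩]
    refine ⟨(Br_rts f ((α + β) / 2)).card, fun x hx => ?_⟩
    exact hloc.apply_eq_of_preconnectedSpace ⟨x, hx⟩
      ⟨(α + β) / 2, by constructor <;> linarith⟩
  -- the branches
  obtain ⟨ψ, hψ⟩ : ∃ ψ : Fin m → ℝ → ℝ, ∀ x (hx : x ∈ Ioo α β), ∀ i,
      ψ i x = (Br_rts f x).orderEmbOfFin (hm x hx) i := by
    classical
    refine ⟨fun i x => if hx : x ∈ Ioo α β then (Br_rts f x).orderEmbOfFin (hm x hx) i else 0,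
      fun x hx i => ?_⟩
    show (if hx : x ∈ Ioo α β then (Br_rts f x).orderEmbOfFin (hm x hx) i else 0) = _
    rw [dif_pos hx]
  refine ⟨m, ψ, ?_, ?_, ?_⟩
  · intro x hx i j hij
    show ψ i x < ψ j x
    rw [hψ x hx, hψ x hx]
    exact ((Br_rts f x).orderEmbOfFin (hm x hx)).strictMono hij
  · intro x hx y
    rw [← Br_mem f hf, ← Finset.mem_coe, ← Finset.range_orderEmbOfFin (Br_rts f x) (hm x hx)]
    constructor
    · rintro ⟨i, hi⟩
      exact ⟨i, by rw [hψ x hx]; exact hi⟩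
    · rintro ⟨i, hi⟩
      exact ⟨i, by rw [← hψ x hx]; exact hi⟩
  · intro i x₀ hx₀
    obtain ⟨δ, m₀, ψ₀, hδ, hB⟩ := hL f x₀ hf (hs x₀ hx₀)
    have hmem : x₀ ∈ Ioo (x₀ - δ) (x₀ + δ) := ⟨by linarith, by linarith⟩
    have hmm : m₀ = m := by rw [← hm x₀ hx₀, Br_card f hf hB x₀ hmem]
    subst hmm
    have heq : ∀ x ∈ Ioo α β, x ∈ Ioo (x₀ - δ) (x₀ + δ) → ψ i x = ψ₀ i x := by
      intro x hx hx'
      have h1 := Finset.orderEmbOfFin_unique (hm x hx) (f := fun j => ψ₀ j x) (fun j => by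
        rw [Br_mem f hf]
        exact (hB.root x hx' _).2 ⟨j, rfl⟩) (hB.mono x hx')
      rw [hψ x hx i]
      exact (congrFun h1 i).symm
    have h1 : ContDiffAt ℝ 1 (ψ₀ i) x₀ :=
      (hB.diff i).contDiffAt (Ioo_mem_nhds hmem.1 hmem.2)
    have h2 : ψ i =ᶠ[𝓝 x₀] ψ₀ i := by
      filter_upwards [Ioo_mem_nhds hx₀.1 hx₀.2, Ioo_mem_nhds hmem.1 hmem.2] with x hx hx'
      exact heq x hx hx'
    exact (h1.congr_of_eventuallyEq h2).contDiffWithinAt

end Pool.Agent.NCC
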