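import Pool.Agent.NCC.StA

/-!
# Local branches
-/

set_option autoImplicit false

namespace Pool.Agent.NCC

open Polynomial Filter Topology Set

private lemma BrL_ev (f : BP) (x y : ℝ) :
    ev f x y = ∑ j ∈ Finset.range (f.natDegree + 1), (f.coeff j).eval x * y ^ j := by
  unfold ev sl
  rw [Polynomial.eval_eq_sum_range' (n := f.natDegree + 1)]
  · refine Finset.sum_congr rfl fun j _ => ?_
    rw [Polynomial.coeff_map]
    rfl
  · exact Nat.lt_succ_of_le (Polynomial.natDegree_map_le)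

private lemma BrL_cd (f : BP) : ContDiff ℝ 1 (fun q : ℝ × ℝ => ev f q.1 q.2) := by
  have h : (fun q : ℝ × ℝ => ev f q.1 q.2)
      = fun q : ℝ × ℝ => ∑ j ∈ Finset.range (f.natDegree + 1), (f.coeff j).eval q.1 * q.2 ^ j :=
    funext fun q => BrL_ev f q.1 q.2
  rw [h]
  refine ContDiff.sum fun j _ => ?_
  refine ContDiff.mul ?_ (contDiff_snd.pow j)
  have h1 : ContDiff ℝ 1 (fun t : ℝ => (f.coeff j).eval t) := by
    have h2 := Polynomial.contDiff_aeval (R := ℝ) (𝕜 := ℝ) (f.coeff j) 1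
    simpa [Polynomial.coe_aeval_eq_eval] using h2
  exact h1.comp contDiff_fst

private lemma BrL_deriv (f : BP) (x y : ℝ) :
    HasDerivAt (fun y => ev f x y) (ev (derivative f) x y) y := by
  unfold ev sl
  rw [← Polynomial.derivative_map]
  exact Polynomial.hasDerivAt _ _

private lemma BrL_inv (f : BP) (x y : ℝ) (h : ev (derivative f) x y ≠ 0) :
    (fderiv ℝ (fun q : ℝ × ℝ => ev f q.1 q.2) (x, y) ∘L .inr ℝ ℝ ℝ).IsInvertible := by
  have h1 : HasFDerivAt (fun q : ℝ × ℝ => ev f q.1 q.2)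
      (fderiv ℝ (fun q : ℝ × ℝ => ev f q.1 q.2) (x, y)) (x, y) :=
    ((BrL_cd f).differentiable (by norm_num)).differentiableAt.hasFDerivAt
  have h2 : HasFDerivAt (fun z : ℝ => ev f x z)
      (fderiv ℝ (fun q : ℝ × ℝ => ev f q.1 q.2) (x, y) ∘L .inr ℝ ℝ ℝ) y := by
    have h3 : HasFDerivAt (fun z : ℝ => (x, z)) (ContinuousLinearMap.inr ℝ ℝ ℝ) y :=
      hasFDerivAt_prodMk_right x y
    exact HasFDerivAt.comp y h1 h3
  have h4 := h2.hasDerivAt.unique (BrL_deriv f x y)
  refine ⟨ContinuousLinearEquiv.unitsEquivAut ℝ (Units.mk0 _ h), ?_⟩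
  ext
  rw [h4]
  simp

/-- the bound for the roots -/
private lemma BrL_bound (f : BP) (hf : f.Monic) (x y : ℝ) (h : ev f x y = 0) :
    |y| ≤ 1 + ∑ j ∈ Finset.range f.natDegree, |(f.coeff j).eval x| := by
  set S := ∑ j ∈ Finset.range f.natDegree, |(f.coeff j).eval x| with hS
  have hS0 : 0 ≤ S := Finset.sum_nonneg fun _ _ => abs_nonneg _
  by_contra hc
  push Not at hc
  have hy1 : 1 ≤ |y| := by linarith
  rw [BrL_ev, Finset.sum_range_succ, hf.coeff_natDegree, Polynomial.eval_one, one_mul] at h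
  rcases Nat.eq_zero_or_pos f.natDegree with h0 | h0
  · rw [h0] at h
    simp at h
  have h1 : |y| ^ f.natDegree ≤ S * |y| ^ (f.natDegree - 1) := by
    have h2 : y ^ f.natDegree = - ∑ j ∈ Finset.range f.natDegree, (f.coeff j).eval x * y ^ j := by
      linarith
    rw [← abs_pow, h2, abs_neg, hS, Finset.sum_mul]
    refine (Finset.abs_sum_le_sum_abs _ _).trans (Finset.sum_le_sum fun j hj => ?_)
    rw [abs_mul, abs_pow]
    refine mul_le_mul_of_nonneg_left ?_ (abs_nonneg _)
    exact pow_le_pow_right₀ hy1 (by have := Finset.mem_range.1 hj; omega)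
  have h3 : |y| ^ f.natDegree = |y| * |y| ^ (f.natDegree - 1) := by
    rw [← pow_succ']
    congr 1
    omega
  rw [h3] at h1
  have h4 : 0 < |y| ^ (f.natDegree - 1) := by positivity
  have h5 := le_of_mul_le_mul_right h1 h4
  linarith

theorem thm_BrL : St_BrL := by
  intro f x₀ hf hs
  set g : ℝ × ℝ → ℝ := fun q => ev f q.1 q.2 with hg
  have hgc : ContDiff ℝ 1 g := BrL_cd f
  have hsl : sl f x₀ ≠ 0 := (hf.map _).ne_zero
  set R : Finset ℝ := (sl f x₀).roots.toFinset with hR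
  have hRmem : ∀ y, y ∈ R ↔ ev f x₀ y = 0 := by
    intro y
    rw [hR, Multiset.mem_toFinset, Polynomial.mem_roots hsl]
    rfl
  set e := R.orderEmbOfFin rfl with he
  have hemem : ∀ i, ev f x₀ (e i) = 0 := fun i => (hRmem _).1 (Finset.orderEmbOfFin_mem R rfl i)
  have hesurj : ∀ y, ev f x₀ y = 0 → ∃ i, e i = y := by
    intro y hy
    have h1 : y ∈ Set.range e := by
      rw [he, Finset.range_orderEmbOfFin]
      exact Finset.mem_coe.2 ((hRmem y).2 hy)
    exact h1
  have hloc : ∀ i, ∃ ψ : ℝ → ℝ, ψ x₀ = e i ∧ ContDiffAt ℝ 1 ψ x₀ ∧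
      ∀ᶠ v in 𝓝 (x₀, e i), g v = 0 ↔ ψ v.1 = v.2 := by
    intro i
    have hcd : ContDiffAt ℝ 1 g (x₀, e i) := hgc.contDiffAt
    have hinv := BrL_inv f x₀ (e i) (hs _ (hemem i))
    refine ⟨hcd.implicitFunction (by norm_num) hinv, hcd.implicitFunction_apply_self _ hinv,
      hcd.contDiffAt_implicitFunction _ hinv, ?_⟩
    have h1 := hcd.eventually_apply_eq_iff_implicitFunction (by norm_num) hinv
    have h2 : g (x₀, e i) = 0 := hemem i
    rw [h2] at h1
    exact h1
  choose ψ hψ0 hψc hψ using hloc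
  have hψcont : ∀ i, ContinuousAt (ψ i) x₀ := fun i => (hψc i).continuousAt
  have hne : ∀ i y, y ≠ e i → ∀ᶠ v : ℝ × ℝ in 𝓝 (x₀, y), ψ i v.1 ≠ v.2 := by
    intro i y hy
    have h1 : Tendsto (fun v : ℝ × ℝ => ψ i v.1) (𝓝 (x₀, y)) (𝓝 (e i)) := by
      have h2 : Tendsto (ψ i) (𝓝 x₀) (𝓝 (e i)) := by
        have h3 := (hψcont i).tendsto
        rwa [hψ0] at h3
      exact h2.comp continuousAt_fst
    have h2 : Tendsto (fun v : ℝ × ℝ => v.2) (𝓝 (x₀, y)) (𝓝 y) := continuousAt_snd
    have h3 := (h1.sub h2).eventually_ne (sub_ne_zero.2 hy.symm)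
    filter_upwards [h3] with v hv using sub_ne_zero.1 hv
  set T : ℝ → ℝ := fun x => 1 + ∑ j ∈ Finset.range f.natDegree, |(f.coeff j).eval x| with hT
  have hTc : Continuous T := by
    refine continuous_const.add (continuous_finsetSum _ fun j _ => ?_)
    exact (Polynomial.continuous (f.coeff j)).abs
  set B : ℝ := T x₀ + 1 with hB
  have hTB : ∀ᶠ x in 𝓝 x₀, T x < B :=
    hTc.continuousAt.eventually (gt_mem_nhds (by rw [hB]; linarith))
  have heB : ∀ i, |e i| < B := fun i =>
    lt_of_le_of_lt (BrL_bound f hf x₀ _ (hemem i)) (by rw [hB]; simp only [hT]; linarith)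
  have hψB : ∀ᶠ x in 𝓝 x₀, ∀ i, |ψ i x| < B := by
    rw [eventually_all]
    intro i
    have h1 : Tendsto (fun x => |ψ i x|) (𝓝 x₀) (𝓝 |e i|) := by
      have h3 := (hψcont i).abs.tendsto
      rwa [hψ0] at h3
    exact h1.eventually (gt_mem_nhds (heB i))
  have hK : ∀ᶠ x in 𝓝 x₀, ∀ y ∈ Icc (-B) B, (ev f x y = 0 ↔ ∃ i, ψ i x = y) := by
    refine IsCompact.eventually_forall_of_forall_eventually isCompact_Icc fun y _ => ?_
    by_cases hy : ev f x₀ y = 0
    · obtain ⟨i, rfl⟩ := hesurj y hy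
      have h1 : ∀ᶠ v : ℝ × ℝ in 𝓝 (x₀, e i), ∀ j, j ≠ i → ψ j v.1 ≠ v.2 := by
        rw [eventually_all]
        intro j
        by_cases hj : j = i
        · exact Eventually.of_forall fun v h => absurd hj h
        · filter_upwards [hne j (e i) (fun h => hj (e.injective h.symm))] with v hv _ using hv
      filter_upwards [hψ i, h1] with v hv h2
      constructor
      · intro h3
        exact ⟨i, hv.1 h3⟩
      · rintro ⟨j, hj⟩
        by_cases hji : j = i
        · subst hji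
          exact hv.2 hj
        · exact absurd hj (h2 j hji)
    · have h1 : ∀ᶠ v : ℝ × ℝ in 𝓝 (x₀, y), ∀ j, ψ j v.1 ≠ v.2 := by
        rw [eventually_all]
        intro j
        exact hne j y fun h => hy (by rw [h]; exact hemem j)
      have h2 : ∀ᶠ v : ℝ × ℝ in 𝓝 (x₀, y), g v ≠ 0 :=
        hgc.continuous.continuousAt.eventually_ne hy
      filter_upwards [h1, h2] with v hv h3
      constructor
      · intro h4
        exact absurd h4 h3
      · rintro ⟨j, hj⟩
        exact absurd hj (hv j)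
  have hmono : ∀ᶠ x in 𝓝 x₀, StrictMono fun i => ψ i x := by
    have h1 : ∀ᶠ x in 𝓝 x₀, ∀ i j, i < j → ψ i x < ψ j x := by
      rw [eventually_all]
      intro i
      rw [eventually_all]
      intro j
      by_cases hij : i < j
      · have h2 : ψ i x₀ < ψ j x₀ := by
          rw [hψ0, hψ0]
          exact e.strictMono hij
        filter_upwards [(hψcont i).eventually_lt (hψcont j) h2] with x hx _ using hx
      · exact Eventually.of_forall fun x h => absurd h hij
    filter_upwards [h1] with x hx i j hij using hx i j hij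
  have hcd : ∃ s ∈ 𝓝 x₀, ∀ i, ContDiffOn ℝ 1 (ψ i) s := by
    have h1 : ∀ i, ∃ s ∈ 𝓝 x₀, ContDiffOn ℝ 1 (ψ i) s := fun i =>
      (hψc i).contDiffOn le_rfl (by simp)
    choose s hs1 hs2 using h1
    exact ⟨⋂ i, s i, (iInter_mem.2 hs1), fun i => (hs2 i).mono (iInter_subset s i)⟩
  obtain ⟨s, hs1, hs2⟩ := hcd
  have hall : ∀ᶠ x in 𝓝 x₀, x ∈ s ∧ (StrictMono fun i => ψ i x) ∧
      ∀ y, ev f x y = 0 ↔ ∃ i, ψ i x = y := by
    filter_upwards [hs1, hmono, hK, hTB, hψB] with x h1 h2 h3 h4 h5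
    refine ⟨h1, h2, fun y => ?_⟩
    by_cases hy : |y| ≤ B
    · exact h3 y (abs_le.1 hy)
    · push Not at hy
      constructor
      · intro h6
        have h7 := BrL_bound f hf x y h6
        have h8 : T x < B := h4
        simp only [hT] at h8
        linarith
      · rintro ⟨i, rfl⟩
        have := h5 i
        linarith
  obtain ⟨δ, hδ, hball⟩ := Metric.eventually_nhds_iff_ball.1 hall
  rw [Real.ball_eq_Ioo] at hball
  refine ⟨δ, R.card, ψ, hδ, ?_, ?_, ?_⟩
  · intro x hx
    exact (hball x hx).2.1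
  · intro x hx
    exact (hball x hx).2.2
  · intro i
    exact (hs2 i).mono fun x hx => (hball x hx).1

end Pool.Agent.NCC
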