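import Pool.Agent.NCC.StS

/-!
# NCC, module Clo: the set of compressions is closed
-/

set_option autoImplicit false

namespace Pool.Agent.NCC

open Matrix

/-- entries of a matrix with orthonormal columns are bounded by one -/
private lemma Clo_bd {k n : ℕ} (V : Matrix (Fin n) (Fin k) ℂ) (h : Vᴴ * V = 1) (i : Fin n)
    (j : Fin k) : ‖V i j‖ ≤ 1 := by
  have h1 : (Vᴴ * V) j j = 1 := by rw [h]; simp
  rw [Matrix.mul_apply] at h1
  have h2 : ∑ x : Fin n, ((‖V x j‖ ^ 2 : ℝ) : ℂ) = 1 := by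
    rw [← h1]
    refine Finset.sum_congr rfl fun x _ => ?_
    rw [Matrix.conjTranspose_apply]
    rw [Complex.ofReal_pow, ← Complex.conj_mul']
    rfl
  have h3 : ∑ x : Fin n, ‖V x j‖ ^ 2 = 1 := by exact_mod_cast h2
  have h4 : ‖V i j‖ ^ 2 ≤ 1 := by
    rw [← h3]
    exact Finset.single_le_sum (f := fun x => ‖V x j‖ ^ 2) (fun x _ => by positivity)
      (Finset.mem_univ i)
  nlinarith [norm_nonneg (V i j)]

theorem thm_Clo : St_Clo := by
  intro k n
  let K : Set (Matrix (Fin n) (Fin k) ℂ) :=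
    Set.pi Set.univ fun _ => Set.pi Set.univ fun _ => Metric.closedBall (0 : ℂ) 1
  have hK : IsCompact K :=
    isCompact_univ_pi fun _ => isCompact_univ_pi fun _ => isCompact_closedBall _ _
  have : CompactSpace K := isCompact_iff_compactSpace.mp hK
  have hW : Continuous fun q : K × ((Fin k → ℂ) × (Fin n → ℂ)) => (q.1 : Matrix (Fin n) (Fin k) ℂ) :=
    continuous_subtype_val.comp continuous_fst
  have h1 : IsClosed {q : K × ((Fin k → ℂ) × (Fin n → ℂ)) |
      (q.1 : Matrix (Fin n) (Fin k) ℂ)ᴴ * (q.1 : Matrix (Fin n) (Fin k) ℂ) = 1} :=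
    isClosed_eq (hW.matrix_conjTranspose.matrix_mul hW) continuous_const
  have h2 : IsClosed {q : K × ((Fin k → ℂ) × (Fin n → ℂ)) |
      (q.1 : Matrix (Fin n) (Fin k) ℂ)ᴴ * diagonal q.2.2 * (q.1 : Matrix (Fin n) (Fin k) ℂ) =
        diagonal q.2.1} :=
    isClosed_eq ((hW.matrix_conjTranspose.matrix_mul
      (continuous_snd.comp continuous_snd).matrix_diagonal).matrix_mul hW)
      (continuous_fst.comp continuous_snd).matrix_diagonal
  have h3 := isClosedMap_snd_of_compactSpace _ (h1.inter h2)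
  have h4 : {p : (Fin k → ℂ) × (Fin n → ℂ) | Pool.Agent.Helper45.NC.Dil p.1 p.2} =
      Prod.snd '' ({q : K × ((Fin k → ℂ) × (Fin n → ℂ)) |
        (q.1 : Matrix (Fin n) (Fin k) ℂ)ᴴ * (q.1 : Matrix (Fin n) (Fin k) ℂ) = 1} ∩
        {q : K × ((Fin k → ℂ) × (Fin n → ℂ)) |
      (q.1 : Matrix (Fin n) (Fin k) ℂ)ᴴ * diagonal q.2.2 * (q.1 : Matrix (Fin n) (Fin k) ℂ) =
        diagonal q.2.1}) := by
    ext p
    constructor
    · rintro ⟨W, ha, hb⟩
      refine ⟨(⟨W, ?_⟩, p), ⟨ha, hb⟩, rfl⟩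
      intro i _ j _
      rw [mem_closedBall_zero_iff]
      exact Clo_bd W ha i j
    · rintro ⟨q, ⟨ha, hb⟩, rfl⟩
      exact ⟨q.1.1, ha, hb⟩
  rw [h4]
  exact h3

end Pool.Agent.NCC
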