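import Pool.Agent.NCC.StB

/-!
# NCC: counting in the boxes
-/

set_option autoImplicit false

namespace Pool.Agent.NCC

open Polynomial Filter Topology Set

private theorem Cnt_cont (f : BP) : Continuous fun p : ℝ × ℝ => ev f p.1 p.2 := by
  have h : (fun p : ℝ × ℝ => ev f p.1 p.2) = fun p =>
      ∑ j ∈ Finset.range (f.natDegree + 1), (f.coeff j).eval p.1 * p.2 ^ j := by
    funext p
    unfold ev sl
    rw [eval_map, eval₂_eq_sum_range]
    rfl
  rw [h]
  refine continuous_finsetSum _ fun j _ => ?_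
  exact ((f.coeff j).continuous.comp continuous_fst).mul (continuous_snd.pow j)

private theorem Cnt_der (f : BP) (x y : ℝ) :
    ev (derivative f) x y = (derivative (sl f x)).eval y := by
  unfold ev sl
  rw [derivative_map]

private theorem Cnt_pos {g : ℝ → ℝ} {a b : ℝ} (hc : ContinuousOn g (Icc a b))
    (hne : ∀ x ∈ Icc a b, g x ≠ 0) {x y : ℝ} (hx : x ∈ Icc a b) (hy : y ∈ Icc a b)
    (h : 0 < g x) : 0 < g y := by
  by_contra hcon
  have h1 : g y < 0 := lt_of_le_of_ne (not_lt.1 hcon) (hne y hy)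
  obtain ⟨z, hz, hz0⟩ := isPreconnected_Icc.intermediate_value hy hx hc ⟨h1.le, h.le⟩
  exact hne z hz hz0

private theorem Cnt_sign {g : ℝ → ℝ} {a b : ℝ} (hc : ContinuousOn g (Icc a b))
    (hne : ∀ x ∈ Icc a b, g x ≠ 0) {x y : ℝ} (hx : x ∈ Icc a b) (hy : y ∈ Icc a b) :
    SignType.sign (g x) = SignType.sign (g y) := by
  rcases lt_or_gt_of_ne (hne x hx) with h | h
  · have h1 : 0 < -g y := Cnt_pos (g := fun z => -g z) hc.neg
      (fun z hz => neg_ne_zero.2 (hne z hz)) hx hy (neg_pos.2 h)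
    rw [sign_neg h, sign_neg (neg_pos.1 h1)]
  · rw [sign_pos h, sign_pos (Cnt_pos hc hne hx hy h)]

private theorem Cnt_box (φ η y : ℝ) : |y - φ| < η ↔ φ - η < y ∧ y < φ + η := by
  rw [abs_lt]
  constructor
  · rintro ⟨h1, h2⟩
    constructor <;> linarith
  · rintro ⟨h1, h2⟩
    constructor <;> linarith

private theorem Cnt_two {s : ℤ} (hs : s = 1 ∨ s = -1) {e : ℝ} (he : e ≠ 0) :
    2 * (if 0 < (s : ℝ) * e then s else 0) = s + (SignType.sign e : ℤ) := by
  rcases hs with rfl | rfl
  · rcases lt_or_gt_of_ne he with h | h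
    · rw [if_neg (by push_cast; linarith), sign_neg h]
      rfl
    · rw [if_pos (by push_cast; linarith), sign_pos h]
      rfl
  · rcases lt_or_gt_of_ne he with h | h
    · rw [if_pos (by push_cast; linarith), sign_neg h]
      rfl
    · rw [if_neg (by push_cast; linarith), sign_pos h]
      rfl

private theorem Cnt_side {f : BP} {a b φ η : ℝ} {m : ℕ} {ψ : Fin m → ℝ → ℝ}
    (root : ∀ x ∈ Icc a b, ∀ y, ev f x y = 0 ↔ ∃ i, ψ i x = y)
    (cont : ∀ i, ContinuousOn (ψ i) (Icc a b))
    (simple : ∀ x ∈ Icc a b, ∀ y, ev f x y = 0 → ev (derivative f) x y ≠ 0)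
    (sep : ∀ x ∈ Icc a b, ∀ i, |ψ i x - φ| ≠ η)
    (σ : Fin m → ℤ) (hσ : ∀ i, σ i = 1 ∨ σ i = -1) (ξ : Fin m → ℝ) (hξ : ∀ i, ξ i ∈ Icc a b)
    {x₀ : ℝ} (hx₀ : x₀ ∈ Icc a b) :
    2 * ∑ i, (if 0 < (σ i : ℝ) * ev (derivative f) (ξ i) (ψ i (ξ i)) ∧ |ψ i (ξ i) - φ| < η
        then σ i else 0) =
      ∑ i, (if φ - η < ψ i x₀ ∧ ψ i x₀ < φ + η then σ i else 0) +
      ∑ i, (if φ - η < ψ i x₀ ∧ ψ i x₀ < φ + η then
        (SignType.sign (ev (derivative f) x₀ (ψ i x₀)) : ℤ) else 0) := by
  rw [Finset.mul_sum, ← Finset.sum_add_distrib]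
  refine Finset.sum_congr rfl fun i _ => ?_
  have hbox : |ψ i (ξ i) - φ| < η ↔ |ψ i x₀ - φ| < η := by
    have hc : ContinuousOn (fun x => η - |ψ i x - φ|) (Icc a b) :=
      continuousOn_const.sub (((cont i).sub continuousOn_const).abs)
    have hne : ∀ x ∈ Icc a b, η - |ψ i x - φ| ≠ 0 := fun x hx h0 => sep x hx i (by linarith)
    constructor
    · intro h
      have := Cnt_pos hc hne (hξ i) hx₀ (by linarith)
      linarith
    · intro h
      have := Cnt_pos hc hne hx₀ (hξ i) (by linarith)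
      linarith
  have hz : ∀ x ∈ Icc a b, ev f x (ψ i x) = 0 := fun x hx => (root x hx _).2 ⟨i, rfl⟩
  have hsg : SignType.sign (ev (derivative f) (ξ i) (ψ i (ξ i))) =
      SignType.sign (ev (derivative f) x₀ (ψ i x₀)) := by
    have hc : ContinuousOn (fun x => ev (derivative f) x (ψ i x)) (Icc a b) :=
      (Cnt_cont (derivative f)).comp_continuousOn (continuousOn_id.prodMk (cont i))
    exact Cnt_sign hc (fun x hx => simple x hx _ (hz x hx)) (hξ i) hx₀
  have hne := simple (ξ i) (hξ i) _ (hz (ξ i) (hξ i))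
  have h2 := Cnt_two (hσ i) hne
  rw [hsg] at h2
  by_cases hb : |ψ i x₀ - φ| < η
  · have hb' := (Cnt_box φ η (ψ i x₀)).1 hb
    rw [if_pos hb', if_pos hb', ← h2]
    by_cases hp : 0 < (σ i : ℝ) * ev (derivative f) (ξ i) (ψ i (ξ i))
    · rw [if_pos ⟨hp, hbox.2 hb⟩, if_pos hp]
    · rw [if_neg (fun h => hp h.1), if_neg hp]
  · have hb' : ¬ (φ - η < ψ i x₀ ∧ ψ i x₀ < φ + η) := fun h => hb ((Cnt_box φ η (ψ i x₀)).2 h)
    rw [if_neg hb', if_neg hb', if_neg (fun h => hb (hbox.1 h.2))]
    ring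

private theorem Cnt_sgn (hSS : St_SgnSum) {f : BP} {φ η x₀ : ℝ} {m : ℕ} {ψ : Fin m → ℝ → ℝ}
    (hη : 0 < η) (mono : StrictMono fun i => ψ i x₀)
    (root : ∀ y, ev f x₀ y = 0 ↔ ∃ i, ψ i x₀ = y)
    (simple : ∀ y, ev f x₀ y = 0 → ev (derivative f) x₀ y ≠ 0) (sep : ∀ i, |ψ i x₀ - φ| ≠ η) :
    2 * ∑ i, (if φ - η < ψ i x₀ ∧ ψ i x₀ < φ + η then
        (SignType.sign (ev (derivative f) x₀ (ψ i x₀)) : ℤ) else 0) =
      (SignType.sign (ev f x₀ (φ + η)) : ℤ) - (SignType.sign (ev f x₀ (φ - η)) : ℤ) := by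
  classical
  obtain ⟨S, hS⟩ : ∃ S : Finset (Fin m), S = Finset.univ.filter
      (fun i => φ - η < ψ i x₀ ∧ ψ i x₀ < φ + η) := ⟨_, rfl⟩
  have hmem : ∀ i, i ∈ S ↔ (φ - η < ψ i x₀ ∧ ψ i x₀ < φ + η) := by
    intro i
    rw [hS, Finset.mem_filter]
    exact ⟨fun h => h.2, fun h => ⟨Finset.mem_univ _, h⟩⟩
  have h1 := hSS (sl f x₀) (φ - η) (φ + η) S.card (fun j => ψ (S.equivFin.symm j) x₀)
    (by linarith) ?_ ?_ ?_ ?_ ?_
  · rw [← Finset.sum_filter, ← hS]
    have h2 : ∑ i ∈ S, (SignType.sign (ev (derivative f) x₀ (ψ i x₀)) : ℤ) =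
        ∑ j : Fin S.card, (SignType.sign ((derivative (sl f x₀)).eval
          (ψ (S.equivFin.symm j) x₀)) : ℤ) := by
      rw [← Finset.sum_coe_sort S]
      rw [← Equiv.sum_comp S.equivFin.symm]
      refine Finset.sum_congr rfl fun j _ => ?_
      rw [Cnt_der]
    rw [h2]
    exact h1
  · intro h0
    obtain ⟨i, hi⟩ := (root (φ - η)).1 h0
    apply sep i
    rw [hi, show φ - η - φ = -η by ring, abs_neg, abs_of_pos hη]
  · intro h0
    obtain ⟨i, hi⟩ := (root (φ + η)).1 h0
    apply sep i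
    rw [hi, show φ + η - φ = η by ring, abs_of_pos hη]
  · intro j j' hjj
    have h3 := mono.injective hjj
    exact S.equivFin.symm.injective (Subtype.ext h3)
  · intro y
    constructor
    · rintro ⟨h3, h4, h5⟩
      obtain ⟨i, hi⟩ := (root y).1 h3
      have hiS : i ∈ S := (hmem i).2 (by rw [hi]; exact ⟨h4, h5⟩)
      refine ⟨S.equivFin ⟨i, hiS⟩, ?_⟩
      rw [Equiv.symm_apply_apply]
      exact hi
    · rintro ⟨j, rfl⟩
      have h3 := (hmem _).1 (S.equivFin.symm j).2
      exact ⟨(root _).2 ⟨_, rfl⟩, h3.1, h3.2⟩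
  · intro j
    rw [← Cnt_der]
    exact simple _ ((root _).2 ⟨_, rfl⟩)

private theorem Cnt_LOs {M : ℕ} (β : Fin M → ℝ) (δ R : ℝ) (s : Fin M) :
    LO β δ R s.succ = β s + δ / 2 := by
  unfold LO
  rw [Fin.cases_succ]

private theorem Cnt_HIc {M : ℕ} (β : Fin M → ℝ) (δ R : ℝ) (s : Fin M) :
    HI β δ R s.castSucc = β s - δ / 2 := by
  unfold HI
  rw [Fin.lastCases_castSucc]

private theorem Cnt_HIs {M : ℕ} {β : Fin M → ℝ} {δ R : ℝ} (hδ : 0 < δ)
    (sep : ∀ s s' : Fin M, s < s' → β s + 2 * δ < β s')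
    (bd : ∀ s, -R + δ < β s ∧ β s < R - δ) (s : Fin M) : β s + δ < HI β δ R s.succ := by
  rcases Fin.eq_castSucc_or_eq_last s.succ with ⟨s', hs'⟩ | hl
  · rw [hs', Cnt_HIc]
    have h1 : s < s' := by
      rw [Fin.lt_def]
      have := congrArg Fin.val hs'
      simp only [Fin.val_succ, Fin.val_castSucc] at this
      omega
    have := sep s s' h1
    linarith
  · rw [hl]
    unfold HI
    rw [Fin.lastCases_last]
    have := bd s
    linarith

private theorem Cnt_LOc {M : ℕ} {β : Fin M → ℝ} {δ R : ℝ} (hδ : 0 < δ)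
    (sep : ∀ s s' : Fin M, s < s' → β s + 2 * δ < β s')
    (bd : ∀ s, -R + δ < β s ∧ β s < R - δ) (s : Fin M) : LO β δ R s.castSucc < β s - δ := by
  rcases Fin.eq_zero_or_eq_succ s.castSucc with hl | ⟨s', hs'⟩
  · rw [hl]
    unfold LO
    rw [Fin.cases_zero]
    have := bd s
    linarith
  · rw [hs', Cnt_LOs]
    have h1 : s' < s := by
      rw [Fin.lt_def]
      have := congrArg Fin.val hs'
      simp only [Fin.val_succ, Fin.val_castSucc] at this
      omega
    have := sep s' s h1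
    linarith

theorem thm_Cnt (hBox : St_Box) (hSS : St_SgnSum) (hZr : St_Zr) : St_Cnt := by
  classical
  intro c M F f w nn β δ η R τ m ψ σ hS hsupp hG
  obtain ⟨p, q, xr, xl, hReg, hdeg, hxr, hxl, hZ, hpos, hneg⟩ :=
    hZr c M F f nn β δ η R τ m ψ σ hG
  obtain ⟨hδ, hτ, hη⟩ := hG.pos
  -- slabs are disjoint
  have hslab : ∀ (s s' : Fin M) (x : ℝ), |x - β s| ≤ δ → |x - β s'| ≤ δ → s = s' := by
    intro s s' x h1 h2
    rw [abs_le] at h1 h2
    rcases lt_trichotomy s s' with h | h | h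
    · have := hG.sep s s' h
      linarith
    · exact h
    · have := hG.sep s' s h
      linarith
  have hβ : ∀ s s' : Fin M, β s = β s' → s = s' := by
    intro s s' h
    refine hslab s s' (β s) ?_ ?_
    · rw [sub_self, abs_zero]
      exact hδ.le
    · rw [h, sub_self, abs_zero]
      exact hδ.le
  -- the strips
  have hsubR : ∀ s : Fin M, Icc (β s + δ / 2) (β s + δ) ⊆
      Ioo (LO β δ R s.succ - τ) (HI β δ R s.succ + τ) := by
    intro s x hx
    have h1 := Cnt_HIs hδ hG.sep hG.bd s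
    rw [Cnt_LOs]
    constructor <;> linarith [hx.1, hx.2]
  have hsubL : ∀ s : Fin M, Icc (β s - δ) (β s - δ / 2) ⊆
      Ioo (LO β δ R s.castSucc - τ) (HI β δ R s.castSucc + τ) := by
    intro s x hx
    have h1 := Cnt_LOc hδ hG.sep hG.bd s
    rw [Cnt_HIc]
    constructor <;> linarith [hx.1, hx.2]
  have hxr' : ∀ s i, xr s i ∈ Icc (β s + δ / 2) (β s + δ) := fun s i =>
    ⟨(hxr s i).1.le, (hxr s i).2.le⟩
  have hxl' : ∀ s i, xl s i ∈ Icc (β s - δ) (β s - δ / 2) := fun s i =>
    ⟨(hxl s i).1.le, (hxl s i).2.le⟩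
  -- number of branches
  have hmc : ∀ (s : Fin (M + 1)) (x : ℝ), x ∈ Ioo (LO β δ R s - τ) (HI β δ R s + τ) →
      m s ≤ c := by
    intro s x hx
    have hmon : (sl f x).Monic := hG.monic.map _
    have hnd : (sl f x).natDegree = c := by
      unfold sl
      rw [hG.monic.natDegree_map, hG.deg]
    have h1 : (Finset.univ.image fun i => ψ s i x) ⊆ (sl f x).roots.toFinset := by
      intro y hy
      rw [Finset.mem_image] at hy
      obtain ⟨i, _, rfl⟩ := hy
      rw [Multiset.mem_toFinset, Polynomial.mem_roots hmon.ne_zero]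
      exact ((hG.brs s).root x hx _).2 ⟨i, rfl⟩
    have h2 := Finset.card_le_card h1
    rw [Finset.card_image_of_injective _ ((hG.brs s).mono x hx).injective, Finset.card_univ,
      Fintype.card_fin] at h2
    refine h2.trans ((Multiset.toFinset_card_le _).trans ?_)
    rw [← hnd]
    exact Polynomial.card_roots' _
  have hmR : ∀ s : Fin M, m s.succ ≤ c := by
    intro s
    refine hmc s.succ (β s + δ) (hsubR s ⟨by linarith, le_rfl⟩)
  have hmL : ∀ s : Fin M, m s.castSucc ≤ c := by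
    intro s
    refine hmc s.castSucc (β s - δ) (hsubL s ⟨le_rfl, by linarith⟩)
  -- index type of the zeros
  obtain ⟨zz, hzz⟩ : ∃ zz : ((s : Fin M) × Fin (m s.succ)) ⊕ ((s : Fin M) × Fin (m s.castSucc)) →
      ℂ, zz = Sum.elim (fun t => (⟨xr t.1 t.2, ψ t.1.succ t.2 (xr t.1 t.2)⟩ : ℂ))
        (fun t => (⟨xl t.1 t.2, ψ t.1.castSucc t.2 (xl t.1 t.2)⟩ : ℂ)) := ⟨_, rfl⟩
  obtain ⟨act, hact⟩ : ∃ act : ((s : Fin M) × Fin (m s.succ)) ⊕
      ((s : Fin M) × Fin (m s.castSucc)) → Prop, act = Sum.elim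
        (fun t => 0 < (σ t.1.succ t.2 : ℝ) * ev (derivative f) (xr t.1 t.2)
          (ψ t.1.succ t.2 (xr t.1 t.2)))
        (fun t => 0 < (σ t.1.castSucc t.2 : ℝ) * ev (derivative f) (xl t.1 t.2)
          (ψ t.1.castSucc t.2 (xl t.1 t.2))) := ⟨_, rfl⟩
  obtain ⟨sg, hsg⟩ : ∃ sg : ((s : Fin M) × Fin (m s.succ)) ⊕
      ((s : Fin M) × Fin (m s.castSucc)) → ℤ, sg = Sum.elim
        (fun t => σ t.1.succ t.2) (fun t => -σ t.1.castSucc t.2) := ⟨_, rfl⟩
  obtain ⟨st, hst⟩ : ∃ st : ((s : Fin M) × Fin (m s.succ)) ⊕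
      ((s : Fin M) × Fin (m s.castSucc)) → Fin M, st = Sum.elim
        (fun t => t.1) (fun t => t.1) := ⟨_, rfl⟩
  have hZ' : ∀ z, Zer p q z ↔ ∃ t, act t ∧ zz t = z := by
    intro z
    rw [hZ]
    constructor
    · rintro (⟨s, i, h1, h2⟩ | ⟨s, i, h1, h2⟩)
      · refine ⟨Sum.inl ⟨s, i⟩, ?_, ?_⟩
        · rw [hact]
          exact h1
        · rw [hzz, h2]
          rfl
      · refine ⟨Sum.inr ⟨s, i⟩, ?_, ?_⟩
        · rw [hact]
          exact h1
        · rw [hzz, h2]
          rfl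
    · rintro ⟨t | t, h1, h2⟩
      · left
        refine ⟨t.1, t.2, ?_, ?_⟩
        · rw [hact] at h1
          exact h1
        · rw [← h2, hzz]
          rfl
      · right
        refine ⟨t.1, t.2, ?_, ?_⟩
        · rw [hact] at h1
          exact h1
        · rw [← h2, hzz]
          rfl
  have hsg1 : ∀ t, sg t = 1 ∨ sg t = -1 := by
    rintro (t | t)
    · rw [hsg]
      exact hG.sgn _ _
    · rw [hsg]
      rcases hG.sgn t.1.castSucc t.2 with h | h
      · right
        show -σ t.1.castSucc t.2 = -1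
        rw [h]
      · left
        show -σ t.1.castSucc t.2 = 1
        rw [h]
        rfl
  have hjac : ∀ t, act t → 0 < (sg t : ℝ) * MvPolynomial.eval (pt (zz t)) (jac p q) := by
    rintro (t | t) ht
    · rw [hact] at ht
      rw [hsg, hzz]
      exact hpos t.1 t.2 ht
    · rw [hact] at ht
      rw [hsg, hzz]
      have h1 := hneg t.1 t.2 ht
      show 0 < ((-σ t.1.castSucc t.2 : ℤ) : ℝ) * MvPolynomial.eval
        (pt ⟨xl t.1 t.2, ψ t.1.castSucc t.2 (xl t.1 t.2)⟩) (jac p q)
      push_cast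
      linarith
  have hre : ∀ t, |(zz t).re - β (st t)| ≤ δ := by
    rintro (t | t)
    · rw [hzz, hst]
      show |xr t.1 t.2 - β t.1| ≤ δ
      have h1 := hxr' t.1 t.2
      rw [abs_le]
      constructor <;> linarith [h1.1, h1.2]
    · rw [hzz, hst]
      show |xl t.1 t.2 - β t.1| ≤ δ
      have h1 := hxl' t.1 t.2
      rw [abs_le]
      constructor <;> linarith [h1.1, h1.2]
  have hroot : ∀ t, ev f (zz t).re (zz t).im = 0 := by
    rintro (t | t)
    · rw [hzz]
      exact ((hG.brs t.1.succ).root _ (hsubR t.1 (hxr' t.1 t.2)) _).2 ⟨t.2, rfl⟩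
    · rw [hzz]
      exact ((hG.brs t.1.castSucc).root _ (hsubL t.1 (hxl' t.1 t.2)) _).2 ⟨t.2, rfl⟩
  have hinj : Function.Injective zz := by
    have hstt : ∀ t t', zz t = zz t' → st t = st t' := by
      intro t t' h
      refine hslab _ _ (zz t).re (hre t) ?_
      rw [h]
      exact hre t'
    rintro (⟨s, i⟩ | ⟨s, i⟩) (⟨s', i'⟩ | ⟨s', i'⟩) h
    · have h1 : s = s' := by
        have := hstt _ _ h
        rw [hst] at this
        exact this
      subst h1
      rw [hzz] at h
      have h2 : xr s i = xr s i' := congrArg Complex.re h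
      have h3 : ψ s.succ i (xr s i) = ψ s.succ i' (xr s i') := congrArg Complex.im h
      rw [← h2] at h3
      have h4 := ((hG.brs s.succ).mono _ (hsubR s (hxr' s i))).injective h3
      rw [h4]
    · have h1 : s = s' := by
        have := hstt _ _ h
        rw [hst] at this
        exact this
      subst h1
      rw [hzz] at h
      have h2 : xr s i = xl s i' := congrArg Complex.re h
      have h3 := hxr' s i
      have h4 := hxl' s i'
      rw [h2] at h3
      exfalso
      linarith [h3.1, h4.2]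
    · have h1 : s = s' := by
        have := hstt _ _ h
        rw [hst] at this
        exact this
      subst h1
      rw [hzz] at h
      have h2 : xl s i = xr s i' := congrArg Complex.re h
      have h3 := hxl' s i
      have h4 := hxr' s i'
      rw [h2] at h3
      exfalso
      linarith [h3.2, h4.1]
    · have h1 : s = s' := by
        have := hstt _ _ h
        rw [hst] at this
        exact this
      subst h1
      rw [hzz] at h
      have h2 : xl s i = xl s i' := congrArg Complex.re h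
      have h3 : ψ s.castSucc i (xl s i) = ψ s.castSucc i' (xl s i') := congrArg Complex.im h
      rw [← h2] at h3
      have h4 := ((hG.brs s.castSucc).mono _ (hsubL s (hxl' s i))).injective h3
      rw [h4]
  -- the projection
  obtain ⟨π, hπdef⟩ : ∃ π : ℂ → ℂ, π = fun z => if h : ∃ q : Fin M × ℝ, ev F (β q.1) q.2 = 0 ∧
      |z.re - β q.1| ≤ δ ∧ |z.im - q.2| < η then ⟨β h.choose.1, h.choose.2⟩ else 0 := ⟨_, rfl⟩
  have hπ : ∀ z s φ, ev F (β s) φ = 0 → |z.re - β s| ≤ δ → |z.im - φ| < η → π z = ⟨β s, φ⟩ := by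
    intro z s φ h1 h2 h3
    have h : ∃ q : Fin M × ℝ, ev F (β q.1) q.2 = 0 ∧ |z.re - β q.1| ≤ δ ∧ |z.im - q.2| < η :=
      ⟨(s, φ), h1, h2, h3⟩
    rw [hπdef]
    show (if h : ∃ q : Fin M × ℝ, ev F (β q.1) q.2 = 0 ∧ |z.re - β q.1| ≤ δ ∧
      |z.im - q.2| < η then (⟨β h.choose.1, h.choose.2⟩ : ℂ) else 0) = ⟨β s, φ⟩
    rw [dif_pos h]
    obtain ⟨a1, a2, a3⟩ := h.choose_spec
    have e1 : h.choose.1 = s := hslab _ _ z.re a2 h2
    have e2 : h.choose.2 = φ := by
      by_contra hne
      rw [e1] at a1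
      have h4 := hG.disj s _ _ a1 h1 hne
      have h5 : |h.choose.2 - φ| ≤ |z.im - h.choose.2| + |z.im - φ| := by
        rw [show h.choose.2 - φ = -(z.im - h.choose.2) + (z.im - φ) by ring]
        refine (abs_add_le _ _).trans ?_
        rw [abs_neg]
      linarith
    rw [e1, e2]
  have hex : ∀ t, ∃ φ, ev F (β (st t)) φ = 0 ∧ |(zz t).im - φ| < η := fun t =>
    hG.slab (st t) _ _ (hre t) (hroot t)
  have hπiff : ∀ t s φ, ev F (β s) φ = 0 →
      (π (zz t) = ⟨β s, φ⟩ ↔ st t = s ∧ |(zz t).im - φ| < η) := by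
    intro t s φ h1
    constructor
    · intro h2
      obtain ⟨φ', h3, h4⟩ := hex t
      rw [hπ _ _ _ h3 (hre t) h4] at h2
      have h5 : β (st t) = β s := congrArg Complex.re h2
      have h6 : φ' = φ := congrArg Complex.im h2
      rw [h6] at h4
      exact ⟨hβ _ _ h5, h4⟩
    · rintro ⟨h2, h3⟩
      refine hπ _ _ _ h1 ?_ h3
      rw [← h2]
      exact hre t
  -- cardinality of the index type
  have hcard : Fintype.card (((s : Fin M) × Fin (m s.succ)) ⊕
      ((s : Fin M) × Fin (m s.castSucc))) ≤ 2 * c * M := by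
    rw [Fintype.card_sum, Fintype.card_sigma, Fintype.card_sigma]
    have h1 : ∑ s : Fin M, Fintype.card (Fin (m s.succ)) ≤ ∑ _s : Fin M, c :=
      Finset.sum_le_sum fun s _ => by rw [Fintype.card_fin]; exact hmR s
    have h2 : ∑ s : Fin M, Fintype.card (Fin (m s.castSucc)) ≤ ∑ _s : Fin M, c :=
      Finset.sum_le_sum fun s _ => by rw [Fintype.card_fin]; exact hmL s
    rw [Finset.sum_const, Finset.card_univ, Fintype.card_fin, smul_eq_mul] at h1 h2
    calc _ ≤ M * c + M * c := add_le_add h1 h2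
      _ = 2 * c * M := by ring
  have himg : ∀ (P : ((s : Fin M) × Fin (m s.succ)) ⊕ ((s : Fin M) × Fin (m s.castSucc)) → Prop)
      [DecidablePred P], ((Finset.univ.filter P).image zz).card ≤ 2 * c * M := by
    intro P _
    refine Finset.card_image_le.trans ((Finset.card_le_univ _).trans hcard)
  refine ⟨p, q, (Finset.univ.filter fun t => act t ∧ sg t = 1).image zz,
    (Finset.univ.filter fun t => act t ∧ sg t = -1).image zz, π, hReg, hdeg, ?_, ?_, himg _,
    himg _, ?_, ?_⟩
  · intro z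
    rw [Finset.mem_image]
    constructor
    · rintro ⟨t, ht, rfl⟩
      rw [Finset.mem_filter] at ht
      refine ⟨(hZ' _).2 ⟨t, ht.2.1, rfl⟩, ?_⟩
      have h1 := hjac t ht.2.1
      rw [ht.2.2] at h1
      push_cast at h1
      linarith
    · rintro ⟨h1, h2⟩
      obtain ⟨t, ht, rfl⟩ := (hZ' z).1 h1
      refine ⟨t, ?_, rfl⟩
      rw [Finset.mem_filter]
      refine ⟨Finset.mem_univ _, ht, ?_⟩
      rcases hsg1 t with h | h
      · exact h
      · have h3 := hjac t ht
        rw [h] at h3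
        push_cast at h3
        linarith
  · intro z
    rw [Finset.mem_image]
    constructor
    · rintro ⟨t, ht, rfl⟩
      rw [Finset.mem_filter] at ht
      refine ⟨(hZ' _).2 ⟨t, ht.2.1, rfl⟩, ?_⟩
      have h1 := hjac t ht.2.1
      rw [ht.2.2] at h1
      push_cast at h1
      linarith
    · rintro ⟨h1, h2⟩
      obtain ⟨t, ht, rfl⟩ := (hZ' z).1 h1
      refine ⟨t, ?_, rfl⟩
      rw [Finset.mem_filter]
      refine ⟨Finset.mem_univ _, ht, ?_⟩
      rcases hsg1 t with h | h
      · have h3 := hjac t ht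
        rw [h] at h3
        push_cast at h3
        linarith
      · exact h
  · intro z hz
    have hz' : ∃ t, zz t = z := by
      rw [Finset.mem_union, Finset.mem_image, Finset.mem_image] at hz
      rcases hz with ⟨t, _, ht⟩ | ⟨t, _, ht⟩
      · exact ⟨t, ht⟩
      · exact ⟨t, ht⟩
    obtain ⟨t, rfl⟩ := hz'
    obtain ⟨φ, h1, h2⟩ := hex t
    exact ⟨st t, φ, h1, hπ _ _ _ h1 (hre t) h2, hre t, h2⟩
  · intro s φ hφ
    -- the difference of the cardinalities as a sum
    have hD : ((((Finset.univ.filter fun t => act t ∧ sg t = 1).image zz).filter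
        (fun z => π z = ⟨β s, φ⟩)).card : ℤ) -
        ((((Finset.univ.filter fun t => act t ∧ sg t = -1).image zz).filter
        (fun z => π z = ⟨β s, φ⟩)).card : ℤ) =
        ∑ t, (if act t ∧ (st t = s ∧ |(zz t).im - φ| < η) then sg t else 0) := by
      rw [Finset.filter_image, Finset.filter_image, Finset.card_image_of_injective _ hinj,
        Finset.card_image_of_injective _ hinj, Finset.filter_filter, Finset.filter_filter,
        Finset.card_filter, Finset.card_filter]
      push_cast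
      rw [← Finset.sum_sub_distrib]
      refine Finset.sum_congr rfl fun t _ => ?_
      have hk := hπiff t s φ hφ
      by_cases h1 : act t
      · by_cases h2 : st t = s ∧ |(zz t).im - φ| < η
        · rcases hsg1 t with h | h
          · rw [if_pos ⟨⟨h1, h⟩, hk.2 h2⟩, if_neg (fun h' => by
              have := h'.1.2
              rw [h] at this
              norm_num at this), if_pos ⟨h1, h2⟩, h]
            norm_num
          · rw [if_neg (fun h' => by
              have := h'.1.2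
              rw [h] at this
              norm_num at this), if_pos ⟨⟨h1, h⟩, hk.2 h2⟩, if_pos ⟨h1, h2⟩, h]
            norm_num
        · rw [if_neg (fun h' => h2 (hk.1 h'.2)), if_neg (fun h' => h2 (hk.1 h'.2)),
            if_neg (fun h' => h2 h'.2)]
          norm_num
      · rw [if_neg (fun h' => h1 h'.1.1), if_neg (fun h' => h1 h'.1.1), if_neg (fun h' => h1 h'.1)]
        norm_num
    have hD2 : ∑ t, (if act t ∧ (st t = s ∧ |(zz t).im - φ| < η) then sg t else 0) =
        ∑ i, (if 0 < (σ s.succ i : ℝ) * ev (derivative f) (xr s i) (ψ s.succ i (xr s i)) ∧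
          |ψ s.succ i (xr s i) - φ| < η then σ s.succ i else 0) -
        ∑ i, (if 0 < (σ s.castSucc i : ℝ) * ev (derivative f) (xl s i)
          (ψ s.castSucc i (xl s i)) ∧ |ψ s.castSucc i (xl s i) - φ| < η then
            σ s.castSucc i else 0) := by
      rw [Fintype.sum_sum_type, Fintype.sum_sigma, Fintype.sum_sigma,
        Finset.sum_eq_single s, Finset.sum_eq_single s, sub_eq_add_neg, ← Finset.sum_neg_distrib]
      · congr 1
        · refine Finset.sum_congr rfl fun i _ => ?_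
          rw [hact, hst, hzz, hsg]
          show (if 0 < (σ s.succ i : ℝ) * ev (derivative f) (xr s i) (ψ s.succ i (xr s i)) ∧
            (s = s ∧ |ψ s.succ i (xr s i) - φ| < η) then σ s.succ i else 0) = _
          by_cases h1 : 0 < (σ s.succ i : ℝ) * ev (derivative f) (xr s i)
              (ψ s.succ i (xr s i)) ∧ |ψ s.succ i (xr s i) - φ| < η
          · rw [if_pos ⟨h1.1, rfl, h1.2⟩, if_pos h1]
          · rw [if_neg (fun h' => h1 ⟨h'.1, h'.2.2⟩), if_neg h1]
        · refine Finset.sum_congr rfl fun i _ => ?_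
          rw [hact, hst, hzz, hsg]
          show (if 0 < (σ s.castSucc i : ℝ) * ev (derivative f) (xl s i)
            (ψ s.castSucc i (xl s i)) ∧ (s = s ∧ |ψ s.castSucc i (xl s i) - φ| < η) then
              -σ s.castSucc i else 0) = _
          by_cases h1 : 0 < (σ s.castSucc i : ℝ) * ev (derivative f) (xl s i)
              (ψ s.castSucc i (xl s i)) ∧ |ψ s.castSucc i (xl s i) - φ| < η
          · rw [if_pos ⟨h1.1, rfl, h1.2⟩, if_pos h1]
          · rw [if_neg (fun h' => h1 ⟨h'.1, h'.2.2⟩), if_neg h1, neg_zero]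
      · intro s' _ hs'
        refine Finset.sum_eq_zero fun i _ => ?_
        rw [if_neg]
        rintro ⟨_, h2, _⟩
        rw [hst] at h2
        exact hs' h2
      · intro h
        exact absurd (Finset.mem_univ _) h
      · intro s' _ hs'
        refine Finset.sum_eq_zero fun i _ => ?_
        rw [if_neg]
        rintro ⟨_, h2, _⟩
        rw [hst] at h2
        exact hs' h2
      · intro h
        exact absurd (Finset.mem_univ _) h
    rw [hD, hD2]
    -- values of f at the horizontal sides of the box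
    have hsepx : ∀ x, |x - β s| ≤ δ → ∀ y, ev f x y = 0 → |y - φ| ≠ η := by
      intro x hx y hy h0
      obtain ⟨φ', h1, h2⟩ := hG.slab s x y hx hy
      by_cases h3 : φ' = φ
      · rw [h3, h0] at h2
        exact lt_irrefl _ h2
      · have h4 := hG.disj s _ _ h1 hφ h3
        have h5 : |φ' - φ| ≤ |y - φ'| + |y - φ| := by
          rw [show φ' - φ = -(y - φ') + (y - φ) by ring]
          refine (abs_add_le _ _).trans ?_
          rw [abs_neg]
        linarith
    have hRx : ∀ x ∈ Icc (β s + δ / 2) (β s + δ), |x - β s| ≤ δ := by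
      intro x hx
      rw [abs_le]
      constructor <;> linarith [hx.1, hx.2]
    have hLx : ∀ x ∈ Icc (β s - δ) (β s - δ / 2), |x - β s| ≤ δ := by
      intro x hx
      rw [abs_le]
      constructor <;> linarith [hx.1, hx.2]
    have hxpI : β s + δ ∈ Icc (β s + δ / 2) (β s + δ) := ⟨by linarith, le_rfl⟩
    have hxmI : β s - δ ∈ Icc (β s - δ) (β s - δ / 2) := ⟨le_rfl, by linarith⟩
    have kR := Cnt_side (f := f) (a := β s + δ / 2) (b := β s + δ) (φ := φ) (η := η)
      (ψ := ψ s.succ)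
      (fun x hx => (hG.brs s.succ).root x (hsubR s hx))
      (fun i => ((hG.brs s.succ).diff i).continuousOn.mono (hsubR s))
      (fun x hx => hG.simple s.succ x (hsubR s hx))
      (fun x hx i => hsepx x (hRx x hx) _ (((hG.brs s.succ).root x (hsubR s hx) _).2 ⟨i, rfl⟩))
      (σ s.succ) (hG.sgn s.succ) (xr s) (hxr' s) hxpI
    have kL := Cnt_side (f := f) (a := β s - δ) (b := β s - δ / 2) (φ := φ) (η := η)
      (ψ := ψ s.castSucc)
      (fun x hx => (hG.brs s.castSucc).root x (hsubL s hx))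
      (fun i => ((hG.brs s.castSucc).diff i).continuousOn.mono (hsubL s))
      (fun x hx => hG.simple s.castSucc x (hsubL s hx))
      (fun x hx i => hsepx x (hLx x hx) _ (((hG.brs s.castSucc).root x (hsubL s hx) _).2 ⟨i, rfl⟩))
      (σ s.castSucc) (hG.sgn s.castSucc) (xl s) (hxl' s) hxmI
    have gR := Cnt_sgn hSS (f := f) (φ := φ) (η := η) (x₀ := β s + δ) (ψ := ψ s.succ) hη
      ((hG.brs s.succ).mono _ (hsubR s hxpI)) ((hG.brs s.succ).root _ (hsubR s hxpI))
      (hG.simple s.succ _ (hsubR s hxpI))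
      (fun i => hsepx _ (hRx _ hxpI) _ (((hG.brs s.succ).root _ (hsubR s hxpI) _).2 ⟨i, rfl⟩))
    have gL := Cnt_sgn hSS (f := f) (φ := φ) (η := η) (x₀ := β s - δ) (ψ := ψ s.castSucc) hη
      ((hG.brs s.castSucc).mono _ (hsubL s hxmI)) ((hG.brs s.castSucc).root _ (hsubL s hxmI))
      (hG.simple s.castSucc _ (hsubL s hxmI))
      (fun i => hsepx _ (hLx _ hxmI) _ (((hG.brs s.castSucc).root _ (hsubL s hxmI) _).2 ⟨i, rfl⟩))
    have rR := hG.relR s φ hφ (β s + δ) hxpI
    have rL := hG.relL s φ hφ (β s - δ) hxmI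
    have hb := hBox c F w nn hS (β s) δ φ (φ - η) (φ + η) hδ (by
        intro z hz hne
        obtain ⟨s', hs'⟩ := hsupp z hz
        rw [hs'] at hne ⊢
        have hss : s ≠ s' := fun h => hne (by rw [h])
        rcases lt_or_gt_of_ne hss with h | h
        · have := hG.sep s s' h
          rw [abs_of_pos (by linarith)]
          linarith
        · have := hG.sep s' s h
          rw [abs_of_neg (by linarith)]
          linarith)
      (by linarith) (by linarith) (by
        intro φ' h1 h2 h3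
        by_contra hne
        have h4 := hG.disj s _ _ h1 hφ hne
        have h5 : |φ' - φ| ≤ η := by
          rw [abs_le]
          constructor <;> linarith
        linarith)
      (fun x hx => hG.Fne s x φ hx hφ) (β s + δ) ⟨by linarith, le_rfl⟩ (β s - δ)
      ⟨le_rfl, by linarith⟩
    have hcont : ∀ y : ℝ, ContinuousOn (fun x => ev f x y) (Icc (β s - δ) (β s + δ)) := fun y =>
      ((Cnt_cont f).comp (continuous_id.prodMk continuous_const)).continuousOn
    have hxx : ∀ x ∈ Icc (β s - δ) (β s + δ), |x - β s| ≤ δ := by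
      intro x hx
      rw [abs_le]
      constructor <;> linarith [hx.1, hx.2]
    have s1 : SignType.sign (ev f (β s - δ) (φ + η)) = SignType.sign (ev f (β s + δ) (φ + η)) :=
      Cnt_sign (hcont _) (fun x hx h0 => hsepx x (hxx x hx) _ h0 (by
        rw [show φ + η - φ = η by ring, abs_of_pos hη])) ⟨le_rfl, by linarith⟩
        ⟨by linarith, le_rfl⟩
    have s2 : SignType.sign (ev f (β s - δ) (φ - η)) = SignType.sign (ev f (β s + δ) (φ - η)) :=
      Cnt_sign (hcont _) (fun x hx h0 => hsepx x (hxx x hx) _ h0 (by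
        rw [show φ - η - φ = -η by ring, abs_neg, abs_of_pos hη])) ⟨le_rfl, by linarith⟩
        ⟨by linarith, le_rfl⟩
    rw [s1, s2] at gL
    rw [rR] at kR
    rw [rL] at kL
    linarith

end Pool.Agent.NCC
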