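import Pool.Agent.NCC.StA

/-!
# NCC, [Conv]: conversion to polynomials in two variables
-/

set_option autoImplicit false

namespace Pool.Agent.NCC

open Polynomial Filter Topology

/-- polynomials in `x` as polynomials in two variables -/
private noncomputable def Conv_in : ℝ[X] →+* RP :=
  (Polynomial.aeval (MvPolynomial.X 0 : RP)).toRingHom

/-- the conversion -/
private noncomputable def Conv_f : BP →+* RP :=
  Polynomial.eval₂RingHom Conv_in (MvPolynomial.X 1)

private theorem Conv_supp (i j : ℕ) (m : Fin 2 →₀ ℕ) :
    Finsupp.single 0 i + Finsupp.single 1 j = m ↔ i = m 0 ∧ j = m 1 := by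
  constructor
  · intro h
    rw [← h]
    simp
  · rintro ⟨h0, h1⟩
    ext l
    fin_cases l
    · simp [h0]
    · simp [h1]

private theorem Conv_mono (i j : ℕ) (r : ℝ) :
    Conv_f (monomial j (monomial i r)) =
      MvPolynomial.monomial (Finsupp.single 0 i + Finsupp.single 1 j) r := by
  unfold Conv_f Conv_in
  rw [Polynomial.coe_eval₂RingHom, Polynomial.eval₂_monomial]
  change Polynomial.aeval (MvPolynomial.X 0 : RP) (monomial i r) * _ = _
  rw [Polynomial.aeval_monomial, MvPolynomial.algebraMap_eq, MvPolynomial.X_pow_eq_monomial,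
    MvPolynomial.X_pow_eq_monomial, MvPolynomial.C_mul_monomial, MvPolynomial.monomial_mul,
    mul_one, mul_one]

/-- the coefficients -/
private theorem Conv_coeff (F : BP) (m : Fin 2 →₀ ℕ) :
    MvPolynomial.coeff m (Conv_f F) = (F.coeff (m 1)).coeff (m 0) := by
  classical
  induction F using Polynomial.induction_on' with
  | add p q hp hq => rw [map_add, MvPolynomial.coeff_add, hp, hq, coeff_add, coeff_add]
  | monomial j a =>
    induction a using Polynomial.induction_on' with
    | add p q hp hq =>
      rw [map_add, map_add, MvPolynomial.coeff_add, hp, hq, coeff_add, coeff_add]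
    | monomial i r =>
      rw [Conv_mono, MvPolynomial.coeff_monomial]
      simp only [Conv_supp]
      rw [coeff_monomial]
      by_cases hj : j = m 1
      · rw [if_pos hj, coeff_monomial]
        by_cases hi : i = m 0
        · rw [if_pos ⟨hi, hj⟩, if_pos hi]
        · rw [if_neg (fun h => hi h.1), if_neg hi]
      · rw [if_neg (fun h => hj h.2), if_neg hj, coeff_zero]

/-- the values -/
private theorem Conv_eval (F : BP) (x y : ℝ) :
    MvPolynomial.eval ![x, y] (Conv_f F) = ev F x y := by
  unfold ev sl
  induction F using Polynomial.induction_on' with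
  | add p q hp hq => rw [map_add, map_add, hp, hq, Polynomial.map_add, eval_add]
  | monomial j a =>
    induction a using Polynomial.induction_on' with
    | add p q hp hq =>
      rw [map_add, map_add, map_add, hp, hq, Polynomial.map_add, eval_add]
    | monomial i r =>
      rw [Conv_mono, MvPolynomial.eval_monomial, Polynomial.map_monomial, eval_monomial]
      simp [Finsupp.prod_add_index', pow_add, Polynomial.eval_monomial]
      ring

/-- the value of the component of degree `n` -/
private theorem Conv_comp (F : BP) (n : ℕ) (v : Fin 2 → ℂ) :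
    MvPolynomial.aeval v (MvPolynomial.homogeneousComponent n (Conv_f F)) =
      ∑ j ∈ Finset.range (n + 1), (((F.coeff j).coeff (n - j) : ℝ) : ℂ) * v 0 ^ (n - j) * v 1 ^ j := by
  classical
  have h : MvPolynomial.homogeneousComponent n (Conv_f F) =
      ∑ j ∈ Finset.range (n + 1), MvPolynomial.monomial
        (Finsupp.single 0 (n - j) + Finsupp.single 1 j) ((F.coeff j).coeff (n - j)) := by
    ext m
    rw [MvPolynomial.coeff_homogeneousComponent, MvPolynomial.coeff_sum, Conv_coeff]
    simp only [MvPolynomial.coeff_monomial, Conv_supp]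
    have hm : m.degree = m 0 + m 1 := by
      rw [Finsupp.degree_eq_sum, Fin.sum_univ_two]
    by_cases hn : m.degree = n
    · rw [if_pos hn, Finset.sum_eq_single (m 1)]
      · have h0 : n - m 1 = m 0 := by omega
        rw [if_pos ⟨h0, rfl⟩, h0]
      · intro j _ hj
        rw [if_neg (fun h => hj h.2)]
      · intro h1
        rw [Finset.mem_range] at h1
        omega
    · rw [if_neg hn]
      symm
      apply Finset.sum_eq_zero
      intro j hj
      rw [Finset.mem_range] at hj
      rw [if_neg]
      rintro ⟨h1, h2⟩
      omega
  rw [h, map_sum]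
  apply Finset.sum_congr rfl
  intro j _
  rw [MvPolynomial.aeval_monomial]
  simp [Finsupp.prod_add_index', pow_add]
  ring

/-- chain rule -/
private theorem Conv_chain (P : RP) (α β : ℝ → ℝ) (a b t : ℝ) (hα : HasDerivAt α a t)
    (hβ : HasDerivAt β b t) :
    HasDerivAt (fun s => MvPolynomial.eval ![α s, β s] P)
      (MvPolynomial.eval ![α t, β t] (MvPolynomial.pderiv 0 P) * a +
        MvPolynomial.eval ![α t, β t] (MvPolynomial.pderiv 1 P) * b) t := by
  induction P using MvPolynomial.induction_on with
  | C r =>
    simp only [MvPolynomial.eval_C, MvPolynomial.pderiv_C, map_zero, zero_mul, add_zero]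
    exact hasDerivAt_const t r
  | add p q hp hq =>
    simp only [map_add]
    have := hp.add hq
    refine this.congr_deriv ?_
    ring
  | mul_X p i hp =>
    simp only [map_mul, MvPolynomial.eval_X, MvPolynomial.pderiv_mul, map_add]
    fin_cases i
    · have := hp.mul hα
      refine this.congr_deriv ?_
      simp [MvPolynomial.pderiv_X]
      ring
    · have := hp.mul hβ
      refine this.congr_deriv ?_
      simp [MvPolynomial.pderiv_X]
      ring

/-- the total degree -/
private theorem Conv_deg (F : BP) (n : ℕ) (h : ∀ i j, n < i + j → (F.coeff j).coeff i = 0)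
    (i j : ℕ) (hij : i + j = n) (h0 : (F.coeff j).coeff i ≠ 0) : (Conv_f F).totalDegree = n := by
  apply le_antisymm
  · unfold MvPolynomial.totalDegree
    apply Finset.sup_le
    intro m hm
    by_contra hlt
    apply MvPolynomial.mem_support_iff.1 hm
    rw [Conv_coeff]
    apply h
    have hd : (m.sum fun _ e => e) = m 0 + m 1 := by
      rw [Finsupp.sum_fintype _ _ (fun _ => rfl), Fin.sum_univ_two]
    omega
  · have hm : Finsupp.single 0 i + Finsupp.single 1 j ∈ (Conv_f F).support := by
      rw [MvPolynomial.mem_support_iff, Conv_coeff]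
      simpa using h0
    have h1 := MvPolynomial.le_totalDegree hm
    have hd : ((Finsupp.single (0 : Fin 2) i + Finsupp.single 1 j).sum fun _ e => e) = n := by
      rw [Finsupp.sum_fintype _ _ (fun _ => rfl), Fin.sum_univ_two]
      simpa using hij
    rw [hd] at h1
    exact h1

private theorem Conv_TD {F : BP} {n : ℕ} (h : TD F n) (i j : ℕ) (hij : n < i + j) :
    (F.coeff j).coeff i = 0 := by
  by_contra h0
  have h1 : F.coeff j ≠ 0 := by
    intro h1
    apply h0
    rw [h1, coeff_zero]
  have h2 := h j h1
  have h3 := le_natDegree_of_ne_zero h0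
  omega

/-- the coefficients of the second polynomial -/
private theorem Conv_g (f g₀ : BP) (lam : ℝ) (N : ℕ) (i j : ℕ) :
    ((g₀ + C (C lam * X ^ (2 * N + 1)) * derivative f).coeff j).coeff i =
      (g₀.coeff j).coeff i + if 2 * N + 1 ≤ i then
        lam * ((f.coeff (j + 1)).coeff (i - (2 * N + 1)) * (j + 1)) else 0 := by
  rw [coeff_add, coeff_add, coeff_C_mul, coeff_derivative, mul_assoc, coeff_C_mul,
    coeff_X_pow_mul']
  congr 1
  split_ifs with h
  · congr 1
    have h1 : ((j : ℝ[X]) + 1) = C ((j : ℝ) + 1) := by simp
    rw [h1, coeff_mul_C]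
  · rw [mul_zero]

theorem thm_Conv : St_Conv := by
  intro c N f g g₀ lam hc hm hd hTD hsp hnd hlam hTD0 hg
  have hfc : f.coeff c = 1 := by
    rw [← hd]
    exact hm
  have hfc0 : (f.coeff c).coeff 0 = 1 := by
    rw [hfc, coeff_one_zero]
  have hfbig : ∀ j, c < j → f.coeff j = 0 := fun j hj => coeff_eq_zero_of_natDegree_lt (by omega)
  have hgc : ∀ i j, (g.coeff j).coeff i = (g₀.coeff j).coeff i + if 2 * N + 1 ≤ i then
      lam * ((f.coeff (j + 1)).coeff (i - (2 * N + 1)) * (j + 1)) else 0 := by
    intro i j
    rw [hg]
    exact Conv_g f g₀ lam N i j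
  -- the coefficients of the top component of the second polynomial
  have hgt : ∀ j, j < c → (g.coeff j).coeff (2 * N + c - j) =
      lam * ((f.coeff (j + 1)).coeff (c - (j + 1)) * (j + 1)) := by
    intro j hj
    rw [hgc, Conv_TD hTD0 _ _ (by omega), zero_add, if_pos (by omega)]
    have h1 : 2 * N + c - j - (2 * N + 1) = c - (j + 1) := by omega
    rw [h1]
  have hgt' : ∀ j, c ≤ j → j < 2 * N + c + 1 → (g.coeff j).coeff (2 * N + c - j) = 0 := by
    intro j hj hj'
    rw [hgc, Conv_TD hTD0 _ _ (by omega), zero_add, if_neg (by omega)]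
  have hp : (Conv_f f).totalDegree = c :=
    Conv_deg f c (fun i j h => Conv_TD hTD i j h) 0 c (by omega) (by rw [hfc0]; exact one_ne_zero)
  have hq : (Conv_f g).totalDegree = 2 * N + c := by
    refine Conv_deg g (2 * N + c) ?_ (2 * N + 1) (c - 1) (by omega) ?_
    · intro i j hij
      rw [hgc, Conv_TD hTD0 _ _ (by omega), zero_add]
      split_ifs with h
      · rw [Conv_TD hTD _ _ (by omega), zero_mul, mul_zero]
      · rfl
    · have h1 := hgt (c - 1) (by omega)
      have h2 : 2 * N + c - (c - 1) = 2 * N + 1 := by omega
      have h3 : c - 1 + 1 = c := by omega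
      rw [h2, h3, Nat.sub_self, hfc0, one_mul] at h1
      rw [h1]
      apply mul_ne_zero hlam
      have : (0 : ℝ) ≤ ((c - 1 : ℕ) : ℝ) := Nat.cast_nonneg _
      linarith
  refine ⟨Conv_f f, Conv_f g, hp, Conv_eval f, Conv_eval g, ?_, ?_⟩
  · intro v hv1 hv2
    unfold lead at hv1 hv2
    rw [hp, Conv_comp] at hv1
    rw [hq, Conv_comp] at hv2
    by_cases h0 : v 0 = 0
    · rw [Finset.sum_range_succ, Nat.sub_self, hfc0, pow_zero, mul_one, Complex.ofReal_one,
        one_mul, h0, Finset.sum_eq_zero, zero_add] at hv1
      · have h1 : v 1 = 0 := eq_zero_of_pow_eq_zero hv1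
        funext l
        fin_cases l
        · exact h0
        · exact h1
      · intro j hj
        rw [Finset.mem_range] at hj
        rw [zero_pow (by omega), mul_zero, zero_mul]
    · exfalso
      set s : ℂ := v 1 / v 0 with hs
      have hv : v 1 = s * v 0 := by
        rw [hs, div_mul_cancel₀ _ h0]
      -- the first equation
      have e1 : Polynomial.aeval s (lf f c) = 0 := by
        have h1 : v 0 ^ c * Polynomial.aeval s (lf f c) = 0 := by
          rw [← hv1]
          unfold lf
          rw [map_sum, Finset.mul_sum]
          apply Finset.sum_congr rfl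
          intro j hj
          rw [Finset.mem_range] at hj
          rw [map_mul, aeval_C, map_pow, aeval_X, hv, mul_pow]
          have h2 : v 0 ^ c = v 0 ^ (c - j) * v 0 ^ j := by
            rw [← pow_add]
            congr 1
            omega
          rw [h2]
          change _ * ((((f.coeff j).coeff (c - j) : ℝ) : ℂ) * _) = _
          ring
        rcases mul_eq_zero.1 h1 with h2 | h2
        · exact absurd (eq_zero_of_pow_eq_zero h2) h0
        · exact h2
      -- the second equation
      have e2 : Polynomial.aeval s (derivative (lf f c)) = 0 := by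
        have hder : derivative (lf f c) = ∑ j ∈ Finset.range c,
            C ((f.coeff (j + 1)).coeff (c - (j + 1)) * ((j : ℝ) + 1)) * X ^ j := by
          unfold lf
          rw [map_sum, Finset.sum_range_succ']
          rw [pow_zero, mul_one, derivative_C, add_zero]
          apply Finset.sum_congr rfl
          intro j _
          rw [derivative_C_mul, derivative_X_pow, Nat.add_sub_cancel, ← mul_assoc, ← C_mul]
          push_cast
          rfl
        have h1 : ((lam : ℝ) : ℂ) * v 0 ^ (2 * N + c) * Polynomial.aeval s (derivative (lf f c)) = 0 := by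
          rw [hder]
          have hsplit : 2 * N + c + 1 = c + (2 * N + 1) := by ring
          rw [hsplit, Finset.sum_range_add] at hv2
          rw [Finset.sum_eq_zero (s := Finset.range (2 * N + 1)), add_zero] at hv2
          · rw [map_sum, Finset.mul_sum, ← hv2]
            apply Finset.sum_congr rfl
            intro j hj
            rw [Finset.mem_range] at hj
            rw [hgt j hj, map_mul, aeval_C, map_pow, aeval_X, hv, mul_pow]
            have h2 : v 0 ^ (2 * N + c) = v 0 ^ (2 * N + c - j) * v 0 ^ j := by
              rw [← pow_add]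
              congr 1
              omega
            rw [h2]
            change _ * ((((f.coeff (j + 1)).coeff (c - (j + 1)) * ((j : ℝ) + 1) : ℝ) : ℂ) * _) = _
            push_cast
            ring
          · intro j hj
            rw [Finset.mem_range] at hj
            rw [hgt' (c + j) (by omega) (by omega)]
            simp
        rcases mul_eq_zero.1 h1 with h2 | h2
        · rcases mul_eq_zero.1 h2 with h3 | h3
          · exact absurd (Complex.ofReal_eq_zero.1 h3) hlam
          · exact absurd (eq_zero_of_pow_eq_zero h3) h0
        · exact h2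
      have hlf : lf f c ≠ 0 := by
        intro h1
        have h2 : (lf f c).coeff c = 1 := by
          unfold lf
          rw [finsetSum_coeff, Finset.sum_eq_single c]
          · rw [coeff_C_mul, coeff_X_pow_self, mul_one, Nat.sub_self, hfc0]
          · intro j _ hj
            rw [coeff_C_mul, coeff_X_pow, if_neg (Ne.symm hj), mul_zero]
          · intro h3
            exact absurd (Finset.mem_range.2 (Nat.lt_succ_self c)) h3
        rw [h1, coeff_zero] at h2
        exact zero_ne_one h2
      obtain ⟨u, w, huw⟩ := (nodup_roots_iff_of_splits hlf hsp).1 hnd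
      have h3 := congrArg (Polynomial.aeval s) huw
      rw [map_add, map_mul, map_mul, e1, e2, mul_zero, mul_zero, add_zero, map_one] at h3
      exact zero_ne_one h3
  · intro x ψ hψ hzero
    have hd1 := Conv_chain (Conv_f f) (fun x' => x') ψ 1 (deriv ψ x) x (hasDerivAt_id' x)
      hψ.hasDerivAt
    have hd2 := Conv_chain (Conv_f g) (fun x' => x') ψ 1 (deriv ψ x) x (hasDerivAt_id' x)
      hψ.hasDerivAt
    have hy : MvPolynomial.eval ![x, ψ x] (MvPolynomial.pderiv 1 (Conv_f f)) =
        ev (derivative f) x (ψ x) := by
      have h1 := Conv_chain (Conv_f f) (fun _ => x) (fun y => y) 0 1 (ψ x)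
        (hasDerivAt_const _ _) (hasDerivAt_id' _)
      have h2 : HasDerivAt (fun y => ev f x y) (ev (derivative f) x (ψ x)) (ψ x) := by
        unfold ev sl
        have h3 := (f.map (evalRingHom x)).hasDerivAt (ψ x)
        rwa [derivative_map] at h3
      have h4 : (fun s => MvPolynomial.eval ![x, s] (Conv_f f)) = fun y => ev f x y := by
        funext y
        exact Conv_eval f x y
      rw [h4] at h1
      have h5 := h1.unique h2
      rw [mul_zero, zero_add, mul_one] at h5
      exact h5
    have hz : HasDerivAt (fun s => MvPolynomial.eval ![s, ψ s] (Conv_f f)) 0 x := by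
      refine (hasDerivAt_const x (0 : ℝ)).congr_of_eventuallyEq ?_
      filter_upwards [hzero] with s hs
      rw [Conv_eval]
      exact hs
    have e1 := hd1.unique hz
    have e2 : deriv (fun x' => ev g x' (ψ x')) x =
        MvPolynomial.eval ![x, ψ x] (MvPolynomial.pderiv 0 (Conv_f g)) * 1 +
        MvPolynomial.eval ![x, ψ x] (MvPolynomial.pderiv 1 (Conv_f g)) * deriv ψ x := by
      rw [← hd2.deriv]
      congr 1
      funext s
      exact (Conv_eval g s (ψ s)).symm
    rw [e2, ← hy]
    unfold jac
    rw [map_sub, map_mul, map_mul]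
    have e3 : MvPolynomial.eval ![x, ψ x] (MvPolynomial.pderiv 0 (Conv_f f)) =
        - (MvPolynomial.eval ![x, ψ x] (MvPolynomial.pderiv 1 (Conv_f f)) * deriv ψ x) := by
      linarith
    rw [e3]
    ring

end Pool.Agent.NCC
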