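import Pool.Agent.NCC.StS

/-!
# NCC: [Core] linear algebra, dimension of the isotropic subspace
-/

set_option autoImplicit false

namespace Pool.Agent.NCC

open MvPolynomial Module
open scoped ComplexConjugate

section

variable {Q : Type} [CommRing Q] [Algebra ℂ Q]

/-- subspaces exchanged by a semilinear involution have the same dimension -/
theorem Core_dim (τ : Q → Q) (hadd : ∀ x y, τ (x + y) = τ x + τ y)
    (hsm : ∀ (z : ℂ) (x : Q), τ (z • x) = conj z • τ x) (hinv : ∀ x, τ (τ x) = x)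
    (S T : Submodule ℂ Q) (hS : ∀ x ∈ S, τ x ∈ T) (hT : ∀ x ∈ T, τ x ∈ S) :
    finrank ℂ S = finrank ℂ T := by
  let e : S ≃+ T :=
    { toFun := fun x => ⟨τ x.1, hS x.1 x.2⟩
      invFun := fun x => ⟨τ x.1, hT x.1 x.2⟩
      left_inv := fun x => Subtype.ext (hinv x.1)
      right_inv := fun x => Subtype.ext (hinv x.1)
      map_add' := fun x y => Subtype.ext (hadd x.1 y.1) }
  have h : Module.rank ℂ S = Module.rank ℂ T :=
    rank_eq_of_equiv_equiv (fun z : ℂ => conj z) e
      ⟨fun x y hxy => by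
        have := congrArg (fun z : ℂ => conj z) hxy
        simpa using this, fun x => ⟨conj x, by simp⟩⟩
      (fun z x => Subtype.ext (hsm z x.1))
  unfold finrank
  rw [h]

/-- orthogonal complements for a nondegenerate form `L (x y)` -/
theorem Core_orth [Module.Finite ℂ Q] (L : Q →ₗ[ℂ] ℂ)
    (hL : ∀ h : Q, (∀ h' : Q, L (h * h') = 0) → h = 0) (W : Submodule ℂ Q) :
    ∃ W' : Submodule ℂ Q, (∀ x, x ∈ W' ↔ ∀ w ∈ W, L (x * w) = 0) ∧
      finrank ℂ W + finrank ℂ W' = finrank ℂ Q := by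
  let β : LinearMap.BilinForm ℂ Q := (LinearMap.mul ℂ Q).compr₂ L
  have hβ : ∀ x y, β x y = L (x * y) := fun x y => rfl
  have hnd : β.Nondegenerate := by
    constructor
    · intro x hx
      exact hL x fun y => (hβ x y).symm.trans (hx y)
    · intro x hx
      apply hL x
      intro y
      rw [mul_comm]
      exact (hβ y x).symm.trans (hx y)
  refine ⟨β.orthogonal W, ?_, ?_⟩
  · intro x
    rw [LinearMap.BilinForm.mem_orthogonal_iff]
    refine forall_congr' fun w => forall_congr' fun _ => ?_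
    rw [hβ, mul_comm]
  · have h1 := LinearMap.BilinForm.finrank_orthogonal hnd W
    have h2 : finrank ℂ W ≤ finrank ℂ Q := Submodule.finrank_le W
    omega

/-- rank and kernel of a restriction -/
theorem Core_ker [Module.Finite ℂ Q] {m : ℕ} (f : Q →ₗ[ℂ] (Fin m → ℂ)) (U K : Submodule ℂ Q)
    (hK : ∀ x ∈ U, f x = 0 → x ∈ K) :
    finrank ℂ U ≤ finrank ℂ (U.map f) + finrank ℂ K := by
  have h1 := LinearMap.finrank_range_add_finrank_ker (f.domRestrict U)
  rw [LinearMap.range_domRestrict] at h1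
  have h2 : finrank ℂ (LinearMap.ker (f.domRestrict U)) ≤ finrank ℂ K := by
    rw [← Submodule.finrank_map_subtype_eq U (LinearMap.ker (f.domRestrict U))]
    apply Submodule.finrank_mono
    rintro x ⟨y, hy, rfl⟩
    exact hK y.1 y.2 hy
  omega

end

theorem thm_Core : St_Core := by
  intro Q _ _ _ τ m χ δ hadd hmul hsm hinv hδ hχδ hχτ A B hAB hA hB hτA hχA hχB hdec L P P' hL
    hPP' hτP hLP hdim
  -- elementary facts
  have hτsum : ∀ (s : Fin m → Q), τ (∑ i, s i) = ∑ i, τ (s i) := by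
    intro s
    exact map_sum (AddMonoidHom.mk' τ hadd) s Finset.univ
  have hδA : ∀ a ∈ A, ∀ i, δ i * a = 0 := by
    intro a ha i
    rw [mul_comm, hδ i a, hχA a ha i, zero_smul]
  have hδB : ∀ b ∈ B, ∀ i, δ i * b = 0 := by
    intro b hb i
    rw [mul_comm, hδ i b, hχB b hb i, zero_smul]
  have hBA : ∀ b ∈ B, ∀ a ∈ A, b * a = 0 := fun b hb a ha => by
    rw [mul_comm]
    exact hAB a ha b hb
  have hBτ : ∀ b ∈ B, τ b ∈ A := by
    intro b hb
    rw [hτA, hinv]
    exact hb
  have hAτ : ∀ a ∈ A, τ a ∈ B := fun a ha => (hτA a).1 ha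
  have hτδ : ∀ i, τ (δ i) = δ i := by
    intro i
    have h1 : δ i * τ (δ i) = τ (δ i) := by
      have : δ i * τ (δ i) = τ (τ (δ i) * δ i) := by
        rw [hmul, hinv]
      rw [this, hδ i, hsm, hχτ, hχδ, if_pos rfl]
      simp
    have h2 : τ (δ i) * δ i = δ i := by
      rw [hδ i, hχτ, hχδ, if_pos rfl]
      simp
    rw [← h1, mul_comm]
    exact h2
  let Ev : Q →ₗ[ℂ] (Fin m → ℂ) := LinearMap.pi fun i => (χ i).toLinearMap
  have hEv : ∀ x i, Ev x i = χ i x := fun x i => rfl
  -- dimension of A + B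
  have hsurj : LinearMap.range Ev = ⊤ := by
    rw [LinearMap.range_eq_top]
    intro c
    refine ⟨∑ j, c j • δ j, ?_⟩
    funext i
    rw [hEv, map_sum]
    rw [Finset.sum_eq_single i]
    · rw [map_smul, hχδ, if_pos rfl, smul_eq_mul, mul_one]
    · intro j _ hj
      rw [map_smul, hχδ, if_neg (Ne.symm hj), smul_zero]
    · intro h
      exact absurd (Finset.mem_univ i) h
  have hker : LinearMap.ker Ev = A ⊔ B := by
    apply le_antisymm
    · intro x hx
      obtain ⟨a, ha, b, hb, hx2⟩ := hdec x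
      have h0 : ∀ i, χ i x = 0 := fun i => congrFun (LinearMap.mem_ker.1 hx) i
      rw [hx2, Finset.sum_eq_zero (fun i _ => by rw [h0 i, zero_smul]), zero_add]
      exact Submodule.add_mem_sup ha hb
    · rw [sup_le_iff]
      constructor
      · intro a ha
        rw [LinearMap.mem_ker]
        funext i
        exact hχA a ha i
      · intro b hb
        rw [LinearMap.mem_ker]
        funext i
        exact hχB b hb i
  have hinf : A ⊓ B = ⊥ := by
    rw [Submodule.eq_bot_iff]
    rintro x ⟨hxA, hxB⟩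
    obtain ⟨a, ha, b, hb, h1⟩ := hdec 1
    have h2 : x = (1 : Q) * x := (one_mul x).symm
    rw [h2, h1, add_mul, add_mul, Finset.sum_mul, hAB a ha x hxB, hBA b hb x hxA, add_zero, add_zero]
    apply Finset.sum_eq_zero
    intro i _
    rw [smul_mul_assoc, hδA x hxA i, smul_zero]
  have hdimAB : finrank ℂ A = finrank ℂ B := Core_dim τ hadd hsm hinv A B hAτ hBτ
  have hdimQ : m + (finrank ℂ A + finrank ℂ B) = finrank ℂ Q := by
    have h1 := LinearMap.finrank_range_add_finrank_ker Ev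
    rw [hsurj, hker, finrank_top, Module.finrank_fin_fun] at h1
    have h2 := Submodule.finrank_sup_add_finrank_inf_eq A B
    rw [hinf, finrank_bot, add_zero] at h2
    omega
  -- orthogonal complements
  obtain ⟨Ao, hAo, -⟩ := Core_orth L hL A
  obtain ⟨Po, hPo, hPod⟩ := Core_orth L hL P'
  obtain ⟨So, hSo, hSod⟩ := Core_orth L hL (P' ⊔ A)
  have hPPo : P = Po := by
    apply Submodule.eq_of_le_of_finrank_le
    · intro x hx
      rw [hPo]
      intro w hw
      exact hLP x hx w hw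
    · omega
  have hSoU : So ≤ P ⊓ Ao := by
    intro x hx
    rw [hSo] at hx
    refine ⟨?_, ?_⟩
    · rw [hPPo]
      show x ∈ Po
      rw [hPo]
      intro w hw
      exact hx w (Submodule.mem_sup_left hw)
    · show x ∈ Ao
      rw [hAo]
      intro w hw
      exact hx w (Submodule.mem_sup_right hw)
  have hAod : ∀ h ∈ Ao, ∃ b ∈ B, h = ∑ i, χ i h • δ i + b := by
    intro h hh
    rw [hAo] at hh
    obtain ⟨a, ha, b, hb, hx⟩ := hdec h
    have ha0 : a = 0 := by
      apply hL
      intro h'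
      obtain ⟨a', ha', b', hb', hx'⟩ := hdec h'
      have h1 : a * h' = a * a' := by
        rw [hx', mul_add, mul_add, hAB a ha b' hb', add_zero, Finset.mul_sum,
          Finset.sum_eq_zero, zero_add]
        intro i _
        rw [mul_smul_comm, mul_comm, hδA a ha i, smul_zero]
      have h2 : h * a' = a * a' := by
        rw [hx, add_mul, add_mul, hBA b hb a' ha', add_zero, Finset.sum_mul,
          Finset.sum_eq_zero, zero_add]
        intro i _
        rw [smul_mul_assoc, hδA a' ha' i, smul_zero]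
      rw [h1, ← h2]
      exact hh a' ha'
    refine ⟨b, hb, ?_⟩
    rw [ha0, add_zero] at hx
    exact hx
  refine ⟨P ⊓ Ao, inf_le_left, ?_, ?_⟩
  · intro h₁ hh₁ h₂ hh₂ p
    obtain ⟨b₁, hb₁, e₁⟩ := hAod h₁ hh₁.2
    obtain ⟨b₂, hb₂, e₂⟩ := hAod h₂ hh₂.2
    have e3 : τ h₂ = ∑ i, conj (χ i h₂) • δ i + τ b₂ := by
      conv_lhs => rw [e₂]
      rw [hadd, hτsum]
      congr 1
      refine Finset.sum_congr rfl fun i _ => ?_
      rw [hsm, hτδ]
    have e4 : h₁ * τ b₂ = 0 := by
      have hb : τ b₂ ∈ A := hBτ b₂ hb₂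
      rw [e₁, add_mul, hBA b₁ hb₁ _ hb, add_zero, Finset.sum_mul]
      apply Finset.sum_eq_zero
      intro i _
      rw [smul_mul_assoc, hδA _ hb i, smul_zero]
    have e5 : h₁ * τ h₂ * p = ∑ i, (χ i h₁ * conj (χ i h₂) * χ i p) • δ i := by
      rw [e3, mul_add, e4, add_zero, Finset.mul_sum, Finset.sum_mul]
      refine Finset.sum_congr rfl fun i _ => ?_
      rw [mul_smul_comm, hδ i h₁, smul_mul_assoc, smul_mul_assoc, mul_comm (δ i) p, hδ i p,
        smul_smul, smul_smul]
      congr 1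
      ring
    rw [e5, map_sum]
    refine Finset.sum_congr rfl fun i _ => ?_
    rw [map_smul, smul_eq_mul]
  · have k1 : finrank ℂ So ≤ finrank ℂ (P ⊓ Ao : Submodule ℂ Q) := Submodule.finrank_mono hSoU
    have k2 := Core_ker Ev (P ⊓ Ao) (P ⊓ B) (by
      rintro x ⟨hxP, hxA⟩ hx
      obtain ⟨b, hb, e⟩ := hAod x hxA
      refine ⟨hxP, ?_⟩
      have h0 : ∀ i, χ i x = 0 := fun i => congrFun hx i
      rw [e, Finset.sum_eq_zero (fun i _ => by rw [h0 i, zero_smul]), zero_add]
      exact hb)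
    have k3 : finrank ℂ (P ⊓ A : Submodule ℂ Q) = finrank ℂ (P ⊓ B : Submodule ℂ Q) :=
      Core_dim τ hadd hsm hinv _ _ (fun x hx => ⟨hτP x hx.1, hAτ x hx.2⟩)
        (fun x hx => ⟨hτP x hx.1, hBτ x hx.2⟩)
    have k4 := Submodule.finrank_sup_add_finrank_inf_eq P' A
    have k5 : finrank ℂ (P ⊓ A : Submodule ℂ Q) ≤ finrank ℂ (P' ⊓ A : Submodule ℂ Q) :=
      Submodule.finrank_mono (inf_le_inf_right A hPP')
    have k6 : finrank ℂ P = finrank ℂ Po := by rw [hPPo]
    have k7 : finrank ℂ ((P ⊓ Ao).map (LinearMap.pi fun i => (χ i).toLinearMap :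
      Q →ₗ[ℂ] (Fin m → ℂ))) = finrank ℂ ((P ⊓ Ao).map Ev) := rfl
    rw [k7]
    omega

end Pool.Agent.NCC
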