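import Pool.Agent.NCC.StC

/-!
# NCC, module DS : from charges to signature data
-/

set_option autoImplicit false

namespace Pool.Agent.NCC

open Polynomial Filter Topology Set

section DS

variable {c : ℕ} {F : BP} {w : ℂ →₀ ℤ} {s : ℝ → ℝ → ℤ}

private lemma DS_sl_monic (hF : F.Monic) (x : ℝ) : (sl F x).Monic := hF.map _

private lemma DS_sl_deg (hF : F.Monic) (x : ℝ) : (sl F x).natDegree = F.natDegree :=
  hF.natDegree_map _

private lemma DS_mem (hF : F.Monic) (x y : ℝ) : y ∈ (sl F x).roots ↔ ev F x y = 0 := by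
  rw [mem_roots (DS_sl_monic hF x).ne_zero]
  rfl

private lemma DS_memT (hF : F.Monic) (x y : ℝ) : y ∈ (sl F x).roots.toFinset ↔ ev F x y = 0 := by
  rw [Multiset.mem_toFinset, DS_mem hF]

private lemma DS_ev_sum (F : BP) (x y : ℝ) :
    ev F x y = ∑ j ∈ Finset.range (F.natDegree + 1), (F.coeff j).eval x * y ^ j := by
  unfold ev sl
  rw [eval_map, eval₂_eq_sum_range]
  rfl

private lemma DS_cont (F : BP) : Continuous fun q : ℝ × ℝ => ev F q.1 q.2 := by
  simp only [DS_ev_sum]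
  refine continuous_finsetSum _ fun j _ => ?_
  exact ((F.coeff j).continuous.comp continuous_fst).mul (continuous_snd.pow j)

private lemma DS_bound (hF : F.Monic) (x₀ : ℝ) :
    ∃ Y : ℝ, ∀ x : ℝ, |x - x₀| ≤ 1 → ∀ y, ev F x y = 0 → |y| < Y := by
  have hK : ∀ j, ∃ K : ℝ, ∀ x ∈ Icc (x₀ - 1) (x₀ + 1), ‖(F.coeff j).eval x‖ ≤ K := fun j =>
    isCompact_Icc.exists_bound_of_continuousOn ((F.coeff j).continuous.continuousOn)
  choose K hK using hK
  refine ⟨(∑ j ∈ Finset.range F.natDegree, |K j|) + 1, ?_⟩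
  intro x hx y hy
  have hxI : x ∈ Icc (x₀ - 1) (x₀ + 1) := by
    rw [abs_le] at hx
    exact ⟨by linarith [hx.1], by linarith [hx.2]⟩
  have h1 : (sl F x).IsRoot y := hy
  have h2 := h1.norm_lt_cauchyBound (DS_sl_monic hF x).ne_zero
  have h0 : 0 ≤ ∑ j ∈ Finset.range F.natDegree, |K j| := Finset.sum_nonneg fun _ _ => abs_nonneg _
  have h3 : cauchyBound (sl F x) ≤ Real.toNNReal (∑ j ∈ Finset.range F.natDegree, |K j|) + 1 := by
    unfold cauchyBound
    rw [(DS_sl_monic hF x).leadingCoeff, nnnorm_one, div_one, DS_sl_deg hF]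
    refine add_le_add (Finset.sup_le ?_) le_rfl
    intro j hj
    rw [← NNReal.coe_le_coe, coe_nnnorm, Real.coe_toNNReal _ h0]
    have h4 : (sl F x).coeff j = (F.coeff j).eval x := by
      unfold sl
      rw [coeff_map]
      rfl
    rw [h4]
    refine ((hK j x hxI).trans (le_abs_self _)).trans ?_
    exact Finset.single_le_sum (f := fun j => |K j|) (fun _ _ => abs_nonneg _) hj
  have h5 : ‖y‖₊ < Real.toNNReal (∑ j ∈ Finset.range F.natDegree, |K j|) + 1 := lt_of_lt_of_le h2 h3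
  have h6 : (‖y‖₊ : ℝ) < ((Real.toNNReal (∑ j ∈ Finset.range F.natDegree, |K j|) + 1 : NNReal) : ℝ) :=
    NNReal.coe_lt_coe.2 h5
  rw [coe_nnnorm, NNReal.coe_add, Real.coe_toNNReal _ h0, NNReal.coe_one, Real.norm_eq_abs] at h6
  exact h6

/-- the multiplicities add up -/
private lemma DS_cnt (F : BP) (x : ℝ) (P : ℝ → Prop) [DecidablePred P] :
    ((sl F x).roots.filter P).card =
      ∑ y ∈ (sl F x).roots.toFinset.filter P, (sl F x).rootMultiplicity y := by
  classical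
  rw [← Multiset.toFinset_sum_count_eq, Multiset.toFinset_filter]
  refine Finset.sum_congr rfl ?_
  intro y hy
  rw [Multiset.count_filter_of_pos (Finset.mem_filter.1 hy).2, count_roots]

/-- the function -/
private noncomputable def DS_B (F : BP) (s : ℝ → ℝ → ℤ) (x y : ℝ) : ℤ :=
  ∑ y' ∈ (sl F x).roots.toFinset.filter (fun y' => y' < y), s x y'

private noncomputable def DS_A (w : ℂ →₀ ℤ) (x : ℝ) : ℤ :=
  ∑ z ∈ w.support.filter (fun z => z.re < x), w z

private lemma DS_B_sub (hF : F.Monic) (s : ℝ → ℝ → ℤ) (x y₁ y₂ : ℝ) (h : y₁ < y₂)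
    (h1 : ev F x y₁ ≠ 0) : DS_B F s x y₂ - DS_B F s x y₁ = chg F s x y₁ y₂ := by
  classical
  unfold DS_B chg
  have e : (sl F x).roots.toFinset.filter (fun y' => y' < y₂) =
      (sl F x).roots.toFinset.filter (fun y' => y' < y₁) ∪
        (sl F x).roots.toFinset.filter (fun y => y₁ < y ∧ y < y₂) := by
    ext y
    simp only [Finset.mem_filter, Finset.mem_union]
    constructor
    · rintro ⟨h2, h3⟩
      rcases lt_trichotomy y y₁ with h4 | h4 | h4
      · exact Or.inl ⟨h2, h4⟩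
      · rw [DS_memT hF, h4] at h2
        exact absurd h2 h1
      · exact Or.inr ⟨h2, h4, h3⟩
    · rintro (⟨h2, h3⟩ | ⟨h2, h3, h4⟩)
      · exact ⟨h2, h3.trans h⟩
      · exact ⟨h2, h4⟩
  rw [e, Finset.sum_union]
  · ring
  · rw [Finset.disjoint_left]
    intro y h2 h3
    have h4 := (Finset.mem_filter.1 h2).2
    have h5 := (Finset.mem_filter.1 h3).2.1
    exact lt_asymm h4 h5

/-- below all roots -/
private lemma DS_B_low (s : ℝ → ℝ → ℤ) (x Y₁ y : ℝ)
    (h : ∀ y', y' ∈ (sl F x).roots.toFinset → Y₁ < y') : DS_B F s x y = chg F s x Y₁ y := by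
  unfold DS_B chg
  congr 1
  ext y'
  simp only [Finset.mem_filter]
  constructor
  · rintro ⟨h2, h3⟩
    exact ⟨h2, h y' h2, h3⟩
  · rintro ⟨h2, _, h3⟩
    exact ⟨h2, h3⟩

/-- no root between -/
private lemma DS_chg_eq (hF : F.Monic) (s : ℝ → ℝ → ℤ) (x Y₁ y y' : ℝ)
    (h : ∀ t, min y y' ≤ t → t ≤ max y y' → ev F x t ≠ 0) : chg F s x Y₁ y = chg F s x Y₁ y' := by
  unfold chg
  congr 1
  ext t
  simp only [Finset.mem_filter]
  constructor
  · rintro ⟨h2, h3, h4⟩
    refine ⟨h2, h3, ?_⟩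
    by_contra h5
    push Not at h5
    exact h t ((min_le_right _ _).trans h5) (h4.le.trans (le_max_left _ _)) ((DS_memT hF x t).1 h2)
  · rintro ⟨h2, h3, h4⟩
    refine ⟨h2, h3, ?_⟩
    by_contra h5
    push Not at h5
    exact h t ((min_le_left _ _).trans h5) (h4.le.trans (le_max_right _ _)) ((DS_memT hF x t).1 h2)

private lemma DS_chg_zero (hF : F.Monic) (s : ℝ → ℝ → ℤ) (x y₁ y₂ : ℝ)
    (h : ∀ t, y₁ < t → t < y₂ → ev F x t ≠ 0) : chg F s x y₁ y₂ = 0 := by
  unfold chg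
  refine Finset.sum_eq_zero_iff_of_nonneg ?_ |>.2 ?_
  all_goals
    intro t ht
    exact absurd ((DS_memT hF x t).1 (Finset.mem_filter.1 ht).1)
      (h t (Finset.mem_filter.1 ht).2.1 (Finset.mem_filter.1 ht).2.2)

/-- a box without zeros -/
private lemma DS_box (F : BP) (x y : ℝ) (h : ev F x y ≠ 0) : ∃ δ : ℝ, 0 < δ ∧
    ∀ x' y', |x' - x| < δ → |y' - y| < δ → ev F x' y' ≠ 0 := by
  have h1 : ∀ᶠ q : ℝ × ℝ in 𝓝 (x, y), ev F q.1 q.2 ≠ 0 :=
    (DS_cont F).continuousAt.eventually_ne h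
  rw [Metric.eventually_nhds_iff] at h1
  obtain ⟨δ, hδ, h1⟩ := h1
  refine ⟨δ, hδ, ?_⟩
  intro x' y' hx hy
  refine h1 (y := (x', y')) ?_
  rw [Prod.dist_eq, Real.dist_eq, Real.dist_eq]
  exact max_lt hx hy

/-- termwise equality -/
private lemma DS_eq {ι : Type*} (t : Finset ι) (f g : ι → ℤ) (h : ∀ i ∈ t, f i ≤ g i)
    (hs : ∑ i ∈ t, g i ≤ ∑ i ∈ t, f i) : ∀ i ∈ t, f i = g i := by
  have h1 : ∑ i ∈ t, f i = ∑ i ∈ t, g i := le_antisymm (Finset.sum_le_sum h) hs
  exact (Finset.sum_eq_sum_iff_of_le h).1 h1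

private lemma DS_zero (h : Charge c F w s) : ∀ z ∈ w.support, ev F z.re z.im = 0 := by
  intro z hz
  by_contra hne
  obtain ⟨δ, hδ, hb⟩ := DS_box F z.re z.im hne
  have h1 := h.cross z hz (z.im - δ / 2) (z.im + δ / 2) (by linarith)
    (hb _ _ (by rw [sub_self, abs_zero]; exact hδ) (by rw [abs_lt]; constructor <;> linarith))
    (hb _ _ (by rw [sub_self, abs_zero]; exact hδ) (by rw [abs_lt]; constructor <;> linarith))
  rw [if_pos ⟨by linarith, by linarith⟩] at h1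
  have h2 : ∀ᶠ e : ℝ in 𝓝[>] 0, e < δ ∧ 0 < e := by
    filter_upwards [Ioo_mem_nhdsGT hδ] with e he
    exact ⟨he.2, he.1⟩
  obtain ⟨e, h3, h4, h5⟩ := (h1.and h2).exists
  rw [DS_chg_zero h.monic s _ _ _ (fun t ht1 ht2 => hb _ _ (by rw [abs_lt]; constructor <;> linarith)
      (by rw [abs_lt]; constructor <;> linarith)),
    DS_chg_zero h.monic s _ _ _ (fun t ht1 ht2 => hb _ _ (by rw [abs_lt]; constructor <;> linarith)
      (by rw [abs_lt]; constructor <;> linarith))] at h3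
  have h6 : w z = 0 := by omega
  exact (Finsupp.mem_support_iff.1 hz) h6

private lemma DS_cnt_sum (F : BP) (x y₁ y₂ : ℝ) : (cnt F x y₁ y₂ : ℤ) =
    ∑ y ∈ (sl F x).roots.toFinset.filter (fun y => y₁ < y ∧ y < y₂),
      ((sl F x).rootMultiplicity y : ℤ) := by
  unfold cnt
  rw [DS_cnt]
  push_cast
  rfl

private lemma DS_jump (h : Charge c F w s) (x y₁ y₂ : ℝ) :
    |chg F s x y₁ y₂| ≤ cnt F x y₁ y₂ ∧ (chg F s x y₁ y₂ - cnt F x y₁ y₂) % 2 = 0 := by
  rw [DS_cnt_sum]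
  unfold chg
  refine ⟨?_, ?_⟩
  · refine (Finset.abs_sum_le_sum_abs _ _).trans ?_
    exact Finset.sum_le_sum fun y _ => (h.bound x y).1
  · rw [← Finset.sum_sub_distrib]
    apply Int.emod_eq_zero_of_dvd
    exact Finset.dvd_sum fun y _ => Int.dvd_of_emod_eq_zero (h.bound x y).2

private lemma DS_low (h : Charge c F w s) (x y : ℝ) : ∃ Y₁ : ℝ, Y₁ ≤ y - 1 ∧
    ∀ x' : ℝ, |x' - x| ≤ 1 → ev F x' Y₁ ≠ 0 ∧ ∀ y', y' ∈ (sl F x').roots.toFinset → Y₁ < y' := by
  obtain ⟨Y, hY⟩ := DS_bound h.monic x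
  refine ⟨min (-Y) (y - 1), min_le_right _ _, ?_⟩
  intro x' hx'
  have h1 : ∀ y', ev F x' y' = 0 → min (-Y) (y - 1) < y' := by
    intro y' hy'
    have h2 := hY x' hx' y' hy'
    rw [abs_lt] at h2
    exact lt_of_le_of_lt (min_le_left _ _) h2.1
  exact ⟨fun h0 => lt_irrefl _ (h1 _ h0), fun y' hy' => h1 y' ((DS_memT h.monic _ _).1 hy')⟩

private lemma DS_near (x : ℝ) {δ : ℝ} (hδ : 0 < δ) : ∀ᶠ x' : ℝ in 𝓝 x, |x' - x| < δ := by
  filter_upwards [Metric.ball_mem_nhds x hδ] with x' hx'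
  rwa [Metric.mem_ball, Real.dist_eq] at hx'

private lemma DS_loc (h : Charge c F w s) (x y : ℝ) (hx : ∀ z ∈ w.support, z.re ≠ x)
    (hy : ev F x y ≠ 0) :
    ∀ᶠ q : ℝ × ℝ in 𝓝 (x, y), DS_A w q.1 - DS_B F s q.1 q.2 = DS_A w x - DS_B F s x y := by
  obtain ⟨Y₁, hY₁, hlow⟩ := DS_low h x y
  obtain ⟨δ, hδ, hb⟩ := DS_box F x y hy
  have hxx : |x - x| ≤ 1 := by
    rw [sub_self, abs_zero]
    exact zero_le_one
  have h1 := h.loc x Y₁ y hx (by linarith) (hlow x hxx).1 hy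
  have h2 : ∀ᶠ x' : ℝ in 𝓝 x, DS_A w x' = DS_A w x := by
    have h3 : ∀ᶠ x' : ℝ in 𝓝 x, ∀ z ∈ w.support, (z.re < x' ↔ z.re < x) := by
      rw [Filter.eventually_all_finset]
      intro z hz
      rcases lt_or_gt_of_ne (hx z hz) with h4 | h4
      · filter_upwards [lt_mem_nhds h4] with x' hx'
        exact ⟨fun _ => h4, fun _ => hx'⟩
      · filter_upwards [gt_mem_nhds h4] with x' hx'
        exact ⟨fun h5 => absurd h5 (not_lt.2 hx'.le), fun h5 => absurd h5 (not_lt.2 h4.le)⟩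
    filter_upwards [h3] with x' hx'
    unfold DS_A
    rw [Finset.filter_congr hx']
  have h3 := DS_near x (lt_min hδ one_pos)
  have h4 := DS_near y hδ
  filter_upwards [(h1.and (h2.and h3)).prod_nhds h4] with q hq
  obtain ⟨⟨e1, e2, e3⟩, e4⟩ := hq
  have e5 : |q.1 - x| < δ := e3.trans_le (min_le_left _ _)
  have e6 : |q.1 - x| ≤ 1 := (e3.trans_le (min_le_right _ _)).le
  rw [e2, DS_B_low s q.1 Y₁ q.2 (hlow q.1 e6).2, DS_B_low s x Y₁ y (hlow x hxx).2, ← e1,
    DS_chg_eq h.monic s q.1 Y₁ q.2 y ?_]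
  intro t ht1 ht2
  refine hb q.1 t e5 ?_
  rw [abs_lt] at e4 ⊢
  rcases le_total q.2 y with h5 | h5
  · rw [min_eq_left h5] at ht1
    rw [max_eq_right h5] at ht2
    exact ⟨by linarith [e4.1], by linarith [e4.1]⟩
  · rw [min_eq_right h5] at ht1
    rw [max_eq_left h5] at ht2
    exact ⟨by linarith [e4.2], by linarith [e4.2]⟩

private lemma DS_A_cross (h : Charge c F w s) (z : ℂ) (hz : z ∈ w.support) :
    ∀ᶠ e : ℝ in 𝓝[>] 0, DS_A w (z.re + e) - DS_A w (z.re - e) = w z := by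
  classical
  have h1 : ∀ᶠ e : ℝ in 𝓝[>] 0, ∀ z' ∈ w.support,
      (z'.re < z.re + e ↔ z' = z ∨ z'.re < z.re - e) ∧ ¬ (z.re < z.re - e) := by
    rw [Filter.eventually_all_finset]
    intro z' hz'
    rcases lt_trichotomy z'.re z.re with h2 | h2 | h2
    · filter_upwards [Ioo_mem_nhdsGT (sub_pos.2 h2)] with e he
      exact ⟨⟨fun _ => Or.inr (by linarith [he.2]), fun _ => by linarith [he.1]⟩,
        by linarith [he.1]⟩
    · have h3 := h.inj z' hz' z hz h2
      filter_upwards [self_mem_nhdsWithin] with e he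
      have he' : (0 : ℝ) < e := he
      exact ⟨⟨fun _ => Or.inl h3, fun _ => by linarith⟩, by linarith⟩
    · filter_upwards [Ioo_mem_nhdsGT (sub_pos.2 h2)] with e he
      refine ⟨⟨fun h3 => absurd h3 (by linarith [he.2]), ?_⟩, by linarith [he.1]⟩
      rintro (h3 | h3)
      · rw [h3] at h2
        exact absurd h2 (lt_irrefl _)
      · linarith [he.1]
  filter_upwards [h1] with e he
  unfold DS_A
  have h2 : w.support.filter (fun z' => z'.re < z.re + e) =
      insert z (w.support.filter (fun z' => z'.re < z.re - e)) := by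
    ext z'
    simp only [Finset.mem_filter, Finset.mem_insert]
    constructor
    · rintro ⟨h3, h4⟩
      rcases ((he z' h3).1).1 h4 with h5 | h5
      · exact Or.inl h5
      · exact Or.inr ⟨h3, h5⟩
    · rintro (h3 | ⟨h3, h4⟩)
      · rw [h3]
        exact ⟨hz, ((he z hz).1).2 (Or.inl rfl)⟩
      · exact ⟨h3, ((he z' h3).1).2 (Or.inr h4)⟩
  rw [h2, Finset.sum_insert]
  · ring
  · rw [Finset.mem_filter]
    exact fun h3 => (he z hz).2 h3.2

private lemma DS_cross (h : Charge c F w s) (z : ℂ) (hz : z ∈ w.support) (y : ℝ)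
    (hy : ev F z.re y ≠ 0) : ∀ᶠ e : ℝ in 𝓝[>] 0,
      (DS_A w (z.re + e) - DS_B F s (z.re + e) y) - (DS_A w (z.re - e) - DS_B F s (z.re - e) y) =
        if z.im < y then - w z else w z := by
  obtain ⟨Y₁, hY₁, hlow⟩ := DS_low h z.re y
  have hxx : |z.re - z.re| ≤ 1 := by
    rw [sub_self, abs_zero]
    exact zero_le_one
  have h1 := h.cross z hz Y₁ y (by linarith) (hlow _ hxx).1 hy
  have h2 := DS_A_cross h z hz
  have h3 : ∀ᶠ e : ℝ in 𝓝[>] 0, 0 < e ∧ e < 1 := by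
    filter_upwards [Ioo_mem_nhdsGT (one_pos (α := ℝ))] with e he
    exact he
  have h4 : Y₁ < z.im := (hlow _ hxx).2 _ ((DS_memT h.monic _ _).2 (DS_zero h z hz))
  filter_upwards [h1, h2, h3] with e e1 e2 e3
  have e4 : |z.re + e - z.re| ≤ 1 := by
    rw [abs_le]
    constructor <;> linarith [e3.1, e3.2]
  have e5 : |z.re - e - z.re| ≤ 1 := by
    rw [abs_le]
    constructor <;> linarith [e3.1, e3.2]
  rw [DS_B_low s _ Y₁ y (hlow _ e4).2, DS_B_low s _ Y₁ y (hlow _ e5).2]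
  have e6 : (Y₁ < z.im ∧ z.im < y) ↔ z.im < y := ⟨fun h5 => h5.2, fun h5 => ⟨h4, h5⟩⟩
  by_cases h5 : z.im < y
  · rw [if_pos (e6.2 h5)] at e1
    rw [if_pos h5]
    linarith
  · rw [if_neg (fun h6 => h5 (e6.1 h6))] at e1
    rw [if_neg h5]
    linarith

private lemma DS_far (h : Charge c F w s) (x : ℝ) (ε : ℤ) (hε : ε = 1 ∨ ε = -1)
    (hs : ∑ y ∈ (sl F x).roots.toFinset, s x y = ε * c) :
    (sl F x).Splits ∧ ∀ y₁ y₂ : ℝ, chg F s x y₁ y₂ = ε * cnt F x y₁ y₂ := by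
  classical
  have hεε : ε * ε = 1 := by rcases hε with rfl | rfl <;> norm_num
  have hcard : ((sl F x).roots.card : ℤ) = ∑ y ∈ (sl F x).roots.toFinset,
      ((sl F x).rootMultiplicity y : ℤ) := by
    rw [← Multiset.toFinset_sum_count_eq]
    push_cast
    refine Finset.sum_congr rfl ?_
    intro y _
    rw [count_roots]
  have hdeg : (sl F x).natDegree = c := (DS_sl_deg h.monic x).trans h.deg
  have hle : ((sl F x).roots.card : ℤ) ≤ c := by
    have h1 := card_roots' (sl F x)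
    rw [hdeg] at h1
    exact_mod_cast h1
  have hsum : ∑ y ∈ (sl F x).roots.toFinset, ε * s x y = c := by
    rw [← Finset.mul_sum, hs, ← mul_assoc, hεε, one_mul]
  have hterm : ∀ y ∈ (sl F x).roots.toFinset, ε * s x y ≤ ((sl F x).rootMultiplicity y : ℤ) := by
    intro y _
    have h1 := (h.bound x y).1
    rw [abs_le] at h1
    rcases hε with rfl | rfl
    · linarith [h1.2]
    · linarith [h1.1]
  have heq := DS_eq _ _ _ hterm (by rw [hsum, ← hcard]; exact hle)
  refine ⟨?_, ?_⟩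
  · rw [splits_iff_card_roots, hdeg]
    have h1 : ((sl F x).roots.card : ℤ) = c := by
      rw [hcard, ← hsum]
      exact Finset.sum_congr rfl fun y hy => (heq y hy).symm
    exact_mod_cast h1
  · intro y₁ y₂
    rw [DS_cnt_sum, Finset.mul_sum]
    unfold chg
    refine Finset.sum_congr rfl ?_
    intro y hy
    have h1 := heq y (Finset.mem_filter.1 hy).1
    rw [← h1, ← mul_assoc, hεε, one_mul]

private lemma DS_lim (P : ℝ[X]) (n : ℕ) (hP : P.natDegree ≤ n) :
    Tendsto (fun x : ℝ => P.eval x / x ^ n) atTop (𝓝 (P.coeff n)) := by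
  have h1 : Tendsto (fun x : ℝ => (reflect n P).eval x⁻¹) atTop (𝓝 (P.coeff n)) := by
    have h2 : Tendsto (fun x : ℝ => (reflect n P).eval x⁻¹) atTop (𝓝 ((reflect n P).eval 0)) :=
      ((reflect n P).continuous.tendsto 0).comp tendsto_inv_atTop_zero
    rw [← coeff_zero_eq_eval_zero, coeff_reflect, revAt_zero] at h2
    exact h2
  refine h1.congr' ?_
  filter_upwards [eventually_gt_atTop (0 : ℝ)] with x hx
  let := invertibleOfNonzero hx.ne'
  have h := eval₂_reflect_mul_pow (RingHom.id ℝ) x n P hP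
  rw [invOf_eq_inv, eval₂_id, eval₂_id] at h
  rw [eq_div_iff (pow_ne_zero _ hx.ne'), h]

private lemma DS_prod (z : ℂ) (m : Multiset ℝ) :
    |z.im| ^ m.card ≤ ‖(m.map (fun r : ℝ => z - (r : ℂ))).prod‖ := by
  induction m using Multiset.induction_on with
  | empty => simp
  | cons r m ih =>
    rw [Multiset.card_cons, Multiset.map_cons, Multiset.prod_cons, norm_mul, pow_succ, mul_comm]
    have h1 : |z.im| ≤ ‖z - (r : ℂ)‖ := by
      have h2 := Complex.abs_im_le_norm (z - (r : ℂ))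
      rw [Complex.sub_im, Complex.ofReal_im, sub_zero] at h2
      exact h2
    exact mul_le_mul h1 ih (pow_nonneg (abs_nonneg _) _) (norm_nonneg _)

private lemma DS_lfs (h : Charge c F w s) (M : ℝ) (hM : ∀ x : ℝ, M ≤ x → (sl F x).Splits) :
    (lf F c).Splits := by
  refine Splits.of_splits_map (algebraMap ℝ ℂ) (IsAlgClosed.splits _) ?_
  intro a ha
  have ha0 : ((lf F c).map (algebraMap ℝ ℂ)).eval a = 0 := (mem_roots'.1 ha).2
  by_cases him : a.im = 0
  · exact ⟨a.re, Complex.ext rfl (by rw [him]; rfl)⟩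
  exfalso
  have hlim : Tendsto (fun x : ℝ => ((sl F x).map (algebraMap ℝ ℂ)).eval ((x : ℂ) * a) /
      (x : ℂ) ^ c) atTop (𝓝 (((lf F c).map (algebraMap ℝ ℂ)).eval a)) := by
    have h1 : ∀ x : ℝ, ((sl F x).map (algebraMap ℝ ℂ)).eval ((x : ℂ) * a) =
        ∑ j ∈ Finset.range (c + 1), (((F.coeff j).eval x : ℝ) : ℂ) * ((x : ℂ) * a) ^ j := by
      intro x
      rw [eval_map, eval₂_eq_sum_range, DS_sl_deg h.monic, h.deg]
      refine Finset.sum_congr rfl ?_
      intro j _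
      unfold sl
      rw [coeff_map]
      rfl
    have h2 : ((lf F c).map (algebraMap ℝ ℂ)).eval a =
        ∑ j ∈ Finset.range (c + 1), (((F.coeff j).coeff (c - j) : ℝ) : ℂ) * a ^ j := by
      unfold lf
      rw [Polynomial.map_sum, eval_finsetSum]
      refine Finset.sum_congr rfl ?_
      intro j _
      rw [Polynomial.map_mul, Polynomial.map_pow, map_C, map_X, eval_mul, eval_pow, eval_C, eval_X]
      rfl
    rw [h2]
    have h3 : Tendsto (fun x : ℝ => ∑ j ∈ Finset.range (c + 1),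
        (((F.coeff j).eval x / x ^ (c - j) : ℝ) : ℂ) * a ^ j) atTop
        (𝓝 (∑ j ∈ Finset.range (c + 1), (((F.coeff j).coeff (c - j) : ℝ) : ℂ) * a ^ j)) := by
      refine tendsto_finsetSum _ ?_
      intro j _
      refine Tendsto.mul_const _ ?_
      refine (Complex.continuous_ofReal.tendsto _).comp (DS_lim _ _ ?_)
      by_cases h0 : F.coeff j = 0
      · rw [h0, natDegree_zero]
        exact Nat.zero_le _
      · have := h.td j h0
        omega
    refine h3.congr' ?_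
    filter_upwards [eventually_gt_atTop (0 : ℝ)] with x hx
    rw [h1, Finset.sum_div]
    refine Finset.sum_congr rfl ?_
    intro j hj
    have hj' : j ≤ c := Nat.lt_succ_iff.1 (Finset.mem_range.1 hj)
    have hx0 : (x : ℂ) ≠ 0 := by exact_mod_cast hx.ne'
    have e : (x : ℂ) ^ c = (x : ℂ) ^ (c - j) * (x : ℂ) ^ j := by
      rw [← pow_add, Nat.sub_add_cancel hj']
    rw [e, mul_pow]
    push_cast
    field_simp
  have hge : ∀ᶠ x : ℝ in atTop, |a.im| ^ c ≤
      ‖((sl F x).map (algebraMap ℝ ℂ)).eval ((x : ℂ) * a) / (x : ℂ) ^ c‖ := by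
    filter_upwards [eventually_gt_atTop (0 : ℝ), eventually_ge_atTop M] with x hx hxM
    have hsp := hM x hxM
    have h1 : ((sl F x).map (algebraMap ℝ ℂ)).eval ((x : ℂ) * a) =
        ((sl F x).roots.map (fun r : ℝ => (x : ℂ) * a - (r : ℂ))).prod := by
      rw [(hsp.map (algebraMap ℝ ℂ)).eval_eq_prod_roots_of_monic
        ((DS_sl_monic h.monic x).map _), hsp.roots_map, Multiset.map_map]
      rfl
    have h2 := DS_prod ((x : ℂ) * a) (sl F x).roots
    rw [← h1, splits_iff_card_roots.1 hsp, DS_sl_deg h.monic, h.deg, Complex.im_ofReal_mul, abs_mul,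
      abs_of_pos hx, mul_pow] at h2
    rw [norm_div, norm_pow, Complex.norm_real, Real.norm_eq_abs, abs_of_pos hx,
      le_div_iff₀ (pow_pos hx _), mul_comm]
    exact h2
  have hfin := ge_of_tendsto hlim.norm hge
  rw [ha0, norm_zero] at hfin
  have : 0 < |a.im| ^ c := pow_pos (abs_pos.2 him) _
  linarith

end DS

/-- [DS] -/
theorem thm_DS : St_DS := by
  intro c F w s h
  obtain ⟨M, hM⟩ := h.far
  have hR : ∀ x : ℝ, M ≤ x → (sl F x).Splits ∧ ∀ y₁ y₂ : ℝ, chg F s x y₁ y₂ = 1 * cnt F x y₁ y₂ :=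
    fun x hx => DS_far h x 1 (Or.inl rfl) (by rw [(hM x).1 hx, one_mul])
  have hL : ∀ x : ℝ, x ≤ -M → (sl F x).Splits ∧
      ∀ y₁ y₂ : ℝ, chg F s x y₁ y₂ = (-1) * cnt F x y₁ y₂ :=
    fun x hx => DS_far h x (-1) (Or.inr rfl) (by rw [(hM x).2 hx]; ring)
  have hnn : ∀ x y₁ y₂ : ℝ, y₁ < y₂ → ev F x y₁ ≠ 0 →
      (DS_A w x - DS_B F s x y₁) - (DS_A w x - DS_B F s x y₂) = chg F s x y₁ y₂ := by
    intro x y₁ y₂ hy h1
    rw [← DS_B_sub h.monic s x y₁ y₂ hy h1]
    ring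
  refine ⟨fun x y => DS_A w x - DS_B F s x y, ?_⟩
  exact
    { monic := h.monic
      deg := h.deg
      td := h.td
      lfs := DS_lfs h M fun x hx => (hR x hx).1
      inj := h.inj
      zero := DS_zero h
      loc := fun x y hx hy => DS_loc h x y hx hy
      jump := by
        intro x _ y₁ y₂ hy h1 _
        rw [hnn x y₁ y₂ hy h1]
        exact DS_jump h x y₁ y₂
      right := by
        refine ⟨M, fun x hx => ⟨(hR x hx).1, ?_⟩⟩
        intro y₁ y₂ hy h1 _
        rw [hnn x y₁ y₂ hy h1, (hR x hx).2, one_mul]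
      left := by
        refine ⟨-M, fun x hx => ⟨(hL x hx).1, ?_⟩⟩
        intro y₁ y₂ hy h1 _
        rw [hnn x y₁ y₂ hy h1, (hL x hx).2]
        ring
      cross := ⟨∅, fun z hz y _ hy => DS_cross h z hz y hy⟩ }

end Pool.Agent.NCC
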