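import Pool.Agent.NCC.StM

/-!
# NCC DetF: the determinant of `y - x S + G` is a real polynomial
-/

set_option autoImplicit false

namespace Pool.Agent.NCC

open Polynomial Matrix Filter Topology Module
open scoped ComplexConjugate

/-- inner variable to `t`, outer variable to `s t` (target: inner variable `s`, outer variable `t`) -/
private noncomputable def DetF_phi : ℂ[X][X] →+* ℂ[X][X] :=
  eval₂RingHom (mapRingHom (C : ℂ →+* ℂ[X])) (C X * X)

private theorem DetF_phi_coeff (F : ℂ[X][X]) (n : ℕ) :
    (DetF_phi F).coeff n = ∑ j ∈ Finset.range (n + 1), C ((F.coeff j).coeff (n - j)) * X ^ j := by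
  induction F using Polynomial.induction_on' with
  | add p q hp hq =>
    rw [map_add, coeff_add, hp, hq, ← Finset.sum_add_distrib]
    refine Finset.sum_congr rfl fun j _ => ?_
    rw [coeff_add, coeff_add, C_add, add_mul]
  | monomial m a =>
    have h1 : DetF_phi (monomial m a) = (a.map C * C (X ^ m)) * X ^ m := by
      rw [DetF_phi, coe_eval₂RingHom, eval₂_monomial, coe_mapRingHom, mul_pow, C_pow, mul_assoc]
    rw [h1, coeff_mul_X_pow', coeff_mul_C, coeff_map]
    by_cases hm : m ≤ n
    · rw [if_pos hm, Finset.sum_eq_single m]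
      · rw [coeff_monomial, if_pos rfl]
      · intro j _ hj
        rw [coeff_monomial, if_neg (Ne.symm hj), coeff_zero, C_0, zero_mul]
      · intro h
        exact absurd (Finset.mem_range.2 (Nat.lt_succ_of_le hm)) h
    · rw [if_neg hm]
      symm
      refine Finset.sum_eq_zero fun j hj => ?_
      have hj' : m ≠ j := by
        rintro rfl
        exact hm (Nat.lt_succ_iff.1 (Finset.mem_range.1 hj))
      rw [coeff_monomial, if_neg hj', coeff_zero, C_0, zero_mul]

private theorem DetF_phi_coeff2 (F : ℂ[X][X]) (m j : ℕ) :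
    ((DetF_phi F).coeff (m + j)).coeff j = (F.coeff j).coeff m := by
  rw [DetF_phi_coeff, finsetSum_coeff, Finset.sum_eq_single j]
  · rw [coeff_C_mul_X_pow, if_pos rfl, Nat.add_sub_cancel]
  · intro i _ hi
    rw [coeff_C_mul_X_pow, if_neg (Ne.symm hi)]
  · intro h
    exact absurd (Finset.mem_range.2 (by omega)) h

/-- the matrix `x S - G` -/
private noncomputable def DetF_N {c : ℕ} (S G : Matrix (Fin c) (Fin c) ℂ) :
    Matrix (Fin c) (Fin c) ℂ[X] :=
  (X : ℂ[X]) • S.map C - G.map C

private theorem DetF_phi_det {c : ℕ} (S G : Matrix (Fin c) (Fin c) ℂ) :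
    DetF_phi (DetF_N S G).charpoly =
      det ((X : ℂ[X][X]) • (charmatrix S).map C + (G.map C).map C) := by
  rw [Matrix.charpoly, RingHom.map_det]
  congr 1
  ext1 i j
  rw [RingHom.mapMatrix_apply, Matrix.map_apply, charmatrix_apply, map_sub, Matrix.add_apply,
    Matrix.smul_apply, Matrix.map_apply, Matrix.map_apply, Matrix.map_apply, charmatrix_apply]
  have h1 : DetF_phi (C (DetF_N S G i j)) = X * C (C (S i j)) - C (C (G i j)) := by
    rw [DetF_phi, coe_eval₂RingHom, eval₂_C, coe_mapRingHom, DetF_N, Matrix.sub_apply,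
      Matrix.smul_apply, Matrix.map_apply, Matrix.map_apply, smul_eq_mul, Polynomial.map_sub,
      Polynomial.map_mul, map_X, map_C, map_C]
  have h2 : DetF_phi (diagonal (fun _ : Fin c => (X : ℂ[X][X])) i j) =
      X * C (diagonal (fun _ : Fin c => (X : ℂ[X])) i j) := by
    by_cases hij : i = j
    · subst hij
      rw [diagonal_apply_eq, diagonal_apply_eq, DetF_phi, coe_eval₂RingHom, eval₂_X, mul_comm]
    · rw [diagonal_apply_ne _ hij, diagonal_apply_ne _ hij, map_zero, C_0, mul_zero]
  rw [h1, h2, C_sub, smul_eq_mul]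
  ring

/-- reality of the coefficients from reality of the values -/
private theorem DetF_real (p : ℂ[X]) (A : Set ℝ) (hA : A.Infinite)
    (h : ∀ x ∈ A, conj (p.eval (x : ℂ)) = p.eval (x : ℂ)) (n : ℕ) :
    conj (p.coeff n) = p.coeff n := by
  have key : p.map (starRingEnd ℂ) = p := by
    refine Polynomial.eq_of_infinite_eval_eq _ _ ?_
    have hinf : ((fun x : ℝ => (x : ℂ)) '' A).Infinite :=
      hA.image (fun x _ y _ hxy => Complex.ofReal_injective hxy)
    refine hinf.mono ?_
    rintro _ ⟨x, hx, rfl⟩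
    change (p.map (starRingEnd ℂ)).eval (x : ℂ) = p.eval (x : ℂ)
    have h1 : (p.map (starRingEnd ℂ)).eval (conj (x : ℂ)) = conj (p.eval (x : ℂ)) := by
      rw [eval_map, eval₂_at_apply]
    rw [Complex.conj_ofReal] at h1
    rw [h1, h x hx]
  conv_rhs => rw [← key]
  rw [coeff_map]

private theorem DetF_eval {c : ℕ} (S G : Matrix (Fin c) (Fin c) ℂ) (x y : ℝ) :
    ((DetF_N S G).charpoly.map (evalRingHom (x : ℂ))).eval (y : ℂ) = (PP S G x y).det := by
  rw [← Matrix.charpoly_map, Matrix.eval_charpoly]
  congr 1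
  ext1 i j
  rw [PP, Matrix.sub_apply, Matrix.map_apply, DetF_N, Matrix.sub_apply, Matrix.smul_apply,
    Matrix.map_apply, Matrix.map_apply, Matrix.add_apply, Matrix.sub_apply, Matrix.smul_apply,
    Matrix.smul_apply, coe_evalRingHom, eval_sub, smul_eq_mul, eval_mul, eval_X, eval_C, eval_C,
    smul_eq_mul, smul_eq_mul, scalar_apply]
  by_cases hij : i = j
  · subst hij
    rw [diagonal_apply_eq, Matrix.one_apply_eq, mul_one]
    ring
  · rw [diagonal_apply_ne _ hij, Matrix.one_apply_ne hij, mul_zero]
    ring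

private theorem DetF_conj_det {c : ℕ} {A : Matrix (Fin c) (Fin c) ℂ} (h : A.IsHermitian) :
    conj A.det = A.det := by
  have h1 := Matrix.det_conjTranspose A
  rw [h.eq] at h1
  exact h1.symm

theorem thm_DetF : St_MId → St_DetF := by
  intro hM k c a b W E S G hPD
  have hM' := hM k c a b W E S G hPD
  set N := DetF_N S G with hN
  set Fc : ℂ[X][X] := N.charpoly with hFc
  -- the good values of `x`
  set A : Set ℝ := {x | (∀ l, (b l).re ≠ x) ∧ ∀ j, (a j).re ≠ x} with hAdef
  have hAinf : A.Infinite := by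
    have hfin : ((Set.range fun l => (b l).re) ∪ Set.range fun j => (a j).re : Set ℝ).Finite :=
      (Set.finite_range _).union (Set.finite_range _)
    refine hfin.infinite_compl.mono ?_
    intro x hx
    refine ⟨fun l hl => hx (Or.inl ⟨l, hl⟩), fun j hj => hx (Or.inr ⟨j, hj⟩)⟩
  have hreal : ∀ x ∈ A, ∀ y : ℝ, conj (PP S G x y).det = (PP S G x y).det := by
    intro x hx y
    obtain ⟨hH, hT, h3⟩ := hM' x y
    obtain ⟨h4, h5⟩ := h3 hx.1
    have hne : (Th b E x).det ≠ 0 := by
      intro h0
      rw [h0, zero_mul] at h5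
      have : ∏ j, ((x - (a j).re : ℝ) : ℂ) ≠ 0 := by
        refine Finset.prod_ne_zero_iff.2 fun j _ => ?_
        rw [Ne, Complex.ofReal_eq_zero, sub_eq_zero]
        exact fun h => hx.2 j h.symm
      exact this h5.symm
    have h6 : (PP S G x y).det * (Th b E x).det = (Hm b E S x y).det := by
      rw [← Matrix.det_mul, h4]
    have h7 : conj (PP S G x y).det * (Th b E x).det = (Hm b E S x y).det := by
      have := congrArg conj h6
      rwa [map_mul, DetF_conj_det hT, DetF_conj_det hH] at this
    exact mul_right_cancel₀ hne (h7.trans h6.symm)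
  have hcoef : ∀ i j, conj ((Fc.coeff j).coeff i) = (Fc.coeff j).coeff i := by
    intro i j
    refine DetF_real (Fc.coeff j) A hAinf ?_ i
    intro x hx
    have h1 := DetF_real (Fc.map (evalRingHom (x : ℂ))) Set.univ Set.infinite_univ
      (fun y _ => by rw [hFc, hN, DetF_eval]; exact hreal x hx y) j
    rwa [coeff_map, coe_evalRingHom] at h1
  -- lifting to real coefficients
  have hl1 : ∀ j, Fc.coeff j ∈ Set.range (mapRingHom (Complex.ofRealHom)) := by
    intro j
    have : Fc.coeff j ∈ lifts Complex.ofRealHom := by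
      rw [lifts_iff_coeff_lifts]
      intro i
      obtain ⟨r, hr⟩ := Complex.conj_eq_iff_real.1 (hcoef i j)
      exact ⟨r, hr.symm⟩
    obtain ⟨q, hq⟩ := (mem_lifts _).1 this
    exact ⟨q, hq⟩
  obtain ⟨F, hF⟩ := (mem_lifts (f := mapRingHom Complex.ofRealHom) Fc).1
    ((lifts_iff_coeff_lifts Fc).2 hl1)
  have hinj : Function.Injective (mapRingHom Complex.ofRealHom) :=
    Polynomial.map_injective _ Complex.ofRealHom.injective
  have hmon : F.Monic := by
    have : (F.map (mapRingHom Complex.ofRealHom)).Monic := by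
      rw [hF]; exact Matrix.charpoly_monic _
    exact Polynomial.monic_of_injective hinj this
  have hdeg : F.natDegree = c := by
    have h1 : (F.map (mapRingHom Complex.ofRealHom)).natDegree = F.natDegree :=
      Polynomial.natDegree_map_eq_of_injective hinj F
    rw [← h1, hF, hFc, Matrix.charpoly_natDegree_eq_dim, Fintype.card_fin]
  have hco : ∀ i j, (Fc.coeff j).coeff i = (((F.coeff j).coeff i : ℝ) : ℂ) := by
    intro i j
    rw [← hF, coeff_map, coe_mapRingHom, coeff_map, Complex.ofRealHom_eq_coe]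
  have hphi : (DetF_phi Fc).natDegree ≤ c := by
    rw [hFc, hN, DetF_phi_det]
    have := natDegree_det_X_add_C_le (charmatrix S) (G.map C)
    rwa [Fintype.card_fin] at this
  have htd : TD F c := by
    intro j hj
    by_contra hlt
    push Not at hlt
    have h1 : (DetF_phi Fc).coeff ((F.coeff j).natDegree + j) = 0 :=
      coeff_eq_zero_of_natDegree_lt (lt_of_le_of_lt hphi hlt)
    have h2 := DetF_phi_coeff2 Fc (F.coeff j).natDegree j
    rw [h1, coeff_zero, hco, eq_comm, Complex.ofReal_eq_zero] at h2
    exact hj (leadingCoeff_eq_zero.1 h2)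
  have hlf : (lf F c).map Complex.ofRealHom = S.charpoly := by
    have h1 : (DetF_phi Fc).coeff c = S.charpoly := by
      rw [hFc, hN, DetF_phi_det]
      have := coeff_det_X_add_C_card (charmatrix S) (G.map C)
      rw [Fintype.card_fin] at this
      rw [this, Matrix.charpoly]
    rw [← h1, DetF_phi_coeff, lf, Polynomial.map_sum]
    refine Finset.sum_congr rfl fun j _ => ?_
    rw [Polynomial.map_mul, Polynomial.map_pow, map_X, map_C, hco, Complex.ofRealHom_eq_coe]
  have hsp : (lf F c).Splits := by
    have h1 : lf F c = ∏ i, (X - C (hPD.hS.eigenvalues i)) := by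
      apply Polynomial.map_injective _ Complex.ofRealHom.injective
      rw [hlf, hPD.hS.charpoly_eq, Polynomial.map_prod]
      refine Finset.prod_congr rfl fun i _ => ?_
      rw [Polynomial.map_sub, map_X, map_C]
      rfl
    rw [h1]
    exact Splits.prod fun i _ => Splits.X_sub_C _
  have hev : ∀ x y : ℝ, (ev F x y : ℂ) = (PP S G x y).det := by
    intro x y
    rw [← DetF_eval, ← hN, ← hFc, ← hF, ev, sl, Polynomial.map_map]
    have h1 : (((F.map (evalRingHom x)).eval y : ℝ) : ℂ) =
        ((F.map (evalRingHom x)).map Complex.ofRealHom).eval (y : ℂ) := by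
      rw [← Complex.ofRealHom_eq_coe y, eval_map Complex.ofRealHom, eval₂_at_apply,
        Complex.ofRealHom_eq_coe]
    rw [h1, Polynomial.map_map]
    congr 2
    refine Polynomial.ringHom_ext ?_ ?_
    · intro r
      simp
    · simp
  refine ⟨F, hmon, hdeg, htd, hsp, hev, ?_⟩
  intro x y hx
  obtain ⟨h4, h5⟩ := (hM' x y).2.2 hx
  rw [hev, ← h4, Matrix.det_mul, mul_assoc, h5]

end Pool.Agent.NCC
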