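import Pool.Agent.NCC.StS

/-!
# NCC, module DimP: dimension of the space of polynomials of degree at most `N`
-/

set_option autoImplicit false

namespace Pool.Agent.NCC

open MvPolynomial Module

private def DimP_T (n : ℕ) : Finset (Σ _ : ℕ, ℕ) :=
  (Finset.range (n + 1)).sigma (fun k => Finset.range (k + 1))

private noncomputable def DimP_g (p : Σ _ : ℕ, ℕ) : Fin 2 →₀ ℕ :=
  Finsupp.equivFunOnFinite.symm ![p.2, p.1 - p.2]

private lemma DimP_g0 (p : Σ _ : ℕ, ℕ) : DimP_g p 0 = p.2 := by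
  simp [DimP_g]

private lemma DimP_g1 (p : Σ _ : ℕ, ℕ) : DimP_g p 1 = p.1 - p.2 := by
  simp [DimP_g]

private lemma DimP_card (n : ℕ) : (DimP_T n).card = (n + 1) * (n + 2) / 2 := by
  unfold DimP_T
  rw [Finset.card_sigma]
  simp only [Finset.card_range]
  induction n with
  | zero => simp
  | succ n ih =>
    rw [Finset.sum_range_succ, ih]
    have h : (n + 1 + 1) * (n + 1 + 2) = (n + 1) * (n + 2) + (n + 2) * 2 := by ring
    rw [h, Nat.add_mul_div_right _ _ (by norm_num)]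

private lemma DimP_mem (n : ℕ) (p : Σ _ : ℕ, ℕ) :
    p ∈ DimP_T n ↔ p.1 ≤ n ∧ p.2 ≤ p.1 := by
  unfold DimP_T
  rw [Finset.mem_sigma, Finset.mem_range, Finset.mem_range]
  omega

private lemma DimP_set (n : ℕ) :
    {s : Fin 2 →₀ ℕ | ((s 0 + s 1 : ℕ) : ℤ) ≤ (n : ℤ)} = DimP_g '' (DimP_T n : Set (Σ _ : ℕ, ℕ)) := by
  ext s
  simp only [Set.mem_setOf_eq, Set.mem_image, Finset.mem_coe, DimP_mem]
  constructor
  · intro h
    have h' : s 0 + s 1 ≤ n := by exact_mod_cast h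
    refine ⟨⟨s 0 + s 1, s 0⟩, ⟨h', ?_⟩, ?_⟩
    · simp
    · ext i
      fin_cases i
      · simpa using DimP_g0 ⟨s 0 + s 1, s 0⟩
      · simpa using DimP_g1 ⟨s 0 + s 1, s 0⟩
  · rintro ⟨p, ⟨h1, h2⟩, rfl⟩
    rw [DimP_g0, DimP_g1]
    have : p.2 + (p.1 - p.2) ≤ n := by omega
    exact_mod_cast this

private lemma DimP_inj (n : ℕ) : Set.InjOn DimP_g (DimP_T n : Set (Σ _ : ℕ, ℕ)) := by
  rintro ⟨k, i⟩ hp ⟨k', i'⟩ hq h
  rw [Finset.mem_coe, DimP_mem] at hp hq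
  have h0 := DFunLike.congr_fun h 0
  have h1 := DFunLike.congr_fun h 1
  rw [DimP_g0, DimP_g0] at h0
  rw [DimP_g1, DimP_g1] at h1
  simp only at h0 h1 hp hq
  have e : k = k' := by omega
  subst e
  subst h0
  rfl

private lemma DimP_fin (N : ℤ) : {s : Fin 2 →₀ ℕ | ((s 0 + s 1 : ℕ) : ℤ) ≤ N}.Finite ∧
    {s : Fin 2 →₀ ℕ | ((s 0 + s 1 : ℕ) : ℤ) ≤ N}.ncard = DD N := by
  rcases lt_or_ge N 0 with hN | hN
  · have h : {s : Fin 2 →₀ ℕ | ((s 0 + s 1 : ℕ) : ℤ) ≤ N} = ∅ := by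
      ext s
      simp only [Set.mem_setOf_eq, Set.mem_empty_iff_false, iff_false, not_le]
      omega
    rw [h]
    refine ⟨Set.finite_empty, ?_⟩
    have h1 : (N + 1).toNat = 0 := by omega
    unfold DD
    rw [h1]
    simp
  · obtain ⟨n, rfl⟩ := Int.eq_ofNat_of_zero_le hN
    rw [DimP_set n]
    refine ⟨(Finset.finite_toSet _).image _, ?_⟩
    rw [Set.ncard_image_of_injOn (DimP_inj n), Set.ncard_coe_finset, DimP_card]
    unfold DD
    have h1 : ((n : ℤ) + 1).toNat = n + 1 := by omega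
    have h2 : ((n : ℤ) + 2).toNat = n + 2 := by omega
    rw [h1, h2]

theorem thm_DimP : St_DimP := by
  intro N
  obtain ⟨hf, hc⟩ := DimP_fin N
  have hb := basisRestrictSupport ℂ {s : Fin 2 →₀ ℕ | ((s 0 + s 1 : ℕ) : ℤ) ≤ N}
  haveI : Finite {s : Fin 2 →₀ ℕ | ((s 0 + s 1 : ℕ) : ℤ) ≤ N} := hf.to_subtype
  refine ⟨Module.Finite.of_basis hb, ?_⟩
  have h := Module.finrank_eq_nat_card_basis hb
  rw [← hc]
  exact h

end Pool.Agent.NCC
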