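import Pool.Agent.NCC.StM

/-!
# NCC, module FZer (helper17): the points lie on the curve
-/

set_option autoImplicit false

namespace Pool.Agent.NCC

open Matrix
open scoped ComplexConjugate

private theorem FZer_diag {n : ℕ} (b : Fin n → ℂ) :
    diagonal b = dre b + Complex.I • dimg b := by
  ext i j
  by_cases h : i = j
  · subst h
    simp only [dre, dimg, diagonal_apply_eq, Matrix.add_apply, Matrix.smul_apply, smul_eq_mul]
    rw [mul_comm, Complex.re_add_im]
  · simp [dre, dimg, h]

private theorem FZer_dreH {n : ℕ} (b : Fin n → ℂ) : (dre b)ᴴ = dre b := by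
  unfold dre
  rw [diagonal_conjTranspose]
  congr 1
  funext l
  simp

private theorem FZer_dimgH {n : ℕ} (b : Fin n → ℂ) : (dimg b)ᴴ = dimg b := by
  unfold dimg
  rw [diagonal_conjTranspose]
  congr 1
  funext l
  simp

private theorem FZer_comm {n : ℕ} (b : Fin n → ℂ) : dre b * dimg b = dimg b * dre b := by
  unfold dre dimg
  rw [diagonal_mul_diagonal, diagonal_mul_diagonal]
  congr 1
  funext l
  ring

private theorem FZer_comp {k c : ℕ} (a : Fin k → ℂ) (b : Fin (k + c) → ℂ)
    (W : Matrix (Fin (k + c)) (Fin k) ℂ) (hA : Wᴴ * diagonal b * W = diagonal a) :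
    Wᴴ * dre b * W = dre a ∧ Wᴴ * dimg b * W = dimg a := by
  have h1 : Wᴴ * dre b * W + Complex.I • (Wᴴ * dimg b * W) = dre a + Complex.I • dimg a := by
    rw [← FZer_diag a, ← hA, FZer_diag b, Matrix.mul_add, Matrix.add_mul, Matrix.mul_smul,
      Matrix.smul_mul]
  have hh1 : (Wᴴ * dre b * W)ᴴ = Wᴴ * dre b * W := by
    rw [conjTranspose_mul, conjTranspose_mul, conjTranspose_conjTranspose, FZer_dreH,
      Matrix.mul_assoc]
  have hh2 : (Wᴴ * dimg b * W)ᴴ = Wᴴ * dimg b * W := by
    rw [conjTranspose_mul, conjTranspose_mul, conjTranspose_conjTranspose, FZer_dimgH,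
      Matrix.mul_assoc]
  have h2 := congrArg conjTranspose h1
  rw [conjTranspose_add, conjTranspose_add, conjTranspose_smul, conjTranspose_smul, hh1, hh2,
    FZer_dreH, FZer_dimgH] at h2
  constructor
  · ext i j
    have e1 := congrFun (congrFun h1 i) j
    have e2 := congrFun (congrFun h2 i) j
    simp only [Matrix.add_apply, Matrix.smul_apply, smul_eq_mul, Complex.star_def, Complex.conj_I] at e1 e2
    linear_combination (e1 + e2) / 2
  · ext i j
    have e1 := congrFun (congrFun h1 i) j
    have e2 := congrFun (congrFun h2 i) j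
    simp only [Matrix.add_apply, Matrix.smul_apply, smul_eq_mul, Complex.star_def, Complex.conj_I] at e1 e2
    linear_combination (-Complex.I) * (e1 - e2) / 2 +
      ((Wᴴ * dimg b * W) i j - dimg a i j) * Complex.I_mul_I

theorem thm_FZer : St_FZer := by
  intro k c a b W E S G hPD hab
  obtain ⟨hW, hE, hWE, hsum, hS, hA, hG⟩ := hPD
  have hSH : Sᴴ = S := hS
  constructor
  · intro l
    -- the row of the matrix `E` is not zero
    have hne : (fun i => star (E l i)) ≠ 0 := by
      intro h0
      have hE0 : ∀ i, E l i = 0 := fun i => by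
        have := congrFun h0 i
        simpa using this
      -- the vector w
      have hWw : W *ᵥ (fun j => star (W l j)) = Pi.single l 1 := by
        funext m
        have := congrFun (congrFun hsum m) l
        simp only [Matrix.add_apply, Matrix.mul_apply, conjTranspose_apply] at this
        simp only [hE0, star_zero, mul_zero, Finset.sum_const_zero, add_zero] at this
        rw [Matrix.mulVec, dotProduct, this, Matrix.one_apply, Pi.single_apply]
      have hWe : Wᴴ *ᵥ (Pi.single l 1) = fun j => star (W l j) := by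
        funext j
        rw [Matrix.mulVec_single_one]
        rfl
      have hbe : diagonal b *ᵥ (Pi.single l (1 : ℂ)) = b l • (Pi.single l 1 : Fin (k + c) → ℂ) := by
        funext m
        rw [Matrix.mulVec_diagonal, Pi.smul_apply, smul_eq_mul, Pi.single_apply]
        split_ifs with h
        · rw [h]
        · simp
      have hev : diagonal a *ᵥ (fun j => star (W l j)) = b l • (fun j => star (W l j)) := by
        rw [← hA, Matrix.mul_assoc, ← Matrix.mulVec_mulVec, ← Matrix.mulVec_mulVec, hWw, hbe,
          Matrix.mulVec_smul, hWe]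
      obtain ⟨j, hj⟩ : ∃ j, star (W l j) ≠ 0 := by
        by_contra hcon
        push Not at hcon
        have h1 : (fun j => star (W l j)) = 0 := funext hcon
        rw [h1, Matrix.mulVec_zero] at hWw
        have := congrFun hWw l
        simp at this
      have h2 := congrFun hev j
      rw [Matrix.mulVec_diagonal, Pi.smul_apply, smul_eq_mul] at h2
      exact hab j l (mul_right_cancel₀ hj h2)
    apply Matrix.exists_mulVec_eq_zero_iff.1
    refine ⟨_, hne, ?_⟩
    have hG2 := congrArg conjTranspose hG
    rw [conjTranspose_sub, conjTranspose_mul, conjTranspose_mul, conjTranspose_mul,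
      conjTranspose_mul, conjTranspose_conjTranspose, FZer_dreH, FZer_dimgH, hSH] at hG2
    funext i
    have e1 := congrFun (congrFun hG2 i) l
    simp only [Matrix.sub_apply] at e1
    have e2 : (Eᴴ * dimg b) i l = ((b l).im : ℂ) * star (E l i) := by
      unfold dimg
      rw [Matrix.mul_diagonal, conjTranspose_apply, mul_comm]
    have e3 : (S * (Eᴴ * dre b)) i l = ((b l).re : ℂ) * (S *ᵥ fun i => star (E l i)) i := by
      unfold dre
      rw [← Matrix.mul_assoc, Matrix.mul_diagonal, mul_comm]
      rfl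
    have e4 : (G * Eᴴ) i l = (G *ᵥ fun i => star (E l i)) i := rfl
    rw [e2, e3, e4] at e1
    unfold PP
    rw [Matrix.add_mulVec, Matrix.sub_mulVec, Matrix.smul_mulVec, Matrix.smul_mulVec,
      Matrix.one_mulVec]
    simp only [Pi.add_apply, Pi.sub_apply, Pi.smul_apply, smul_eq_mul, Pi.zero_apply]
    linear_combination e1
  · intro j
    obtain ⟨hA1, hA2⟩ := FZer_comp a b W hA
    -- X
    obtain ⟨X, hX⟩ : ∃ X : Matrix (Fin k) (Fin c) ℂ, X = Wᴴ * dre b * E := ⟨_, rfl⟩
    have hXS : Wᴴ * dimg b * E = X * S := by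
      rw [hX, Matrix.mul_assoc, hG, Matrix.mul_sub, ← Matrix.mul_assoc, ← Matrix.mul_assoc,
        ← Matrix.mul_assoc, hWE, Matrix.zero_mul, sub_zero]
    obtain ⟨Z1, hZ1⟩ : ∃ Z : Matrix (Fin c) (Fin c) ℂ, Z = Eᴴ * dre b * E := ⟨_, rfl⟩
    obtain ⟨Z2, hZ2⟩ : ∃ Z : Matrix (Fin c) (Fin c) ℂ, Z = Eᴴ * dimg b * E := ⟨_, rfl⟩
    have hZ1H : Z1ᴴ = Z1 := by
      rw [hZ1, conjTranspose_mul, conjTranspose_mul, conjTranspose_conjTranspose, FZer_dreH,
        Matrix.mul_assoc]
    have hZ2H : Z2ᴴ = Z2 := by
      rw [hZ2, conjTranspose_mul, conjTranspose_mul, conjTranspose_conjTranspose, FZer_dimgH,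
        Matrix.mul_assoc]
    have hGG : Z2 = Z1 * S - Gᴴ := by
      rw [hZ2, hZ1, Matrix.mul_assoc, hG, Matrix.mul_sub, ← Matrix.mul_assoc, ← Matrix.mul_assoc,
        ← Matrix.mul_assoc, hE, Matrix.one_mul]
    have hGG2 : Z2 = S * Z1 - G := by
      have := congrArg conjTranspose hGG
      rwa [conjTranspose_sub, conjTranspose_mul, conjTranspose_conjTranspose, hZ1H, hZ2H,
        hSH] at this
    have hc1 : Wᴴ * dre b * dimg b * E = dre a * (X * S) + X * Z2 := by
      calc Wᴴ * dre b * dimg b * E = Wᴴ * dre b * (W * Wᴴ + E * Eᴴ) * dimg b * E := by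
            rw [hsum, Matrix.mul_one]
        _ = (Wᴴ * dre b * W) * (Wᴴ * dimg b * E) + (Wᴴ * dre b * E) * (Eᴴ * dimg b * E) := by
            simp only [Matrix.mul_add, Matrix.add_mul, Matrix.mul_assoc]
        _ = _ := by rw [hA1, hXS, ← hX, ← hZ2]
    have hc2 : Wᴴ * dimg b * dre b * E = dimg a * X + X * S * Z1 := by
      calc Wᴴ * dimg b * dre b * E = Wᴴ * dimg b * (W * Wᴴ + E * Eᴴ) * dre b * E := by
            rw [hsum, Matrix.mul_one]
        _ = (Wᴴ * dimg b * W) * (Wᴴ * dre b * E) + (Wᴴ * dimg b * E) * (Eᴴ * dre b * E) := by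
            simp only [Matrix.mul_add, Matrix.add_mul, Matrix.mul_assoc]
        _ = _ := by rw [hA2, hXS, ← hX, ← hZ1]
    have hc3 : dre a * (X * S) + X * Z2 = dimg a * X + X * S * Z1 := by
      rw [← hc1, ← hc2, Matrix.mul_assoc Wᴴ, FZer_comm, ← Matrix.mul_assoc]
    have hXG : X * G = dre a * (X * S) - dimg a * X := by
      have h1 : G = S * Z1 - Z2 := by rw [hGG2]; abel
      rw [h1, Matrix.mul_sub, ← Matrix.mul_assoc]
      rw [eq_sub_iff_add_eq]
      have h2 : X * S * Z1 = dre a * (X * S) + X * Z2 - dimg a * X := by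
        rw [hc3]; abel
      rw [h2]
      abel
    have hne : X j ≠ 0 := by
      intro h0
      have hX0 : ∀ i, X j i = 0 := fun i => congrFun h0 i
      have h1 : Wᴴ * diagonal b = diagonal a * Wᴴ + (X + Complex.I • (X * S)) * Eᴴ := by
        calc Wᴴ * diagonal b = Wᴴ * diagonal b * (W * Wᴴ + E * Eᴴ) := by
              rw [hsum, Matrix.mul_one]
          _ = (Wᴴ * diagonal b * W) * Wᴴ + (Wᴴ * diagonal b * E) * Eᴴ := by
              simp only [Matrix.mul_add, Matrix.mul_assoc]
          _ = _ := by
              rw [hA, ← hXS, hX, FZer_diag b, Matrix.mul_add, Matrix.add_mul (Wᴴ * dre b),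
                Matrix.mul_smul, Matrix.smul_mul]
      obtain ⟨l, hl⟩ : ∃ l, star (W l j) ≠ 0 := by
        by_contra hcon
        push Not at hcon
        have := congrFun (congrFun hW j) j
        rw [Matrix.mul_apply, Matrix.one_apply_eq] at this
        simp only [conjTranspose_apply, hcon, zero_mul, Finset.sum_const_zero] at this
        exact zero_ne_one this
      have h2 := congrFun (congrFun h1 j) l
      have h3 : ((X + Complex.I • (X * S)) * Eᴴ) j l = 0 := by
        rw [Matrix.mul_apply]
        refine Finset.sum_eq_zero fun i _ => ?_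
        have h4 : (X * S) j i = 0 := by
          rw [Matrix.mul_apply]
          exact Finset.sum_eq_zero fun m _ => by rw [hX0, zero_mul]
        rw [Matrix.add_apply, Matrix.smul_apply, h4, hX0]
        simp
      rw [Matrix.add_apply, h3, add_zero, Matrix.mul_diagonal, Matrix.diagonal_mul,
        conjTranspose_apply, mul_comm] at h2
      exact hab j l (mul_right_cancel₀ hl h2).symm
    apply Matrix.exists_vecMul_eq_zero_iff.1
    refine ⟨X j, hne, ?_⟩
    funext i
    have e1 := congrFun (congrFun hXG j) i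
    rw [Matrix.sub_apply] at e1
    have e2 : (X * G) j i = (X j ᵥ* G) i := rfl
    have e3 : (dre a * (X * S)) j i = ((a j).re : ℂ) * (X j ᵥ* S) i := by
      unfold dre
      rw [Matrix.diagonal_mul]
      rfl
    have e4 : (dimg a * X) j i = ((a j).im : ℂ) * X j i := by
      unfold dimg
      rw [Matrix.diagonal_mul]
    rw [e2, e3, e4] at e1
    unfold PP
    rw [Matrix.vecMul_add, Matrix.vecMul_sub, Matrix.vecMul_smul, Matrix.vecMul_smul,
      Matrix.vecMul_one]
    simp only [Pi.add_apply, Pi.sub_apply, Pi.smul_apply, smul_eq_mul, Pi.zero_apply]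
    linear_combination e1

end Pool.Agent.NCC
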