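import Pool.Agent.NCC.StA

/-!
# NCC [Fac] : factorization of a monic bivariate polynomial with total degrees
-/

set_option autoImplicit false

namespace Pool.Agent.NCC

open Polynomial

/-- the substitution `x ↦ x z`, `y ↦ y z`, on the coefficients -/
private noncomputable def Fac_phi : ℝ[X] →+* Polynomial BP :=
  eval₂RingHom (R := ℝ) (S := Polynomial BP)
    ((C : BP →+* Polynomial BP).comp ((C : ℝ[X] →+* BP).comp (C : ℝ →+* ℝ[X])))
    ((C (C (X : ℝ[X]) : BP) : Polynomial BP) * (X : Polynomial BP))

/-- the substitution `x ↦ x z`, `y ↦ y z` -/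
private noncomputable def Fac_psi : BP →+* Polynomial BP :=
  eval₂RingHom (R := ℝ[X]) (S := Polynomial BP) Fac_phi
    ((C (X : BP) : Polynomial BP) * (X : Polynomial BP))

private lemma Fac_psi_monomial (n m : ℕ) (r : ℝ) :
    Fac_psi (monomial n (monomial m r)) = monomial (m + n) (monomial n (monomial m r)) := by
  have h1 : Fac_psi (monomial n (monomial m r)) =
      Fac_phi (monomial m r) * ((C (X : BP) : Polynomial BP) * (X : Polynomial BP)) ^ n := by
    unfold Fac_psi
    rw [coe_eval₂RingHom, eval₂_monomial]
  have h2 : Fac_phi (monomial m r) = (C (C (C r) : BP) : Polynomial BP) *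
      ((C (C (X : ℝ[X]) : BP) : Polynomial BP) * (X : Polynomial BP)) ^ m := by
    unfold Fac_phi
    rw [coe_eval₂RingHom, eval₂_monomial]
    rfl
  have h3 : (monomial (m + n) (monomial n (monomial m r)) : Polynomial BP) =
      (C (C (C r * (X : ℝ[X]) ^ m) * (X : BP) ^ n) : Polynomial BP) *
        (X : Polynomial BP) ^ (m + n) := by
    rw [C_mul_X_pow_eq_monomial, C_mul_X_pow_eq_monomial, C_mul_X_pow_eq_monomial]
  rw [h1, h2, h3]
  simp only [C_mul, C_pow, pow_add]
  ring

private lemma Fac_psi_coeff (H : BP) (k j i : ℕ) :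
    (((Fac_psi H).coeff k).coeff j).coeff i = if i + j = k then (H.coeff j).coeff i else 0 := by
  induction H using Polynomial.induction_on' with
  | add p q hp hq =>
    rw [map_add, coeff_add, coeff_add, coeff_add, hp, hq, coeff_add, coeff_add]
    split_ifs <;> simp
  | monomial n a =>
    induction a using Polynomial.induction_on' with
    | add p q hp hq =>
      rw [map_add, map_add, coeff_add, coeff_add, coeff_add, hp, hq, coeff_add, coeff_add]
      split_ifs <;> simp
    | monomial m r =>
      rw [Fac_psi_monomial]
      simp only [coeff_monomial]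
      by_cases h1 : m + n = k
      · rw [if_pos h1]
        simp only [coeff_monomial]
        by_cases h2 : n = j
        · rw [if_pos h2]
          by_cases h3 : m = i
          · rw [if_pos (by omega)]
          · rw [coeff_monomial, if_neg h3]
            simp
        · rw [if_neg h2]
          simp
      · rw [if_neg h1]
        by_cases h2 : n = j
        · by_cases h3 : m = i
          · rw [if_neg (by omega)]
            simp
          · rw [if_pos h2, coeff_monomial, if_neg h3]
            simp
        · rw [if_neg h2]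
          simp

private lemma Fac_td (H : BP) (c : ℕ) : TD H c ↔ (Fac_psi H).natDegree ≤ c := by
  rw [natDegree_le_iff_coeff_eq_zero]
  constructor
  · intro h k hk
    ext j i
    rw [Fac_psi_coeff]
    split_ifs with h1
    · by_contra h2
      have h2' : (H.coeff j).coeff i ≠ 0 := by simpa using h2
      have h3 : H.coeff j ≠ 0 := by
        intro h4
        rw [h4] at h2'
        exact h2' (coeff_zero i)
      have h4 := h j h3
      have h5 := le_natDegree_of_ne_zero h2'
      omega
    · simp
  · intro h j hj
    by_contra h1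
    have h2 := h ((H.coeff j).natDegree + j) (by omega)
    have h3 := Fac_psi_coeff H ((H.coeff j).natDegree + j) j (H.coeff j).natDegree
    rw [h2, if_pos rfl] at h3
    have h4 : (H.coeff j).leadingCoeff ≠ 0 := leadingCoeff_ne_zero.2 hj
    apply h4
    rw [leadingCoeff, ← h3]
    simp

private lemma Fac_le (H : BP) (hH : H.Monic) :
    Fac_psi H ≠ 0 ∧ H.natDegree ≤ (Fac_psi H).natDegree := by
  have h1 := Fac_psi_coeff H (0 + H.natDegree) H.natDegree 0
  rw [if_pos rfl, coeff_natDegree, hH.leadingCoeff, coeff_one_zero] at h1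
  have h2 : (Fac_psi H).coeff (0 + H.natDegree) ≠ 0 := by
    intro h3
    rw [h3] at h1
    simp at h1
  refine ⟨?_, ?_⟩
  · intro h3
    rw [h3] at h2
    exact h2 (coeff_zero _)
  · have := le_natDegree_of_ne_zero h2
    omega

/-- a monic polynomial is a product of monic irreducible polynomials -/
private lemma Fac_irr (n : ℕ) : ∀ F : BP, F.Monic → F.natDegree = n →
    ∃ (N : ℕ) (G : Fin N → BP), (∀ r, (G r).Monic) ∧ (∀ r, Irreducible (G r)) ∧
      F = ∏ r, G r := by
  induction n using Nat.strong_induction_on with
  | _ n ih =>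
    intro F hF hn
    by_cases h1 : F = 1
    · exact ⟨0, fun _ => 1, fun r => r.elim0, fun r => r.elim0, by rw [h1]; simp⟩
    · have hu : ¬ IsUnit F := fun h => h1 (hF.isUnit_iff.1 h)
      obtain ⟨g, hg, hgF⟩ := WfDvdMonoid.exists_irreducible_factor hu hF.ne_zero
      obtain ⟨h, hh⟩ := hgF
      have hlc : g.leadingCoeff * h.leadingCoeff = 1 := by
        rw [← leadingCoeff_mul, ← hh, hF.leadingCoeff]
      have hlc' : h.leadingCoeff * g.leadingCoeff = 1 := by rw [mul_comm, hlc]
      have hmon : (C h.leadingCoeff * g).Monic := by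
        rw [Monic, leadingCoeff_mul, leadingCoeff_C, hlc']
      have hmon2 : (C g.leadingCoeff * h).Monic := by
        rw [Monic, leadingCoeff_mul, leadingCoeff_C, hlc]
      have hunit : IsUnit (C h.leadingCoeff : BP) :=
        isUnit_C.2 (IsUnit.of_mul_eq_one _ hlc')
      have hirr : Irreducible (C h.leadingCoeff * g) :=
        (irreducible_isUnit_mul hunit).2 hg
      have hprod : F = (C h.leadingCoeff * g) * (C g.leadingCoeff * h) := by
        have h2 : (C h.leadingCoeff * C g.leadingCoeff : BP) = 1 := by
          rw [← C_mul, hlc', C_1]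
        calc F = g * h := hh
          _ = (C h.leadingCoeff * C g.leadingCoeff) * (g * h) := by rw [h2, one_mul]
          _ = _ := by ring
      have hdeg : (C h.leadingCoeff * g).natDegree ≠ 0 := by
        intro h0
        have h3 := (Monic.natDegree_eq_zero hmon).1 h0
        rw [h3] at hirr
        exact not_irreducible_one hirr
      have hdeg2 : F.natDegree = (C h.leadingCoeff * g).natDegree +
          (C g.leadingCoeff * h).natDegree := by
        conv_lhs => rw [hprod]
        exact hmon.natDegree_mul hmon2
      obtain ⟨N, G, hG1, hG2, hG3⟩ := ih (C g.leadingCoeff * h).natDegree (by omega)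
        (C g.leadingCoeff * h) hmon2 rfl
      refine ⟨N + 1, Fin.cons (C h.leadingCoeff * g) G, ?_, ?_, ?_⟩
      · intro r
        refine Fin.cases ?_ (fun i => ?_) r
        · exact hmon
        · exact hG1 i
      · intro r
        refine Fin.cases ?_ (fun i => ?_) r
        · exact hirr
        · exact hG2 i
      · rw [Fin.prod_univ_succ, Fin.cons_zero]
        simp only [Fin.cons_succ]
        rw [← hG3]
        exact hprod

theorem thm_Fac : St_Fac := by
  intro c F hF hc hT
  obtain ⟨N, G, hG1, hG2, hG3⟩ := Fac_irr c F hF hc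
  refine ⟨N, G, ⟨hG1, ?_, hG3, hc⟩, hG2⟩
  have h1 : (Fac_psi F).natDegree = ∑ r, (Fac_psi (G r)).natDegree := by
    rw [hG3, map_prod]
    exact natDegree_prod _ _ fun r _ => (Fac_le (G r) (hG1 r)).1
  have h2 : F.natDegree = ∑ r, (G r).natDegree := by
    rw [hG3]
    exact natDegree_prod_of_monic _ _ fun r _ => hG1 r
  have h3 : (Fac_psi F).natDegree ≤ c := (Fac_td F c).1 hT
  have h4 : ∑ r, (G r).natDegree = ∑ r, (Fac_psi (G r)).natDegree := by
    apply le_antisymm
    · exact Finset.sum_le_sum fun r _ => (Fac_le (G r) (hG1 r)).2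
    · omega
  have h5 := (Finset.sum_eq_sum_iff_of_le fun r _ => (Fac_le (G r) (hG1 r)).2).1 h4
  intro r
  rw [Fac_td, ← h5 r (Finset.mem_univ r)]

end Pool.Agent.NCC
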