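import Mathlib
import Pool.Agent.Helper45.NC.Final

/-!
# NCC: common eigenvalues can be cancelled
-/

set_option autoImplicit false
open scoped Matrix Polynomial

namespace Pool.Agent.NCC

open Matrix Polynomial

/-- The isotropy equations for the feedback isometry, for arbitrary matrices. -/
theorem Canc_feedback {ι κ π : Type} [Fintype ι] [Fintype κ] [Fintype π] [DecidableEq ι] [DecidableEq κ]
    [DecidableEq π] (A : Matrix ι ι ℂ) (B : Matrix κ κ ℂ) (Z : Matrix π π ℂ)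
    (P : Matrix κ ι ℂ) (Q : Matrix κ π ℂ) (R : Matrix π ι ℂ) (S : Matrix π π ℂ) (T : Matrix π ι ℂ)
    (w : ℂ) (hw : star w * w = 1) (hT : R + S * T = w • T)
    (h : (fromBlocks P Q R S)ᴴ * fromBlocks B 0 0 Z * fromBlocks P Q R S = fromBlocks A 0 0 Z) :
    (P + Q * T)ᴴ * B * (P + Q * T) = A := by
  rw [fromBlocks_conjTranspose, fromBlocks_multiply, fromBlocks_multiply, fromBlocks_inj] at h
  simp only [Matrix.mul_zero, add_zero, zero_add] at h
  obtain ⟨h11, h12, h21, h22⟩ := h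
  have e1 : (P + Q * T)ᴴ * B * (P + Q * T) + (w • T)ᴴ * Z * (w • T) =
      A + Tᴴ * Z * T := by
    rw [← hT]
    have e2 : (P + Q * T)ᴴ * B * (P + Q * T) + (R + S * T)ᴴ * Z * (R + S * T) =
        (Pᴴ * B * P + Rᴴ * Z * R) + (Pᴴ * B * Q + Rᴴ * Z * S) * T +
          Tᴴ * (Qᴴ * B * P + Sᴴ * Z * R) + Tᴴ * (Qᴴ * B * Q + Sᴴ * Z * S) * T := by
      simp only [conjTranspose_add, conjTranspose_mul, Matrix.add_mul, Matrix.mul_add, Matrix.mul_assoc]
      abel
    rw [e2, h11, h12, h21, h22]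
    simp
  have e3 : (w • T)ᴴ * Z * (w • T) = Tᴴ * Z * T := by
    rw [conjTranspose_smul, Matrix.smul_mul, Matrix.smul_mul, Matrix.mul_smul, smul_smul, hw, one_smul]
  rw [e3] at e1
  exact add_right_cancel e1

/-- Cancellation for arbitrary matrices: if `A ⊕ Z` is a compression of `B ⊕ Z`, then `A` is a
compression of `B`. -/
theorem Canc_cancel {ι κ π : Type} [Fintype ι] [Fintype κ] [Fintype π] [DecidableEq ι] [DecidableEq κ]
    [DecidableEq π] (A : Matrix ι ι ℂ) (B : Matrix κ κ ℂ) (Z : Matrix π π ℂ)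
    (h : ∃ V : Matrix (κ ⊕ π) (ι ⊕ π) ℂ, Vᴴ * V = 1 ∧
      Vᴴ * fromBlocks B 0 0 Z * V = fromBlocks A 0 0 Z) :
    ∃ W : Matrix κ ι ℂ, Wᴴ * W = 1 ∧ Wᴴ * B * W = A := by
  obtain ⟨V, hV, hVB⟩ := h
  -- a number of modulus one which is not an eigenvalue of the last block
  obtain ⟨w, hw, hdet⟩ : ∃ w : ℂ, star w * w = 1 ∧ IsUnit (w • (1 : Matrix π π ℂ) - V.toBlocks₂₂) := by
    have hfin : {z : ℂ | (V.toBlocks₂₂.charpoly).IsRoot z}.Finite :=
      Polynomial.finite_setOfPred_isRoot (V.toBlocks₂₂.charpoly_monic).ne_zero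
    have hinf : (Metric.sphere (0 : ℂ) 1).Infinite := by
      have h1 : (Metric.sphere (0 : ℂ) 1).Nontrivial := by
        refine ⟨1, by simp, -1, by simp, ?_⟩
        intro h2
        have := congrArg Complex.re h2
        norm_num at this
      have h2 : IsPreconnected (Metric.sphere (0 : ℂ) 1) :=
        isPreconnected_sphere (by simp) 0 1
      exact h2.infinite_of_nontrivial h1
    obtain ⟨w, hw1, hw2⟩ := (hinf.sdiff hfin).nonempty
    refine ⟨w, ?_, ?_⟩
    · have h3 : ‖w‖ = 1 := by simpa using hw1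
      have h4 : star w * w = ((Complex.normSq w : ℝ) : ℂ) := by
        rw [mul_comm]
        exact Complex.mul_conj w
      rw [h4, Complex.normSq_eq_norm_sq, h3]
      norm_num
    · rw [Matrix.isUnit_iff_isUnit_det, isUnit_iff_ne_zero]
      intro h3
      apply hw2
      show (V.toBlocks₂₂.charpoly).eval w = 0
      rw [Matrix.eval_charpoly, ← h3]
      congr 2
      ext i j
      simp [Matrix.scalar_apply, Matrix.smul_apply, Matrix.one_apply, Matrix.diagonal_apply]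
  obtain ⟨u, hu⟩ := hdet
  let T : Matrix π ι ℂ := (u⁻¹).1 * V.toBlocks₂₁
  have hT : V.toBlocks₂₁ + V.toBlocks₂₂ * T = w • T := by
    have h1 : (w • (1 : Matrix π π ℂ) - V.toBlocks₂₂) * T = V.toBlocks₂₁ := by
      rw [← hu, ← Matrix.mul_assoc, u.mul_inv, Matrix.one_mul]
    rw [Matrix.sub_mul, Matrix.smul_mul, Matrix.one_mul] at h1
    rw [← h1]
    abel
  have hV0 : V = fromBlocks V.toBlocks₁₁ V.toBlocks₁₂ V.toBlocks₂₁ V.toBlocks₂₂ :=
    (fromBlocks_toBlocks V).symm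
  refine ⟨V.toBlocks₁₁ + V.toBlocks₁₂ * T, ?_, ?_⟩
  · have h2   := Canc_feedback (1 : Matrix ι ι ℂ) (1 : Matrix κ κ ℂ) (1 : Matrix π π ℂ) V.toBlocks₁₁
      V.toBlocks₁₂ V.toBlocks₂₁ V.toBlocks₂₂ T w hw hT (by
        rw [← hV0, fromBlocks_one, Matrix.mul_one, fromBlocks_one, hV])
    rwa [Matrix.mul_one] at h2
  · exact Canc_feedback A B Z V.toBlocks₁₁ V.toBlocks₁₂ V.toBlocks₂₁ V.toBlocks₂₂ T w hw hT (by
      rw [← hV0, hVB])

open Pool.Agent.Helper45.NC in
theorem Canc_ms_append {k p : ℕ} (a : Fin k → ℂ) (c : Fin p → ℂ) :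
    ms (Fin.append a c) = ms (Sum.elim a c) := by
  have h : Fin.append a c ∘ finSumFinEquiv = Sum.elim a c := by
    funext x
    rcases x with i | i
    · simp
    · simp
  rw [← h]
  exact (ms_equiv finSumFinEquiv (Fin.append a c)).symm

open Pool.Agent.Helper45.NC in
theorem Canc_dil_append {k n p : ℕ} (a : Fin k → ℂ) (b : Fin n → ℂ) (c : Fin p → ℂ) :
    Dil (Fin.append a c) (Fin.append b c) ↔ Dil a b := by
  constructor
  · intro h
    have h1 : Dil (Sum.elim a c) (Sum.elim b c) := h.congr (Canc_ms_append a c).symm (Canc_ms_append b c)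
    obtain ⟨W, hW1, hW2⟩ := h1
    refine Canc_cancel (diagonal a) (diagonal b) (diagonal c) ⟨W, hW1, ?_⟩
    rw [fromBlocks_diagonal, fromBlocks_diagonal, hW2]
  · intro h
    exact (h.sum (Dil.refl c)).congr (Canc_ms_append a c) (Canc_ms_append b c).symm

end Pool.Agent.NCC
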