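import Pool.Agent.NCC.StA

/-!
# NCC, part B (necessity: the polynomial `g`, counting, limits): statements

The module `Pool/Agent/NCC/<X>.lean` proves `theorem Pool.Agent.NCC.thm_<X> : St_<Y> → ... → St_<X>`,
where the hypotheses are the statements named after `uses`, in that order (keep them all).

Around the numbers `β 0 < ... < β (M - 1)` there are slabs `|x - β s| ≤ δ` with cores `|x - β s| ≤ δ / 2`. The
strips `LO s ≤ x ≤ HI s`, `s : Fin (M + 1)`, are the intervals between the cores (and `- 3 R`, `3 R`): strip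
`s.castSucc` ends at `β s - δ / 2`, strip `s.succ` begins at `β s + δ / 2`.
-/

set_option autoImplicit false

namespace Pool.Agent.NCC

open Polynomial Filter Topology Set

/-- left ends of the strips -/
noncomputable def LO {M : ℕ} (β : Fin M → ℝ) (δ R : ℝ) : Fin (M + 1) → ℝ :=
  Fin.cases (-(3 * R)) (fun i => β i + δ / 2)

/-- right ends of the strips -/
noncomputable def HI {M : ℕ} (β : Fin M → ℝ) (δ R : ℝ) : Fin (M + 1) → ℝ :=
  Fin.lastCases (3 * R) (fun i => β i - δ / 2)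

/-- left end of the part of the strip where the signs are reached -/
noncomputable def LO' {M : ℕ} (β : Fin M → ℝ) (δ R : ℝ) : Fin (M + 1) → ℝ :=
  Fin.cases (-(3 * R)) (fun i => β i + δ)

/-- right end of the part of the strip where the signs are reached -/
noncomputable def HI' {M : ℕ} (β : Fin M → ℝ) (δ R : ℝ) : Fin (M + 1) → ℝ :=
  Fin.lastCases (3 * R) (fun i => β i - δ)

/-- curve `f = 0` with prescribed signs `γ` on its branches over the strips -/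
structure Sys (c M : ℕ) (f : BP) (β : Fin M → ℝ) (δ R τ : ℝ) (m : Fin (M + 1) → ℕ)
    (ψ : ∀ s, Fin (m s) → ℝ → ℝ) (γ : ∀ s, Fin (m s) → ℝ) : Prop where
  hM : 1 ≤ M
  hc : 1 ≤ c
  monic : f.Monic
  deg : f.natDegree = c
  td : TD f c
  far : ∀ x : ℝ, R ≤ |x| → (sl f x).Splits ∧ (sl f x).roots.Nodup
  pos : 0 < δ ∧ 0 < τ
  sep : ∀ s s' : Fin M, s < s' → β s + 2 * δ < β s'
  bd : ∀ s, -R + δ < β s ∧ β s < R - δ
  brs : ∀ s, Brs f (LO β δ R s - τ) (HI β δ R s + τ) (m s) (ψ s)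
  simple : ∀ s, ∀ x ∈ Ioo (LO β δ R s - τ) (HI β δ R s + τ), ∀ y, ev f x y = 0 →
    ev (derivative f) x y ≠ 0
  sg : ∀ s i, γ s i = 1 ∨ γ s i = -1
  right : ∀ i, ∀ x ∈ Icc (LO β δ R (Fin.last M)) (HI β δ R (Fin.last M)),
    γ (Fin.last M) i * ev (derivative f) x (ψ (Fin.last M) i x) < 0
  left : ∀ i, ∀ x ∈ Icc (LO β δ R 0) (HI β δ R 0), 0 < γ 0 i * ev (derivative f) x (ψ 0 i x)

/-- [Apx] (uses nothing) `C¹` Weierstrass approximation. Proof: approximate the continuous `deriv t` on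
`[a, b]` by a polynomial `q` with error `κ' = κ / (2 (1 + b - a))` (`exists_polynomial_near_continuousOn`) and
let `p` be the antiderivative of `q` with `p (a) = t (a)`; `|p - t| ≤ κ' (b - a)` by the mean value
inequality. -/
def St_Apx : Prop := ∀ (t : ℝ → ℝ) (a b κ : ℝ), a ≤ b → ContDiff ℝ 1 t → 0 < κ →
  ∃ p : ℝ[X], ∀ x ∈ Icc a b, |p.eval x - t x| < κ ∧ |(derivative p).eval x - deriv t x| < κ

/-- [Tgt] (uses nothing) The target function. Proof: on the open interval `I s` of the strip `s` (`LO s - τ`,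
`HI s + τ`) let `p_s (x, y) = ∑ i, γ s i ∏_(j ≠ i) (y - ψ_j x) / (ψ_i x - ψ_j x)` (Lagrange interpolation), a
polynomial in `y` of degree `< c` (`m s ≤ c`) whose coefficients are `C¹` functions of `x ∈ I s`, with
`p_s (x, ψ_i x) = γ s i`. Let `st (u)` be `0` for `u ≤ 0`, `3 u² - 2 u³` for `0 ≤ u ≤ 1`, `1` for `1 ≤ u`, a `C¹`
function, and `χ_s (x)` the product of `st ((x - β - δ / 2) / (δ / 2))` for the left end `β + δ / 2` (replace the
factor by `1` for `s = 0`) and `st ((β' - δ / 2 - x) / (δ / 2))` for the right end `β' - δ / 2` (replace it by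
`1` for the last strip). Let `T = 1 - ∑_s χ_s (1 - p_s)`, multiplied near the outer ends by cutoffs equal to `1` on
`[- 3 R, 3 R]` such that the coefficient functions are `C¹` on `ℝ` (in the last strip
the branches are given for `x < 3 R + τ`). So `T (x, y) = ∑_(j < c) t_j (x) y^j` with `C¹` functions
`t_j`, `T = 1` on the cores, and `T (x, ψ_i x) = 1 - χ_s (x) (1 - γ_i)` on the strips `[LO s, HI s]`. For
`γ_i = 1` this is `1`. For `γ_i = - 1` it is `1 - 2 χ_s`, equal to `- 1` on `[LO' s, HI' s]`. On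
`[β + δ / 2, β + δ]` it is `1 - 2 st (u)`, `u = (x - β - δ / 2) / (δ / 2)`; if `|1 - 2 st| ≤ 3 / 4`, then `1/8 ≤ st ≤ 7/8`, so
`1/5 ≤ u ≤ 4/5` (`st (1/5) = 0.104`), `st' (u) = 6 u (1 - u) ≥ 24/25`, and the derivative with respect to `x` is
`- 2 st' (u) 2 / δ ≤ - 3 / δ`. The other side is symmetric. -/
def St_Tgt : Prop := ∀ (c M : ℕ) (f : BP) (β : Fin M → ℝ) (δ R τ : ℝ) (m : Fin (M + 1) → ℕ)
  (ψ : ∀ s, Fin (m s) → ℝ → ℝ) (γ : ∀ s, Fin (m s) → ℝ), Sys c M f β δ R τ m ψ γ →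
  ∃ t : Fin c → ℝ → ℝ, (∀ j, ContDiff ℝ 1 (t j)) ∧
    (∀ s : Fin M, ∀ x ∈ Icc (β s - δ / 2) (β s + δ / 2), ∀ y, ∑ j, t j x * y ^ (j : ℕ) = 1) ∧
    (∀ s i, γ s i = 1 → ∀ x ∈ Icc (LO β δ R s) (HI β δ R s), ∑ j, t j x * (ψ s i x) ^ (j : ℕ) = 1) ∧
    (∀ s i, γ s i = -1 → ∀ x ∈ Icc (LO' β δ R s) (HI' β δ R s),
      ∑ j, t j x * (ψ s i x) ^ (j : ℕ) = -1) ∧
    (∀ (s : Fin M) i, γ s.succ i = -1 → ∀ x ∈ Icc (β s + δ / 2) (β s + δ),
      |∑ j, t j x * (ψ s.succ i x) ^ (j : ℕ)| ≤ 3 / 4 →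
        deriv (fun x' => ∑ j, t j x' * (ψ s.succ i x') ^ (j : ℕ)) x ≤ -(3 / δ)) ∧
    (∀ (s : Fin M) i, γ s.castSucc i = -1 → ∀ x ∈ Icc (β s - δ) (β s - δ / 2),
      |∑ j, t j x * (ψ s.castSucc i x) ^ (j : ℕ)| ≤ 3 / 4 →
        3 / δ ≤ deriv (fun x' => ∑ j, t j x' * (ψ s.castSucc i x') ^ (j : ℕ)) x)

/-- [Gc] (uses Apx, Tgt) Polynomial approximation. Proof: approximate the `t j` of `Tgt` in `C¹` on
`[- 3 R, 3 R]` by polynomials `p_j` (`Apx`) and put `g₀ = ∑_j p_j (x) y^j`. The real roots of `f (x, ·)`,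
`|x| ≤ 3 R`, and the derivatives of the branches on the compact intervals `[LO s, HI s]` are bounded, so
`g₀ - T` and the derivative of `g₀ (x, ψ x) - T (x, ψ x)` are as small as we like (`< 1 / 4` and `< 1 / δ`).
Take `κ = 1 / δ`. -/
def St_Gc : Prop := ∀ (c M : ℕ) (f : BP) (β : Fin M → ℝ) (δ R τ : ℝ) (m : Fin (M + 1) → ℕ)
  (ψ : ∀ s, Fin (m s) → ℝ → ℝ) (γ : ∀ s, Fin (m s) → ℝ), Sys c M f β δ R τ m ψ γ →
  ∃ (g : BP) (κ : ℝ), 0 < κ ∧
    (∀ s : Fin M, ∀ x ∈ Icc (β s - δ / 2) (β s + δ / 2), ∀ y, ev f x y = 0 → 1 / 2 < ev g x y) ∧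
    (∀ s i, γ s i = 1 → ∀ x ∈ Icc (LO β δ R s) (HI β δ R s), 1 / 2 < ev g x (ψ s i x)) ∧
    (∀ s i, γ s i = -1 → ∀ x ∈ Icc (LO' β δ R s) (HI' β δ R s), ev g x (ψ s i x) < -(1 / 2)) ∧
    (∀ (s : Fin M) i, γ s.succ i = -1 → ∀ x ∈ Icc (β s + δ / 2) (β s + δ),
      |ev g x (ψ s.succ i x)| ≤ 1 / 2 → deriv (fun x' => ev g x' (ψ s.succ i x')) x < -κ) ∧
    (∀ (s : Fin M) i, γ s.castSucc i = -1 → ∀ x ∈ Icc (β s - δ) (β s - δ / 2),
      |ev g x (ψ s.castSucc i x)| ≤ 1 / 2 → κ < deriv (fun x' => ev g x' (ψ s.castSucc i x')) x)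

/-- [Low] (uses nothing) Lower bound of the derivative at the roots for large `|x|`. Proof: `f` and
`derivative f` are relatively prime over the field of fractions of `ℝ[x]` (at some `x` with `|x| ≥ R` the
polynomial `f (x, ·)` has simple roots), so `u f + v (derivative f) = D` with polynomials `u`, `v` and
`0 ≠ D ∈ ℝ[x]`. Let `R'` be larger than `R` and the absolute values of the roots of `D`: for `|x| ≥ R'` and a root
`y` of `f (x, ·)`: `|v (x, y)| ≤ C |x|^K` (`|y| ≤ C' |x|^K'`), `|D (x)| ≥ κ > 0`, so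
`|∂_y f (x, y)| ≥ κ' |x|^(- K)`. For `R ≤ |x| ≤ R'` use compactness. -/
def St_Low : Prop := ∀ (c : ℕ) (f : BP) (R : ℝ), 1 ≤ c → f.Monic → f.natDegree = c → 0 < R →
  (∀ x : ℝ, R ≤ |x| → (sl f x).Splits ∧ (sl f x).roots.Nodup) →
  ∃ (κ : ℝ) (K : ℕ), 0 < κ ∧ ∀ x y : ℝ, R ≤ |x| → ev f x y = 0 →
    κ ≤ |x| ^ K * |ev (derivative f) x y|

/-- [Gt] (uses Gc, Low) Adding a tail. Proof: let `g₀`, `κ` be from `Gc`, `R₀ = 5 R / 4`,
`g = g₀ - (x / R₀)^(2 N + 1) ∂_y f` with `N` large, `lam = - R₀^(- (2 N + 1))`. For `|x| ≤ R` the tail and the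
derivative of `x ↦ (x / R₀)^(2 N + 1) ∂_y f (x, ψ x)` tend to `0` uniformly (`(4/5)^(2 N + 1) (2 N + 1) → 0`; the
branches and their derivatives are bounded on the compact strips, all slabs are in `|x| < R`), so the
inequalities of `Gc` remain true with `1 / 4` and `κ / 2`, and in the slabs on a branch with sign
`- 1` the function `g (x, ψ x)` goes from positive (at `β + δ / 2`; by continuity of the branch and the core
estimate) to negative and has nonzero derivative at all its zeros: exactly one zero. For `R ≤ |x| ≤ 3 R` only the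
first and the last strip occur; there `- (x / R₀)^(2 N + 1) ∂_y f` has the sign `γ` (`Sys.right`, `Sys.left`), the
same as `g₀`. For `|x| ≥ 3 R`: `|g₀ (x, y)| ≤ C |x|^D` at the roots `y` of `f (x, ·)`, and by `Low`
`|(x / R₀)^(2 N + 1) ∂_y f| ≥ (|x| / R₀)^(2 N + 1) κ' |x|^(- K)`, with `|x| / R₀ ≥ 12 / 5`; so for large `N` the tail
dominates. `TD g₀ (2 N + c - 1)` for large `N`. -/
def St_Gt : Prop := ∀ (c M : ℕ) (f : BP) (β : Fin M → ℝ) (δ R τ : ℝ) (m : Fin (M + 1) → ℕ)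
  (ψ : ∀ s, Fin (m s) → ℝ → ℝ) (γ : ∀ s, Fin (m s) → ℝ), Sys c M f β δ R τ m ψ γ →
  ∃ (g g₀ : BP) (N : ℕ) (lam : ℝ), lam ≠ 0 ∧ TD g₀ (2 * N + c - 1) ∧
    g = g₀ + C (C lam * X ^ (2 * N + 1)) * derivative f ∧
    (∀ s : Fin M, ∀ x ∈ Icc (β s - δ / 2) (β s + δ / 2), ∀ y, ev f x y = 0 → 0 < ev g x y) ∧
    (∀ s i, γ s i = 1 → ∀ x ∈ Icc (LO β δ R s) (HI β δ R s), 0 < ev g x (ψ s i x)) ∧
    (∀ s i, γ s i = -1 → ∀ x ∈ Icc (LO' β δ R s) (HI' β δ R s), ev g x (ψ s i x) < 0) ∧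
    (∀ (s : Fin M) i, γ s.succ i = -1 → ∃ x₁ ∈ Ioo (β s + δ / 2) (β s + δ),
      ev g x₁ (ψ s.succ i x₁) = 0 ∧ deriv (fun x' => ev g x' (ψ s.succ i x')) x₁ < 0 ∧
      ∀ x ∈ Icc (β s + δ / 2) (β s + δ), ev g x (ψ s.succ i x) = 0 → x = x₁) ∧
    (∀ (s : Fin M) i, γ s.castSucc i = -1 → ∃ x₁ ∈ Ioo (β s - δ) (β s - δ / 2),
      ev g x₁ (ψ s.castSucc i x₁) = 0 ∧ 0 < deriv (fun x' => ev g x' (ψ s.castSucc i x')) x₁ ∧
      ∀ x ∈ Icc (β s - δ) (β s - δ / 2), ev g x (ψ s.castSucc i x) = 0 → x = x₁) ∧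
    ∀ x y : ℝ, 3 * R ≤ |x| → ev f x y = 0 → ev g x y ≠ 0

/-- curve `f = 0` close to `F = 0` with signs `σ` on its branches over the strips -/
structure Geo (c M : ℕ) (F f : BP) (nn : ℝ → ℝ → ℤ) (β : Fin M → ℝ) (δ η R τ : ℝ)
    (m : Fin (M + 1) → ℕ) (ψ : ∀ s, Fin (m s) → ℝ → ℝ) (σ : ∀ s, Fin (m s) → ℤ) : Prop where
  hM : 1 ≤ M
  hc : 1 ≤ c
  monic : f.Monic
  deg : f.natDegree = c
  td : TD f c
  lfs : (lf f c).Splits
  lfn : (lf f c).roots.Nodup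
  far : ∀ x : ℝ, R ≤ |x| → (sl f x).Splits ∧ (sl f x).roots.Nodup
  pos : 0 < δ ∧ 0 < τ ∧ 0 < η
  sep : ∀ s s' : Fin M, s < s' → β s + 2 * δ < β s'
  bd : ∀ s, -R + δ < β s ∧ β s < R - δ
  brs : ∀ s, Brs f (LO β δ R s - τ) (HI β δ R s + τ) (m s) (ψ s)
  simple : ∀ s, ∀ x ∈ Ioo (LO β δ R s - τ) (HI β δ R s + τ), ∀ y, ev f x y = 0 →
    ev (derivative f) x y ≠ 0
  slab : ∀ s x y, |x - β s| ≤ δ → ev f x y = 0 → ∃ φ, ev F (β s) φ = 0 ∧ |y - φ| < η
  disj : ∀ s φ φ', ev F (β s) φ = 0 → ev F (β s) φ' = 0 → φ ≠ φ' → 2 * η < |φ - φ'|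
  Fne : ∀ s x φ, |x - β s| ≤ δ → ev F (β s) φ = 0 → ev F x (φ - η) ≠ 0 ∧ ev F x (φ + η) ≠ 0
  sgn : ∀ s i, σ s i = 1 ∨ σ s i = -1
  relR : ∀ (s : Fin M) φ, ev F (β s) φ = 0 → ∀ x ∈ Icc (β s + δ / 2) (β s + δ),
    ∑ i, (if φ - η < ψ s.succ i x ∧ ψ s.succ i x < φ + η then σ s.succ i else 0) =
      nn x (φ - η) - nn x (φ + η)
  relL : ∀ (s : Fin M) φ, ev F (β s) φ = 0 → ∀ x ∈ Icc (β s - δ) (β s - δ / 2),
    ∑ i, (if φ - η < ψ s.castSucc i x ∧ ψ s.castSucc i x < φ + η then σ s.castSucc i else 0) =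
      nn x (φ - η) - nn x (φ + η)
  s0 : ∀ i, σ 0 i = -1
  sl : ∀ i, σ (Fin.last M) i = 1

/-- [Geo] (uses Fac, Good, Pert, Br, Sig, Slab) The geometry. Proof: `F = ∏ G_r` (`Fac`). Let `B` be the union of
the set from `Good`, the real parts of the points of the support, and `{0}`; let `β 0 < ... < β (M - 1)` be
its elements. `M₀ ≥ 1` such that `SigData.right` holds for `x ≥ M₀` and `SigData.left` for `x ≤ - M₀`;
`R ≥ M₀`, `R ≥ |β s| + 2` for all `s`. Given `η₀`, choose `η < η₀ / 2` with `2 η < |φ - φ'|` for different roots of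
`F (β s, ·)`, all `s`. By `Slab` (with `η / 2`) there is `δ ≤ 1`, `δ < η₀ / 2`, such that for `|x - β s| ≤ δ` the real
roots of `F (x, ·)` are at distance `< η / 2` from those of `F (β s, ·)`, and `β s + 2 δ < β s'` for `s < s'`;
`τ = δ / 4`. For a root `φ` of `F (β s, ·)` and `|x - β s| ≤ δ` the points `φ ± η` have distance `≥ η` from all
roots of `F (β s, ·)` (by the choice of `η`), so distance `> η / 2` from the roots of `F (x, ·)`: `Fne`. `K₁` is the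
union of the intervals `[LO s - τ, HI s + τ]`, it contains no `β s`. `K₃ = [- 3 R - 1, 3 R + 1]`, `Y` a bound
for the roots of `F (x, ·)`, `x ∈ K₃`. `K₂` is the set of the `(x, y)` with `|x - β s| ≤ δ` for some `s`,
`|y| ≤ Y` and `|y - φ| ≥ η` for all roots `φ` of `F (β s, ·)`. `f` from `Pert` with `η / 2`. `slab`: a root `y` of
`f (x, ·)` has `|y| < Y`, and `(x, y) ∉ K₂`. Branches by `Br` on `(LO s - τ, HI s + τ)`, signs by `Sig` (with
`η / 2`). `s0`: take `x = - 2 R` in `Sig`, and `y₁`, `y₂` below and above all roots of `f (x, ·)`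
and `F (x, ·)` by more than `η`: the sum of all `σ 0 i` is `nn x y₁ - nn x y₂ = - cnt F x y₁ y₂ =
- cnt f x y₁ y₂ = - m 0` (the roots of `f (x, ·)` are simple, they are the `ψ 0 i x`), so all are `- 1`. `sl`
similarly with `x = 2 R`. -/
def St_Geo : Prop := ∀ (c : ℕ) (F : BP) (w : ℂ →₀ ℤ) (nn : ℝ → ℝ → ℤ), SigData c F w nn → 1 ≤ c →
  ∃ (M : ℕ) (β : Fin M → ℝ) (R : ℝ), (∀ z ∈ w.support, ∃ s, z.re = β s) ∧
    ∀ η₀ : ℝ, 0 < η₀ → ∃ (f : BP) (δ η τ : ℝ) (m : Fin (M + 1) → ℕ) (ψ : ∀ s, Fin (m s) → ℝ → ℝ)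
      (σ : ∀ s, Fin (m s) → ℤ), δ + η < η₀ ∧ Geo c M F f nn β δ η R τ m ψ σ

/-- [Zr] (uses Gt, Conv) Zeros of the regular pair. Proof: the sign of `∂_y f (x, ψ_i x)` is constant on the open
interval of the strip (`simple`, continuity). Put `γ s i = - 1` if `0 < σ s i * ∂_y f` there and `γ s i = 1` if
`σ s i * ∂_y f < 0`; then `Sys` holds (`right` and `left` from `sl`, `s0`: for the last strip `σ = 1`, so
`γ ∂_y f < 0`). Take `g` from `Gt` and `p`, `q` from `Conv`. A real common zero `(x, y)` has `|x| < 3 R`; `x` is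
not in a core; so it is in a strip, `y = ψ_i x`, `γ s i = - 1`, and `x` is one of the (at most) two zeros
`xr`, `xl` of `Gt` (for the other `i` choose `xr`, `xl` arbitrary in the intervals). The Jacobian there is
`- ∂_y f (g (x, ψ x))'` (`Conv`), of the sign of `∂_y f`, which is `σ`, for `xr` (negative derivative),
and of the sign of `- σ` for `xl`. In particular all common real zeros are simple. -/
def St_Zr : Prop := ∀ (c M : ℕ) (F f : BP) (nn : ℝ → ℝ → ℤ) (β : Fin M → ℝ) (δ η R τ : ℝ)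
  (m : Fin (M + 1) → ℕ) (ψ : ∀ s, Fin (m s) → ℝ → ℝ) (σ : ∀ s, Fin (m s) → ℤ),
  Geo c M F f nn β δ η R τ m ψ σ →
  ∃ (p q : RP) (xr : ∀ s : Fin M, Fin (m s.succ) → ℝ) (xl : ∀ s : Fin M, Fin (m s.castSucc) → ℝ),
    Regular p q ∧ p.totalDegree = c ∧ (∀ s i, xr s i ∈ Ioo (β s + δ / 2) (β s + δ)) ∧
    (∀ s i, xl s i ∈ Ioo (β s - δ) (β s - δ / 2)) ∧
    (∀ z, Zer p q z ↔
      (∃ s i, 0 < (σ s.succ i : ℝ) * ev (derivative f) (xr s i) (ψ s.succ i (xr s i)) ∧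
        z = ⟨xr s i, ψ s.succ i (xr s i)⟩) ∨
      ∃ s i, 0 < (σ s.castSucc i : ℝ) * ev (derivative f) (xl s i) (ψ s.castSucc i (xl s i)) ∧
        z = ⟨xl s i, ψ s.castSucc i (xl s i)⟩) ∧
    (∀ s i, 0 < (σ s.succ i : ℝ) * ev (derivative f) (xr s i) (ψ s.succ i (xr s i)) →
      0 < (σ s.succ i : ℝ) * MvPolynomial.eval (pt ⟨xr s i, ψ s.succ i (xr s i)⟩) (jac p q)) ∧
    ∀ s i, 0 < (σ s.castSucc i : ℝ) * ev (derivative f) (xl s i) (ψ s.castSucc i (xl s i)) →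
      (σ s.castSucc i : ℝ) * MvPolynomial.eval (pt ⟨xl s i, ψ s.castSucc i (xl s i)⟩) (jac p q) < 0

/-- [Cnt] (uses Box, SgnSum, Zr) Counting in the boxes. Proof: `Zp`, `Zm` are the zeros of `Zr` with positive and
negative Jacobian; there are at most `m s ≤ c` for each `s` and each of the two types, so the cardinalities
are `≤ 2 c M`. A zero `z` of type `xr s i` or `xl s i` lies in the slab number `s`, and there is a root `φ` of
`F (β s, ·)`, unique by `disj`, with `|z.im - φ| < η` (`slab`); `π z = ⟨β s, φ⟩` (slabs are disjoint). Fix `s`, `φ`. For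
`x ∈ [β s + δ / 2, β s + δ]` all `ψ i x` lie in the disjoint intervals `(φ' - η, φ' + η)`, so by continuity each
branch stays in one of them. Let `R` be the set of the `i` with `ψ s.succ i` in `(φ - η, φ + η)`, and `L` the
analogous set for `s.castSucc` on the left. For `i ∈ R` the zero `xr s i` occurs iff `σ i` equals the sign
`ε i` of `∂_y f` (constant along the branch), and counts `σ i`; so it counts `(σ i + ε i) / 2` in both cases;
for `i ∈ L` it counts `- (σ i + ε i) / 2`. So twice the difference of the numbers is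
`∑_R (σ + ε) - ∑_L (σ + ε)`. By `relR` at `xp = β s + δ`, `relL` at `xm = β s - δ` and `Box` (`y₁ = φ - η`,
`y₂ = φ + η`; its hypotheses: `disj`, `Fne`, `sep`) `∑_R σ - ∑_L σ = 2 w ⟨β s, φ⟩`. By `SgnSum`
`2 ∑_R ε = sign f (xp, φ + η) - sign f (xp, φ - η)`, and the same for `L` at `xm`; the signs agree since
`f (x, φ ± η) ≠ 0` for `|x - β s| ≤ δ` (`slab`, `disj`: `φ ± η` has distance `≥ η` from all roots of
`F (β s, ·)`). -/
def St_Cnt : Prop := ∀ (c M : ℕ) (F f : BP) (w : ℂ →₀ ℤ) (nn : ℝ → ℝ → ℤ) (β : Fin M → ℝ)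
  (δ η R τ : ℝ) (m : Fin (M + 1) → ℕ) (ψ : ∀ s, Fin (m s) → ℝ → ℝ) (σ : ∀ s, Fin (m s) → ℤ),
  SigData c F w nn → (∀ z ∈ w.support, ∃ s, z.re = β s) → Geo c M F f nn β δ η R τ m ψ σ →
  ∃ (p q : RP) (Zp Zm : Finset ℂ) (π : ℂ → ℂ), Regular p q ∧ p.totalDegree = c ∧
    (∀ z, z ∈ Zp ↔ Zer p q z ∧ 0 < MvPolynomial.eval (pt z) (jac p q)) ∧
    (∀ z, z ∈ Zm ↔ Zer p q z ∧ MvPolynomial.eval (pt z) (jac p q) < 0) ∧
    Zp.card ≤ 2 * c * M ∧ Zm.card ≤ 2 * c * M ∧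
    (∀ z ∈ Zp ∪ Zm, ∃ s φ, ev F (β s) φ = 0 ∧ π z = ⟨β s, φ⟩ ∧ |z.re - β s| ≤ δ ∧ |z.im - φ| < η) ∧
    ∀ s φ, ev F (β s) φ = 0 → ((Zp.filter (fun z => π z = ⟨β s, φ⟩)).card : ℤ) -
      (Zm.filter (fun z => π z = ⟨β s, φ⟩)).card = w ⟨β s, φ⟩

/-- [NA] (uses Geo, Cnt) Proof: `P` is the finite set of the points `⟨β s, φ⟩`, `F (β s, φ) = 0`; it contains the
support (`SigData.zero`, real parts). `K = 2 c M`. `dist z (π z) ≤ |z.re - β s| + |z.im - φ| < δ + η < η₀`. -/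
def St_NA : Prop := ∀ (c : ℕ) (F : BP) (w : ℂ →₀ ℤ) (nn : ℝ → ℝ → ℤ), SigData c F w nn → 1 ≤ c →
  Approx c w

/-- [NB] (uses nothing) Limit. Proof: for `η = 1 / (i + 1)` let `f_i, g_i, Zp, Zm, π` be from `Approx`. The sum
over `P` of the last condition gives `#Zp - #Zm = ∑ w = (k + c) - k = c` (the support of `w` is in `P`, all
`π z ∈ P`). Let `K_i = #Zm ≤ K`, `a'_i : Fin K_i → ℂ`, `b'_i : Fin (K_i + c) → ℂ` enumerations of `Zm`, `Zp`. The tuples
`π ∘ a'_i`, `π ∘ b'_i` have values in the finite set `P`, so for infinitely many `i` the number `K_i` and these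
two tuples are the same, `(a₁, b₁)`; then `(a'_i, b'_i)` tends to `(a₁, b₁)`. For `p ∈ P`: the number of the
`l` with `b₁ l = p` minus the number of the `j` with `a₁ j = p` is `w p`, the same difference for `b`, `a`
(definition of `wt`); for `p ∉ P` all is `0`. So the multisets agree. -/
def St_NB : Prop := ∀ (k c : ℕ) (a : Fin k → ℂ) (b : Fin (k + c) → ℂ), Approx c (wt a b) →
  ∃ (K : ℕ) (a₁ : Fin K → ℂ) (b₁ : Fin (K + c) → ℂ),
    Pool.Agent.Helper45.NC.ms a + Pool.Agent.Helper45.NC.ms b₁ =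
      Pool.Agent.Helper45.NC.ms a₁ + Pool.Agent.Helper45.NC.ms b ∧
    (a₁, b₁) ∈ closure {p : (Fin K → ℂ) × (Fin (K + c) → ℂ) | ∃ f g : RP, Regular f g ∧
      f.totalDegree = c ∧ Lists f g p.1 p.2}

/-- [Rt] (uses nothing) Rotation. Proof: with `ω = u + i v` let `f' = f (u x - v y, v x + u y)` (algebra
homomorphism `MvPolynomial.aeval`, with inverse the rotation by `conj ω`); `eval (pt z) f' = eval (pt (ω z)) f`,
the total degree is preserved, `lead f'` is the same substitution in `lead f`, and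
`jac f' g'` is the substitution in `jac f g` (chain rule, determinant `u² + v² = 1`). -/
def St_Rt : Prop := ∀ (ω : ℂ) (f g : RP), ‖ω‖ = 1 → Regular f g → ∃ f' g' : RP, Regular f' g' ∧
  f'.totalDegree = f.totalDegree ∧ ∀ (k n : ℕ) (a : Fin k → ℂ) (b : Fin n → ℂ),
    Lists f g (fun j => ω * a j) (fun l => ω * b l) → Lists f' g' a b

end Pool.Agent.NCC
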