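import Pool.Agent.NCC.Defs2

/-!
# NCC, part C: curves with charges (an explicit form of the signature data), statements

The module `Pool/Agent/NCC/<X>.lean` proves `theorem Pool.Agent.NCC.thm_<X> : St_<X>`.
-/

set_option autoImplicit false

namespace Pool.Agent.NCC

open Polynomial Filter Topology Set

/-- the sum of `s x y` over the real roots `y` of `F (x, ·)` between `y₁` and `y₂` -/
noncomputable def chg (F : BP) (s : ℝ → ℝ → ℤ) (x y₁ y₂ : ℝ) : ℤ :=
  ∑ y ∈ (sl F x).roots.toFinset.filter (fun y => y₁ < y ∧ y < y₂), s x y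

/-- `F` is monic of degree `c` in `y` and has total degree `c`; `s` is an integer function with `|s x y| ≤ m` and
`s x y ≡ m (mod 2)`, `m` the multiplicity of the root `y` of `F (x, ·)` (`m = 0` if it is not a root); the
sum of `s` over the roots in a window is locally constant, except that it jumps by `2 * w z` at a point `z` of
the window; the sum over all roots is `- c` far left and `c` far right. -/
structure Charge (c : ℕ) (F : BP) (w : ℂ →₀ ℤ) (s : ℝ → ℝ → ℤ) : Prop where
  monic : F.Monic
  deg : F.natDegree = c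
  td : TD F c
  inj : ∀ z ∈ w.support, ∀ z' ∈ w.support, z.re = z'.re → z = z'
  bound : ∀ x y : ℝ, |s x y| ≤ (sl F x).rootMultiplicity y ∧
    (s x y - (sl F x).rootMultiplicity y) % 2 = 0
  loc : ∀ x₀ y₁ y₂ : ℝ, (∀ z ∈ w.support, z.re ≠ x₀) → y₁ < y₂ → ev F x₀ y₁ ≠ 0 → ev F x₀ y₂ ≠ 0 →
    ∀ᶠ x : ℝ in 𝓝 x₀, chg F s x y₁ y₂ = chg F s x₀ y₁ y₂
  cross : ∀ z ∈ w.support, ∀ y₁ y₂ : ℝ, y₁ < y₂ → ev F z.re y₁ ≠ 0 → ev F z.re y₂ ≠ 0 →
    ∀ᶠ h : ℝ in 𝓝[>] 0, chg F s (z.re + h) y₁ y₂ - chg F s (z.re - h) y₁ y₂ =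
      if y₁ < z.im ∧ z.im < y₂ then 2 * w z else 0
  far : ∃ M : ℝ, ∀ x : ℝ, (M ≤ x → ∑ y ∈ (sl F x).roots.toFinset, s x y = c) ∧
    (x ≤ -M → ∑ y ∈ (sl F x).roots.toFinset, s x y = -c)

/-- [SD] (uses nothing) From signature data to charges. Proof: let `x` be no real part of a point of the
support. By `jump` (with `cnt = 0`) `nn x` has the same value at any two non-roots without root of `F (x, ·)`
between them. For a root `y` put `s x y = nn x (y - e) - nn x (y + e)` with a small `e > 0` (no other root
in `[y - e, y + e]`, by choice; `jump` gives `bound`), for a non-root `s x y = 0`. For a real part `x` of a point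
of the support put `s x y = rootMultiplicity`. Telescoping (induction on the number of the roots between
`y₁` and `y₂`): `chg F s x y₁ y₂ = nn x y₁ - nn x y₂` for non-roots `y₁ < y₂`, `x` no real part of the
support. `loc` follows from `SigData.loc` at `(x₀, y₁)`, `(x₀, y₂)` (the real parts of the support are finitely
many, and `F (x, y_i) ≠ 0` for `x` near `x₀`). `cross`: if `y₁` or `y₂` is in the set `Y₀` of
`SigData.cross`, replace it by a near `y_i'` outside `Y₀` such that `F (z.re, ·)` has no root in the closed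
interval between `y_i` and `y_i'`; by compactness the same holds for `F (x, ·)`, `x` near `z.re`, so
`nn x y_i = nn x y_i'` for these `x ≠ z.re`; also `z.im` (a root) is not in this interval. Then the difference
is `(if z.im < y₁ then - w z else w z) - (if z.im < y₂ then - w z else w z)`, and `z.im ≠ y₁, y₂`. `far`: for
large `|x|`, `sl F x` splits, has `c` roots with multiplicity, all between some `y₁`, `y₂`. -/
def St_SD : Prop := ∀ (c : ℕ) (F : BP) (w : ℂ →₀ ℤ) (nn : ℝ → ℝ → ℤ), SigData c F w nn →
  ∃ s : ℝ → ℝ → ℤ, Charge c F w s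

/-- [DS] (uses nothing) From charges to signature data. Proof: let
`nn x y = (∑ z in the support with z.re < x, w z) - ∑ y' root of F (x, ·) with y' < y, s x y'`. For non-roots
`y₁ < y₂`: `nn x y₁ - nn x y₂ = chg F s x y₁ y₂`, so `bound` gives `jump` (`cnt` is the sum of the
multiplicities of the roots in the window). `zero`: if `F (z.re, z.im) ≠ 0`, take a small window around
`z.im` without roots of `F (x, ·)` for all `x` near `z.re`: `cross` gives `0 = 2 * w z`. `loc` at `(x, y)`: the roots of
the monic `F (x', ·)`, `|x' - x| ≤ 1`, are `> Y₁` for some `Y₁ < y`; `nn x' y'` is `∑ ... - chg F s x' Y₁ y'`; there is a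
ball around `(x, y)` without zeros of `F`, so `chg F s x' Y₁ y' = chg F s x' Y₁ y` there; use `Charge.loc`.
`cross` with `Y₀ = ∅`: with `Y₁` as before the difference is
`w z - (if Y₁ < z.im ∧ z.im < y then 2 * w z else 0)` (the first sum changes by `w z`, by `inj`), `Y₁ < z.im` because
`z.im` is a root, and `z.im ≠ y`. `right`, `left`: the sum `± c` of the `s x y` over all roots, `|s x y| ≤ m`, and the
sum of the multiplicities `m` is at most `c`; so it is `c` (`sl F x` splits) and `s x y = ± m` for all roots.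
`lfs`: `lf F c` is monic of degree `c`; it is enough that it has no root `μ ∈ ℂ` with `μ.im ≠ 0`. For
`x ≥ M` all roots `r_i` of `F (x, ·)` are real, so `|F (x, x μ)| = ∏ |x μ - r_i| ≥ |x μ.im| ^ c`, and
`F (x, x μ) / x ^ c` tends to `lf F c (μ)` as `x → ∞` (`F.coeff j` has degree `≤ c - j`); so
`|lf F c (μ)| ≥ |μ.im| ^ c > 0`. -/
def St_DS : Prop := ∀ (c : ℕ) (F : BP) (w : ℂ →₀ ℤ) (s : ℝ → ℝ → ℤ), Charge c F w s →
  ∃ nn : ℝ → ℝ → ℤ, SigData c F w nn

end Pool.Agent.NCC
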