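import Pool.Agent.NCC.Defs2

/-!
# NCC, part M (necessity, matrices): statements

The module `Pool/Agent/NCC/<X>.lean` proves `theorem Pool.Agent.NCC.thm_<X> : St_<Y> → ... → St_<X>`,
where the hypotheses are the statements named after `uses`, in that order (keep them all).

Conventions in the proofs: for `PD` data, `x_l + i y_l = b l`, `α_j + i β_j = a j`, `B₁ = dre b`, `B₂ = dimg b`,
`A₁ = dre a`, `A₂ = dimg a`, so `Wᴴ B_i W = A_i` (take the adjoint of `hA`). `ε_l` is the row `l` of `E`,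
`Eᴴ diag(d) E = ∑ d_l ε_l* ε_l`, `∑ ε_l* ε_l = 1`.
-/

set_option autoImplicit false

namespace Pool.Agent.NCC

open Polynomial Matrix Filter Topology Module
open scoped ComplexConjugate

/-! ### inertia of Hermitian matrices -/

/-- [Ng] (uses nothing) `ng` is the number of negative eigenvalues: for Hermitian `N` the roots of the
characteristic polynomial are the `hN.eigenvalues i` (`Matrix.IsHermitian.roots_charpoly_eq_eigenvalues` or
`IsHermitian.charpoly_eq`). Second part: congruence invariance (Sylvester). Proof: for a subspace `V` of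
`ℂ^m` on which `x* N x < 0` for `x ≠ 0` we have `dim V ≤ ng N` (it meets the span of the eigenvectors with
eigenvalue `≥ 0` only in `0`), with equality for the span of the eigenvectors with negative
eigenvalue; `T⁻¹` maps such subspaces for `N` to such subspaces for `Tᴴ N T`; and conversely.
Third part: diagonal matrices (`Matrix.charpoly_diagonal`). -/
def St_Ng : Prop :=
  (∀ (m : Type) [Fintype m] [DecidableEq m] (N : Matrix m m ℂ) (hN : N.IsHermitian),
    ng N = (Finset.univ.filter (fun i => hN.eigenvalues i < 0)).card) ∧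
  (∀ (m : Type) [Fintype m] [DecidableEq m] (N T : Matrix m m ℂ), N.IsHermitian → T.det ≠ 0 →
    ng (Tᴴ * N * T) = ng N) ∧
  (∀ (m : Type) [Fintype m] [DecidableEq m] (d : m → ℝ),
    ng (diagonal fun i => (d i : ℂ)) = (Finset.univ.filter (fun i => d i < 0)).card)

/-- [Schur] (uses Ng) Additivity. Proof: with `T = fromBlocks 1 (- D⁻¹ M) 0 1` (determinant `1`) the matrix
`Tᴴ N T` is block diagonal with blocks `D` and `R - Mᴴ D⁻¹ M`, and the characteristic polynomial of a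
block diagonal matrix is the product. -/
def St_Schur : Prop := ∀ (p q : Type) [Fintype p] [DecidableEq p] [Fintype q] [DecidableEq q]
  (D : Matrix p p ℂ) (M : Matrix p q ℂ) (R : Matrix q q ℂ), D.IsHermitian → R.IsHermitian →
  D.det ≠ 0 → ng (fromBlocks D M Mᴴ R) = ng D + ng (R - Mᴴ * D⁻¹ * M)

/-- [Semi] (uses Ng) Semicontinuity. Proof: let `V₋` be the span of the eigenvectors of `N x₀` with negative
eigenvalues, on its unit sphere `v* (N x₀) v ≤ - δ`, so `v* (N x) v < 0` for `x` near `x₀`, hence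
`ng (N x₀) ≤ ng (N x)` (characterization of `ng` by subspaces as in `Ng`). Similarly for the span of
the eigenvectors with positive eigenvalues, of dimension `rank (N x₀) - ng (N x₀)`; a subspace on
which `N x` is negative meets it only in `0`, so
`ng (N x) ≤ card m - (rank (N x₀) - ng (N x₀))`. -/
def St_Semi : Prop := ∀ (X : Type) [TopologicalSpace X] (m : Type) [Fintype m] [DecidableEq m]
  (N : X → Matrix m m ℂ) (x₀ : X), ContinuousAt N x₀ → (∀ x, (N x).IsHermitian) →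
  ∀ᶠ x in 𝓝 x₀, ng (N x₀) ≤ ng (N x) ∧ ng (N x) + (N x₀).rank ≤ ng (N x₀) + Fintype.card m

/-- [Par] (uses Ng) The determinant of an invertible Hermitian matrix is the product of its (real, nonzero)
eigenvalues, so it has the sign `(- 1) ^ ng N`. -/
def St_Par : Prop := ∀ (m : Type) [Fintype m] [DecidableEq m] (N : Matrix m m ℂ), N.IsHermitian →
  N.det ≠ 0 → 0 < (-1) ^ ng N * N.det.re ∧ N.det.im = 0

/-! ### the pencil -/

/-- [PD0] (uses nothing) Existence of the data after a generic rotation. Proof: let `W` be from `Dil a b` and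
`E` from `Pool.Agent.Helper45.NC.complete`. Put `M₊ = Wᴴ B E`, `M₋ = Wᴴ Bᴴ E`, `B = diagonal b`. From
`E Eᴴ = 1 - W Wᴴ`, `B Bᴴ = Bᴴ B` and `Wᴴ B W = diagonal a` we get `M₊ M₊ᴴ = M₋ M₋ᴴ`. By
`Pool.Agent.Helper45.NC.exists_unitary` there is a unitary `U` with `M₊ = M₋ U`. Let `Φ` be the finite set of
the `ω` for which `- 1` is an eigenvalue of `ω² U`. For the rotated tuples (`‖ω‖ = 1`), `M₊` is multiplied by
`ω` and `M₋` by `conj ω`, so `M₊' = M₋' U'` with `U' = ω² U`. `X₁ = Wᴴ B₁ E = (M₊' + M₋') / 2 = M₋' (U' + 1) / 2`,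
`X₂ = Wᴴ B₂ E = (M₊' - M₋') / (2 i) = M₋' (U' - 1) / (2 i)`, so `X₂ = X₁ S` with
`S = - i (U' - 1) (U' + 1)⁻¹`, Hermitian. Put `Gᴴ = Eᴴ (B₁ E S - B₂ E)`. Then
`B₂ E - B₁ E S = (W Wᴴ + E Eᴴ) (B₂ E - B₁ E S) = W (X₂ - X₁ S) - E Gᴴ = - E Gᴴ`. -/
def St_PD0 : Prop := ∀ (k c : ℕ) (a : Fin k → ℂ) (b : Fin (k + c) → ℂ),
  Pool.Agent.Helper45.NC.Dil a b → ∃ Φ : Finset ℂ, ∀ ω : ℂ, ‖ω‖ = 1 → ω ∉ Φ →
    ∃ (W : Matrix (Fin (k + c)) (Fin k) ℂ) (E : Matrix (Fin (k + c)) (Fin c) ℂ)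
      (S G : Matrix (Fin c) (Fin c) ℂ), PD (fun j => ω * a j) (fun l => ω * b l) W E S G

/-- [MId] (uses nothing) Identities. Proof: row `l` of `hG` is `y_l ε_l = x_l ε_l S - ε_l Gᴴ`, with adjoint
`y_l ε_l* = x_l S ε_l* - G ε_l*`, so `(y - x S + G) ε_l* = (y - y_l) ε_l* - (x - x_l) S ε_l*`. Multiply by
`ε_l / (x - x_l)` and add: `PP * Th = Hm`. `Hm` and `Th` are Hermitian. Third part: `[W E]` is
unitary, and in this basis `x - B₁` has the leading block `x - A₁` and its inverse has the last block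
`Th x`; Jacobi: `det (last block of the inverse) = det (leading block) / det` (Schur complement,
`Matrix.det_fromBlocks₁₁`). -/
def St_MId : Prop := ∀ (k c : ℕ) (a : Fin k → ℂ) (b : Fin (k + c) → ℂ)
  (W : Matrix (Fin (k + c)) (Fin k) ℂ) (E : Matrix (Fin (k + c)) (Fin c) ℂ)
  (S G : Matrix (Fin c) (Fin c) ℂ), PD a b W E S G → ∀ x y : ℝ,
  (Hm b E S x y).IsHermitian ∧ (Th b E x).IsHermitian ∧
  ((∀ l, (b l).re ≠ x) → PP S G x y * Th b E x = Hm b E S x y ∧
    (Th b E x).det * ∏ l, ((x - (b l).re : ℝ) : ℂ) = ∏ j, ((x - (a j).re : ℝ) : ℂ))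

/-- [DetF] (uses MId) The polynomial. Proof: the determinant of `y - x S + G` is the value of
a polynomial in `x`, `y` with complex coefficients, monic in `y` of degree `c`, of total degree
`≤ c` (an entry has total degree `≤ 1`), and its part of degree `c` is `det (y - x S)`, so at `(1, s)` it is
the characteristic polynomial of `S`, whose roots are real (all `c` of them). For real `x` larger than
all `x_l` and `α_j`, `Th` is invertible and `det (PP) = det (Hm) / det (Th)` is real (determinants of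
Hermitian matrices are real), for all real `y`; so all coefficients are real. Last part: `x`, `y`, `x_l`
as in the third part of `MId`. -/
def St_DetF : Prop := ∀ (k c : ℕ) (a : Fin k → ℂ) (b : Fin (k + c) → ℂ)
  (W : Matrix (Fin (k + c)) (Fin k) ℂ) (E : Matrix (Fin (k + c)) (Fin c) ℂ)
  (S G : Matrix (Fin c) (Fin c) ℂ), PD a b W E S G → ∃ F : BP, F.Monic ∧ F.natDegree = c ∧ TD F c ∧
    (lf F c).Splits ∧ (∀ x y : ℝ, (ev F x y : ℂ) = (PP S G x y).det) ∧
    ∀ x y : ℝ, (∀ l, (b l).re ≠ x) →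
      (Hm b E S x y).det * ∏ l, ((x - (b l).re : ℝ) : ℂ) = ev F x y * ∏ j, ((x - (a j).re : ℝ) : ℂ)

/-- [FZer] (uses nothing) The points lie on the curve. Proof for `b l`: if `ε_l = 0`, then with the
unit vector `e_l` and `w = Wᴴ e_l` we have `W w = e_l - E (ε_l)* = e_l`, so `w ≠ 0` and
`diag(a) w = Wᴴ B W w = Wᴴ B e_l = b l • w`, so `b l = a j` for some `j`. Hence `ε_l ≠ 0`, and
`(y_l - x_l S + G) ε_l* = 0` (adjoint of row `l` of `hG`). Proof for `a j`: let `X = Wᴴ B₁ E`; by `hG` and `hWE`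
`Wᴴ B₂ E = X S`. Row `j` of `X` is `ξ`. If `ξ = 0`, then row `j` of `Wᴴ B` is
row `j` of `Wᴴ B (W Wᴴ + E Eᴴ)` which is `a j` times row `j` of `Wᴴ`, and this row is not `0`, so `a j = b l` for
some `l`. So `ξ ≠ 0`. From `Wᴴ B₁ B₂ E = Wᴴ B₂ B₁ E` and `W Wᴴ + E Eᴴ = 1`:
`A₁ X S + X Z₂ = A₂ X + X S Z₁`, `Z_i = Eᴴ B_i E`, and `G = S Z₁ - Z₂` (multiply `hG` by `Eᴴ`, adjoint). So
`X G = A₁ X S - A₂ X`, row `j`: `ξ (β_j - α_j S + G) = 0`. -/
def St_FZer : Prop := ∀ (k c : ℕ) (a : Fin k → ℂ) (b : Fin (k + c) → ℂ)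
  (W : Matrix (Fin (k + c)) (Fin k) ℂ) (E : Matrix (Fin (k + c)) (Fin c) ℂ)
  (S G : Matrix (Fin c) (Fin c) ℂ), PD a b W E S G → (∀ j l, a j ≠ b l) →
  (∀ l, (PP S G (b l).re (b l).im).det = 0) ∧ ∀ j, (PP S G (a j).re (a j).im).det = 0

/-- [JB] (uses Schur, Semi, Ng, DetF) Crossing a vertical line through some `b l`. Proof: let
`N(x) = [[- (x - B₁)(y - B₂), (y - B₂) E], [Eᴴ (y - B₂), - S]]`, Hermitian of size `(k + c) + c`, polynomial in
`x`. For `x ≠ x_l` (all `l`) the Schur complement of the first block (invertible as `y ≠ y_l`) is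
`- S + Eᴴ (y - B₂) (x - B₁)⁻¹ E = Hm`, so `ng N(x) = #{l : (x - x_l)(y - y_l) > 0} + ng Hm(x, y)` and
`det N(x) = ± ∏ (x - x_l)(y - y_l) det Hm = ± ∏ (y - y_l) ∏ (x - α_j) F(x, y)` (`DetF`); both sides are continuous
in `x`, so this holds at `x₀`, and `N(x₀)` is invertible. By `Semi` `ng N(x) = ng N(x₀)` for `x`
near `x₀`. So `ng Hm` changes by minus the change of `#{l : (x - x_l)(y - y_l) > 0}`: for `x_l = x₀`,
`y_l < y` the condition holds for `x > x₀` only, for `y < y_l` for `x < x₀` only. -/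
def St_JB : Prop := ∀ (k c : ℕ) (a : Fin k → ℂ) (b : Fin (k + c) → ℂ)
  (W : Matrix (Fin (k + c)) (Fin k) ℂ) (E : Matrix (Fin (k + c)) (Fin c) ℂ)
  (S G : Matrix (Fin c) (Fin c) ℂ), PD a b W E S G → ∀ x₀ y : ℝ, (∀ j, (a j).re ≠ x₀) →
  (∀ l, (b l).im ≠ y) → (PP S G x₀ y).det ≠ 0 → ∀ᶠ h : ℝ in 𝓝[>] 0,
    (ng (Hm b E S (x₀ + h) y) : ℤ) - ng (Hm b E S (x₀ - h) y) =
      (Finset.univ.filter (fun l => (b l).re = x₀ ∧ y < (b l).im)).card -
      (Finset.univ.filter (fun l => (b l).re = x₀ ∧ (b l).im < y)).card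

/-- [KId] (uses MId) Second representation. Let `X = Wᴴ B₁ E`, `Z₁ = Eᴴ B₁ E`,
`M₀ = Xᴴ X S + (x - Z₁) (y - x S + G)`, `K = M₀ - Xᴴ (x - A₁)⁻¹ (y - A₂) X`. Proof: as in `FZer`
`X G = A₁ X S - A₂ X`, so `X (x S - y - G) = (x - A₁) X S - (y - A₂) X`. `T = x - Z₁ - Xᴴ (x - A₁)⁻¹ X` is the
inverse of `Th` (Schur complement, `x - B₁` in the basis `[W E]`). So
`T (y - x S + G) = (x - Z₁)(y - x S + G) + Xᴴ (x - A₁)⁻¹ X (x S - y - G) = (x - Z₁)(y - x S + G) + Xᴴ X S
- Xᴴ (x - A₁)⁻¹ (y - A₂) X = K`, and `Hm = PP Th = Th T PP Th = Thᴴ K Th`. `M₀` is Hermitian for all real `x`: `K`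
is Hermitian for large `x` (`K = T Hm T`), so `M₀` is, and `M₀ - M₀ᴴ` is polynomial in `x`. -/
def St_KId : Prop := ∀ (k c : ℕ) (a : Fin k → ℂ) (b : Fin (k + c) → ℂ)
  (W : Matrix (Fin (k + c)) (Fin k) ℂ) (E : Matrix (Fin (k + c)) (Fin c) ℂ)
  (S G : Matrix (Fin c) (Fin c) ℂ), PD a b W E S G → ∀ x y : ℝ,
  ((Wᴴ * dre b * E)ᴴ * (Wᴴ * dre b * E) * S +
      ((x : ℂ) • 1 - Eᴴ * dre b * E) * PP S G x y).IsHermitian ∧
  ((∀ l, (b l).re ≠ x) → (∀ j, (a j).re ≠ x) →
    (Th b E x).det ≠ 0 ∧ Hm b E S x y = (Th b E x)ᴴ *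
      ((Wᴴ * dre b * E)ᴴ * (Wᴴ * dre b * E) * S + ((x : ℂ) • 1 - Eᴴ * dre b * E) * PP S G x y -
        (Wᴴ * dre b * E)ᴴ * diagonal (fun j => (((y - (a j).im) / (x - (a j).re) : ℝ) : ℂ)) *
          (Wᴴ * dre b * E)) * Th b E x)

/-- [JA] (uses Schur, Semi, Ng, DetF, KId) Crossing a vertical line through some `a j`. Proof: let
`N(x) = [[(x - A₁)(y - A₂), (y - A₂) X], [Xᴴ (y - A₂), M₀]]` of size `k + c` (`X`, `M₀`, `K` from `KId`), polynomial in
`x`. For `x` different from all `x_l`, `α_j` the Schur complement of the first block is `K`, so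
`ng N(x) = #{j : (x - α_j)(y - β_j) < 0} + ng K`, `ng K = ng Hm` (`KId`, congruence), and
`det N(x) = ∏ (x - α_j)(y - β_j) det K`, `det K = det Hm / det Th²`, `det Th = ∏ (x - α_j) / ∏ (x - x_l)`,
`det Hm = F ∏ (x - α_j) / ∏ (x - x_l)`, so `det N(x) = ∏ (y - β_j) ∏ (x - x_l) F(x, y)`; by continuity this
holds at `x₀`, so `N(x₀)` is invertible and `ng N(x) = ng N(x₀)` for `x` near `x₀` (`Semi`). For
`α_j = x₀`, `β_j < y` the condition `(x - α_j)(y - β_j) < 0` holds for `x < x₀` only, for `y < β_j` for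
`x > x₀` only. -/
def St_JA : Prop := ∀ (k c : ℕ) (a : Fin k → ℂ) (b : Fin (k + c) → ℂ)
  (W : Matrix (Fin (k + c)) (Fin k) ℂ) (E : Matrix (Fin (k + c)) (Fin c) ℂ)
  (S G : Matrix (Fin c) (Fin c) ℂ), PD a b W E S G → ∀ x₀ y : ℝ, (∀ l, (b l).re ≠ x₀) →
  (∀ j, (a j).im ≠ y) → (PP S G x₀ y).det ≠ 0 → ∀ᶠ h : ℝ in 𝓝[>] 0,
    (ng (Hm b E S (x₀ + h) y) : ℤ) - ng (Hm b E S (x₀ - h) y) =
      (Finset.univ.filter (fun j => (a j).re = x₀ ∧ (a j).im < y)).card -
      (Finset.univ.filter (fun j => (a j).re = x₀ ∧ y < (a j).im)).card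

/-- [Jump] (uses nothing) Counting. Proof: induction on the number of different roots of `q` between `y₁` and
`y₂`. If there is none, `u` is locally constant on the connected set `[y₁, y₂]`. Otherwise split
the interval at a nonroot between two roots, or, for one root `r`, use the hypothesis at `r` and local
constancy on both sides. -/
def St_Jump : Prop := ∀ (q : ℝ[X]) (u : ℝ → ℤ), q ≠ 0 →
  (∀ y, q.eval y ≠ 0 → ∀ᶠ z in 𝓝 y, u z = u y) →
  (∀ r, q.eval r = 0 → ∃ δ : ℝ, 0 < δ ∧ ∀ y₁ y₂ : ℝ, r - δ < y₁ → y₁ < r → r < y₂ → y₂ < r + δ →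
    |u y₁ - u y₂| ≤ q.rootMultiplicity r ∧ (u y₁ - u y₂ - q.rootMultiplicity r) % 2 = 0) →
  ∀ y₁ y₂ : ℝ, y₁ < y₂ → q.eval y₁ ≠ 0 → q.eval y₂ ≠ 0 →
    |u y₁ - u y₂| ≤ ((q.roots.filter (fun y => y₁ < y ∧ y < y₂)).card : ℤ) ∧
    (u y₁ - u y₂ - ((q.roots.filter (fun y => y₁ < y ∧ y < y₂)).card : ℤ)) % 2 = 0

/-- [JY] (uses Ng, Semi, Par, MId, Jump) Jumps along a vertical line. Proof: fix `x`. `Th x` is invertible (third
part of `MId`), `Hm x y = y Th - L` is affine in `y`, and `det Hm x y = F(x, y) det Th`. Apply `Jump` to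
`q = sl F x`, `u y = ng (Hm x y)`: off the roots `Hm` is invertible, `u` is locally constant
(`Semi` with full rank). At a root `r` of multiplicity `μ`: by `Semi` both values `u y₁`, `u y₂` (near `r`) are
between `ng (Hm x r)` and `ng (Hm x r) + ν`, `ν = c - rank (Hm x r)`, and
`ν = c - rank (PP x r) ≤ μ` since `PP x r = r - N`, `N = x S - G`, `sl F x` is the characteristic
polynomial of `N` (the geometric multiplicity is at most the algebraic one: e.g. over `ℂ`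
`Module.End.finrank_eigenspace_le` / or directly: choose a basis of the kernel of `r - N` and
complete it). Parity: by `Par` `(- 1)^u` is the sign of `det Hm`, so of `F (x, y) det Th`, and
`F (x, ·)` changes the sign at `r` by `(- 1)^μ`. -/
def St_JY : Prop := ∀ (k c : ℕ) (a : Fin k → ℂ) (b : Fin (k + c) → ℂ)
  (W : Matrix (Fin (k + c)) (Fin k) ℂ) (E : Matrix (Fin (k + c)) (Fin c) ℂ)
  (S G : Matrix (Fin c) (Fin c) ℂ) (F : BP), PD a b W E S G → F.Monic → F.natDegree = c →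
  (∀ x y : ℝ, (ev F x y : ℂ) = (PP S G x y).det) → ∀ x : ℝ, (∀ l, (b l).re ≠ x) →
  (∀ j, (a j).re ≠ x) → ∀ y₁ y₂ : ℝ, y₁ < y₂ → ev F x y₁ ≠ 0 → ev F x y₂ ≠ 0 →
    |(ng (Hm b E S x y₁) : ℤ) - ng (Hm b E S x y₂)| ≤ cnt F x y₁ y₂ ∧
    ((ng (Hm b E S x y₁) : ℤ) - ng (Hm b E S x y₂) - cnt F x y₁ y₂) % 2 = 0

/-- [Large] (uses Ng, MId) Proof: let `x` be larger than all `x_l`. `Th x` is positive definite
(`∑ |ε_l v|² / (x - x_l) > 0` as `∑ ε_l* ε_l = 1`). With an invertible `R`, `Rᴴ Th R = 1` (e.g.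
`R = Th^(-1/2)`), `Rᴴ Hm(x, y) R = y - L'` with `L'` Hermitian, and
`PP = y - N = Hm Th⁻¹ = Hm R Rᴴ`, so `det PP (x, y) = det (y - L')` for all `y`: `sl F x` is the
characteristic polynomial of `L'`, it splits, and `ng Hm(x, y) = ng (y - L')` is the
number of the eigenvalues of `L'` larger than `y`, with multiplicity. For `x` smaller than all `x_l` `Th` is
negative definite; `Rᴴ Th R = - 1`, `Rᴴ Hm R = - (y - L')`, `PP = Hm Th⁻¹ = (- Hm R Rᴴ)`, and
`ng` is the number of the eigenvalues smaller than `y`. -/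
def St_Large : Prop := ∀ (k c : ℕ) (a : Fin k → ℂ) (b : Fin (k + c) → ℂ)
  (W : Matrix (Fin (k + c)) (Fin k) ℂ) (E : Matrix (Fin (k + c)) (Fin c) ℂ)
  (S G : Matrix (Fin c) (Fin c) ℂ) (F : BP), PD a b W E S G → F.Monic → F.natDegree = c →
  (∀ x y : ℝ, (ev F x y : ℂ) = (PP S G x y).det) → ∀ x : ℝ,
  ((∀ l, (b l).re < x) → (sl F x).Splits ∧ ∀ y₁ y₂ : ℝ, y₁ < y₂ → ev F x y₁ ≠ 0 → ev F x y₂ ≠ 0 →
    (ng (Hm b E S x y₁) : ℤ) - ng (Hm b E S x y₂) = cnt F x y₁ y₂) ∧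
  ((∀ l, x < (b l).re) → (sl F x).Splits ∧ ∀ y₁ y₂ : ℝ, y₁ < y₂ → ev F x y₁ ≠ 0 → ev F x y₂ ≠ 0 →
    (ng (Hm b E S x y₁) : ℤ) - ng (Hm b E S x y₂) = - (cnt F x y₁ y₂ : ℤ))

/-- [NM] (uses Ng, Semi, PD0, MId, DetF, FZer, JB, JA, JY, Large) Signature data. Proof: take `ω` outside the
finite sets for `PD0` and for which two different ones of the finitely many points `ω a_j`, `ω b_l` have the
same real part. `nn x y = ng (Hm x y)`, `F` from `DetF`. As `a j ≠ b l` for all `j, l`, the weight of `ω b_l` is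
positive and that of `ω a_j` is negative, so the support is the set of all points. `loc`: at a point where
`x` is not a real part of a point, `Hm` is continuous and `det Hm ≠ 0` (`DetF`), use `Semi`. `cross`: `Y₀` is the
set of the imaginary parts. If `z = ω b_l`, then no `ω a_j` has the real part `z.re` (it would be equal to
`z`), and all `ω b_l'` with real part `z.re` are equal to `z`, their number is `w z`; use
`JB`. Similarly for `z = ω a_j`, use `JA` (`w z` is minus the number). -/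
def St_NM : Prop := ∀ (k c : ℕ) (a : Fin k → ℂ) (b : Fin (k + c) → ℂ),
  Pool.Agent.Helper45.NC.Dil a b → (∀ j l, a j ≠ b l) → ∃ Φ : Finset ℂ, ∀ ω : ℂ, ‖ω‖ = 1 → ω ∉ Φ →
    ∃ (F : BP) (nn : ℝ → ℝ → ℤ), SigData c F (wt (fun j => ω * a j) (fun l => ω * b l)) nn

end Pool.Agent.NCC
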