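import Pool.Agent.NCC.StS
import Pool.Agent.NCC.StM
import Pool.Agent.NCC.StB
import Pool.Agent.NCC.StC
import Pool.Agent.NCC.Canc

/-!
# NCC: assembly (from the statements of the modules)
-/

set_option autoImplicit false

namespace Pool.Agent.NCC

open MvPolynomial Pool.Agent.Helper45.NC

/-- the set of the pairs listed by regular pairs -/
def LS (K c : ℕ) : Set ((Fin K → ℂ) × (Fin (K + c) → ℂ)) :=
  {p | ∃ f g : RP, Regular f g ∧ f.totalDegree = c ∧ Lists f g p.1 p.2}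

theorem Fin_cancel {k n k' n' : ℕ} (a : Fin k → ℂ) (b : Fin n → ℂ) (a' : Fin k' → ℂ)
    (b' : Fin n' → ℂ) (h' : ms a + ms b' = ms a' + ms b) : Dil a b ↔ Dil a' b' := by
  rw [← Canc_dil_append a b a',
    ← Canc_dil_append a' b' a]
  have e1 : ms (Fin.append a a') = ms (Fin.append a' a) := by
    rw [Canc_ms_append,
      Canc_ms_append, ms_sum, ms_sum, add_comm]
  have e2 : ms (Fin.append b a') = ms (Fin.append b' a) := by
    rw [Canc_ms_append,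
      Canc_ms_append, ms_sum, ms_sum, add_comm (ms b), ← h',
      add_comm]
  exact ⟨fun hd => hd.congr e1.symm e2, fun hd => hd.congr e1 e2.symm⟩

open Classical in
theorem Fin_wt {k n : ℕ} (a : Fin k → ℂ) (b : Fin n → ℂ) (z : ℂ) :
    wt a b z = ((ms b).count z : ℤ) - (ms a).count z := by
  have key : ∀ (m : ℕ) (u : Fin m → ℂ),
      (∑ l, Finsupp.single (u l) (1 : ℤ)) z = ((ms u).count z : ℤ) := by
    intro m u
    rw [Finsupp.finsetSum_apply]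
    unfold ms
    rw [Multiset.count_map, ← Finset.filter_val, Finset.card_val, Finset.card_filter]
    push_cast
    refine Finset.sum_congr rfl fun l _ => ?_
    rw [Finsupp.single_apply]
    by_cases h : u l = z
    · rw [if_pos h, if_pos h.symm]
    · rw [if_neg h, if_neg (Ne.symm h)]
  unfold wt
  rw [Finsupp.sub_apply, key, key]

theorem Fin_wt_eq {k n k' n' : ℕ} (a : Fin k → ℂ) (b : Fin n → ℂ) (a' : Fin k' → ℂ)
    (b' : Fin n' → ℂ) (h : ms a + ms b' = ms a' + ms b) : wt a b = wt a' b' := by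
  classical
  ext z
  rw [Fin_wt, Fin_wt]
  have := congrArg (Multiset.count z) h
  rw [Multiset.count_add, Multiset.count_add] at this
  omega

theorem Fin_rot {k : ℕ} (ω : ℂ) (a : Fin k → ℂ) :
    ms (fun j => ω * a j) = (ms a).map (fun z => ω * z) := by
  rw [ms_map]
  rfl

theorem Fin_rot_eq {k n k' n' : ℕ} (ω : ℂ) (a : Fin k → ℂ) (b : Fin n → ℂ) (a' : Fin k' → ℂ)
    (b' : Fin n' → ℂ) (h : ms a + ms b' = ms a' + ms b) :
    ms (fun j => ω * a j) + ms (fun j => ω * b' j) = ms (fun j => ω * a' j) + ms (fun j => ω * b j) := by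
  rw [Fin_rot, Fin_rot, Fin_rot, Fin_rot, ← Multiset.map_add, ← Multiset.map_add, h]

theorem Fin_rot_dil {k n : ℕ} (ω : ℂ) (hω : ω ≠ 0) (a : Fin k → ℂ) (b : Fin n → ℂ)
    (h : Dil (fun j => ω * a j) (fun l => ω * b l)) : Dil a b := by
  obtain ⟨W, h1, h2⟩ := h
  refine ⟨W, h1, ?_⟩
  have e : ∀ (m : ℕ) (u : Fin m → ℂ), Matrix.diagonal (fun j => ω * u j) = ω • Matrix.diagonal u := by
    intro m u
    rw [← Matrix.diagonal_smul]
    rfl
  rw [e, e, Matrix.mul_smul, Matrix.smul_mul] at h2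
  exact smul_right_injective _ hω h2

/-- a disjoint pair with the same difference -/
theorem Fin_disj {k c : ℕ} (a : Fin k → ℂ) (b : Fin (k + c) → ℂ) :
    ∃ (k₀ : ℕ) (a₀ : Fin k₀ → ℂ) (b₀ : Fin (k₀ + c) → ℂ), ms a + ms b₀ = ms a₀ + ms b ∧
      ∀ j l, a₀ j ≠ b₀ l := by
  classical
  have hle1 : ms a ∩ ms b ≤ ms a := Multiset.inter_le_left
  have hle2 : ms a ∩ ms b ≤ ms b := Multiset.inter_le_right
  have ha : (ms a).card = k := by simp [ms]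
  have hb : (ms b).card = k + c := by simp [ms]
  have hc1 : (ms a ∩ ms b).card ≤ (ms a).card := Multiset.card_le_card hle1
  obtain ⟨a₀, ha₀⟩ := exists_ms (ms a - ms a ∩ ms b)
  obtain ⟨b₀, hb₀⟩ := exists_ms (ms b - ms a ∩ ms b)
  have hcard : (ms a - ms a ∩ ms b).card + c = (ms b - ms a ∩ ms b).card := by
    rw [Multiset.card_sub hle1, Multiset.card_sub hle2, ha, hb]
    omega
  have hms : ms (b₀ ∘ Fin.cast hcard) = ms b₀ := by
    have := ms_equiv (finCongr hcard) b₀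
    exact this
  refine ⟨_, a₀, b₀ ∘ Fin.cast hcard, ?_, ?_⟩
  · rw [hms, ha₀, hb₀]
    ext z
    rw [Multiset.count_add, Multiset.count_add, Multiset.count_sub, Multiset.count_sub,
      Multiset.count_inter]
    omega
  · intro j l hjl
    have h1 : a₀ j ∈ ms a - ms a ∩ ms b := by
      rw [← ha₀]
      exact Multiset.mem_map_of_mem a₀ (Finset.mem_univ j)
    have h2 : a₀ j ∈ ms b - ms a ∩ ms b := by
      have h3 : (b₀ ∘ Fin.cast hcard) l ∈ ms (b₀ ∘ Fin.cast hcard) :=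
        Multiset.mem_map_of_mem (b₀ ∘ Fin.cast hcard) (Finset.mem_univ l)
      rw [hms, hb₀] at h3
      rw [hjl]
      exact h3
    rw [← Multiset.count_pos, Multiset.count_sub, Multiset.count_inter] at h1 h2
    omega

theorem Fin_unit (Φ : Finset ℂ) : ∃ ω : ℂ, ‖ω‖ = 1 ∧ ω ∉ Φ := by
  have hinf : (Metric.sphere (0 : ℂ) 1).Infinite := by
    have h1 : (Metric.sphere (0 : ℂ) 1).Nontrivial := by
      refine ⟨1, by simp, -1, by simp, ?_⟩
      intro h2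
      have := congrArg Complex.re h2
      norm_num at this
    have h2 : IsPreconnected (Metric.sphere (0 : ℂ) 1) := isPreconnected_sphere (by simp) 0 1
    exact h2.infinite_of_nontrivial h1
  obtain ⟨w, hw1, hw2⟩ := (hinf.sdiff Φ.finite_toSet).nonempty
  exact ⟨w, by simpa using hw1, by simpa using hw2⟩

theorem Fin_zero {F : BP} {w : ℂ →₀ ℤ} {nn : ℝ → ℝ → ℤ} (h : SigData 0 F w nn) : w = 0 := by
  have hF : F = 1 := Polynomial.eq_one_of_monic_natDegree_zero h.monic h.deg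
  rw [← Finsupp.support_eq_empty]
  refine Finset.eq_empty_of_forall_notMem fun z hz => ?_
  have h1 := h.zero z hz
  rw [hF] at h1
  simp [ev, sl] at h1

theorem Fin_wt_zero {k n : ℕ} (a : Fin k → ℂ) (b : Fin n → ℂ) (h : wt a b = 0) : ms a = ms b := by
  classical
  ext z
  have h1 := Fin_wt a b z
  rw [h, Finsupp.coe_zero, Pi.zero_apply] at h1
  omega

theorem Fin_rot_ms {k n : ℕ} (ω : ℂ) (hω : ω ≠ 0) (a : Fin k → ℂ) (b : Fin n → ℂ)
    (h : ms (fun j => ω * a j) = ms (fun j => ω * b j)) : ms a = ms b := by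
  rw [Fin_rot, Fin_rot] at h
  exact Multiset.map_injective (mul_right_injective₀ hω) h

theorem Fin_dil_ms {k n : ℕ} (a : Fin k → ℂ) (b : Fin n → ℂ) (h : ms a = ms b) : Dil a b :=
  (Dil.refl b).congr h rfl

theorem Fin_jac0 {f g : RP} (h : f.totalDegree = 0) : jac f g = 0 := by
  obtain ⟨r, hr⟩ : ∃ r, f = C r := ⟨_, totalDegree_eq_zero_iff_eq_C.1 h⟩
  unfold jac
  rw [hr, pderiv_C, pderiv_C, zero_mul, zero_mul, sub_zero]

theorem Fin_K0 {f g : RP} {K n : ℕ} {a : Fin K → ℂ} {b : Fin n → ℂ} (h : f.totalDegree = 0)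
    (hL : Lists f g a b) : K = 0 := by
  by_contra hK
  have h2 := ((hL.2.2.1 (a ⟨0, Nat.pos_of_ne_zero hK⟩)).1 ⟨_, rfl⟩).2
  rw [Fin_jac0 h, map_zero] at h2
  exact lt_irrefl _ h2

theorem Fin_LSdil (hSC : St_SC) {K c : ℕ} {a : Fin K → ℂ} {b : Fin (K + c) → ℂ}
    (h : (a, b) ∈ LS K c) : Dil a b := by
  obtain ⟨f, g, hR, hd, hL⟩ := h
  by_cases hc : 1 ≤ c
  · subst hd
    exact hSC f g K a b hc hR hL
  · have hc0 : c = 0 := by omega
    have hK : K = 0 := Fin_K0 (hd.trans hc0) hL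
    have e1 : (ms a).card = 0 := by rw [ms_card, Fintype.card_fin, hK]
    have e2 : (ms b).card = 0 := by rw [ms_card, Fintype.card_fin, hK, hc0]
    exact Fin_dil_ms a b ((Multiset.card_eq_zero.1 e1).trans (Multiset.card_eq_zero.1 e2).symm)

theorem Fin_clo1 (hClo : St_Clo) (K c : ℕ) :
    IsClosed {p : (Fin K → ℂ) × (Fin (K + c) → ℂ) | Dil p.1 p.2} := hClo K (K + c)

theorem Fin_clo2 (hSC : St_SC) (K c : ℕ) :
    LS K c ⊆ {p : (Fin K → ℂ) × (Fin (K + c) → ℂ) | Dil p.1 p.2} := by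
  intro p hp
  exact Fin_LSdil hSC hp

theorem Fin_clo3 (hSC : St_SC) (hClo : St_Clo) (K c : ℕ) :
    closure (LS K c) ⊆ {p : (Fin K → ℂ) × (Fin (K + c) → ℂ) | Dil p.1 p.2} :=
  closure_minimal (Fin_clo2 hSC K c) (Fin_clo1 hClo K c)

theorem Fin_clo4 (K c : ℕ) (a : Fin K → ℂ) (b : Fin (K + c) → ℂ)
    (h : (a, b) ∈ {p : (Fin K → ℂ) × (Fin (K + c) → ℂ) | Dil p.1 p.2}) : Dil a b := by
  simpa only [Set.mem_ofPred_eq] using h

theorem Fin_clo (hSC : St_SC) (hClo : St_Clo) {K c : ℕ} {a : Fin K → ℂ} {b : Fin (K + c) → ℂ}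
    (h : (a, b) ∈ closure (LS K c)) : Dil a b :=
  Fin_clo4 K c a b (Fin_clo3 hSC hClo K c h)

theorem Fin_suff (hSC : St_SC) (hClo : St_Clo) {k c K : ℕ} (a : Fin k → ℂ) (b : Fin (k + c) → ℂ)
    (a₁ : Fin K → ℂ) (b₁ : Fin (K + c) → ℂ) (h : ms a + ms b₁ = ms a₁ + ms b)
    (hc : (a₁, b₁) ∈ closure (LS K c)) : Dil a b :=
  (Fin_cancel a b a₁ b₁ h).2 (Fin_clo hSC hClo hc)

/-- signature data for some rotation -/
theorem Fin_sig (hNM : St_NM) {k c : ℕ} (a : Fin k → ℂ) (b : Fin (k + c) → ℂ) (h : Dil a b) :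
    ∃ Φ : Finset ℂ, ∀ ω : ℂ, ‖ω‖ = 1 → ω ∉ Φ →
      ∃ (F : BP) (nn : ℝ → ℝ → ℤ), SigData c F (wt (fun j => ω * a j) (fun l => ω * b l)) nn := by
  obtain ⟨k₀, a₀, b₀, h0, hne⟩ := Fin_disj a b
  have hD : Dil a₀ b₀ := (Fin_cancel a b a₀ b₀ h0).1 h
  obtain ⟨Φ, hΦ⟩ := hNM k₀ c a₀ b₀ hD hne
  refine ⟨Φ, fun ω hω hω' => ?_⟩
  obtain ⟨F, nn, hS⟩ := hΦ ω hω hω'
  rw [← Fin_wt_eq _ _ _ _ (Fin_rot_eq ω a b a₀ b₀ h0)] at hS
  exact ⟨F, nn, hS⟩

theorem Fin_LS0 : ((Fin.elim0, Fin.elim0) : (Fin 0 → ℂ) × (Fin (0 + 0) → ℂ)) ∈ LS 0 0 := by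
  have hz : ∀ z, ¬ Zer (1 : RP) 1 z := by
    intro z hz
    have := hz.1
    simp at this
  refine ⟨1, 1, ⟨fun v hv _ => ?_, fun z h => (hz z h).elim⟩, by simp, ?_, ?_, fun z => ?_, fun z => ?_⟩
  · exfalso
    have h1 : lead (1 : RP) = 1 := by
      unfold lead
      rw [totalDegree_one, homogeneousComponent_zero]
      simp
    rw [h1, map_one] at hv
    exact one_ne_zero hv
  · intro i
    exact i.elim0
  · intro i
    exact i.elim0
  · constructor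
    · rintro ⟨i, -⟩
      exact i.elim0
    · intro h
      exact (hz z h.1).elim
  · constructor
    · rintro ⟨i, -⟩
      exact i.elim0
    · intro h
      exact (hz z h.1).elim

/-- necessity of the closure condition, in rotated coordinates -/
theorem Fin_nec' (hNA : St_NA) (hNB : St_NB) {k c : ℕ} (a : Fin k → ℂ) (b : Fin (k + c) → ℂ)
    (F : BP) (nn : ℝ → ℝ → ℤ) (h : SigData c F (wt a b) nn) :
    ∃ (K : ℕ) (a₁ : Fin K → ℂ) (b₁ : Fin (K + c) → ℂ), ms a + ms b₁ = ms a₁ + ms b ∧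
      (a₁, b₁) ∈ closure (LS K c) := by
  by_cases hc : 1 ≤ c
  · exact hNB k c a b (hNA c F _ nn h hc)
  · have hc0 : c = 0 := by omega
    subst hc0
    have hw := Fin_zero h
    refine ⟨0, Fin.elim0, Fin.elim0, ?_, subset_closure Fin_LS0⟩
    rw [Fin_wt_zero a b hw]
    have e1 : ms (Fin.elim0 : Fin 0 → ℂ) = 0 := by simp [ms]
    rw [e1, add_zero, zero_add]

theorem Fin_LSrot (hRt : St_Rt) {K c : ℕ} (ω : ℂ) (hω : ‖ω‖ = 1) (a : Fin K → ℂ)
    (b : Fin (K + c) → ℂ) (h : (a, b) ∈ closure (LS K c)) :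
    ((fun j => ω⁻¹ * a j), (fun l => ω⁻¹ * b l)) ∈ closure (LS K c) := by
  have hω0 : ω ≠ 0 := by
    intro h0
    rw [h0, norm_zero] at hω
    exact zero_ne_one hω
  have hcont : Continuous fun p : (Fin K → ℂ) × (Fin (K + c) → ℂ) =>
      (((fun j => ω⁻¹ * p.1 j), (fun l => ω⁻¹ * p.2 l)) : (Fin K → ℂ) × (Fin (K + c) → ℂ)) := by
    fun_prop
  have hmaps : Set.MapsTo (fun p : (Fin K → ℂ) × (Fin (K + c) → ℂ) =>
      (((fun j => ω⁻¹ * p.1 j), (fun l => ω⁻¹ * p.2 l)) : (Fin K → ℂ) × (Fin (K + c) → ℂ)))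
      (LS K c) (LS K c) := ?_
  · have hm := map_mem_closure hcont h hmaps
    exact hm
  rintro p ⟨f, g, hR, hd, hL⟩
  obtain ⟨f', g', hR', hd', hL'⟩ := hRt ω f g hω hR
  refine ⟨f', g', hR', hd'.trans hd, hL' _ _ _ _ ?_⟩
  have e1 : (fun j => ω * (ω⁻¹ * p.1 j)) = p.1 := by
    funext j
    rw [mul_inv_cancel_left₀ hω0]
  have e2 : (fun j => ω * (ω⁻¹ * p.2 j)) = p.2 := by
    funext j
    rw [mul_inv_cancel_left₀ hω0]
  show Lists f g (fun j => ω * (ω⁻¹ * p.1 j)) (fun j => ω * (ω⁻¹ * p.2 j))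
  rw [e1, e2]
  exact hL

theorem Fin_nec (hNM : St_NM) (hNA : St_NA) (hNB : St_NB) (hRt : St_Rt) {k c : ℕ} (a : Fin k → ℂ)
    (b : Fin (k + c) → ℂ) (h : Dil a b) :
    ∃ (K : ℕ) (a₁ : Fin K → ℂ) (b₁ : Fin (K + c) → ℂ), ms a + ms b₁ = ms a₁ + ms b ∧
      (a₁, b₁) ∈ closure (LS K c) := by
  obtain ⟨Φ, hΦ⟩ := Fin_sig hNM a b h
  obtain ⟨ω, hω, hω'⟩ := Fin_unit Φ
  obtain ⟨F, nn, hS⟩ := hΦ ω hω hω'
  have hω0 : ω ≠ 0 := by
    intro h0
    rw [h0, norm_zero] at hω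
    exact zero_ne_one hω
  obtain ⟨K, a₁, b₁, h1, h2⟩ := Fin_nec' hNA hNB _ _ F nn hS
  refine ⟨K, fun j => ω⁻¹ * a₁ j, fun l => ω⁻¹ * b₁ l, ?_, Fin_LSrot hRt ω hω a₁ b₁ h2⟩
  have h3 := Fin_rot_eq ω⁻¹ _ _ _ _ h1
  have e : ∀ (m : ℕ) (u : Fin m → ℂ), (fun j => ω⁻¹ * (ω * u j)) = u := by
    intro m u
    funext j
    rw [inv_mul_cancel_left₀ hω0]
  rw [e, e] at h3
  exact h3

theorem Fin_charge (hNM : St_NM) (hSD : St_SD) {k c : ℕ} (a : Fin k → ℂ)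
    (b : Fin (k + c) → ℂ) (h : Dil a b) :
    ∃ (ω : ℂ) (F : BP) (s : ℝ → ℝ → ℤ), ‖ω‖ = 1 ∧
      Charge c F (wt (fun j => ω * a j) (fun l => ω * b l)) s := by
  obtain ⟨Φ, hΦ⟩ := Fin_sig hNM a b h
  obtain ⟨ω, hω, hω'⟩ := Fin_unit Φ
  obtain ⟨F, nn, hS⟩ := hΦ ω hω hω'
  obtain ⟨s, hs⟩ := hSD c F _ nn hS
  exact ⟨ω, F, s, hω, hs⟩

theorem Fin_of_charge (hDS : St_DS) (hNA : St_NA) (hNB : St_NB) (hSC : St_SC) (hClo : St_Clo)
    {k c : ℕ} (a : Fin k → ℂ) (b : Fin (k + c) → ℂ) (ω : ℂ) (F : BP) (s : ℝ → ℝ → ℤ) (hω : ‖ω‖ = 1)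
    (h : Charge c F (wt (fun j => ω * a j) (fun l => ω * b l)) s) : Dil a b := by
  have hω0 : ω ≠ 0 := by
    intro h0
    rw [h0, norm_zero] at hω
    exact zero_ne_one hω
  obtain ⟨nn, hS⟩ := hDS c F _ s h
  obtain ⟨K, a₁, b₁, h1, h2⟩ := Fin_nec' hNA hNB _ _ F nn hS
  exact Fin_rot_dil ω hω0 a b (Fin_suff hSC hClo _ _ a₁ b₁ h1 h2)

end Pool.Agent.NCC
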