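import Pool.Agent.NCC.StS

/-!
# NCC FinZ: finitely many common zeros and a generic real linear form
-/

set_option autoImplicit false

namespace Pool.Agent.NCC

open MvPolynomial Module
open scoped ComplexConjugate

/-- evaluation at a common zero, as a homomorphism of the quotient -/
private noncomputable def FinZ_chi (F G : CP)
    (q : {q : Fin 2 → ℂ // eval q F = 0 ∧ eval q G = 0}) : QQ F G →ₐ[ℂ] ℂ :=
  Ideal.Quotient.liftₐ (II F G) (MvPolynomial.aeval q.1) (by
    intro a ha
    have h : II F G ≤ RingHom.ker (MvPolynomial.aeval q.1 : CP →ₐ[ℂ] ℂ) := by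
      refine Ideal.span_le.2 ?_
      intro p hp
      rcases hp with rfl | hp
      · simpa [RingHom.mem_ker, MvPolynomial.aeval_eq_eval] using q.2.1
      · rw [Set.mem_singleton_iff] at hp
        subst hp
        simpa [RingHom.mem_ker, MvPolynomial.aeval_eq_eval] using q.2.2
    exact h ha)

private theorem FinZ_chi_X (F G : CP)
    (q : {q : Fin 2 → ℂ // eval q F = 0 ∧ eval q G = 0}) (i : Fin 2) :
    FinZ_chi F G q (mkq F G (X i)) = q.1 i := by
  simp [FinZ_chi, mkq]

private theorem FinZ_inj (F G : CP) : Function.Injective (FinZ_chi F G) := by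
  intro q q' h
  apply Subtype.ext
  funext i
  rw [← FinZ_chi_X F G q i, ← FinZ_chi_X F G q' i, h]

theorem thm_FinZ : St_QFin → St_FinZ := by
  intro hQ F G c d hP
  have : Module.Finite ℂ (QQ F G) := (hQ F G c d hP).1
  have : Finite (QQ F G →ₐ[ℂ] ℂ) := inferInstance
  have hfin : Finite {q : Fin 2 → ℂ // eval q F = 0 ∧ eval q G = 0} :=
    Finite.of_injective _ (FinZ_inj F G)
  have hset : {q : Fin 2 → ℂ | eval q F = 0 ∧ eval q G = 0}.Finite := hfin
  refine ⟨hset, ?_⟩
  -- bad values of `t`
  have hbad : ((fun q : Fin 2 → ℂ => -(q 0).im / (q 1).im) ''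
      {q : Fin 2 → ℂ | eval q F = 0 ∧ eval q G = 0}).Finite := hset.image _
  obtain ⟨t, ht⟩ := hbad.exists_notMem
  refine ⟨t, ?_⟩
  intro q hF hG him
  have him' : (q 0).im + t * (q 1).im = 0 := by
    simpa using him
  by_cases h1 : (q 1).im = 0
  · refine ⟨?_, h1⟩
    rw [h1] at him'
    linarith
  · exfalso
    apply ht
    refine ⟨q, ⟨hF, hG⟩, ?_⟩
    change -(q 0).im / (q 1).im = t
    rw [div_eq_iff h1]
    linarith

end Pool.Agent.NCC
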