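import Pool.Agent.NCC.StB

/-!
# NCC, part B: polynomial approximation of the target function
-/

set_option autoImplicit false

namespace Pool.Agent.NCC

open Polynomial Filter Topology Set

private theorem Gc_HI {M : ℕ} (β : Fin M → ℝ) (δ R : ℝ) (u : Fin (M + 1)) :
    (u = Fin.last M ∧ HI β δ R u = 3 * R) ∨ ∃ i : Fin M, u = i.castSucc ∧ HI β δ R u = β i - δ / 2 := by
  induction u using Fin.lastCases with
  | last => left; exact ⟨rfl, by unfold HI; rw [Fin.lastCases_last]⟩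
  | cast i => right; exact ⟨i, rfl, by unfold HI; rw [Fin.lastCases_castSucc]⟩

private theorem Gc_HI' {M : ℕ} (β : Fin M → ℝ) (δ R : ℝ) (hδ : 0 < δ) (u : Fin (M + 1)) :
    HI' β δ R u ≤ HI β δ R u := by
  induction u using Fin.lastCases with
  | last => unfold HI' HI; rw [Fin.lastCases_last, Fin.lastCases_last]
  | cast i => unfold HI' HI; rw [Fin.lastCases_castSucc, Fin.lastCases_castSucc]; linarith

private theorem Gc_LO {M : ℕ} (β : Fin M → ℝ) (δ R : ℝ) (u : Fin (M + 1)) :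
    (u = 0 ∧ LO β δ R u = -(3 * R)) ∨ ∃ i : Fin M, u = i.succ ∧ LO β δ R u = β i + δ / 2 := by
  induction u using Fin.cases with
  | zero => left; exact ⟨rfl, rfl⟩
  | succ i => right; exact ⟨i, rfl, rfl⟩

private theorem Gc_LO' {M : ℕ} (β : Fin M → ℝ) (δ R : ℝ) (hδ : 0 < δ) (u : Fin (M + 1)) :
    LO β δ R u ≤ LO' β δ R u := by
  induction u using Fin.cases with
  | zero => exact le_rfl
  | succ i =>
    change β i + δ / 2 ≤ β i + δ
    linarith

private theorem Gc_ev (f : BP) (x y : ℝ) :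
    ev f x y = ∑ j ∈ Finset.range (f.natDegree + 1), (f.coeff j).eval x * y ^ j := by
  unfold ev sl
  rw [eval_map, eval₂_eq_sum_range]
  rfl

/-- bound of the roots -/
private theorem Gc_Y (f : BP) (hf : f.Monic) (hc : 1 ≤ f.natDegree) (K : ℝ) :
    ∃ Y : ℝ, 1 ≤ Y ∧ ∀ x ∈ Icc (-K) K, ∀ y, ev f x y = 0 → |y| ≤ Y := by
  have h1 : ContinuousOn (fun x : ℝ => ∑ j ∈ Finset.range f.natDegree, |(f.coeff j).eval x|)
      (Icc (-K) K) := by
    refine Continuous.continuousOn ?_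
    exact continuous_finset_sum _ fun j _ => ((f.coeff j).continuous).abs
  obtain ⟨A, hA⟩ := isCompact_Icc.exists_bound_of_continuousOn h1
  refine ⟨max 1 A, le_max_left _ _, ?_⟩
  intro x hx y hy
  by_contra hlt
  rw [not_le] at hlt
  have hy1 : 1 < |y| := lt_of_le_of_lt (le_max_left _ _) hlt
  have hyA : A < |y| := lt_of_le_of_lt (le_max_right _ _) hlt
  rw [Gc_ev, Finset.sum_range_succ] at hy
  have h2 : f.coeff f.natDegree = 1 := hf
  rw [h2, eval_one, one_mul] at hy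
  have h3 : |y| ^ f.natDegree ≤ ∑ j ∈ Finset.range f.natDegree, |(f.coeff j).eval x| * |y| ^ j := by
    rw [← abs_pow]
    have h4 : y ^ f.natDegree = - ∑ j ∈ Finset.range f.natDegree, (f.coeff j).eval x * y ^ j := by
      linarith
    rw [h4, abs_neg]
    refine (Finset.abs_sum_le_sum_abs _ _).trans ?_
    refine Finset.sum_le_sum fun j _ => ?_
    rw [abs_mul, abs_pow]
  have h5 : ∑ j ∈ Finset.range f.natDegree, |(f.coeff j).eval x| * |y| ^ j ≤
      (∑ j ∈ Finset.range f.natDegree, |(f.coeff j).eval x|) * |y| ^ (f.natDegree - 1) := by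
    rw [Finset.sum_mul]
    refine Finset.sum_le_sum fun j hj => ?_
    refine mul_le_mul_of_nonneg_left ?_ (abs_nonneg _)
    exact pow_le_pow_right₀ hy1.le (by have := Finset.mem_range.1 hj; omega)
  have h6 := hA x hx
  rw [Real.norm_eq_abs] at h6
  have h7 := (le_abs_self _).trans h6
  have hpos : 0 < |y| ^ (f.natDegree - 1) := by positivity
  have h8 : |y| ^ f.natDegree = |y| * |y| ^ (f.natDegree - 1) := by
    rw [← pow_succ']
    congr 1
    omega
  have h9 : |y| * |y| ^ (f.natDegree - 1) ≤ A * |y| ^ (f.natDegree - 1) := by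
    rw [← h8]
    exact h3.trans (h5.trans (mul_le_mul_of_nonneg_right h7 hpos.le))
  exact absurd (le_of_mul_le_mul_right h9 hpos) (not_le.2 hyA)

private theorem Gc_hd {c : ℕ} (a : Fin c → ℝ → ℝ) (a' : Fin c → ℝ) (ψ : ℝ → ℝ) (ψ' x : ℝ)
    (ha : ∀ j, HasDerivAt (a j) (a' j) x) (hψ : HasDerivAt ψ ψ' x) :
    HasDerivAt (fun x' => ∑ j, a j x' * (ψ x') ^ (j : ℕ))
      (∑ j, (a' j * (ψ x) ^ (j : ℕ) + a j x * ((j : ℕ) * (ψ x) ^ ((j : ℕ) - 1) * ψ'))) x := by
  refine HasDerivAt.fun_sum fun j _ => ?_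
  exact (ha j).fun_mul (hψ.fun_pow (j : ℕ))

/-- [Gc] polynomial approximation of the target function -/
theorem thm_Gc : St_Apx → St_Tgt → St_Gc := by
  intro hApx hTgt c M f β δ R τ m ψ γ h
  obtain ⟨t, ht, t1, t2, t3, t4, t5⟩ := hTgt c M f β δ R τ m ψ γ h
  have hδ := h.pos.1
  have hτ := h.pos.2
  have hR : δ < R := by
    have := h.bd ⟨0, h.hM⟩
    linarith [this.1, this.2]
  have hLO : ∀ s, -(3 * R) ≤ LO β δ R s := by
    intro s
    rcases Gc_LO β δ R s with ⟨_, h1⟩ | ⟨i, _, h1⟩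
    · rw [h1]
    · rw [h1]; linarith [(h.bd i).1]
  have hHI : ∀ s, HI β δ R s ≤ 3 * R := by
    intro s
    rcases Gc_HI β δ R s with ⟨_, h1⟩ | ⟨i, _, h1⟩
    · rw [h1]
    · rw [h1]; linarith [(h.bd i).2]
  have hI4 : ∀ (s : Fin M), ∀ x ∈ Icc (β s + δ / 2) (β s + δ),
      x ∈ Icc (LO β δ R s.succ) (HI β δ R s.succ) := by
    intro s x hx
    refine ⟨hx.1, ?_⟩
    rcases Gc_HI β δ R s.succ with ⟨_, h1⟩ | ⟨i, hi, h1⟩
    · rw [h1]; linarith [(h.bd s).2, hx.2]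
    · have hsi : s < i := by
        have := congrArg Fin.val hi
        simp only [Fin.val_succ, Fin.val_castSucc] at this
        rw [Fin.lt_def]; omega
      rw [h1]; linarith [h.sep s i hsi, hx.2]
  have hI5 : ∀ (s : Fin M), ∀ x ∈ Icc (β s - δ) (β s - δ / 2),
      x ∈ Icc (LO β δ R s.castSucc) (HI β δ R s.castSucc) := by
    intro s x hx
    refine ⟨?_, ?_⟩
    · rcases Gc_LO β δ R s.castSucc with ⟨_, h1⟩ | ⟨i, hi, h1⟩
      · rw [h1]; linarith [(h.bd s).1, hx.1]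
      · have hsi : i < s := by
          have := congrArg Fin.val hi
          simp only [Fin.val_succ, Fin.val_castSucc] at this
          rw [Fin.lt_def]; omega
        rw [h1]; linarith [h.sep i s hsi, hx.1]
    · have h1 : HI β δ R s.castSucc = β s - δ / 2 := by
        unfold HI; rw [Fin.lastCases_castSucc]
      rw [h1]; exact hx.2
  obtain ⟨Y, hY1, hY⟩ := Gc_Y f h.monic (by rw [h.deg]; exact h.hc) (3 * R)
  have hIoo : ∀ s, ∀ x ∈ Icc (LO β δ R s) (HI β δ R s),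
      x ∈ Ioo (LO β δ R s - τ) (HI β δ R s + τ) := by
    intro s x hx
    exact ⟨by linarith [hx.1], by linarith [hx.2]⟩
  have h3R : ∀ s, ∀ x ∈ Icc (LO β δ R s) (HI β δ R s), x ∈ Icc (-(3 * R)) (3 * R) := by
    intro s x hx
    exact ⟨(hLO s).trans hx.1, hx.2.trans (hHI s)⟩
  have hψY : ∀ s i, ∀ x ∈ Icc (LO β δ R s) (HI β δ R s), |ψ s i x| ≤ Y := by
    intro s i x hx
    refine hY x (h3R s x hx) _ ?_
    exact ((h.brs s).root x (hIoo s x hx) _).2 ⟨i, rfl⟩
  have hP0 : ∀ q : (Σ s, Fin (m s)), ∃ P : ℝ, ∀ x ∈ Icc (LO β δ R q.1) (HI β δ R q.1),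
      ‖deriv (ψ q.1 q.2) x‖ ≤ P := by
    intro q
    have h1 := ((h.brs q.1).diff q.2).continuousOn_deriv_of_isOpen isOpen_Ioo le_rfl
    exact isCompact_Icc.exists_bound_of_continuousOn (h1.mono (hIoo q.1))
  choose Pf hPf using hP0
  obtain ⟨P, hP⟩ := (Set.finite_range Pf).bddAbove
  have hψP : ∀ s i, ∀ x ∈ Icc (LO β δ R s) (HI β δ R s), |deriv (ψ s i) x| ≤ |P| := by
    intro s i x hx
    have h1 := hPf ⟨s, i⟩ x hx
    rw [Real.norm_eq_abs] at h1
    exact h1.trans ((hP ⟨⟨s, i⟩, rfl⟩).trans (le_abs_self P))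
  have hY0 : 0 ≤ Y := zero_le_one.trans hY1
  set B : ℝ := ∑ j : Fin c, (Y ^ (j : ℕ) + (j : ℕ) * Y ^ ((j : ℕ) - 1) * |P|) + 1 with hB
  have hBs : 0 ≤ ∑ j : Fin c, (Y ^ (j : ℕ) + (j : ℕ) * Y ^ ((j : ℕ) - 1) * |P|) :=
    Finset.sum_nonneg fun j _ => by positivity
  have hB0 : 0 < B := by rw [hB]; linarith
  set κ₀ : ℝ := min (1 / 4) (1 / δ) / B with hκ
  have hmin : 0 < min (1 / 4) (1 / δ) := lt_min (by norm_num) (by positivity)
  have hκ0 : 0 < κ₀ := div_pos hmin hB0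
  have hκB : κ₀ * B = min (1 / 4) (1 / δ) := by
    rw [hκ]; field_simp
  have hpp : ∀ j : Fin c, ∃ p : ℝ[X], ∀ x ∈ Icc (-(3 * R)) (3 * R),
      |p.eval x - t j x| < κ₀ ∧ |(derivative p).eval x - deriv (t j) x| < κ₀ := by
    intro j
    exact hApx (t j) _ _ κ₀ (by linarith) (ht j) hκ0
  choose p hp using hpp
  have hev : ∀ x y : ℝ, ev (∑ j : Fin c, C (p j) * X ^ (j : ℕ)) x y =
      ∑ j : Fin c, (p j).eval x * y ^ (j : ℕ) := by
    intro x y
    unfold ev sl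
    rw [Polynomial.map_sum, eval_finset_sum]
    refine Finset.sum_congr rfl fun j _ => ?_
    simp
  have e1 : ∀ x ∈ Icc (-(3 * R)) (3 * R), ∀ y, |y| ≤ Y →
      |∑ j : Fin c, (p j).eval x * y ^ (j : ℕ) - ∑ j, t j x * y ^ (j : ℕ)| ≤ 1 / 4 := by
    intro x hx y hy
    rw [← Finset.sum_sub_distrib]
    have h1 : |∑ j : Fin c, ((p j).eval x * y ^ (j : ℕ) - t j x * y ^ (j : ℕ))| ≤
        ∑ j : Fin c, κ₀ * (Y ^ (j : ℕ) + (j : ℕ) * Y ^ ((j : ℕ) - 1) * |P|) := by
      refine (Finset.abs_sum_le_sum_abs _ _).trans (Finset.sum_le_sum fun j _ => ?_)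
      rw [← sub_mul, abs_mul, abs_pow]
      have h2 : |y| ^ (j : ℕ) ≤ Y ^ (j : ℕ) + (j : ℕ) * Y ^ ((j : ℕ) - 1) * |P| := by
        have h3 : |y| ^ (j : ℕ) ≤ Y ^ (j : ℕ) := pow_le_pow_left₀ (abs_nonneg _) hy _
        have h4 : 0 ≤ (j : ℕ) * Y ^ ((j : ℕ) - 1) * |P| := by positivity
        linarith
      exact mul_le_mul (hp j x hx).1.le h2 (by positivity) hκ0.le
    rw [← Finset.mul_sum] at h1
    have h5 : κ₀ * ∑ j : Fin c, (Y ^ (j : ℕ) + (j : ℕ) * Y ^ ((j : ℕ) - 1) * |P|) ≤ κ₀ * B :=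
      mul_le_mul_of_nonneg_left (by rw [hB]; linarith) hκ0.le
    rw [hκB] at h5
    exact h1.trans (h5.trans (min_le_left _ _))
  have e2 : ∀ s i, ∀ x ∈ Icc (LO β δ R s) (HI β δ R s),
      |deriv (fun x' => ∑ j : Fin c, (p j).eval x' * (ψ s i x') ^ (j : ℕ)) x -
        deriv (fun x' => ∑ j, t j x' * (ψ s i x') ^ (j : ℕ)) x| ≤ 1 / δ := by
    intro s i x hx
    have hψ : HasDerivAt (ψ s i) (deriv (ψ s i) x) x := by
      have h1 : ContDiffAt ℝ 1 (ψ s i) x :=
        ((h.brs s).diff i).contDiffAt (isOpen_Ioo.mem_nhds (hIoo s x hx))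
      exact (h1.differentiableAt one_ne_zero).hasDerivAt
    have d1 := Gc_hd (fun j x' => (p j).eval x') (fun j => (derivative (p j)).eval x) (ψ s i)
      (deriv (ψ s i) x) x (fun j => (p j).hasDerivAt x) hψ
    have d2 := Gc_hd t (fun j => deriv (t j) x) (ψ s i) (deriv (ψ s i) x) x
      (fun j => (((ht j).differentiable one_ne_zero) x).hasDerivAt) hψ
    rw [d1.deriv, d2.deriv, ← Finset.sum_sub_distrib]
    have hx3 := h3R s x hx
    have hy := hψY s i x hx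
    have hd := hψP s i x hx
    have h1 : |∑ j : Fin c, ((derivative (p j)).eval x * ψ s i x ^ (j : ℕ) +
        (p j).eval x * ((j : ℕ) * ψ s i x ^ ((j : ℕ) - 1) * deriv (ψ s i) x) -
        (deriv (t j) x * ψ s i x ^ (j : ℕ) +
          t j x * ((j : ℕ) * ψ s i x ^ ((j : ℕ) - 1) * deriv (ψ s i) x)))| ≤
        ∑ j : Fin c, κ₀ * (Y ^ (j : ℕ) + (j : ℕ) * Y ^ ((j : ℕ) - 1) * |P|) := by
      refine (Finset.abs_sum_le_sum_abs _ _).trans (Finset.sum_le_sum fun j _ => ?_)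
      have h2 : (derivative (p j)).eval x * ψ s i x ^ (j : ℕ) +
          (p j).eval x * ((j : ℕ) * ψ s i x ^ ((j : ℕ) - 1) * deriv (ψ s i) x) -
          (deriv (t j) x * ψ s i x ^ (j : ℕ) +
            t j x * ((j : ℕ) * ψ s i x ^ ((j : ℕ) - 1) * deriv (ψ s i) x)) =
          ((derivative (p j)).eval x - deriv (t j) x) * ψ s i x ^ (j : ℕ) +
          ((p j).eval x - t j x) * ((j : ℕ) * ψ s i x ^ ((j : ℕ) - 1) * deriv (ψ s i) x) := by
        ring
      rw [h2]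
      refine (abs_add_le _ _).trans ?_
      rw [mul_add]
      refine add_le_add ?_ ?_
      · rw [abs_mul, abs_pow]
        exact mul_le_mul (hp j x hx3).2.le (pow_le_pow_left₀ (abs_nonneg _) hy _)
          (by positivity) hκ0.le
      · rw [abs_mul, abs_mul, abs_mul, abs_pow, Nat.abs_cast]
        refine mul_le_mul (hp j x hx3).1.le ?_ (by positivity) hκ0.le
        refine mul_le_mul ?_ hd (abs_nonneg _) (by positivity)
        exact mul_le_mul_of_nonneg_left (pow_le_pow_left₀ (abs_nonneg _) hy _) (Nat.cast_nonneg _)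
    rw [← Finset.mul_sum] at h1
    have h5 : κ₀ * ∑ j : Fin c, (Y ^ (j : ℕ) + (j : ℕ) * Y ^ ((j : ℕ) - 1) * |P|) ≤ κ₀ * B :=
      mul_le_mul_of_nonneg_left (by rw [hB]; linarith) hκ0.le
    rw [hκB] at h5
    exact h1.trans (h5.trans (min_le_right _ _))
  have hδi : 0 < 1 / δ := by positivity
  have h3δ : 3 / δ = 3 * (1 / δ) := by ring
  refine ⟨∑ j : Fin c, C (p j) * X ^ (j : ℕ), 1 / δ, hδi, ?_, ?_, ?_, ?_, ?_⟩
  · intro s x hx y hy
    have hx3 : x ∈ Icc (-(3 * R)) (3 * R) := by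
      have := h.bd s
      exact ⟨by linarith [hx.1, this.1], by linarith [hx.2, this.2]⟩
    have h1 := e1 x hx3 y (hY x hx3 y hy)
    rw [t1 s x hx y, abs_le] at h1
    rw [hev]
    linarith [h1.1]
  · intro s i hs x hx
    have h1 := e1 x (h3R s x hx) _ (hψY s i x hx)
    rw [t2 s i hs x hx, abs_le] at h1
    rw [hev]
    linarith [h1.1]
  · intro s i hs x hx
    have hx' : x ∈ Icc (LO β δ R s) (HI β δ R s) :=
      ⟨(Gc_LO' β δ R hδ s).trans hx.1, hx.2.trans (Gc_HI' β δ R hδ s)⟩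
    have h1 := e1 x (h3R s x hx') _ (hψY s i x hx')
    rw [t3 s i hs x hx, abs_le] at h1
    rw [hev]
    linarith [h1.2]
  · intro s i hs x hx hg
    have hx' := hI4 s x hx
    have h1 := e1 x (h3R _ x hx') _ (hψY _ i x hx')
    simp only [hev] at hg ⊢
    have h2 := t4 s i hs x hx (by
      rw [abs_le] at h1 hg ⊢
      constructor <;> linarith [h1.1, h1.2, hg.1, hg.2])
    have h3 := e2 _ i x hx'
    rw [abs_le] at h3
    rw [h3δ] at h2
    linarith [h3.2]
  · intro s i hs x hx hg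
    have hx' := hI5 s x hx
    have h1 := e1 x (h3R _ x hx') _ (hψY _ i x hx')
    simp only [hev] at hg ⊢
    have h2 := t5 s i hs x hx (by
      rw [abs_le] at h1 hg ⊢
      constructor <;> linarith [h1.1, h1.2, hg.1, hg.2])
    have h3 := e2 _ i x hx'
    rw [abs_le] at h3
    rw [h3δ] at h2
    linarith [h3.1]

end Pool.Agent.NCC
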