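import Pool.Agent.NCC.StB

/-!
# NCC, module Geo: the geometry (perturbed curve, strips, slabs, signs)
-/

set_option autoImplicit false

namespace Pool.Agent.NCC

open Polynomial Filter Topology Set

private theorem Geo_mon {F : BP} (hF : F.Monic) (x : ℝ) : (sl F x).Monic := hF.map _

private theorem Geo_mem {F : BP} (hF : F.Monic) (x y : ℝ) :
    y ∈ (sl F x).roots ↔ ev F x y = 0 := by
  rw [mem_roots (Geo_mon hF x).ne_zero]
  rfl

private theorem Geo_bound {F : BP} (hF : F.Monic) (a b : ℝ) :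
    ∃ Y : ℝ, 1 ≤ Y ∧ ∀ x ∈ Icc a b, ∀ y, ev F x y = 0 → |y| < Y := by
  have hc : Continuous fun x : ℝ => ∑ j ∈ Finset.range F.natDegree, |(F.coeff j).eval x| :=
    continuous_finsetSum _ fun j _ => (F.coeff j).continuous.abs
  obtain ⟨C, hC⟩ := (isCompact_Icc (a := a) (b := b)).bddAbove_image hc.continuousOn
  refine ⟨max C 0 + 1, by linarith [le_max_right C 0], ?_⟩
  intro x hx y hy
  have hC' : ∑ j ∈ Finset.range F.natDegree, |(F.coeff j).eval x| ≤ C := hC ⟨x, hx, rfl⟩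
  have hm := Geo_mon hF x
  have hr : (sl F x).IsRoot y := hy
  have hlt := hr.norm_lt_cauchyBound hm.ne_zero
  have hle : (cauchyBound (sl F x) : ℝ) ≤ max C 0 + 1 := by
    have h1 : (Finset.sup (Finset.range (sl F x).natDegree) (fun i => ‖(sl F x).coeff i‖₊) : NNReal)
        ≤ Real.toNNReal (max C 0) := by
      refine Finset.sup_le fun i hi => ?_
      rw [← NNReal.coe_le_coe, Real.coe_toNNReal _ (le_max_right _ _)]
      have hdeg : (sl F x).natDegree = F.natDegree := hF.natDegree_map _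
      rw [hdeg] at hi
      have hco : ((‖(sl F x).coeff i‖₊ : NNReal) : ℝ) = |(F.coeff i).eval x| := by
        rw [coe_nnnorm, Real.norm_eq_abs]
        congr 1
        simp [sl, coeff_map]
      rw [hco]
      refine le_trans ?_ (le_max_left _ _)
      refine le_trans ?_ hC'
      exact Finset.single_le_sum (f := fun j => |(F.coeff j).eval x|) (fun j _ => abs_nonneg _) hi
    rw [cauchyBound, hm.leadingCoeff]
    rw [nnnorm_one, div_one, NNReal.coe_add, NNReal.coe_one]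
    have h2 := NNReal.coe_le_coe.2 h1
    rw [Real.coe_toNNReal _ (le_max_right _ _)] at h2
    linarith
  have h3 : ‖y‖ < (cauchyBound (sl F x) : ℝ) := by
    have := NNReal.coe_lt_coe.2 hlt
    simpa using this
  rw [Real.norm_eq_abs] at h3
  linarith

/-! ### the strips -/

private theorem Geo_LO_zero {M : ℕ} (β : Fin M → ℝ) (δ R : ℝ) : LO β δ R 0 = -(3 * R) := rfl

private theorem Geo_LO_succ {M : ℕ} (β : Fin M → ℝ) (δ R : ℝ) (i : Fin M) :
    LO β δ R i.succ = β i + δ / 2 := rfl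

private theorem Geo_HI_last {M : ℕ} (β : Fin M → ℝ) (δ R : ℝ) :
    HI β δ R (Fin.last M) = 3 * R := by
  simp [HI]

private theorem Geo_HI_castSucc {M : ℕ} (β : Fin M → ℝ) (δ R : ℝ) (i : Fin M) :
    HI β δ R i.castSucc = β i - δ / 2 := by
  simp [HI]

/-- the strips are right of the previous points -/
private theorem Geo_LO_ge {M : ℕ} {β : Fin M → ℝ} (δ R : ℝ) (hβ : Monotone β) (s : Fin (M + 1))
    (s' : Fin M) (h : s'.castSucc < s) : β s' + δ / 2 ≤ LO β δ R s := by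
  induction s using Fin.cases with
  | zero => exact absurd h (Fin.not_lt_zero _)
  | succ i =>
    rw [Geo_LO_succ]
    have : s' ≤ i := Fin.castSucc_lt_succ_iff.1 h
    linarith [hβ this]

private theorem Geo_HI_le {M : ℕ} {β : Fin M → ℝ} (δ R : ℝ) (hβ : Monotone β) (s : Fin (M + 1))
    (s' : Fin M) (h : s ≤ s'.castSucc) : HI β δ R s ≤ β s' - δ / 2 := by
  induction s using Fin.lastCases with
  | last => exact absurd h (not_le.2 (Fin.castSucc_lt_last s'))
  | cast i =>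
    rw [Geo_HI_castSucc]
    have : i ≤ s' := Fin.castSucc_le_castSucc_iff.1 h
    linarith [hβ this]

/-- position of the strips -/
private theorem Geo_pos {M : ℕ} {β : Fin M → ℝ} {δ R : ℝ} (hδ : 0 < δ) (hR : 0 < R)
    (sep : ∀ s s' : Fin M, s < s' → β s + 2 * δ < β s')
    (bd : ∀ s, -R + δ < β s ∧ β s < R - δ) :
    (∀ s, -(3 * R) ≤ LO β δ R s ∧ LO β δ R s < R) ∧
    (∀ s, -R < HI β δ R s ∧ HI β δ R s ≤ 3 * R) ∧
    (∀ s, LO β δ R s < HI β δ R s) ∧
    (∀ i : Fin M, β i + δ < HI β δ R i.succ) ∧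
    (∀ i : Fin M, LO β δ R i.castSucc < β i - δ) := by
  have h1 : ∀ s, -(3 * R) ≤ LO β δ R s ∧ LO β δ R s < R := by
    intro s
    induction s using Fin.cases with
    | zero => rw [Geo_LO_zero]; constructor <;> linarith
    | succ i => rw [Geo_LO_succ]; have := bd i; constructor <;> linarith
  have h2 : ∀ s, -R < HI β δ R s ∧ HI β δ R s ≤ 3 * R := by
    intro s
    induction s using Fin.lastCases with
    | last => rw [Geo_HI_last]; constructor <;> linarith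
    | cast i => rw [Geo_HI_castSucc]; have := bd i; constructor <;> linarith
  have h4 : ∀ i : Fin M, β i + δ < HI β δ R i.succ := by
    intro i
    have hb := bd i
    rcases Fin.eq_castSucc_or_eq_last i.succ with ⟨j, hj⟩ | hj
    · rw [hj, Geo_HI_castSucc]
      have : i < j := by
        rw [← Fin.castSucc_lt_castSucc_iff, ← hj]
        exact Fin.castSucc_lt_succ
      linarith [sep i j this]
    · rw [hj, Geo_HI_last]; linarith
  have h5 : ∀ i : Fin M, LO β δ R i.castSucc < β i - δ := by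
    intro i
    have hb := bd i
    rcases Fin.eq_zero_or_eq_succ i.castSucc with hj | ⟨j, hj⟩
    · rw [hj, Geo_LO_zero]; linarith
    · rw [hj, Geo_LO_succ]
      have : j < i := by
        rw [← Fin.succ_lt_succ_iff, ← hj]
        exact Fin.castSucc_lt_succ
      linarith [sep j i this]
  refine ⟨h1, h2, ?_, h4, h5⟩
  intro s
  induction s using Fin.cases with
  | zero => rw [Geo_LO_zero]; linarith [(h2 0).1]
  | succ i => rw [Geo_LO_succ]; linarith [h4 i]

/-! ### distances and signs -/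

private theorem Geo_dist {η φ φ' ρ : ℝ} (h0 : 0 < η) (h1 : |ρ - φ'| < η / 2)
    (h2 : φ ≠ φ' → 2 * η < |φ - φ'|) : η / 2 < |φ - η - ρ| ∧ η / 2 < |φ + η - ρ| := by
  rw [abs_lt] at h1
  by_cases h : φ = φ'
  · subst h
    constructor
    · rw [lt_abs]; right; linarith
    · rw [lt_abs]; left; linarith
  · have h3 := h2 h
    rw [lt_abs] at h3
    rcases h3 with h3 | h3
    · constructor
      · rw [lt_abs]; left; linarith
      · rw [lt_abs]; left; linarith
    · constructor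
      · rw [lt_abs]; right; linarith
      · rw [lt_abs]; right; linarith

private theorem Geo_one {m : ℕ} (σ : Fin m → ℤ) (h : ∀ i, σ i = 1 ∨ σ i = -1)
    (hs : ∑ i, σ i = m) : ∀ i, σ i = 1 := by
  have h1 : ∑ i, (1 - σ i) = 0 := by
    rw [Finset.sum_sub_distrib, hs]
    simp
  have h2 : ∀ i ∈ (Finset.univ : Finset (Fin m)), 0 ≤ 1 - σ i := by
    intro i _
    rcases h i with h | h <;> rw [h] <;> norm_num
  intro i
  have := (Finset.sum_eq_zero_iff_of_nonneg h2).1 h1 i (Finset.mem_univ i)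
  linarith

private theorem Geo_cntall {f : BP} (hf : f.Monic) {x y₁ y₂ : ℝ} {m : ℕ} {ψ : Fin m → ℝ → ℝ}
    (hmono : StrictMono fun i => ψ i x) (hroot : ∀ y, ev f x y = 0 ↔ ∃ i, ψ i x = y)
    (hnd : (sl f x).roots.Nodup) (hy : ∀ y, ev f x y = 0 → y₁ < y ∧ y < y₂) :
    cnt f x y₁ y₂ = m := by
  classical
  have h1 : (sl f x).roots.filter (fun y => y₁ < y ∧ y < y₂) = (sl f x).roots :=
    Multiset.filter_eq_self.2 fun y hy' => hy y ((Geo_mem hf x y).1 hy')
  have h2 : (sl f x).roots.toFinset = Finset.univ.image (fun i => ψ i x) := by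
    ext y
    rw [Multiset.mem_toFinset, Geo_mem hf, hroot]
    simp
  unfold cnt
  rw [h1, ← Multiset.toFinset_card_of_nodup hnd, h2,
    Finset.card_image_of_injective _ hmono.injective]
  simp

/-- the sum of the signs far to the left or to the right -/
private theorem Geo_end {F f : BP} (hf : f.Monic) {x Y η : ℝ} {m : ℕ} {ψ : Fin m → ℝ → ℝ}
    {σ : Fin m → ℤ} {nn : ℝ → ℝ → ℤ} (hY : 1 ≤ Y) (hη : 0 < η)
    (hF : ∀ y, ev F x y = 0 → |y| < Y) (hfY : ∀ y, ev f x y = 0 → |y| < Y)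
    (hmono : StrictMono fun i => ψ i x) (hroot : ∀ y, ev f x y = 0 ↔ ∃ i, ψ i x = y)
    (hnd : (sl f x).roots.Nodup)
    (hcnt : ∀ y₁ y₂ : ℝ, y₁ < y₂ → (∀ φ, ev F x φ = 0 → η / 2 ≤ |y₁ - φ| ∧ η / 2 ≤ |y₂ - φ|) →
      cnt f x y₁ y₂ = cnt F x y₁ y₂)
    (hσ : ∀ y₁ y₂ : ℝ, y₁ < y₂ → (∀ φ, ev F x φ = 0 → η / 2 ≤ |y₁ - φ| ∧ η / 2 ≤ |y₂ - φ|) →
      ∑ i, (if y₁ < ψ i x ∧ ψ i x < y₂ then σ i else 0) = nn x y₁ - nn x y₂) :
    ∃ y₁ y₂ : ℝ, y₁ < y₂ ∧ ev F x y₁ ≠ 0 ∧ ev F x y₂ ≠ 0 ∧ cnt F x y₁ y₂ = m ∧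
      ∑ i, σ i = nn x y₁ - nn x y₂ := by
  have hd : ∀ φ, ev F x φ = 0 → η / 2 ≤ |-(Y + η) - φ| ∧ η / 2 ≤ |Y + η - φ| := by
    intro φ hφ
    have := abs_lt.1 (hF φ hφ)
    constructor
    · rw [le_abs]; right; linarith
    · rw [le_abs]; left; linarith
  have hlt : -(Y + η) < Y + η := by linarith
  have hin : ∀ y, ev f x y = 0 → -(Y + η) < y ∧ y < Y + η := by
    intro y hy
    have := abs_lt.1 (hfY y hy)
    constructor <;> linarith
  refine ⟨-(Y + η), Y + η, hlt, ?_, ?_, ?_, ?_⟩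
  · intro h0
    have := abs_lt.1 (hF _ h0)
    linarith
  · intro h0
    have := abs_lt.1 (hF _ h0)
    linarith
  · rw [← hcnt _ _ hlt hd]
    exact Geo_cntall hf hmono hroot hnd hin
  · rw [← hσ _ _ hlt hd]
    refine Finset.sum_congr rfl fun i _ => ?_
    rw [if_pos (hin _ ((hroot _).2 ⟨i, rfl⟩))]

/-! ### the construction -/

private theorem Geo_core (hPert : St_Pert) (hBr : St_Br) (hSig : St_Sig) (hSlab : St_Slab)
    (c : ℕ) (F : BP) (w : ℂ →₀ ℤ) (nn : ℝ → ℝ → ℤ) (hD : SigData c F w nn) (hc : 1 ≤ c)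
    (N : ℕ) (G : Fin N → BP) (hP : Prd c F N G) (M : ℕ) (β : Fin M → ℝ) (R : ℝ) (hM : 1 ≤ M)
    (hβ : StrictMono β) (hR : ∀ s, |β s| + 2 ≤ R) (hR2 : 2 ≤ R)
    (hG : ∀ x, (∀ s, x ≠ β s) → Gd G x) (hw : ∀ z ∈ w.support, ∃ s, z.re = β s)
    (hr : ∀ x, R ≤ x → (sl F x).Splits ∧ ∀ y₁ y₂, y₁ < y₂ → ev F x y₁ ≠ 0 → ev F x y₂ ≠ 0 →
      nn x y₁ - nn x y₂ = cnt F x y₁ y₂)
    (hl : ∀ x, x ≤ -R → (sl F x).Splits ∧ ∀ y₁ y₂, y₁ < y₂ → ev F x y₁ ≠ 0 → ev F x y₂ ≠ 0 →
      nn x y₁ - nn x y₂ = - (cnt F x y₁ y₂ : ℤ))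
    (η₀ : ℝ) (hη₀ : 0 < η₀) :
    ∃ (f : BP) (δ η τ : ℝ) (m : Fin (M + 1) → ℕ) (ψ : ∀ s, Fin (m s) → ℝ → ℝ)
      (σ : ∀ s, Fin (m s) → ℤ), δ + η < η₀ ∧ Geo c M F f nn β δ η R τ m ψ σ := by
  classical
  -- the number `η`
  have hex1 : ∀ᶠ η : ℝ in 𝓝[>] 0, ∀ s : Fin M, ∀ φ ∈ (sl F (β s)).roots.toFinset,
      ∀ φ' ∈ (sl F (β s)).roots.toFinset, φ ≠ φ' → 2 * η < |φ - φ'| := by
    rw [Filter.eventually_all]
    intro s
    rw [Filter.eventually_all_finset]
    intro φ _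
    rw [Filter.eventually_all_finset]
    intro φ' _
    by_cases h : φ = φ'
    · exact Filter.Eventually.of_forall fun η h' => absurd h h'
    · have h0 : 0 < |φ - φ'| / 2 := by
        have := abs_pos.2 (sub_ne_zero.2 h)
        linarith
      filter_upwards [Ioo_mem_nhdsGT h0] with η hη _
      linarith [hη.2]
  obtain ⟨η, hη1, hη2, hη3⟩ := (hex1.and
    (Ioo_mem_nhdsGT (show (0 : ℝ) < η₀ / 2 by linarith))).exists
  have hη0 : 0 < η := hη2
  have hη4 : η < η₀ / 2 := hη3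
  have disj : ∀ s φ φ', ev F (β s) φ = 0 → ev F (β s) φ' = 0 → φ ≠ φ' → 2 * η < |φ - φ'| := by
    intro s φ φ' h1 h2 h3
    exact hη1 s φ (Multiset.mem_toFinset.2 ((Geo_mem hD.monic _ _).2 h1)) φ'
      (Multiset.mem_toFinset.2 ((Geo_mem hD.monic _ _).2 h2)) h3
  -- the number `δ`
  choose δs hδs0 hδs using fun s => hSlab F (β s) (η / 2) hD.monic (by linarith)
  have hex2 : ∀ᶠ δ : ℝ in 𝓝[>] 0, (∀ s : Fin M, δ < δs s) ∧
      ∀ s s' : Fin M, s < s' → β s + 2 * δ < β s' := by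
    refine Filter.Eventually.and ?_ ?_
    · rw [Filter.eventually_all]
      intro s
      filter_upwards [Ioo_mem_nhdsGT (hδs0 s)] with δ hδ
      exact hδ.2
    · rw [Filter.eventually_all]
      intro s
      rw [Filter.eventually_all]
      intro s'
      by_cases h : s < s'
      · have h0 : 0 < (β s' - β s) / 2 := by
          have := hβ h
          linarith
        filter_upwards [Ioo_mem_nhdsGT h0] with δ hδ _
        linarith [hδ.2]
      · exact Filter.Eventually.of_forall fun δ h' => absurd h' h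
  obtain ⟨δ, ⟨⟨hδ1, sep⟩, hδ0, hδ2⟩, hδ3, hδ4⟩ := ((hex2.and
    (Ioo_mem_nhdsGT (show (0 : ℝ) < η₀ / 2 by linarith))).and
      (Ioo_mem_nhdsGT (show (0 : ℝ) < 1 by norm_num))).exists
  have hδ0' : 0 < δ := hδ0
  have hδ2' : δ < η₀ / 2 := hδ2
  have hδ4' : δ < 1 := hδ4
  have hslabF : ∀ s x y, |x - β s| ≤ δ → ev F x y = 0 → ∃ φ, ev F (β s) φ = 0 ∧
      |y - φ| < η / 2 := fun s x y hx hy => hδs s x y (hx.trans (hδ1 s).le) hy
  have bd : ∀ s, -R + δ < β s ∧ β s < R - δ := by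
    intro s
    have h1 := hR s
    have h2 := neg_abs_le (β s)
    have h3 := le_abs_self (β s)
    constructor <;> linarith
  have hR0 : 0 < R := by linarith
  obtain ⟨pos1, pos2, pos3, pos4, pos5⟩ := Geo_pos hδ0' hR0 sep bd
  have dist : ∀ s x φ, |x - β s| ≤ δ → ev F (β s) φ = 0 → ∀ ρ, ev F x ρ = 0 →
      η / 2 < |φ - η - ρ| ∧ η / 2 < |φ + η - ρ| := by
    intro s x φ hx hφ ρ hρ
    obtain ⟨φ', h1, h2⟩ := hslabF s x ρ hx hρ
    exact Geo_dist hη0 h2 fun h => disj s φ φ' hφ h1 h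
  have Fne : ∀ s x φ, |x - β s| ≤ δ → ev F (β s) φ = 0 → ev F x (φ - η) ≠ 0 ∧
      ev F x (φ + η) ≠ 0 := by
    intro s x φ hx hφ
    constructor
    · intro h0
      have := (dist s x φ hx hφ _ h0).1
      rw [sub_self, abs_zero] at this
      linarith
    · intro h0
      have := (dist s x φ hx hφ _ h0).2
      rw [sub_self, abs_zero] at this
      linarith
  -- the compact sets
  obtain ⟨Y, hY1, hY⟩ := Geo_bound hD.monic (-(3 * R + 1)) (3 * R + 1)
  have hK1 : ∀ x ∈ ⋃ s, Icc (LO β δ R s - δ / 4) (HI β δ R s + δ / 4), ∀ s', x ≠ β s' := by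
    intro x hx s'
    obtain ⟨s, hs⟩ := mem_iUnion.1 hx
    rcases lt_or_ge s'.castSucc s with h | h
    · have := Geo_LO_ge δ R hβ.monotone s s' h
      intro he
      rw [he] at hs
      linarith [hs.1]
    · have := Geo_HI_le δ R hβ.monotone s s' h
      intro he
      rw [he] at hs
      linarith [hs.2]
  have hK2c : IsCompact (⋃ s : Fin M, (Icc (β s - δ) (β s + δ)) ×ˢ
      (Icc (-Y) Y ∩ ⋂ φ ∈ (sl F (β s)).roots.toFinset, {y : ℝ | η ≤ |y - φ|})) := by
    refine isCompact_iUnion fun s => isCompact_Icc.prod (isCompact_Icc.inter_right ?_)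
    exact isClosed_biInter fun φ _ => isClosed_le continuous_const (by fun_prop)
  have hK2 : ∀ q ∈ (⋃ s : Fin M, (Icc (β s - δ) (β s + δ)) ×ˢ
      (Icc (-Y) Y ∩ ⋂ φ ∈ (sl F (β s)).roots.toFinset, {y : ℝ | η ≤ |y - φ|})),
      ev F q.1 q.2 ≠ 0 := by
    intro q hq h0
    obtain ⟨s, hs1, hs2, hs3⟩ := mem_iUnion.1 hq
    have hx : |q.1 - β s| ≤ δ := by
      rw [abs_le]
      constructor <;> linarith [hs1.1, hs1.2]
    obtain ⟨φ, h1, h2⟩ := hslabF s q.1 q.2 hx h0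
    have h3 := mem_iInter₂.1 hs3 φ (Multiset.mem_toFinset.2 ((Geo_mem hD.monic _ _).2 h1))
    have h4 : η ≤ |q.2 - φ| := h3
    linarith
  have hsplit : ∀ x : ℝ, R ≤ |x| → (sl F x).Splits := by
    intro x hx
    rcases le_abs.1 hx with h | h
    · exact (hr x h).1
    · exact (hl x (by linarith)).1
  obtain ⟨f, fm, fd, ftd, flfs, flfn, ffar, fK2, fK3, fK1⟩ := hPert c N F G R hP hD.td hD.lfs hR0
    hsplit (⋃ s, Icc (LO β δ R s - δ / 4) (HI β δ R s + δ / 4)) (Icc (-(3 * R + 1)) (3 * R + 1))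
    (⋃ s : Fin M, (Icc (β s - δ) (β s + δ)) ×ˢ
      (Icc (-Y) Y ∩ ⋂ φ ∈ (sl F (β s)).roots.toFinset, {y : ℝ | η ≤ |y - φ|})) Y (η / 2)
    (isCompact_iUnion fun s => isCompact_Icc) hK2c isCompact_Icc (by linarith) hK2 hY
    (fun x hx => hG x (hK1 x hx))
  have hsub : ∀ s, ∀ x ∈ Ioo (LO β δ R s - δ / 4) (HI β δ R s + δ / 4),
      x ∈ ⋃ s, Icc (LO β δ R s - δ / 4) (HI β δ R s + δ / 4) :=
    fun s x hx => mem_iUnion.2 ⟨s, hx.1.le, hx.2.le⟩
  have simple : ∀ s, ∀ x ∈ Ioo (LO β δ R s - δ / 4) (HI β δ R s + δ / 4), ∀ y, ev f x y = 0 →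
      ev (derivative f) x y ≠ 0 := fun s x hx => (fK1 x (hsub s x hx)).1
  choose m ψ hBrs using fun s => hBr f (LO β δ R s - δ / 4) (HI β δ R s + δ / 4) fm (simple s)
  choose σ hσ1 hσ2 using fun s => hSig c N F G w nn hD hP (LO β δ R s - δ / 4)
    (HI β δ R s + δ / 4) (η / 2) f (m s) (ψ s) (by linarith [pos3 s]) (by linarith)
    (fun x hx => hG x (hK1 x (hsub s x hx)))
    (fun z hz hx => by
      obtain ⟨s', hs'⟩ := hw z hz
      exact hK1 _ (hsub s _ hx) s' hs')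
    fm (simple s) (hBrs s) (fun x hx => (fK1 x (hsub s x hx)).2)
  have habs : ∀ s : Fin M, ∀ x ∈ Icc (β s - δ) (β s + δ), |x - β s| ≤ δ := by
    intro s x hx
    rw [abs_le]
    constructor <;> linarith [hx.1, hx.2]
  -- the ends
  have hx0 : -(2 * R) ∈ Ioo (LO β δ R 0 - δ / 4) (HI β δ R 0 + δ / 4) := by
    have h1 := (pos2 0).1
    rw [Geo_LO_zero]
    constructor <;> linarith
  have hx1 : 2 * R ∈ Ioo (LO β δ R (Fin.last M) - δ / 4) (HI β δ R (Fin.last M) + δ / 4) := by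
    have h1 := (pos1 (Fin.last M)).2
    rw [Geo_HI_last]
    constructor <;> linarith
  have hK0 : -(2 * R) ∈ Icc (-(3 * R + 1)) (3 * R + 1) := by constructor <;> linarith
  have hK0' : 2 * R ∈ Icc (-(3 * R + 1)) (3 * R + 1) := by constructor <;> linarith
  have s0 : ∀ i, σ 0 i = -1 := by
    obtain ⟨y₁, y₂, h1, h2, h3, h4, h5⟩ := Geo_end (F := F) (f := f) (σ := σ 0) (nn := nn) fm hY1 hη0
      (hY _ hK0) (fK3 _ hK0) ((hBrs 0).mono _ hx0) ((hBrs 0).root _ hx0)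
      (ffar _ (by rw [abs_neg, abs_of_pos (by linarith)]; linarith)).2
      (fK1 _ (hsub 0 _ hx0)).2 (hσ2 0 _ hx0)
    have h6 := (hl (-(2 * R)) (by linarith)).2 y₁ y₂ h1 h2 h3
    rw [← h5, h4] at h6
    have h7 := Geo_one (fun i => -σ 0 i) (by
      intro i
      rcases hσ1 0 i with h | h
      · right; rw [h]
      · left; rw [h]; norm_num) (by rw [Finset.sum_neg_distrib, h6]; simp)
    intro i
    have := h7 i
    linarith
  have sl1 : ∀ i, σ (Fin.last M) i = 1 := by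
    obtain ⟨y₁, y₂, h1, h2, h3, h4, h5⟩ := Geo_end (F := F) (f := f) (σ := σ (Fin.last M)) (nn := nn)
      fm hY1 hη0
      (hY _ hK0') (fK3 _ hK0') ((hBrs (Fin.last M)).mono _ hx1) ((hBrs (Fin.last M)).root _ hx1)
      (ffar _ (by rw [abs_of_pos (by linarith)]; linarith)).2
      (fK1 _ (hsub (Fin.last M) _ hx1)).2 (hσ2 (Fin.last M) _ hx1)
    have h6 := (hr (2 * R) (by linarith)).2 y₁ y₂ h1 h2 h3
    rw [← h5, h4] at h6
    exact Geo_one (σ (Fin.last M)) (hσ1 _) h6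
  refine ⟨f, δ, η, δ / 4, m, ψ, σ, by linarith, ?_⟩
  refine
    { hM := hM
      hc := hc
      monic := fm
      deg := fd
      td := ftd
      lfs := flfs
      lfn := flfn
      far := ffar
      pos := ⟨hδ0', by linarith, hη0⟩
      sep := sep
      bd := bd
      brs := hBrs
      simple := simple
      slab := ?_
      disj := disj
      Fne := Fne
      sgn := hσ1
      relR := ?_
      relL := ?_
      s0 := s0
      sl := sl1 }
  · intro s x y hx hy
    by_contra hcon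
    push Not at hcon
    have hxK : x ∈ Icc (-(3 * R + 1)) (3 * R + 1) := by
      have h1 := abs_le.1 hx
      have h2 := bd s
      constructor <;> linarith
    have hy' := fK3 x hxK y hy
    have hq : ((x, y) : ℝ × ℝ) ∈ (⋃ s : Fin M, (Icc (β s - δ) (β s + δ)) ×ˢ
        (Icc (-Y) Y ∩ ⋂ φ ∈ (sl F (β s)).roots.toFinset, {y : ℝ | η ≤ |y - φ|})) := by
      refine mem_iUnion.2 ⟨s, ?_, ?_, ?_⟩
      · have h1 := abs_le.1 hx
        constructor <;> simp only <;> linarith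
      · have := abs_lt.1 hy'
        exact ⟨this.1.le, this.2.le⟩
      · refine mem_iInter₂.2 fun φ hφ => ?_
        exact hcon φ ((Geo_mem hD.monic _ _).1 (Multiset.mem_toFinset.1 hφ))
    have h1 := fK2 _ hq
    simp only at h1
    rw [hy, mul_zero] at h1
    exact lt_irrefl _ h1
  · intro s φ hφ x hx
    refine hσ2 s.succ x ⟨?_, ?_⟩ (φ - η) (φ + η) (by linarith) ?_
    · rw [Geo_LO_succ]; linarith [hx.1]
    · linarith [hx.2, pos4 s]
    · intro ρ hρ
      have h := dist s x φ (habs s x ⟨by linarith [hx.1], hx.2⟩) hφ ρ hρ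
      exact ⟨h.1.le, h.2.le⟩
  · intro s φ hφ x hx
    refine hσ2 s.castSucc x ⟨?_, ?_⟩ (φ - η) (φ + η) (by linarith) ?_
    · linarith [hx.1, pos5 s]
    · rw [Geo_HI_castSucc]; linarith [hx.2]
    · intro ρ hρ
      have h := dist s x φ (habs s x ⟨hx.1, by linarith [hx.2]⟩) hφ ρ hρ
      exact ⟨h.1.le, h.2.le⟩

theorem thm_Geo : St_Fac → St_Good → St_Pert → St_Br → St_Sig → St_Slab → St_Geo := by
  intro hFac hGood hPert hBr hSig hSlab c F w nn hD hc
  classical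
  obtain ⟨N, G, hP, hirr⟩ := hFac c F hD.monic hD.deg hD.td
  obtain ⟨B₁, hB₁⟩ := hGood N G hP.monic hirr
  obtain ⟨Mr, hMr⟩ := hD.right
  obtain ⟨Ml, hMl⟩ := hD.left
  obtain ⟨M, β, hM, hβ, hβB⟩ : ∃ (M : ℕ) (β : Fin M → ℝ), 1 ≤ M ∧ StrictMono β ∧
      ∀ x ∈ insert 0 (B₁ ∪ w.support.image Complex.re), ∃ s, x = β s := by
    set B : Finset ℝ := insert 0 (B₁ ∪ w.support.image Complex.re) with hB
    refine ⟨B.card, B.orderEmbOfFin rfl, ?_, (B.orderEmbOfFin rfl).strictMono, ?_⟩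
    · exact Finset.card_pos.2 ⟨0, Finset.mem_insert_self _ _⟩
    · intro x hx
      have h : x ∈ Set.range (B.orderEmbOfFin rfl) := by
        rw [Finset.range_orderEmbOfFin]
        exact hx
      obtain ⟨s, hs⟩ := h
      exact ⟨s, hs.symm⟩
  have hw : ∀ z ∈ w.support, ∃ s, z.re = β s := by
    intro z hz
    exact hβB z.re (Finset.mem_insert_of_mem (Finset.mem_union_right _
      (Finset.mem_image_of_mem _ hz)))
  have hsum : 0 ≤ ∑ s, |β s| := Finset.sum_nonneg fun s _ => abs_nonneg _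
  refine ⟨M, β, |Mr| + |Ml| + ∑ s, |β s| + 2, hw, ?_⟩
  refine Geo_core hPert hBr hSig hSlab c F w nn hD hc N G hP M β _ hM hβ ?_ ?_ ?_ hw ?_ ?_
  · intro s
    have h1 := Finset.single_le_sum (f := fun s => |β s|) (fun s _ => abs_nonneg _)
      (Finset.mem_univ s)
    linarith [abs_nonneg Mr, abs_nonneg Ml]
  · linarith [abs_nonneg Mr, abs_nonneg Ml]
  · intro x hx
    refine hB₁ x fun hxB => ?_
    obtain ⟨s, hs⟩ := hβB x (Finset.mem_insert_of_mem (Finset.mem_union_left _ hxB))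
    exact hx s hs
  · intro x hx
    exact hMr x (by linarith [le_abs_self Mr, abs_nonneg Ml])
  · intro x hx
    exact hMl x (by linarith [neg_abs_le Ml, abs_nonneg Mr])

end Pool.Agent.NCC
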