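import Pool.Agent.NCC.StA

/-!
# NCC, module Good : good abscissas
-/

set_option autoImplicit false

namespace Pool.Agent.NCC

open Polynomial

/-- the value as a ring homomorphism -/
private noncomputable def Good_ev (x y : ℝ) : BP →+* ℝ :=
  (evalRingHom y).comp (mapRingHom (evalRingHom x))

private lemma Good_ev_apply (F : BP) (x y : ℝ) : Good_ev x y F = ev F x y := rfl

private lemma Good_ev_C (w : ℝ[X]) (x y : ℝ) : ev (C w) x y = w.eval x := by
  unfold ev sl
  rw [map_C, eval_C]
  rfl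

/-- elimination of `y` -/
private lemma Good_elim (G H : BP) (hG : G.Monic) (hI : Irreducible G) (hd : ¬ G ∣ H) :
    ∃ w : ℝ[X], w ≠ 0 ∧ ∀ x y : ℝ, ev G x y = 0 → ev H x y = 0 → w.eval x = 0 := by
  have hinj : Function.Injective (algebraMap ℝ[X] (FractionRing ℝ[X])) :=
    IsFractionRing.injective ℝ[X] (FractionRing ℝ[X])
  have hI' : Irreducible (G.map (algebraMap ℝ[X] (FractionRing ℝ[X]))) :=
    (hG.irreducible_iff_irreducible_map_fraction_map).1 hI
  have hd' : ¬ G.map (algebraMap ℝ[X] (FractionRing ℝ[X])) ∣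
      H.map (algebraMap ℝ[X] (FractionRing ℝ[X])) := by
    rw [map_dvd_map _ hinj hG]
    exact hd
  have hc : IsCoprime (G.map (algebraMap ℝ[X] (FractionRing ℝ[X])))
      (H.map (algebraMap ℝ[X] (FractionRing ℝ[X]))) := (hI'.coprime_iff_not_dvd).2 hd'
  obtain ⟨u, v, huv⟩ := hc
  obtain ⟨b₁, hb₁, e₁⟩ := IsLocalization.integerNormalization_spec (nonZeroDivisors ℝ[X]) u
  obtain ⟨b₂, hb₂, e₂⟩ := IsLocalization.integerNormalization_spec (nonZeroDivisors ℝ[X]) v
  generalize IsLocalization.integerNormalization (nonZeroDivisors ℝ[X]) u = u' at e₁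
  generalize IsLocalization.integerNormalization (nonZeroDivisors ℝ[X]) v = v' at e₂
  have hb₁0 : b₁ ≠ 0 := nonZeroDivisors.ne_zero hb₁
  have hb₂0 : b₂ ≠ 0 := nonZeroDivisors.ne_zero hb₂
  refine ⟨b₁ * b₂, mul_ne_zero hb₁0 hb₂0, ?_⟩
  have key : C b₂ * u' * G + C b₁ * v' * H = C (b₁ * b₂) := by
    apply map_injective _ hinj
    rw [Polynomial.map_add, Polynomial.map_mul, Polynomial.map_mul, Polynomial.map_mul,
      Polynomial.map_mul, e₁, e₂, map_C, map_C, map_C, algebra_compatible_smul (FractionRing ℝ[X]) b₁ u,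
      algebra_compatible_smul (FractionRing ℝ[X]) b₂ v, smul_eq_C_mul, smul_eq_C_mul, map_mul, C_mul]
    linear_combination (C (algebraMap ℝ[X] (FractionRing ℝ[X]) b₁) *
      C (algebraMap ℝ[X] (FractionRing ℝ[X]) b₂)) * huv
  intro x y hx hy
  have h := congrArg (Good_ev x y) key
  rw [map_add, map_mul, map_mul _ _ H, Good_ev_apply G, Good_ev_apply H, hx, hy, mul_zero, mul_zero,
    add_zero, Good_ev_apply, Good_ev_C] at h
  exact h.symm

theorem thm_Good : St_Good := by
  classical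
  intro N G hM hI
  have hpos : ∀ r, 0 < (G r).natDegree := by
    intro r
    rcases Nat.eq_zero_or_pos (G r).natDegree with h | h
    · exact absurd (((hM r).natDegree_eq_zero.1 h) ▸ hI r) not_irreducible_one
    · exact h
  have h1 : ∀ r, ∃ w : ℝ[X], w ≠ 0 ∧
      ∀ x y : ℝ, ev (G r) x y = 0 → ev (derivative (G r)) x y = 0 → w.eval x = 0 := by
    intro r
    refine Good_elim (G r) _ (hM r) (hI r) ?_
    apply (hM r).not_dvd_of_degree_lt
    · intro h0
      have := derivative_eq_zero.1 h0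
      exact (hpos r).ne' this
    · exact degree_derivative_lt (hM r).ne_zero
  have h2 : ∀ r r', ∃ w : ℝ[X], w ≠ 0 ∧
      ∀ x y : ℝ, G r ≠ G r' → ev (G r) x y = 0 → ev (G r') x y = 0 → w.eval x = 0 := by
    intro r r'
    by_cases h : G r = G r'
    · exact ⟨1, one_ne_zero, fun _ _ hne _ _ => absurd h hne⟩
    · obtain ⟨w, hw, hall⟩ := Good_elim (G r) (G r') (hM r) (hI r) (by
        intro hdv
        exact h (eq_of_monic_of_associated (hM r) (hM r')
          ((hI r).associated_of_dvd (hI r') hdv)))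
      exact ⟨w, hw, fun x y _ => hall x y⟩
  choose w₁ hw₁ hall₁ using h1
  choose w₂ hw₂ hall₂ using h2
  refine ⟨(Finset.univ.biUnion fun r => (w₁ r).roots.toFinset) ∪
    (Finset.univ.biUnion fun r => Finset.univ.biUnion fun r' => (w₂ r r').roots.toFinset), ?_⟩
  intro x hx
  refine ⟨?_, ?_⟩
  · intro r y h hz
    apply hx
    refine Finset.mem_union_left _ (Finset.mem_biUnion.2 ⟨r, Finset.mem_univ _, ?_⟩)
    rw [Multiset.mem_toFinset, mem_roots (hw₁ r)]
    exact hall₁ r x y h hz
  · intro r r' hne y h hz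
    apply hx
    refine Finset.mem_union_right _ (Finset.mem_biUnion.2 ⟨r, Finset.mem_univ _,
      Finset.mem_biUnion.2 ⟨r', Finset.mem_univ _, ?_⟩⟩)
    rw [Multiset.mem_toFinset, mem_roots (hw₂ r r')]
    exact hall₂ r r' x y hne h hz

end Pool.Agent.NCC
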