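import Pool.Agent.NCC.StB

/-!
# NCC Gt : adding a tail
-/

set_option autoImplicit false

namespace Pool.Agent.NCC

open Polynomial Filter Topology Set

private theorem Gt_ev (g : BP) (x y : ℝ) :
    ev g x y = ∑ j ∈ Finset.range (g.natDegree + 1), (g.coeff j).eval x * y ^ j := by
  unfold ev sl
  rw [eval_eq_sum_range' (n := g.natDegree + 1)
    (lt_of_le_of_lt natDegree_map_le (Nat.lt_succ_self _))]
  simp [coeff_map]

private theorem Gt_add (g h : BP) (x y : ℝ) : ev (g + h) x y = ev g x y + ev h x y := by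
  unfold ev sl
  simp

private theorem Gt_tail (a : ℝ[X]) (h : BP) (x y : ℝ) :
    ev (C a * h) x y = a.eval x * ev h x y := by
  unfold ev sl
  simp

private theorem Gt_L1 (p : ℝ[X]) :
    ∃ (A : ℝ) (d : ℕ), 0 ≤ A ∧ ∀ x : ℝ, |p.eval x| ≤ A * (1 + |x|) ^ d := by
  refine ⟨∑ j ∈ Finset.range (p.natDegree + 1), |p.coeff j|, p.natDegree, by positivity,
    fun x => ?_⟩
  rw [eval_eq_sum_range, Finset.sum_mul]
  refine (Finset.abs_sum_le_sum_abs _ _).trans (Finset.sum_le_sum fun j hj => ?_)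
  rw [abs_mul, abs_pow]
  have hj' : j ≤ p.natDegree := Nat.lt_succ_iff.1 (Finset.mem_range.1 hj)
  have h1 : |x| ^ j ≤ (1 + |x|) ^ j := pow_le_pow_left₀ (abs_nonneg x) (by linarith) j
  have h2 : (1 + |x|) ^ j ≤ (1 + |x|) ^ p.natDegree :=
    pow_le_pow_right₀ (by linarith [abs_nonneg x]) hj'
  exact mul_le_mul_of_nonneg_left (h1.trans h2) (abs_nonneg _)

private theorem Gt_L2 (g : BP) :
    ∃ (A : ℝ) (d e : ℕ), 0 ≤ A ∧ ∀ x y : ℝ, |ev g x y| ≤ A * (1 + |x|) ^ d * (1 + |y|) ^ e := by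
  choose A d hA hb using fun j => Gt_L1 (g.coeff j)
  refine ⟨∑ j ∈ Finset.range (g.natDegree + 1), A j,
    ∑ j ∈ Finset.range (g.natDegree + 1), d j, g.natDegree,
    Finset.sum_nonneg (fun j _ => hA j), fun x y => ?_⟩
  rw [Gt_ev, Finset.sum_mul, Finset.sum_mul]
  refine (Finset.abs_sum_le_sum_abs _ _).trans (Finset.sum_le_sum fun j hj => ?_)
  rw [abs_mul, abs_pow]
  have hj' : j ≤ g.natDegree := Nat.lt_succ_iff.1 (Finset.mem_range.1 hj)
  have h1 : |y| ^ j ≤ (1 + |y|) ^ g.natDegree :=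
    (pow_le_pow_left₀ (abs_nonneg y) (by linarith) j).trans
      (pow_le_pow_right₀ (by linarith [abs_nonneg y]) hj')
  have h2 : (1 + |x|) ^ d j ≤ (1 + |x|) ^ (∑ j ∈ Finset.range (g.natDegree + 1), d j) :=
    pow_le_pow_right₀ (by linarith [abs_nonneg x])
      (Finset.single_le_sum (fun _ _ => Nat.zero_le _) hj)
  have h3 : |(g.coeff j).eval x| ≤
      A j * (1 + |x|) ^ (∑ j ∈ Finset.range (g.natDegree + 1), d j) :=
    (hb j x).trans (mul_le_mul_of_nonneg_left h2 (hA j))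
  exact mul_le_mul h3 h1 (by positivity) (mul_nonneg (hA j) (by positivity))

private theorem Gt_L3 (f : BP) (hf : f.Monic) (hc : 1 ≤ f.natDegree) :
    ∃ (A : ℝ) (d : ℕ), 0 ≤ A ∧ ∀ x y : ℝ, ev f x y = 0 → |y| ≤ A * (1 + |x|) ^ d := by
  choose A d hA hb using fun j => Gt_L1 (f.coeff j)
  refine ⟨1 + ∑ j ∈ Finset.range f.natDegree, A j, ∑ j ∈ Finset.range f.natDegree, d j,
    add_nonneg zero_le_one (Finset.sum_nonneg (fun j _ => hA j)), fun x y h0 => ?_⟩
  have hx1 : (1 : ℝ) ≤ 1 + |x| := by linarith [abs_nonneg x]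
  have hpow : (1 : ℝ) ≤ (1 + |x|) ^ (∑ j ∈ Finset.range f.natDegree, d j) := one_le_pow₀ hx1
  have hS : 0 ≤ ∑ j ∈ Finset.range f.natDegree, A j := Finset.sum_nonneg (fun j _ => hA j)
  rcases le_total |y| 1 with hy | hy
  · calc |y| ≤ 1 * 1 := by linarith
      _ ≤ (1 + ∑ j ∈ Finset.range f.natDegree, A j) *
          (1 + |x|) ^ (∑ j ∈ Finset.range f.natDegree, d j) := by
        apply mul_le_mul (by linarith) hpow zero_le_one (by linarith)
  · rw [Gt_ev, Finset.sum_range_succ] at h0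
    have hl : f.coeff f.natDegree = 1 := hf
    rw [hl, eval_one, one_mul] at h0
    have h1 : |y| ^ f.natDegree ≤
        (∑ j ∈ Finset.range f.natDegree, A j * (1 + |x|) ^ d j) * |y| ^ (f.natDegree - 1) := by
      have e : y ^ f.natDegree = - ∑ j ∈ Finset.range f.natDegree, (f.coeff j).eval x * y ^ j := by
        linarith
      rw [← abs_pow, e, abs_neg, Finset.sum_mul]
      refine (Finset.abs_sum_le_sum_abs _ _).trans (Finset.sum_le_sum fun j hj => ?_)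
      rw [abs_mul, abs_pow]
      have hj' : j ≤ f.natDegree - 1 := by
        have := Finset.mem_range.1 hj
        omega
      exact mul_le_mul (hb j x) (pow_le_pow_right₀ hy hj') (by positivity)
        (mul_nonneg (hA j) (by positivity))
    have h2 : |y| ^ f.natDegree = |y| * |y| ^ (f.natDegree - 1) := by
      rw [← pow_succ', Nat.sub_add_cancel hc]
    rw [h2] at h1
    have h3 : |y| ≤ ∑ j ∈ Finset.range f.natDegree, A j * (1 + |x|) ^ d j :=
      le_of_mul_le_mul_right h1 (by positivity)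
    refine h3.trans ?_
    have h4 : ∑ j ∈ Finset.range f.natDegree, A j * (1 + |x|) ^ d j ≤
        (∑ j ∈ Finset.range f.natDegree, A j) *
          (1 + |x|) ^ (∑ j ∈ Finset.range f.natDegree, d j) := by
      rw [Finset.sum_mul]
      refine Finset.sum_le_sum fun j hj => ?_
      exact mul_le_mul_of_nonneg_left (pow_le_pow_right₀ hx1
        (Finset.single_le_sum (fun _ _ => Nat.zero_le _) hj)) (hA j)
    refine h4.trans ?_
    apply mul_le_mul_of_nonneg_right (by linarith) (by positivity)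

private theorem Gt_L4 (f g : BP) (hf : f.Monic) (hc : 1 ≤ f.natDegree) :
    ∃ (A : ℝ) (d : ℕ), 0 ≤ A ∧ ∀ x y : ℝ, ev f x y = 0 → |ev g x y| ≤ A * (1 + |x|) ^ d := by
  obtain ⟨A, d, e, hA, h1⟩ := Gt_L2 g
  obtain ⟨B, d', hB, h2⟩ := Gt_L3 f hf hc
  refine ⟨A * (1 + B) ^ e, d + d' * e, by positivity, fun x y h0 => ?_⟩
  have hx1 : (1 : ℝ) ≤ 1 + |x| := by linarith [abs_nonneg x]
  have h3 : 1 + |y| ≤ (1 + B) * (1 + |x|) ^ d' := by
    have := h2 x y h0
    have h4 : (1 : ℝ) ≤ (1 + |x|) ^ d' := one_le_pow₀ hx1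
    nlinarith
  have h5 : (1 + |y|) ^ e ≤ ((1 + B) * (1 + |x|) ^ d') ^ e :=
    pow_le_pow_left₀ (by positivity) h3 e
  calc |ev g x y| ≤ A * (1 + |x|) ^ d * (1 + |y|) ^ e := h1 x y
    _ ≤ A * (1 + |x|) ^ d * ((1 + B) * (1 + |x|) ^ d') ^ e :=
      mul_le_mul_of_nonneg_left h5 (by positivity)
    _ = A * (1 + B) ^ e * (1 + |x|) ^ (d + d' * e) := by
      rw [mul_pow, pow_add, pow_mul]
      ring

private theorem Gt_CD (g : BP) (ψ : ℝ → ℝ) (U : Set ℝ) (h : ContDiffOn ℝ 1 ψ U) :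
    ContDiffOn ℝ 1 (fun x => ev g x (ψ x)) U := by
  have e : (fun x => ev g x (ψ x)) =
      fun x => ∑ j ∈ Finset.range (g.natDegree + 1), (g.coeff j).eval x * (ψ x) ^ j :=
    funext fun x => Gt_ev g x (ψ x)
  rw [e]
  refine ContDiffOn.sum fun j _ => ?_
  exact ((g.coeff j).contDiff_aeval 1 |>.contDiffOn).mul (h.pow j)

private theorem Gt_bd (F : ℝ → ℝ) (α β a b : ℝ) (h1 : α < a) (h2 : b < β)
    (hF : ContDiffOn ℝ 1 F (Ioo α β)) : ∃ B : ℝ, ∀ x ∈ Icc a b, |deriv F x| ≤ B := by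
  have hc : ContinuousOn (deriv F) (Ioo α β) := hF.continuousOn_deriv_of_isOpen isOpen_Ioo le_rfl
  obtain ⟨B, hB⟩ := isCompact_Icc.exists_bound_of_continuousOn
    (hc.mono (fun x (hx : x ∈ Icc a b) => ⟨h1.trans_le hx.1, hx.2.trans_lt h2⟩))
  exact ⟨B, fun x hx => hB x hx⟩

private theorem Gt_Z (h : ℝ → ℝ) (a b : ℝ) (hab : a < b)
    (hd : ∀ x ∈ Icc a b, DifferentiableAt ℝ h x) (ha : 0 < h a) (hb : h b < 0)
    (hz : ∀ x ∈ Icc a b, h x = 0 → deriv h x < 0) :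
    ∃ x₁ ∈ Ioo a b, h x₁ = 0 ∧ deriv h x₁ < 0 ∧ ∀ x ∈ Icc a b, h x = 0 → x = x₁ := by
  have hcont : ContinuousOn h (Icc a b) := fun x hx => (hd x hx).continuousAt.continuousWithinAt
  obtain ⟨x₁, hx₁, h0⟩ := intermediate_value_Icc' hab.le hcont ⟨hb.le, ha.le⟩
  have key : ∀ x y, x ∈ Icc a b → y ∈ Icc a b → h x = 0 → h y = 0 → ¬ x < y := by
    intro x y hx hy hx0 hy0 hxy
    have hsub : ∀ t ∈ Icc x y, t ∈ Icc a b := fun t ht => ⟨hx.1.trans ht.1, ht.2.trans hy.2⟩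
    have h1 : ∀ ⦃t⦄, t ∈ Icc x y → h t ≤ (fun _ => (0 : ℝ)) t := by
      refine image_le_of_deriv_right_lt_deriv_boundary' (f' := deriv h) (B' := fun _ => 0)
        (hcont.mono hsub) ?_ (by rw [hx0]) continuousOn_const ?_ ?_
      · intro t ht
        exact (hd t (hsub t (Ico_subset_Icc_self ht))).hasDerivAt.hasDerivWithinAt
      · intro t _
        exact hasDerivWithinAt_const _ _ _
      · intro t ht h2
        exact hz t (hsub t (Ico_subset_Icc_self ht)) h2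
    have h2 := (hd y hy).hasDerivAt
    have h3 : Tendsto (slope h y) (𝓝[<] y) (𝓝 (deriv h y)) :=
      (hasDerivAt_iff_tendsto_slope.1 h2).mono_left
        (nhdsWithin_mono y (fun t (ht : t < y) => ht.ne))
    have h4 : 0 ≤ deriv h y := by
      refine ge_of_tendsto h3 ?_
      filter_upwards [Ioo_mem_nhdsLT hxy] with t ht
      rw [slope_def_field, hy0, sub_zero]
      have h5 : h t ≤ 0 := h1 ⟨ht.1.le, ht.2.le⟩
      exact div_nonneg_of_nonpos h5 (by linarith [ht.2])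
    exact absurd (hz y hy hy0) (not_lt.2 h4)
  refine ⟨x₁, ⟨?_, ?_⟩, h0, hz x₁ hx₁ h0, fun x hx hx0 => ?_⟩
  · rcases hx₁.1.lt_or_eq with h | h
    · exact h
    · rw [← h] at h0
      exact absurd h0 ha.ne'
  · rcases hx₁.2.lt_or_eq with h | h
    · exact h
    · rw [h] at h0
      exact absurd h0 hb.ne
  · rcases lt_trichotomy x x₁ with h | h | h
    · exact absurd h (key x x₁ hx hx₁ hx0 h0)
    · exact h
    · exact absurd h (key x₁ x hx₁ hx h0 hx0)

private theorem Gt_Z' (h : ℝ → ℝ) (a b : ℝ) (hab : a < b)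
    (hd : ∀ x ∈ Icc a b, DifferentiableAt ℝ h x) (ha : h a < 0) (hb : 0 < h b)
    (hz : ∀ x ∈ Icc a b, h x = 0 → 0 < deriv h x) :
    ∃ x₁ ∈ Ioo a b, h x₁ = 0 ∧ 0 < deriv h x₁ ∧ ∀ x ∈ Icc a b, h x = 0 → x = x₁ := by
  have hdn : ∀ x, deriv (fun t => - h t) x = - deriv h x := fun x => deriv.fun_neg
  obtain ⟨x₁, hx, h0, h1, h2⟩ := Gt_Z (fun t => - h t) a b hab (fun x hx => (hd x hx).neg)
    (by simpa using ha) (by simpa using hb) (fun x hx h0 => by
      rw [hdn]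
      have := hz x hx (by simpa using h0)
      linarith)
  rw [hdn] at h1
  exact ⟨x₁, hx, by simpa using h0, by linarith, fun x hx h => h2 x hx (by simpa using h)⟩

/-! ### the strips -/

private theorem Gt_LOs {M : ℕ} (β : Fin M → ℝ) (δ R : ℝ) (s : Fin M) :
    LO β δ R s.succ = β s + δ / 2 := rfl

private theorem Gt_LO0 {M : ℕ} (β : Fin M → ℝ) (δ R : ℝ) : LO β δ R 0 = -(3 * R) := rfl

private theorem Gt_LOs' {M : ℕ} (β : Fin M → ℝ) (δ R : ℝ) (s : Fin M) :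
    LO' β δ R s.succ = β s + δ := rfl

private theorem Gt_LO0' {M : ℕ} (β : Fin M → ℝ) (δ R : ℝ) : LO' β δ R 0 = -(3 * R) := rfl

private theorem Gt_HIs {M : ℕ} (β : Fin M → ℝ) (δ R : ℝ) (s : Fin M) :
    HI β δ R s.castSucc = β s - δ / 2 := by
  unfold HI
  rw [Fin.lastCases_castSucc]

private theorem Gt_HIl {M : ℕ} (β : Fin M → ℝ) (δ R : ℝ) : HI β δ R (Fin.last M) = 3 * R := by
  unfold HI
  rw [Fin.lastCases_last]

private theorem Gt_HIs' {M : ℕ} (β : Fin M → ℝ) (δ R : ℝ) (s : Fin M) :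
    HI' β δ R s.castSucc = β s - δ := by
  unfold HI'
  rw [Fin.lastCases_castSucc]

private theorem Gt_HIl' {M : ℕ} (β : Fin M → ℝ) (δ R : ℝ) : HI' β δ R (Fin.last M) = 3 * R := by
  unfold HI'
  rw [Fin.lastCases_last]

private structure Gt_B {M : ℕ} (β : Fin M → ℝ) (δ R : ℝ) : Prop where
  pos : 0 < δ
  sep : ∀ s s' : Fin M, s < s' → β s + 2 * δ < β s'
  bd : ∀ s, -R + δ < β s ∧ β s < R - δ

private theorem Gt_leL {M : ℕ} (β : Fin M → ℝ) (δ R : ℝ) (h : Gt_B β δ R) (s : Fin (M + 1)) :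
    LO β δ R s ≤ LO' β δ R s := by
  have := h.pos
  rcases Fin.eq_zero_or_eq_succ s with rfl | ⟨j, rfl⟩
  · exact le_rfl
  · rw [Gt_LOs, Gt_LOs']
    linarith

private theorem Gt_leH {M : ℕ} (β : Fin M → ℝ) (δ R : ℝ) (h : Gt_B β δ R) (s : Fin (M + 1)) :
    HI' β δ R s ≤ HI β δ R s := by
  have := h.pos
  rcases Fin.eq_castSucc_or_eq_last s with ⟨j, rfl⟩ | rfl
  · rw [Gt_HIs, Gt_HIs']
    linarith
  · rw [Gt_HIl, Gt_HIl']

private theorem Gt_r {M : ℕ} (β : Fin M → ℝ) (δ R : ℝ) (h : Gt_B β δ R) (s : Fin M) :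
    β s + δ ≤ HI' β δ R s.succ := by
  have hp := h.pos
  have hb := h.bd s
  rcases Fin.eq_castSucc_or_eq_last s.succ with ⟨j, hj⟩ | hj
  · rw [hj, Gt_HIs']
    have hlt : s < j := by
      have h1 := congrArg Fin.val hj
      rw [Fin.val_succ, Fin.val_castSucc] at h1
      exact Fin.lt_def.2 (by omega)
    have := h.sep s j hlt
    linarith
  · rw [hj, Gt_HIl']
    linarith

private theorem Gt_l {M : ℕ} (β : Fin M → ℝ) (δ R : ℝ) (h : Gt_B β δ R) (s : Fin M) :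
    LO' β δ R s.castSucc ≤ β s - δ := by
  have hp := h.pos
  have hb := h.bd s
  rcases Fin.eq_zero_or_eq_succ s.castSucc with hj | ⟨j, hj⟩
  · rw [hj, Gt_LO0']
    linarith
  · rw [hj, Gt_LOs']
    have hlt : j < s := by
      have h1 := congrArg Fin.val hj
      rw [Fin.val_succ, Fin.val_castSucc] at h1
      exact Fin.lt_def.2 (by omega)
    have := h.sep j s hlt
    linarith

private theorem Gt_last {M : ℕ} (β : Fin M → ℝ) (δ R : ℝ) (h : Gt_B β δ R) (s : Fin (M + 1))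
    (x : ℝ) (hx : x ≤ HI β δ R s) (hR : R < x) : s = Fin.last M := by
  rcases Fin.eq_castSucc_or_eq_last s with ⟨j, rfl⟩ | h1
  · rw [Gt_HIs] at hx
    have := h.bd j
    have := h.pos
    linarith
  · exact h1

private theorem Gt_zero {M : ℕ} (β : Fin M → ℝ) (δ R : ℝ) (h : Gt_B β δ R) (s : Fin (M + 1))
    (x : ℝ) (hx : LO β δ R s ≤ x) (hR : x < -R) : s = 0 := by
  rcases Fin.eq_zero_or_eq_succ s with h1 | ⟨j, rfl⟩
  · exact h1
  · rw [Gt_LOs] at hx
    have := h.bd j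
    have := h.pos
    linarith

/-! ### the choice of the exponent -/

private theorem Gt_N (B B' κ R₀ A₁ κ' : ℝ) (E D₀ : ℕ) (hκ : 0 < κ) (hκ' : 0 < κ') :
    ∃ N : ℕ, D₀ ≤ N ∧ E ≤ 2 * N + 1 ∧ (4 / 5 : ℝ) ^ (2 * N + 1) * B < 1 / 4 ∧
      ((2 * N + 1 : ℕ) : ℝ) / R₀ * (4 / 5) ^ (2 * N) * B + (4 / 5) ^ (2 * N + 1) * B' < κ / 2 ∧
      A₁ * (12 / 5) ^ E < κ' * (12 / 5) ^ (2 * N + 1) := by
  have hr : ∀ N : ℕ, (4 / 5 : ℝ) ^ (2 * N) = (16 / 25) ^ N := by
    intro N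
    rw [pow_mul]
    norm_num
  have t0 : Tendsto (fun N : ℕ => (16 / 25 : ℝ) ^ N) atTop (𝓝 0) :=
    tendsto_pow_atTop_nhds_zero_of_lt_one (by norm_num) (by norm_num)
  have t1 : Tendsto (fun N : ℕ => (N : ℝ) * (16 / 25 : ℝ) ^ N) atTop (𝓝 0) :=
    tendsto_self_mul_const_pow_of_lt_one (by norm_num) (by norm_num)
  have a1 : Tendsto (fun N : ℕ => (4 / 5 : ℝ) ^ (2 * N + 1) * B) atTop (𝓝 0) := by
    have h := t0.mul_const (4 / 5 * B)
    rw [zero_mul] at h
    refine h.congr (fun N => ?_)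
    rw [pow_succ, hr]
    ring
  have a2 : Tendsto (fun N : ℕ => ((2 * N + 1 : ℕ) : ℝ) / R₀ * (4 / 5) ^ (2 * N) * B +
      (4 / 5) ^ (2 * N + 1) * B') atTop (𝓝 0) := by
    have h := ((t1.mul_const (2 / R₀ * B)).add (t0.mul_const (1 / R₀ * B))).add
      (t0.mul_const (4 / 5 * B'))
    rw [zero_mul, zero_mul, zero_mul, add_zero, add_zero] at h
    refine h.congr (fun N => ?_)
    rw [pow_succ, hr]
    push_cast
    ring
  have a3 : Tendsto (fun N : ℕ => (12 / 5 : ℝ) ^ (2 * N + 1)) atTop atTop := by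
    have h := tendsto_pow_atTop_atTop_of_one_lt (r := (12 / 5 : ℝ)) (by norm_num)
    refine h.comp (tendsto_atTop_mono (fun N => ?_) tendsto_id)
    show N ≤ 2 * N + 1
    omega
  have e1 := a1.eventually_lt_const (show (0 : ℝ) < 1 / 4 by norm_num)
  have e2 := a2.eventually_lt_const (show (0 : ℝ) < κ / 2 by linarith)
  have e3 := a3.eventually_gt_atTop (A₁ * (12 / 5) ^ E / κ')
  obtain ⟨N, h1, h2, h3, h4, h5⟩ := (e1.and (e2.and (e3.and
    ((eventually_ge_atTop D₀).and (eventually_ge_atTop E))))).exists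
  refine ⟨N, h4, by omega, h1, h2, ?_⟩
  rw [div_lt_iff₀ hκ'] at h3
  linarith

private theorem Gt_TD (g : BP) : ∃ D₀, ∀ n, D₀ ≤ n → TD g n := by
  refine ⟨∑ j ∈ Finset.range (g.natDegree + 1), ((g.coeff j).natDegree + j), fun n hn j hj => ?_⟩
  have hj' : j ∈ Finset.range (g.natDegree + 1) := by
    rw [Finset.mem_range]
    exact Nat.lt_succ_of_le (le_natDegree_of_ne_zero hj)
  exact (Finset.single_le_sum (f := fun j => (g.coeff j).natDegree + j)
    (fun _ _ => Nat.zero_le _) hj').trans hn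

/-- [Gt] -/
theorem thm_Gt : St_Gc → St_Low → St_Gt := by
  intro hGc hLow c M f β δ R τ m ψ γ hS
  obtain ⟨g₀, κ, hκ, G1, G2, G3, G4, G5⟩ := hGc c M f β δ R τ m ψ γ hS
  have hδ := hS.pos.1
  have hτ := hS.pos.2
  have hB : Gt_B β δ R := ⟨hS.pos.1, hS.sep, hS.bd⟩
  have hR : 0 < R := by
    have := hS.bd ⟨0, hS.hM⟩
    linarith
  obtain ⟨κ', K, hκ', hlow⟩ := hLow c f R hS.hc hS.monic hS.deg hR hS.far
  have hdeg : 1 ≤ f.natDegree := by
    rw [hS.deg]
    exact hS.hc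
  obtain ⟨A₀, D, hA₀, hbd0⟩ := Gt_L4 f g₀ hS.monic hdeg
  obtain ⟨A₂, D₂, hA₂, hbd2⟩ := Gt_L4 f (derivative f) hS.monic hdeg
  obtain ⟨B, hBf⟩ : ∃ B : ℝ, ∀ x y, |x| ≤ R → ev f x y = 0 → |ev (derivative f) x y| ≤ B := by
    refine ⟨A₂ * (1 + R) ^ D₂, fun x y hx h0 => (hbd2 x y h0).trans ?_⟩
    exact mul_le_mul_of_nonneg_left
      (pow_le_pow_left₀ (by positivity) (by linarith) _) hA₂
  have hmem : ∀ (s : Fin (M + 1)) (x : ℝ), x ∈ Icc (LO β δ R s) (HI β δ R s) →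
      x ∈ Ioo (LO β δ R s - τ) (HI β δ R s + τ) :=
    fun s x hx => ⟨by linarith [hx.1], by linarith [hx.2]⟩
  have hroot : ∀ (s : Fin (M + 1)) (i : Fin (m s)) (x : ℝ),
      x ∈ Icc (LO β δ R s) (HI β δ R s) → ev f x (ψ s i x) = 0 :=
    fun s i x hx => ((hS.brs s).root x (hmem s x hx) _).2 ⟨i, rfl⟩
  have hcd : ∀ (g : BP) (s : Fin (M + 1)) (i : Fin (m s)),
      ContDiffOn ℝ 1 (fun x => ev g x (ψ s i x)) (Ioo (LO β δ R s - τ) (HI β δ R s + τ)) :=
    fun g s i => Gt_CD g (ψ s i) _ ((hS.brs s).diff i)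
  have hdf : ∀ (g : BP) (s : Fin (M + 1)) (i : Fin (m s)) (x : ℝ),
      x ∈ Icc (LO β δ R s) (HI β δ R s) → DifferentiableAt ℝ (fun x => ev g x (ψ s i x)) x :=
    fun g s i x hx => ((hcd g s i).differentiableOn one_ne_zero).differentiableAt
      (isOpen_Ioo.mem_nhds (hmem s x hx))
  obtain ⟨B', hB'⟩ : ∃ B' : ℝ, ∀ (s : Fin (M + 1)) (i : Fin (m s)),
      ∀ x ∈ Icc (LO β δ R s) (HI β δ R s),
        |deriv (fun x' => ev (derivative f) x' (ψ s i x')) x| ≤ B' := by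
    have h1 : ∀ p : (Σ s : Fin (M + 1), Fin (m s)), ∃ b : ℝ,
        ∀ x ∈ Icc (LO β δ R p.1) (HI β δ R p.1),
          |deriv (fun x' => ev (derivative f) x' (ψ p.1 p.2 x')) x| ≤ b := fun p =>
      Gt_bd _ _ _ _ _ (by linarith) (by linarith) (hcd (derivative f) p.1 p.2)
    choose b hb using h1
    obtain ⟨B', hB'⟩ := Finite.exists_le b
    exact ⟨B', fun s i x hx => (hb ⟨s, i⟩ x hx).trans (hB' ⟨s, i⟩)⟩
  obtain ⟨D₀, hD₀⟩ := Gt_TD g₀
  obtain ⟨R₀, hR₀⟩ : ∃ R₀ : ℝ, R₀ = 5 * R / 4 := ⟨_, rfl⟩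
  have hR₀p : 0 < R₀ := by
    rw [hR₀]
    positivity
  obtain ⟨A₁, hA₁⟩ : ∃ A₁ : ℝ, A₁ = A₀ * (1 + (3 * R)⁻¹) ^ D := ⟨_, rfl⟩
  obtain ⟨N, hN1, hN2, hN3, hN4, hN5⟩ :=
    Gt_N B B' κ R₀ (A₁ * R₀ ^ (D + K)) κ' (D + K) D₀ hκ hκ'
  obtain ⟨lam, hlam⟩ : ∃ lam : ℝ, lam = -(R₀ ^ (2 * N + 1))⁻¹ := ⟨_, rfl⟩
  have hlam0 : lam ≠ 0 := by
    rw [hlam]
    exact neg_ne_zero.2 (inv_ne_zero (pow_ne_zero _ hR₀p.ne'))
  have hT : ∀ x : ℝ, lam * x ^ (2 * N + 1) = -(x / R₀) ^ (2 * N + 1) := by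
    intro x
    rw [hlam, div_pow]
    ring
  have hT' : ∀ x : ℝ, lam * (((2 * N + 1 : ℕ) : ℝ) * x ^ (2 * N)) =
      -(((2 * N + 1 : ℕ) : ℝ) / R₀ * (x / R₀) ^ (2 * N)) := by
    intro x
    rw [hlam, div_pow, pow_succ]
    field_simp
  have hxR : ∀ x : ℝ, |x| ≤ R → |x / R₀| ≤ 4 / 5 := by
    intro x hx
    rw [abs_div, abs_of_pos hR₀p, div_le_iff₀ hR₀p, hR₀]
    linarith
  obtain ⟨g, hg⟩ : ∃ g : BP, g = g₀ + C (C lam * X ^ (2 * N + 1)) * derivative f := ⟨_, rfl⟩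
  have hev : ∀ x y : ℝ, ev g x y = ev g₀ x y + lam * x ^ (2 * N + 1) * ev (derivative f) x y := by
    intro x y
    rw [hg, Gt_add, Gt_tail]
    simp
  have hsmall : ∀ x y : ℝ, |x| ≤ R → ev f x y = 0 →
      |lam * x ^ (2 * N + 1) * ev (derivative f) x y| < 1 / 4 := by
    intro x y hx h0
    refine lt_of_le_of_lt ?_ hN3
    rw [abs_mul, hT, abs_neg, abs_pow]
    exact mul_le_mul (pow_le_pow_left₀ (abs_nonneg _) (hxR x hx) _) (hBf x y hx h0)
      (abs_nonneg _) (by positivity)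
  -- signs for large `x`
  have hpos : ∀ x : ℝ, 0 < x → lam * x ^ (2 * N + 1) < 0 := by
    intro x hx
    rw [hT]
    have : 0 < (x / R₀) ^ (2 * N + 1) := by positivity
    linarith
  have hneg : ∀ x : ℝ, x < 0 → 0 < lam * x ^ (2 * N + 1) := by
    intro x hx
    rw [hT]
    have : (x / R₀) ^ (2 * N + 1) < 0 :=
      Odd.pow_neg ⟨N, rfl⟩ (div_neg_of_neg_of_pos hx hR₀p)
    linarith
  have H1 : ∀ s : Fin M, ∀ x ∈ Icc (β s - δ / 2) (β s + δ / 2), ∀ y, ev f x y = 0 →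
      0 < ev g x y := by
    intro s x hx y h0
    have hb := hS.bd s
    have hx' : |x| ≤ R := abs_le.2 ⟨by linarith [hx.1], by linarith [hx.2]⟩
    have h1 := G1 s x hx y h0
    have h2 := abs_lt.1 (hsmall x y hx' h0)
    rw [hev]
    linarith [h2.1]
  have hsgn : ∀ (s : Fin (M + 1)) (i : Fin (m s)) (x : ℝ),
      x ∈ Icc (LO β δ R s) (HI β δ R s) → R < |x| →
      0 < γ s i * (lam * x ^ (2 * N + 1) * ev (derivative f) x (ψ s i x)) := by
    intro s i x hx hRx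
    rcases lt_abs.1 hRx with h | h
    · obtain rfl := Gt_last β δ R hB s x hx.2 h
      have h1 := hS.right i x hx
      have h2 := hpos x (hR.trans h)
      have h3 := mul_pos_of_neg_of_neg h1 h2
      linarith [h3]
    · have h' : x < -R := by linarith
      obtain rfl := Gt_zero β δ R hB s x hx.1 h'
      have h1 := hS.left i x hx
      have h2 := hneg x (by linarith)
      have h3 := mul_pos h1 h2
      linarith [h3]
  have H2 : ∀ s i, γ s i = 1 → ∀ x ∈ Icc (LO β δ R s) (HI β δ R s), 0 < ev g x (ψ s i x) := by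
    intro s i hγ x hx
    have h1 := G2 s i hγ x hx
    rw [hev]
    rcases le_or_gt |x| R with h | h
    · have h2 := abs_lt.1 (hsmall x _ h (hroot s i x hx))
      linarith [h2.1]
    · have h2 := hsgn s i x hx h
      rw [hγ, one_mul] at h2
      linarith
  have H3 : ∀ s i, γ s i = -1 → ∀ x ∈ Icc (LO' β δ R s) (HI' β δ R s),
      ev g x (ψ s i x) < 0 := by
    intro s i hγ x hx
    have h1 := G3 s i hγ x hx
    have hx' : x ∈ Icc (LO β δ R s) (HI β δ R s) :=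
      ⟨(Gt_leL β δ R hB s).trans hx.1, hx.2.trans (Gt_leH β δ R hB s)⟩
    rw [hev]
    rcases le_or_gt |x| R with h | h
    · have h2 := abs_lt.1 (hsmall x _ h (hroot s i x hx'))
      linarith [h2.2]
    · have h2 := hsgn s i x hx' h
      rw [hγ] at h2
      linarith
  -- the derivative
  have hder : ∀ (s : Fin (M + 1)) (i : Fin (m s)) (x : ℝ),
      x ∈ Icc (LO β δ R s) (HI β δ R s) → |x| ≤ R →
      |deriv (fun x' => ev g x' (ψ s i x')) x - deriv (fun x' => ev g₀ x' (ψ s i x')) x| <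
        κ / 2 := by
    intro s i x hx hxr
    have e1 : (fun x' => ev g x' (ψ s i x')) = fun x' => ev g₀ x' (ψ s i x') +
        lam * x' ^ (2 * N + 1) * ev (derivative f) x' (ψ s i x') :=
      funext fun x' => hev x' _
    have d0 := (hdf g₀ s i x hx).hasDerivAt
    have d1 := (hdf (derivative f) s i x hx).hasDerivAt
    have d2 : HasDerivAt (fun x' : ℝ => lam * x' ^ (2 * N + 1))
        (lam * (((2 * N + 1 : ℕ) : ℝ) * x ^ (2 * N))) x := by
      have := (hasDerivAt_pow (2 * N + 1) x).const_mul lam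
      simpa using this
    have d3 := (d0.add (d2.mul d1)).deriv
    rw [e1]
    have e2 : deriv (fun x' => ev g₀ x' (ψ s i x') +
        lam * x' ^ (2 * N + 1) * ev (derivative f) x' (ψ s i x')) x =
        deriv (fun x' => ev g₀ x' (ψ s i x')) x +
        (lam * (((2 * N + 1 : ℕ) : ℝ) * x ^ (2 * N)) * ev (derivative f) x (ψ s i x) +
        lam * x ^ (2 * N + 1) * deriv (fun x' => ev (derivative f) x' (ψ s i x')) x) := d3
    rw [e2, add_sub_cancel_left]
    refine lt_of_le_of_lt ((abs_add_le _ _).trans (add_le_add ?_ ?_)) hN4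
    · rw [abs_mul, hT', abs_neg, abs_mul, abs_pow]
      have p1 : |((2 * N + 1 : ℕ) : ℝ) / R₀| = ((2 * N + 1 : ℕ) : ℝ) / R₀ :=
        abs_of_nonneg (by positivity)
      rw [p1]
      exact mul_le_mul (mul_le_mul_of_nonneg_left
        (pow_le_pow_left₀ (abs_nonneg _) (hxR x hxr) _) (by positivity))
        (hBf x _ hxr (hroot s i x hx)) (abs_nonneg _) (by positivity)
    · rw [abs_mul, hT, abs_neg, abs_pow]
      exact mul_le_mul (pow_le_pow_left₀ (abs_nonneg _) (hxR x hxr) _) (hB' s i x hx)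
        (abs_nonneg _) (by positivity)
  refine ⟨g, g₀, N, lam, hlam0, hD₀ _ ?_, hg, H1, H2, H3, ?_, ?_, ?_⟩
  · have := hS.hc
    omega
  · intro s i hγ
    have hb := hS.bd s
    have hr := Gt_r β δ R hB s
    have hH := Gt_leH β δ R hB s.succ
    have hsub : ∀ x ∈ Icc (β s + δ / 2) (β s + δ),
        x ∈ Icc (LO β δ R s.succ) (HI β δ R s.succ) := by
      intro x hx
      rw [Gt_LOs]
      exact ⟨hx.1, by linarith [hx.2]⟩
    refine Gt_Z (fun x' => ev g x' (ψ s.succ i x')) _ _ (by linarith)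
      (fun x hx => hdf g s.succ i x (hsub x hx)) ?_ ?_ ?_
    · exact H1 s _ ⟨by linarith, le_rfl⟩ _
        (hroot s.succ i _ (hsub _ ⟨le_rfl, by linarith⟩))
    · refine H3 s.succ i hγ _ ⟨?_, hr⟩
      rw [Gt_LOs']
    · intro x hx h0
      have hxr : |x| ≤ R := abs_le.2 ⟨by linarith [hx.1], by linarith [hx.2]⟩
      have h1 := abs_lt.1 (hsmall x _ hxr (hroot s.succ i x (hsub x hx)))
      have h2 : ev g x (ψ s.succ i x) = 0 := h0
      rw [hev] at h2
      have h3 := G4 s i hγ x hx (abs_le.2 ⟨by linarith [h1.2], by linarith [h1.1]⟩)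
      have h4 := abs_lt.1 (hder s.succ i x (hsub x hx) hxr)
      linarith [h4.2]
  · intro s i hγ
    have hb := hS.bd s
    have hl := Gt_l β δ R hB s
    have hL := Gt_leL β δ R hB s.castSucc
    have hsub : ∀ x ∈ Icc (β s - δ) (β s - δ / 2),
        x ∈ Icc (LO β δ R s.castSucc) (HI β δ R s.castSucc) := by
      intro x hx
      rw [Gt_HIs]
      exact ⟨by linarith [hx.1], hx.2⟩
    refine Gt_Z' (fun x' => ev g x' (ψ s.castSucc i x')) _ _ (by linarith)
      (fun x hx => hdf g s.castSucc i x (hsub x hx)) ?_ ?_ ?_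
    · refine H3 s.castSucc i hγ _ ⟨hl, ?_⟩
      rw [Gt_HIs']
    · exact H1 s _ ⟨le_rfl, by linarith⟩ _
        (hroot s.castSucc i _ (hsub _ ⟨by linarith, le_rfl⟩))
    · intro x hx h0
      have hxr : |x| ≤ R := abs_le.2 ⟨by linarith [hx.1], by linarith [hx.2]⟩
      have h1 := abs_lt.1 (hsmall x _ hxr (hroot s.castSucc i x (hsub x hx)))
      have h2 : ev g x (ψ s.castSucc i x) = 0 := h0
      rw [hev] at h2
      have h3 := G5 s i hγ x hx (abs_le.2 ⟨by linarith [h1.2], by linarith [h1.1]⟩)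
      have h4 := abs_lt.1 (hder s.castSucc i x (hsub x hx) hxr)
      linarith [h4.1]
  · intro x y hx h0 hgz
    have hxp : 0 < |x| := by linarith
    rw [hev] at hgz
    have h1 : |ev g₀ x y| = (|x| / R₀) ^ (2 * N + 1) * |ev (derivative f) x y| := by
      have e : ev g₀ x y = (x / R₀) ^ (2 * N + 1) * ev (derivative f) x y := by
        rw [hT] at hgz
        linarith
      rw [e, abs_mul, abs_pow, abs_div, abs_of_pos hR₀p]
    have h2 : |ev g₀ x y| ≤ A₁ * |x| ^ D := by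
      refine (hbd0 x y h0).trans ?_
      rw [hA₁, mul_assoc, ← mul_pow]
      refine mul_le_mul_of_nonneg_left (pow_le_pow_left₀ (by positivity) ?_ _) hA₀
      have h3 : 1 ≤ (3 * R)⁻¹ * |x| := by
        rw [inv_mul_eq_div, le_div_iff₀ (by positivity)]
        linarith
      linarith
    have h3 := hlow x y (by linarith) h0
    set v : ℝ := |x| / R₀ with hv
    have hxv : |x| = R₀ * v := by
      rw [hv]
      field_simp
    have hv1 : 12 / 5 ≤ v := by
      rw [hv, le_div_iff₀ hR₀p, hR₀]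
      linarith
    have hvp : 0 < v := by linarith
    have h4 : v ^ (2 * N + 1) * κ' ≤ A₁ * R₀ ^ (D + K) * v ^ (D + K) := by
      calc v ^ (2 * N + 1) * κ' ≤ v ^ (2 * N + 1) * (|x| ^ K * |ev (derivative f) x y|) :=
            mul_le_mul_of_nonneg_left h3 (by positivity)
        _ = |ev g₀ x y| * |x| ^ K := by
            rw [h1]
            ring
        _ ≤ A₁ * |x| ^ D * |x| ^ K := mul_le_mul_of_nonneg_right h2 (by positivity)
        _ = A₁ * R₀ ^ (D + K) * v ^ (D + K) := by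
            rw [hxv, mul_pow, mul_pow, pow_add, pow_add]
            ring
    have h5 : A₁ * R₀ ^ (D + K) * v ^ (D + K) < v ^ (2 * N + 1) * κ' := by
      have e1 : (12 / 5 : ℝ) ^ (2 * N + 1) = (12 / 5) ^ (D + K) * (12 / 5) ^ (2 * N + 1 - (D + K)) := by
        rw [← pow_add]
        congr 1
        omega
      have e2 : v ^ (2 * N + 1) = v ^ (D + K) * v ^ (2 * N + 1 - (D + K)) := by
        rw [← pow_add]
        congr 1
        omega
      rw [e1] at hN5
      have e3 : A₁ * R₀ ^ (D + K) < κ' * (12 / 5) ^ (2 * N + 1 - (D + K)) := by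
        have e4 : (0 : ℝ) < (12 / 5) ^ (D + K) := by positivity
        refine lt_of_mul_lt_mul_right ?_ e4.le
        calc A₁ * R₀ ^ (D + K) * (12 / 5) ^ (D + K) <
            κ' * ((12 / 5) ^ (D + K) * (12 / 5) ^ (2 * N + 1 - (D + K))) := hN5
          _ = _ := by ring
      have e5 : (12 / 5 : ℝ) ^ (2 * N + 1 - (D + K)) ≤ v ^ (2 * N + 1 - (D + K)) :=
        pow_le_pow_left₀ (by norm_num) hv1 _
      have e6 : A₁ * R₀ ^ (D + K) < κ' * v ^ (2 * N + 1 - (D + K)) :=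
        e3.trans_le (mul_le_mul_of_nonneg_left e5 hκ'.le)
      calc A₁ * R₀ ^ (D + K) * v ^ (D + K) <
          κ' * v ^ (2 * N + 1 - (D + K)) * v ^ (D + K) :=
            mul_lt_mul_of_pos_right e6 (by positivity)
        _ = v ^ (2 * N + 1) * κ' := by
            rw [e2]
            ring
    linarith

end Pool.Agent.NCC
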