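import Pool.Agent.NCC.StS

/-!
helper58. NCC, module Hilb: the Hilbert function.
-/

set_option autoImplicit false

namespace Pool.Agent.NCC

open MvPolynomial Module
open scoped ComplexConjugate

private theorem Hilb_deg (s : Fin 2 →₀ ℕ) : (s.sum fun _ e => e) = s 0 + s 1 := by
  rw [Finsupp.sum_fintype _ _ (fun _ => rfl), Fin.sum_univ_two]

/-- membership in `Pd N` -/
private theorem Hilb_mem (p : CP) (N : ℤ) : p ∈ Pd N ↔ p = 0 ∨ (p.totalDegree : ℤ) ≤ N := by
  unfold Pd
  rw [mem_restrictSupport_iff]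
  constructor
  · intro h
    by_cases hp : p = 0
    · exact Or.inl hp
    · right
      have hne : p.support.Nonempty := MvPolynomial.support_nonempty.2 hp
      obtain ⟨s, hs, hs2⟩ := Finset.exists_mem_eq_sup p.support hne
        (fun s : Fin 2 →₀ ℕ => s.sum fun _ e => e)
      have h1 : p.totalDegree = s 0 + s 1 := by
        rw [← Hilb_deg]
        exact hs2
      have h2 : ((s 0 + s 1 : ℕ) : ℤ) ≤ N := h hs
      rw [h1]
      exact h2
  · rintro (h | h)
    · rw [h]
      simp
    · intro s hs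
      have h1 := MvPolynomial.le_totalDegree (Finset.mem_coe.1 hs)
      rw [Hilb_deg] at h1
      show ((s 0 + s 1 : ℕ) : ℤ) ≤ N
      exact le_trans (by exact_mod_cast h1) h

private theorem Hilb_td {F : CP} {c : ℕ} (h1 : F.totalDegree ≤ c)
    (h0 : homogeneousComponent c F ≠ 0) : F ≠ 0 ∧ F.totalDegree = c := by
  constructor
  · rintro rfl
    exact h0 (map_zero _)
  · by_contra hc
    exact h0 (homogeneousComponent_eq_zero _ _ (by omega))

private theorem Hilb_mul {F : CP} {c : ℕ} (h1 : F.totalDegree ≤ c)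
    (h0 : homogeneousComponent c F ≠ 0) (u : CP) (N : ℤ) : u * F ∈ Pd N ↔ u ∈ Pd (N - c) := by
  obtain ⟨hF, hc⟩ := Hilb_td h1 h0
  by_cases hu : u = 0
  · rw [hu, zero_mul]
    exact ⟨fun _ => Submodule.zero_mem _, fun _ => Submodule.zero_mem _⟩
  · rw [Hilb_mem, Hilb_mem, totalDegree_mul_of_isDomain hu hF, hc]
    have hne : u * F ≠ 0 := mul_ne_zero hu hF
    simp only [hu, hne, false_or]
    push_cast
    constructor <;> intro h <;> linarith

/-- `F` and `G` are relatively prime -/
private theorem Hilb_rel (hT : St_Top) {F G : CP} {c d : ℕ} (h : Pair F G c d) :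
    IsRelPrime F G := by
  obtain ⟨hF, hc⟩ := Hilb_td h.hF h.F0
  obtain ⟨hG, hd⟩ := Hilb_td h.hG h.G0
  intro k hkF hkG
  have key : ∀ (H : CP) (e : ℕ), H ≠ 0 → H.totalDegree = e → k ∣ H →
      homogeneousComponent k.totalDegree k ∣ homogeneousComponent e H := by
    rintro H e hH he ⟨H', rfl⟩
    have hk0 : k ≠ 0 := fun h0 => hH (by rw [h0, zero_mul])
    have hH' : H' ≠ 0 := fun h0 => hH (by rw [h0, mul_zero])
    rw [totalDegree_mul_of_isDomain hk0 hH'] at he
    rw [← he, hT k H' _ _ le_rfl le_rfl]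
    exact dvd_mul_right _ _
  have hu := h.rel (key F c hF hc hkF) (key G d hG hd hkG)
  have hk0 : k ≠ 0 := by
    rintro rfl
    exact hF (zero_dvd_iff.1 hkF)
  have hdeg : k.totalDegree = 0 := by
    have h1 := (isUnit_iff_totalDegree_of_isReduced.1 hu).2
    have h2 := (homogeneousComponent_isHomogeneous k.totalDegree k).totalDegree hu.ne_zero
    rw [h2] at h1
    exact h1
  rw [isUnit_iff_totalDegree_of_isReduced]
  refine ⟨?_, hdeg⟩
  rw [totalDegree_eq_zero_iff_eq_C] at hdeg
  rw [isUnit_iff_ne_zero]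
  intro h0
  rw [h0, C_0] at hdeg
  exact hk0 hdeg

theorem thm_Hilb : St_Top → St_Red → St_DimP → St_Hilb := by
  intro hT hR hD F G c d h N
  obtain ⟨hF, hc⟩ := Hilb_td h.hF h.F0
  obtain ⟨hG, hd⟩ := Hilb_td h.hG h.G0
  have hrel := Hilb_rel hT h
  have i1 := (hD (N - c)).1
  have i2 := (hD (N - d)).1
  have i3 := (hD N).1
  have i4 := (hD (N - c - d)).1
  let f : (Pd (N - c) × Pd (N - d)) →ₗ[ℂ] CP :=
    LinearMap.coprod ((LinearMap.mulRight ℂ F).comp (Pd (N - c)).subtype)
      ((LinearMap.mulRight ℂ G).comp (Pd (N - d)).subtype)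
  have hf : ∀ x, f x = (x.1 : CP) * F + (x.2 : CP) * G := fun x => rfl
  have e1 := LinearMap.finrank_range_add_finrank_ker f
  rw [Module.finrank_prod, (hD (N - c)).2, (hD (N - d)).2] at e1
  -- the kernel
  have e2 : finrank ℂ (LinearMap.ker f) = DD (N - c - d) := by
    have m1 : ∀ w : Pd (N - c - d), (w : CP) * G ∈ Pd (N - c) := fun w => by
      rw [Hilb_mul h.hG h.G0]
      exact w.2
    have m2 : ∀ w : Pd (N - c - d), (w : CP) * (-F) ∈ Pd (N - d) := fun w => by
      rw [mul_neg]
      refine Submodule.neg_mem _ ?_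
      rw [Hilb_mul h.hF h.F0]
      have := w.2
      have e : N - (d : ℤ) - c = N - c - d := by ring
      rw [e]
      exact this
    let g : Pd (N - c - d) →ₗ[ℂ] (Pd (N - c) × Pd (N - d)) :=
      LinearMap.prod
        (LinearMap.codRestrict (Pd (N - c))
          ((LinearMap.mulRight ℂ G).comp (Pd (N - c - d)).subtype) m1)
        (LinearMap.codRestrict (Pd (N - d))
          ((LinearMap.mulRight ℂ (-F)).comp (Pd (N - c - d)).subtype) m2)
    have hg1 : ∀ w, ((g w).1 : CP) = (w : CP) * G := fun w => rfl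
    have hg2 : ∀ w, ((g w).2 : CP) = (w : CP) * (-F) := fun w => rfl
    have hginj : Function.Injective g := by
      intro w w' hw
      have h1 : (w : CP) * G = (w' : CP) * G := by rw [← hg1, ← hg1, hw]
      exact Subtype.ext (mul_right_cancel₀ hG h1)
    have hran : LinearMap.range g = LinearMap.ker f := by
      apply le_antisymm
      · rintro _ ⟨w, rfl⟩
        rw [LinearMap.mem_ker, hf, hg1, hg2]
        ring
      · rintro ⟨⟨u, hu⟩, ⟨v, hv⟩⟩ hx
        rw [LinearMap.mem_ker, hf] at hx
        simp only at hx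
        have h1 : G ∣ u * F := ⟨-v, by linear_combination hx⟩
        obtain ⟨w, hw⟩ := (hrel.symm).dvd_of_dvd_mul_right h1
        have h2 : v = w * (-F) := by
          apply mul_right_cancel₀ hG
          rw [hw] at hx
          linear_combination hx
        have hu' : u = w * G := by rw [hw]; ring
        have h3 : w ∈ Pd (N - c - d) := by
          rw [← Hilb_mul h.hG h.G0, ← hu']
          exact hu
        refine ⟨⟨w, h3⟩, ?_⟩
        refine Prod.ext (Subtype.ext ?_) (Subtype.ext ?_)
        · rw [hg1]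
          exact hu'.symm
        · rw [hg2]
          exact h2.symm
    rw [← hran, LinearMap.finrank_range_of_inj hginj, (hD (N - c - d)).2]
  -- the quotient map
  let k : Pd N →ₗ[ℂ] QQ F G := (mkq F G).toLinearMap.comp (Pd N).subtype
  have e3 := LinearMap.finrank_range_add_finrank_ker k
  rw [(hD N).2] at e3
  have e4 : LinearMap.range k = Im F G N := by
    show LinearMap.range ((mkq F G).toLinearMap.comp (Pd N).subtype) = _
    rw [LinearMap.range_comp, Submodule.range_subtype]
    rfl
  have hk : ∀ p : Pd N, p ∈ LinearMap.ker k ↔ (p : CP) ∈ II F G := by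
    intro p
    rw [LinearMap.mem_ker]
    show Ideal.Quotient.mk (II F G) (p : CP) = 0 ↔ _
    exact Ideal.Quotient.eq_zero_iff_mem
  have e5 : finrank ℂ (LinearMap.ker k) = finrank ℂ (LinearMap.range f) := by
    have hmap : (LinearMap.ker k).map (Pd N).subtype = LinearMap.range f := by
      ext p
      constructor
      · rintro ⟨⟨q, hq⟩, hqk, rfl⟩
        have hq2 : q ∈ II F G := (hk ⟨q, hq⟩).1 hqk
        show q ∈ LinearMap.range f
        rcases (Hilb_mem q N).1 hq with h0 | h0
        · rw [h0]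
          exact Submodule.zero_mem _
        · obtain ⟨n, rfl⟩ : ∃ n : ℕ, N = n := ⟨N.toNat, by omega⟩
          obtain ⟨a, b, hab⟩ := Ideal.mem_span_pair.1 hq2
          obtain ⟨u, v, huv, hu, hv⟩ := hR F G c d h a b n (by rw [hab]; exact_mod_cast h0)
          have hu2 : u ∈ Pd ((n : ℤ) - c) := by
            rw [← Hilb_mul h.hF h.F0, Hilb_mem]
            exact Or.inr (by exact_mod_cast hu)
          have hv2 : v ∈ Pd ((n : ℤ) - d) := by
            rw [← Hilb_mul h.hG h.G0, Hilb_mem]
            exact Or.inr (by exact_mod_cast hv)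
          refine ⟨(⟨u, hu2⟩, ⟨v, hv2⟩), ?_⟩
          rw [hf]
          show u * F + v * G = q
          rw [huv, hab]
      · rintro ⟨x, rfl⟩
        have hx : f x ∈ Pd N := by
          rw [hf]
          exact Submodule.add_mem _ ((Hilb_mul h.hF h.F0 _ _).2 x.1.2)
            ((Hilb_mul h.hG h.G0 _ _).2 x.2.2)
        refine ⟨⟨f x, hx⟩, ?_, rfl⟩
        refine (hk ⟨f x, hx⟩).2 ?_
        show f x ∈ II F G
        rw [hf]
        exact Ideal.mem_span_pair.2 ⟨_, _, rfl⟩
    rw [← Submodule.finrank_map_subtype_eq (Pd N) (LinearMap.ker k), hmap]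
  rw [e4, e5] at e3
  rw [e2] at e1
  omega

end Pool.Agent.NCC
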