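import Pool.Agent.NCC.StS

/-!
# An isotropic subspace gives a compression
-/

set_option autoImplicit false

namespace Pool.Agent.NCC

open MvPolynomial Module
open scoped ComplexConjugate

private lemma Iso_inj {k n : ℕ} {U : Submodule ℂ ((Fin n → ℂ) × (Fin k → ℂ))}
    (h : ∀ u ∈ U, ∀ v ∈ U, ∑ l, u.1 l * conj (v.1 l) = ∑ j, u.2 j * conj (v.2 j)) :
    Function.Injective ((LinearMap.snd ℂ (Fin n → ℂ) (Fin k → ℂ)).comp U.subtype) := by
  rw [← LinearMap.ker_eq_bot, LinearMap.ker_eq_bot']
  intro u hu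
  have h1 : (u : (Fin n → ℂ) × (Fin k → ℂ)).2 = 0 := hu
  have h2 := h u u.2 u u.2
  have h3 : ∑ l, ((‖(u : (Fin n → ℂ) × (Fin k → ℂ)).1 l‖ ^ 2 : ℝ) : ℂ) = 0 := by
    have h4 : ∑ j, (u : (Fin n → ℂ) × (Fin k → ℂ)).2 j
        * conj ((u : (Fin n → ℂ) × (Fin k → ℂ)).2 j) = 0 := by
      rw [h1]; simp
    rw [← h4, ← h2]
    refine Finset.sum_congr rfl fun l _ => ?_
    rw [Complex.mul_conj, Complex.normSq_eq_norm_sq]
  rw [← Complex.ofReal_sum, Complex.ofReal_eq_zero,
    Finset.sum_eq_zero_iff_of_nonneg (fun l _ => by positivity)] at h3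
  have h5 : (u : (Fin n → ℂ) × (Fin k → ℂ)).1 = 0 := by
    funext l
    have h6 := h3 l (Finset.mem_univ l)
    simpa using h6
  apply Subtype.ext
  exact Prod.ext h5 h1

theorem thm_Iso : St_Iso := by
  intro k n a b U h
  have hinj := Iso_inj h
  have hle : finrank ℂ U ≤ k := by
    have h1 := LinearMap.finrank_le_finrank_of_injective hinj
    simpa using h1
  refine ⟨hle, fun hk h2 => ?_⟩
  have hsurj : Function.Surjective ((LinearMap.snd ℂ (Fin n → ℂ) (Fin k → ℂ)).comp U.subtype) := by
    refine (LinearMap.injective_iff_surjective_of_finrank_eq_finrank ?_).1 hinj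
    rw [Module.finrank_fin_fun]
    omega
  have hex : ∀ j : Fin k, ∃ u : (Fin n → ℂ) × (Fin k → ℂ), u ∈ U ∧ u.2 = Pi.single j 1 := by
    intro j
    obtain ⟨u, hu⟩ := hsurj (Pi.single j 1)
    exact ⟨u, u.2, hu⟩
  choose e heU he using hex
  refine ⟨Matrix.of fun l j => (e j).1 l, ?_, ?_⟩
  · ext i j
    rw [Matrix.mul_apply]
    simp only [Matrix.conjTranspose_apply, Matrix.of_apply]
    have h3 := h (e j) (heU j) (e i) (heU i)
    rw [he, he] at h3
    have h4 : ∑ l, star ((e i).1 l) * (e j).1 l = ∑ l, (e j).1 l * conj ((e i).1 l) :=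
      Finset.sum_congr rfl fun l _ => mul_comm _ _
    rw [h4, h3, Matrix.one_apply]
    by_cases hij : i = j
    · subst hij
      rw [if_pos rfl, Finset.sum_eq_single i]
      · simp
      · intro m _ hm
        simp [Pi.single_eq_of_ne hm]
      · intro hm
        exact absurd (Finset.mem_univ i) hm
    · rw [if_neg hij]
      refine Finset.sum_eq_zero fun m _ => ?_
      by_cases hm : m = j
      · subst hm
        simp [Pi.single_eq_of_ne (Ne.symm hij)]
      · simp [Pi.single_eq_of_ne hm]
  · ext i j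
    rw [Matrix.mul_apply]
    simp only [Matrix.mul_diagonal, Matrix.conjTranspose_apply, Matrix.of_apply]
    have h3 := h2 (e j) (heU j) (e i) (heU i)
    rw [he, he] at h3
    have h4 : ∑ l, star ((e i).1 l) * b l * (e j).1 l
        = ∑ l, (e j).1 l * conj ((e i).1 l) * b l := by
      refine Finset.sum_congr rfl fun l _ => ?_
      rw [Complex.star_def]
      ring
    rw [h4, h3, Matrix.diagonal_apply]
    by_cases hij : i = j
    · subst hij
      rw [if_pos rfl, Finset.sum_eq_single i]
      · simp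
      · intro m _ hm
        simp [Pi.single_eq_of_ne hm]
      · intro hm
        exact absurd (Finset.mem_univ i) hm
    · rw [if_neg hij]
      refine Finset.sum_eq_zero fun m _ => ?_
      by_cases hm : m = j
      · subst hm
        simp [Pi.single_eq_of_ne (Ne.symm hij)]
      · simp [Pi.single_eq_of_ne hm]

end Pool.Agent.NCC
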