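import Pool.Agent.NCC.StM

/-!
# NCC, module JA: crossing a vertical line through some `a j`
-/

set_option autoImplicit false

namespace Pool.Agent.NCC

open Polynomial Matrix Filter Topology Module
open scoped ComplexConjugate

/-! ### counting -/

private theorem JA_sgn {α x₀ x r : ℝ} (hα : α ≠ x₀) (hx : |x - x₀| < |x₀ - α|) :
    (x - α) * r < 0 ↔ (x₀ - α) * r < 0 := by
  rcases lt_or_gt_of_ne hα with h | h
  · have h1 : 0 < x₀ - α := by linarith
    rw [abs_of_pos h1] at hx
    have h2 := (abs_lt.1 hx).1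
    have h3 : 0 < x - α := by linarith
    rw [mul_neg_iff, mul_neg_iff]
    constructor
    · rintro (⟨_, h4⟩ | ⟨h4, _⟩)
      · exact Or.inl ⟨h1, h4⟩
      · linarith
    · rintro (⟨_, h4⟩ | ⟨h4, _⟩)
      · exact Or.inl ⟨h3, h4⟩
      · linarith
  · have h1 : x₀ - α < 0 := by linarith
    rw [abs_of_neg h1] at hx
    have h2 := (abs_lt.1 hx).2
    have h3 : x - α < 0 := by linarith
    rw [mul_neg_iff, mul_neg_iff]
    constructor
    · rintro (⟨h4, _⟩ | ⟨_, h4⟩)
      · linarith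
      · exact Or.inr ⟨h1, h4⟩
    · rintro (⟨h4, _⟩ | ⟨_, h4⟩)
      · linarith
      · exact Or.inr ⟨h3, h4⟩

private theorem JA_card {k : ℕ} (α β : Fin k → ℝ) (x₀ y x : ℝ)
    (hx : ∀ j, α j ≠ x₀ → |x - x₀| < |x₀ - α j|) :
    (Finset.univ.filter fun j => (x - α j) * (y - β j) < 0).card =
      (Finset.univ.filter fun j => α j ≠ x₀ ∧ (x₀ - α j) * (y - β j) < 0).card +
      (Finset.univ.filter fun j => α j = x₀ ∧ (x - x₀) * (y - β j) < 0).card := by
  rw [Finset.card_filter, Finset.card_filter, Finset.card_filter, ← Finset.sum_add_distrib]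
  refine Finset.sum_congr rfl fun j _ => ?_
  by_cases hj : α j = x₀
  · rw [if_neg (fun h : α j ≠ x₀ ∧ (x₀ - α j) * (y - β j) < 0 => h.1 hj), zero_add]
    simp only [hj, true_and]
  · have h1 := JA_sgn (r := y - β j) hj (hx j hj)
    rw [if_neg (fun h : α j = x₀ ∧ (x - x₀) * (y - β j) < 0 => hj h.1), add_zero]
    simp only [h1, ne_eq, hj, not_false_eq_true, true_and]

/-! ### matrices -/

private theorem JA_diagH {n : ℕ} (d : Fin n → ℝ) :
    (diagonal (fun i => (d i : ℂ)))ᴴ = diagonal (fun i => (d i : ℂ)) := by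
  rw [diagonal_conjTranspose]
  congr 1
  funext i
  exact Complex.conj_ofReal (d i)

section pd

variable {k c : ℕ} {a : Fin k → ℂ} {b : Fin (k + c) → ℂ} {W : Matrix (Fin (k + c)) (Fin k) ℂ}
  {E : Matrix (Fin (k + c)) (Fin c) ℂ} {S G : Matrix (Fin c) (Fin c) ℂ}

private theorem JA_adj (h : PD a b W E S G) : G * Eᴴ = S * Eᴴ * dre b - Eᴴ * dimg b := by
  have h1 := congrArg conjTranspose h.hG
  rw [conjTranspose_mul, conjTranspose_sub, conjTranspose_mul, conjTranspose_mul,
    conjTranspose_mul, conjTranspose_conjTranspose, h.hS.eq] at h1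
  have h2 : (dre b)ᴴ = dre b := JA_diagH _
  have h3 : (dimg b)ᴴ = dimg b := JA_diagH _
  rw [h2, h3] at h1
  rw [h1, Matrix.mul_assoc]
  abel

private theorem JA_mid (h : PD a b W E S G) (x y : ℝ) (hx : ∀ l, (b l).re ≠ x) :
    PP S G x y * Th b E x = Hm b E S x y := by
  have e1 : diagonal (fun l => ((y - (b l).im : ℝ) : ℂ)) = (y : ℂ) • (1 : Matrix _ _ ℂ) - dimg b := by
    unfold dimg
    rw [← diagonal_one, ← diagonal_smul, diagonal_sub]
    congr 1
    funext l
    simp
  have e2 : diagonal (fun l => ((x - (b l).re : ℝ) : ℂ)) = (x : ℂ) • (1 : Matrix _ _ ℂ) - dre b := by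
    unfold dre
    rw [← diagonal_one, ← diagonal_smul, diagonal_sub]
    congr 1
    funext l
    simp
  have e3 : PP S G x y * Eᴴ = Eᴴ * diagonal (fun l => ((y - (b l).im : ℝ) : ℂ)) -
      S * Eᴴ * diagonal (fun l => ((x - (b l).re : ℝ) : ℂ)) := by
    rw [e1, e2]
    unfold PP
    rw [Matrix.add_mul, Matrix.sub_mul, JA_adj h]
    simp only [Matrix.mul_sub, Matrix.smul_mul, Matrix.mul_smul, Matrix.one_mul, Matrix.mul_one]
    abel
  have e4 : diagonal (fun l => ((x - (b l).re : ℝ) : ℂ)) *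
      diagonal (fun l => ((1 / (x - (b l).re) : ℝ) : ℂ)) = 1 := by
    rw [diagonal_mul_diagonal, ← diagonal_one]
    congr 1
    funext l
    have h1 : x - (b l).re ≠ 0 := sub_ne_zero.2 (hx l).symm
    rw [← Complex.ofReal_mul, mul_one_div_cancel h1, Complex.ofReal_one]
  have e5 : diagonal (fun l => ((y - (b l).im : ℝ) : ℂ)) *
      diagonal (fun l => ((1 / (x - (b l).re) : ℝ) : ℂ)) =
      diagonal (fun l => (((y - (b l).im) / (x - (b l).re) : ℝ) : ℂ)) := by
    rw [diagonal_mul_diagonal]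
    congr 1
    funext l
    rw [← Complex.ofReal_mul, mul_one_div]
  unfold Th Hm
  rw [← Matrix.mul_assoc, ← Matrix.mul_assoc, e3, Matrix.sub_mul, Matrix.mul_assoc _ _
    (diagonal (fun l => ((1 / (x - (b l).re) : ℝ) : ℂ))), e5, Matrix.mul_assoc (S * Eᴴ), e4,
    Matrix.mul_one, Matrix.sub_mul, Matrix.mul_assoc S, h.hE, Matrix.mul_one]

private theorem JA_ThH (x : ℝ) : (Th b E x)ᴴ = Th b E x := by
  unfold Th
  rw [conjTranspose_mul, conjTranspose_mul, conjTranspose_conjTranspose, JA_diagH, Matrix.mul_assoc]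

end pd

theorem thm_JA : St_Schur → St_Semi → St_Ng → St_DetF → St_KId → St_JA := by
  intro hSchur hSemi hNg hDetF hKId k c a b W E S G h x₀ y hb hay hPP
  classical
  obtain ⟨F, -, -, -, -, hF1, hF2⟩ := hDetF k c a b W E S G h
  have hK := fun x => hKId k c a b W E S G h x y
  obtain ⟨X, hX⟩ : ∃ X, X = Wᴴ * dre b * E := ⟨_, rfl⟩
  obtain ⟨Z, hZ⟩ : ∃ Z, Z = Eᴴ * dre b * E := ⟨_, rfl⟩
  rw [← hX, ← hZ] at hK
  obtain ⟨R, hR⟩ : ∃ R : ℝ → Matrix (Fin c) (Fin c) ℂ, R = fun x : ℝ =>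
    Xᴴ * X * S + ((x : ℂ) • 1 - Z) * PP S G x y := ⟨_, rfl⟩
  obtain ⟨D, hD⟩ : ∃ D : ℝ → Matrix (Fin k) (Fin k) ℂ, D = fun x : ℝ =>
    diagonal (fun j => (((x - (a j).re) * (y - (a j).im) : ℝ) : ℂ)) := ⟨_, rfl⟩
  obtain ⟨M, hM⟩ : ∃ M : Matrix (Fin k) (Fin c) ℂ, M =
    diagonal (fun j => ((y - (a j).im : ℝ) : ℂ)) * X := ⟨_, rfl⟩
  obtain ⟨N, hN⟩ : ∃ N : ℝ → Matrix (Fin k ⊕ Fin c) (Fin k ⊕ Fin c) ℂ, N = fun x : ℝ =>
    fromBlocks (D x) M Mᴴ (R x) := ⟨_, rfl⟩
  obtain ⟨Kx, hKx⟩ : ∃ Kx : ℝ → Matrix (Fin c) (Fin c) ℂ, Kx = fun x : ℝ => R x -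
    Xᴴ * diagonal (fun j => (((y - (a j).im) / (x - (a j).re) : ℝ) : ℂ)) * X := ⟨_, rfl⟩
  have hRH : ∀ x, (R x).IsHermitian := by
    intro x
    rw [hR]
    exact (hK x).1
  have hDH : ∀ x, (D x).IsHermitian := by
    intro x
    rw [hD]
    exact JA_diagH _
  have hNH : ∀ x, (N x).IsHermitian := by
    intro x
    rw [hN]
    exact Matrix.IsHermitian.fromBlocks (hDH x) rfl (hRH x)
  have hay' : ∀ j, y - (a j).im ≠ 0 := fun j => sub_ne_zero.2 (hay j).symm
  -- the Schur complement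
  have hDdet : ∀ x, (D x).det = ∏ j, (((x - (a j).re) * (y - (a j).im) : ℝ) : ℂ) := by
    intro x
    rw [hD]
    exact det_diagonal
  have hDne : ∀ x, (∀ j, (a j).re ≠ x) → (D x).det ≠ 0 := by
    intro x hx
    rw [hDdet, Finset.prod_ne_zero_iff]
    intro j _
    rw [Complex.ofReal_ne_zero]
    exact mul_ne_zero (sub_ne_zero.2 (hx j).symm) (hay' j)
  have hSc : ∀ x, (∀ j, (a j).re ≠ x) → R x - Mᴴ * (D x)⁻¹ * M = Kx x := by
    intro x hx
    have h1 : (D x)⁻¹ = diagonal (fun j => ((1 / ((x - (a j).re) * (y - (a j).im)) : ℝ) : ℂ)) := by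
      refine Matrix.inv_eq_right_inv ?_
      rw [hD, diagonal_mul_diagonal, ← diagonal_one]
      congr 1
      funext j
      rw [← Complex.ofReal_mul, mul_one_div_cancel
        (mul_ne_zero (sub_ne_zero.2 (hx j).symm) (hay' j)), Complex.ofReal_one]
    have h2 : Mᴴ = Xᴴ * diagonal (fun j => ((y - (a j).im : ℝ) : ℂ)) := by
      rw [hM, conjTranspose_mul, JA_diagH]
    have h3 : diagonal (fun j => ((y - (a j).im : ℝ) : ℂ)) *
        diagonal (fun j => ((1 / ((x - (a j).re) * (y - (a j).im)) : ℝ) : ℂ)) *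
        diagonal (fun j => ((y - (a j).im : ℝ) : ℂ)) =
        diagonal (fun j => (((y - (a j).im) / (x - (a j).re) : ℝ) : ℂ)) := by
      rw [diagonal_mul_diagonal, diagonal_mul_diagonal]
      congr 1
      funext j
      rw [← Complex.ofReal_mul, ← Complex.ofReal_mul]
      congr 1
      have h4 := hay' j
      have h5 : x - (a j).re ≠ 0 := sub_ne_zero.2 (hx j).symm
      field_simp
    rw [h1, h2, hKx]
    show _ = R x - Xᴴ * diagonal (fun j => (((y - (a j).im) / (x - (a j).re) : ℝ) : ℂ)) * X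
    rw [← h3, hM]
    simp only [Matrix.mul_assoc]
  have hKH : ∀ x, (Kx x).IsHermitian := by
    intro x
    rw [hKx]
    refine (hRH x).sub ?_
    show (_)ᴴ = _
    rw [conjTranspose_mul, conjTranspose_mul, conjTranspose_conjTranspose, JA_diagH,
      Matrix.mul_assoc]
  have hHm : ∀ x, (∀ l, (b l).re ≠ x) → (∀ j, (a j).re ≠ x) →
      (Th b E x).det ≠ 0 ∧ Hm b E S x y = (Th b E x)ᴴ * Kx x * Th b E x := by
    intro x hx1 hx2
    have h1 := (hK x).2 hx1 hx2
    rw [hKx, hR]
    exact h1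
  -- the number of negative eigenvalues
  have hng : ∀ x, (∀ l, (b l).re ≠ x) → (∀ j, (a j).re ≠ x) →
      ng (N x) = (Finset.univ.filter fun j => (x - (a j).re) * (y - (a j).im) < 0).card +
        ng (Hm b E S x y) := by
    intro x hx1 hx2
    have h1 := hSchur (Fin k) (Fin c) (D x) M (R x) (hDH x) (hRH x) (hDne x hx2)
    have h2 := hHm x hx1 hx2
    have h3 := hNg.2.1 (Fin c) (Kx x) (Th b E x) (hKH x) h2.1
    have h4 := hNg.2.2 (Fin k) (fun j => (x - (a j).re) * (y - (a j).im))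
    have h5 : N x = fromBlocks (D x) M Mᴴ (R x) := by rw [hN]
    have h6 : D x = diagonal fun i => (((x - (a i).re) * (y - (a i).im) : ℝ) : ℂ) := by rw [hD]
    rw [h5, h1, hSc x hx2, h2.2, h3, h6, h4]
  -- the determinant
  have hdet : ∀ x, (∀ l, (b l).re ≠ x) → (∀ j, (a j).re ≠ x) → (PP S G x y).det ≠ 0 →
      (N x).det = (∏ j, ((y - (a j).im : ℝ) : ℂ)) * ((PP S G x y).det *
        ∏ l, ((x - (b l).re : ℝ) : ℂ)) := by
    intro x hx1 hx2 hx3
    obtain ⟨h1, h2⟩ := hHm x hx1 hx2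
    have h3 := congrArg det (JA_mid h x y hx1)
    rw [det_mul] at h3
    have h4 := congrArg det h2
    rw [det_mul, det_mul, JA_ThH, ← h3] at h4
    have h5 := hF2 x y hx1
    rw [← h3, hF1] at h5
    have h6 : (PP S G x y).det = (Th b E x).det * (Kx x).det :=
      mul_right_cancel₀ h1 h4
    have h7 : (Th b E x).det * ∏ l, ((x - (b l).re : ℝ) : ℂ) = ∏ j, ((x - (a j).re : ℝ) : ℂ) := by
      refine mul_left_cancel₀ hx3 ?_
      rw [← mul_assoc]
      exact h5
    have h8 : (N x).det = (D x).det * (Kx x).det := by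
      have h9 : N x = fromBlocks (D x) M Mᴴ (R x) := by rw [hN]
      have : Invertible (D x) := Matrix.invertibleOfIsUnitDet _ (isUnit_iff_ne_zero.2 (hDne x hx2))
      rw [h9, det_fromBlocks₁₁, invOf_eq_nonsing_inv, hSc x hx2]
    have h9 : (∏ j, (((x - (a j).re) * (y - (a j).im) : ℝ) : ℂ)) =
        (∏ j, ((x - (a j).re : ℝ) : ℂ)) * ∏ j, ((y - (a j).im : ℝ) : ℂ) := by
      rw [← Finset.prod_mul_distrib]
      exact Finset.prod_congr rfl fun j _ => Complex.ofReal_mul _ _
    rw [h8, hDdet, h9, ← h7, h6]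
    ring
  -- continuity
  have hcPP : Continuous fun x : ℝ => PP S G x y := by
    unfold PP
    exact (continuous_const.sub (Complex.continuous_ofReal.smul continuous_const)).add
      continuous_const
  have hcN : Continuous N := by
    rw [hN]
    refine Continuous.matrix_fromBlocks ?_ continuous_const continuous_const ?_
    · rw [hD]
      refine Continuous.matrix_diagonal (continuous_pi fun j => ?_)
      exact Complex.continuous_ofReal.comp ((continuous_id.sub continuous_const).mul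
        continuous_const)
    · rw [hR]
      exact continuous_const.add (((Complex.continuous_ofReal.smul continuous_const).sub
        continuous_const).matrix_mul hcPP)
  have hcd : Continuous fun x : ℝ => (PP S G x y).det := hcPP.matrix_det
  have hcr : Continuous fun x : ℝ => (∏ j, ((y - (a j).im : ℝ) : ℂ)) * ((PP S G x y).det *
        ∏ l, ((x - (b l).re : ℝ) : ℂ)) := by
    refine continuous_const.mul (hcd.mul (continuous_finsetProd _ fun l _ => ?_))
    exact Complex.continuous_ofReal.comp (continuous_id.sub continuous_const)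
  -- near `x₀`
  have hn1 : ∀ᶠ x in 𝓝[≠] x₀, ∀ l, (b l).re ≠ x := by
    rw [Filter.eventually_all]
    intro l
    exact (eventually_ne_nhds (hb l).symm).filter_mono nhdsWithin_le_nhds |>.mono
      fun x hx => hx.symm
  have hn2 : ∀ᶠ x in 𝓝[≠] x₀, ∀ j, (a j).re ≠ x := by
    rw [Filter.eventually_all]
    intro j
    by_cases hj : (a j).re = x₀
    · filter_upwards [self_mem_nhdsWithin] with x hx
      rw [hj]
      exact (Ne.symm hx)
    · exact (eventually_ne_nhds (Ne.symm hj)).filter_mono nhdsWithin_le_nhds |>.mono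
        fun x hx => hx.symm
  have hn3 : ∀ᶠ x in 𝓝[≠] x₀, (PP S G x y).det ≠ 0 :=
    (hcd.continuousAt.eventually_ne hPP).filter_mono nhdsWithin_le_nhds
  have hN0 : (N x₀).det ≠ 0 := by
    have h1 : (N x₀).det = (∏ j, ((y - (a j).im : ℝ) : ℂ)) * ((PP S G x₀ y).det *
        ∏ l, ((x₀ - (b l).re : ℝ) : ℂ)) := by
      have h2 : Tendsto (fun x => (N x).det) (𝓝[≠] x₀) (𝓝 (N x₀).det) :=
        (hcN.matrix_det.tendsto x₀).mono_left nhdsWithin_le_nhds
      have h3 := (hcr.tendsto x₀).mono_left (nhdsWithin_le_nhds (s := {x₀}ᶜ))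
      refine tendsto_nhds_unique h2 (h3.congr' ?_)
      filter_upwards [hn1, hn2, hn3] with x hx1 hx2 hx3
      exact (hdet x hx1 hx2 hx3).symm
    rw [h1]
    refine mul_ne_zero ?_ (mul_ne_zero hPP ?_)
    · rw [Finset.prod_ne_zero_iff]
      intro j _
      rw [Complex.ofReal_ne_zero]
      exact hay' j
    · rw [Finset.prod_ne_zero_iff]
      intro l _
      rw [Complex.ofReal_ne_zero]
      exact sub_ne_zero.2 (hb l).symm
  have hrank : (N x₀).rank = Fintype.card (Fin k ⊕ Fin c) :=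
    Matrix.rank_of_isUnit _ ((Matrix.isUnit_iff_isUnit_det _).2 (isUnit_iff_ne_zero.2 hN0))
  have hn4 : ∀ᶠ x in 𝓝[≠] x₀, ng (N x) = ng (N x₀) := by
    have h1 := hSemi ℝ (Fin k ⊕ Fin c) N x₀ hcN.continuousAt hNH
    filter_upwards [h1.filter_mono nhdsWithin_le_nhds] with x hx
    rw [hrank] at hx
    omega
  have hn5 : ∀ᶠ x in 𝓝[≠] x₀, ∀ j, (a j).re ≠ x₀ → |x - x₀| < |x₀ - (a j).re| := by
    rw [Filter.eventually_all]
    intro j
    by_cases hj : (a j).re = x₀
    · exact Filter.Eventually.of_forall fun x h => absurd hj h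
    · have h1 : 0 < |x₀ - (a j).re| := abs_pos.2 (sub_ne_zero.2 (Ne.symm hj))
      have h2 : ∀ᶠ x in 𝓝 x₀, |x - x₀| < |x₀ - (a j).re| := by
        have h3 := Metric.ball_mem_nhds x₀ h1
        filter_upwards [h3] with x hx
        rw [Metric.mem_ball, Real.dist_eq] at hx
        exact hx
      filter_upwards [h2.filter_mono nhdsWithin_le_nhds] with x hx _
      exact hx
  have hall : ∀ᶠ x in 𝓝[≠] x₀, (ng (N x₀) : ℤ) =
      (Finset.univ.filter fun j => (a j).re ≠ x₀ ∧ (x₀ - (a j).re) * (y - (a j).im) < 0).card +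
      (Finset.univ.filter fun j => (a j).re = x₀ ∧ (x - x₀) * (y - (a j).im) < 0).card +
      ng (Hm b E S x y) := by
    filter_upwards [hn1, hn2, hn4, hn5] with x h1 h2 h4 h5
    rw [← h4, hng x h1 h2, JA_card (fun j => (a j).re) (fun j => (a j).im) x₀ y x h5]
    push_cast
    ring
  have ht1 : Tendsto (fun h : ℝ => x₀ + h) (𝓝[>] 0) (𝓝[≠] x₀) := by
    refine tendsto_nhdsWithin_iff.2 ⟨?_, ?_⟩
    · have h1 : Tendsto (fun h : ℝ => x₀ + h) (𝓝 0) (𝓝 (x₀ + 0)) :=
        (continuous_const.add continuous_id).tendsto 0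
      rw [add_zero] at h1
      exact h1.mono_left nhdsWithin_le_nhds
    · filter_upwards [self_mem_nhdsWithin] with h hh
      have hh' : 0 < h := hh
      show x₀ + h ≠ x₀
      linarith [hh']
  have ht2 : Tendsto (fun h : ℝ => x₀ - h) (𝓝[>] 0) (𝓝[≠] x₀) := by
    refine tendsto_nhdsWithin_iff.2 ⟨?_, ?_⟩
    · have h1 : Tendsto (fun h : ℝ => x₀ - h) (𝓝 0) (𝓝 (x₀ - 0)) :=
        (continuous_const.sub continuous_id).tendsto 0
      rw [sub_zero] at h1
      exact h1.mono_left nhdsWithin_le_nhds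
    · filter_upwards [self_mem_nhdsWithin] with h hh
      have hh' : 0 < h := hh
      show x₀ - h ≠ x₀
      linarith [hh']
  filter_upwards [ht1.eventually hall, ht2.eventually hall, self_mem_nhdsWithin] with h h1 h2 hh
  have hh' : 0 < h := hh
  have e1 : (Finset.univ.filter fun j => (a j).re = x₀ ∧ (x₀ + h - x₀) * (y - (a j).im) < 0) =
      Finset.univ.filter fun j => (a j).re = x₀ ∧ y < (a j).im := by
    refine Finset.filter_congr fun j _ => and_congr_right fun _ => ?_
    rw [add_sub_cancel_left]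
    constructor
    · intro h3
      by_contra h4
      have h5 : 0 ≤ h * (y - (a j).im) := mul_nonneg hh'.le (by linarith)
      linarith
    · intro h3
      exact mul_neg_of_pos_of_neg hh' (by linarith)
  have e2 : (Finset.univ.filter fun j => (a j).re = x₀ ∧ (x₀ - h - x₀) * (y - (a j).im) < 0) =
      Finset.univ.filter fun j => (a j).re = x₀ ∧ (a j).im < y := by
    refine Finset.filter_congr fun j _ => and_congr_right fun _ => ?_
    rw [sub_sub_cancel_left]
    constructor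
    · intro h3
      by_contra h4
      have h5 : 0 ≤ (-h) * (y - (a j).im) := mul_nonneg_of_nonpos_of_nonpos (by linarith) (by linarith)
      linarith
    · intro h3
      exact mul_neg_of_neg_of_pos (by linarith) (by linarith)
  rw [e1] at h1
  rw [e2] at h2
  linarith

end Pool.Agent.NCC
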