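import Pool.Agent.NCC.StM

/-!
# NCC [JB]: crossing a vertical line through some `b l`
-/

set_option autoImplicit false

namespace Pool.Agent.NCC

open Polynomial Matrix Filter Topology Module
open scoped ComplexConjugate

/-- the entries of the first block -/
noncomputable def JB_d {n : ℕ} (b : Fin n → ℂ) (x y : ℝ) (l : Fin n) : ℝ :=
  -((x - (b l).re) * (y - (b l).im))

/-- the second block -/
noncomputable def JB_M {n c : ℕ} (b : Fin n → ℂ) (E : Matrix (Fin n) (Fin c) ℂ) (y : ℝ) :
    Matrix (Fin n) (Fin c) ℂ :=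
  diagonal (fun l => ((y - (b l).im : ℝ) : ℂ)) * E

/-- the big matrix -/
noncomputable def JB_N {n c : ℕ} (b : Fin n → ℂ) (E : Matrix (Fin n) (Fin c) ℂ)
    (S : Matrix (Fin c) (Fin c) ℂ) (x y : ℝ) : Matrix (Fin n ⊕ Fin c) (Fin n ⊕ Fin c) ℂ :=
  fromBlocks (diagonal fun l => ((JB_d b x y l : ℝ) : ℂ)) (JB_M b E y) (JB_M b E y)ᴴ (-S)

theorem JB_diag_herm {n : ℕ} (d : Fin n → ℝ) :
    (diagonal fun l => ((d l : ℝ) : ℂ)).IsHermitian := by
  unfold Matrix.IsHermitian
  rw [diagonal_conjTranspose]
  apply congrArg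
  funext l
  rw [Pi.star_apply]
  exact Complex.conj_ofReal _

theorem JB_herm {n c : ℕ} (b : Fin n → ℂ) (E : Matrix (Fin n) (Fin c) ℂ)
    (S : Matrix (Fin c) (Fin c) ℂ) (hS : S.IsHermitian) (x y : ℝ) :
    (JB_N b E S x y).IsHermitian :=
  Matrix.IsHermitian.fromBlocks (JB_diag_herm _) rfl hS.neg

theorem JB_inv {n : ℕ} (d : Fin n → ℝ) (hd : ∀ l, d l ≠ 0) :
    (diagonal fun l => ((d l : ℝ) : ℂ))⁻¹ = diagonal fun l => (((d l)⁻¹ : ℝ) : ℂ) := by
  apply Matrix.inv_eq_right_inv
  rw [diagonal_mul_diagonal, ← diagonal_one]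
  apply congrArg
  funext l
  rw [← Complex.ofReal_mul, mul_inv_cancel₀ (hd l), Complex.ofReal_one]

theorem JB_compl {n c : ℕ} (b : Fin n → ℂ) (E : Matrix (Fin n) (Fin c) ℂ)
    (S : Matrix (Fin c) (Fin c) ℂ) (x y : ℝ) (hx : ∀ l, (b l).re ≠ x) (hy : ∀ l, (b l).im ≠ y) :
    -S - (JB_M b E y)ᴴ * (diagonal fun l => ((JB_d b x y l : ℝ) : ℂ))⁻¹ * JB_M b E y =
      Hm b E S x y := by
  have hd : ∀ l, JB_d b x y l ≠ 0 := fun l =>
    neg_ne_zero.2 (mul_ne_zero (sub_ne_zero.2 (hx l).symm) (sub_ne_zero.2 (hy l).symm))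
  rw [JB_inv _ hd]
  unfold JB_M Hm
  have e1 : (diagonal fun l => ((y - (b l).im : ℝ) : ℂ))ᴴ =
      diagonal fun l => ((y - (b l).im : ℝ) : ℂ) := JB_diag_herm fun l => y - (b l).im
  have e2 : Eᴴ * diagonal (fun l => ((y - (b l).im : ℝ) : ℂ)) *
      diagonal (fun l => (((JB_d b x y l)⁻¹ : ℝ) : ℂ)) *
        (diagonal (fun l => ((y - (b l).im : ℝ) : ℂ)) * E) =
      -(Eᴴ * diagonal (fun l => (((y - (b l).im) / (x - (b l).re) : ℝ) : ℂ)) * E) := by
    have e3 : diagonal (fun l => ((y - (b l).im : ℝ) : ℂ)) *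
        diagonal (fun l => (((JB_d b x y l)⁻¹ : ℝ) : ℂ)) *
        diagonal (fun l => ((y - (b l).im : ℝ) : ℂ)) =
        -diagonal (fun l => (((y - (b l).im) / (x - (b l).re) : ℝ) : ℂ)) := by
      rw [diagonal_mul_diagonal, diagonal_mul_diagonal, Matrix.diagonal_neg]
      apply congrArg
      funext l
      rw [← Complex.ofReal_mul, ← Complex.ofReal_mul, ← Complex.ofReal_neg]
      apply congrArg
      have h1 := sub_ne_zero.2 (hx l).symm
      have h2 := sub_ne_zero.2 (hy l).symm
      unfold JB_d
      field_simp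
    calc _ = Eᴴ * (diagonal (fun l => ((y - (b l).im : ℝ) : ℂ)) *
        diagonal (fun l => (((JB_d b x y l)⁻¹ : ℝ) : ℂ)) *
        diagonal (fun l => ((y - (b l).im : ℝ) : ℂ))) * E := by
          simp only [Matrix.mul_assoc]
      _ = _ := by rw [e3, Matrix.mul_neg, Matrix.neg_mul]
  rw [conjTranspose_mul, e1, e2, sub_neg_eq_add, neg_add_eq_sub]

theorem JB_det {n c : ℕ} (b : Fin n → ℂ) (E : Matrix (Fin n) (Fin c) ℂ)
    (S : Matrix (Fin c) (Fin c) ℂ) (x y : ℝ) (hx : ∀ l, (b l).re ≠ x) (hy : ∀ l, (b l).im ≠ y) :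
    (JB_N b E S x y).det = (∏ l, ((JB_d b x y l : ℝ) : ℂ)) * (Hm b E S x y).det := by
  have hd : ∀ l, JB_d b x y l ≠ 0 := fun l =>
    neg_ne_zero.2 (mul_ne_zero (sub_ne_zero.2 (hx l).symm) (sub_ne_zero.2 (hy l).symm))
  have hdet : IsUnit (diagonal fun l => ((JB_d b x y l : ℝ) : ℂ)).det := by
    rw [det_diagonal, isUnit_iff_ne_zero, Finset.prod_ne_zero_iff]
    intro l _
    exact_mod_cast hd l
  have := Matrix.invertibleOfIsUnitDet _ hdet
  unfold JB_N
  rw [Matrix.det_fromBlocks₁₁, Matrix.invOf_eq_nonsing_inv, det_diagonal, JB_compl b E S x y hx hy]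

theorem JB_cont {n c : ℕ} (b : Fin n → ℂ) (E : Matrix (Fin n) (Fin c) ℂ)
    (S : Matrix (Fin c) (Fin c) ℂ) (y : ℝ) : Continuous fun x => JB_N b E S x y := by
  apply continuous_matrix
  rintro (i | i) (j | j)
  · simp only [JB_N, fromBlocks_apply₁₁, diagonal_apply, JB_d]
    by_cases h : i = j
    · simp only [h, if_true]
      fun_prop
    · simp only [h, if_false]
      fun_prop
  · simp only [JB_N, fromBlocks_apply₁₂]
    fun_prop
  · simp only [JB_N, fromBlocks_apply₂₁]
    fun_prop
  · simp only [JB_N, fromBlocks_apply₂₂]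
    fun_prop

theorem JB_near {n : ℕ} (b : Fin n → ℂ) (x₀ : ℝ) :
    ∃ δ : ℝ, 0 < δ ∧ ∀ l, (b l).re ≠ x₀ → δ ≤ |(b l).re - x₀| := by
  classical
  have h : ∀ s : Finset (Fin n), ∃ δ : ℝ, 0 < δ ∧ ∀ l ∈ s, (b l).re ≠ x₀ → δ ≤ |(b l).re - x₀| := by
    intro s
    induction s using Finset.induction_on with
    | empty => exact ⟨1, one_pos, fun l hl => absurd hl (Finset.notMem_empty l)⟩
    | insert l s _ ih =>
      obtain ⟨δ, hδ, h⟩ := ih
      by_cases hl : (b l).re = x₀
      · refine ⟨δ, hδ, fun l' hl' hne => ?_⟩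
        rcases Finset.mem_insert.1 hl' with rfl | hl'
        · exact absurd hl hne
        · exact h l' hl' hne
      · refine ⟨min δ |(b l).re - x₀|, lt_min hδ (abs_pos.2 (sub_ne_zero.2 hl)), fun l' hl' hne => ?_⟩
        rcases Finset.mem_insert.1 hl' with rfl | hl'
        · exact min_le_right _ _
        · exact (min_le_left _ _).trans (h l' hl' hne)
  obtain ⟨δ, h1, h2⟩ := h Finset.univ
  exact ⟨δ, h1, fun l => h2 l (Finset.mem_univ l)⟩

theorem thm_JB (hSchur : St_Schur) (hSemi : St_Semi) (hNg : St_Ng) (hDetF : St_DetF) : St_JB := by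
  intro k c a b W E S G hPD x₀ y ha hb hPP
  obtain ⟨F, -, -, -, -, hF, hdet⟩ := hDetF k c a b W E S G hPD
  obtain ⟨δ, hδ, hnear⟩ := JB_near b x₀
  have hS := hPD.hS
  -- continuity of the polynomial in `x`
  have hcF : Continuous fun x : ℝ => (ev F x y : ℂ) := by
    have e1 : (fun x : ℝ => (ev F x y : ℂ)) = fun x : ℝ => (PP S G x y).det := by
      funext x
      exact hF x y
    rw [e1]
    apply Continuous.matrix_det
    unfold PP
    fun_prop
  -- the determinant of the big matrix, at all `x`
  have e1 : ∀ x : ℝ, (∀ l, (b l).re ≠ x) → (JB_N b E S x y).det =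
      (∏ l, ((-(y - (b l).im) : ℝ) : ℂ)) * ((ev F x y : ℂ) * ∏ j, ((x - (a j).re : ℝ) : ℂ)) := by
    intro x hx
    rw [JB_det b E S x y hx hb, ← hdet x y hx]
    have e2 : ∏ l, ((JB_d b x y l : ℝ) : ℂ) = (∏ l, ((-(y - (b l).im) : ℝ) : ℂ)) *
        ∏ l, ((x - (b l).re : ℝ) : ℂ) := by
      rw [← Finset.prod_mul_distrib]
      apply Finset.prod_congr rfl
      intro l _
      rw [← Complex.ofReal_mul]
      apply congrArg
      unfold JB_d
      ring
    rw [e2]
    ring
  have hclosed : IsClosed {x : ℝ | (JB_N b E S x y).det =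
      (∏ l, ((-(y - (b l).im) : ℝ) : ℂ)) * ((ev F x y : ℂ) * ∏ j, ((x - (a j).re : ℝ) : ℂ))} := by
    apply isClosed_eq
    · exact Continuous.matrix_det (JB_cont b E S y)
    · apply Continuous.mul continuous_const
      apply Continuous.mul hcF
      apply continuous_finsetProd
      intro j _
      fun_prop
  have hdense : Dense {x : ℝ | ∀ l, (b l).re ≠ x} := by
    have e3 : {x : ℝ | ∀ l, (b l).re ≠ x} = (Set.range fun l => (b l).re)ᶜ := by
      ext x
      exact not_exists.symm
    rw [e3]
    exact (Set.finite_range _).countable.dense_compl ℝ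
  have e4 : (JB_N b E S x₀ y).det = (∏ l, ((-(y - (b l).im) : ℝ) : ℂ)) *
      ((ev F x₀ y : ℂ) * ∏ j, ((x₀ - (a j).re : ℝ) : ℂ)) := by
    have h1 : closure {x : ℝ | ∀ l, (b l).re ≠ x} ⊆ {x : ℝ | (JB_N b E S x y).det =
        (∏ l, ((-(y - (b l).im) : ℝ) : ℂ)) * ((ev F x y : ℂ) * ∏ j, ((x - (a j).re : ℝ) : ℂ))} :=
      closure_minimal (fun x hx => e1 x hx) hclosed
    exact h1 (hdense x₀)
  have hne : (JB_N b E S x₀ y).det ≠ 0 := by
    rw [e4]
    apply mul_ne_zero
    · rw [Finset.prod_ne_zero_iff]
      intro l _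
      have := neg_ne_zero.2 (sub_ne_zero.2 (hb l).symm)
      exact_mod_cast this
    · apply mul_ne_zero
      · rw [hF x₀ y]
        exact hPP
      · rw [Finset.prod_ne_zero_iff]
        intro j _
        have := sub_ne_zero.2 (ha j).symm
        exact_mod_cast this
  have hrank : (JB_N b E S x₀ y).rank = Fintype.card (Fin (k + c) ⊕ Fin c) :=
    Matrix.rank_of_isUnit _ ((Matrix.isUnit_iff_isUnit_det _).2 (isUnit_iff_ne_zero.2 hne))
  have hev := hSemi ℝ (Fin (k + c) ⊕ Fin c) (fun x => JB_N b E S x y) x₀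
    (JB_cont b E S y).continuousAt (fun x => JB_herm b E S hS x y)
  have hev2 : ∀ᶠ x in 𝓝 x₀, ng (JB_N b E S x y) = ng (JB_N b E S x₀ y) := by
    filter_upwards [hev] with x hx
    rw [hrank] at hx
    omega
  -- the count
  have key : ∀ x : ℝ, (∀ l, (b l).re ≠ x) → ng (JB_N b E S x y) =
      (Finset.univ.filter (fun l => JB_d b x y l < 0)).card + ng (Hm b E S x y) := by
    intro x hx
    have hd : ∀ l, JB_d b x y l ≠ 0 := fun l =>
      neg_ne_zero.2 (mul_ne_zero (sub_ne_zero.2 (hx l).symm) (sub_ne_zero.2 (hb l).symm))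
    have h1 := hSchur (Fin (k + c)) (Fin c) (diagonal fun l => ((JB_d b x y l : ℝ) : ℂ))
      (JB_M b E y) (-S) (JB_diag_herm _) hS.neg (by
        rw [det_diagonal, Finset.prod_ne_zero_iff]
        intro l _
        exact_mod_cast hd l)
    rw [JB_compl b E S x y hx hb, hNg.2.2 (Fin (k + c)) (JB_d b x y)] at h1
    exact h1
  obtain ⟨U, hU, hUo, hUx⟩ := eventually_nhds_iff.1 hev2
  obtain ⟨ε, hε, hball⟩ := Metric.isOpen_iff.1 hUo x₀ hUx
  have hmem : Set.Ioo (0 : ℝ) (min ε δ) ∈ 𝓝[>] (0 : ℝ) := Ioo_mem_nhdsGT (lt_min hε hδ)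
  filter_upwards [hmem] with h hh
  obtain ⟨h0, h1⟩ := hh
  have hhε : h < ε := lt_of_lt_of_le h1 (min_le_left _ _)
  have hhδ : h < δ := lt_of_lt_of_le h1 (min_le_right _ _)
  have hp : ∀ l, (b l).re ≠ x₀ + h := by
    intro l hl
    by_cases h2 : (b l).re = x₀
    · linarith
    · have h3 := hnear l h2
      rw [hl, add_sub_cancel_left, abs_of_pos h0] at h3
      linarith
  have hm : ∀ l, (b l).re ≠ x₀ - h := by
    intro l hl
    by_cases h2 : (b l).re = x₀
    · linarith
    · have h3 := hnear l h2
      rw [hl, show x₀ - h - x₀ = -h by ring, abs_neg, abs_of_pos h0] at h3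
      linarith
  have n1 : ng (JB_N b E S (x₀ + h) y) = ng (JB_N b E S x₀ y) := by
    apply hU
    apply hball
    rw [Metric.mem_ball, Real.dist_eq, add_sub_cancel_left, abs_of_pos h0]
    exact hhε
  have n2 : ng (JB_N b E S (x₀ - h) y) = ng (JB_N b E S x₀ y) := by
    apply hU
    apply hball
    rw [Metric.mem_ball, Real.dist_eq, show x₀ - h - x₀ = -h by ring, abs_neg, abs_of_pos h0]
    exact hhε
  have k1 := key (x₀ + h) hp
  have k2 := key (x₀ - h) hm
  -- comparison of the two counts
  have c1 : (Finset.univ.filter (fun l => JB_d b (x₀ + h) y l < 0)).card =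
      (Finset.univ.filter (fun l => (b l).re = x₀ ∧ (b l).im < y)).card +
      (Finset.univ.filter (fun l => (b l).re ≠ x₀ ∧ JB_d b x₀ y l < 0)).card := by
    rw [← Finset.card_union_of_disjoint]
    · apply congrArg
      ext l
      simp only [Finset.mem_filter, Finset.mem_univ, true_and, Finset.mem_union]
      unfold JB_d
      by_cases h2 : (b l).re = x₀
      · rw [h2]
        constructor
        · intro h3
          refine Or.inl ⟨rfl, ?_⟩
          by_contra h4
          rw [not_lt] at h4
          nlinarith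
        · rintro (⟨-, h3⟩ | ⟨h3, -⟩)
          · nlinarith
          · exact absurd rfl h3
      · have h3 := hnear l h2
        constructor
        · intro h4
          refine Or.inr ⟨h2, ?_⟩
          rcases lt_or_gt_of_ne h2 with h5 | h5
          · rw [abs_of_neg (by linarith)] at h3
            have : 0 < y - (b l).im := by
              by_contra h6
              rw [not_lt] at h6
              nlinarith
            nlinarith
          · rw [abs_of_pos (by linarith)] at h3
            have : y - (b l).im < 0 := by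
              by_contra h6
              rw [not_lt] at h6
              nlinarith
            nlinarith
        · rintro (⟨h4, -⟩ | ⟨-, h4⟩)
          · exact absurd h4 h2
          · rcases lt_or_gt_of_ne h2 with h5 | h5
            · rw [abs_of_neg (by linarith)] at h3
              have : 0 < y - (b l).im := by
                by_contra h6
                rw [not_lt] at h6
                nlinarith
              nlinarith
            · rw [abs_of_pos (by linarith)] at h3
              have : y - (b l).im < 0 := by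
                by_contra h6
                rw [not_lt] at h6
                nlinarith
              nlinarith
    · rw [Finset.disjoint_left]
      intro l h2 h3
      rw [Finset.mem_filter] at h2 h3
      exact h3.2.1 h2.2.1
  have c2 : (Finset.univ.filter (fun l => JB_d b (x₀ - h) y l < 0)).card =
      (Finset.univ.filter (fun l => (b l).re = x₀ ∧ y < (b l).im)).card +
      (Finset.univ.filter (fun l => (b l).re ≠ x₀ ∧ JB_d b x₀ y l < 0)).card := by
    rw [← Finset.card_union_of_disjoint]
    · apply congrArg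
      ext l
      simp only [Finset.mem_filter, Finset.mem_univ, true_and, Finset.mem_union]
      unfold JB_d
      by_cases h2 : (b l).re = x₀
      · rw [h2]
        constructor
        · intro h3
          refine Or.inl ⟨rfl, ?_⟩
          by_contra h4
          rw [not_lt] at h4
          nlinarith
        · rintro (⟨-, h3⟩ | ⟨h3, -⟩)
          · nlinarith
          · exact absurd rfl h3
      · have h3 := hnear l h2
        constructor
        · intro h4
          refine Or.inr ⟨h2, ?_⟩
          rcases lt_or_gt_of_ne h2 with h5 | h5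
          · rw [abs_of_neg (by linarith)] at h3
            have : 0 < y - (b l).im := by
              by_contra h6
              rw [not_lt] at h6
              nlinarith
            nlinarith
          · rw [abs_of_pos (by linarith)] at h3
            have : y - (b l).im < 0 := by
              by_contra h6
              rw [not_lt] at h6
              nlinarith
            nlinarith
        · rintro (⟨h4, -⟩ | ⟨-, h4⟩)
          · exact absurd h4 h2
          · rcases lt_or_gt_of_ne h2 with h5 | h5
            · rw [abs_of_neg (by linarith)] at h3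
              have : 0 < y - (b l).im := by
                by_contra h6
                rw [not_lt] at h6
                nlinarith
              nlinarith
            · rw [abs_of_pos (by linarith)] at h3
              have : y - (b l).im < 0 := by
                by_contra h6
                rw [not_lt] at h6
                nlinarith
              nlinarith
    · rw [Finset.disjoint_left]
      intro l h2 h3
      rw [Finset.mem_filter] at h2 h3
      exact h3.2.1 h2.2.1
  rw [n1, c1] at k1
  rw [n2, c2] at k2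
  omega

end Pool.Agent.NCC
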