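import Pool.Agent.NCC.StM

/-!
# NCC: jumps of the inertia along a vertical line
-/

set_option autoImplicit false

namespace Pool.Agent.NCC

open Polynomial Matrix Filter Topology Module
open scoped ComplexConjugate

/-- geometric and algebraic multiplicity -/
private theorem JY_mult {c : ℕ} (N : Matrix (Fin c) (Fin c) ℂ) (r : ℂ) :
    c ≤ (r • (1 : Matrix (Fin c) (Fin c) ℂ) - N).rank + N.charpoly.rootMultiplicity r := by
  have h1 := LinearMap.finrank_eigenspace_le (Matrix.toLin' N) r
  rw [Matrix.charpoly_toLin', Module.End.eigenspace_def] at h1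
  have h2 : (r • (1 : Matrix (Fin c) (Fin c) ℂ) - N).rank =
      finrank ℂ (LinearMap.range (Matrix.toLin' N - r • (1 : Module.End ℂ (Fin c → ℂ)))) := by
    have h3 : Matrix.toLin' N - r • (1 : Module.End ℂ (Fin c → ℂ)) =
        -(Matrix.mulVecLin (r • (1 : Matrix (Fin c) (Fin c) ℂ) - N)) := by
      ext1 i
      ext j
      simp
    rw [h3, LinearMap.range_neg]
    rfl
  have h4 := LinearMap.finrank_range_add_finrank_ker
    (Matrix.toLin' N - r • (1 : Module.End ℂ (Fin c → ℂ)))
  rw [← h2, finrank_fintype_fun_eq_card, Fintype.card_fin] at h4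
  omega

/-- the slice of the polynomial is the characteristic polynomial -/
private theorem JY_charpoly {c : ℕ} (S G : Matrix (Fin c) (Fin c) ℂ) (F : BP) (x : ℝ)
    (h : ∀ y : ℝ, (ev F x y : ℂ) = (PP S G x y).det) :
    (sl F x).map Complex.ofRealHom = ((x : ℂ) • S - G).charpoly := by
  refine Polynomial.eq_of_infinite_eval_eq _ _ ?_
  refine Set.Infinite.mono ?_ (Set.infinite_range_of_injective Complex.ofReal_injective)
  rintro _ ⟨y, rfl⟩
  show eval (y : ℂ) ((sl F x).map Complex.ofRealHom) = eval (y : ℂ) ((x : ℂ) • S - G).charpoly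
  have h1 : eval (y : ℂ) ((sl F x).map Complex.ofRealHom) = ((ev F x y : ℝ) : ℂ) := by
    have := Polynomial.eval_map_apply (f := Complex.ofRealHom) (p := sl F x) y
    exact this
  rw [h1, h, Matrix.eval_charpoly]
  congr 1
  unfold PP
  rw [Matrix.scalar_apply, ← Matrix.smul_one_eq_diagonal]
  abel

private theorem JY_sign {u v μ : ℕ} {q₁ q₂ τ : ℝ} (h1 : 0 < (-1) ^ u * (q₁ * τ))
    (h2 : 0 < (-1) ^ v * (q₂ * τ)) (h3 : 0 < (-1) ^ μ * (q₁ * q₂)) : Even (u + v + μ) := by
  by_contra hodd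
  rw [Nat.not_even_iff_odd] at hodd
  have h4 := mul_pos (mul_pos h1 h2) h3
  have h5 : (-1 : ℝ) ^ u * (q₁ * τ) * ((-1) ^ v * (q₂ * τ)) * ((-1) ^ μ * (q₁ * q₂)) =
      (-1) ^ (u + v + μ) * (q₁ * q₂ * τ) ^ 2 := by
    rw [pow_add, pow_add]
    ring
  rw [h5, hodd.neg_one_pow] at h4
  nlinarith [sq_nonneg (q₁ * q₂ * τ)]

private theorem JY_cont {n c : ℕ} (b : Fin n → ℂ) (E : Matrix (Fin n) (Fin c) ℂ)
    (S : Matrix (Fin c) (Fin c) ℂ) (x : ℝ) : Continuous fun y : ℝ => Hm b E S x y := by
  unfold Hm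
  refine Continuous.sub ?_ continuous_const
  refine Continuous.matrix_mul (Continuous.matrix_mul continuous_const ?_) continuous_const
  refine Continuous.matrix_diagonal ?_
  refine continuous_pi fun l => ?_
  refine Complex.continuous_ofReal.comp ?_
  fun_prop

theorem thm_JY (hNg : St_Ng) (hSemi : St_Semi) (hPar : St_Par) (hMId : St_MId)
    (hJump : St_Jump) : St_JY := by
  intro k c a b W E S G F hPD hmon hdeg hdet x hxb hxa
  have hHerm : ∀ y : ℝ, (Hm b E S x y).IsHermitian := fun y => (hMId k c a b W E S G hPD x y).1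
  have hThH : (Th b E x).IsHermitian := (hMId k c a b W E S G hPD x 0).2.1
  have hPT : ∀ y : ℝ, PP S G x y * Th b E x = Hm b E S x y := fun y =>
    ((hMId k c a b W E S G hPD x y).2.2 hxb).1
  have hTd : (Th b E x).det ≠ 0 := by
    intro h0
    have h1 := ((hMId k c a b W E S G hPD x 0).2.2 hxb).2
    rw [h0, zero_mul] at h1
    have h2 := Finset.prod_eq_zero_iff.1 h1.symm
    obtain ⟨j, _, hj⟩ := h2
    have h3 : x - (a j).re = 0 := by exact_mod_cast hj
    exact hxa j (by linarith)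
  obtain ⟨τ, hτ⟩ : ∃ τ : ℝ, (Th b E x).det = (τ : ℂ) :=
    ⟨(Th b E x).det.re, Complex.ext rfl (by
      rw [Complex.ofReal_im]
      exact (hPar (Fin c) (Th b E x) hThH hTd).2)⟩
  have hdH : ∀ y : ℝ, (Hm b E S x y).det = ((ev F x y * τ : ℝ) : ℂ) := by
    intro y
    rw [← hPT, Matrix.det_mul, ← hdet, hτ]
    push_cast
    rfl
  have hτ0 : τ ≠ 0 := by
    rintro rfl
    exact hTd (by rw [hτ]; simp)
  have hq : sl F x ≠ 0 := (hmon.map _).ne_zero
  have hrank : ∀ y : ℝ, (Hm b E S x y).rank = (PP S G x y).rank := by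
    intro y
    rw [← hPT]
    exact Matrix.rank_mul_eq_left_of_isUnit_det _ _ (isUnit_iff_ne_zero.2 hTd)
  have hloc : ∀ y, (sl F x).eval y ≠ 0 →
      ∀ᶠ z in 𝓝 y, ((ng (Hm b E S x z) : ℕ) : ℤ) = (ng (Hm b E S x y) : ℤ) := by
    intro y hy
    have h1 := hSemi ℝ (Fin c) (fun z => Hm b E S x z) y (JY_cont b E S x).continuousAt hHerm
    have h2 : (Hm b E S x y).det ≠ 0 := by
      rw [hdH]
      exact_mod_cast mul_ne_zero hy hτ0
    have h3 : (Hm b E S x y).rank = Fintype.card (Fin c) :=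
      Matrix.rank_of_isUnit _ ((Matrix.isUnit_iff_isUnit_det _).2 (isUnit_iff_ne_zero.2 h2))
    filter_upwards [h1] with z hz
    omega
  have hroot : ∀ r, (sl F x).eval r = 0 → ∃ δ : ℝ, 0 < δ ∧ ∀ y₁ y₂ : ℝ, r - δ < y₁ → y₁ < r →
      r < y₂ → y₂ < r + δ →
      |((ng (Hm b E S x y₁) : ℕ) : ℤ) - (ng (Hm b E S x y₂) : ℤ)| ≤ (sl F x).rootMultiplicity r ∧
      (((ng (Hm b E S x y₁) : ℕ) : ℤ) - (ng (Hm b E S x y₂) : ℤ) -
        (sl F x).rootMultiplicity r) % 2 = 0 := by
    intro r _
    have h1 := hSemi ℝ (Fin c) (fun z => Hm b E S x z) r (JY_cont b E S x).continuousAt hHerm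
    obtain ⟨p, hp1, hp2⟩ := Polynomial.exists_eq_pow_rootMultiplicity_mul_and_not_dvd _ hq r
    rw [Polynomial.dvd_iff_isRoot, Polynomial.IsRoot.def] at hp2
    have h2 : ∀ᶠ z in 𝓝 r, 0 < p.eval z * p.eval r := by
      have h3 : ContinuousAt (fun z => p.eval z * p.eval r) r := by fun_prop
      have h4 : 0 < p.eval r * p.eval r := mul_self_pos.2 hp2
      exact h3.eventually (lt_mem_nhds h4)
    obtain ⟨δ, hδ, hδ'⟩ := Metric.eventually_nhds_iff.1 (h1.and h2)
    refine ⟨δ, hδ, fun y₁ y₂ ha hb hc hd => ?_⟩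
    have e1 := hδ' (y := y₁) (by rw [Real.dist_eq, abs_lt]; constructor <;> linarith)
    have e2 := hδ' (y := y₂) (by rw [Real.dist_eq, abs_lt]; constructor <;> linarith)
    obtain ⟨⟨a1, a2⟩, a3⟩ := e1
    obtain ⟨⟨b1, b2⟩, b3⟩ := e2
    simp only [Fintype.card_fin] at a1 a2 b1 b2
    have hm : c ≤ (Hm b E S x r).rank + (sl F x).rootMultiplicity r := by
      have h5 := JY_mult ((x : ℂ) • S - G) (r : ℂ)
      rw [← JY_charpoly S G F x (hdet x)] at h5
      have h6 := Polynomial.eq_rootMultiplicity_map (p := sl F x) (f := Complex.ofRealHom)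
        Complex.ofReal_injective r
      have h7 : (r : ℂ) • (1 : Matrix (Fin c) (Fin c) ℂ) - ((x : ℂ) • S - G) = PP S G x r := by
        unfold PP
        abel
      rw [h7] at h5
      rw [hrank, h6]
      exact h5
    refine ⟨?_, ?_⟩
    · rw [abs_le]
      constructor <;> omega
    · have hev : ∀ y : ℝ, ev F x y = (y - r) ^ (sl F x).rootMultiplicity r * p.eval y := by
        intro y
        have h8 : (sl F x).eval y = ((X - C r) ^ (sl F x).rootMultiplicity r * p).eval y :=
          congrArg (fun t => t.eval y) hp1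
        rw [Polynomial.eval_mul, Polynomial.eval_pow, Polynomial.eval_sub, Polynomial.eval_X,
          Polynomial.eval_C] at h8
        exact h8
      have hprod : 0 < (-1) ^ (sl F x).rootMultiplicity r * (ev F x y₁ * ev F x y₂) := by
        rw [hev, hev]
        have e3 : 0 < p.eval y₁ * p.eval y₂ := by
          have := mul_pos a3 b3
          have e4 : p.eval y₁ * p.eval r * (p.eval y₂ * p.eval r) =
              (p.eval y₁ * p.eval y₂) * (p.eval r * p.eval r) := by ring
          rw [e4] at this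
          exact pos_of_mul_pos_left this (mul_self_nonneg _)
        have e5 : 0 < (r - y₁) * (y₂ - r) := mul_pos (by linarith) (by linarith)
        have e6 : (-1 : ℝ) ^ (sl F x).rootMultiplicity r *
            ((y₁ - r) ^ (sl F x).rootMultiplicity r * p.eval y₁ *
              ((y₂ - r) ^ (sl F x).rootMultiplicity r * p.eval y₂)) =
            ((r - y₁) * (y₂ - r)) ^ (sl F x).rootMultiplicity r * (p.eval y₁ * p.eval y₂) := by
          rw [mul_pow, show r - y₁ = (-1) * (y₁ - r) by ring, mul_pow]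
          ring
        rw [e6]
        exact mul_pos (pow_pos e5 _) e3
      have hne : ev F x y₁ ≠ 0 ∧ ev F x y₂ ≠ 0 := by
        constructor
        · intro h0
          rw [h0, zero_mul, mul_zero] at hprod
          exact lt_irrefl _ hprod
        · intro h0
          rw [h0, mul_zero, mul_zero] at hprod
          exact lt_irrefl _ hprod
      have hsg : ∀ y : ℝ, ev F x y ≠ 0 → 0 < (-1) ^ ng (Hm b E S x y) * (ev F x y * τ) := by
        intro y hy
        have h9 : (Hm b E S x y).det ≠ 0 := by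
          rw [hdH]
          exact_mod_cast mul_ne_zero hy hτ0
        have h10 := (hPar (Fin c) _ (hHerm y) h9).1
        rw [hdH, Complex.ofReal_re] at h10
        exact h10
      obtain ⟨t, ht⟩ := JY_sign (hsg y₁ hne.1) (hsg y₂ hne.2) hprod
      omega
  intro y₁ y₂ hlt h1 h2
  have hfin := hJump (sl F x) (fun y => (ng (Hm b E S x y) : ℤ)) hq hloc hroot y₁ y₂ hlt h1 h2
  have hcnt : ((sl F x).roots.filter (fun y => y₁ < y ∧ y < y₂)).card = cnt F x y₁ y₂ := by
    unfold cnt
    congr 1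
  rw [hcnt] at hfin
  exact hfin

end Pool.Agent.NCC
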