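import Pool.Agent.NCC.StM

/-!
# NCC, module Jump: counting the jumps of an integer function (helper38)
-/

set_option autoImplicit false

namespace Pool.Agent.NCC

open Polynomial Filter Topology

private theorem Jump_const {q : ℝ[X]} {u : ℝ → ℤ}
    (h1 : ∀ y, q.eval y ≠ 0 → ∀ᶠ z in 𝓝 y, u z = u y) {a b : ℝ} (hab : a ≤ b)
    (h : ∀ y ∈ Set.Icc a b, q.eval y ≠ 0) : u a = u b := by
  refine isPreconnected_Icc.constant (f := u) (fun y hy => ?_) (Set.left_mem_Icc.2 hab)
    (Set.right_mem_Icc.2 hab)
  refine ContinuousAt.continuousWithinAt ?_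
  refine (continuousAt_const (y := u y)).congr ?_
  filter_upwards [h1 y (h y hy)] with z hz
  exact hz.symm

/-- an interval around a root which contains no other root -/
private theorem Jump_iso {q : ℝ[X]} (hq : q ≠ 0) (r : ℝ) :
    ∃ ε : ℝ, 0 < ε ∧ ∀ z, r - ε < z → z < r + ε → q.eval z = 0 → z = r := by
  have h1 : ((q.roots.toFinset.erase r : Finset ℝ) : Set ℝ)ᶜ ∈ 𝓝 r := by
    refine (Finset.finite_toSet _).isClosed.isOpen_compl.mem_nhds ?_
    intro h
    exact Finset.notMem_erase r _ (Finset.mem_coe.1 h)
  obtain ⟨ε, hε, h2⟩ := Metric.mem_nhds_iff.1 h1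
  refine ⟨ε, hε, fun z hz1 hz2 hz => ?_⟩
  by_contra hne
  have h3 : z ∈ Metric.ball r ε := by
    rw [Metric.mem_ball, Real.dist_eq, abs_lt]
    constructor <;> linarith
  apply h2 h3
  rw [Finset.mem_coe, Finset.mem_erase, Multiset.mem_toFinset, mem_roots hq]
  exact ⟨hne, hz⟩

theorem thm_Jump : St_Jump := by
  intro q u hq h1 h2
  have key : ∀ (n : ℕ) (y₁ y₂ : ℝ),
      (q.roots.toFinset.filter fun y => y₁ < y ∧ y < y₂).card ≤ n → y₁ < y₂ →
      q.eval y₁ ≠ 0 → q.eval y₂ ≠ 0 →
      |u y₁ - u y₂| ≤ ((q.roots.filter (fun y => y₁ < y ∧ y < y₂)).card : ℤ) ∧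
      (u y₁ - u y₂ - ((q.roots.filter (fun y => y₁ < y ∧ y < y₂)).card : ℤ)) % 2 = 0 := by
    intro n
    induction n with
    | zero =>
      intro y₁ y₂ hn h12 e1 e2
      have h3 : ∀ y, y₁ < y → y < y₂ → q.eval y ≠ 0 := by
        intro y hy1 hy2 h0
        have h4 := Finset.card_eq_zero.1 (Nat.le_zero.1 hn)
        have h5 : y ∈ q.roots.toFinset.filter fun y => y₁ < y ∧ y < y₂ := by
          rw [Finset.mem_filter, Multiset.mem_toFinset, mem_roots hq]
          exact ⟨h0, hy1, hy2⟩
        rw [h4] at h5
        exact Finset.notMem_empty _ h5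
      have h4 : u y₁ = u y₂ := by
        refine Jump_const h1 h12.le fun y hy => ?_
        rcases eq_or_lt_of_le hy.1 with h5 | h5
        · rw [← h5]
          exact e1
        · rcases eq_or_lt_of_le hy.2 with h6 | h6
          · rw [h6]
            exact e2
          · exact h3 y h5 h6
      have h5 : q.roots.filter (fun y => y₁ < y ∧ y < y₂) = 0 := by
        rw [Multiset.filter_eq_nil]
        intro y hy hy2
        rw [mem_roots hq] at hy
        exact h3 y hy2.1 hy2.2 hy
      rw [h4, h5]
      simp
    | succ n ih =>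
      intro y₁ y₂ hn h12 e1 e2
      by_cases hex : ∃ r, y₁ < r ∧ r < y₂ ∧ q.eval r = 0
      · obtain ⟨r, hr1, hr2, hr⟩ := hex
        obtain ⟨δ, hδ, hj⟩ := h2 r hr
        obtain ⟨ε, hε, hiso⟩ := Jump_iso hq r
        obtain ⟨a, ha1, ha2, ha3, ha4⟩ : ∃ a, y₁ < a ∧ a < r ∧ r - δ < a ∧ r - ε < a := by
          obtain ⟨a, h3, h4⟩ := exists_between (show max (max y₁ (r - δ)) (r - ε) < r by
            rw [max_lt_iff, max_lt_iff]
            exact ⟨⟨hr1, by linarith⟩, by linarith⟩)
          rw [max_lt_iff, max_lt_iff] at h3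
          exact ⟨a, h3.1.1, h4, h3.1.2, h3.2⟩
        obtain ⟨b, hb1, hb2, hb3, hb4⟩ : ∃ b, r < b ∧ b < y₂ ∧ b < r + δ ∧ b < r + ε := by
          obtain ⟨b, h3, h4⟩ := exists_between (show r < min (min y₂ (r + δ)) (r + ε) by
            rw [lt_min_iff, lt_min_iff]
            exact ⟨⟨hr2, by linarith⟩, by linarith⟩)
          rw [lt_min_iff, lt_min_iff] at h4
          exact ⟨b, h3, h4.1.1, h4.1.2, h4.2⟩
        have ea : q.eval a ≠ 0 := fun h => by
          have := hiso a ha4 (by linarith) h
          linarith
        have eb : q.eval b ≠ 0 := fun h => by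
          have := hiso b (by linarith) hb4 h
          linarith
        have hlt : ∀ s t : ℝ, y₁ ≤ s → t ≤ y₂ → (r ≤ s ∨ t ≤ r) →
            (q.roots.toFinset.filter fun y => s < y ∧ y < t).card ≤ n := by
          intro s t hs ht hst
          refine Nat.le_of_lt_succ (lt_of_lt_of_le (Finset.card_lt_card ?_) hn)
          rw [Finset.ssubset_iff_of_subset]
          · refine ⟨r, ?_, ?_⟩
            · rw [Finset.mem_filter, Multiset.mem_toFinset, mem_roots hq]
              exact ⟨hr, hr1, hr2⟩
            · rw [Finset.mem_filter]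
              rintro ⟨-, h3, h4⟩
              rcases hst with h5 | h5 <;> linarith
          · intro y hy
            rw [Finset.mem_filter] at hy ⊢
            exact ⟨hy.1, lt_of_le_of_lt hs hy.2.1, lt_of_lt_of_le hy.2.2 ht⟩
        have A := ih y₁ a (hlt _ _ le_rfl (by linarith) (Or.inr ha2.le)) ha1 e1 ea
        have B := ih b y₂ (hlt _ _ (by linarith) le_rfl (Or.inl hb1.le)) hb2 eb e2
        have J := hj a b ha3 ha2 hb1 hb3
        have hcard : (q.roots.filter (fun y => y₁ < y ∧ y < y₂)).card =
            (q.roots.filter (fun y => y₁ < y ∧ y < a)).card + q.rootMultiplicity r +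
            (q.roots.filter (fun y => b < y ∧ y < y₂)).card := by
          have h3 : q.roots.filter (fun y => y₁ < y ∧ y < y₂) =
              q.roots.filter (fun y => ((y₁ < y ∧ y < a) ∨ y = r) ∨ (b < y ∧ y < y₂)) := by
            refine Multiset.filter_congr fun y hy => ?_
            rw [mem_roots hq] at hy
            constructor
            · rintro ⟨h4, h5⟩
              by_cases h6 : y < a
              · exact Or.inl (Or.inl ⟨h4, h6⟩)
              · by_cases h7 : b < y
                · exact Or.inr ⟨h7, h5⟩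
                · exact Or.inl (Or.inr (hiso y (by linarith [not_lt.1 h6])
                    (by linarith [not_lt.1 h7]) hy))
            · rintro ((⟨h4, h5⟩ | h4) | ⟨h4, h5⟩)
              · exact ⟨h4, by linarith⟩
              · rw [h4]
                exact ⟨hr1, hr2⟩
              · exact ⟨by linarith, h5⟩
          have h4 := congrArg Multiset.card (Multiset.filter_add_filter
            (fun y => (y₁ < y ∧ y < a) ∨ y = r) (fun y => b < y ∧ y < y₂) q.roots)
          have h5 : q.roots.filter (fun y => ((y₁ < y ∧ y < a) ∨ y = r) ∧ (b < y ∧ y < y₂)) = 0 := by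
            rw [Multiset.filter_eq_nil]
            rintro y - ⟨h6 | h6, h7, -⟩
            · linarith [h6.2]
            · linarith
          have h6 := congrArg Multiset.card (Multiset.filter_add_filter
            (fun y => y₁ < y ∧ y < a) (fun y => y = r) q.roots)
          have h7 : q.roots.filter (fun y => (y₁ < y ∧ y < a) ∧ y = r) = 0 := by
            rw [Multiset.filter_eq_nil]
            rintro y - ⟨⟨-, h8⟩, h9⟩
            linarith
          have h8 : (q.roots.filter (fun y => y = r)).card = q.rootMultiplicity r := by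
            rw [Multiset.filter_eq', Multiset.card_replicate, count_roots]
          rw [Multiset.card_add, Multiset.card_add, h5, Multiset.card_zero, add_zero] at h4
          rw [Multiset.card_add, Multiset.card_add, h7, Multiset.card_zero, add_zero, h8] at h6
          rw [h3, ← h4, ← h6]
        obtain ⟨A1, A2⟩ := A
        obtain ⟨B1, B2⟩ := B
        obtain ⟨J1, J2⟩ := J
        rw [hcard]
        push_cast
        rw [abs_le] at A1 B1 J1
        refine ⟨?_, ?_⟩
        · rw [abs_le]
          constructor <;> linarith [A1.1, A1.2, B1.1, B1.2, J1.1, J1.2]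
        · omega
      · push Not at hex
        refine ih y₁ y₂ ?_ h12 e1 e2
        have h3 : (q.roots.toFinset.filter fun y => y₁ < y ∧ y < y₂) = ∅ := by
          rw [Finset.filter_eq_empty_iff]
          intro y hy hy2
          rw [Multiset.mem_toFinset, mem_roots hq] at hy
          exact hex y hy2.1 hy2.2 hy
        rw [h3, Finset.card_empty]
        exact Nat.zero_le _
  intro y₁ y₂ h12 e1 e2
  exact key _ y₁ y₂ le_rfl h12 e1 e2

end Pool.Agent.NCC
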