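import Pool.Agent.NCC.StM

/-!
# NCC, module KId: second representation of the pencil
-/

set_option autoImplicit false

namespace Pool.Agent.NCC

open Matrix

private lemma KId_dre {n : ℕ} (b : Fin n → ℂ) : (dre b)ᴴ = dre b := by
  unfold dre
  rw [diagonal_conjTranspose]
  congr 1
  funext l
  simp

private lemma KId_dimg {n : ℕ} (b : Fin n → ℂ) : (dimg b)ᴴ = dimg b := by
  unfold dimg
  rw [diagonal_conjTranspose]
  congr 1
  funext l
  simp

private lemma KId_comm {n : ℕ} (b : Fin n → ℂ) : dre b * dimg b = dimg b * dre b := by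
  unfold dre dimg
  rw [diagonal_mul_diagonal, diagonal_mul_diagonal]
  congr 1
  funext l
  ring

private lemma KId_split {n : ℕ} (b : Fin n → ℂ) :
    diagonal b = dre b + Complex.I • dimg b := by
  unfold dre dimg
  rw [← diagonal_smul, diagonal_add]
  congr 1
  funext l
  show b l = ((b l).re : ℂ) + Complex.I * ((b l).im : ℂ)
  rw [mul_comm]
  exact (Complex.re_add_im (b l)).symm

/-- the real part of the compression -/
private lemma KId_A1 {k c : ℕ} (a : Fin k → ℂ) (b : Fin (k + c) → ℂ)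
    (W : Matrix (Fin (k + c)) (Fin k) ℂ) (hA : Wᴴ * diagonal b * W = diagonal a) :
    Wᴴ * dre b * W = dre a ∧ Wᴴ * dimg b * W = dimg a := by
  have h1 : Wᴴ * dre b * W + Complex.I • (Wᴴ * dimg b * W) = dre a + Complex.I • dimg a := by
    rw [← KId_split a, ← hA, KId_split b, Matrix.mul_add, Matrix.add_mul, Matrix.mul_smul,
      Matrix.smul_mul]
  have h2 := congrArg conjTranspose h1
  simp only [conjTranspose_add, conjTranspose_smul, conjTranspose_mul, conjTranspose_conjTranspose,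
    KId_dre, KId_dimg, Complex.star_def, Complex.conj_I, ← Matrix.mul_assoc] at h2
  have h3 : (2 : ℂ) • (Wᴴ * dre b * W) = (2 : ℂ) • dre a := by
    have h4 : (2 : ℂ) • (Wᴴ * dre b * W) = (Wᴴ * dre b * W + Complex.I • (Wᴴ * dimg b * W)) +
        (Wᴴ * dre b * W + -Complex.I • (Wᴴ * dimg b * W)) := by module
    rw [h4, h1, h2]
    module
  have h5 : Wᴴ * dre b * W = dre a := by
    have h6 := congrArg (fun M => ((1 : ℂ) / 2) • M) h3
    simpa only [smul_smul, one_div, inv_mul_cancel₀ (two_ne_zero' ℂ), one_smul] using h6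
  refine ⟨h5, ?_⟩
  rw [h5] at h1
  have h7 := add_left_cancel h1
  have h8 := congrArg (fun M => (-Complex.I) • M) h7
  simpa only [smul_smul, neg_mul, Complex.I_mul_I, neg_neg, one_smul] using h8

/-- [KId] Second representation of the pencil.

Proof. `X = Wᴴ B₁ E`, `Z_i = Eᴴ B_i E`, `M₀ = Xᴴ X S + (x - Z₁) (y - x S + G)`. Multiply `hG` by `Wᴴ` and by `Eᴴ`:
`Wᴴ B₂ E = X S`, `Gᴴ = Z₁ S - Z₂`, `G = S Z₁ - Z₂`. Insert `1 = W Wᴴ + E Eᴴ` in `Wᴴ B₁ B₂ E = Wᴴ B₂ B₁ E`: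
`X G = A₁ X S - A₂ X` (`hXG`); and in `Eᴴ B₁ B₂ E = Eᴴ B₂ B₁ E`: `Xᴴ X S + Z₁ Z₂ = S Xᴴ X + Z₂ Z₁` (`hcross`).
With this `M₀ = M₀ᴴ` by expansion. Let `R = (x - B₁)⁻¹`, `Q = (x - A₁)⁻¹`, `Th = Eᴴ R E`. From `B₁ R = x R - 1`:
`X Th = (x - A₁) Wᴴ R E`, `Q X Th = Wᴴ R E`, and `(x - Z₁ - Xᴴ Q X) Th = x Th - Eᴴ B₁ (E Eᴴ + W Wᴴ) R E = 1`
(`hTT`). So `T = x - Z₁ - Xᴴ Q X` is the inverse of `Th`; by `hXG` `T (y - x S + G) = M₀ - Xᴴ Q (y - A₂) X = K`, and
`Thᴴ K Th = Th T PP Th = PP Th = Hm`. -/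
theorem thm_KId : St_MId → St_KId := by
  intro hMId k c a b W E S G hP x y
  obtain ⟨hHm, hTh, hrest⟩ := hMId k c a b W E S G hP x y
  obtain ⟨hW, hE, hWE, hsum, hS, hA, hG⟩ := hP
  obtain ⟨hA1, hA2⟩ := KId_A1 a b W hA
  have hB1 := KId_dre b
  have hB2 := KId_dimg b
  have hcomm := KId_comm b
  have hEW : Eᴴ * W = 0 := by
    have h := congrArg conjTranspose hWE
    rwa [conjTranspose_mul, conjTranspose_conjTranspose, conjTranspose_zero] at h
  have hS' : Sᴴ = S := hS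
  set B1 := dre b with hdB1
  set B2 := dimg b with hdB2
  -- insertion of the partition of unity
  have ins : ∀ {p q : ℕ} (M : Matrix (Fin p) (Fin (k + c)) ℂ) (N : Matrix (Fin (k + c)) (Fin q) ℂ),
      M * N = (M * W) * (Wᴴ * N) + (M * E) * (Eᴴ * N) := by
    intro p q M N
    have h : M * N = M * (W * Wᴴ + E * Eᴴ) * N := by rw [hsum, Matrix.mul_one]
    rw [h, Matrix.mul_add, Matrix.add_mul]
    simp only [Matrix.mul_assoc]
  have hXS : Wᴴ * B2 * E = Wᴴ * B1 * E * S := by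
    have h := congrArg (fun M => Wᴴ * M) hG
    simp only [Matrix.mul_sub] at h
    rw [← Matrix.mul_assoc Wᴴ E, hWE, Matrix.zero_mul, sub_zero] at h
    simpa only [Matrix.mul_assoc] using h
  have hGs : Gᴴ = Eᴴ * B1 * E * S - Eᴴ * B2 * E := by
    have h := congrArg (fun M => Eᴴ * M) hG
    simp only [Matrix.mul_sub] at h
    rw [← Matrix.mul_assoc Eᴴ E, hE, Matrix.one_mul] at h
    rw [Matrix.mul_assoc Eᴴ B2 E, h]
    simp only [Matrix.mul_assoc]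
    abel
  have hZ1 : (Eᴴ * B1 * E)ᴴ = Eᴴ * B1 * E := by
    rw [conjTranspose_mul, conjTranspose_mul, conjTranspose_conjTranspose, hB1, Matrix.mul_assoc]
  have hZ2 : (Eᴴ * B2 * E)ᴴ = Eᴴ * B2 * E := by
    rw [conjTranspose_mul, conjTranspose_mul, conjTranspose_conjTranspose, hB2, Matrix.mul_assoc]
  have hGe : G = S * (Eᴴ * B1 * E) - Eᴴ * B2 * E := by
    have h := congrArg conjTranspose hGs
    rwa [conjTranspose_conjTranspose, conjTranspose_sub, conjTranspose_mul, hZ1, hZ2, hS'] at h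
  have hXH : (Wᴴ * B1 * E)ᴴ = Eᴴ * B1 * W := by
    rw [conjTranspose_mul, conjTranspose_mul, conjTranspose_conjTranspose, hB1, Matrix.mul_assoc]
  have hXH2 : (Wᴴ * B2 * E)ᴴ = Eᴴ * B2 * W := by
    rw [conjTranspose_mul, conjTranspose_mul, conjTranspose_conjTranspose, hB2, Matrix.mul_assoc]
  have hSX : S * (Wᴴ * B1 * E)ᴴ = Eᴴ * B2 * W := by
    rw [← hXH2, hXS, conjTranspose_mul (Wᴴ * B1 * E) S, hS']
  -- the relation between `X` and `G`
  have hXG : (Wᴴ * B1 * E) * G = dre a * (Wᴴ * B1 * E) * S - dimg a * (Wᴴ * B1 * E) := by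
    have e1 : Wᴴ * B1 * (B2 * E) = dre a * (Wᴴ * B1 * E * S) +
        (Wᴴ * B1 * E) * (Eᴴ * B2 * E) := by
      rw [ins (Wᴴ * B1) (B2 * E), hA1, ← Matrix.mul_assoc Wᴴ B2 E, hXS, ← Matrix.mul_assoc Eᴴ B2 E]
    have e2 : Wᴴ * B2 * (B1 * E) = dimg a * (Wᴴ * B1 * E) +
        (Wᴴ * B1 * E * S) * (Eᴴ * B1 * E) := by
      rw [ins (Wᴴ * B2) (B1 * E), hA2, hXS, ← Matrix.mul_assoc Wᴴ B1 E, ← Matrix.mul_assoc Eᴴ B1 E]
    have e3 : Wᴴ * B1 * (B2 * E) = Wᴴ * B2 * (B1 * E) := by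
      rw [Matrix.mul_assoc Wᴴ B1, ← Matrix.mul_assoc B1 B2, hcomm, Matrix.mul_assoc B2 B1,
        ← Matrix.mul_assoc Wᴴ B2]
    rw [e1, e2] at e3
    have e4 : (Wᴴ * B1 * E) * G = (Wᴴ * B1 * E * S) * (Eᴴ * B1 * E) -
        (Wᴴ * B1 * E) * (Eᴴ * B2 * E) := by
      conv_lhs => rw [hGe]
      rw [Matrix.mul_sub, Matrix.mul_assoc (Wᴴ * B1 * E) S]
    rw [e4, Matrix.mul_assoc (dre a)]
    rw [sub_eq_sub_iff_add_eq_add]
    rw [← sub_eq_zero] at e3 ⊢
    rw [← neg_eq_zero, ← e3]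
    abel
  -- the products of the blocks
  have hcross : (Wᴴ * B1 * E)ᴴ * (Wᴴ * B1 * E) * S + (Eᴴ * B1 * E) * (Eᴴ * B2 * E) =
      S * ((Wᴴ * B1 * E)ᴴ * (Wᴴ * B1 * E)) + (Eᴴ * B2 * E) * (Eᴴ * B1 * E) := by
    have e1 : Eᴴ * B1 * (B2 * E) = (Wᴴ * B1 * E)ᴴ * (Wᴴ * B1 * E) * S +
        (Eᴴ * B1 * E) * (Eᴴ * B2 * E) := by
      rw [ins (Eᴴ * B1) (B2 * E), ← Matrix.mul_assoc Wᴴ B2 E, hXS, ← Matrix.mul_assoc Eᴴ B2 E,
        ← hXH, ← Matrix.mul_assoc (Wᴴ * B1 * E)ᴴ]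
    have e2 : Eᴴ * B2 * (B1 * E) = S * ((Wᴴ * B1 * E)ᴴ * (Wᴴ * B1 * E)) +
        (Eᴴ * B2 * E) * (Eᴴ * B1 * E) := by
      rw [ins (Eᴴ * B2) (B1 * E), ← hSX, ← Matrix.mul_assoc Wᴴ B1 E, ← Matrix.mul_assoc Eᴴ B1 E,
        Matrix.mul_assoc S]
    have e3 : Eᴴ * B1 * (B2 * E) = Eᴴ * B2 * (B1 * E) := by
      rw [Matrix.mul_assoc Eᴴ B1, ← Matrix.mul_assoc B1 B2, hcomm, Matrix.mul_assoc B2 B1,
        ← Matrix.mul_assoc Eᴴ B2]
    rw [← e1, ← e2, e3]
  set X := Wᴴ * B1 * E with hdX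
  set Z1 := Eᴴ * B1 * E with hdZ1
  set Z2 := Eᴴ * B2 * E with hdZ2
  have hPPH : (PP S G x y)ᴴ = (y : ℂ) • 1 - (x : ℂ) • S + Gᴴ := by
    unfold PP
    simp [conjTranspose_add, conjTranspose_sub, conjTranspose_smul, hS']
  refine ⟨?_, ?_⟩
  · show (Xᴴ * X * S + ((x : ℂ) • 1 - Z1) * PP S G x y)ᴴ =
      Xᴴ * X * S + ((x : ℂ) • 1 - Z1) * PP S G x y
    have hleft : (Xᴴ * X * S + ((x : ℂ) • 1 - Z1) * PP S G x y)ᴴ =
        S * (Xᴴ * X) + ((y : ℂ) • 1 - (x : ℂ) • S + Gᴴ) * ((x : ℂ) • 1 - Z1) := by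
      rw [conjTranspose_add, conjTranspose_mul (Xᴴ * X) S, conjTranspose_mul Xᴴ X,
        conjTranspose_mul ((x : ℂ) • 1 - Z1) (PP S G x y), hPPH,
        conjTranspose_sub, hZ1, conjTranspose_conjTranspose, hS', conjTranspose_smul,
        conjTranspose_one, Complex.star_def, Complex.conj_ofReal]
    have hc2 : Xᴴ * X * S = S * (Xᴴ * X) + Z2 * Z1 - Z1 * Z2 := by
      rw [← hcross]; abel
    rw [hleft, hc2, hGs]
    unfold PP
    conv_rhs => rw [hGe]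
    simp only [Matrix.mul_sub, Matrix.sub_mul, Matrix.mul_add, Matrix.add_mul, Matrix.smul_mul,
      Matrix.mul_smul, Matrix.one_mul, Matrix.mul_one, Matrix.mul_assoc]
    module
  · intro hbx hax
    obtain ⟨hPT, -⟩ := hrest hbx
    have hx1 : ∀ l, ((x - (b l).re : ℝ) : ℂ) ≠ 0 := fun l =>
      Complex.ofReal_ne_zero.mpr (sub_ne_zero.mpr (Ne.symm (hbx l)))
    have hx2 : ∀ j, ((x - (a j).re : ℝ) : ℂ) ≠ 0 := fun j =>
      Complex.ofReal_ne_zero.mpr (sub_ne_zero.mpr (Ne.symm (hax j)))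
    set R : Matrix (Fin (k + c)) (Fin (k + c)) ℂ :=
      diagonal (fun l => ((1 / (x - (b l).re) : ℝ) : ℂ)) with hdR
    set Q : Matrix (Fin k) (Fin k) ℂ :=
      diagonal (fun j => ((1 / (x - (a j).re) : ℝ) : ℂ)) with hdQ
    have hBR : B1 * R = (x : ℂ) • R - 1 := by
      rw [hdB1, hdR]
      unfold dre
      rw [diagonal_mul_diagonal, ← diagonal_smul, ← diagonal_one, diagonal_sub]
      congr 1
      funext l
      have h := hx1 l
      push_cast at h ⊢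
      simp only [Pi.smul_apply, smul_eq_mul]
      field_simp
      ring
    have hQA : Q * ((x : ℂ) • 1 - dre a) = 1 := by
      rw [hdQ]
      unfold dre
      rw [smul_one_eq_diagonal, diagonal_sub, diagonal_mul_diagonal, ← diagonal_one]
      congr 1
      funext j
      have h := hx2 j
      push_cast at h ⊢
      field_simp
    have hTd : Th b E x = Eᴴ * R * E := rfl
    have hXT : X * Th b E x = ((x : ℂ) • 1 - dre a) * (Wᴴ * R * E) := by
      have e1 := ins (Wᴴ * B1) (R * E)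
      rw [hA1, ← Matrix.mul_assoc Wᴴ R E, ← Matrix.mul_assoc Eᴴ R E, ← hTd, ← hdX,
        ← Matrix.mul_assoc (Wᴴ * B1) R E, Matrix.mul_assoc Wᴴ B1 R, hBR, Matrix.mul_sub,
        Matrix.mul_one, Matrix.sub_mul, hWE, sub_zero, Matrix.mul_smul, Matrix.smul_mul] at e1
      rw [Matrix.sub_mul, Matrix.smul_mul, Matrix.one_mul, e1]
      abel
    have hQX : Q * X * Th b E x = Wᴴ * R * E := by
      rw [Matrix.mul_assoc, hXT, ← Matrix.mul_assoc, hQA, Matrix.one_mul]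
    have hTT : ((x : ℂ) • 1 - Z1 - Xᴴ * (Q * X)) * Th b E x = 1 := by
      have e1 := ins (Eᴴ * B1) (R * E)
      rw [← Matrix.mul_assoc Wᴴ R E, ← Matrix.mul_assoc Eᴴ R E, ← hTd, ← hdZ1, ← hXH,
        ← Matrix.mul_assoc (Eᴴ * B1) R E, Matrix.mul_assoc Eᴴ B1 R, hBR, Matrix.mul_sub,
        Matrix.mul_one, Matrix.sub_mul, hE, Matrix.mul_smul, Matrix.smul_mul, ← hTd] at e1
      rw [Matrix.sub_mul, Matrix.sub_mul, Matrix.smul_mul, Matrix.one_mul, Matrix.mul_assoc Xᴴ,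
        hQX, sub_sub, add_comm (Z1 * Th b E x), ← e1]
      abel
    have hTT' : Th b E x * ((x : ℂ) • 1 - Z1 - Xᴴ * (Q * X)) = 1 := mul_eq_one_comm.mp hTT
    refine ⟨?_, ?_⟩
    · intro h0
      have h1 := congrArg det hTT
      rw [det_mul, h0, mul_zero, det_one] at h1
      exact zero_ne_one h1
    · have hD : diagonal (fun j => (((y - (a j).im) / (x - (a j).re) : ℝ) : ℂ)) =
          Q * ((y : ℂ) • 1 - dimg a) := by
        rw [hdQ]
        unfold dimg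
        rw [smul_one_eq_diagonal, diagonal_sub, diagonal_mul_diagonal]
        congr 1
        funext j
        push_cast
        ring
      have hXP : X * PP S G x y = ((y : ℂ) • 1 - dimg a) * X - ((x : ℂ) • 1 - dre a) * (X * S) := by
        unfold PP
        rw [Matrix.mul_add, hXG]
        simp only [Matrix.mul_sub, Matrix.sub_mul, Matrix.smul_mul, Matrix.mul_smul,
          Matrix.one_mul, Matrix.mul_one, Matrix.mul_assoc]
        module
      have hK : Xᴴ * X * S + ((x : ℂ) • 1 - Z1) * PP S G x y -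
          Xᴴ * diagonal (fun j => (((y - (a j).im) / (x - (a j).re) : ℝ) : ℂ)) * X =
          ((x : ℂ) • 1 - Z1 - Xᴴ * (Q * X)) * PP S G x y := by
        rw [Matrix.sub_mul _ (Xᴴ * (Q * X)), Matrix.mul_assoc Xᴴ (Q * X), Matrix.mul_assoc Q X,
          hXP, Matrix.mul_sub Q, ← Matrix.mul_assoc Q ((x : ℂ) • 1 - dre a), hQA, Matrix.one_mul,
          ← Matrix.mul_assoc Q ((y : ℂ) • 1 - dimg a), ← hD, Matrix.mul_sub Xᴴ,
          ← Matrix.mul_assoc Xᴴ X S, ← Matrix.mul_assoc Xᴴ _ X]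
        abel
      have hThH : (Th b E x)ᴴ = Th b E x := hTh
      rw [hK, hThH, ← Matrix.mul_assoc, hTT', Matrix.one_mul, hPT]

end Pool.Agent.NCC
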