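import Pool.Agent.NCC.StM

/-!
# NCC, module Large : definite pencils
-/

set_option autoImplicit false

namespace Pool.Agent.NCC

open Polynomial Matrix Filter Topology Module
open scoped ComplexConjugate ComplexOrder

/-- diagonalization of a Hermitian matrix -/
private theorem Large_herm {c : ℕ} (N : Matrix (Fin c) (Fin c) ℂ) (hN : N.IsHermitian) :
    ∃ (U : Matrix (Fin c) (Fin c) ℂ) (μ : Fin c → ℝ), μ = hN.eigenvalues ∧ Uᴴ * U = 1 ∧
      Uᴴ * N * U = diagonal fun i => (μ i : ℂ) := by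
  have hU1 : (hN.eigenvectorUnitary : Matrix (Fin c) (Fin c) ℂ)ᴴ *
      (hN.eigenvectorUnitary : Matrix (Fin c) (Fin c) ℂ) = 1 :=
    (Matrix.mem_unitaryGroup_iff').1 hN.eigenvectorUnitary.2
  have hspec := hN.spectral_theorem
  rw [Unitary.conjStarAlgAut_apply] at hspec
  refine ⟨hN.eigenvectorUnitary, hN.eigenvalues, rfl, hU1, ?_⟩
  have h1 : N = (hN.eigenvectorUnitary : Matrix (Fin c) (Fin c) ℂ) *
      diagonal (fun i => (hN.eigenvalues i : ℂ)) *
      (hN.eigenvectorUnitary : Matrix (Fin c) (Fin c) ℂ)ᴴ := hspec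
  calc (hN.eigenvectorUnitary : Matrix (Fin c) (Fin c) ℂ)ᴴ * N *
        (hN.eigenvectorUnitary : Matrix (Fin c) (Fin c) ℂ)
      = (hN.eigenvectorUnitary : Matrix (Fin c) (Fin c) ℂ)ᴴ *
        ((hN.eigenvectorUnitary : Matrix (Fin c) (Fin c) ℂ) *
      diagonal (fun i => (hN.eigenvalues i : ℂ)) *
      (hN.eigenvectorUnitary : Matrix (Fin c) (Fin c) ℂ)ᴴ) *
        (hN.eigenvectorUnitary : Matrix (Fin c) (Fin c) ℂ) := by rw [← h1]
    _ = ((hN.eigenvectorUnitary : Matrix (Fin c) (Fin c) ℂ)ᴴ *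
        (hN.eigenvectorUnitary : Matrix (Fin c) (Fin c) ℂ)) *
      diagonal (fun i => (hN.eigenvalues i : ℂ)) *
      ((hN.eigenvectorUnitary : Matrix (Fin c) (Fin c) ℂ)ᴴ *
        (hN.eigenvectorUnitary : Matrix (Fin c) (Fin c) ℂ)) := by
        simp only [Matrix.mul_assoc]
    _ = _ := by rw [hU1, Matrix.one_mul, Matrix.mul_one]

/-- simultaneous diagonalization -/
private theorem Large_sim {c : ℕ} (Θ L : Matrix (Fin c) (Fin c) ℂ) (hΘ : Θ.PosDef)
    (hL : L.IsHermitian) : ∃ (T : Matrix (Fin c) (Fin c) ℂ) (μ : Fin c → ℝ),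
      Tᴴ * Θ * T = 1 ∧ Tᴴ * L * T = diagonal fun i => (μ i : ℂ) := by
  obtain ⟨U, lam, hlam, hU, hUd⟩ := Large_herm Θ hΘ.1
  have hpos : ∀ i, 0 < lam i := fun i => by
    rw [hlam]
    exact hΘ.eigenvalues_pos i
  obtain ⟨R, hR⟩ : ∃ R : Matrix (Fin c) (Fin c) ℂ, Rᴴ * Θ * R = 1 := by
    refine ⟨U * diagonal fun i => ((1 / √(lam i) : ℝ) : ℂ), ?_⟩
    have h1 : (diagonal fun i => ((1 / √(lam i) : ℝ) : ℂ))ᴴ =
        (diagonal fun i => ((1 / √(lam i) : ℝ) : ℂ)) := by
      rw [diagonal_conjTranspose]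
      congr 1
      funext i
      exact Complex.conj_ofReal _
    rw [conjTranspose_mul, h1]
    calc (diagonal fun i => ((1 / √(lam i) : ℝ) : ℂ)) * Uᴴ * Θ *
          (U * diagonal fun i => ((1 / √(lam i) : ℝ) : ℂ))
        = (diagonal fun i => ((1 / √(lam i) : ℝ) : ℂ)) * (Uᴴ * Θ * U) *
          (diagonal fun i => ((1 / √(lam i) : ℝ) : ℂ)) := by simp only [Matrix.mul_assoc]
      _ = 1 := by
        rw [hUd, diagonal_mul_diagonal, diagonal_mul_diagonal, ← diagonal_one]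
        congr 1
        funext i
        have h2 : (1 / √(lam i)) * lam i * (1 / √(lam i)) = 1 := by
          have h3 := Real.mul_self_sqrt (hpos i).le
          have h4 : √(lam i) ≠ 0 := (Real.sqrt_pos.2 (hpos i)).ne'
          field_simp
          rw [pow_two, h3]
        have h5 : (((1 / √(lam i)) * lam i * (1 / √(lam i)) : ℝ) : ℂ) = 1 := by
          rw [h2]
          norm_num
        rw [← h5]
        push_cast
        ring
  have hL' : (Rᴴ * L * R).IsHermitian := isHermitian_conjTranspose_mul_mul R hL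
  obtain ⟨V, μ, -, hV, hVd⟩ := Large_herm _ hL'
  refine ⟨R * V, μ, ?_, ?_⟩
  · rw [conjTranspose_mul]
    calc Vᴴ * Rᴴ * Θ * (R * V) = Vᴴ * (Rᴴ * Θ * R) * V := by simp only [Matrix.mul_assoc]
      _ = 1 := by rw [hR, Matrix.mul_one, hV]
  · rw [conjTranspose_mul, ← hVd]
    simp only [Matrix.mul_assoc]

private theorem Large_diag (hNg : St_Ng) {c : ℕ} (Θ L : Matrix (Fin c) (Fin c) ℂ) (hΘ : Θ.PosDef)
    (hL : L.IsHermitian) : ∃ μ : Fin c → ℝ,
      (∀ y : ℝ, ng ((y : ℂ) • Θ - L) = (Finset.univ.filter (fun i => y < μ i)).card) ∧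
      (∀ y : ℝ, ng (-((y : ℂ) • Θ - L)) = (Finset.univ.filter (fun i => μ i < y)).card) ∧
      ∀ y : ℝ, ((y : ℂ) • Θ - L).det = Θ.det * ∏ i, ((y : ℂ) - (μ i : ℂ)) := by
  obtain ⟨T, μ, hT1, hT2⟩ := Large_sim Θ L hΘ hL
  obtain ⟨-, hng2, hng3⟩ := hNg
  have hdet : star T.det * Θ.det * T.det = 1 := by
    have h1 := congrArg Matrix.det hT1
    rw [det_mul, det_mul, det_conjTranspose, det_one] at h1
    exact h1
  have hT0 : T.det ≠ 0 := by
    intro h
    rw [h, mul_zero] at hdet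
    exact zero_ne_one hdet
  have hN : ∀ y : ℝ, ((y : ℂ) • Θ - L).IsHermitian := by
    intro y
    unfold Matrix.IsHermitian
    rw [conjTranspose_sub, conjTranspose_smul, hΘ.1.eq, hL.eq]
    congr 2
    exact Complex.conj_ofReal y
  have hD : ∀ y : ℝ, Tᴴ * ((y : ℂ) • Θ - L) * T = diagonal fun i => ((y - μ i : ℝ) : ℂ) := by
    intro y
    rw [Matrix.mul_sub, Matrix.sub_mul, Matrix.mul_smul, Matrix.smul_mul, hT1, hT2,
      ← diagonal_one, ← diagonal_smul, diagonal_sub]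
    congr 1
    funext i
    simp
  have hD' : ∀ y : ℝ, Tᴴ * (-((y : ℂ) • Θ - L)) * T = diagonal fun i => ((μ i - y : ℝ) : ℂ) := by
    intro y
    rw [Matrix.mul_neg, Matrix.neg_mul, hD, diagonal_neg]
    congr 1
    funext i
    simp
  refine ⟨μ, ?_, ?_, ?_⟩
  · intro y
    rw [← hng2 (Fin c) _ T (hN y) hT0, hD, hng3 (Fin c)]
    congr 1
    ext i
    simp
  · intro y
    rw [← hng2 (Fin c) _ T (hN y).neg hT0, hD', hng3 (Fin c)]
    congr 1
    ext i
    simp
  · intro y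
    have h1 := congrArg Matrix.det (hD y)
    rw [det_mul, det_mul, det_conjTranspose, det_diagonal] at h1
    have h2 : ∏ i, ((y : ℂ) - (μ i : ℂ)) = ∏ i, ((y - μ i : ℝ) : ℂ) := by
      refine Finset.prod_congr rfl fun i _ => ?_
      push_cast
      rfl
    rw [h2, ← h1]
    linear_combination (-((y : ℂ) • Θ - L).det) * hdet

private theorem Large_pos {n c : ℕ} (E : Matrix (Fin n) (Fin c) ℂ) (hE : Eᴴ * E = 1)
    (d : Fin n → ℝ) (hd : ∀ l, 0 < d l) : (Eᴴ * diagonal (fun l => (d l : ℂ)) * E).PosDef := by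
  apply PosDef.conjTranspose_mul_mul_same
  · rw [posDef_diagonal_iff]
    intro l
    exact_mod_cast hd l
  · intro u v huv
    have h1 : Eᴴ.mulVec (E.mulVec u) = Eᴴ.mulVec (E.mulVec v) := congrArg Eᴴ.mulVec huv
    rw [mulVec_mulVec, mulVec_mulVec, hE, one_mulVec, one_mulVec] at h1
    exact h1

private theorem Large_poly {c : ℕ} (F : BP) (x : ℝ) (μ : Fin c → ℝ)
    (h : ∀ y : ℝ, (ev F x y : ℂ) = ∏ i, ((y : ℂ) - (μ i : ℂ))) :
    sl F x = ∏ i, (X - C (μ i)) := by
  apply Polynomial.funext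
  intro y
  have h1 := h y
  have h2 : ((ev F x y : ℝ) : ℂ) = ((∏ i, (y - μ i) : ℝ) : ℂ) := by
    rw [h1]
    push_cast
    rfl
  have h3 : ev F x y = ∏ i, (y - μ i) := Complex.ofReal_injective h2
  rw [eval_prod]
  show ev F x y = _
  rw [h3]
  refine Finset.prod_congr rfl fun i _ => ?_
  rw [eval_sub, eval_X, eval_C]

private theorem Large_cnt {c : ℕ} (F : BP) (x : ℝ) (μ : Fin c → ℝ)
    (h : sl F x = ∏ i, (X - C (μ i))) (y₁ y₂ : ℝ) :
    cnt F x y₁ y₂ = (Finset.univ.filter (fun i => y₁ < μ i ∧ μ i < y₂)).card := by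
  classical
  have hr : (sl F x).roots = Finset.univ.val.map μ := by
    have h1 : sl F x = ((Finset.univ.val.map μ).map (fun a => X - C a)).prod := by
      rw [h, Multiset.map_map]
      rfl
    rw [h1, roots_multiset_prod_X_sub_C]
  unfold cnt
  rw [hr, Multiset.filter_map, Multiset.card_map, Finset.card_def, Finset.filter_val]
  congr 1

private theorem Large_cnt1 {c : ℕ} (μ : Fin c → ℝ) (y₁ y₂ : ℝ) (hy : y₁ < y₂)
    (h2 : ∀ i, μ i ≠ y₂) :
    ((Finset.univ.filter (fun i => y₁ < μ i)).card : ℤ) -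
      (Finset.univ.filter (fun i => y₂ < μ i)).card =
      (Finset.univ.filter (fun i => y₁ < μ i ∧ μ i < y₂)).card := by
  have h3 : Finset.univ.filter (fun i => y₁ < μ i) =
      Finset.univ.filter (fun i => y₁ < μ i ∧ μ i < y₂) ∪
        Finset.univ.filter (fun i => y₂ < μ i) := by
    ext i
    simp only [Finset.mem_filter, Finset.mem_univ, true_and, Finset.mem_union]
    constructor
    · intro h
      rcases lt_or_gt_of_ne (h2 i) with h4 | h4
      · exact Or.inl ⟨h, h4⟩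
      · exact Or.inr h4
    · rintro (h | h)
      · exact h.1
      · exact hy.trans h
  have h4 : Disjoint (Finset.univ.filter (fun i => y₁ < μ i ∧ μ i < y₂))
      (Finset.univ.filter (fun i => y₂ < μ i)) := by
    rw [Finset.disjoint_filter]
    rintro i - h5 h6
    linarith [h5.2]
  rw [h3, Finset.card_union_of_disjoint h4]
  push_cast
  ring

private theorem Large_cnt2 {c : ℕ} (μ : Fin c → ℝ) (y₁ y₂ : ℝ) (hy : y₁ < y₂)
    (h1 : ∀ i, μ i ≠ y₁) :
    ((Finset.univ.filter (fun i => μ i < y₁)).card : ℤ) -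
      (Finset.univ.filter (fun i => μ i < y₂)).card =
      - ((Finset.univ.filter (fun i => y₁ < μ i ∧ μ i < y₂)).card : ℤ) := by
  have h3 : Finset.univ.filter (fun i => μ i < y₂) =
      Finset.univ.filter (fun i => y₁ < μ i ∧ μ i < y₂) ∪
        Finset.univ.filter (fun i => μ i < y₁) := by
    ext i
    simp only [Finset.mem_filter, Finset.mem_univ, true_and, Finset.mem_union]
    constructor
    · intro h
      rcases lt_or_gt_of_ne (h1 i) with h4 | h4
      · exact Or.inr h4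
      · exact Or.inl ⟨h4, h⟩
    · rintro (h | h)
      · exact h.2
      · exact h.trans hy
  have h4 : Disjoint (Finset.univ.filter (fun i => y₁ < μ i ∧ μ i < y₂))
      (Finset.univ.filter (fun i => μ i < y₁)) := by
    rw [Finset.disjoint_filter]
    rintro i - h5 h6
    linarith [h5.1]
  rw [h3, Finset.card_union_of_disjoint h4]
  push_cast
  ring

private theorem Large_Hm {n c : ℕ} (b : Fin n → ℂ) (E : Matrix (Fin n) (Fin c) ℂ)
    (S : Matrix (Fin c) (Fin c) ℂ) (x y : ℝ) :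
    Hm b E S x y = (y : ℂ) • Th b E x + Hm b E S x 0 := by
  have h1 : (diagonal (fun l => (((y - (b l).im) / (x - (b l).re) : ℝ) : ℂ)) :
      Matrix (Fin n) (Fin n) ℂ) =
      (y : ℂ) • diagonal (fun l => ((1 / (x - (b l).re) : ℝ) : ℂ)) +
        diagonal (fun l => (((0 - (b l).im) / (x - (b l).re) : ℝ) : ℂ)) := by
    rw [← diagonal_smul, diagonal_add]
    congr 1
    funext l
    show (((y - (b l).im) / (x - (b l).re) : ℝ) : ℂ) =
      (y : ℂ) * ((1 / (x - (b l).re) : ℝ) : ℂ) + (((0 - (b l).im) / (x - (b l).re) : ℝ) : ℂ)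
    rw [← Complex.ofReal_mul, ← Complex.ofReal_add]
    congr 1
    ring
  unfold Hm Th
  rw [h1, Matrix.mul_add, Matrix.add_mul, Matrix.mul_smul, Matrix.smul_mul, add_sub_assoc]

theorem thm_Large (hNg : St_Ng) (hM : St_MId) : St_Large := by
  intro k c a b W E S G F hPD hF hFd hdet x
  obtain ⟨hH, hT, -⟩ := hM k c a b W E S G hPD x 0
  have hroot : ∀ (μ : Fin c → ℝ), (∀ y : ℝ, (ev F x y : ℂ) = ∏ i, ((y : ℂ) - (μ i : ℂ))) →
      ∀ y : ℝ, ev F x y ≠ 0 → ∀ i, μ i ≠ y := by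
    intro μ hμ y hy i hi
    apply hy
    have h1 := hμ y
    rw [Finset.prod_eq_zero (Finset.mem_univ i) (by rw [hi, sub_self])] at h1
    exact_mod_cast h1
  have hspl : ∀ (μ : Fin c → ℝ), sl F x = ∏ i, (X - C (μ i)) → (sl F x).Splits := by
    intro μ hμ
    rw [hμ]
    exact Splits.prod fun i _ => Splits.X_sub_C (μ i)
  constructor
  · intro hx
    have hpos : (Th b E x).PosDef :=
      Large_pos E hPD.hE (fun l => 1 / (x - (b l).re)) fun l => by
        have := hx l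
        exact one_div_pos.2 (by linarith)
    obtain ⟨μ, hμ1, hμ2, hμ3⟩ := Large_diag hNg (Th b E x) (-Hm b E S x 0) hpos hH.neg
    have hHy : ∀ y : ℝ, (y : ℂ) • Th b E x - -Hm b E S x 0 = Hm b E S x y := by
      intro y
      rw [sub_neg_eq_add, ← Large_Hm]
    have hev : ∀ y : ℝ, (ev F x y : ℂ) = ∏ i, ((y : ℂ) - (μ i : ℂ)) := by
      intro y
      obtain ⟨-, -, h3⟩ := hM k c a b W E S G hPD x y
      have h4 := (h3 (fun l => (hx l).ne)).1
      have h5 := hμ3 y
      rw [hHy, ← h4, det_mul, ← hdet, mul_comm] at h5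
      exact mul_left_cancel₀ hpos.det_pos.ne' h5
    have hsl := Large_poly F x μ hev
    refine ⟨hspl μ hsl, ?_⟩
    intro y₁ y₂ hy h1 h2
    rw [← hHy y₁, ← hHy y₂, hμ1, hμ1, Large_cnt F x μ hsl]
    exact Large_cnt1 μ y₁ y₂ hy (hroot μ hev y₂ h2)
  · intro hx
    have hneg : -Th b E x = Eᴴ * diagonal (fun l => ((1 / ((b l).re - x) : ℝ) : ℂ)) * E := by
      unfold Th
      rw [← Matrix.neg_mul, ← Matrix.mul_neg, diagonal_neg]
      congr 3
      funext l
      show -((1 / (x - (b l).re) : ℝ) : ℂ) = ((1 / ((b l).re - x) : ℝ) : ℂ)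
      rw [← Complex.ofReal_neg]
      congr 1
      rw [← neg_sub (b l).re x, one_div, one_div, inv_neg, neg_neg]
    have hpos : (-Th b E x).PosDef := by
      rw [hneg]
      exact Large_pos E hPD.hE (fun l => 1 / ((b l).re - x)) fun l => by
        have := hx l
        exact one_div_pos.2 (by linarith)
    obtain ⟨μ, hμ1, hμ2, hμ3⟩ := Large_diag hNg (-Th b E x) (Hm b E S x 0) hpos hH
    have hHy : ∀ y : ℝ, (y : ℂ) • (-Th b E x) - Hm b E S x 0 = -Hm b E S x y := by
      intro y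
      rw [Large_Hm b E S x y, smul_neg, neg_add, sub_eq_add_neg]
    have hev : ∀ y : ℝ, (ev F x y : ℂ) = ∏ i, ((y : ℂ) - (μ i : ℂ)) := by
      intro y
      obtain ⟨-, -, h3⟩ := hM k c a b W E S G hPD x y
      have h4 := (h3 (fun l => (hx l).ne')).1
      have h5 := hμ3 y
      rw [hHy, ← h4, ← Matrix.mul_neg, det_mul, ← hdet, mul_comm] at h5
      exact mul_left_cancel₀ hpos.det_pos.ne' h5
    have hsl := Large_poly F x μ hev
    refine ⟨hspl μ hsl, ?_⟩
    intro y₁ y₂ hy h1 h2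
    have h3 : ∀ y : ℝ, ng (Hm b E S x y) = (Finset.univ.filter (fun i => μ i < y)).card := by
      intro y
      rw [← hμ2 y, hHy, neg_neg]
    rw [h3, h3, Large_cnt F x μ hsl]
    exact Large_cnt2 μ y₁ y₂ hy (hroot μ hev y₁ h1)

end Pool.Agent.NCC
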