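import Pool.Agent.NCC.StS

/-!
# NCC : module Lfun, the residue functional
-/

set_option autoImplicit false

namespace Pool.Agent.NCC

open MvPolynomial Module

private theorem Lfun_neg (F G : CP) : Im F G (-1) = ⊥ := by
  have h1 : Pd (-1) = ⊥ := by
    rw [Submodule.eq_bot_iff]
    intro p hp
    unfold Pd at hp
    rw [mem_restrictSupport_iff] at hp
    by_contra h
    obtain ⟨s, hs⟩ := MvPolynomial.support_nonempty.2 h
    have h2 : ((s 0 + s 1 : ℕ) : ℤ) ≤ -1 := hp hs
    have h3 : (0 : ℤ) ≤ ((s 0 + s 1 : ℕ) : ℤ) := Int.natCast_nonneg _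
    linarith
  unfold Im
  rw [h1, Submodule.map_bot]

/-- [Lfun] The residue functional. -/
theorem thm_Lfun : St_QFin → St_Soc → St_Lfun := by
  intro hQ hS F G c d hP
  obtain ⟨hfin, hrk, -, hcod, -, -⟩ := hQ F G c d hP
  have hlt : Im F G (c + d - 3) < ⊤ := by
    rw [lt_top_iff_ne_top]
    intro h
    rw [h, finrank_top, hrk] at hcod
    omega
  obtain ⟨L, hL0, hL⟩ := Submodule.exists_le_ker_of_lt_top _ hlt
  have hker : Im F G (c + d - 3) = LinearMap.ker L := by
    refine Submodule.eq_of_le_of_finrank_eq hL ?_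
    have h1 := LinearMap.finrank_range_add_finrank_ker L
    have h2 : finrank ℂ (LinearMap.range L) = 1 := by
      have h3 : LinearMap.range L = ⊤ := by
        rw [LinearMap.range_eq_top]
        exact LinearMap.surjective hL0
      rw [h3, finrank_top, Module.finrank_self]
    rw [h2, hrk] at h1
    omega
  have key : ∀ (k : ℕ) (h : QQ F G), h ∉ Im F G (c + d - 3 - k) →
      ∃ h' : QQ F G, L (h * h') ≠ 0 := by
    intro k
    induction k with
    | zero =>
      intro h hh
      refine ⟨1, ?_⟩
      rw [mul_one]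
      intro h0
      apply hh
      rw [Nat.cast_zero, sub_zero, hker]
      exact h0
    | succ k ih =>
      intro h hh
      by_cases h1 : h ∈ Im F G (c + d - 3 - k)
      · have h2 : h ∉ Im F G ((c + d - 3 - k : ℤ) - 1) := by
          intro h3
          apply hh
          have h4 : ((c : ℤ) + d - 3 - ((k + 1 : ℕ) : ℤ)) = (c + d - 3 - k : ℤ) - 1 := by
            push_cast
            ring
          rw [h4]
          exact h3
        have h5 : ¬ (mkq F G (X 0) * h ∈ Im F G (c + d - 3 - k) ∧
            mkq F G (X 1) * h ∈ Im F G (c + d - 3 - k)) := by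
          rintro ⟨h6, h7⟩
          exact h2 (hS F G c d hP _ (by omega) h h1 h6 h7)
        have h6 : ∃ i : Fin 2, mkq F G (X i) * h ∉ Im F G (c + d - 3 - k) := by
          by_contra h7
          apply h5
          refine ⟨?_, ?_⟩
          · by_contra h8
            exact h7 ⟨0, h8⟩
          · by_contra h8
            exact h7 ⟨1, h8⟩
        obtain ⟨i, hi⟩ := h6
        obtain ⟨h', hh'⟩ := ih _ hi
        refine ⟨mkq F G (X i) * h', ?_⟩
        have h7 : h * (mkq F G (X i) * h') = mkq F G (X i) * h * h' := by ring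
        rw [h7]
        exact hh'
      · exact ih h h1
  refine ⟨L, fun h hh => hL hh, ?_⟩
  intro h hh
  by_contra h0
  have h1 : h ∉ Im F G (c + d - 3 - ((c + d - 2 : ℕ) : ℤ)) := by
    have h2 : ((c : ℤ) + d - 3 - ((c + d - 2 : ℕ) : ℤ)) = -1 := by
      have := hP.hc
      have := hP.hd
      omega
    rw [h2, Lfun_neg, Submodule.mem_bot]
    exact h0
  obtain ⟨h', hh'⟩ := key _ h h1
  exact hh' (hh h')

end Pool.Agent.NCC
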