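import Pool.Agent.NCC.StB

/-! # NCC Low: lower bound of the derivative at the roots for large `|x|` (MP_ca8ee9_an; helper42) -/

set_option autoImplicit false

namespace Pool.Agent.NCC

open Polynomial Filter Topology Set

private theorem Low_G1 (P : ℝ[X]) : ∃ (A : ℝ) (K : ℕ), 0 ≤ A ∧ ∀ x : ℝ,
    |P.eval x| ≤ A * (1 + |x|) ^ K := by
  refine ⟨∑ i ∈ Finset.range (P.natDegree + 1), |P.coeff i|, P.natDegree,
    Finset.sum_nonneg fun i _ => abs_nonneg _, fun x => ?_⟩
  rw [eval_eq_sum_range, Finset.sum_mul]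
  refine (Finset.abs_sum_le_sum_abs _ _).trans (Finset.sum_le_sum fun i hi => ?_)
  rw [abs_mul, abs_pow]
  refine mul_le_mul_of_nonneg_left ?_ (abs_nonneg _)
  have h0 := abs_nonneg x
  have h1 : |x| ^ i ≤ (1 + |x|) ^ i := pow_le_pow_left₀ h0 (by linarith) i
  exact h1.trans (pow_le_pow_right₀ (by linarith) (Nat.lt_succ_iff.1 (Finset.mem_range.1 hi)))

private theorem Low_evadd (F G : BP) (x y : ℝ) : ev (F + G) x y = ev F x y + ev G x y := by
  simp [ev, sl]

private theorem Low_evmul (F G : BP) (x y : ℝ) : ev (F * G) x y = ev F x y * ev G x y := by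
  simp [ev, sl]

private theorem Low_G2 (F : BP) : ∃ (A : ℝ) (K : ℕ), 0 ≤ A ∧ ∀ x y : ℝ,
    |ev F x y| ≤ A * ((1 + |x|) * (1 + |y|)) ^ K := by
  induction F using Polynomial.induction_on' with
  | add p q hp hq =>
    obtain ⟨A, K, hA, h1⟩ := hp
    obtain ⟨B, L, hB, h2⟩ := hq
    refine ⟨A + B, max K L, by linarith, fun x y => ?_⟩
    have hb : 1 ≤ (1 + |x|) * (1 + |y|) := by nlinarith [abs_nonneg x, abs_nonneg y]
    rw [Low_evadd, add_mul]
    refine (abs_add_le _ _).trans (add_le_add ((h1 x y).trans ?_) ((h2 x y).trans ?_))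
    · exact mul_le_mul_of_nonneg_left (pow_le_pow_right₀ hb (le_max_left _ _)) hA
    · exact mul_le_mul_of_nonneg_left (pow_le_pow_right₀ hb (le_max_right _ _)) hB
  | monomial n a =>
    obtain ⟨A, K, hA, h1⟩ := Low_G1 a
    refine ⟨A, max K n, hA, fun x y => ?_⟩
    have hx : 1 ≤ 1 + |x| := by linarith [abs_nonneg x]
    have hy : 1 ≤ 1 + |y| := by linarith [abs_nonneg y]
    have e : ev (monomial n a) x y = a.eval x * y ^ n := by
      simp [ev, sl]
    rw [e, abs_mul, abs_pow, mul_pow, ← mul_assoc]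
    refine mul_le_mul ((h1 x).trans ?_) ?_ (by positivity) (by positivity)
    · exact mul_le_mul_of_nonneg_left (pow_le_pow_right₀ hx (le_max_left _ _)) hA
    · exact (pow_le_pow_left₀ (abs_nonneg y) (by linarith) n).trans
        (pow_le_pow_right₀ hy (le_max_right _ _))

private theorem Low_root (p : ℝ[X]) (c : ℕ) (hc : 1 ≤ c) (hm : p.Monic) (hd : p.natDegree = c)
    (B : ℝ) (hB : 1 ≤ B) (hB' : ∑ j ∈ Finset.range c, |p.coeff j| ≤ B) (y : ℝ)
    (hy : p.eval y = 0) : |y| ≤ B := by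
  by_contra hcon
  push Not at hcon
  have hy1 : 1 ≤ |y| := by linarith
  obtain ⟨d, rfl⟩ : ∃ d, c = d + 1 := ⟨c - 1, by omega⟩
  rw [eval_eq_sum_range, hd, Finset.sum_range_succ] at hy
  have h1 : p.coeff (d + 1) = 1 := by rw [← hd]; exact hm
  rw [h1, one_mul] at hy
  have h2 : |y| ^ (d + 1) ≤ (∑ j ∈ Finset.range (d + 1), |p.coeff j|) * |y| ^ d := by
    rw [← abs_pow, eq_neg_of_add_eq_zero_right hy, abs_neg, Finset.sum_mul]
    refine (Finset.abs_sum_le_sum_abs _ _).trans (Finset.sum_le_sum fun i hi => ?_)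
    rw [abs_mul, abs_pow]
    exact mul_le_mul_of_nonneg_left (pow_le_pow_right₀ hy1
      (Nat.lt_succ_iff.1 (Finset.mem_range.1 hi))) (abs_nonneg _)
  have h3 : 0 < |y| ^ d := by positivity
  have h4 : |y| ^ (d + 1) ≤ B * |y| ^ d := h2.trans (mul_le_mul_of_nonneg_right hB' h3.le)
  rw [pow_succ, mul_comm] at h4
  have := le_of_mul_le_mul_right h4 h3
  linarith

/-- polynomial growth of the roots -/
private theorem Low_G3 (f : BP) (c : ℕ) (hc : 1 ≤ c) (hm : f.Monic) (hd : f.natDegree = c) :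
    ∃ (A : ℝ) (K : ℕ), 1 ≤ A ∧ ∀ x y : ℝ, ev f x y = 0 → |y| ≤ A * (1 + |x|) ^ K := by
  choose A K hA h using fun j : ℕ => Low_G1 (f.coeff j)
  refine ⟨1 + ∑ j ∈ Finset.range c, A j, ∑ j ∈ Finset.range c, K j, ?_, fun x y hxy => ?_⟩
  · have := Finset.sum_nonneg (s := Finset.range c) fun j _ => hA j
    linarith
  have hx : 1 ≤ 1 + |x| := by linarith [abs_nonneg x]
  have hp : 1 ≤ (1 + |x|) ^ (∑ j ∈ Finset.range c, K j) := one_le_pow₀ hx
  refine Low_root (sl f x) c hc (hm.map _) ?_ _ ?_ ?_ y hxy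
  · rw [sl, hm.natDegree_map, hd]
  · have := Finset.sum_nonneg (s := Finset.range c) fun j _ => hA j
    nlinarith
  · rw [add_mul, Finset.sum_mul]
    have : ∑ j ∈ Finset.range c, |(sl f x).coeff j| ≤
        ∑ j ∈ Finset.range c, A j * (1 + |x|) ^ (∑ j ∈ Finset.range c, K j) := by
      refine Finset.sum_le_sum fun j hj => ?_
      have e : (sl f x).coeff j = (f.coeff j).eval x := by simp [sl]
      rw [e]
      refine (h j x).trans (mul_le_mul_of_nonneg_left (pow_le_pow_right₀ hx ?_) (hA j))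
      exact Finset.single_le_sum (f := K) (fun _ _ => Nat.zero_le _) hj
    linarith

private theorem Low_half (D : ℝ[X]) (R : ℝ) (h0 : D ≠ 0) (h : ∀ x, R ≤ x → D.eval x ≠ 0) :
    ∃ κ : ℝ, 0 < κ ∧ ∀ x, R ≤ x → κ ≤ |D.eval x| := by
  have h1 : (fun x => eval x (1 : ℝ[X])) =O[atTop] fun x => eval x D := by
    apply Polynomial.isBigO_atTop_of_degree_le
    rw [degree_one]
    exact zero_le_degree_iff.2 h0
  obtain ⟨B, hB, h2⟩ := h1.exists_pos
  rw [Asymptotics.isBigOWith_iff, eventually_atTop] at h2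
  obtain ⟨M, hM⟩ := h2
  have h3 : IsCompact (Icc R (max R M)) := isCompact_Icc
  obtain ⟨z, hz, hz2⟩ := h3.exists_isMinOn ⟨R, le_rfl, le_max_left _ _⟩
    (f := fun x => |D.eval x|) (by fun_prop)
  refine ⟨min (1 / B) |D.eval z|, lt_min (by positivity) (abs_pos.2 (h z hz.1)), fun x hx => ?_⟩
  rcases le_or_gt x (max R M) with h4 | h4
  · exact (min_le_right _ _).trans (hz2 ⟨hx, h4⟩)
  · refine (min_le_left _ _).trans ?_
    have h5 := hM x ((le_max_right _ _).trans h4.le)
    rw [eval_one, norm_one, Real.norm_eq_abs] at h5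
    rw [div_le_iff₀ hB]
    linarith

private theorem Low_both (D : ℝ[X]) (R : ℝ) (hR : 0 < R) (h : ∀ x : ℝ, R ≤ |x| → D.eval x ≠ 0) :
    ∃ κ : ℝ, 0 < κ ∧ ∀ x : ℝ, R ≤ |x| → κ ≤ |D.eval x| := by
  have h0 : D ≠ 0 := by
    rintro rfl
    exact h R (le_abs_self R) (by simp)
  obtain ⟨a, ha, h1⟩ := Low_half D R h0 fun x hx => h x (hx.trans (le_abs_self x))
  have h0' : D.comp (-X) ≠ 0 := by
    intro hcon
    have : (D.comp (-X)).eval R = 0 := by rw [hcon]; simp
    rw [eval_comp] at this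
    simp only [eval_neg, eval_X] at this
    exact h (-R) (by rw [abs_neg]; exact le_abs_self R) this
  obtain ⟨b, hb, h2⟩ := Low_half (D.comp (-X)) R h0' fun x hx => by
    rw [eval_comp]
    simp only [eval_neg, eval_X]
    exact h (-x) (by rw [abs_neg]; exact hx.trans (le_abs_self x))
  refine ⟨min a b, lt_min ha hb, fun x hx => ?_⟩
  rcases le_total 0 x with h3 | h3
  · rw [abs_of_nonneg h3] at hx
    exact (min_le_left _ _).trans (h1 x hx)
  · rw [abs_of_nonpos h3] at hx
    have := h2 (-x) hx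
    rw [eval_comp] at this
    simp only [eval_neg, eval_X, neg_neg] at this
    exact (min_le_right _ _).trans this

private theorem Low_res (F : ℝ[X]) (c : ℕ) (hm : F.Monic) (hd : F.natDegree = c)
    (hs : F.Splits) (hn : F.roots.Nodup) : resultant F (derivative F) c c ≠ 0 := by
  have h1 := resultant_eq_prod_eval F (derivative F) c
    ((natDegree_derivative_le F).trans (by omega)) hs
  rw [hd] at h1
  rw [h1, hm.leadingCoeff, one_pow, one_mul]
  intro h2
  rw [Multiset.prod_eq_zero_iff, Multiset.mem_map] at h2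
  obtain ⟨a, ha, ha2⟩ := h2
  have h3 := (one_lt_rootMultiplicity_iff_isRoot hm.ne_zero).2 ⟨isRoot_of_mem_roots ha, ha2⟩
  rw [← count_roots] at h3
  have h4 := Multiset.nodup_iff_count_le_one.1 hn a
  omega

theorem thm_Low : St_Low := by
  intro c f R hc hm hd hR h
  have hsl : ∀ x, sl (derivative f) x = derivative (sl f x) := fun x => by
    simp [sl, derivative_map]
  obtain ⟨p, q, -, -, hpq⟩ := exists_mul_add_mul_eq_C_resultant (m := c) (n := c) f (derivative f)
    hd.le ((natDegree_derivative_le f).trans (by omega)) (Or.inl (by omega))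
  set D : ℝ[X] := resultant f (derivative f) c c with hD
  have hDx : ∀ x : ℝ, R ≤ |x| → D.eval x ≠ 0 := by
    intro x hx
    have h1 := resultant_map_map f (derivative f) c c (evalRingHom x)
    have h2 : D.eval x = resultant (sl f x) (derivative (sl f x)) c c := by
      rw [← hsl]
      exact h1.symm
    rw [h2]
    refine Low_res (sl f x) c (hm.map _) ?_ (h x hx).1 (h x hx).2
    rw [sl, hm.natDegree_map, hd]
  obtain ⟨κ, hκ, hκ2⟩ := Low_both D R hR hDx
  obtain ⟨A, K, hA, h1⟩ := Low_G2 q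
  obtain ⟨B, L, hB, h2⟩ := Low_G3 f c hc hm hd
  have hRi : 0 < 1 / R + 1 := by positivity
  refine ⟨κ / ((A + 1) * ((1 + B) ^ K * (1 / R + 1) ^ ((1 + L) * K))), (1 + L) * K, by positivity,
    fun x y hx hxy => ?_⟩
  have hx0 : 0 < |x| := lt_of_lt_of_le hR hx
  have h3 : κ ≤ |ev q x y| * |ev (derivative f) x y| := by
    have e1 : ev (C D) x y = D.eval x := by simp [ev, sl]
    have e2 := congrArg (fun F => ev F x y) hpq
    simp only [Low_evadd, Low_evmul, e1, hxy, zero_mul, zero_add] at e2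
    have := hκ2 x hx
    rw [← e2, abs_mul, mul_comm] at this
    exact this
  have h4 : 1 + |y| ≤ (1 + B) * (1 + |x|) ^ L := by
    have h5 := h2 x y hxy
    have h6 : 1 ≤ (1 + |x|) ^ L := one_le_pow₀ (by linarith)
    linarith
  have h5 : 1 + |x| ≤ (1 / R + 1) * |x| := by
    have : 1 ≤ 1 / R * |x| := by
      rw [one_div, ← div_eq_inv_mul, le_div_iff₀ hR]
      linarith
    linarith
  have h6 : ((1 + |x|) * (1 + |y|)) ^ K ≤
      (1 + B) ^ K * (1 / R + 1) ^ ((1 + L) * K) * |x| ^ ((1 + L) * K) := by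
    have h7 : (1 + |x|) * (1 + |y|) ≤ (1 + B) * ((1 / R + 1) * |x|) ^ (1 + L) := by
      have h8 : (1 + |x|) * (1 + |y|) ≤ (1 + |x|) * ((1 + B) * (1 + |x|) ^ L) :=
        mul_le_mul_of_nonneg_left h4 (by positivity)
      have h9 : (1 + |x|) ^ (1 + L) ≤ ((1 / R + 1) * |x|) ^ (1 + L) :=
        pow_le_pow_left₀ (by positivity) h5 _
      have h10 : (1 + |x|) * ((1 + B) * (1 + |x|) ^ L) = (1 + B) * (1 + |x|) ^ (1 + L) := by
        ring
      rw [h10] at h8
      exact h8.trans (mul_le_mul_of_nonneg_left h9 (by linarith))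
    refine (pow_le_pow_left₀ (by positivity) h7 K).trans (le_of_eq ?_)
    rw [mul_pow, ← pow_mul, mul_pow, mul_assoc]
  rw [div_le_iff₀ (by positivity)]
  have h7 : |ev q x y| ≤ (A + 1) * ((1 + B) ^ K * (1 / R + 1) ^ ((1 + L) * K) *
      |x| ^ ((1 + L) * K)) := by
    refine (h1 x y).trans (mul_le_mul (by linarith) h6 (by positivity) (by linarith))
  refine h3.trans ((mul_le_mul_of_nonneg_right h7 (abs_nonneg _)).trans (le_of_eq ?_))
  ring

end Pool.Agent.NCC
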