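import Pool.Agent.NCC.StM

/-!
# NCC, module MId: identities for the pencil
-/

set_option autoImplicit false

namespace Pool.Agent.NCC

open Matrix
open scoped ComplexConjugate

private theorem MId_herm {n : ℕ} (d : Fin n → ℝ) :
    (diagonal fun l => ((d l : ℝ) : ℂ)).IsHermitian := by
  refine Matrix.isHermitian_diagonal_of_self_adjoint _ ?_
  ext l
  simp

private theorem MId_conj {n c : ℕ} (d : Fin n → ℝ) (E : Matrix (Fin n) (Fin c) ℂ) :
    (Eᴴ * (diagonal fun l => ((d l : ℝ) : ℂ)) * E).IsHermitian := by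
  unfold Matrix.IsHermitian
  rw [conjTranspose_mul, conjTranspose_mul, conjTranspose_conjTranspose,
    (MId_herm d).eq, Matrix.mul_assoc]

private theorem MId_two {n : ℕ} (b : Fin n → ℂ) :
    (2 : ℂ) • dre b = diagonal b + (diagonal b)ᴴ := by
  unfold dre
  rw [diagonal_conjTranspose, diagonal_add, ← diagonal_smul]
  congr 1
  funext l
  rw [Pi.smul_apply, smul_eq_mul, Pi.star_apply]
  have h := Complex.add_conj (b l)
  rw [Complex.star_def, h]
  push_cast
  ring

private theorem MId_A1 {k n : ℕ} {a : Fin k → ℂ} {b : Fin n → ℂ} {W : Matrix (Fin n) (Fin k) ℂ}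
    (hA : Wᴴ * diagonal b * W = diagonal a) : Wᴴ * dre b * W = dre a := by
  have h1 : Wᴴ * (diagonal b)ᴴ * W = (diagonal a)ᴴ := by
    rw [← hA, conjTranspose_mul, conjTranspose_mul, conjTranspose_conjTranspose, Matrix.mul_assoc]
  have h2 : (2 : ℂ) • (Wᴴ * dre b * W) = (2 : ℂ) • dre a := by
    rw [MId_two a, ← h1, ← hA, ← Matrix.add_mul, ← Matrix.mul_add, ← MId_two b,
      Matrix.mul_smul, Matrix.smul_mul]
  exact smul_right_injective _ (two_ne_zero' ℂ) h2

theorem thm_MId : St_MId := by
  intro k c a b W E S G hP x y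
  refine ⟨(MId_conj _ E).sub hP.hS, MId_conj _ E, ?_⟩
  intro hx
  have hx' : ∀ l, x - (b l).re ≠ 0 := fun l h => hx l (by linarith)
  set M : Matrix (Fin (k + c)) (Fin (k + c)) ℂ :=
    diagonal (fun l => ((x - (b l).re : ℝ) : ℂ)) with hM
  set D : Matrix (Fin (k + c)) (Fin (k + c)) ℂ :=
    diagonal (fun l => ((1 / (x - (b l).re) : ℝ) : ℂ)) with hD
  have hMD : M * D = 1 := by
    rw [hM, hD, diagonal_mul_diagonal, ← diagonal_one]
    congr 1
    funext l
    rw [← Complex.ofReal_mul, mul_one_div_cancel (hx' l), Complex.ofReal_one]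
  have hTh : Th b E x = Eᴴ * D * E := rfl
  constructor
  · -- `PP * Th = Hm`
    have h1 : G * Eᴴ = S * Eᴴ * dre b - Eᴴ * dimg b := by
      have h2 := congrArg conjTranspose hP.hG
      rw [conjTranspose_sub, conjTranspose_mul, conjTranspose_mul, conjTranspose_mul,
        conjTranspose_mul, conjTranspose_conjTranspose, hP.hS.eq,
        show (dimg b)ᴴ = dimg b from (MId_herm fun l => (b l).im).eq,
        show (dre b)ᴴ = dre b from (MId_herm fun l => (b l).re).eq] at h2
      rw [h2, Matrix.mul_assoc]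
      abel
    have h2 : PP S G x y * Eᴴ = Eᴴ * ((y : ℂ) • 1 - dimg b) - S * Eᴴ * M := by
      have h3 : M = (x : ℂ) • 1 - dre b := by
        rw [hM]
        unfold dre
        rw [← diagonal_one, ← diagonal_smul, diagonal_sub]
        congr 1
        funext l
        rw [Pi.smul_apply, smul_eq_mul, mul_one]
        push_cast
        rfl
      rw [h3]
      unfold PP
      rw [Matrix.add_mul, Matrix.sub_mul, h1, Matrix.smul_mul, Matrix.one_mul, Matrix.mul_sub,
        Matrix.mul_sub, Matrix.mul_smul, Matrix.mul_one, Matrix.mul_smul, Matrix.mul_one,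
        Matrix.smul_mul]
      abel
    have h4 : ((y : ℂ) • 1 - dimg b) * D =
        diagonal (fun l => (((y - (b l).im) / (x - (b l).re) : ℝ) : ℂ)) := by
      rw [hD]
      unfold dimg
      rw [← diagonal_one, ← diagonal_smul, diagonal_sub, diagonal_mul_diagonal]
      congr 1
      funext l
      rw [Pi.smul_apply, smul_eq_mul, mul_one]
      push_cast
      ring
    rw [hTh, ← Matrix.mul_assoc, ← Matrix.mul_assoc, h2, Matrix.sub_mul, Matrix.sub_mul,
      Matrix.mul_assoc Eᴴ, h4, Matrix.mul_assoc (S * Eᴴ), hMD, Matrix.mul_one, Matrix.mul_assoc S,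
      hP.hE, Matrix.mul_one]
    rfl
  · -- Jacobi
    have hA1 := MId_A1 hP.hA
    have hWM : Wᴴ * M * W = diagonal (fun j => ((x - (a j).re : ℝ) : ℂ)) := by
      have h3 : M = (x : ℂ) • 1 - dre b := by
        rw [hM]
        unfold dre
        rw [← diagonal_one, ← diagonal_smul, diagonal_sub]
        congr 1
        funext l
        rw [Pi.smul_apply, smul_eq_mul, mul_one]
        push_cast
        rfl
      rw [h3, Matrix.mul_sub, Matrix.sub_mul, hA1, Matrix.mul_smul, Matrix.mul_one,
        Matrix.smul_mul, hP.hW]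
      unfold dre
      rw [← diagonal_one, ← diagonal_smul, diagonal_sub]
      congr 1
      funext l
      rw [Pi.smul_apply, smul_eq_mul, mul_one]
      push_cast
      rfl
    set U : Matrix (Fin (k + c)) (Fin k ⊕ Fin c) ℂ := fromCols W E with hU
    have hUU : Uᴴ * U = 1 := by
      rw [hU, conjTranspose_fromCols_eq_fromRows_conjTranspose, fromRows_mul_fromCols, hP.hW, hP.hE,
        hP.hWE]
      have h3 : Eᴴ * W = 0 := by
        have h4 := congrArg conjTranspose hP.hWE
        rw [conjTranspose_mul, conjTranspose_conjTranspose, conjTranspose_zero] at h4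
        exact h4
      rw [h3, fromBlocks_one]
    have hUU' : U * Uᴴ = 1 := by
      rw [hU, conjTranspose_fromCols_eq_fromRows_conjTranspose, fromCols_mul_fromRows]
      exact hP.hsum
    have hR : Uᴴ * M * U = fromBlocks (Wᴴ * M * W) (Wᴴ * M * E) (Eᴴ * M * W) (Eᴴ * M * E) := by
      rw [hU, conjTranspose_fromCols_eq_fromRows_conjTranspose, fromRows_mul,
        fromRows_mul_fromCols]
    have hdet : (Uᴴ * M * U).det = M.det := det_conj_of_mul_eq_one hUU hUU'
    have hprod : Uᴴ * M * U * fromBlocks 1 (Wᴴ * D * E) 0 (Eᴴ * D * E) =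
        fromBlocks (Wᴴ * M * W) 0 (Eᴴ * M * W) 1 := by
      rw [hR, fromBlocks_multiply]
      have e : ∀ X : Matrix (Fin (k + c)) (Fin (k + c)) ℂ,
          X * W * (Wᴴ * D * E) + X * E * (Eᴴ * D * E) = X * D * E := by
        intro X
        have e1 : X * W * (Wᴴ * D * E) + X * E * (Eᴴ * D * E) =
            X * (W * Wᴴ + E * Eᴴ) * D * E := by
          simp only [Matrix.mul_add, Matrix.add_mul, Matrix.mul_assoc]
        rw [e1, hP.hsum, Matrix.mul_one]
      have e2 : ∀ (m : ℕ) (Y : Matrix (Fin m) (Fin (k + c)) ℂ),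
          Y * M * W * (Wᴴ * D * E) + Y * M * E * (Eᴴ * D * E) = Y * E := by
        intro m Y
        have e3 : Y * M * W * (Wᴴ * D * E) + Y * M * E * (Eᴴ * D * E) =
            Y * (M * W * (Wᴴ * D * E) + M * E * (Eᴴ * D * E)) := by
          simp only [Matrix.mul_add, Matrix.mul_assoc]
        rw [e3, e M, hMD, Matrix.one_mul]
      rw [e2, e2, Matrix.mul_one, Matrix.mul_one, Matrix.mul_zero, Matrix.mul_zero, add_zero,
        add_zero, hP.hWE, hP.hE]
    have hfin := congrArg det hprod
    rw [det_mul, hdet, det_fromBlocks_zero₂₁, det_fromBlocks_zero₁₂, det_one, det_one,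
      one_mul, mul_one, hWM, det_diagonal, det_diagonal] at hfin
    rw [hTh, mul_comm]
    exact hfin

end Pool.Agent.NCC
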