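import Pool.Agent.NCC.StB

/-!
# NCC: module NA, approximation of signature data
-/

set_option autoImplicit false

namespace Pool.Agent.NCC

open Polynomial Filter Topology Set

theorem thm_NA : St_Geo → St_Cnt → St_NA := by
  classical
  intro hGeo hCnt c F w nn hS hc
  obtain ⟨M, β, R, hβ, hη⟩ := hGeo c F w nn hS hc
  have hne : ∀ x : ℝ, sl F x ≠ 0 := fun x => (hS.monic.map (evalRingHom x)).ne_zero
  obtain ⟨P, hP⟩ : ∃ P : Finset ℂ, P = Finset.univ.biUnion (fun s : Fin M =>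
      (sl F (β s)).roots.toFinset.image (fun φ => (⟨β s, φ⟩ : ℂ))) := ⟨_, rfl⟩
  have hmem : ∀ z : ℂ, z ∈ P ↔ ∃ s φ, ev F (β s) φ = 0 ∧ z = ⟨β s, φ⟩ := by
    intro z
    rw [hP, Finset.mem_biUnion]
    constructor
    · rintro ⟨s, _, hz⟩
      obtain ⟨φ, hφ, rfl⟩ := Finset.mem_image.1 hz
      rw [Multiset.mem_toFinset, mem_roots (hne _)] at hφ
      exact ⟨s, φ, hφ, rfl⟩
    · rintro ⟨s, φ, hφ, rfl⟩
      refine ⟨s, Finset.mem_univ s, Finset.mem_image.2 ⟨φ, ?_, rfl⟩⟩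
      rw [Multiset.mem_toFinset, mem_roots (hne _)]
      exact hφ
  refine ⟨P, 2 * c * M, ?_, ?_⟩
  · intro z hz
    obtain ⟨s, hs⟩ := hβ z hz
    rw [hmem]
    refine ⟨s, z.im, ?_, ?_⟩
    · rw [← hs]
      exact hS.zero z hz
    · exact Complex.ext hs rfl
  · intro η₀ hη₀
    obtain ⟨f, δ, η, τ, m, ψ, σ, hlt, hG⟩ := hη η₀ hη₀
    obtain ⟨p, q, Zp, Zm, π, hreg, hdeg, hZp, hZm, hcp, hcm, hπ, hw⟩ :=
      hCnt c M F f w nn β δ η R τ m ψ σ hS hβ hG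
    refine ⟨p, q, Zp, Zm, π, hreg, hdeg, hZp, hZm, hcp, hcm, ?_, ?_⟩
    · intro z hz
      obtain ⟨s, φ, h0, h1, h2, h3⟩ := hπ z hz
      refine ⟨(hmem _).2 ⟨s, φ, h0, h1⟩, ?_⟩
      rw [Complex.dist_eq, h1]
      refine (Complex.norm_le_abs_re_add_abs_im _).trans_lt ?_
      have e1 : (z - (⟨β s, φ⟩ : ℂ)).re = z.re - β s := rfl
      have e2 : (z - (⟨β s, φ⟩ : ℂ)).im = z.im - φ := rfl
      rw [e1, e2]
      linarith
    · intro z hz
      obtain ⟨s, φ, h0, rfl⟩ := (hmem z).1 hz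
      exact hw s φ h0

end Pool.Agent.NCC
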