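import Pool.Agent.NCC.StB

/-!
# NCC, module NB (helper89): limit
-/

set_option autoImplicit false

namespace Pool.Agent.NCC

open Filter Topology Set

private theorem NB_enum (Z : Finset ℂ) (n : ℕ) (h : Z.card = n) :
    ∃ a : Fin n → ℂ, Function.Injective a ∧ (∀ z, z ∈ Set.range a ↔ z ∈ Z) := by
  refine ⟨fun i => ((Z.equivFinOfCardEq h).symm i : ℂ), ?_, fun z => ?_⟩
  · intro i j hij
    exact (Z.equivFinOfCardEq h).symm.injective (Subtype.ext hij)
  · constructor
    · rintro ⟨i, rfl⟩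
      exact ((Z.equivFinOfCardEq h).symm i).2
    · intro hz
      exact ⟨Z.equivFinOfCardEq h ⟨z, hz⟩, by simp⟩

private theorem NB_card {n : ℕ} (Z : Finset ℂ) (a : Fin n → ℂ) (hi : Function.Injective a)
    (hr : ∀ z, z ∈ Set.range a ↔ z ∈ Z) (π : ℂ → ℂ) (p : ℂ) :
    (Finset.univ.filter (fun j => p = π (a j))).card = (Z.filter (fun z => π z = p)).card := by
  classical
  rw [← Finset.card_image_of_injective _ hi]
  congr 1
  ext z
  simp only [Finset.mem_image, Finset.mem_filter, Finset.mem_univ, true_and]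
  constructor
  · rintro ⟨j, h, rfl⟩
    exact ⟨(hr _).1 ⟨j, rfl⟩, h.symm⟩
  · rintro ⟨hz, h⟩
    obtain ⟨j, rfl⟩ := (hr z).2 hz
    exact ⟨j, h.symm, rfl⟩

private theorem NB_count {n : ℕ} (a : Fin n → ℂ) (p : ℂ) :
    Multiset.count p (Pool.Agent.Helper45.NC.ms a) =
      (Finset.univ.filter (fun j => p = a j)).card := by
  classical
  unfold Pool.Agent.Helper45.NC.ms
  rw [Multiset.count_map]
  rfl

private theorem NB_wt {k n : ℕ} (a : Fin k → ℂ) (b : Fin n → ℂ) (p : ℂ) :
    wt a b p = ((Finset.univ.filter (fun l => p = b l)).card : ℤ) -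
      (Finset.univ.filter (fun j => p = a j)).card := by
  classical
  unfold wt
  rw [Finsupp.sub_apply, Finsupp.finsetSum_apply, Finsupp.finsetSum_apply]
  simp only [Finsupp.single_apply]
  rw [Finset.sum_boole, Finset.sum_boole]
  simp only [eq_comm]

private theorem NB_sum {k n : ℕ} (a : Fin k → ℂ) (b : Fin n → ℂ) (P : Finset ℂ)
    (hP : (wt a b).support ⊆ P) : ∑ p ∈ P, wt a b p = (n : ℤ) - k := by
  classical
  have h1 : (Finsupp.liftAddHom (fun _ : ℂ => AddMonoidHom.id ℤ)) (wt a b) = (n : ℤ) - k := by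
    unfold wt
    rw [map_sub, map_sum, map_sum]
    simp
  rw [← h1, Finsupp.liftAddHom_apply, Finsupp.sum_of_support_subset _ hP _ (fun _ _ => rfl)]
  rfl

theorem thm_NB : St_NB := by
  classical
  intro k c a b hA
  obtain ⟨P, K, hPs, hP⟩ := hA
  -- finite set of limits
  obtain ⟨G, hG⟩ : ∃ G : ℝ → (Σ m : Fin (K + 1), (Fin m → P) × (Fin (m + c) → P)) → Prop,
      ∀ η x, G η x ↔ ((∀ p ∈ P, ((Finset.univ.filter (fun l => p = (x.2.2 l : ℂ))).card : ℤ) -
        (Finset.univ.filter (fun j => p = (x.2.1 j : ℂ))).card = wt a b p) ∧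
        ∃ (a' : Fin x.1 → ℂ) (b' : Fin (x.1 + c) → ℂ), (∃ f g : RP, Regular f g ∧
          f.totalDegree = c ∧ Lists f g a' b') ∧ (∀ j, dist (x.2.1 j : ℂ) (a' j) < η) ∧
          ∀ l, dist (x.2.2 l : ℂ) (b' l) < η) := ⟨_, fun _ _ => Iff.rfl⟩
  have hex : ∀ η : ℝ, 0 < η → ∃ x, G η x := by
    intro η hη
    obtain ⟨f, g, Zp, Zm, π, hR, hdeg, hZp, hZm, hcp, hcm, hπ, hw⟩ := hP η hη
    have hcard : Zp.card = Zm.card + c := by
      have e1 : (Zp.card : ℤ) = ∑ p ∈ P, ((Zp.filter (fun z => π z = p)).card : ℤ) := by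
        rw [Finset.card_eq_sum_card_fiberwise (f := π) (t := P)
          (fun z hz => (hπ z (Finset.mem_union_left _ hz)).1)]
        push_cast
        rfl
      have e2 : (Zm.card : ℤ) = ∑ p ∈ P, ((Zm.filter (fun z => π z = p)).card : ℤ) := by
        rw [Finset.card_eq_sum_card_fiberwise (f := π) (t := P)
          (fun z hz => (hπ z (Finset.mem_union_right _ hz)).1)]
        push_cast
        rfl
      have e3 : (Zp.card : ℤ) - Zm.card = c := by
        rw [e1, e2, ← Finset.sum_sub_distrib, Finset.sum_congr rfl hw, NB_sum a b P hPs]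
        push_cast
        ring
      omega
    obtain ⟨a', ha'i, ha'r⟩ := NB_enum Zm Zm.card rfl
    obtain ⟨b', hb'i, hb'r⟩ := NB_enum Zp (Zm.card + c) hcard
    have hma : ∀ j, π (a' j) ∈ P ∧ dist (a' j) (π (a' j)) < η := fun j =>
      hπ _ (Finset.mem_union_right _ ((ha'r _).1 ⟨j, rfl⟩))
    have hmb : ∀ l, π (b' l) ∈ P ∧ dist (b' l) (π (b' l)) < η := fun l =>
      hπ _ (Finset.mem_union_left _ ((hb'r _).1 ⟨l, rfl⟩))
    refine ⟨⟨⟨Zm.card, by omega⟩, fun j => ⟨π (a' j), (hma j).1⟩,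
      fun l => ⟨π (b' l), (hmb l).1⟩⟩, ?_⟩
    rw [hG]
    refine ⟨fun p hp => ?_, a', b', ⟨f, g, hR, hdeg, ha'i, hb'i, fun z => ?_, fun z => ?_⟩,
      fun j => ?_, fun l => ?_⟩
    · rw [← hw p hp]
      have e1 := NB_card Zp b' hb'i hb'r π p
      have e2 := NB_card Zm a' ha'i ha'r π p
      rw [← e1, ← e2]
    · rw [ha'r, hZm]
    · rw [hb'r, hZp]
    · rw [dist_comm]
      exact (hma j).2
    · rw [dist_comm]
      exact (hmb l).2
  have hmono : ∀ η η' : ℝ, η ≤ η' → ∀ x, G η x → G η' x := by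
    intro η η' hle x hx
    rw [hG] at hx ⊢
    obtain ⟨h1, a', b', h2, h3, h4⟩ := hx
    exact ⟨h1, a', b', h2, fun j => (h3 j).trans_le hle, fun l => (h4 l).trans_le hle⟩
  obtain ⟨x, hx⟩ : ∃ x, ∀ η : ℝ, 0 < η → G η x := by
    by_contra hno
    push Not at hno
    choose e he1 he2 using hno
    obtain ⟨x0, -⟩ := hex 1 one_pos
    have hne : (Finset.univ : Finset (Σ m : Fin (K + 1), (Fin m → P) × (Fin (m + c) → P))).Nonempty :=
      ⟨x0, Finset.mem_univ _⟩
    obtain ⟨y, -, hy⟩ := Finset.exists_min_image Finset.univ e hne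
    obtain ⟨x, hx⟩ := hex (e y) (he1 y)
    exact he2 x (hmono _ _ (hy x (Finset.mem_univ _)) x hx)
  obtain ⟨⟨m, hm⟩, α, β⟩ := x
  refine ⟨m, fun j => (α j : ℂ), fun l => (β l : ℂ), ?_, ?_⟩
  · have h1 := ((hG 1 _).1 (hx 1 one_pos)).1
    rw [Multiset.ext]
    intro p
    have hwt := NB_wt a b p
    have key : ((Multiset.count p (Pool.Agent.Helper45.NC.ms fun l => (β l : ℂ)) : ℕ) : ℤ) -
        (Multiset.count p (Pool.Agent.Helper45.NC.ms fun j => (α j : ℂ)) : ℕ) =
        (Multiset.count p (Pool.Agent.Helper45.NC.ms b) : ℕ) -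
        (Multiset.count p (Pool.Agent.Helper45.NC.ms a) : ℕ) := by
      rw [NB_count, NB_count, NB_count, NB_count, ← hwt]
      by_cases hp : p ∈ P
      · exact h1 p hp
      · have h2 : wt a b p = 0 := by
          by_contra h0
          exact hp (hPs (Finsupp.mem_support_iff.2 h0))
        have h3 : Finset.univ.filter (fun l => p = (β l : ℂ)) = ∅ := by
          apply Finset.filter_eq_empty_iff.2
          intro l _ h
          exact hp (h ▸ (β l).2)
        have h4 : Finset.univ.filter (fun j => p = (α j : ℂ)) = ∅ := by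
          apply Finset.filter_eq_empty_iff.2
          intro j _ h
          exact hp (h ▸ (α j).2)
        rw [h2, h3, h4, Finset.card_empty, Finset.card_empty]
        norm_num
    rw [Multiset.count_add, Multiset.count_add]
    have key' : ((Multiset.count p (Pool.Agent.Helper45.NC.ms a) +
        Multiset.count p (Pool.Agent.Helper45.NC.ms fun l => (β l : ℂ)) : ℕ) : ℤ) =
        (Multiset.count p (Pool.Agent.Helper45.NC.ms fun j => (α j : ℂ)) +
        Multiset.count p (Pool.Agent.Helper45.NC.ms b) : ℕ) := by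
      push_cast
      linarith
    exact_mod_cast key'
  · rw [Metric.mem_closure_iff]
    intro ε hε
    obtain ⟨-, a', b', h2, h3, h4⟩ := (hG ε _).1 (hx ε hε)
    refine ⟨(a', b'), h2, ?_⟩
    rw [Prod.dist_eq, max_lt_iff]
    exact ⟨(dist_pi_lt_iff hε).2 h3, (dist_pi_lt_iff hε).2 h4⟩

end Pool.Agent.NCC
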