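import Pool.Agent.NCC.StM

/-!
# NCC, module NM: signature data
-/

set_option autoImplicit false

namespace Pool.Agent.NCC

open Polynomial Matrix Filter Topology Module
open scoped ComplexConjugate

private theorem NM_wt {k n : ℕ} (a : Fin k → ℂ) (b : Fin n → ℂ) (z : ℂ) :
    wt a b z = ((Finset.univ.filter (fun l => b l = z)).card : ℤ) -
      (Finset.univ.filter (fun j => a j = z)).card := by
  classical
  unfold wt
  rw [Finsupp.sub_apply, Finsupp.finsetSum_apply, Finsupp.finsetSum_apply]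
  have h1 : ∀ {m : ℕ} (d : Fin m → ℂ), ∑ l, (Finsupp.single (d l) (1 : ℤ)) z =
      ((Finset.univ.filter (fun l => d l = z)).card : ℤ) := by
    intro m d
    rw [Finset.card_filter]
    push_cast
    refine Finset.sum_congr rfl fun l _ => ?_
    rw [Finsupp.single_apply]
  rw [h1, h1]

private theorem NM_wt_b {k n : ℕ} (a : Fin k → ℂ) (b : Fin n → ℂ) (hne : ∀ j l, a j ≠ b l)
    (z : ℂ) (hz : z ∈ Set.range b) :
    wt a b z = ((Finset.univ.filter (fun l => b l = z)).card : ℤ) := by
  rw [NM_wt]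
  obtain ⟨l, rfl⟩ := hz
  have h1 : (Finset.univ.filter (fun j => a j = b l)).card = 0 := by
    rw [Finset.card_eq_zero, Finset.filter_eq_empty_iff]
    exact fun j _ => hne j l
  rw [h1]
  simp

private theorem NM_wt_a {k n : ℕ} (a : Fin k → ℂ) (b : Fin n → ℂ) (hne : ∀ j l, a j ≠ b l)
    (z : ℂ) (hz : z ∈ Set.range a) :
    wt a b z = -((Finset.univ.filter (fun j => a j = z)).card : ℤ) := by
  rw [NM_wt]
  obtain ⟨j, rfl⟩ := hz
  have h1 : (Finset.univ.filter (fun l => b l = a j)).card = 0 := by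
    rw [Finset.card_eq_zero, Finset.filter_eq_empty_iff]
    exact fun l _ h => hne j l h.symm
  rw [h1]
  simp

private theorem NM_supp {k n : ℕ} (a : Fin k → ℂ) (b : Fin n → ℂ) (z : ℂ)
    (hz : z ∈ (wt a b).support) : z ∈ Set.range a ∨ z ∈ Set.range b := by
  by_contra hcon
  rw [not_or] at hcon
  rw [Finsupp.mem_support_iff] at hz
  apply hz
  rw [NM_wt]
  have h1 : (Finset.univ.filter (fun l => b l = z)).card = 0 := by
    rw [Finset.card_eq_zero, Finset.filter_eq_empty_iff]
    exact fun l _ h => hcon.2 ⟨l, h⟩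
  have h2 : (Finset.univ.filter (fun j => a j = z)).card = 0 := by
    rw [Finset.card_eq_zero, Finset.filter_eq_empty_iff]
    exact fun l _ h => hcon.1 ⟨l, h⟩
  rw [h1, h2]
  simp

private theorem NM_supp_b {k n : ℕ} (a : Fin k → ℂ) (b : Fin n → ℂ) (hne : ∀ j l, a j ≠ b l)
    (l : Fin n) : b l ∈ (wt a b).support := by
  rw [Finsupp.mem_support_iff, NM_wt_b a b hne _ ⟨l, rfl⟩]
  have : 0 < (Finset.univ.filter (fun l' => b l' = b l)).card :=
    Finset.card_pos.2 ⟨l, Finset.mem_filter.2 ⟨Finset.mem_univ _, rfl⟩⟩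
  exact_mod_cast this.ne'

private theorem NM_supp_a {k n : ℕ} (a : Fin k → ℂ) (b : Fin n → ℂ) (hne : ∀ j l, a j ≠ b l)
    (j : Fin k) : a j ∈ (wt a b).support := by
  rw [Finsupp.mem_support_iff, NM_wt_a a b hne _ ⟨j, rfl⟩, neg_ne_zero]
  have : 0 < (Finset.univ.filter (fun j' => a j' = a j)).card :=
    Finset.card_pos.2 ⟨j, Finset.mem_filter.2 ⟨Finset.mem_univ _, rfl⟩⟩
  exact_mod_cast this.ne'

/-- continuity off the vertical lines -/
private theorem NM_cont {n c : ℕ} (b : Fin n → ℂ) (E : Matrix (Fin n) (Fin c) ℂ)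
    (S : Matrix (Fin c) (Fin c) ℂ) (x y : ℝ) (hx : ∀ l, (b l).re ≠ x) :
    ContinuousAt (fun q : ℝ × ℝ => Hm b E S q.1 q.2) (x, y) := by
  unfold Hm
  have hD : ContinuousAt (fun q : ℝ × ℝ => diagonal (fun l =>
      (((q.2 - (b l).im) / (q.1 - (b l).re) : ℝ) : ℂ))) (x, y) := by
    have hv : ContinuousAt (fun q : ℝ × ℝ => fun l : Fin n =>
        (((q.2 - (b l).im) / (q.1 - (b l).re) : ℝ) : ℂ)) (x, y) := by
      rw [continuousAt_pi]
      intro i
      have h1 : ContinuousAt (fun q : ℝ × ℝ => (q.2 - (b i).im) / (q.1 - (b i).re)) (x, y) := by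
        refine ContinuousAt.div ?_ ?_ ?_
        · exact (continuous_snd.sub continuous_const).continuousAt
        · exact (continuous_fst.sub continuous_const).continuousAt
        · exact sub_ne_zero.2 (hx i).symm
      exact Complex.continuous_ofReal.continuousAt.comp h1
    have hd : Continuous fun v : Fin n → ℂ => (diagonal v : Matrix (Fin n) (Fin n) ℂ) :=
      continuous_id.matrix_diagonal
    exact ContinuousAt.comp (f := fun q : ℝ × ℝ => fun l : Fin n =>
        (((q.2 - (b l).im) / (q.1 - (b l).re) : ℝ) : ℂ))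
      (g := fun v : Fin n → ℂ => (diagonal v : Matrix (Fin n) (Fin n) ℂ)) hd.continuousAt hv
  have hF : Continuous fun M : Matrix (Fin n) (Fin n) ℂ => Eᴴ * M * E - S :=
    ((continuous_const.matrix_mul continuous_id).matrix_mul continuous_const).sub continuous_const
  exact ContinuousAt.comp (f := fun q : ℝ × ℝ => diagonal (fun l =>
      (((q.2 - (b l).im) / (q.1 - (b l).re) : ℝ) : ℂ)))
    (g := fun M : Matrix (Fin n) (Fin n) ℂ => Eᴴ * M * E - S) hF.continuousAt hD

private theorem NM_core (hSemi : St_Semi) (hMId : St_MId) (hDetF : St_DetF) (hFZer : St_FZer)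
    (hJB : St_JB) (hJA : St_JA) (hJY : St_JY) (hLarge : St_Large)
    (k c : ℕ) (a : Fin k → ℂ) (b : Fin (k + c) → ℂ)
    (W : Matrix (Fin (k + c)) (Fin k) ℂ) (E : Matrix (Fin (k + c)) (Fin c) ℂ)
    (S G : Matrix (Fin c) (Fin c) ℂ) (hPD : PD a b W E S G) (hne : ∀ j l, a j ≠ b l)
    (hinj : ∀ p ∈ Set.range a ∪ Set.range b, ∀ q ∈ Set.range a ∪ Set.range b,
      p.re = q.re → p = q) :
    ∃ (F : BP) (nn : ℝ → ℝ → ℤ), SigData c F (wt a b) nn := by
  classical
  obtain ⟨F, hF1, hF2, hF3, hF4, hF5, hF6⟩ := hDetF k c a b W E S G hPD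
  have hdet : ∀ x y : ℝ, ev F x y ≠ 0 → (PP S G x y).det ≠ 0 := by
    intro x y h
    rw [← hF5]
    exact_mod_cast h
  have hoff : ∀ x : ℝ, (∀ z ∈ (wt a b).support, z.re ≠ x) →
      (∀ l, (b l).re ≠ x) ∧ ∀ j, (a j).re ≠ x := fun x h =>
    ⟨fun l => h _ (NM_supp_b a b hne l), fun j => h _ (NM_supp_a a b hne j)⟩
  refine ⟨F, fun x y => (ng (Hm b E S x y) : ℤ), ?_⟩
  refine
    { monic := hF1
      deg := hF2
      td := hF3
      lfs := hF4
      inj := ?_
      zero := ?_
      loc := ?_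
      jump := ?_
      right := ?_
      left := ?_
      cross := ?_ }
  · intro z hz z' hz' h
    exact hinj z (NM_supp a b z hz) z' (NM_supp a b z' hz') h
  · intro z hz
    have h0 : (PP S G z.re z.im).det = 0 := by
      rcases NM_supp a b z hz with ⟨j, rfl⟩ | ⟨l, rfl⟩
      · exact (hFZer k c a b W E S G hPD hne).2 j
      · exact (hFZer k c a b W E S G hPD hne).1 l
    rw [← hF5] at h0
    exact_mod_cast h0
  · intro x y hx hxy
    obtain ⟨hb, ha⟩ := hoff x hx
    have h1 := hSemi (ℝ × ℝ) (Fin c) (fun q => Hm b E S q.1 q.2) (x, y)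
      (NM_cont b E S x y hb) (fun q => (hMId k c a b W E S G hPD q.1 q.2).1)
    have hH : (Hm b E S x y).det ≠ 0 := by
      intro h0
      have h2 := hF6 x y hb
      rw [h0, zero_mul] at h2
      have h3 : (ev F x y : ℂ) * ∏ j, ((x - (a j).re : ℝ) : ℂ) ≠ 0 := by
        refine mul_ne_zero (by exact_mod_cast hxy) (Finset.prod_ne_zero_iff.2 fun j _ => ?_)
        have := sub_ne_zero.2 (ha j).symm
        exact_mod_cast this
      exact h3 h2.symm
    have hrank : (Hm b E S x y).rank = c := by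
      rw [Matrix.rank_of_isUnit _ ((Matrix.isUnit_iff_isUnit_det _).2 (isUnit_iff_ne_zero.2 hH)),
        Fintype.card_fin]
    filter_upwards [h1] with q hq
    obtain ⟨h2, h3⟩ := hq
    have h4 : (Hm b E S (x, y).1 (x, y).2).rank = c := hrank
    rw [h4, Fintype.card_fin] at h3
    have h5 : ng (Hm b E S q.1 q.2) = ng (Hm b E S x y) := le_antisymm (by
      have h6 : ng (Hm b E S q.1 q.2) + c ≤ ng (Hm b E S x y) + c := h3
      omega) h2
    show ((ng (Hm b E S q.1 q.2) : ℕ) : ℤ) = ((ng (Hm b E S x y) : ℕ) : ℤ)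
    rw [h5]
  · intro x hx y₁ y₂ hy h1 h2
    obtain ⟨hb, ha⟩ := hoff x hx
    exact hJY k c a b W E S G F hPD hF1 hF2 hF5 x hb ha y₁ y₂ hy h1 h2
  · obtain ⟨M, hM⟩ := (Set.finite_range fun l => (b l).re).bddAbove
    refine ⟨M + 1, fun x hx => ?_⟩
    exact (hLarge k c a b W E S G F hPD hF1 hF2 hF5 x).1 fun l => by
      have : (b l).re ≤ M := hM ⟨l, rfl⟩
      linarith
  · obtain ⟨M, hM⟩ := (Set.finite_range fun l => (b l).re).bddBelow
    refine ⟨M - 1, fun x hx => ?_⟩
    exact (hLarge k c a b W E S G F hPD hF1 hF2 hF5 x).2 fun l => by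
      have : M ≤ (b l).re := hM ⟨l, rfl⟩
      linarith
  · refine ⟨Finset.univ.image (fun l => (b l).im) ∪ Finset.univ.image (fun j => (a j).im), ?_⟩
    intro z hz y hy hzy
    rw [Finset.mem_union, not_or] at hy
    have hyb : ∀ l, (b l).im ≠ y := fun l h =>
      hy.1 (Finset.mem_image.2 ⟨l, Finset.mem_univ _, h⟩)
    have hya : ∀ j, (a j).im ≠ y := fun j h =>
      hy.2 (Finset.mem_image.2 ⟨j, Finset.mem_univ _, h⟩)
    have hzP := NM_supp a b z hz
    have hreb : ∀ l, (b l).re = z.re ↔ b l = z := fun l =>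
      ⟨fun h => hinj _ (Or.inr ⟨l, rfl⟩) z hzP h, fun h => by rw [h]⟩
    have hrea : ∀ j, (a j).re = z.re ↔ a j = z := fun j =>
      ⟨fun h => hinj _ (Or.inl ⟨j, rfl⟩) z hzP h, fun h => by rw [h]⟩
    rcases hzP with hzr | hzr
    · -- a point `a j`
      have hxb : ∀ l, (b l).re ≠ z.re := by
        intro l h
        obtain ⟨j, hj⟩ := hzr
        exact hne j l (by rw [hj, (hreb l).1 h])
      have h1 := hJA k c a b W E S G hPD z.re y hxb hya (hdet _ _ hzy)
      have hzy' : z.im ≠ y := by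
        obtain ⟨j, hj⟩ := hzr
        rw [← hj]
        exact hya j
      filter_upwards [h1] with h hh
      rw [hh, NM_wt_a a b hne z hzr]
      split_ifs with hlt
      · have e1 : (Finset.univ.filter (fun j => (a j).re = z.re ∧ (a j).im < y)) =
            Finset.univ.filter (fun j => a j = z) := by
          refine Finset.filter_congr fun j _ => ?_
          rw [hrea]
          exact ⟨fun h => h.1, fun h => ⟨h, by rw [h]; exact hlt⟩⟩
        have e2 : (Finset.univ.filter (fun j => (a j).re = z.re ∧ y < (a j).im)).card = 0 := by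
          rw [Finset.card_eq_zero, Finset.filter_eq_empty_iff]
          rintro j _ ⟨h3, h4⟩
          rw [(hrea j).1 h3] at h4
          exact lt_asymm hlt h4
        rw [e1, e2]
        simp
      · have hgt : y < z.im := lt_of_le_of_ne (not_lt.1 hlt) hzy'.symm
        have e1 : (Finset.univ.filter (fun j => (a j).re = z.re ∧ y < (a j).im)) =
            Finset.univ.filter (fun j => a j = z) := by
          refine Finset.filter_congr fun j _ => ?_
          rw [hrea]
          exact ⟨fun h => h.1, fun h => ⟨h, by rw [h]; exact hgt⟩⟩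
        have e2 : (Finset.univ.filter (fun j => (a j).re = z.re ∧ (a j).im < y)).card = 0 := by
          rw [Finset.card_eq_zero, Finset.filter_eq_empty_iff]
          rintro j _ ⟨h3, h4⟩
          rw [(hrea j).1 h3] at h4
          exact lt_asymm hgt h4
        rw [e1, e2]
        simp
    · -- a point `b l`
      have hxa : ∀ j, (a j).re ≠ z.re := by
        intro j h
        obtain ⟨l, hl⟩ := hzr
        exact hne j l (by rw [hl, (hrea j).1 h])
      have h1 := hJB k c a b W E S G hPD z.re y hxa hyb (hdet _ _ hzy)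
      have hzy' : z.im ≠ y := by
        obtain ⟨l, hl⟩ := hzr
        rw [← hl]
        exact hyb l
      filter_upwards [h1] with h hh
      rw [hh, NM_wt_b a b hne z hzr]
      split_ifs with hlt
      · have e1 : (Finset.univ.filter (fun l => (b l).re = z.re ∧ (b l).im < y)) =
            Finset.univ.filter (fun l => b l = z) := by
          refine Finset.filter_congr fun l _ => ?_
          rw [hreb]
          exact ⟨fun h => h.1, fun h => ⟨h, by rw [h]; exact hlt⟩⟩
        have e2 : (Finset.univ.filter (fun l => (b l).re = z.re ∧ y < (b l).im)).card = 0 := by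
          rw [Finset.card_eq_zero, Finset.filter_eq_empty_iff]
          rintro l _ ⟨h3, h4⟩
          rw [(hreb l).1 h3] at h4
          exact lt_asymm hlt h4
        rw [e1, e2]
        simp
      · have hgt : y < z.im := lt_of_le_of_ne (not_lt.1 hlt) hzy'.symm
        have e1 : (Finset.univ.filter (fun l => (b l).re = z.re ∧ y < (b l).im)) =
            Finset.univ.filter (fun l => b l = z) := by
          refine Finset.filter_congr fun l _ => ?_
          rw [hreb]
          exact ⟨fun h => h.1, fun h => ⟨h, by rw [h]; exact hgt⟩⟩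
        have e2 : (Finset.univ.filter (fun l => (b l).re = z.re ∧ (b l).im < y)).card = 0 := by
          rw [Finset.card_eq_zero, Finset.filter_eq_empty_iff]
          rintro l _ ⟨h3, h4⟩
          rw [(hreb l).1 h3] at h4
          exact lt_asymm hgt h4
        rw [e1, e2]
        simp

/-- two rotations make `d` imaginary -/
private theorem NM_rot (ω d : ℂ) (hω : ‖ω‖ = 1) (hd : d ≠ 0) (h : (ω * d).re = 0) :
    ω = Complex.I * ‖d‖ / d ∨ ω = -(Complex.I * ‖d‖ / d) := by
  have h1 : ω * d = (ω * d).im * Complex.I := by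
    apply Complex.ext
    · simp [h]
    · simp
  have h2 : |(ω * d).im| = ‖d‖ := by
    have h3 : ‖ω * d‖ = ‖d‖ := by rw [norm_mul, hω, one_mul]
    rw [h1, norm_mul, Complex.norm_I, mul_one, Complex.norm_real, Real.norm_eq_abs] at h3
    exact h3
  rcases abs_choice (ω * d).im with h3 | h3
  · left
    rw [eq_div_iff hd, h1, ← h2, h3]
    ring
  · right
    rw [← neg_div, eq_div_iff hd, h1, ← h2, h3]
    push_cast
    ring

theorem thm_NM : St_Ng → St_Semi → St_PD0 → St_MId → St_DetF → St_FZer → St_JB → St_JA → St_JY →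
    St_Large → St_NM := by
  intro _ hSemi hPD0 hMId hDetF hFZer hJB hJA hJY hLarge k c a b hDil hne
  classical
  obtain ⟨Φ₀, hΦ₀⟩ := hPD0 k c a b hDil
  obtain ⟨P, hP⟩ : ∃ P : Finset ℂ, P = Finset.univ.image a ∪ Finset.univ.image b := ⟨_, rfl⟩
  refine ⟨Φ₀ ∪ ((P ×ˢ P).image (fun q => Complex.I * ‖q.1 - q.2‖ / (q.1 - q.2)) ∪
    (P ×ˢ P).image (fun q => -(Complex.I * ‖q.1 - q.2‖ / (q.1 - q.2)))), fun ω hω hωΦ => ?_⟩
  rw [Finset.mem_union, Finset.mem_union, not_or, not_or] at hωΦ
  obtain ⟨W, E, S, G, hPD⟩ := hΦ₀ ω hω hωΦ.1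
  have hω0 : ω ≠ 0 := by
    intro h
    rw [h, norm_zero] at hω
    exact zero_ne_one hω
  refine NM_core hSemi hMId hDetF hFZer hJB hJA hJY hLarge k c (fun j => ω * a j)
    (fun l => ω * b l) W E S G hPD (fun j l h => hne j l (mul_left_cancel₀ hω0 h)) ?_
  have hpt : ∀ p ∈ (Set.range fun j => ω * a j) ∪ Set.range fun l => ω * b l,
      ∃ p₀ ∈ P, p = ω * p₀ := by
    rintro p (⟨j, rfl⟩ | ⟨l, rfl⟩)
    · exact ⟨a j, by
        rw [hP]
        exact Finset.mem_union_left _ (Finset.mem_image_of_mem _ (Finset.mem_univ _)), rfl⟩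
    · exact ⟨b l, by
        rw [hP]
        exact Finset.mem_union_right _ (Finset.mem_image_of_mem _ (Finset.mem_univ _)), rfl⟩
  intro p hp q hq hpq
  obtain ⟨p₀, hp₀, rfl⟩ := hpt p hp
  obtain ⟨q₀, hq₀, rfl⟩ := hpt q hq
  by_contra hne'
  have hd : p₀ - q₀ ≠ 0 := by
    intro h
    apply hne'
    rw [sub_eq_zero.1 h]
  have hre : (ω * (p₀ - q₀)).re = 0 := by
    rw [mul_sub, Complex.sub_re, hpq, sub_self]
  rcases NM_rot ω (p₀ - q₀) hω hd hre with h | h
  · exact hωΦ.2.1 (Finset.mem_image.2 ⟨(p₀, q₀), Finset.mem_product.2 ⟨hp₀, hq₀⟩, h.symm⟩)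
  · exact hωΦ.2.2 (Finset.mem_image.2 ⟨(p₀, q₀), Finset.mem_product.2 ⟨hp₀, hq₀⟩, h.symm⟩)

end Pool.Agent.NCC
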