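import Pool.Agent.NCC.StM

/-!
# NCC: inertia of Hermitian matrices
-/

set_option autoImplicit false

namespace Pool.Agent.NCC

open Polynomial Matrix Filter Topology Module
open scoped ComplexConjugate

variable {m : Type} [Fintype m] [DecidableEq m]

private lemma Ng_count (N : Matrix m m ℂ) (d : m → ℝ)
    (h : N.charpoly = ∏ i, (X - C ((d i : ℝ) : ℂ))) :
    ng N = (Finset.univ.filter (fun i => d i < 0)).card := by
  unfold ng
  have h1 : N.charpoly.roots = Multiset.map (fun i => ((d i : ℝ) : ℂ)) Finset.univ.val := by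
    rw [h, Polynomial.roots_prod]
    · simp
    · simp [Finset.prod_ne_zero_iff, Polynomial.X_sub_C_ne_zero]
  rw [h1, Multiset.filter_map, Multiset.card_map]
  rw [Finset.card_def, Finset.filter_val]
  congr 1

private lemma Ng_one (N : Matrix m m ℂ) (hN : N.IsHermitian) :
    ng N = (Finset.univ.filter (fun i => hN.eigenvalues i < 0)).card :=
  Ng_count N _ hN.charpoly_eq

private lemma Ng_diag (d : m → ℝ) :
    ng (diagonal fun i => (d i : ℂ)) = (Finset.univ.filter (fun i => d i < 0)).card :=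
  Ng_count _ d (charpoly_diagonal _)

/-- The form of a diagonal matrix. -/
private lemma Ng_form (d : m → ℝ) (x : m → ℂ) :
    star x ⬝ᵥ (diagonal (fun i => (d i : ℂ)) *ᵥ x) = ((∑ i, d i * Complex.normSq (x i) : ℝ) : ℂ) := by
  rw [dotProduct, Complex.ofReal_sum]
  refine Finset.sum_congr rfl fun i _ => ?_
  rw [mulVec_diagonal, Pi.star_apply, Complex.ofReal_mul, Complex.normSq_eq_conj_mul_self]
  show conj (x i) * ((d i : ℂ) * x i) = (d i : ℂ) * (conj (x i) * x i)
  ring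

/-- One inequality for diagonal matrices. -/
private lemma Ng_le (d e : m → ℝ) (T : Matrix m m ℂ)
    (h : Tᴴ * diagonal (fun i => (d i : ℂ)) * T = diagonal (fun i => (e i : ℂ))) :
    (Finset.univ.filter (fun i => e i < 0)).card ≤ (Finset.univ.filter (fun i => d i < 0)).card := by
  classical
  by_contra hlt
  rw [not_le] at hlt
  let B : Matrix {i // d i < 0} {i // e i < 0} ℂ := T.submatrix Subtype.val Subtype.val
  have hfr : finrank ℂ ({i // d i < 0} → ℂ) < finrank ℂ ({i // e i < 0} → ℂ) := by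
    rw [finrank_fintype_fun_eq_card, finrank_fintype_fun_eq_card, Fintype.card_subtype,
      Fintype.card_subtype]
    exact hlt
  obtain ⟨y, hy, hy0⟩ := (Submodule.ne_bot_iff _).1
    (LinearMap.ker_ne_bot_of_finrank_lt (f := B.mulVecLin) hfr)
  rw [LinearMap.mem_ker, mulVecLin_apply] at hy
  let x : m → ℂ := fun j => if h : e j < 0 then y ⟨j, h⟩ else 0
  have hx1 : ∀ i, d i < 0 → (T *ᵥ x) i = 0 := by
    intro i hi
    have h2 := congrFun hy ⟨i, hi⟩
    rw [Pi.zero_apply] at h2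
    rw [← h2]
    show ∑ j, T i j * x j = ∑ j : {j // e j < 0}, T i j.1 * y j
    rw [← Fintype.sum_subtype_add_sum_subtype (fun j => e j < 0) (fun j => T i j * x j)]
    have h3 : ∑ j : {j // ¬ e j < 0}, T i j.1 * x j.1 = 0 := by
      refine Finset.sum_eq_zero fun j _ => ?_
      have : x j.1 = 0 := dif_neg j.2
      rw [this, mul_zero]
    rw [h3, add_zero]
    refine Finset.sum_congr rfl fun j _ => ?_
    have : x j.1 = y j := dif_pos j.2
    rw [this]
  have h3 : (∑ i, e i * Complex.normSq (x i) : ℝ) = ∑ i, d i * Complex.normSq ((T *ᵥ x) i) := by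
    have h4 := Ng_form e x
    have h5 := Ng_form d (T *ᵥ x)
    have h6 : star x ⬝ᵥ (diagonal (fun i => (e i : ℂ)) *ᵥ x) =
        star (T *ᵥ x) ⬝ᵥ (diagonal (fun i => (d i : ℂ)) *ᵥ (T *ᵥ x)) := by
      rw [← h, star_mulVec, ← dotProduct_mulVec, mulVec_mulVec, mulVec_mulVec]
    rw [h4, h5] at h6
    exact_mod_cast h6
  have h7 : (∑ i, e i * Complex.normSq (x i) : ℝ) < 0 := by
    obtain ⟨j, hj⟩ := Function.ne_iff.1 hy0
    refine Finset.sum_neg' (fun i _ => ?_) ⟨j.1, Finset.mem_univ _, ?_⟩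
    · by_cases h8 : e i < 0
      · exact mul_nonpos_of_nonpos_of_nonneg h8.le (Complex.normSq_nonneg _)
      · have : x i = 0 := dif_neg h8
        rw [this, Complex.normSq_zero, mul_zero]
    · have h9 : x j.1 = y j := dif_pos j.2
      rw [h9]
      exact mul_neg_of_neg_of_pos j.2 (Complex.normSq_pos.2 hj)
  have h10 : 0 ≤ ∑ i, d i * Complex.normSq ((T *ᵥ x) i) := by
    refine Finset.sum_nonneg fun i _ => ?_
    by_cases h8 : d i < 0
    · rw [hx1 i h8, Complex.normSq_zero, mul_zero]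
    · exact mul_nonneg (not_lt.1 h8) (Complex.normSq_nonneg _)
  rw [← h3] at h10
  exact absurd h7 (not_lt.2 h10)

private lemma Ng_spec (N : Matrix m m ℂ) (hN : N.IsHermitian) : ∃ U : Matrix m m ℂ,
    Uᴴ * U = 1 ∧ N = U * diagonal (fun i => ((hN.eigenvalues i : ℝ) : ℂ)) * Uᴴ := by
  refine ⟨hN.eigenvectorUnitary.1, ?_, ?_⟩
  · exact (Unitary.mem_iff.1 hN.eigenvectorUnitary.2).1
  · have h1 := hN.spectral_theorem
    rw [Unitary.conjStarAlgAut_apply] at h1
    exact h1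

private lemma Ng_mono (N N' T : Matrix m m ℂ) (hN : N.IsHermitian) (hN' : N'.IsHermitian)
    (h : Tᴴ * N * T = N') : ng N' ≤ ng N := by
  obtain ⟨U, hU, hNU⟩ := Ng_spec N hN
  obtain ⟨V, hV, hNV⟩ := Ng_spec N' hN'
  rw [Ng_one N hN, Ng_one N' hN']
  refine Ng_le _ _ (Uᴴ * T * V) ?_
  rw [conjTranspose_mul, conjTranspose_mul, conjTranspose_conjTranspose]
  have h1 : Vᴴ * (Tᴴ * U) * diagonal (fun i => ((hN.eigenvalues i : ℝ) : ℂ)) * (Uᴴ * T * V) =
      Vᴴ * (Tᴴ * (U * diagonal (fun i => ((hN.eigenvalues i : ℝ) : ℂ)) * Uᴴ) * T) * V := by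
    simp only [Matrix.mul_assoc]
  have h2 : Vᴴ * (V * diagonal (fun i => ((hN'.eigenvalues i : ℝ) : ℂ)) * Vᴴ) * V =
      (Vᴴ * V) * diagonal (fun i => ((hN'.eigenvalues i : ℝ) : ℂ)) * (Vᴴ * V) := by
    simp only [Matrix.mul_assoc]
  rw [h1, ← hNU, h]
  refine (congrArg (fun X => Vᴴ * X * V) hNV).trans ?_
  rw [h2, hV, Matrix.one_mul, Matrix.mul_one]

theorem thm_Ng : St_Ng := by
  refine ⟨fun m _ _ N hN => Ng_one N hN, fun m _ _ N T hN hT => ?_, fun m _ _ d => Ng_diag d⟩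
  have hT1 : IsUnit T.det := isUnit_iff_ne_zero.2 hT
  have hN' : (Tᴴ * N * T).IsHermitian := isHermitian_conjTranspose_mul_mul T hN
  refine le_antisymm (Ng_mono N _ T hN hN' rfl) (Ng_mono _ N T⁻¹ hN' hN ?_)
  have h1 : (T⁻¹)ᴴ * Tᴴ = 1 := by
    rw [← conjTranspose_mul, mul_nonsing_inv T hT1, conjTranspose_one]
  calc (T⁻¹)ᴴ * (Tᴴ * N * T) * T⁻¹ = ((T⁻¹)ᴴ * Tᴴ) * N * (T * T⁻¹) := by
        simp only [Matrix.mul_assoc]
    _ = N := by rw [h1, mul_nonsing_inv T hT1, Matrix.one_mul, Matrix.mul_one]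

end Pool.Agent.NCC
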