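import Pool.Agent.NCC.StA

/-!
# NCC, module NuB: the Nuij operator for bivariate polynomials
-/

set_option autoImplicit false

namespace Pool.Agent.NCC

open Polynomial Filter Topology Set

private theorem NuB_coeff (t : ℝ) (F : BP) (j : ℕ) :
    (NU t F).coeff j = F.coeff j + C t * X * (F.coeff (j + 1) * ((j : ℝ[X]) + 1)) := by
  unfold NU
  rw [coeff_add, coeff_C_mul, coeff_derivative]

private theorem NuB_cc (t : ℝ) (F : BP) (j m : ℕ) :
    ((NU t F).coeff j).coeff (m + 1) =
      (F.coeff j).coeff (m + 1) + t * ((F.coeff (j + 1)).coeff m * ((j : ℝ) + 1)) := by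
  rw [NuB_coeff, coeff_add, mul_assoc, coeff_C_mul, coeff_X_mul]
  congr 2
  have h : (F.coeff (j + 1) * ((j : ℝ[X]) + 1)) = F.coeff (j + 1) * C ((j : ℝ) + 1) := by
    simp
  rw [h, coeff_mul_C]

private theorem NuB_c0 (t : ℝ) (F : BP) (j : ℕ) :
    ((NU t F).coeff j).coeff 0 = (F.coeff j).coeff 0 := by
  rw [NuB_coeff, coeff_add, mul_assoc, coeff_C_mul, mul_coeff_zero, coeff_X_zero]
  ring

private theorem NuB_TD (F : BP) (c : ℕ) :
    TD F c ↔ ∀ j m, c < m + j → (F.coeff j).coeff m = 0 := by
  constructor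
  · intro h j m hm
    by_contra hc
    have h1 : F.coeff j ≠ 0 := fun h0 => hc (by rw [h0, coeff_zero])
    have h2 := h j h1
    have h3 := le_natDegree_of_ne_zero hc
    omega
  · intro h j hj
    by_contra hc
    have h1 := h j (F.coeff j).natDegree (by omega)
    rw [coeff_natDegree, leadingCoeff_eq_zero] at h1
    exact hj h1

private theorem NuB_one (t : ℝ) (F : BP) (c : ℕ) (hm : F.Monic) (hd : F.natDegree = c)
    (hT : TD F c) : (NU t F).Monic ∧ (NU t F).natDegree = c ∧ TD (NU t F) c := by
  have h1 : ∀ j, c < j → F.coeff j = 0 := fun j hj => coeff_eq_zero_of_natDegree_lt (by omega)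
  have hc : (NU t F).coeff c = 1 := by
    rw [NuB_coeff, h1 (c + 1) (by omega), zero_mul, mul_zero, add_zero, ← hd]
    exact hm
  have hle : (NU t F).natDegree ≤ c := by
    rw [natDegree_le_iff_coeff_eq_zero]
    intro j hj
    rw [NuB_coeff, h1 j hj, h1 (j + 1) (by omega), zero_mul, mul_zero, add_zero]
  refine ⟨monic_of_natDegree_le_of_coeff_eq_one c hle hc, le_antisymm hle
    (le_natDegree_of_ne_zero (by rw [hc]; exact one_ne_zero)), ?_⟩
  rw [NuB_TD] at hT ⊢
  intro j m hj
  rcases m with _ | m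
  · rw [NuB_c0]
    exact hT j 0 hj
  · rw [NuB_cc, hT j (m + 1) hj, hT (j + 1) m (by omega), zero_mul, mul_zero, add_zero]

private theorem NuB_it (t : ℝ) (F : BP) (c : ℕ) (hm : F.Monic) (hd : F.natDegree = c)
    (hT : TD F c) (k : ℕ) :
    ((NU t)^[k] F).Monic ∧ ((NU t)^[k] F).natDegree = c ∧ TD ((NU t)^[k] F) c := by
  induction k with
  | zero => exact ⟨hm, hd, hT⟩
  | succ k ih =>
    rw [Function.iterate_succ_apply']
    exact NuB_one t _ c ih.1 ih.2.1 ih.2.2

private theorem NuB_cont (F : BP) (k : ℕ) :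
    ∀ j, Continuous fun p : ℝ × ℝ => (((NU p.1)^[k] F).coeff j).eval p.2 := by
  induction k with
  | zero =>
    intro j
    exact (F.coeff j).continuous.comp continuous_snd
  | succ k ih =>
    intro j
    have h : ∀ p : ℝ × ℝ, (((NU p.1)^[k + 1] F).coeff j).eval p.2 =
        (((NU p.1)^[k] F).coeff j).eval p.2 +
          p.1 * p.2 * ((((NU p.1)^[k] F).coeff (j + 1)).eval p.2 * ((j : ℝ) + 1)) := by
      intro p
      rw [Function.iterate_succ_apply', NuB_coeff]
      simp
    simp only [h]
    exact (ih j).add ((continuous_fst.mul continuous_snd).mul ((ih (j + 1)).mul continuous_const))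

private theorem NuB_sl1 (t x : ℝ) (F : BP) :
    sl (NU t F) x = sl F x + C (t * x) * derivative (sl F x) := by
  unfold sl NU
  rw [Polynomial.map_add, Polynomial.map_mul, Polynomial.map_C, derivative_map]
  simp

private theorem NuB_sl (t x : ℝ) (F : BP) (k : ℕ) :
    sl ((NU t)^[k] F) x = (fun p : ℝ[X] => p + C (t * x) * derivative p)^[k] (sl F x) := by
  induction k with
  | zero => rfl
  | succ k ih =>
    rw [Function.iterate_succ_apply', Function.iterate_succ_apply', NuB_sl1, ih]

private theorem NuB_lfc (F : BP) (c j : ℕ) :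
    (lf F c).coeff j = if j < c + 1 then (F.coeff j).coeff (c - j) else 0 := by
  unfold lf
  rw [finsetSum_coeff]
  simp only [coeff_C_mul, coeff_X_pow, mul_ite, mul_one, mul_zero, Finset.sum_ite_eq,
    Finset.mem_range]

private theorem NuB_lf1 (t : ℝ) (F : BP) (c : ℕ) :
    lf (NU t F) c = lf F c + C t * derivative (lf F c) := by
  ext j
  rw [coeff_add, coeff_C_mul, coeff_derivative, NuB_lfc, NuB_lfc, NuB_lfc]
  rcases lt_trichotomy j c with h | h | h
  · rw [if_pos (by omega), if_pos (by omega), if_pos (by omega)]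
    obtain ⟨m, hm⟩ : ∃ m, c - j = m + 1 := ⟨c - j - 1, by omega⟩
    rw [hm, NuB_cc, show c - (j + 1) = m by omega]
  · rw [if_pos (by omega), if_pos (by omega), if_neg (by omega), h, Nat.sub_self, NuB_c0]
    ring
  · rw [if_neg (by omega), if_neg (by omega), if_neg (by omega)]
    ring

private theorem NuB_lf (t : ℝ) (F : BP) (c k : ℕ) :
    lf ((NU t)^[k] F) c = (fun p : ℝ[X] => p + C t * derivative p)^[k] (lf F c) := by
  induction k with
  | zero => rfl
  | succ k ih =>
    rw [Function.iterate_succ_apply', Function.iterate_succ_apply', NuB_lf1, ih]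

theorem thm_NuB : St_Nuij → St_NuB := by
  intro hN c F M₀ hm hd hT
  refine ⟨fun t => NuB_it t F c hm hd hT c, NuB_cont F c, ?_, ?_⟩
  · apply Function.iterate_fixed
    unfold NU
    simp
  · intro hM hlf hsl t ht
    have hc : F.coeff c = 1 := by
      rw [← hd]
      exact hm
    have hlc : (lf F c).coeff c = 1 := by
      rw [NuB_lfc, if_pos (by omega), hc, Nat.sub_self, coeff_one_zero]
    have hle : (lf F c).natDegree ≤ c := by
      rw [natDegree_le_iff_coeff_eq_zero]
      intro j hj
      rw [NuB_lfc, if_neg (by omega)]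
    have hlm : (lf F c).Monic := monic_of_natDegree_le_of_coeff_eq_one c hle hlc
    have hld : (lf F c).natDegree = c := le_antisymm hle
      (le_natDegree_of_ne_zero (by rw [hlc]; exact one_ne_zero))
    have h1 := hN (lf F c) t c hlm hld hlf ht
    rw [← NuB_lf] at h1
    refine ⟨h1.2.2.1, h1.2.2.2, ?_⟩
    intro x hx
    have hx0 : x ≠ 0 := by
      rintro rfl
      rw [abs_zero] at hx
      linarith
    have hsm : (sl F x).Monic := hm.map _
    have hsd : (sl F x).natDegree = c := by
      unfold sl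
      rw [hm.natDegree_map, hd]
    have h2 := hN (sl F x) (t * x) c hsm hsd (hsl x hx) (mul_ne_zero ht hx0)
    rw [← NuB_sl] at h2
    exact ⟨h2.2.2.1, h2.2.2.2⟩

end Pool.Agent.NCC
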