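import Pool.Agent.NCC.StM

set_option autoImplicit false

namespace Pool.Agent.NCC

open Polynomial Matrix Filter Topology Module
open scoped ComplexConjugate

private theorem PD0_set {c : ℕ} (U : Matrix (Fin c) (Fin c) ℂ) :
    ∃ Φ : Finset ℂ, ∀ ω : ℂ, ω ∉ Φ → ((ω ^ 2) • U + 1).det ≠ 0 := by
  classical
  let p : ℂ[X] := ((X : ℂ[X]) ^ 2 • U.map (C : ℂ → ℂ[X]) + 1).det
  have hp : ∀ ω : ℂ, p.eval ω = ((ω ^ 2) • U + 1).det := by
    intro ω
    have h1 : (evalRingHom ω) p = ((evalRingHom ω).mapMatrix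
        ((X : ℂ[X]) ^ 2 • U.map (C : ℂ → ℂ[X]) + 1)).det := RingHom.map_det _ _
    rw [coe_evalRingHom] at h1
    rw [h1]
    congr 1
    ext i j
    by_cases hij : i = j
    · subst hij
      simp
      ring
    · simp [Matrix.one_apply_ne hij]
      ring
  have hp0 : p ≠ 0 := by
    intro h
    have h1 := hp 0
    rw [h] at h1
    simp at h1
  refine ⟨p.roots.toFinset, fun ω hω h => hω ?_⟩
  rw [Multiset.mem_toFinset, mem_roots hp0, IsRoot.def, hp, h]

private theorem PD0_herm {c : ℕ} (V S : Matrix (Fin c) (Fin c) ℂ) (hV : V * Vᴴ = 1)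
    (hd : (V + 1).det ≠ 0) (hS : (V + 1) * S = (-Complex.I) • (V - 1)) : S.IsHermitian := by
  have hu : IsUnit (V + 1).det := isUnit_iff_ne_zero.2 hd
  have hu2 : IsUnit ((V + 1)ᴴ).det := by
    rw [det_conjTranspose]
    exact isUnit_iff_ne_zero.2 (star_ne_zero.2 hd)
  have h2 : Sᴴ * (V + 1)ᴴ = Complex.I • (Vᴴ - 1) := by
    rw [← conjTranspose_mul, hS, conjTranspose_smul, conjTranspose_sub, conjTranspose_one]
    congr 1
    simp
  have h3 : (V + 1) * (Sᴴ * (V + 1)ᴴ) = (V + 1) * S * (V + 1)ᴴ := by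
    rw [h2, hS, conjTranspose_add, conjTranspose_one, Matrix.mul_smul, Matrix.smul_mul]
    have e1 : (V + 1) * (Vᴴ - 1) = Vᴴ - V := by
      rw [Matrix.add_mul, Matrix.mul_sub, Matrix.mul_sub, hV, Matrix.one_mul, Matrix.mul_one, Matrix.mul_one]
      abel
    have e2 : (V - 1) * (Vᴴ + 1) = V - Vᴴ := by
      rw [Matrix.sub_mul, Matrix.mul_add, Matrix.mul_add, hV, Matrix.one_mul, Matrix.mul_one, Matrix.mul_one]
      abel
    rw [e1, e2, neg_smul, ← smul_neg, neg_sub]
  have h4 : Sᴴ * (V + 1)ᴴ = S * (V + 1)ᴴ := by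
    have h5 := congrArg (fun M => (V + 1)⁻¹ * M) h3
    simp only [← Matrix.mul_assoc, nonsing_inv_mul _ hu, Matrix.one_mul] at h5
    exact h5
  have h6 := congrArg (fun M => M * ((V + 1)ᴴ)⁻¹) h4
  simp only [Matrix.mul_assoc, mul_nonsing_inv _ hu2, Matrix.mul_one] at h6
  exact h6

theorem thm_PD0 : St_PD0 := by
  intro k c a b hD
  obtain ⟨W, hW, hA⟩ := hD
  obtain ⟨E, hE, hWE, hsum⟩ := Pool.Agent.Helper45.NC.complete W hW c (by simp)
  have hAH : Wᴴ * (diagonal b)ᴴ * W = (diagonal a)ᴴ := by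
    rw [← hA, conjTranspose_mul, conjTranspose_mul, conjTranspose_conjTranspose, Matrix.mul_assoc]
  have hEE : E * Eᴴ = 1 - W * Wᴴ := by
    rw [← hsum]
    abel
  have hcomm : ∀ (n : ℕ) (d : Fin n → ℂ), diagonal d * (diagonal d)ᴴ = (diagonal d)ᴴ * diagonal d := by
    intro n d
    rw [diagonal_conjTranspose, diagonal_mul_diagonal, diagonal_mul_diagonal]
    congr 1
    funext i
    exact mul_comm _ _
  have hMM : (Wᴴ * (diagonal b)ᴴ * E) * (Wᴴ * (diagonal b)ᴴ * E)ᴴ =
      (Wᴴ * diagonal b * E) * (Wᴴ * diagonal b * E)ᴴ := by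
    have e1 : ∀ B : Matrix (Fin (k + c)) (Fin (k + c)) ℂ,
        (Wᴴ * B * E) * (Wᴴ * B * E)ᴴ = Wᴴ * (B * Bᴴ) * W - (Wᴴ * B * W) * (Wᴴ * Bᴴ * W) := by
      intro B
      have : (Wᴴ * B * E) * (Wᴴ * B * E)ᴴ = Wᴴ * B * (E * Eᴴ) * (Bᴴ * W) := by
        rw [conjTranspose_mul, conjTranspose_mul, conjTranspose_conjTranspose]
        simp only [Matrix.mul_assoc]
      rw [this, hEE, Matrix.mul_sub, Matrix.mul_one, Matrix.sub_mul]
      simp only [Matrix.mul_assoc]
    rw [e1, e1, conjTranspose_conjTranspose, hcomm, hA, hAH, hcomm]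
  obtain ⟨U, hU1, hU2, hUM⟩ := Pool.Agent.Helper45.NC.exists_unitary _ _ hMM
  obtain ⟨Φ, hΦ⟩ := PD0_set U
  refine ⟨Φ, fun ω hω hωΦ => ?_⟩
  have hd := hΦ ω hωΦ
  have hωω : ω * conj ω = 1 := by
    rw [Complex.mul_conj, Complex.normSq_eq_norm_sq, hω]
    simp
  set V : Matrix (Fin c) (Fin c) ℂ := (ω ^ 2) • U with hVdef
  have hV : V * Vᴴ = 1 := by
    rw [hVdef, conjTranspose_smul, smul_mul_smul_comm, hU2]
    have : ω ^ 2 * star (ω ^ 2) = 1 := by
      have e : star (ω ^ 2) = (conj ω) ^ 2 := by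
        rw [star_pow]
        rfl
      rw [e, ← mul_pow, hωω, one_pow]
    rw [this, one_smul]
  have hu : IsUnit (V + 1).det := isUnit_iff_ne_zero.2 hd
  let S : Matrix (Fin c) (Fin c) ℂ := (V + 1)⁻¹ * ((-Complex.I) • (V - 1))
  have hNS : (V + 1) * S = (-Complex.I) • (V - 1) := by
    change (V + 1) * ((V + 1)⁻¹ * ((-Complex.I) • (V - 1))) = _
    rw [← Matrix.mul_assoc, mul_nonsing_inv _ hu, Matrix.one_mul]
  have hSh : S.IsHermitian := PD0_herm V S hV hd hNS
  set b' : Fin (k + c) → ℂ := fun l => ω * b l with hb'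
  have hB1 : (2 : ℂ) • dre b' = ω • diagonal b + conj ω • (diagonal b)ᴴ := by
    unfold dre
    rw [diagonal_conjTranspose]
    ext i j
    by_cases hij : i = j
    · subst hij
      simp only [Matrix.smul_apply, Matrix.add_apply, diagonal_apply_eq, smul_eq_mul, Pi.star_apply,
        RCLike.star_def]
      rw [← map_mul, Complex.add_conj]
      simp [hb']
    · simp [diagonal_apply_ne _ hij]
  have hB2 : (2 * Complex.I) • dimg b' = ω • diagonal b - conj ω • (diagonal b)ᴴ := by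
    unfold dimg
    rw [diagonal_conjTranspose]
    ext i j
    by_cases hij : i = j
    · subst hij
      simp only [Matrix.smul_apply, Matrix.sub_apply, diagonal_apply_eq, smul_eq_mul, Pi.star_apply,
        RCLike.star_def]
      rw [← map_mul, Complex.sub_conj]
      simp only [hb']
      push_cast
      ring
    · simp [diagonal_apply_ne _ hij]
  have hc2 : conj ω * ω ^ 2 = ω := by
    rw [pow_two, ← mul_assoc, mul_comm (conj ω) ω, hωω, one_mul]
  have hX1 : (2 : ℂ) • (Wᴴ * dre b' * E) = conj ω • (Wᴴ * (diagonal b)ᴴ * E * (V + 1)) := by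
    have e1 : (2 : ℂ) • (Wᴴ * dre b' * E) = Wᴴ * ((2 : ℂ) • dre b') * E := by
      rw [Matrix.mul_smul, Matrix.smul_mul]
    rw [e1, hB1, Matrix.mul_add, Matrix.add_mul, Matrix.mul_smul, Matrix.smul_mul, Matrix.mul_smul, Matrix.smul_mul,
      hUM, hVdef, Matrix.mul_add, Matrix.mul_one, smul_add, Matrix.mul_smul, smul_smul, hc2]
  have hX2 : (2 * Complex.I) • (Wᴴ * dimg b' * E) =
      conj ω • (Wᴴ * (diagonal b)ᴴ * E * (V - 1)) := by
    have e1 : (2 * Complex.I) • (Wᴴ * dimg b' * E) = Wᴴ * ((2 * Complex.I) • dimg b') * E := by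
      rw [Matrix.mul_smul, Matrix.smul_mul]
    rw [e1, hB2, Matrix.mul_sub, Matrix.sub_mul, Matrix.mul_smul, Matrix.smul_mul, Matrix.mul_smul, Matrix.smul_mul,
      hUM, hVdef, Matrix.mul_sub, Matrix.mul_one, smul_sub, Matrix.mul_smul, smul_smul, hc2]
  have hXX : Wᴴ * dimg b' * E = Wᴴ * dre b' * E * S := by
    have h2I : (2 * Complex.I : ℂ) ≠ 0 := mul_ne_zero two_ne_zero Complex.I_ne_zero
    have h1 : (2 * Complex.I) • (Wᴴ * dimg b' * E) = (2 * Complex.I) • (Wᴴ * dre b' * E * S) := by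
      rw [hX2]
      have e1 : (2 * Complex.I) • (Wᴴ * dre b' * E * S) =
          Complex.I • (((2 : ℂ) • (Wᴴ * dre b' * E)) * S) := by
        rw [Matrix.smul_mul, smul_smul, mul_comm]
      rw [e1, hX1, Matrix.smul_mul, Matrix.mul_assoc (Wᴴ * (diagonal b)ᴴ * E), hNS, Matrix.mul_smul,
        smul_smul, smul_smul]
      congr 1
      have : Complex.I * conj ω * -Complex.I = conj ω * (-(Complex.I * Complex.I)) := by ring
      rw [this, Complex.I_mul_I, neg_neg, mul_one]
    have h2 := congrArg (fun M => (2 * Complex.I)⁻¹ • M) h1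
    simp only [smul_smul, inv_mul_cancel₀ h2I, one_smul] at h2
    exact h2
  refine ⟨W, E, S, (Eᴴ * (dre b' * E * S - dimg b' * E))ᴴ, hW, hE, hWE, hsum, hSh, ?_, ?_⟩
  · have e1 : diagonal b' = ω • diagonal b := by
      ext i j
      by_cases hij : i = j
      · subst hij
        simp [hb']
      · simp [diagonal_apply_ne _ hij]
    have e2 : (diagonal fun j => ω * a j) = ω • diagonal a := by
      ext i j
      by_cases hij : i = j
      · subst hij
        simp
      · simp [diagonal_apply_ne _ hij]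
    rw [e1, e2, Matrix.mul_smul, Matrix.smul_mul, hA]
  · rw [conjTranspose_conjTranspose]
    have h1 : dimg b' * E - dre b' * E * S =
        (W * Wᴴ + E * Eᴴ) * (dimg b' * E - dre b' * E * S) := by
      rw [hsum, Matrix.one_mul]
    have h2 : W * Wᴴ * (dimg b' * E - dre b' * E * S) = 0 := by
      rw [Matrix.mul_assoc, Matrix.mul_sub]
      have : Wᴴ * (dimg b' * E) - Wᴴ * (dre b' * E * S) = 0 := by
        rw [sub_eq_zero]
        simpa only [Matrix.mul_assoc] using hXX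
      rw [this, Matrix.mul_zero]
    rw [Matrix.add_mul, h2, zero_add] at h1
    have h3 : dimg b' * E = dre b' * E * S + E * Eᴴ * (dimg b' * E - dre b' * E * S) := by
      rw [← h1]
      abel
    have h4 : E * (Eᴴ * (dre b' * E * S - dimg b' * E)) =
        - (E * Eᴴ * (dimg b' * E - dre b' * E * S)) := by
      rw [← Matrix.mul_assoc, ← Matrix.mul_neg, neg_sub]
    rw [h4, sub_neg_eq_add]
    exact h3

end Pool.Agent.NCC
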