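import Pool.Agent.NCC.StM

/-!
# NCC: sign of the determinant of a Hermitian matrix
-/

set_option autoImplicit false

namespace Pool.Agent.NCC

open Matrix Finset

private theorem Par_prod {ι : Type} (s : Finset ι) (e : ι → ℝ) (h : ∀ i ∈ s, e i ≠ 0) :
    0 < (-1) ^ (s.filter (fun i => e i < 0)).card * ∏ i ∈ s, e i := by
  classical
  induction s using Finset.induction_on with
  | empty => simp
  | insert a s ha ih =>
    have h1 := ih fun i hi => h i (Finset.mem_insert_of_mem hi)
    rw [Finset.prod_insert ha, Finset.filter_insert]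
    rcases lt_or_gt_of_ne (h a (Finset.mem_insert_self a s)) with hn | hp
    · rw [if_pos hn, Finset.card_insert_of_notMem (fun hm => ha (Finset.mem_filter.1 hm).1), pow_succ]
      have e1 : (-1 : ℝ) ^ (s.filter (fun i => e i < 0)).card * -1 * (e a * ∏ i ∈ s, e i) =
          -e a * ((-1) ^ (s.filter (fun i => e i < 0)).card * ∏ i ∈ s, e i) := by ring
      rw [e1]
      exact mul_pos (by linarith) h1
    · rw [if_neg (not_lt.2 hp.le)]
      have e1 : (-1 : ℝ) ^ (s.filter (fun i => e i < 0)).card * (e a * ∏ i ∈ s, e i) =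
          e a * ((-1) ^ (s.filter (fun i => e i < 0)).card * ∏ i ∈ s, e i) := by ring
      rw [e1]
      exact mul_pos hp h1

/-- The determinant of an invertible Hermitian matrix has the sign given by the number of its
negative eigenvalues. -/
theorem thm_Par (h : St_Ng) : St_Par := by
  intro m _ _ N hN hdet
  have hd := hN.det_eq_prod_eigenvalues
  have hd2 : N.det = ((∏ i, hN.eigenvalues i : ℝ) : ℂ) := by
    rw [hd]
    push_cast
    rfl
  rw [h.1 m N hN, hd2]
  refine ⟨?_, Complex.ofReal_im _⟩
  rw [Complex.ofReal_re]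
  apply Par_prod
  intro i _ h0
  apply hdet
  rw [hd2, Finset.prod_eq_zero (Finset.mem_univ i) h0]
  simp

end Pool.Agent.NCC
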