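import Pool.Agent.NCC.StA

/-!
# NCC, module Pers : persistence of simple real roots
-/

set_option autoImplicit false

namespace Pool.Agent.NCC

open Polynomial Filter Topology Set

private theorem Pers_one (q : ℝ[X]) (a b : ℝ) (hab : a < b)
    (hd : ∀ y ∈ Icc a b, (derivative q).eval y ≠ 0) (hs : q.eval a * q.eval b < 0) :
    ∃ r ∈ Ioo a b, q.eval r = 0 ∧ ∀ y ∈ Icc a b, q.eval y = 0 → y = r := by
  have huniq : ∀ u v : ℝ, u ∈ Icc a b → v ∈ Icc a b → u < v → q.eval u = 0 → q.eval v = 0 →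
      False := by
    intro u v hu hv huv h1 h2
    obtain ⟨w, hw, hw0⟩ := exists_hasDerivAt_eq_zero (f := fun y => q.eval y)
      (f' := fun y => (derivative q).eval y) huv q.continuous.continuousOn (h1.trans h2.symm)
      (fun x _ => q.hasDerivAt x)
    exact hd w ⟨hu.1.trans hw.1.le, hw.2.le.trans hv.2⟩ hw0
  have hex : ∃ r ∈ Ioo a b, q.eval r = 0 := by
    rcases mul_neg_iff.1 hs with h | h
    · have := intermediate_value_Ioo' hab.le (f := fun y => q.eval y) q.continuous.continuousOn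
      obtain ⟨r, hr, hr0⟩ := this ⟨h.2, h.1⟩
      exact ⟨r, hr, hr0⟩
    · have := intermediate_value_Ioo hab.le (f := fun y => q.eval y) q.continuous.continuousOn
      obtain ⟨r, hr, hr0⟩ := this ⟨h.1, h.2⟩
      exact ⟨r, hr, hr0⟩
  obtain ⟨r, hr, hr0⟩ := hex
  refine ⟨r, hr, hr0, ?_⟩
  intro y hy hy0
  have hr' : r ∈ Icc a b := ⟨hr.1.le, hr.2.le⟩
  rcases lt_trichotomy y r with h | h | h
  · exact (huniq y r hy hr' h hy0 hr0).elim
  · exact h
  · exact (huniq r y hr' hy h hr0 hy0).elim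

private theorem Pers_sign (q : ℝ[X]) (φ h : ℝ) (hh : 0 < h) (h0 : q.eval φ = 0)
    (hd : ∀ y ∈ Icc (φ - h) (φ + h), (derivative q).eval y ≠ 0) :
    q.eval (φ - h) * q.eval (φ + h) < 0 := by
  have hinj : InjOn (fun y => q.eval y) (Icc (φ - h) (φ + h)) := by
    intro u hu v hv huv
    by_contra hne
    rcases lt_or_gt_of_ne hne with h1 | h1
    · obtain ⟨w, hw, hw0⟩ := exists_hasDerivAt_eq_zero (f := fun y => q.eval y)
        (f' := fun y => (derivative q).eval y) h1 q.continuous.continuousOn huv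
        (fun x _ => q.hasDerivAt x)
      exact hd w ⟨hu.1.trans hw.1.le, hw.2.le.trans hv.2⟩ hw0
    · obtain ⟨w, hw, hw0⟩ := exists_hasDerivAt_eq_zero (f := fun y => q.eval y)
        (f' := fun y => (derivative q).eval y) h1 q.continuous.continuousOn huv.symm
        (fun x _ => q.hasDerivAt x)
      exact hd w ⟨hv.1.trans hw.1.le, hw.2.le.trans hu.2⟩ hw0
  have ha : φ - h ∈ Icc (φ - h) (φ + h) := ⟨le_rfl, by linarith⟩
  have hb : φ + h ∈ Icc (φ - h) (φ + h) := ⟨by linarith, le_rfl⟩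
  have hm : φ ∈ Icc (φ - h) (φ + h) := ⟨by linarith, by linarith⟩
  rcases ContinuousOn.strictMonoOn_of_injOn_Icc' (by linarith) q.continuous.continuousOn hinj
    with h1 | h1
  · have h2 : q.eval (φ - h) < q.eval φ := h1 ha hm (by linarith)
    have h3 : q.eval φ < q.eval (φ + h) := h1 hm hb (by linarith)
    rw [h0] at h2 h3
    exact mul_neg_of_neg_of_pos h2 h3
  · have h2 : q.eval φ < q.eval (φ - h) := h1 ha hm (by linarith)
    have h3 : q.eval (φ + h) < q.eval φ := h1 hm hb (by linarith)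
    rw [h0] at h2 h3
    exact mul_neg_of_pos_of_neg h2 h3

/-- roots, when all real roots are simple -/
private theorem Pers_roots (q : ℝ[X]) (hq : q ≠ 0) (S : Finset ℝ) (r : ℝ → ℝ)
    (hr : ∀ φ ∈ S, q.eval (r φ) = 0) (hr' : ∀ y, q.eval y = 0 → ∃ φ ∈ S, y = r φ)
    (hs : ∀ y, q.eval y = 0 → (derivative q).eval y ≠ 0) : q.roots = (S.image r).val := by
  classical
  have hnd : q.roots.Nodup := by
    rw [Multiset.nodup_iff_count_le_one]
    intro y
    rw [count_roots]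
    by_contra h
    push Not at h
    have h1 := (one_lt_rootMultiplicity_iff_isRoot hq).1 h
    exact hs y h1.1 h1.2
  have h1 : q.roots.toFinset = S.image r := by
    ext y
    rw [Multiset.mem_toFinset, mem_roots hq, Finset.mem_image]
    constructor
    · intro h
      obtain ⟨φ, hφ, h2⟩ := hr' y h
      exact ⟨φ, hφ, h2.symm⟩
    · rintro ⟨φ, hφ, rfl⟩
      exact hr φ hφ
  rw [← h1, Multiset.toFinset_val, hnd.dedup]

section

variable {c : ℕ} {Φ : ℝ → BP} (hΦ : ∀ t, (Φ t).Monic ∧ (Φ t).natDegree = c)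
  (hc : ∀ j, Continuous fun p : ℝ × ℝ => ((Φ p.1).coeff j).eval p.2)

include hΦ in
private theorem Pers_monic (t x : ℝ) : (sl (Φ t) x).Monic := (hΦ t).1.map _

include hΦ in
private theorem Pers_deg (t x : ℝ) : (sl (Φ t) x).natDegree = c := by
  rw [← (hΦ t).2]
  exact (hΦ t).1.natDegree_map _

private theorem Pers_coeff (t x : ℝ) (j : ℕ) :
    (sl (Φ t) x).coeff j = ((Φ t).coeff j).eval x := by
  unfold sl
  rw [coeff_map]
  rfl

private theorem Pers_der (t x : ℝ) : sl (derivative (Φ t)) x = derivative (sl (Φ t) x) := by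
  unfold sl
  rw [derivative_map]

include hΦ hc in
private theorem Pers_cont :
    Continuous fun w : (ℝ × ℝ) × ℝ => (sl (Φ w.1.1) w.1.2).eval w.2 := by
  have h1 : (fun w : (ℝ × ℝ) × ℝ => (sl (Φ w.1.1) w.1.2).eval w.2) =
      fun w => ∑ j ∈ Finset.range (c + 1), ((Φ w.1.1).coeff j).eval w.1.2 * w.2 ^ j := by
    funext w
    rw [eval_eq_sum_range' (n := c + 1) (by rw [Pers_deg hΦ]; omega)]
    refine Finset.sum_congr rfl fun j _ => ?_
    rw [Pers_coeff]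
  rw [h1]
  refine continuous_finsetSum _ fun j _ => ?_
  exact ((hc j).comp continuous_fst).mul (continuous_snd.pow j)

include hΦ hc in
private theorem Pers_cont' :
    Continuous fun w : (ℝ × ℝ) × ℝ => (derivative (sl (Φ w.1.1) w.1.2)).eval w.2 := by
  have h1 : (fun w : (ℝ × ℝ) × ℝ => (derivative (sl (Φ w.1.1) w.1.2)).eval w.2) =
      fun w => ∑ j ∈ Finset.range (c + 1),
        (((Φ w.1.1).coeff (j + 1)).eval w.1.2 * ((j : ℝ) + 1)) * w.2 ^ j := by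
    funext w
    have h2 : (derivative (sl (Φ w.1.1) w.1.2)).natDegree < c + 1 := by
      have h3 := natDegree_derivative_le (sl (Φ w.1.1) w.1.2)
      rw [Pers_deg hΦ] at h3
      omega
    rw [eval_eq_sum_range' h2]
    refine Finset.sum_congr rfl fun j _ => ?_
    rw [coeff_derivative, Pers_coeff]
  rw [h1]
  refine continuous_finsetSum _ fun j _ => ?_
  exact (((hc (j + 1)).comp continuous_fst).mul continuous_const).mul (continuous_snd.pow j)

include hΦ hc in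
private theorem Pers_bd (z₀ : ℝ × ℝ) : ∃ Y' : ℝ, ∀ᶠ z : ℝ × ℝ in 𝓝 z₀, ∀ y,
    (sl (Φ z.1) z.2).eval y = 0 → |y| ≤ Y' := by
  have hcs : Continuous fun z : ℝ × ℝ => ∑ j ∈ Finset.range c, |((Φ z.1).coeff j).eval z.2| :=
    continuous_finsetSum _ fun j _ => (hc j).abs
  refine ⟨∑ j ∈ Finset.range c, |((Φ z₀.1).coeff j).eval z₀.2| + 1 + 1, ?_⟩
  have h1 : ∀ᶠ z : ℝ × ℝ in 𝓝 z₀, ∑ j ∈ Finset.range c, |((Φ z.1).coeff j).eval z.2| <
      ∑ j ∈ Finset.range c, |((Φ z₀.1).coeff j).eval z₀.2| + 1 :=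
    hcs.continuousAt.eventually (Iio_mem_nhds (by linarith))
  filter_upwards [h1] with z hz y hy
  have hm := Pers_monic hΦ z.1 z.2
  have h2 := IsRoot.norm_lt_cauchyBound hm.ne_zero hy
  unfold cauchyBound at h2
  rw [hm.leadingCoeff, nnnorm_one, div_one, Pers_deg hΦ] at h2
  have h3 : (Finset.range c).sup (fun j => ‖(sl (Φ z.1) z.2).coeff j‖₊) ≤
      ∑ j ∈ Finset.range c, ‖(sl (Φ z.1) z.2).coeff j‖₊ := by
    apply Finset.sup_le
    intro j hj
    exact Finset.single_le_sum (f := fun j => ‖(sl (Φ z.1) z.2).coeff j‖₊)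
      (fun _ _ => zero_le) hj
  have h4 : ‖y‖₊ < ∑ j ∈ Finset.range c, ‖(sl (Φ z.1) z.2).coeff j‖₊ + 1 :=
    lt_of_lt_of_le h2 (add_le_add_left h3 1)
  have h5 : (‖y‖₊ : ℝ) < ((∑ j ∈ Finset.range c, ‖(sl (Φ z.1) z.2).coeff j‖₊ + 1 : NNReal) : ℝ) :=
    NNReal.coe_lt_coe.2 h4
  push_cast at h5
  have h6 : ∑ j ∈ Finset.range c, ‖(sl (Φ z.1) z.2).coeff j‖ =
      ∑ j ∈ Finset.range c, |((Φ z.1).coeff j).eval z.2| := by
    refine Finset.sum_congr rfl fun j _ => ?_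
    rw [Pers_coeff, Real.norm_eq_abs]
  rw [h6, Real.norm_eq_abs] at h5
  linarith

end

private theorem Pers_ne (g : (ℝ × ℝ) × ℝ → ℝ) (hg : Continuous g) (z₀ : ℝ × ℝ) (K : Set ℝ)
    (hK : IsCompact K) (h : ∀ y ∈ K, g (z₀, y) ≠ 0) :
    ∀ᶠ z : ℝ × ℝ in 𝓝 z₀, ∀ y ∈ K, g (z, y) ≠ 0 := by
  apply hK.eventually_forall_of_forall_eventually
  intro y hy
  exact hg.continuousAt.eventually_ne (h y hy)

theorem thm_Pers : St_Pers := by
  intro c Φ hΦ hc K₁ K₃ K₂ Y η hK₁ hK₂ hK₃ hη h2 h3 h1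
  have hcont := Pers_cont hΦ hc
  have hcont' := Pers_cont' hΦ hc
  have hder : ∀ t x y, ev (derivative (Φ t)) x y = (derivative (sl (Φ t) x)).eval y := by
    intro t x y
    unfold ev
    rw [Pers_der]
  -- part (1)
  have e1 : ∀ᶠ t : ℝ in 𝓝 0, ∀ q ∈ K₂, 0 < ev (Φ 0) q.1 q.2 * ev (Φ t) q.1 q.2 := by
    apply hK₂.eventually_forall_of_forall_eventually
    intro q hq
    have hc1 : Continuous fun w : ℝ × (ℝ × ℝ) => ev (Φ 0) w.2.1 w.2.2 * ev (Φ w.1) w.2.1 w.2.2 := by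
      apply Continuous.mul
      · exact hcont.comp (f := fun w : ℝ × (ℝ × ℝ) => ((((0 : ℝ), w.2.1), w.2.2) : (ℝ × ℝ) × ℝ))
          (by fun_prop)
      · exact hcont.comp (f := fun w : ℝ × (ℝ × ℝ) => (((w.1, w.2.1), w.2.2) : (ℝ × ℝ) × ℝ))
          (by fun_prop)
    have h4 : 0 < ev (Φ 0) q.1 q.2 * ev (Φ 0) q.1 q.2 := mul_self_pos.2 (h2 q hq)
    exact hc1.continuousAt.eventually (Ioi_mem_nhds h4)
  -- part (2)
  have e2 : ∀ᶠ t : ℝ in 𝓝 0, ∀ x ∈ K₃, ∀ y, ev (Φ t) x y = 0 → |y| < Y := by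
    apply hK₃.eventually_forall_of_forall_eventually
    intro x hx
    obtain ⟨Y', hY'⟩ := Pers_bd hΦ hc (0, x)
    have hKc : IsCompact (Icc (-Y') Y' ∩ {y : ℝ | Y ≤ |y|}) :=
      isCompact_Icc.inter_right (isClosed_le continuous_const continuous_abs)
    have h4 := Pers_ne _ hcont (0, x) _ hKc (by
      rintro y ⟨-, hy⟩ h5
      have h6 := h3 x hx y h5
      have h7 : Y ≤ |y| := hy
      linarith)
    filter_upwards [hY', h4] with z hz1 hz2 y hy
    by_contra h5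
    push Not at h5
    exact hz2 y ⟨abs_le.1 (hz1 y hy), h5⟩ hy
  -- part (3)
  have e3 : ∀ᶠ t : ℝ in 𝓝 0, ∀ x ∈ K₁, (∀ y, ev (Φ t) x y = 0 → ev (derivative (Φ t)) x y ≠ 0) ∧
      ∀ y₁ y₂ : ℝ, y₁ < y₂ → (∀ φ, ev (Φ 0) x φ = 0 → η ≤ |y₁ - φ| ∧ η ≤ |y₂ - φ|) →
        cnt (Φ t) x y₁ y₂ = cnt (Φ 0) x y₁ y₂ := by
    apply hK₁.eventually_forall_of_forall_eventually
    intro x₀ hx₀
    classical
    obtain ⟨Y', hY'⟩ := Pers_bd hΦ hc (0, x₀)
    obtain ⟨S, hS⟩ : ∃ S : Finset ℝ, ∀ y, y ∈ S ↔ (sl (Φ 0) x₀).eval y = 0 :=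
      ⟨(sl (Φ 0) x₀).roots.toFinset, fun y => by
        rw [Multiset.mem_toFinset, mem_roots (Pers_monic hΦ 0 x₀).ne_zero]
        rfl⟩
    -- the radius
    obtain ⟨h, hh0, hhη, hhd, hhs⟩ : ∃ h : ℝ, 0 < h ∧ 2 * h < η ∧
        (∀ φ ∈ S, ∀ y ∈ Icc (φ - h) (φ + h), (derivative (sl (Φ 0) x₀)).eval y ≠ 0) ∧
        ∀ φ ∈ S, ∀ φ' ∈ S, φ ≠ φ' → 2 * h < |φ - φ'| := by
      have f1 : ∀ φ ∈ S, ∀ᶠ h : ℝ in 𝓝[>] 0, ∀ y ∈ Icc (φ - h) (φ + h),
          (derivative (sl (Φ 0) x₀)).eval y ≠ 0 := by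
        intro φ hφ
        have g1 : (derivative (sl (Φ 0) x₀)).eval φ ≠ 0 := by
          have := h1 x₀ hx₀ φ ((hS φ).1 hφ)
          rwa [hder] at this
        have g2 : ∀ᶠ y in 𝓝 φ, (derivative (sl (Φ 0) x₀)).eval y ≠ 0 :=
          (derivative (sl (Φ 0) x₀)).continuous.continuousAt.eventually_ne g1
        obtain ⟨ε, hε, g3⟩ := Metric.eventually_nhds_iff.1 g2
        have g4 : ∀ᶠ h : ℝ in 𝓝[>] 0, h < ε :=
          nhdsWithin_le_nhds (Iio_mem_nhds hε)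
        filter_upwards [g4] with h hh y hy
        apply g3
        rw [Real.dist_eq, abs_lt]
        constructor
        · linarith [hy.1]
        · linarith [hy.2]
      have f2 : ∀ φ ∈ S, ∀ φ' ∈ S, ∀ᶠ h : ℝ in 𝓝[>] 0, φ ≠ φ' → 2 * h < |φ - φ'| := by
        intro φ _ φ' _
        by_cases g1 : φ = φ'
        · exact Eventually.of_forall fun h hne => absurd g1 hne
        · have g2 : 0 < |φ - φ'| := abs_pos.2 (sub_ne_zero.2 g1)
          have g3 : ∀ᶠ h : ℝ in 𝓝[>] 0, h < |φ - φ'| / 2 :=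
            nhdsWithin_le_nhds (Iio_mem_nhds (by positivity))
          filter_upwards [g3] with h hh _
          linarith
      have f3 : ∀ᶠ h : ℝ in 𝓝[>] 0, h < η / 2 :=
        nhdsWithin_le_nhds (Iio_mem_nhds (by positivity))
      have f4 : ∀ᶠ h : ℝ in 𝓝[>] 0, (0 : ℝ) < h := self_mem_nhdsWithin
      have f1' := (Finset.eventually_all S).2 f1
      have f2' := (Finset.eventually_all S).2 fun φ hφ => (Finset.eventually_all S).2 (f2 φ hφ)
      obtain ⟨h, g1, g2, g3, g4⟩ := (f1'.and (f2'.and (f3.and f4))).exists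
      exact ⟨h, g4, by linarith, g1, g2⟩
    -- the neighbourhood
    have d1 : ∀ φ ∈ S, ∀ᶠ z : ℝ × ℝ in 𝓝 (0, x₀), ∀ y ∈ Icc (φ - h) (φ + h),
        (derivative (sl (Φ z.1) z.2)).eval y ≠ 0 := fun φ hφ =>
      Pers_ne _ hcont' (0, x₀) _ isCompact_Icc (hhd φ hφ)
    have d2 : ∀ φ ∈ S, ∀ᶠ z : ℝ × ℝ in 𝓝 (0, x₀),
        (sl (Φ z.1) z.2).eval (φ - h) * (sl (Φ z.1) z.2).eval (φ + h) < 0 := by
      intro φ hφ
      have g1 := Pers_sign (sl (Φ 0) x₀) φ h hh0 ((hS φ).1 hφ) (hhd φ hφ)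
      have g2 : Continuous fun z : ℝ × ℝ =>
          (sl (Φ z.1) z.2).eval (φ - h) * (sl (Φ z.1) z.2).eval (φ + h) := by
        apply Continuous.mul
        · exact hcont.comp (f := fun z : ℝ × ℝ => ((z, φ - h) : (ℝ × ℝ) × ℝ)) (by fun_prop)
        · exact hcont.comp (f := fun z : ℝ × ℝ => ((z, φ + h) : (ℝ × ℝ) × ℝ)) (by fun_prop)
      exact g2.continuousAt.eventually (Iio_mem_nhds g1)
    have hKo : IsOpen (⋃ φ ∈ S, Ioo (φ - h) (φ + h)) :=
      isOpen_biUnion fun φ _ => isOpen_Ioo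
    have hKc : IsCompact (Icc (-Y') Y' ∩ (⋃ φ ∈ S, Ioo (φ - h) (φ + h))ᶜ) :=
      isCompact_Icc.inter_right hKo.isClosed_compl
    have d3 := Pers_ne _ hcont (0, x₀) _ hKc (by
      rintro y ⟨-, hy⟩ h5
      apply hy
      rw [mem_iUnion₂]
      exact ⟨y, (hS y).2 h5, by linarith, by linarith⟩)
    obtain ⟨Q, hQ⟩ : ∃ Q : ℝ × ℝ → Prop, Q = fun z => ∃ r : ℝ → ℝ,
        (∀ φ ∈ S, r φ ∈ Ioo (φ - h) (φ + h) ∧ (sl (Φ z.1) z.2).eval (r φ) = 0) ∧
        (∀ y, (sl (Φ z.1) z.2).eval y = 0 → ∃ φ ∈ S, y = r φ) ∧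
        ∀ y, (sl (Φ z.1) z.2).eval y = 0 → (derivative (sl (Φ z.1) z.2)).eval y ≠ 0 := ⟨_, rfl⟩
    have hQe : ∀ᶠ z : ℝ × ℝ in 𝓝 (0, x₀), Q z := by
      filter_upwards [(Finset.eventually_all S).2 d1, (Finset.eventually_all S).2 d2, d3, hY']
        with z z1 z2 z3 z4
      have hr : ∀ φ : ℝ, ∃ r : ℝ, φ ∈ S → r ∈ Ioo (φ - h) (φ + h) ∧
          (sl (Φ z.1) z.2).eval r = 0 ∧
          ∀ y ∈ Icc (φ - h) (φ + h), (sl (Φ z.1) z.2).eval y = 0 → y = r := by
        intro φ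
        by_cases hφ : φ ∈ S
        · obtain ⟨r, g1, g2, g3⟩ := Pers_one (sl (Φ z.1) z.2) (φ - h) (φ + h) (by linarith)
            (z1 φ hφ) (z2 φ hφ)
          exact ⟨r, fun _ => ⟨g1, g2, g3⟩⟩
        · exact ⟨0, fun g => absurd g hφ⟩
      choose r hr using hr
      have hloc : ∀ y, (sl (Φ z.1) z.2).eval y = 0 → ∃ φ ∈ S, y ∈ Ioo (φ - h) (φ + h) := by
        intro y hy
        by_contra hcon
        apply z3 y ⟨abs_le.1 (z4 y hy), ?_⟩ hy
        intro g1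
        rw [mem_iUnion₂] at g1
        obtain ⟨φ, g2, g3⟩ := g1
        exact hcon ⟨φ, g2, g3⟩
      rw [hQ]
      refine ⟨r, fun φ hφ => ⟨(hr φ hφ).1, (hr φ hφ).2.1⟩, ?_, ?_⟩
      · intro y hy
        obtain ⟨φ, g1, g2⟩ := hloc y hy
        exact ⟨φ, g1, (hr φ g1).2.2 y ⟨g2.1.le, g2.2.le⟩ hy⟩
      · intro y hy
        obtain ⟨φ, g1, g2⟩ := hloc y hy
        exact z1 φ g1 y ⟨g2.1.le, g2.2.le⟩
    have hQ0 : ∀ᶠ z : ℝ × ℝ in 𝓝 (0, x₀), Q (0, z.2) := by
      have g1 : Tendsto (fun z : ℝ × ℝ => ((0 : ℝ), z.2)) (𝓝 (0, x₀)) (𝓝 (0, x₀)) := by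
        have g2 : Continuous fun z : ℝ × ℝ => ((0 : ℝ), z.2) := by fun_prop
        exact g2.tendsto (0, x₀)
      exact g1.eventually hQe
    filter_upwards [hQe, hQ0] with z hz hz0
    rw [hQ] at hz hz0
    obtain ⟨r, r1, r2, r3⟩ := hz
    obtain ⟨r', r1', r2', r3'⟩ := hz0
    have hinj : ∀ r : ℝ → ℝ, (∀ φ ∈ S, r φ ∈ Ioo (φ - h) (φ + h)) → ∀ φ ∈ S, ∀ φ' ∈ S,
        r φ = r φ' → φ = φ' := by
      intro r hr φ hφ φ' hφ' hrr
      by_contra hne
      have g1 := hhs φ hφ φ' hφ' hne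
      have g2 := hr φ hφ
      have g3 := hr φ' hφ'
      rw [hrr] at g2
      have g4 : |φ - φ'| < 2 * h := by
        rw [abs_lt]
        constructor
        · linarith [g2.1, g2.2, g3.1, g3.2]
        · linarith [g2.1, g2.2, g3.1, g3.2]
      linarith
    refine ⟨fun y hy => by rw [hder]; exact r3 y hy, ?_⟩
    intro y₁ y₂ hy hfar
    have hcount : ∀ (t : ℝ) (r : ℝ → ℝ), (∀ φ ∈ S, r φ ∈ Ioo (φ - h) (φ + h)) →
        (sl (Φ t) z.2).roots = (S.image r).val →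
        cnt (Φ t) z.2 y₁ y₂ = (S.filter (fun φ => y₁ < r φ ∧ r φ < y₂)).card := by
      intro t r hr hroots
      unfold cnt
      rw [hroots]
      have g1 : Multiset.filter (fun y => y₁ < y ∧ y < y₂) (S.image r).val =
          ((S.image r).filter (fun y => y₁ < y ∧ y < y₂)).val := by
        rw [Finset.filter_val]
      have g2 : (S.image r).filter (fun y => y₁ < y ∧ y < y₂) =
          (S.filter (fun φ => y₁ < r φ ∧ r φ < y₂)).image r := by
        rw [Finset.filter_image]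
      have g3 : ((S.filter (fun φ => y₁ < r φ ∧ r φ < y₂)).image r).card =
          (S.filter (fun φ => y₁ < r φ ∧ r φ < y₂)).card := by
        apply Finset.card_image_of_injOn
        intro φ hφ φ' hφ' hrr
        exact hinj r hr φ (Finset.mem_filter.1 hφ).1 φ' (Finset.mem_filter.1 hφ').1 hrr
      rw [← g3, ← g2, Finset.card_def, Finset.filter_val]
    have c1 := hcount z.1 r (fun φ hφ => (r1 φ hφ).1)
      (Pers_roots _ (Pers_monic hΦ z.1 z.2).ne_zero S r (fun φ hφ => (r1 φ hφ).2) r2 r3)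
    have c2 := hcount 0 r' (fun φ hφ => (r1' φ hφ).1)
      (Pers_roots _ (Pers_monic hΦ 0 z.2).ne_zero S r' (fun φ hφ => (r1' φ hφ).2) r2' r3')
    rw [c1, c2]
    congr 1
    apply Finset.filter_congr
    intro φ hφ
    have g1 := (r1 φ hφ).1
    obtain ⟨g2, g2'⟩ := r1' φ hφ
    obtain ⟨g3, g4⟩ := hfar (r' φ) g2'
    have k1 : y₁ < r φ ↔ y₁ < r' φ := by
      rcases le_abs'.1 g3 with k | k
      · constructor
        · intro _; linarith
        · intro _; linarith [g1.1, g2.2]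
      · constructor
        · intro _; linarith [g1.2, g2.1]
        · intro _; linarith
    have k2 : r φ < y₂ ↔ r' φ < y₂ := by
      rcases le_abs'.1 g4 with k | k
      · constructor
        · intro _; linarith [g1.1, g2.2]
        · intro _; linarith
      · constructor
        · intro _; linarith
        · intro _; linarith [g1.2, g2.1]
    rw [k1, k2]
  obtain ⟨t₀, ht₀, hfin⟩ := Metric.eventually_nhds_iff.1 (e1.and (e2.and e3))
  refine ⟨t₀, ht₀, fun t ht => ?_⟩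
  have g := hfin (y := t) (by rwa [Real.dist_eq, sub_zero])
  exact ⟨g.1, g.2.1, g.2.2⟩

end Pool.Agent.NCC
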