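import Pool.Agent.NCC.StA

/-!
# NCC Pert: perturbation of `F`
-/

set_option autoImplicit false

namespace Pool.Agent.NCC

open Polynomial Filter Topology Set

theorem thm_Pert : St_NuB → St_Pers → St_Sh → St_Pert := by
  intro hNuB hPers hSh c N F G M₀ hP hTD hlf hM₀ hsp K₁ K₃ K₂ Y η hK₁ hK₂ hK₃ hη hne hY hGd
  have hη2 : 0 < η / 2 := half_pos hη
  obtain ⟨f₁, fm, fd, ftd, flf, fsp, f2, f3, f1⟩ :=
    hSh c N F G M₀ hP hTD hlf hsp K₁ K₃ K₂ Y (η / 2) hK₁ hK₂ hK₃ hη2 hne hY hGd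
  obtain ⟨hA, hB, h0, hD⟩ := hNuB c f₁ M₀ fm fd ftd
  obtain ⟨t₀, ht₀, ht⟩ := hPers c (fun t : ℝ => (NU t)^[c] f₁) (fun t => ⟨(hA t).1, (hA t).2.1⟩) hB
    K₁ K₃ K₂ Y (η / 2) hK₁ hK₂ hK₃ hη2
    (by
      intro q hq hc
      rw [h0] at hc
      have := f2 q hq
      rw [hc, mul_zero] at this
      exact lt_irrefl _ this)
    (by
      intro x hx y hy
      rw [h0] at hy
      exact f3 x hx y hy)
    (by
      intro x hx y hy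
      rw [h0] at hy ⊢
      exact (f1 x hx).1 y hy)
  rw [h0] at ht
  have htt : |t₀ / 2| < t₀ := by
    rw [abs_of_pos (half_pos ht₀)]
    exact half_lt_self ht₀
  have htne : t₀ / 2 ≠ 0 := (half_pos ht₀).ne'
  obtain ⟨g2, g3, g1⟩ := ht (t₀ / 2) htt
  obtain ⟨d1, d2, d3⟩ := hD hM₀ flf fsp (t₀ / 2) htne
  refine ⟨(NU (t₀ / 2))^[c] f₁, (hA _).1, (hA _).2.1, (hA _).2.2, d1, d2, d3, ?_, g3, ?_⟩
  · intro q hq
    have e1 := f2 q hq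
    have e2 := g2 q hq
    have e3 := mul_pos e1 e2
    have e4 : ev F q.1 q.2 * ev f₁ q.1 q.2 * (ev f₁ q.1 q.2 * ev ((NU (t₀ / 2))^[c] f₁) q.1 q.2) =
        (ev F q.1 q.2 * ev ((NU (t₀ / 2))^[c] f₁) q.1 q.2) * (ev f₁ q.1 q.2) ^ 2 := by ring
    have e5 : 0 < (ev F q.1 q.2 * ev ((NU (t₀ / 2))^[c] f₁) q.1 q.2) * (ev f₁ q.1 q.2) ^ 2 := by
      rw [← e4]
      exact e3
    exact pos_of_mul_pos_left e5 (sq_nonneg _)
  · intro x hx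
    refine ⟨(g1 x hx).1, ?_⟩
    intro y₁ y₂ hy hφ
    have hφ' : ∀ φ, ev f₁ x φ = 0 → η / 2 ≤ |y₁ - φ| ∧ η / 2 ≤ |y₂ - φ| := by
      intro φ hφ0
      obtain ⟨ψ, hψ, hd⟩ := (f1 x hx).2.1 φ hφ0
      obtain ⟨a1, a2⟩ := hφ ψ hψ
      have b1 : |y₁ - ψ| ≤ |y₁ - φ| + |φ - ψ| := abs_sub_le _ _ _
      have b2 : |y₂ - ψ| ≤ |y₂ - φ| + |φ - ψ| := abs_sub_le _ _ _
      constructor <;> linarith
    rw [(g1 x hx).2 y₁ y₂ hy hφ', (f1 x hx).2.2 y₁ y₂ hy ?_]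
    intro φ hφ0
    obtain ⟨a1, a2⟩ := hφ φ hφ0
    constructor <;> linarith

end Pool.Agent.NCC
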