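import Pool.Agent.NCC.StS

/-!
# NCC, module QFin: numerical consequences of the Hilbert function
-/

set_option autoImplicit false

namespace Pool.Agent.NCC

open MvPolynomial Module
open scoped ComplexConjugate

private theorem QFin_D0 (M : ℤ) (h : M ≤ -1) : DD M = 0 := by
  unfold DD
  rw [Int.toNat_of_nonpos (by omega), zero_mul]
  norm_num

private theorem QFin_D1 (M : ℤ) (h : -2 ≤ M) : 2 * (DD M : ℤ) = (M + 1) * (M + 2) := by
  rcases le_or_gt M (-1) with h1 | h1
  · rw [QFin_D0 M h1]
    have h2 : M = -1 ∨ M = -2 := by omega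
    rcases h2 with rfl | rfl <;> norm_num
  · obtain ⟨n, rfl⟩ : ∃ n : ℕ, M = n := ⟨M.toNat, by omega⟩
    unfold DD
    rw [show ((n : ℤ) + 1).toNat = n + 1 by omega, show ((n : ℤ) + 2).toNat = n + 2 by omega]
    have h2 : 2 ∣ (n + 1) * (n + 2) := (Nat.even_mul_succ_self (n + 1)).two_dvd
    obtain ⟨k, hk⟩ := h2
    rw [hk, Nat.mul_div_cancel_left k (by norm_num)]
    have : (((n + 1) * (n + 2) : ℕ) : ℤ) = ((2 * k : ℕ) : ℤ) := by rw [hk]
    push_cast at this
    linarith

private theorem QFin_fin (N : ℤ) : Module.Finite ℂ (Pd N) := by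
  have hs : {s : Fin 2 →₀ ℕ | ((s 0 + s 1 : ℕ) : ℤ) ≤ N}.Finite := by
    refine (Set.finite_Iic (Finsupp.equivFunOnFinite.symm fun _ : Fin 2 => N.toNat)).subset ?_
    intro s hs
    rw [Set.mem_ofPred_eq] at hs
    rw [Set.mem_Iic]
    intro i
    rw [Finsupp.equivFunOnFinite_symm_apply_apply]
    fin_cases i
    · show s 0 ≤ N.toNat
      omega
    · show s 1 ≤ N.toNat
      omega
  have := hs.to_subtype
  exact Module.Finite.of_basis (basisRestrictSupport ℂ _)

private theorem QFin_mono (F G : CP) {N N' : ℤ} (h : N ≤ N') : Im F G N ≤ Im F G N' :=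
  Submodule.map_mono (restrictSupport_mono ℂ fun _ hs => le_trans hs h)

private theorem QFin_mem (p : CP) (N : ℤ) (h : (p.totalDegree : ℤ) ≤ N) : p ∈ Pd N := by
  unfold Pd
  rw [mem_restrictSupport_iff]
  intro s hs
  have h1 := le_totalDegree hs
  have h2 : (s.sum fun _ e => e) = s 0 + s 1 := by
    rw [Finsupp.sum_fintype _ _ (fun _ => rfl), Fin.sum_univ_two]
  rw [h2] at h1
  rw [Set.mem_ofPred_eq]
  omega

theorem thm_QFin : St_Hilb → St_QFin := by
  intro hH F G c d hP
  have hc : (1 : ℤ) ≤ c := by exact_mod_cast hP.hc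
  have hd : (1 : ℤ) ≤ d := by exact_mod_cast hP.hd
  have key : ∀ N : ℤ, (finrank ℂ (Im F G N) : ℤ) + DD (N - c) + DD (N - d) =
      DD N + DD (N - c - d) := fun N => by exact_mod_cast hH F G c d hP N
  have hfin : ∀ N, Module.Finite ℂ (Im F G N) := by
    intro N
    have := QFin_fin N
    unfold Im
    infer_instance
  have hA : ∀ N : ℤ, (c : ℤ) + d - 2 ≤ N → finrank ℂ (Im F G N) = c * d := by
    intro N hN
    have h0 := key N
    have h1 := QFin_D1 (N - c) (by omega)
    have h2 := QFin_D1 (N - d) (by omega)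
    have h3 := QFin_D1 N (by omega)
    have h4 := QFin_D1 (N - c - d) (by omega)
    have h5 : (finrank ℂ (Im F G N) : ℤ) = c * d := by nlinarith
    exact_mod_cast h5
  have htop : Im F G (c + d - 2) = ⊤ := by
    rw [eq_top_iff]
    intro q _
    obtain ⟨p, rfl⟩ := Ideal.Quotient.mk_surjective q
    have h1 : Im F G (c + d - 2) = Im F G (max (c + d - 2) p.totalDegree) := by
      have := hfin (max (c + d - 2) p.totalDegree)
      apply Submodule.eq_of_le_of_finrank_eq (QFin_mono F G (le_max_left _ _))
      rw [hA _ le_rfl, hA _ (le_max_left _ _)]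
    rw [h1]
    exact ⟨p, QFin_mem p _ (le_max_right _ _), rfl⟩
  have hfr : finrank ℂ (QQ F G) = c * d := by
    rw [← hA _ le_rfl, htop, finrank_top]
  have hF : Module.Finite ℂ (QQ F G) := by
    have := hfin (c + d - 2)
    rw [htop] at this
    exact Module.Finite.equiv (Submodule.topEquiv)
  refine ⟨hF, hfr, htop, ?_, ?_, ?_⟩
  · have h0 := key (c + d - 3)
    have h1 := QFin_D1 ((c : ℤ) + d - 3 - c) (by omega)
    have h2 := QFin_D1 ((c : ℤ) + d - 3 - d) (by omega)
    have h3 := QFin_D1 ((c : ℤ) + d - 3) (by omega)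
    have h4 := QFin_D0 ((c : ℤ) + d - 3 - c - d) (by omega)
    rw [h4] at h0
    have h5 : (finrank ℂ (Im F G (c + d - 3)) : ℤ) + 1 = c * d := by
      push_cast at h0
      nlinarith
    exact_mod_cast h5
  · intro e he
    have h0 := key e
    have h0' := key (e + 1)
    have h1 := QFin_D0 (e - c - d) (by omega)
    have h1' := QFin_D0 (e + 1 - c - d) (by omega)
    have h3 := QFin_D1 e (by omega)
    have h3' := QFin_D1 (e + 1) (by omega)
    rcases le_total (c : ℤ) d with hcd | hcd
    · have h4 := QFin_D0 (e - d) (by omega)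
      have h4' := QFin_D0 (e + 1 - d) (by omega)
      have h5 := QFin_D1 (e - c) (by omega)
      have h5' := QFin_D1 (e + 1 - c) (by omega)
      rw [h1, h4] at h0
      rw [h1', h4'] at h0'
      have hde : (d : ℤ) = 2 * e + 4 - c := by omega
      have h6 : 2 * (finrank ℂ (Im F G e) : ℤ) + c = c * d := by
        rw [hde]
        push_cast at h0
        linear_combination 2 * h0 - h5 + h3
      have h7 : (finrank ℂ (Im F G e) : ℤ) + finrank ℂ (Im F G (e + 1)) = c * d := by
        have h8 : 2 * (finrank ℂ (Im F G (e + 1)) : ℤ) = c * d + c := by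
          rw [hde]
          push_cast at h0'
          linear_combination 2 * h0' - h5' + h3'
        linarith
      constructor
      · have : (c * d : ℤ) ≤ 2 * (finrank ℂ (Im F G e) : ℤ) + c := h6.ge
        exact_mod_cast this
      · have : (c * d : ℤ) ≤ (finrank ℂ (Im F G e) : ℤ) + finrank ℂ (Im F G (e + 1)) := h7.ge
        exact_mod_cast this
    · have h4 := QFin_D0 (e - c) (by omega)
      have h4' := QFin_D0 (e + 1 - c) (by omega)
      have h5 := QFin_D1 (e - d) (by omega)
      have h5' := QFin_D1 (e + 1 - d) (by omega)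
      rw [h1, h4] at h0
      rw [h1', h4'] at h0'
      have hde : (c : ℤ) = 2 * e + 4 - d := by omega
      have h6 : 2 * (finrank ℂ (Im F G e) : ℤ) + d = c * d := by
        rw [hde]
        push_cast at h0
        linear_combination 2 * h0 - h5 + h3
      have h7 : (finrank ℂ (Im F G e) : ℤ) + finrank ℂ (Im F G (e + 1)) = c * d := by
        have h8 : 2 * (finrank ℂ (Im F G (e + 1)) : ℤ) = c * d + d := by
          rw [hde]
          push_cast at h0'
          linear_combination 2 * h0' - h5' + h3'
        linarith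
      constructor
      · have : (c * d : ℤ) ≤ 2 * (finrank ℂ (Im F G e) : ℤ) + c := by linarith
        exact_mod_cast this
      · have : (c * d : ℤ) ≤ (finrank ℂ (Im F G e) : ℤ) + finrank ℂ (Im F G (e + 1)) := h7.ge
        exact_mod_cast this
  · intro e he
    have h0 := key e
    have h1 := QFin_D0 (e - c - d) (by omega)
    have h3 := QFin_D1 e (by omega)
    rcases le_total (c : ℤ) d with hcd | hcd
    · have h4 := QFin_D0 (e - d) (by omega)
      have h5 := QFin_D1 (e - c) (by omega)
      rw [h1, h4] at h0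
      have hde : (d : ℤ) = 2 * e + 3 - c := by omega
      have h6 : 2 * (finrank ℂ (Im F G e) : ℤ) = c * d := by
        rw [hde]
        push_cast at h0
        linear_combination 2 * h0 - h5 + h3
      have : (c * d : ℤ) ≤ 2 * (finrank ℂ (Im F G e) : ℤ) := h6.ge
      exact_mod_cast this
    · have h4 := QFin_D0 (e - c) (by omega)
      have h5 := QFin_D1 (e - d) (by omega)
      rw [h1, h4] at h0
      have hde : (c : ℤ) = 2 * e + 3 - d := by omega
      have h6 : 2 * (finrank ℂ (Im F G e) : ℤ) = c * d := by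
        rw [hde]
        push_cast at h0
        linear_combination 2 * h0 - h5 + h3
      have : (c * d : ℤ) ≤ 2 * (finrank ℂ (Im F G e) : ℤ) := h6.ge
      exact_mod_cast this

end Pool.Agent.NCC
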