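import Pool.Agent.NCC.StS

/-!
# NCC [Red]: degree reduction
-/

set_option autoImplicit false

namespace Pool.Agent.NCC

open MvPolynomial Module
open scoped ComplexConjugate

/-- a nonzero polynomial of degree at most `m` without component of degree `m` has smaller degree -/
theorem Red_lt (p : CP) (m : ℕ) (h1 : p.totalDegree ≤ m) (h2 : homogeneousComponent m p = 0)
    (h3 : p ≠ 0) : p.totalDegree < m := by
  have hs : p.support.Nonempty := by
    rw [Finset.nonempty_iff_ne_empty]
    intro h
    exact h3 (MvPolynomial.support_eq_empty.1 h)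
  rcases Nat.eq_zero_or_pos m with rfl | hm
  · exfalso
    apply h3
    have h4 := totalDegree_eq_zero_iff_eq_C.1 (Nat.le_zero.1 h1)
    rw [homogeneousComponent_zero] at h2
    rw [h4]
    exact h2
  · rw [totalDegree, Finset.sup_lt_iff hm]
    intro s hs
    have h4 : (s.sum fun _ e => e) ≤ m := (le_totalDegree hs).trans h1
    rcases h4.lt_or_eq with h5 | h5
    · exact h5
    · exfalso
      have h6 := congrArg (coeff s) h2
      rw [coeff_homogeneousComponent, coeff_zero, if_pos] at h6
      · exact (MvPolynomial.mem_support_iff.1 hs) h6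
      · exact h5

theorem Red_mul (p q : CP) (m n : ℕ) (h1 : p.totalDegree ≤ m) (h2 : q.totalDegree ≤ n) :
    (p * q).totalDegree ≤ m + n :=
  (totalDegree_mul p q).trans (Nat.add_le_add h1 h2)

theorem Red_add (p q : CP) (m : ℕ) (h1 : p.totalDegree ≤ m) (h2 : q.totalDegree ≤ m) :
    (p + q).totalDegree ≤ m :=
  (totalDegree_add p q).trans (max_le h1 h2)

theorem Red_neg (p : CP) (m : ℕ) (h1 : p.totalDegree ≤ m) : (-p).totalDegree ≤ m := by
  rw [totalDegree_neg]
  exact h1

theorem Red_deg (F : CP) (c : ℕ) (h1 : F.totalDegree ≤ c) (h2 : homogeneousComponent c F ≠ 0) :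
    F ≠ 0 ∧ F.totalDegree = c := by
  constructor
  · rintro rfl
    exact h2 (map_zero _)
  · by_contra h
    exact h2 (homogeneousComponent_eq_zero c F (lt_of_le_of_ne h1 h))

/-- one step -/
private theorem Red_step (hTop : St_Top) (F G : CP) (c d : ℕ) (hP : Pair F G c d) (u v : CP)
    (M : ℕ) (hu : (u * F).totalDegree ≤ M + 1) (hv : (v * G).totalDegree ≤ M + 1)
    (hM : (u * F + v * G).totalDegree ≤ M) :
    ∃ u' v' : CP, u' * F + v' * G = u * F + v * G ∧ (u' * F).totalDegree ≤ M ∧
      (v' * G).totalDegree ≤ M := by
  by_cases hu0 : u = 0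
  · refine ⟨u, v, rfl, ?_, ?_⟩
    · rw [hu0, zero_mul, totalDegree_zero]
      exact Nat.zero_le _
    · rw [hu0, zero_mul, zero_add] at hM
      exact hM
  by_cases hv0 : v = 0
  · refine ⟨u, v, rfl, ?_, ?_⟩
    · rw [hv0, zero_mul, add_zero] at hM
      exact hM
    · rw [hv0, zero_mul, totalDegree_zero]
      exact Nat.zero_le _
  obtain ⟨hF0, hFd⟩ := Red_deg F c hP.hF hP.F0
  obtain ⟨hG0, hGd⟩ := Red_deg G d hP.hG hP.G0
  rw [totalDegree_mul_of_isDomain hu0 hF0, hFd] at hu
  rw [totalDegree_mul_of_isDomain hv0 hG0, hGd] at hv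
  obtain ⟨m, hm⟩ : ∃ m, M + 1 = m + c := ⟨M + 1 - c, by omega⟩
  obtain ⟨n, hn⟩ : ∃ n, M + 1 = n + d := ⟨M + 1 - d, by omega⟩
  have hum : u.totalDegree ≤ m := by omega
  have hvn : v.totalDegree ≤ n := by omega
  have e1 : homogeneousComponent m u * homogeneousComponent c F +
      homogeneousComponent n v * homogeneousComponent d G = 0 := by
    rw [← hTop u F m c hum hP.hF, ← hTop v G n d hvn hP.hG, ← hm, ← hn, ← map_add]
    exact homogeneousComponent_eq_zero (M + 1) _ (by omega)
  have h1 : homogeneousComponent c F ∣ homogeneousComponent n v * homogeneousComponent d G :=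
    ⟨-homogeneousComponent m u, by linear_combination e1⟩
  obtain ⟨w, hw⟩ := IsRelPrime.dvd_of_dvd_mul_right hP.rel h1
  have e2 : homogeneousComponent m u = -(homogeneousComponent d G * w) := by
    apply mul_right_cancel₀ hP.F0
    rw [hw] at e1
    linear_combination e1
  -- degrees of `w`
  have hwd : w = 0 ∨ c + w.totalDegree ≤ n := by
    by_cases hw0 : w = 0
    · exact Or.inl hw0
    · right
      have h2 := totalDegree_mul_of_isDomain hP.F0 hw0
      rw [← hw, (homogeneousComponent_isHomogeneous c F).totalDegree hP.F0] at h2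
      rw [← h2]
      exact (homogeneousComponent_isHomogeneous n v).totalDegree_le
  have key : (u + G * w).totalDegree ≤ m ∧ (v - F * w).totalDegree ≤ n ∧
      homogeneousComponent m (u + G * w) = 0 ∧ homogeneousComponent n (v - F * w) = 0 := by
    rcases hwd with rfl | hwd
    · rw [mul_zero, mul_zero, add_zero, sub_zero]
      rw [mul_zero] at hw
      rw [mul_zero, neg_zero] at e2
      exact ⟨hum, hvn, e2, hw⟩
    · obtain ⟨j, hj⟩ : ∃ j, n = c + j := ⟨n - c, by omega⟩
      have hwj : w.totalDegree ≤ j := by omega
      have hmj : m = d + j := by omega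
      have hFc : (homogeneousComponent c F).totalDegree ≤ c :=
        (homogeneousComponent_isHomogeneous c F).totalDegree_le
      have hGd' : (homogeneousComponent d G).totalDegree ≤ d :=
        (homogeneousComponent_isHomogeneous d G).totalDegree_le
      have hFF : homogeneousComponent c (homogeneousComponent c F) = homogeneousComponent c F :=
        homogeneousComponent_eq_self (homogeneousComponent_isHomogeneous c F)
      have hGG : homogeneousComponent d (homogeneousComponent d G) = homogeneousComponent d G :=
        homogeneousComponent_eq_self (homogeneousComponent_isHomogeneous d G)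
      have huu : homogeneousComponent m (homogeneousComponent m u) = homogeneousComponent m u :=
        homogeneousComponent_eq_self (homogeneousComponent_isHomogeneous m u)
      have hvv : homogeneousComponent n (homogeneousComponent n v) = homogeneousComponent n v :=
        homogeneousComponent_eq_self (homogeneousComponent_isHomogeneous n v)
      have f1 : homogeneousComponent m (G * w) = homogeneousComponent m
          (homogeneousComponent d G * w) := by
        rw [hmj, hTop G w d j hP.hG hwj, hTop _ w d j hGd' hwj, hGG]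
      have f2 : homogeneousComponent n (F * w) = homogeneousComponent n
          (homogeneousComponent c F * w) := by
        rw [hj, hTop F w c j hP.hF hwj, hTop _ w c j hFc hwj, hFF]
      refine ⟨?_, ?_, ?_, ?_⟩
      · apply Red_add _ _ _ hum
        rw [hmj]
        exact Red_mul _ _ _ _ hP.hG hwj
      · rw [sub_eq_add_neg]
        apply Red_add _ _ _ hvn
        apply Red_neg
        rw [hj]
        exact Red_mul _ _ _ _ hP.hF hwj
      · rw [map_add, f1]
        have e3 : homogeneousComponent d G * w = -homogeneousComponent m u := by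
          rw [e2, neg_neg]
        rw [e3, map_neg, huu, add_neg_cancel]
      · rw [map_sub, f2, ← hw, hvv, sub_self]
  obtain ⟨k1, k2, k3, k4⟩ := key
  refine ⟨u + G * w, v - F * w, by ring, ?_, ?_⟩
  · by_cases h0 : u + G * w = 0
    · rw [h0, zero_mul, totalDegree_zero]
      exact Nat.zero_le _
    · have h5 := Red_lt _ m k1 k3 h0
      have h6 := Red_mul (u + G * w) F _ c le_rfl hP.hF
      omega
  · by_cases h0 : v - F * w = 0
    · rw [h0, zero_mul, totalDegree_zero]
      exact Nat.zero_le _
    · have h5 := Red_lt _ n k2 k4 h0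
      have h6 := Red_mul (v - F * w) G _ d le_rfl hP.hG
      omega

theorem thm_Red (hTop : St_Top) : St_Red := by
  intro F G c d hP u v N hN
  have main : ∀ k : ℕ, ∀ u₁ v₁ : CP, u₁ * F + v₁ * G = u * F + v * G →
      (u₁ * F).totalDegree ≤ N + k → (v₁ * G).totalDegree ≤ N + k →
      ∃ u' v' : CP, u' * F + v' * G = u * F + v * G ∧ (u' * F).totalDegree ≤ N ∧
        (v' * G).totalDegree ≤ N := by
    intro k
    induction k with
    | zero => exact fun u₁ v₁ h h1 h2 => ⟨u₁, v₁, h, h1, h2⟩
    | succ k ih =>
      intro u₁ v₁ h h1 h2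
      obtain ⟨u₂, v₂, g, g1, g2⟩ := Red_step hTop F G c d hP u₁ v₁ (N + k) h1 h2 (by
        rw [h]
        omega)
      exact ih u₂ v₂ (g.trans h) g1 g2
  exact main (max (u * F).totalDegree (v * G).totalDegree) u v rfl
    ((le_max_left _ _).trans (Nat.le_add_left _ _)) ((le_max_right _ _).trans (Nat.le_add_left _ _))

end Pool.Agent.NCC
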