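import Pool.Agent.NCC.StS

/-!
# NCC, [Rel]: forms without common nontrivial zero are relatively prime
-/

set_option autoImplicit false

namespace Pool.Agent.NCC

open MvPolynomial Module

/-- A nontrivial zero of the top component of a factor of a form is a zero of the form. -/
private theorem Rel_zero (hTop : St_Top) (c : ℕ) (F h F' : CP) (hF : F.IsHomogeneous c)
    (hh : h ≠ 0) (hm : F = h * F') (v : Fin 2 → ℂ)
    (hv : eval v (homogeneousComponent h.totalDegree h) = 0) : eval v F = 0 := by
  by_cases hF0 : F = 0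
  · rw [hF0, map_zero]
  have hF' : F' ≠ 0 := by
    intro h0
    apply hF0
    rw [hm, h0, mul_zero]
  have hdeg : h.totalDegree + F'.totalDegree = c := by
    rw [← totalDegree_mul_of_isDomain hh hF', ← hm]
    exact hF.totalDegree hF0
  have h1 := hTop h F' h.totalDegree F'.totalDegree le_rfl le_rfl
  rw [hdeg, ← hm, homogeneousComponent_eq_self hF] at h1
  rw [h1, map_mul, hv, zero_mul]

theorem thm_Rel (hTop : St_Top) (hZero : St_Zero) : St_Rel := by
  intro c d F G hF hG hno h hhF hhG
  obtain ⟨F', hF'⟩ := hhF
  obtain ⟨G', hG'⟩ := hhG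
  have hh : h ≠ 0 := by
    intro h0
    have hF0 : F = 0 := by rw [hF', h0, zero_mul]
    have hG0 : G = 0 := by rw [hG', h0, zero_mul]
    have h1 := hno (fun _ => 1) (by rw [hF0, map_zero]) (by rw [hG0, map_zero])
    have h2 := congrFun h1 0
    exact one_ne_zero h2
  rcases Nat.eq_zero_or_pos h.totalDegree with hm | hm
  · rw [totalDegree_eq_zero_iff_eq_C] at hm
    have h1 : coeff 0 h ≠ 0 := by
      intro h0
      apply hh
      rw [hm, h0, map_zero]
    rw [hm]
    exact (IsUnit.mk0 _ h1).map C
  · exfalso
    obtain ⟨v, hv0, hv⟩ := hZero h.totalDegree (homogeneousComponent h.totalDegree h) hm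
      (homogeneousComponent_isHomogeneous _ _)
    exact hv0 (hno v (Rel_zero hTop c F h F' hF hh hF' v hv)
      (Rel_zero hTop d G h G' hG hh hG' v hv))

end Pool.Agent.NCC
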