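import Pool.Agent.NCC.StB

/-!
# NCC / Rt : rotation invariance of regular pairs (helper77)
-/

set_option autoImplicit false

namespace Pool.Agent.NCC

open MvPolynomial

/-- the two linear forms of the rotation by `u + i v` -/
private noncomputable def Rt_L (u v : ℝ) : Fin 2 → RP :=
  ![C u * X 0 - C v * X 1, C v * X 0 + C u * X 1]

/-- the substitution -/
private noncomputable def Rt_s (u v : ℝ) : RP →ₐ[ℝ] RP := aeval (Rt_L u v)

private theorem Rt_hom (u v : ℝ) (i : Fin 2) : (Rt_L u v i).IsHomogeneous 1 := by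
  have h : ∀ (a : ℝ) (j : Fin 2), ((C a : RP) * X j).IsHomogeneous 1 := by
    intro a j
    have h1 := (isHomogeneous_C (Fin 2) a).mul (isHomogeneous_X ℝ j)
    rwa [zero_add] at h1
  fin_cases i
  · exact (h u 0).sub (h v 1)
  · exact (h v 0).add (h u 1)

private theorem Rt_hom' (u v : ℝ) {f : RP} {m : ℕ} (hf : f.IsHomogeneous m) :
    (Rt_s u v f).IsHomogeneous m := by
  have h := hf.aeval (Rt_L u v) (Rt_hom u v)
  rwa [one_mul] at h

private theorem Rt_comp (u v : ℝ) (h : u ^ 2 + v ^ 2 = 1) (f : RP) :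
    Rt_s u (-v) (Rt_s u v f) = f := by
  have hh : (C u : RP) ^ 2 + C v ^ 2 = 1 := by
    rw [← C_pow, ← C_pow, ← C_add, h, C_1]
  have hc : (Rt_s u (-v)).comp (Rt_s u v) = AlgHom.id ℝ RP := by
    apply MvPolynomial.algHom_ext
    intro i
    fin_cases i
    · simp [Rt_s, Rt_L]
      linear_combination (X 0 : RP) * hh
    · simp [Rt_s, Rt_L]
      linear_combination (X 1 : RP) * hh
  have h1 := congrArg (fun φ : RP →ₐ[ℝ] RP => φ f) hc
  simpa using h1

private theorem Rt_comp_hc (u v : ℝ) (m : ℕ) (f : RP) :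
    homogeneousComponent m (Rt_s u v f) = Rt_s u v (homogeneousComponent m f) := by
  conv_lhs => rw [← sum_homogeneousComponent f, map_sum, map_sum]
  have h1 : ∀ i, homogeneousComponent m (Rt_s u v (homogeneousComponent i f)) =
      if m = i then Rt_s u v (homogeneousComponent i f) else 0 := by
    intro i
    exact homogeneousComponent_of_mem
      (Rt_hom' u v (homogeneousComponent_isHomogeneous i f))
  rw [Finset.sum_congr rfl (fun i _ => h1 i), Finset.sum_ite_eq]
  split_ifs with h2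
  · rfl
  · rw [homogeneousComponent_eq_zero, map_zero]
    rw [Finset.mem_range] at h2
    omega

private theorem Rt_deg_le (u v : ℝ) (f : RP) :
    (Rt_s u v f).totalDegree ≤ f.totalDegree := by
  conv_lhs => rw [← sum_homogeneousComponent f, map_sum]
  refine (totalDegree_finsetSum _ _).trans (Finset.sup_le ?_)
  intro i hi
  refine (Rt_hom' u v (homogeneousComponent_isHomogeneous i f)).totalDegree_le.trans ?_
  rw [Finset.mem_range] at hi
  omega

private theorem Rt_deg (u v : ℝ) (h : u ^ 2 + v ^ 2 = 1) (f : RP) :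
    (Rt_s u v f).totalDegree = f.totalDegree := by
  apply le_antisymm (Rt_deg_le u v f)
  have h1 := Rt_deg_le u (-v) (Rt_s u v f)
  rwa [Rt_comp u v h] at h1

private theorem Rt_lead (u v : ℝ) (h : u ^ 2 + v ^ 2 = 1) (f : RP) :
    lead (Rt_s u v f) = Rt_s u v (lead f) := by
  unfold lead
  rw [Rt_deg u v h, Rt_comp_hc]

private theorem Rt_eval (u v : ℝ) (z : ℂ) (f : RP) :
    eval (pt z) (Rt_s u v f) = eval (pt ((⟨u, v⟩ : ℂ) * z)) f := by
  induction f using MvPolynomial.induction_on with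
  | C a => simp [Rt_s]
  | add p q hp hq => rw [map_add, map_add, map_add, hp, hq]
  | mul_X p i hp =>
    rw [map_mul, map_mul, map_mul, hp]
    congr 1
    fin_cases i
    · simp [Rt_s, Rt_L, pt]
    · simp [Rt_s, Rt_L, pt]
      ring

private theorem Rt_aeval (u v : ℝ) (w : Fin 2 → ℂ) (f : RP) :
    aeval w (Rt_s u v f) = aeval ![(u : ℂ) * w 0 - (v : ℂ) * w 1, (v : ℂ) * w 0 + (u : ℂ) * w 1] f := by
  induction f using MvPolynomial.induction_on with
  | C a => simp [Rt_s]
  | add p q hp hq => rw [map_add, map_add, map_add, hp, hq]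
  | mul_X p i hp =>
    rw [map_mul, map_mul, map_mul, hp]
    congr 1
    fin_cases i
    · simp [Rt_s, Rt_L]
    · simp [Rt_s, Rt_L]

private theorem Rt_pd0 (u v : ℝ) (f : RP) :
    pderiv 0 (Rt_s u v f) = C u * Rt_s u v (pderiv 0 f) + C v * Rt_s u v (pderiv 1 f) := by
  induction f using MvPolynomial.induction_on with
  | C a => simp [Rt_s]
  | add p q hp hq =>
    simp only [map_add, hp, hq]
    ring
  | mul_X p i hp =>
    rw [map_mul, Derivation.leibniz, Derivation.leibniz, Derivation.leibniz, hp]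
    fin_cases i
    · simp [Rt_s, Rt_L, pderiv_X]
      ring
    · simp [Rt_s, Rt_L, pderiv_X]
      ring

private theorem Rt_pd1 (u v : ℝ) (f : RP) :
    pderiv 1 (Rt_s u v f) = C u * Rt_s u v (pderiv 1 f) - C v * Rt_s u v (pderiv 0 f) := by
  induction f using MvPolynomial.induction_on with
  | C a => simp [Rt_s]
  | add p q hp hq =>
    simp only [map_add, hp, hq]
    ring
  | mul_X p i hp =>
    rw [map_mul, Derivation.leibniz, Derivation.leibniz, Derivation.leibniz, hp]
    fin_cases i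
    · simp [Rt_s, Rt_L, pderiv_X]
      ring
    · simp [Rt_s, Rt_L, pderiv_X]
      ring

private theorem Rt_jac (u v : ℝ) (h : u ^ 2 + v ^ 2 = 1) (f g : RP) :
    jac (Rt_s u v f) (Rt_s u v g) = Rt_s u v (jac f g) := by
  have hh : (C u : RP) ^ 2 + C v ^ 2 = 1 := by
    rw [← C_pow, ← C_pow, ← C_add, h, C_1]
  unfold jac
  rw [Rt_pd0, Rt_pd1, Rt_pd0, Rt_pd1, map_sub, map_mul, map_mul]
  linear_combination (Rt_s u v (pderiv 0 f) * Rt_s u v (pderiv 1 g) -
    Rt_s u v (pderiv 1 f) * Rt_s u v (pderiv 0 g)) * hh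

/-- [Rt] Rotation invariance of regular pairs. -/
theorem thm_Rt : St_Rt := by
  intro ω f g hω hR
  obtain ⟨u, v⟩ := ω
  have h : u ^ 2 + v ^ 2 = 1 := by
    have h1 : Complex.normSq ⟨u, v⟩ = 1 := by
      rw [Complex.normSq_eq_norm_sq, hω, one_pow]
    rw [Complex.normSq_mk] at h1
    linarith [h1, sq u, sq v]
  have hne : (⟨u, v⟩ : ℂ) ≠ 0 := by
    intro h0
    rw [h0, norm_zero] at hω
    exact zero_ne_one hω
  have hZ : ∀ z : ℂ, Zer (Rt_s u v f) (Rt_s u v g) z ↔ Zer f g ((⟨u, v⟩ : ℂ) * z) := by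
    intro z
    unfold Zer
    rw [Rt_eval, Rt_eval]
  have hJ : ∀ z : ℂ, eval (pt z) (jac (Rt_s u v f) (Rt_s u v g)) =
      eval (pt ((⟨u, v⟩ : ℂ) * z)) (jac f g) := by
    intro z
    rw [Rt_jac u v h, Rt_eval]
  refine ⟨Rt_s u v f, Rt_s u v g, ⟨?_, ?_⟩, Rt_deg u v h f, ?_⟩
  · intro w h1 h2
    rw [Rt_lead u v h, Rt_aeval] at h1 h2
    have h3 := hR.lead _ h1 h2
    have e0 := congrFun h3 0
    have e1 := congrFun h3 1
    simp only [Matrix.cons_val_zero, Matrix.cons_val_one, Pi.zero_apply] at e0 e1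
    have hc : (u : ℂ) ^ 2 + (v : ℂ) ^ 2 = 1 := by exact_mod_cast h
    funext i
    fin_cases i
    · show w 0 = 0
      linear_combination (u : ℂ) * e0 + (v : ℂ) * e1 - w 0 * hc
    · show w 1 = 0
      linear_combination (u : ℂ) * e1 - (v : ℂ) * e0 - w 1 * hc
  · intro z hz
    rw [hJ]
    exact hR.simple _ ((hZ z).1 hz)
  · intro k n a b hL
    obtain ⟨ha, hb, hm, hp⟩ := hL
    refine ⟨?_, ?_, ?_, ?_⟩
    · intro i j hij
      apply ha
      show (⟨u, v⟩ : ℂ) * a i = (⟨u, v⟩ : ℂ) * a j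
      rw [hij]
    · intro i j hij
      apply hb
      show (⟨u, v⟩ : ℂ) * b i = (⟨u, v⟩ : ℂ) * b j
      rw [hij]
    · intro z
      rw [hZ, hJ, ← hm]
      constructor
      · rintro ⟨i, rfl⟩
        exact ⟨i, rfl⟩
      · rintro ⟨i, hi⟩
        exact ⟨i, mul_left_cancel₀ hne hi⟩
    · intro z
      rw [hZ, hJ, ← hp]
      constructor
      · rintro ⟨i, rfl⟩
        exact ⟨i, rfl⟩
      · rintro ⟨i, hi⟩
        exact ⟨i, mul_left_cancel₀ hne hi⟩

end Pool.Agent.NCC
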