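import Pool.Agent.NCC.StC

/-!
# NCC / SD : from signature data to charges (helper77)
-/

set_option autoImplicit false

namespace Pool.Agent.NCC

open Polynomial Filter Topology Set

private theorem SD_cont (F : BP) : Continuous (fun q : ℝ × ℝ => ev F q.1 q.2) := by
  have h : (fun q : ℝ × ℝ => ev F q.1 q.2) = fun q : ℝ × ℝ =>
      ∑ j ∈ Finset.range (F.natDegree + 1), (F.coeff j).eval q.1 * q.2 ^ j := by
    funext q
    unfold ev sl
    rw [eval_map, eval₂_eq_sum_range]
    rfl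
  rw [h]
  refine continuous_finsetSum _ (fun j _ => ?_)
  exact ((F.coeff j).continuous.comp continuous_fst).mul (continuous_snd.pow j)

private theorem SD_root {F : BP} {x : ℝ} (hne : sl F x ≠ 0) (y : ℝ) :
    y ∈ (sl F x).roots ↔ ev F x y = 0 := mem_roots hne

private theorem SD_e {F : BP} {x : ℝ} (hne : sl F x ≠ 0) (y : ℝ) :
    ∃ e : ℝ, 0 < e ∧ ∀ y' : ℝ, y' ≠ y → |y' - y| ≤ e → ev F x y' ≠ 0 := by
  classical
  have hfin : (((sl F x).roots.toFinset.erase y : Finset ℝ) : Set ℝ).Finite :=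
    Finset.finite_toSet _
  have hopen : IsOpen (((sl F x).roots.toFinset.erase y : Finset ℝ) : Set ℝ)ᶜ :=
    hfin.isClosed.isOpen_compl
  have hy : y ∈ (((sl F x).roots.toFinset.erase y : Finset ℝ) : Set ℝ)ᶜ := by
    intro h
    exact Finset.notMem_erase y _ (Finset.mem_coe.1 h)
  obtain ⟨ε, hε, hb⟩ := Metric.isOpen_iff.1 hopen y hy
  refine ⟨ε / 2, by linarith, ?_⟩
  intro y' hne' hle h0
  have h1 : y' ∈ Metric.ball y ε := by
    rw [Metric.mem_ball, Real.dist_eq]
    linarith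
  apply hb h1
  rw [Finset.mem_coe, Finset.mem_erase, Multiset.mem_toFinset]
  exact ⟨hne', (SD_root hne y').2 h0⟩

private theorem SD_tube (F : BP) (x₀ a b : ℝ) (h : ∀ t ∈ Icc a b, ev F x₀ t ≠ 0) :
    ∀ᶠ x in 𝓝 x₀, ∀ t ∈ Icc a b, ev F x t ≠ 0 := by
  refine isCompact_Icc.eventually_forall_of_forall_eventually ?_
  intro t ht
  exact (SD_cont F).continuousAt.eventually_ne (h t ht)

private theorem SD_left {F : BP} {x : ℝ} (hne : sl F x ≠ 0) (y : ℝ) (hy : ev F x y ≠ 0)
    (Y₀ : Finset ℝ) : ∃ a < y, a ∉ Y₀ ∧ ∀ t ∈ Icc a y, ev F x t ≠ 0 := by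
  obtain ⟨e, he0, he⟩ := SD_e hne y
  have hlt : y - e < y := by linarith
  obtain ⟨a, ha, haY⟩ := (Ioo_infinite hlt).exists_notMem_finset Y₀
  refine ⟨a, ha.2, haY, ?_⟩
  intro t ht
  rcases eq_or_ne t y with h | h
  · rw [h]; exact hy
  · apply he t h
    rw [abs_le]
    constructor
    · linarith [ha.1, ht.1]
    · linarith [ht.2]

private theorem SD_right {F : BP} {x : ℝ} (hne : sl F x ≠ 0) (y : ℝ) (hy : ev F x y ≠ 0)
    (Y₀ : Finset ℝ) : ∃ a, y < a ∧ a ∉ Y₀ ∧ ∀ t ∈ Icc y a, ev F x t ≠ 0 := by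
  obtain ⟨e, he0, he⟩ := SD_e hne y
  have hlt : y < y + e := by linarith
  obtain ⟨a, ha, haY⟩ := (Ioo_infinite hlt).exists_notMem_finset Y₀
  refine ⟨a, ha.1, haY, ?_⟩
  intro t ht
  rcases eq_or_ne t y with h | h
  · rw [h]; exact hy
  · apply he t h
    rw [abs_le]
    constructor
    · linarith [ht.1]
    · linarith [ha.2, ht.2]

private theorem SD_pos (c : ℝ) : ∀ᶠ h : ℝ in 𝓝[>] 0, h ≠ c := by
  rcases le_or_gt c 0 with hc | hc
  · filter_upwards [self_mem_nhdsWithin] with h hh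
    have hh' : (0 : ℝ) < h := hh
    exact (lt_of_le_of_lt hc hh').ne'
  · have h1 : ∀ᶠ h : ℝ in 𝓝 0, h < c := Iio_mem_nhds hc
    filter_upwards [h1.filter_mono nhdsWithin_le_nhds] with h hh
    exact hh.ne

private theorem SD_cnt_zero {F : BP} {x : ℝ} (hne : sl F x ≠ 0) {a b : ℝ}
    (h : ∀ t, a < t → t < b → ev F x t ≠ 0) : cnt F x a b = 0 := by
  unfold cnt
  rw [Multiset.card_eq_zero, Multiset.filter_eq_nil]
  intro t ht h1
  exact h t h1.1 h1.2 ((SD_root hne t).1 ht)

private theorem SD_cnt_mult {F : BP} {x : ℝ} (hne : sl F x ≠ 0) {y e : ℝ} (he0 : 0 < e)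
    (he : ∀ y' : ℝ, y' ≠ y → |y' - y| ≤ e → ev F x y' ≠ 0) :
    cnt F x (y - e) (y + e) = (sl F x).rootMultiplicity y := by
  classical
  unfold cnt
  have h1 : (sl F x).roots.filter (fun t => y - e < t ∧ t < y + e) =
      (sl F x).roots.filter (fun t => t = y) := by
    apply Multiset.filter_congr
    intro t ht
    constructor
    · intro h2
      by_contra h3
      refine he t h3 ?_ ((SD_root hne t).1 ht)
      rw [abs_le]
      constructor
      · linarith [h2.1]
      · linarith [h2.2]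
    · intro h2
      rw [h2]
      constructor
      · linarith
      · linarith
  rw [h1, Multiset.filter_eq', Multiset.card_replicate, count_roots]

/-- Telescoping. -/
private theorem SD_tel {F : BP} {x : ℝ} (hne : sl F x ≠ 0) (m : ℝ → ℤ) (e : ℝ → ℝ)
    (he0 : ∀ y, 0 < e y)
    (he : ∀ y y' : ℝ, y' ≠ y → |y' - y| ≤ e y → ev F x y' ≠ 0)
    (hm : ∀ a b : ℝ, (∀ t ∈ uIcc a b, ev F x t ≠ 0) → m a = m b) :
    ∀ (k : ℕ) (y₁ y₂ : ℝ), y₁ < y₂ → ev F x y₁ ≠ 0 → ev F x y₂ ≠ 0 →
      ((sl F x).roots.toFinset.filter (fun y => y₁ < y ∧ y < y₂)).card = k →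
      ∑ y ∈ (sl F x).roots.toFinset.filter (fun y => y₁ < y ∧ y < y₂),
        (m (y - e y) - m (y + e y)) = m y₁ - m y₂ := by
  have hmem : ∀ (a b t : ℝ), t ∈ (sl F x).roots.toFinset.filter (fun y => a < y ∧ y < b) ↔
      ev F x t = 0 ∧ a < t ∧ t < b := by
    intro a b t
    rw [Finset.mem_filter, Multiset.mem_toFinset, SD_root hne]
  intro k
  induction k with
  | zero =>
    intro y₁ y₂ h12 h1 h2 hk
    rw [Finset.card_eq_zero] at hk
    rw [hk, Finset.sum_empty, eq_comm, sub_eq_zero]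
    apply hm
    intro t ht h0
    rw [uIcc_of_le h12.le] at ht
    have ht1 : y₁ < t := lt_of_le_of_ne ht.1 (fun h => h1 (h ▸ h0))
    have ht2 : t < y₂ := lt_of_le_of_ne ht.2 (fun h => h2 (h ▸ h0))
    have h3 := (hmem y₁ y₂ t).2 ⟨h0, ht1, ht2⟩
    rw [hk] at h3
    exact Finset.notMem_empty t h3
  | succ k ih =>
    intro y₁ y₂ h12 h1 h2 hk
    have hT : ((sl F x).roots.toFinset.filter (fun y => y₁ < y ∧ y < y₂)).Nonempty := by
      rw [← Finset.card_pos, hk]
      omega
    obtain ⟨y, hy, hmin⟩ : ∃ y, y ∈ (sl F x).roots.toFinset.filter (fun y => y₁ < y ∧ y < y₂) ∧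
        ∀ t ∈ (sl F x).roots.toFinset.filter (fun y => y₁ < y ∧ y < y₂), y ≤ t :=
      ⟨_, Finset.min'_mem _ hT, fun t ht => Finset.min'_le _ t ht⟩
    obtain ⟨hy0, hy1, hy2⟩ := (hmem y₁ y₂ y).1 hy
    have hey := he0 y
    obtain ⟨y₃, h3a, h3b, h3c⟩ : ∃ y₃, y < y₃ ∧ y₃ < y₂ ∧ y₃ ≤ y + e y := by
      refine ⟨min (y + e y) ((y + y₂) / 2), ?_, ?_, min_le_left _ _⟩
      · exact lt_min (by linarith) (by linarith)
      · exact lt_of_le_of_lt (min_le_right _ _) (by linarith)
    have hgap : ∀ t, y < t → t ≤ y + e y → ev F x t ≠ 0 := by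
      intro t ht1 ht2
      apply he y t ht1.ne'
      rw [abs_le]
      constructor
      · linarith
      · linarith
    have hgap' : ∀ t, t < y → y - e y ≤ t → ev F x t ≠ 0 := by
      intro t ht1 ht2
      apply he y t ht1.ne
      rw [abs_le]
      constructor
      · linarith
      · linarith
    have h3 : ev F x y₃ ≠ 0 := hgap y₃ h3a h3c
    have hins : (sl F x).roots.toFinset.filter (fun y => y₁ < y ∧ y < y₂) =
        insert y ((sl F x).roots.toFinset.filter (fun y => y₃ < y ∧ y < y₂)) := by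
      ext t
      rw [Finset.mem_insert, hmem, hmem]
      constructor
      · rintro ⟨ht0, ht1, ht2⟩
        have h4 := hmin t ((hmem y₁ y₂ t).2 ⟨ht0, ht1, ht2⟩)
        rcases h4.eq_or_lt with h5 | h5
        · exact Or.inl h5.symm
        · right
          refine ⟨ht0, ?_, ht2⟩
          by_contra h6
          exact hgap t h5 (le_trans (not_lt.1 h6) h3c) ht0
      · rintro (rfl | ⟨ht0, ht1, ht2⟩)
        · exact ⟨hy0, hy1, hy2⟩
        · exact ⟨ht0, by linarith, ht2⟩
    have hnot : y ∉ (sl F x).roots.toFinset.filter (fun y => y₃ < y ∧ y < y₂) := by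
      intro h4
      have h5 := ((hmem y₃ y₂ y).1 h4).2.1
      linarith
    have hcard : ((sl F x).roots.toFinset.filter (fun y => y₃ < y ∧ y < y₂)).card = k := by
      rw [hins, Finset.card_insert_of_notMem hnot] at hk
      omega
    have h4 := ih y₃ y₂ h3b h3 h2 hcard
    rw [hins, Finset.sum_insert hnot, h4]
    have h5 : m (y - e y) = m y₁ := by
      apply hm
      intro t ht h0
      rw [mem_uIcc] at ht
      have hlt : t < y := by
        rcases ht with ht | ht
        · linarith [ht.2]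
        · linarith [ht.2]
      rcases le_or_gt (y - e y) t with h6 | h6
      · exact hgap' t hlt h6 h0
      · have h7 : y₁ ≤ t := by
          rcases ht with ht | ht
          · linarith [ht.1]
          · exact ht.1
        rcases h7.eq_or_lt with h8 | h8
        · exact h1 (h8 ▸ h0)
        · have h9 := hmin t ((hmem y₁ y₂ t).2 ⟨h0, h8, by linarith⟩)
          linarith
    have h6 : m (y + e y) = m y₃ := by
      apply hm
      intro t ht
      rw [uIcc_of_ge h3c] at ht
      exact hgap t (by linarith [ht.1]) ht.2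
    rw [h5, h6]
    ring

private theorem SD_bd (S : Finset ℝ) : ∃ B : ℝ, 0 < B ∧ ∀ r ∈ S, |r| < B := by
  refine ⟨1 + ∑ r ∈ S, |r|, ?_, ?_⟩
  · have : 0 ≤ ∑ r ∈ S, |r| := Finset.sum_nonneg (fun r _ => abs_nonneg r)
    linarith
  · intro r hr
    have h1 : |r| ≤ ∑ r ∈ S, |r| :=
      Finset.single_le_sum (f := fun r : ℝ => |r|) (fun r _ => abs_nonneg r) hr
    linarith

/-- [SD] From signature data to charges. -/
theorem thm_SD : St_SD := by
  classical
  intro c F w nn hD
  have hmon : ∀ x, (sl F x).Monic := fun x => hD.monic.map _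
  have hne : ∀ x, sl F x ≠ 0 := fun x => (hmon x).ne_zero
  have hdeg : ∀ x, (sl F x).natDegree = c := by
    intro x
    unfold sl
    rw [hD.monic.natDegree_map, hD.deg]
  choose e he0 he using fun x y => SD_e (hne x) y
  obtain ⟨s, hs1, hs2⟩ : ∃ s : ℝ → ℝ → ℤ,
      (∀ x, (∀ z ∈ w.support, z.re ≠ x) → ∀ y, s x y = nn x (y - e x y) - nn x (y + e x y)) ∧
      (∀ x, ¬ (∀ z ∈ w.support, z.re ≠ x) → ∀ y, s x y = (sl F x).rootMultiplicity y) := by
    refine ⟨fun x y => if (∀ z ∈ w.support, z.re ≠ x) then nn x (y - e x y) - nn x (y + e x y)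
      else (sl F x).rootMultiplicity y, ?_, ?_⟩
    · intro x hx y
      exact if_pos hx
    · intro x hx y
      exact if_neg hx
  -- no root, no jump
  have hm : ∀ x, (∀ z ∈ w.support, z.re ≠ x) → ∀ a b : ℝ, (∀ t ∈ uIcc a b, ev F x t ≠ 0) →
      nn x a = nn x b := by
    intro x hx
    have key : ∀ a b : ℝ, a ≤ b → (∀ t ∈ Icc a b, ev F x t ≠ 0) → nn x a = nn x b := by
      intro a b hab h
      rcases hab.eq_or_lt with h1 | h1
      · rw [h1]
      · have h2 := (hD.jump x hx a b h1 (h a ⟨le_rfl, hab⟩) (h b ⟨hab, le_rfl⟩)).1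
        rw [SD_cnt_zero (hne x) (fun t ht1 ht2 => h t ⟨ht1.le, ht2.le⟩)] at h2
        have h3 : |nn x a - nn x b| = 0 := le_antisymm (by exact_mod_cast h2) (abs_nonneg _)
        exact sub_eq_zero.1 (abs_eq_zero.1 h3)
    intro a b h
    rcases le_total a b with h1 | h1
    · exact key a b h1 (by rwa [uIcc_of_le h1] at h)
    · exact (key b a h1 (by rwa [uIcc_of_ge h1] at h)).symm
  have tel : ∀ x, (∀ z ∈ w.support, z.re ≠ x) → ∀ y₁ y₂ : ℝ, y₁ < y₂ → ev F x y₁ ≠ 0 →
      ev F x y₂ ≠ 0 → chg F s x y₁ y₂ = nn x y₁ - nn x y₂ := by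
    intro x hx y₁ y₂ h12 h1 h2
    unfold chg
    rw [Finset.sum_congr rfl (fun y _ => hs1 x hx y)]
    exact SD_tel (hne x) (nn x) (e x) (he0 x) (he x) (hm x hx) _ y₁ y₂ h12 h1 h2 rfl
  -- the sum over all roots
  have tot : ∀ x, (∀ z ∈ w.support, z.re ≠ x) → (sl F x).Splits → ∃ y₁ y₂ : ℝ, y₁ < y₂ ∧
      ev F x y₁ ≠ 0 ∧ ev F x y₂ ≠ 0 ∧ cnt F x y₁ y₂ = c ∧
      ∑ y ∈ (sl F x).roots.toFinset, s x y = nn x y₁ - nn x y₂ := by
    intro x hx hsp
    obtain ⟨B, hB0, hB⟩ := SD_bd (sl F x).roots.toFinset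
    have hB' : ∀ t, ev F x t = 0 → |t| < B := by
      intro t ht
      exact hB t (Multiset.mem_toFinset.2 ((SD_root (hne x) t).2 ht))
    have hn1 : ev F x (-B) ≠ 0 := by
      intro h
      have h1 := hB' _ h
      rw [abs_neg, abs_of_pos hB0] at h1
      exact lt_irrefl _ h1
    have hn2 : ev F x B ≠ 0 := by
      intro h
      have h1 := hB' _ h
      rw [abs_of_pos hB0] at h1
      exact lt_irrefl _ h1
    refine ⟨-B, B, by linarith, hn1, hn2, ?_, ?_⟩
    · unfold cnt
      rw [Multiset.filter_eq_self.2]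
      · rw [← hdeg x]
        exact hsp.natDegree_eq_card_roots.symm
      · intro t ht
        exact abs_lt.1 (hB' t ((SD_root (hne x) t).1 ht))
    · rw [← tel x hx (-B) B (by linarith) hn1 hn2]
      unfold chg
      rw [Finset.filter_true_of_mem]
      intro t ht
      exact abs_lt.1 (hB t ht)
  refine ⟨s, ⟨hD.monic, hD.deg, hD.td, hD.inj, ?_, ?_, ?_, ?_⟩⟩
  · -- bound
    intro x y
    by_cases hx : ∀ z ∈ w.support, z.re ≠ x
    · rw [hs1 x hx y]
      have h1 := he0 x y
      have h2 : ev F x (y - e x y) ≠ 0 := by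
        apply he x y
        · linarith
        · rw [abs_le]
          constructor
          · linarith
          · linarith
      have h3 : ev F x (y + e x y) ≠ 0 := by
        apply he x y
        · linarith
        · rw [abs_le]
          constructor
          · linarith
          · linarith
      have h4 := hD.jump x hx (y - e x y) (y + e x y) (by linarith) h2 h3
      rw [SD_cnt_mult (hne x) h1 (he x y)] at h4
      exact h4
    · rw [hs2 x hx y]
      constructor
      · rw [abs_of_nonneg (by positivity)]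
      · rw [sub_self]
        rfl
  · -- loc
    intro x₀ y₁ y₂ hx h12 h1 h2
    have a1 : ∀ᶠ x in 𝓝 x₀, nn x y₁ = nn x₀ y₁ := by
      have hc : Continuous (fun x : ℝ => (x, y₁)) := by fun_prop
      exact (hc.tendsto x₀).eventually (hD.loc x₀ y₁ hx h1)
    have a2 : ∀ᶠ x in 𝓝 x₀, nn x y₂ = nn x₀ y₂ := by
      have hc : Continuous (fun x : ℝ => (x, y₂)) := by fun_prop
      exact (hc.tendsto x₀).eventually (hD.loc x₀ y₂ hx h2)
    have b1 : ∀ᶠ x in 𝓝 x₀, ev F x y₁ ≠ 0 := by
      have hc : Continuous (fun x : ℝ => ev F x y₁) :=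
        (SD_cont F).comp (by fun_prop : Continuous (fun x : ℝ => (x, y₁)))
      exact hc.continuousAt.eventually_ne h1
    have b2 : ∀ᶠ x in 𝓝 x₀, ev F x y₂ ≠ 0 := by
      have hc : Continuous (fun x : ℝ => ev F x y₂) :=
        (SD_cont F).comp (by fun_prop : Continuous (fun x : ℝ => (x, y₂)))
      exact hc.continuousAt.eventually_ne h2
    have c1 : ∀ᶠ x in 𝓝 x₀, ∀ z ∈ w.support, z.re ≠ x := by
      rw [Filter.eventually_all_finset]
      intro z hz
      have := (continuous_id.tendsto x₀).eventually_ne (hx z hz).symm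
      filter_upwards [this] with x hx' h
      exact hx' h.symm
    filter_upwards [a1, a2, b1, b2, c1] with x e1 e2 e3 e4 e5
    rw [tel x e5 y₁ y₂ h12 e3 e4, tel x₀ hx y₁ y₂ h12 h1 h2, e1, e2]
  · -- cross
    intro z hz y₁ y₂ h12 h1 h2
    obtain ⟨Y₀, hY⟩ := hD.cross
    obtain ⟨a, ha1, haY, ha⟩ := SD_left (hne z.re) y₁ h1 Y₀
    obtain ⟨b, hb1, hbY, hb⟩ := SD_right (hne z.re) y₂ h2 Y₀
    have hza : ev F z.re a ≠ 0 := ha a ⟨le_rfl, ha1.le⟩
    have hzb : ev F z.re b ≠ 0 := hb b ⟨hb1.le, le_rfl⟩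
    have tp : Tendsto (fun h : ℝ => z.re + h) (𝓝[>] 0) (𝓝 z.re) := by
      have hc : Continuous (fun h : ℝ => z.re + h) := by fun_prop
      have h := hc.tendsto 0
      rw [add_zero] at h
      exact h.mono_left nhdsWithin_le_nhds
    have tm : Tendsto (fun h : ℝ => z.re - h) (𝓝[>] 0) (𝓝 z.re) := by
      have hc : Continuous (fun h : ℝ => z.re - h) := by fun_prop
      have h := hc.tendsto 0
      rw [sub_zero] at h
      exact h.mono_left nhdsWithin_le_nhds
    have gp : ∀ᶠ h : ℝ in 𝓝[>] 0, ∀ z' ∈ w.support, z'.re ≠ z.re + h := by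
      rw [Filter.eventually_all_finset]
      intro z' _
      filter_upwards [SD_pos (z'.re - z.re)] with h hh h0
      exact hh (by linarith)
    have gm : ∀ᶠ h : ℝ in 𝓝[>] 0, ∀ z' ∈ w.support, z'.re ≠ z.re - h := by
      rw [Filter.eventually_all_finset]
      intro z' _
      filter_upwards [SD_pos (z.re - z'.re)] with h hh h0
      exact hh (by linarith)
    have ta := SD_tube F z.re a y₁ ha
    have tb := SD_tube F z.re y₂ b hb
    have key : ∀ x, (∀ z' ∈ w.support, z'.re ≠ x) → (∀ t ∈ Icc a y₁, ev F x t ≠ 0) →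
        (∀ t ∈ Icc y₂ b, ev F x t ≠ 0) → chg F s x y₁ y₂ = nn x a - nn x b := by
      intro x hx h3 h4
      rw [tel x hx y₁ y₂ h12 (h3 y₁ ⟨ha1.le, le_rfl⟩) (h4 y₂ ⟨le_rfl, hb1.le⟩),
        hm x hx a y₁ (by rwa [uIcc_of_le ha1.le]), hm x hx y₂ b (by rwa [uIcc_of_le hb1.le])]
    filter_upwards [gp, gm, tp.eventually ta, tm.eventually ta, tp.eventually tb,
      tm.eventually tb, hY z hz a haY hza, hY z hz b hbY hzb] with h e1 e2 e3 e4 e5 e6 e7 e8
    rw [key _ e1 e3 e5, key _ e2 e4 e6]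
    have h0 := hD.zero z hz
    have e9 : nn (z.re + h) a - nn (z.re + h) b - (nn (z.re - h) a - nn (z.re - h) b) =
        (nn (z.re + h) a - nn (z.re - h) a) - (nn (z.re + h) b - nn (z.re - h) b) := by ring
    rw [e9, e7, e8]
    rcases lt_or_ge z.im a with h5 | h5
    · rw [if_pos h5, if_pos (by linarith), if_neg (fun h6 => by linarith [h6.1])]
      ring
    · have h6 : y₁ < z.im := by
        by_contra h7
        exact ha z.im ⟨h5, not_lt.1 h7⟩ h0
      rw [if_neg (not_lt.2 h5)]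
      rcases lt_or_ge z.im b with h7 | h7
      · have h8 : z.im < y₂ := by
          by_contra h9
          exact hb z.im ⟨not_lt.1 h9, h7.le⟩ h0
        rw [if_pos h7, if_pos ⟨h6, h8⟩]
        ring
      · rw [if_neg (not_lt.2 h7), if_neg (fun h8 => by linarith [h8.2])]
        ring
  · -- far
    obtain ⟨M₁, hM₁⟩ := hD.right
    obtain ⟨M₂, hM₂⟩ := hD.left
    obtain ⟨B, hB0, hB⟩ := SD_bd (w.support.image (fun z : ℂ => z.re))
    have hB' : ∀ z ∈ w.support, |z.re| < B := fun z hz =>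
      hB z.re (Finset.mem_image_of_mem _ hz)
    refine ⟨max (max M₁ (-M₂)) B, ?_⟩
    intro x
    constructor
    · intro hx
      have i1 : M₁ ≤ x := le_trans (le_trans (le_max_left _ _) (le_max_left _ _)) hx
      have i2 : B ≤ x := le_trans (le_max_right _ _) hx
      have hg : ∀ z ∈ w.support, z.re ≠ x := by
        intro z hz h
        have h1 := (abs_lt.1 (hB' z hz)).2
        linarith
      obtain ⟨y₁, y₂, h12, h1, h2, hc, hsum⟩ := tot x hg (hM₁ x i1).1
      rw [hsum, (hM₁ x i1).2 y₁ y₂ h12 h1 h2, hc]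
    · intro hx
      have i1 : x ≤ M₂ := by
        have : -M₂ ≤ max (max M₁ (-M₂)) B := le_trans (le_max_right _ _) (le_max_left _ _)
        linarith
      have i2 : x ≤ -B := by
        have : B ≤ max (max M₁ (-M₂)) B := le_max_right _ _
        linarith
      have hg : ∀ z ∈ w.support, z.re ≠ x := by
        intro z hz h
        have h1 := (abs_lt.1 (hB' z hz)).1
        linarith
      obtain ⟨y₁, y₂, h12, h1, h2, hc, hsum⟩ := tot x hg (hM₂ x i1).1
      rw [hsum, (hM₂ x i1).2 y₁ y₂ h12 h1 h2, hc]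

end Pool.Agent.NCC
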