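import Pool.Agent.NCC.StM

/-!
# NCC, module Schur: inertia of a block matrix
-/

set_option autoImplicit false

namespace Pool.Agent.NCC

open Polynomial Matrix Filter Topology Module
open scoped ComplexConjugate

theorem thm_Schur : St_Ng → St_Schur := by
  intro hN p q _ _ _ _ D M R hD hR hdet
  have hu : IsUnit D.det := isUnit_iff_ne_zero.2 hdet
  have hDD : D * D⁻¹ = 1 := mul_nonsing_inv D hu
  have hDD' : D⁻¹ * D = 1 := nonsing_inv_mul D hu
  have hDi : (D⁻¹)ᴴ = D⁻¹ := by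
    rw [conjTranspose_nonsing_inv, hD.eq]
  let T : Matrix (p ⊕ q) (p ⊕ q) ℂ := fromBlocks 1 (-(D⁻¹ * M)) 0 1
  have hT : T.det ≠ 0 := by
    show (fromBlocks 1 (-(D⁻¹ * M)) 0 1 : Matrix (p ⊕ q) (p ⊕ q) ℂ).det ≠ 0
    rw [det_fromBlocks_zero₂₁, det_one, det_one, mul_one]
    exact one_ne_zero
  have hH : (fromBlocks D M Mᴴ R).IsHermitian := by
    rw [IsHermitian, fromBlocks_conjTranspose, conjTranspose_conjTranspose, hD.eq, hR.eq]
  have h1 := hN.2.1 (p ⊕ q) (fromBlocks D M Mᴴ R) T hH hT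
  have h2 : Tᴴ * fromBlocks D M Mᴴ R * T = fromBlocks D 0 0 (R - Mᴴ * D⁻¹ * M) := by
    show (fromBlocks 1 (-(D⁻¹ * M)) 0 1 : Matrix (p ⊕ q) (p ⊕ q) ℂ)ᴴ * fromBlocks D M Mᴴ R *
      fromBlocks 1 (-(D⁻¹ * M)) 0 1 = _
    rw [fromBlocks_conjTranspose, fromBlocks_multiply, fromBlocks_multiply]
    simp only [conjTranspose_one, conjTranspose_zero, conjTranspose_neg, conjTranspose_mul, hDi,
      Matrix.one_mul, Matrix.zero_mul, Matrix.mul_one, Matrix.mul_zero, Matrix.neg_mul,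
      Matrix.mul_neg, add_zero]
    have e1 : D * (D⁻¹ * M) = M := by rw [← Matrix.mul_assoc, hDD, Matrix.one_mul]
    have e2 : Mᴴ * D⁻¹ * D = Mᴴ := by rw [Matrix.mul_assoc, hDD', Matrix.mul_one]
    rw [e1, e2]
    simp only [neg_add_cancel, Matrix.zero_mul, neg_zero, zero_add]
    rw [Matrix.mul_assoc]
    abel_nf
  rw [← h1, h2]
  unfold ng
  rw [charpoly_fromBlocks_zero₂₁, Polynomial.roots_mul
    (mul_ne_zero (charpoly_monic _).ne_zero (charpoly_monic _).ne_zero), Multiset.filter_add,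
    Multiset.card_add]

end Pool.Agent.NCC
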