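import Pool.Agent.NCC.StM

/-!
# NCC, part M: semicontinuity of the inertia
-/

set_option autoImplicit false

namespace Pool.Agent.NCC

open Matrix Filter Topology Module
open scoped ComplexConjugate

/-- the quadratic form -/
private noncomputable def Semi_q {m : Type} [Fintype m] (A : Matrix m m ℂ) (v : m → ℂ) : ℝ :=
  (star v ⬝ᵥ (A *ᵥ v)).re

/-- coordinates with respect to the eigenvectors, for the indices with `p` -/
private noncomputable def Semi_phi {m : Type} [Fintype m] (U : Matrix m m ℂ) (p : m → Prop) :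
    (m → ℂ) →ₗ[ℂ] ({i // p i} → ℂ) :=
  (LinearMap.funLeft ℂ ℂ (Subtype.val : {i // p i} → m)) ∘ₗ (Uᴴ).mulVecLin

private theorem Semi_phi_apply {m : Type} [Fintype m] (U : Matrix m m ℂ) (p : m → Prop)
    (v : m → ℂ) (i : {i // p i}) : Semi_phi U p v i = (Uᴴ *ᵥ v) i := rfl

private theorem Semi_spec {m : Type} [Fintype m] [DecidableEq m] {A : Matrix m m ℂ}
    (hA : A.IsHermitian) (v : m → ℂ) :
    Semi_q A v = ∑ i, hA.eigenvalues i *
      Complex.normSq (((hA.eigenvectorUnitary : Matrix m m ℂ)ᴴ *ᵥ v) i) := by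
  have h1 : A = (hA.eigenvectorUnitary : Matrix m m ℂ) *
      diagonal (RCLike.ofReal ∘ hA.eigenvalues) * (hA.eigenvectorUnitary : Matrix m m ℂ)ᴴ := by
    have h2 := hA.spectral_theorem
    rw [Unitary.conjStarAlgAut_apply] at h2
    exact h2
  generalize (hA.eigenvectorUnitary : Matrix m m ℂ) = U at h1 ⊢
  have h3 : A *ᵥ v = U *ᵥ (diagonal (RCLike.ofReal ∘ hA.eigenvalues) *ᵥ (Uᴴ *ᵥ v)) := by
    conv_lhs => rw [h1]
    rw [mulVec_mulVec, mulVec_mulVec]
  unfold Semi_q
  rw [h3, dotProduct_mulVec]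
  have h4 : star v ᵥ* U = star (Uᴴ *ᵥ v) := by
    rw [star_mulVec, conjTranspose_conjTranspose]
  rw [h4]
  generalize Uᴴ *ᵥ v = w
  simp only [dotProduct, mulVec_diagonal, Pi.star_apply, Function.comp_apply, Complex.re_sum]
  refine Finset.sum_congr rfl fun i _ => ?_
  have h5 : star (w i) * (((RCLike.ofReal (hA.eigenvalues i) : ℂ)) * w i) =
      ((hA.eigenvalues i * Complex.normSq (w i) : ℝ) : ℂ) := by
    rw [Complex.ofReal_mul, Complex.normSq_eq_conj_mul_self]
    change (starRingEnd ℂ) (w i) * (((hA.eigenvalues i : ℝ) : ℂ) * w i) = _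
    ring
  rw [h5, Complex.ofReal_re]

private theorem Semi_inj {m : Type} [Fintype m] [DecidableEq m] {A : Matrix m m ℂ}
    (hA : A.IsHermitian) {v : m → ℂ} (hv : v ≠ 0) :
    (hA.eigenvectorUnitary : Matrix m m ℂ)ᴴ *ᵥ v ≠ 0 := by
  intro h
  apply hv
  have h1 : (hA.eigenvectorUnitary : Matrix m m ℂ) * (hA.eigenvectorUnitary : Matrix m m ℂ)ᴴ = 1 :=
    Unitary.coe_mul_star_self hA.eigenvectorUnitary
  have h2 : (hA.eigenvectorUnitary : Matrix m m ℂ) *ᵥ
      ((hA.eigenvectorUnitary : Matrix m m ℂ)ᴴ *ᵥ v) = v := by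
    rw [mulVec_mulVec, h1, one_mulVec]
  rw [← h2, h, mulVec_zero]

/-- upper bound -/
private theorem Semi_up {m : Type} [Fintype m] [DecidableEq m] {A : Matrix m m ℂ}
    (U : Matrix m m ℂ) (p : m → Prop) [DecidablePred p] (V : Submodule ℂ (m → ℂ))
    (hV : ∀ v ∈ V, v ≠ 0 → (∀ i, p i → (Uᴴ *ᵥ v) i = 0) → False) :
    finrank ℂ V ≤ (Finset.univ.filter p).card := by
  classical
  have h1 : Function.Injective ((Semi_phi U p).domRestrict V) := by
    rw [← LinearMap.ker_eq_bot, LinearMap.ker_eq_bot']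
    intro v hv
    by_contra hne
    refine hV v v.2 (fun h => hne (Subtype.ext h)) fun i hi => ?_
    have h2 := congrFun hv ⟨i, hi⟩
    rw [LinearMap.domRestrict_apply, Semi_phi_apply] at h2
    exact h2
  have h3 := LinearMap.finrank_le_finrank_of_injective h1
  rw [Module.finrank_fintype_fun_eq_card, Fintype.card_subtype] at h3
  exact h3

/-- lower bound -/
private theorem Semi_low {m : Type} [Fintype m] [DecidableEq m]
    (U : Matrix m m ℂ) (p : m → Prop) [DecidablePred p] :
    (Finset.univ.filter p).card ≤ finrank ℂ (LinearMap.ker (Semi_phi U (fun i => ¬ p i))) := by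
  classical
  have h1 := LinearMap.finrank_range_add_finrank_ker (Semi_phi U (fun i => ¬ p i))
  have h2 := Submodule.finrank_le (LinearMap.range (Semi_phi U (fun i => ¬ p i)))
  rw [Module.finrank_fintype_fun_eq_card, Fintype.card_subtype] at h2
  rw [Module.finrank_fintype_fun_eq_card] at h1
  have h3 := Finset.card_filter_add_card_filter_not (s := (Finset.univ : Finset m)) p
  rw [Finset.card_univ] at h3
  omega

/-- the form stays positive -/
private theorem Semi_cont {X : Type} [TopologicalSpace X] {m : Type} [Fintype m] [DecidableEq m]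
    (N : X → Matrix m m ℂ) (x₀ : X) (hN : ContinuousAt N x₀) (V : Submodule ℂ (m → ℂ)) (s : ℝ)
    (hV : ∀ v ∈ V, v ≠ 0 → 0 < s * Semi_q (N x₀) v) :
    ∀ᶠ x in 𝓝 x₀, ∀ v ∈ V, v ≠ 0 → 0 < s * Semi_q (N x) v := by
  have hK : IsCompact ((V : Set (m → ℂ)) ∩ Metric.sphere 0 1) :=
    (isCompact_sphere 0 1).inter_left (Submodule.closed_of_finiteDimensional V)
  have h1 : ∀ᶠ x in 𝓝 x₀, ∀ v ∈ ((V : Set (m → ℂ)) ∩ Metric.sphere 0 1),
      0 < s * Semi_q (N x) v := by
    apply hK.eventually_forall_of_forall_eventually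
    intro v hv
    have hv0 : v ≠ 0 := by
      intro h
      have := hv.2
      rw [h] at this
      simp at this
    have h2 : ContinuousAt (fun z : X × (m → ℂ) => s * Semi_q (N z.1) z.2) (x₀, v) := by
      have h3 : ContinuousAt (fun z : X × (m → ℂ) => N z.1) (x₀, v) :=
        ContinuousAt.comp (f := Prod.fst) (g := N) hN continuousAt_fst
      unfold Semi_q
      simp only [dotProduct, mulVec, Complex.re_sum]
      refine continuousAt_const.mul ?_
      refine tendsto_finset_sum _ fun i _ => ?_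
      refine Complex.continuous_re.continuousAt.comp_of_eq
        (f := fun z : X × (m → ℂ) => star z.2 i * ∑ j, N z.1 i j * z.2 j) ?_ rfl
      refine ContinuousAt.mul ?_ ?_
      · have : Continuous (fun z : X × (m → ℂ) => star z.2 i) := by fun_prop
        exact this.continuousAt
      · refine tendsto_finset_sum _ fun j _ => ?_
        refine ContinuousAt.mul ?_ ?_
        · have h4 := (continuous_apply_apply (ρ := fun (_ _ : m) => ℂ) i j).continuousAt (x := N x₀)
          exact ContinuousAt.comp (g := fun M : m → m → ℂ => M i j) (f := fun z : X × (m → ℂ) => N z.1)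
            h4 h3
        · have : Continuous (fun z : X × (m → ℂ) => z.2 j) := by fun_prop
          exact this.continuousAt
    exact h2.eventually (lt_mem_nhds (hV v hv.1 hv0))
  filter_upwards [h1] with x hx v hv hv0
  have hn : (0 : ℝ) < ‖v‖ := norm_pos_iff.2 hv0
  have h5 := hx (((‖v‖⁻¹ : ℝ) : ℂ) • v) ⟨V.smul_mem _ hv, by
    rw [mem_sphere_zero_iff_norm, norm_smul, Complex.norm_real, norm_inv, norm_norm,
      inv_mul_cancel₀ hn.ne']⟩
  have h6 : Semi_q (N x) (((‖v‖⁻¹ : ℝ) : ℂ) • v) = ‖v‖⁻¹ ^ 2 * Semi_q (N x) v := by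
    unfold Semi_q
    rw [mulVec_smul, dotProduct_smul, star_smul, smul_dotProduct]
    simp only [smul_eq_mul, Complex.star_def, Complex.conj_ofReal]
    rw [← mul_assoc, ← Complex.ofReal_mul, Complex.re_ofReal_mul]
    ring
  rw [h6] at h5
  have h7 : s * (‖v‖⁻¹ ^ 2 * Semi_q (N x) v) = ‖v‖⁻¹ ^ 2 * (s * Semi_q (N x) v) := by ring
  rw [h7] at h5
  exact (mul_pos_iff_of_pos_left (by positivity)).1 h5

/-- [Semi] semicontinuity of the inertia -/
theorem thm_Semi : St_Ng → St_Semi := by
  intro hNg X _ m _ _ N x₀ hN hH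
  classical
  have hA := hH x₀
  have h1 : ∀ v ∈ LinearMap.ker (Semi_phi (hA.eigenvectorUnitary : Matrix m m ℂ)
      (fun i => ¬ hA.eigenvalues i < 0)), v ≠ 0 → 0 < (-1 : ℝ) * Semi_q (N x₀) v := by
    intro v hv hv0
    have h2 : ∀ i, ¬ hA.eigenvalues i < 0 →
        ((hA.eigenvectorUnitary : Matrix m m ℂ)ᴴ *ᵥ v) i = 0 := by
      intro i hi
      have h3 := congrFun (LinearMap.mem_ker.1 hv) ⟨i, hi⟩
      rw [Semi_phi_apply] at h3
      exact h3
    rw [Semi_spec hA]
    have h4 := Semi_inj hA hv0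
    generalize (hA.eigenvectorUnitary : Matrix m m ℂ)ᴴ *ᵥ v = w at h2 h4
    obtain ⟨i, hi⟩ := Function.ne_iff.1 h4
    have h5 : ∑ i, hA.eigenvalues i * Complex.normSq (w i) < 0 := by
      apply Finset.sum_neg' (s := Finset.univ)
      · intro j _
        by_cases hj : hA.eigenvalues j < 0
        · exact mul_nonpos_of_nonpos_of_nonneg hj.le (Complex.normSq_nonneg _)
        · rw [h2 j hj, Complex.normSq_zero, mul_zero]
      · refine ⟨i, Finset.mem_univ _, ?_⟩
        have hi' : hA.eigenvalues i < 0 := by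
          by_contra h
          exact hi (h2 i h)
        exact mul_neg_of_neg_of_pos hi' (Complex.normSq_pos.2 hi)
    linarith
  have h1' : ∀ v ∈ LinearMap.ker (Semi_phi (hA.eigenvectorUnitary : Matrix m m ℂ)
      (fun i => ¬ 0 < hA.eigenvalues i)), v ≠ 0 → 0 < (1 : ℝ) * Semi_q (N x₀) v := by
    intro v hv hv0
    have h2 : ∀ i, ¬ 0 < hA.eigenvalues i →
        ((hA.eigenvectorUnitary : Matrix m m ℂ)ᴴ *ᵥ v) i = 0 := by
      intro i hi
      have h3 := congrFun (LinearMap.mem_ker.1 hv) ⟨i, hi⟩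
      rw [Semi_phi_apply] at h3
      exact h3
    rw [Semi_spec hA]
    have h4 := Semi_inj hA hv0
    generalize (hA.eigenvectorUnitary : Matrix m m ℂ)ᴴ *ᵥ v = w at h2 h4
    obtain ⟨i, hi⟩ := Function.ne_iff.1 h4
    have h5 : 0 < ∑ i, hA.eigenvalues i * Complex.normSq (w i) := by
      apply Finset.sum_pos'
      · intro j _
        by_cases hj : 0 < hA.eigenvalues j
        · exact mul_nonneg hj.le (Complex.normSq_nonneg _)
        · rw [h2 j hj, Complex.normSq_zero, mul_zero]
      · refine ⟨i, Finset.mem_univ _, ?_⟩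
        have hi' : 0 < hA.eigenvalues i := by
          by_contra h
          exact hi (h2 i h)
        exact mul_pos hi' (Complex.normSq_pos.2 hi)
    linarith
  filter_upwards [Semi_cont N x₀ hN _ _ h1, Semi_cont N x₀ hN _ _ h1'] with x hx hx'
  have hB := hH x

  have h6 := Semi_low (hA.eigenvectorUnitary : Matrix m m ℂ) (fun i => hA.eigenvalues i < 0)
  have h7 := Semi_up (A := N x) (hB.eigenvectorUnitary : Matrix m m ℂ)
    (fun i => hB.eigenvalues i < 0) (LinearMap.ker (Semi_phi (hA.eigenvectorUnitary : Matrix m m ℂ)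
      (fun i => ¬ hA.eigenvalues i < 0))) (by
    intro v hv hv0 h
    have h8 := hx v hv hv0
    rw [Semi_spec hB] at h8
    have h9 : 0 ≤ ∑ i, hB.eigenvalues i *
        Complex.normSq (((hB.eigenvectorUnitary : Matrix m m ℂ)ᴴ *ᵥ v) i) := by
      refine Finset.sum_nonneg fun i _ => ?_
      by_cases hi : hB.eigenvalues i < 0
      · rw [h i hi, Complex.normSq_zero, mul_zero]
      · exact mul_nonneg (not_lt.1 hi) (Complex.normSq_nonneg _)
    linarith)

  have h6' := Semi_low (hA.eigenvectorUnitary : Matrix m m ℂ) (fun i => 0 < hA.eigenvalues i)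
  have h7' := Semi_up (A := N x) (hB.eigenvectorUnitary : Matrix m m ℂ)
    (fun i => ¬ hB.eigenvalues i < 0) (LinearMap.ker (Semi_phi (hA.eigenvectorUnitary : Matrix m m ℂ)
      (fun i => ¬ 0 < hA.eigenvalues i))) (by
    intro v hv hv0 h
    have h8 := hx' v hv hv0
    rw [Semi_spec hB] at h8
    have h9 : ∑ i, hB.eigenvalues i *
        Complex.normSq (((hB.eigenvectorUnitary : Matrix m m ℂ)ᴴ *ᵥ v) i) ≤ 0 := by
      refine Finset.sum_nonpos fun i _ => ?_
      by_cases hi : hB.eigenvalues i < 0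
      · exact mul_nonpos_of_nonpos_of_nonneg hi.le (Complex.normSq_nonneg _)
      · rw [h i hi, Complex.normSq_zero, mul_zero]
    linarith)
  have hng := hNg.1 m (N x₀) hA
  have hng' := hNg.1 m (N x) hB
  have hr := hA.rank_eq_card_non_zero_eigs
  rw [Fintype.card_subtype] at hr
  have hsplit : (Finset.univ.filter (fun i => hA.eigenvalues i ≠ 0)).card =
      (Finset.univ.filter (fun i => hA.eigenvalues i < 0)).card +
        (Finset.univ.filter (fun i => 0 < hA.eigenvalues i)).card := by
    rw [← Finset.card_union_of_disjoint]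
    · congr 1
      ext i
      simp only [Finset.mem_filter, Finset.mem_univ, true_and, Finset.mem_union]
      exact lt_or_lt_iff_ne.symm
    · rw [Finset.disjoint_filter]
      intro i _ h1 h2
      exact absurd h1 (not_lt.2 h2.le)
  have h10 := Finset.card_filter_add_card_filter_not (s := (Finset.univ : Finset m))
    (fun i => hB.eigenvalues i < 0)
  rw [Finset.card_univ] at h10
  constructor
  · rw [hng, hng']
    exact h6.trans h7
  · rw [hng, hng', hr, hsplit]
    omega

end Pool.Agent.NCC
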