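import Pool.Agent.NCC.StA

/-!
# NCC, module SgnSum: the sum of the signs of the derivative at simple roots telescopes
-/

set_option autoImplicit false

namespace Pool.Agent.NCC

open Polynomial Filter Topology Set

/-- no root in `[a, b]`: the signs at the ends agree -/
private theorem SgnSum_base (q : ℝ[X]) (a b : ℝ) (hab : a ≤ b)
    (h : ∀ y, a ≤ y → y ≤ b → q.eval y ≠ 0) :
    SignType.sign (q.eval b) = SignType.sign (q.eval a) := by
  have hc : ContinuousOn (fun y => q.eval y) (Icc a b) := q.continuous.continuousOn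
  rcases lt_trichotomy (q.eval a) 0 with ha | ha | ha
  · rcases lt_trichotomy (q.eval b) 0 with hb | hb | hb
    · rw [sign_neg ha, sign_neg hb]
    · exact absurd hb (h b hab le_rfl)
    · obtain ⟨y, hy, hy0⟩ := intermediate_value_Icc hab hc ⟨ha.le, hb.le⟩
      exact absurd hy0 (h y hy.1 hy.2)
  · exact absurd ha (h a le_rfl hab)
  · rcases lt_trichotomy (q.eval b) 0 with hb | hb | hb
    · obtain ⟨y, hy, hy0⟩ := intermediate_value_Icc' hab hc ⟨hb.le, ha.le⟩
      exact absurd hy0 (h y hy.1 hy.2)
    · exact absurd hb (h b hab le_rfl)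
    · rw [sign_pos ha, sign_pos hb]

/-- local signs at a simple root -/
private theorem SgnSum_loc (q : ℝ[X]) (r : ℝ) (h0 : q.eval r = 0)
    (h1 : (derivative q).eval r ≠ 0) :
    (∀ᶠ y in 𝓝[<] r, SignType.sign (q.eval y) = - SignType.sign ((derivative q).eval r)) ∧
    (∀ᶠ y in 𝓝[>] r, SignType.sign (q.eval y) = SignType.sign ((derivative q).eval r)) := by
  have hd : deriv (fun y => q.eval y) r = (derivative q).eval r := Polynomial.deriv q
  rcases lt_or_gt_of_ne h1 with hn | hp
  · have he := eventually_nhdsWithin_sign_eq_of_deriv_neg (f := fun y => q.eval y) (x₀ := r)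
      (by rw [hd]; exact hn) h0
    refine ⟨?_, ?_⟩
    · filter_upwards [he.filter_mono nhdsWithin_le_nhds, self_mem_nhdsWithin] with y hy hyr
      have hyr' : y < r := hyr
      rw [sign_neg hn]
      have : SignType.sign (q.eval y) = SignType.sign (r - y) := hy
      rw [this, sign_pos (by linarith)]
      rfl
    · filter_upwards [he.filter_mono nhdsWithin_le_nhds, self_mem_nhdsWithin] with y hy hyr
      have hyr' : r < y := hyr
      rw [sign_neg hn]
      have : SignType.sign (q.eval y) = SignType.sign (r - y) := hy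
      rw [this, sign_neg (by linarith)]
  · have he := eventually_nhdsWithin_sign_eq_of_deriv_pos (f := fun y => q.eval y) (x₀ := r)
      (by rw [hd]; exact hp) h0
    refine ⟨?_, ?_⟩
    · filter_upwards [he.filter_mono nhdsWithin_le_nhds, self_mem_nhdsWithin] with y hy hyr
      have hyr' : y < r := hyr
      rw [sign_pos hp]
      have : SignType.sign (q.eval y) = SignType.sign (y - r) := hy
      rw [this, sign_neg (by linarith)]
    · filter_upwards [he.filter_mono nhdsWithin_le_nhds, self_mem_nhdsWithin] with y hy hyr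
      have hyr' : r < y := hyr
      rw [sign_pos hp]
      have : SignType.sign (q.eval y) = SignType.sign (y - r) := hy
      rw [this, sign_pos (by linarith)]

private theorem SgnSum_fin (q : ℝ[X]) (y₁ : ℝ) (h1 : q.eval y₁ ≠ 0) :
    ∀ (n : ℕ) (S : Finset ℝ) (y₂ : ℝ), S.card = n → y₁ < y₂ → q.eval y₂ ≠ 0 →
      (∀ y, y ∈ S ↔ q.eval y = 0 ∧ y₁ < y ∧ y < y₂) →
      (∀ y ∈ S, (derivative q).eval y ≠ 0) →
      2 * ∑ y ∈ S, (SignType.sign ((derivative q).eval y) : ℤ) =
        (SignType.sign (q.eval y₂) : ℤ) - (SignType.sign (q.eval y₁) : ℤ) := by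
  intro n
  induction n with
  | zero =>
    intro S y₂ hS h12 h2 hr _
    have hS0 : S = ∅ := Finset.card_eq_zero.1 hS
    subst hS0
    have := SgnSum_base q y₁ y₂ h12.le (by
      intro y hy hy' h0
      rcases hy.lt_or_eq with hlt | heq
      · rcases hy'.lt_or_eq with hlt' | heq'
        · exact absurd ((hr y).2 ⟨h0, hlt, hlt'⟩) (Finset.notMem_empty y)
        · exact h2 (heq' ▸ h0)
      · exact h1 (heq ▸ h0))
    rw [this]
    simp
  | succ n ih =>
    intro S y₂ hS h12 h2 hr hd
    have hne : S.Nonempty := by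
      rw [← Finset.card_pos, hS]; exact Nat.succ_pos n
    set r : ℝ := S.max' hne with hrdef
    have hrS : r ∈ S := S.max'_mem hne
    have hrr := (hr r).1 hrS
    have hle : ∀ y ∈ S, y ≤ r := fun y hy => S.le_max' y hy
    have hloc := SgnSum_loc q r hrr.1 (hd r hrS)
    -- the point on the left
    have hev : ∀ᶠ y in 𝓝[<] r, ∀ z ∈ S.erase r, z < y := by
      rw [Filter.eventually_all_finset]
      intro z hz
      have hzr : z < r := lt_of_le_of_ne (hle z (Finset.mem_of_mem_erase hz)) (Finset.ne_of_mem_erase hz)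
      exact (eventually_gt_nhds hzr).filter_mono nhdsWithin_le_nhds
    obtain ⟨c, ⟨⟨hc1, hc2⟩, hc3⟩, hc4⟩ := (((hloc.1.and hev).and
      ((eventually_gt_nhds hrr.2.1).filter_mono nhdsWithin_le_nhds)).and
        (self_mem_nhdsWithin : Iio r ∈ 𝓝[<] r)).exists
    have hc4' : c < r := hc4
    obtain ⟨d, ⟨hd1, hd2⟩, hd3⟩ := ((hloc.2.and
      ((eventually_lt_nhds hrr.2.2).filter_mono nhdsWithin_le_nhds)).and
        (self_mem_nhdsWithin : Ioi r ∈ 𝓝[>] r)).exists
    have hd3' : r < d := hd3
    have hs0 : SignType.sign ((derivative q).eval r) ≠ 0 := by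
      rw [Ne, sign_eq_zero_iff]; exact hd r hrS
    have hqc : q.eval c ≠ 0 := by
      intro h0
      rw [h0, sign_zero] at hc1
      exact hs0 (by
        have := hc1.symm
        revert this
        generalize SignType.sign ((derivative q).eval r) = s
        decide +revert)
    have hqd : q.eval d ≠ 0 := by
      intro h0
      rw [h0, sign_zero] at hd1
      exact hs0 hd1.symm
    have hI := ih (S.erase r) c (by rw [Finset.card_erase_of_mem hrS, hS]; rfl) hc3 hqc
      (by
        intro y
        constructor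
        · intro hy
          have := (hr y).1 (Finset.mem_of_mem_erase hy)
          exact ⟨this.1, this.2.1, hc2 y hy⟩
        · rintro ⟨ha, hb, hc⟩
          refine Finset.mem_erase.2 ⟨(hc.trans hc4').ne, (hr y).2 ⟨ha, hb, ?_⟩⟩
          exact hc.trans (hc4'.trans hrr.2.2))
      (fun y hy => hd y (Finset.mem_of_mem_erase hy))
    have hB := SgnSum_base q d y₂ hd2.le (by
      intro y hy hy' h0
      rcases hy'.lt_or_eq with hlt' | heq'
      · have := hle y ((hr y).2 ⟨h0, by linarith [hrr.2.1], hlt'⟩)
        linarith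
      · exact h2 (heq' ▸ h0))
    rw [← Finset.add_sum_erase S _ hrS, mul_add, hI, hc1, hB, hd1]
    have hneg : ((- SignType.sign ((derivative q).eval r) : SignType) : ℤ) =
        - ((SignType.sign ((derivative q).eval r) : SignType) : ℤ) := by
      generalize SignType.sign ((derivative q).eval r) = s
      cases s <;> rfl
    rw [hneg]
    ring

theorem thm_SgnSum : St_SgnSum := by
  intro q y₁ y₂ m r h12 h1 h2 hinj hr hd
  have h := SgnSum_fin q y₁ h1 _ (Finset.univ.image r) y₂ rfl h12 h2
    (by
      intro y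
      rw [hr y]
      simp)
    (by
      intro y hy
      obtain ⟨i, _, rfl⟩ := Finset.mem_image.1 hy
      exact hd i)
  rw [← h, Finset.sum_image (fun i _ j _ hij => hinj hij)]

end Pool.Agent.NCC
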