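import Pool.Agent.NCC.StA

/-!
# NCC, [Sh]: shifting the factors apart
-/

set_option autoImplicit false

namespace Pool.Agent.NCC

open Polynomial Filter Topology Set

/-! ### specializations -/

private lemma Sh_sl_prod {N : ℕ} (G : Fin N → BP) (x : ℝ) :
    sl (∏ r, G r) x = ∏ r, sl (G r) x := by
  simp [sl, Polynomial.map_prod]

private lemma Sh_sl_taylor (F : BP) (s x : ℝ) : sl (taylor (C s) F) x = taylor s (sl F x) := by
  simp [sl]

private lemma Sh_sl_der (F : BP) (x : ℝ) : sl (derivative F) x = derivative (sl F x) := by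
  simp [sl, derivative_map]

private lemma Sh_sl_monic {F : BP} (hF : F.Monic) (x : ℝ) : (sl F x).Monic := hF.map _

private lemma Sh_ev_cont (F : BP) : Continuous fun p : ℝ × ℝ => ev F p.1 p.2 := by
  have h : (fun p : ℝ × ℝ => ev F p.1 p.2) =
      fun p => ∑ n ∈ F.support, (F.coeff n).eval p.1 * p.2 ^ n := by
    funext p
    rw [ev, sl, eval_map, eval₂_eq_sum, Polynomial.sum]
    simp
  rw [h]
  fun_prop

private lemma Sh_bdd (F : BP) (hF : F.Monic) (K : Set ℝ) (hK : IsCompact K) :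
    ∃ R : ℝ, ∀ x ∈ K, ∀ y, ev F x y = 0 → |y| ≤ R := by
  have hc : ContinuousOn
      (fun x : ℝ => ∑ i ∈ Finset.range F.natDegree, ‖(F.coeff i).eval x‖) K := by
    fun_prop
  obtain ⟨B, hB⟩ := hK.exists_bound_of_continuousOn hc
  refine ⟨B + 1, fun x hx y hy => ?_⟩
  have hm : (sl F x).Monic := hF.map _
  have hd : (sl F x).natDegree = F.natDegree := hF.natDegree_map _
  have hlt : ‖y‖₊ < cauchyBound (sl F x) := IsRoot.norm_lt_cauchyBound hm.ne_zero hy
  have h2 : cauchyBound (sl F x) ≤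
      (∑ i ∈ Finset.range F.natDegree, ‖(sl F x).coeff i‖₊) + 1 := by
    rw [cauchyBound, hm.leadingCoeff, hd]
    simp only [nnnorm_one, div_one]
    gcongr
    exact Finset.sup_le fun i hi =>
      Finset.single_le_sum (f := fun i => ‖(sl F x).coeff i‖₊) (fun _ _ => zero_le) hi
  have h3 := hB x hx
  have h4 : (‖y‖₊ : ℝ) ≤ ((∑ i ∈ Finset.range F.natDegree, ‖(sl F x).coeff i‖₊) + 1 : NNReal) :=
    NNReal.coe_le_coe.2 (hlt.le.trans h2)
  rw [Real.norm_eq_abs] at h3
  have h5 := le_trans (le_abs_self _) h3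
  have h6 : ∀ i, (sl F x).coeff i = (F.coeff i).eval x := fun i => by simp [sl]
  simp only [h6] at h4
  push_cast at h4
  rw [← Real.norm_eq_abs]
  linarith

/-! ### gaps between roots -/

private lemma Sh_gap (A B : BP) (hA : A.Monic) (K : Set ℝ) (hK : IsCompact K)
    (h : ∀ x ∈ K, ∀ y, ev A x y = 0 → ev B x y ≠ 0) :
    ∃ κ : ℝ, 0 < κ ∧ ∀ x ∈ K, ∀ φ ξ, ev A x φ = 0 → ev B x ξ = 0 → κ ≤ |φ - ξ| := by
  obtain ⟨R, hR⟩ := Sh_bdd A hA K hK
  have hT : IsCompact ((K ×ˢ (Icc (-R) R ×ˢ Icc (-R - 1) (R + 1))) ∩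
      {q : ℝ × ℝ × ℝ | ev A q.1 q.2.1 = 0 ∧ ev B q.1 q.2.2 = 0}) := by
    refine (hK.prod (isCompact_Icc.prod isCompact_Icc)).inter_right ?_
    have c1 : Continuous fun q : ℝ × ℝ × ℝ => ev A q.1 q.2.1 :=
      (Sh_ev_cont A).comp (continuous_fst.prodMk (continuous_fst.comp continuous_snd))
    have c2 : Continuous fun q : ℝ × ℝ × ℝ => ev B q.1 q.2.2 :=
      (Sh_ev_cont B).comp (continuous_fst.prodMk (continuous_snd.comp continuous_snd))
    exact (isClosed_eq c1 continuous_const).inter (isClosed_eq c2 continuous_const)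
  obtain ⟨a, ha, hb⟩ := hT.exists_forall_le' (f := fun q : ℝ × ℝ × ℝ => |q.2.1 - q.2.2|)
    (by fun_prop) (a := 0) (by
      rintro ⟨x, φ, ξ⟩ ⟨⟨hx, _⟩, h1, h2⟩
      refine abs_pos.mpr (sub_ne_zero.mpr ?_)
      intro he
      simp only at he
      subst he
      exact h x hx _ h1 h2)
  refine ⟨min a 1, lt_min ha one_pos, fun x hx φ ξ h1 h2 => ?_⟩
  by_contra hlt
  rw [not_le, lt_min_iff] at hlt
  have h3 := abs_le.mp (hR x hx φ h1)
  have h4 := abs_lt.mp hlt.2
  have h5 := hb (x, φ, ξ) ⟨⟨hx, ⟨⟨h3.1, h3.2⟩, ⟨by simp only; linarith, by simp only; linarith⟩⟩⟩, h1, h2⟩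
  exact absurd h5 (not_le.mpr hlt.1)

private lemma Sh_rolle (p : ℝ[X]) (a b : ℝ) (hab : a ≠ b) (ha : p.eval a = 0) (hb : p.eval b = 0) :
    ∃ c, (derivative p).eval c = 0 ∧ |a - c| ≤ |a - b| := by
  have key : ∀ u v : ℝ, u < v → p.eval u = 0 → p.eval v = 0 →
      ∃ c ∈ Ioo u v, (derivative p).eval c = 0 := by
    intro u v huv hu hv
    exact exists_hasDerivAt_eq_zero huv p.continuous.continuousOn (hu.trans hv.symm)
      (fun x _ => p.hasDerivAt x)
  rcases lt_or_gt_of_ne hab with hlt | hlt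
  · obtain ⟨c, hc, h0⟩ := key a b hlt ha hb
    refine ⟨c, h0, ?_⟩
    rw [abs_of_neg (by linarith [hc.1]), abs_of_neg (by linarith)]
    linarith [hc.2]
  · obtain ⟨c, hc, h0⟩ := key b a hlt hb ha
    refine ⟨c, h0, ?_⟩
    rw [abs_of_pos (by linarith [hc.2]), abs_of_pos (by linarith)]
    linarith [hc.1]

private lemma Sh_min {ι : Type} [Fintype ι] (k : ι → ℝ) (hk : ∀ i, 0 < k i) :
    ∃ κ : ℝ, 0 < κ ∧ ∀ i, κ ≤ k i := by
  have hs : ∀ i, (k i)⁻¹ ≤ 1 + ∑ i, (k i)⁻¹ := by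
    intro i
    have := Finset.single_le_sum (f := fun i => (k i)⁻¹) (fun j _ => (inv_pos.mpr (hk j)).le)
      (Finset.mem_univ i)
    linarith
  have hp : 0 < 1 + ∑ i, (k i)⁻¹ := by
    have : 0 ≤ ∑ i, (k i)⁻¹ := Finset.sum_nonneg fun j _ => (inv_pos.mpr (hk j)).le
    linarith
  exact ⟨(1 + ∑ i, (k i)⁻¹)⁻¹, inv_pos.mpr hp, fun i => inv_le_of_inv_le₀ (hk i) (hs i)⟩

private lemma Sh_gapG {N : ℕ} (G : Fin N → BP) (hG : ∀ r, (G r).Monic) (K : Set ℝ)
    (hK : IsCompact K) (h : ∀ x ∈ K, Gd G x) :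
    ∃ κ : ℝ, 0 < κ ∧ ∀ x ∈ K, ∀ r r' φ φ', ev (G r) x φ = 0 → ev (G r') x φ' = 0 → φ ≠ φ' →
      κ ≤ |φ - φ'| := by
  have key : ∀ p : Fin N × Fin N, ∃ κ : ℝ, 0 < κ ∧ ∀ x ∈ K, ∀ φ φ', ev (G p.1) x φ = 0 →
      ev (G p.2) x φ' = 0 → φ ≠ φ' → κ ≤ |φ - φ'| := by
    rintro ⟨r, r'⟩
    by_cases he : G r = G r'
    · obtain ⟨κ, h0, h1⟩ := Sh_gap (G r) (derivative (G r)) (hG r) K hK
        (fun x hx y hy => (h x hx).1 r y hy)
      refine ⟨κ, h0, fun x hx φ φ' h2 h3 hne => ?_⟩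
      simp only at h2 h3
      rw [← he] at h3
      obtain ⟨c, hc, hcl⟩ := Sh_rolle (sl (G r) x) φ φ' hne h2 h3
      refine (h1 x hx φ c h2 ?_).trans hcl
      rw [ev, Sh_sl_der]
      exact hc
    · obtain ⟨κ, h0, h1⟩ := Sh_gap (G r) (G r') (hG r) K hK
        (fun x hx y hy => (h x hx).2 r r' he y hy)
      exact ⟨κ, h0, fun x hx φ φ' h2 h3 _ => h1 x hx φ φ' h2 h3⟩
  choose k hk0 hk using key
  obtain ⟨κ, h0, h1⟩ := Sh_min k hk0
  exact ⟨κ, h0, fun x hx r r' φ φ' h2 h3 h4 =>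
    (h1 (r, r')).trans (hk (r, r') x hx φ φ' h2 h3 h4)⟩

/-! ### total degree and leading form -/

/-- substitution `x = u`, `y = s u + t` -/
private noncomputable def Sh_Psi (t : ℝ) : BP →+* BP :=
  eval₂RingHom (mapRingHom (C : ℝ →+* ℝ[X])) (C X * X + C (C t))

private lemma Sh_Psi_eq (t : ℝ) (F : BP) :
    Sh_Psi t F = ∑ j ∈ F.support, (F.coeff j).map C * (C X * X + C (C t)) ^ j := by
  rw [Sh_Psi, coe_eval₂RingHom, eval₂_eq_sum, Polynomial.sum]
  simp

private lemma Sh_lin_natDegree (t : ℝ) : (C X * X + C (C t) : BP).natDegree ≤ 1 := by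
  compute_degree

private lemma Sh_lin_coeff (t : ℝ) : (C X * X + C (C t) : BP).coeff 1 = X := by
  simp [coeff_C]

private lemma Sh_term_natDegree (t : ℝ) (F : BP) (c j : ℕ) (hF : TD F c) (hj : F.coeff j ≠ 0) :
    ((F.coeff j).map C * (C X * X + C (C t)) ^ j : BP).natDegree ≤ c := by
  have h1 : (((F.coeff j).map C : BP)).natDegree ≤ (F.coeff j).natDegree := natDegree_map_le
  have h2 : ((C X * X + C (C t)) ^ j : BP).natDegree ≤ j * 1 :=
    natDegree_pow_le_of_le j (Sh_lin_natDegree t)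
  have h3 := hF j hj
  refine natDegree_mul_le.trans ?_
  omega

private lemma Sh_term_coeff (t : ℝ) (F : BP) (c j : ℕ) (hF : TD F c) (hj : F.coeff j ≠ 0) :
    ((F.coeff j).map C * (C X * X + C (C t)) ^ j : BP).coeff c =
      C ((F.coeff j).coeff (c - j)) * X ^ j := by
  have h1 : (((F.coeff j).map C : BP)).natDegree ≤ (F.coeff j).natDegree := natDegree_map_le
  have h2 : ((C X * X + C (C t)) ^ j : BP).natDegree ≤ j * 1 :=
    natDegree_pow_le_of_le j (Sh_lin_natDegree t)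
  have h3 := hF j hj
  have h4 : c = (c - j) + j * 1 := by omega
  have h5 := coeff_mul_add_eq_of_natDegree_le (f := ((F.coeff j).map C : BP))
    (g := ((C X * X + C (C t)) ^ j : BP)) (df := c - j) (dg := j * 1) (by omega) h2
  rw [← h4] at h5
  rw [h5, coeff_pow_of_natDegree_le (Sh_lin_natDegree t), Sh_lin_coeff, coeff_map]

private lemma Sh_Psi_deg (t : ℝ) (F : BP) (c : ℕ) (hF : TD F c) : (Sh_Psi t F).natDegree ≤ c := by
  rw [Sh_Psi_eq]
  refine natDegree_sum_le_of_forall_le _ _ fun j hj => ?_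
  exact Sh_term_natDegree t F c j hF (mem_support_iff.mp hj)

private lemma Sh_Psi_coeff (t : ℝ) (F : BP) (c : ℕ) (hF : TD F c) :
    (Sh_Psi t F).coeff c = lf F c := by
  rw [Sh_Psi_eq, finsetSum_coeff, lf]
  have h1 : ∑ j ∈ F.support, ((F.coeff j).map C * (C X * X + C (C t)) ^ j : BP).coeff c =
      ∑ j ∈ F.support, C ((F.coeff j).coeff (c - j)) * X ^ j :=
    Finset.sum_congr rfl fun j hj => Sh_term_coeff t F c j hF (mem_support_iff.mp hj)
  rw [h1]
  refine Finset.sum_subset ?_ ?_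
  · intro j hj
    have := hF j (mem_support_iff.mp hj)
    rw [Finset.mem_range]
    omega
  · intro j _ hj
    rw [notMem_support_iff.mp hj]
    simp

private lemma Sh_TD_of (F : BP) (c : ℕ) (h : (Sh_Psi 0 F).natDegree ≤ c) : TD F c := by
  intro j hj
  by_contra hlt
  rw [not_le] at hlt
  set d := (F.coeff j).natDegree with hd
  have h0 : (Sh_Psi 0 F).coeff (d + j) = 0 := coeff_eq_zero_of_natDegree_lt (by omega)
  have h1 : ((Sh_Psi 0 F).coeff (d + j)).coeff j = (F.coeff j).coeff d := by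
    rw [Sh_Psi_eq, finsetSum_coeff, finsetSum_coeff]
    rw [Finset.sum_eq_single j]
    · simp only [map_zero, add_zero, mul_pow, ← C_pow, ← mul_assoc]
      rw [coeff_mul_X_pow', if_pos (by omega), coeff_mul_C, coeff_map, coeff_C_mul_X_pow,
        if_pos rfl]
      simp
    · intro i _ hij
      simp only [map_zero, add_zero, mul_pow, ← C_pow, ← mul_assoc]
      rw [coeff_mul_X_pow']
      split_ifs with hle
      · rw [coeff_mul_C, coeff_map, coeff_C_mul_X_pow, if_neg (Ne.symm hij)]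
      · simp
    · intro hns
      exact absurd (mem_support_iff.mpr hj) hns
  rw [h0, coeff_zero, hd, coeff_natDegree] at h1
  exact hj (leadingCoeff_eq_zero.mp h1.symm)

private lemma Sh_Psi_taylor (t : ℝ) (F : BP) : Sh_Psi 0 (taylor (C t) F) = Sh_Psi t F := by
  rw [Sh_Psi, Sh_Psi, coe_eval₂RingHom, coe_eval₂RingHom, taylor_apply, eval₂_comp]
  simp

private lemma Sh_prod_deg {ι : Type} (s : Finset ι) (P : ι → BP) (d : ι → ℕ)
    (h : ∀ i ∈ s, (P i).natDegree ≤ d i) :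
    (∏ i ∈ s, P i).natDegree ≤ ∑ i ∈ s, d i ∧
      (∏ i ∈ s, P i).coeff (∑ i ∈ s, d i) = ∏ i ∈ s, (P i).coeff (d i) := by
  classical
  induction s using Finset.induction_on with
  | empty => simp
  | insert a s ha ih =>
    have ih' := ih fun i hi => h i (Finset.mem_insert_of_mem hi)
    have h1 := h a (Finset.mem_insert_self a s)
    rw [Finset.prod_insert ha, Finset.sum_insert ha, Finset.prod_insert ha]
    refine ⟨natDegree_mul_le.trans (add_le_add h1 ih'.1), ?_⟩
    rw [coeff_mul_add_eq_of_natDegree_le h1 ih'.1, ih'.2]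

/-! ### continuity of the coefficients -/

private lemma Sh_cont_taylor (G : BP) (a : ℝ) (j : ℕ) :
    Continuous fun p : ℝ × ℝ => ((taylor (C (a * p.1)) G).coeff j).eval p.2 := by
  have h : (fun p : ℝ × ℝ => ((taylor (C (a * p.1)) G).coeff j).eval p.2) =
      fun p => ∑ i ∈ G.support, (i.choose j : ℝ) * (G.coeff i).eval p.2 * (a * p.1) ^ (i - j) := by
    funext p
    rw [taylor_coeff, hasseDeriv_apply, Polynomial.sum, eval_finsetSum, eval_finsetSum]
    refine Finset.sum_congr rfl fun i _ => ?_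
    rw [eval_monomial, eval_mul, eval_mul, eval_pow, eval_C, eval_natCast]
  rw [h]
  fun_prop

private lemma Sh_cont_prod {ι : Type} (s : Finset ι) (P : ι → ℝ → BP)
    (h : ∀ i, ∀ j, Continuous fun p : ℝ × ℝ => ((P i p.1).coeff j).eval p.2) :
    ∀ j, Continuous fun p : ℝ × ℝ => ((∏ i ∈ s, P i p.1).coeff j).eval p.2 := by
  classical
  induction s using Finset.induction_on with
  | empty =>
    intro j
    simp only [Finset.prod_empty]
    fun_prop
  | insert a s ha ih =>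
    intro j
    simp only [Finset.prod_insert ha, coeff_mul, eval_finsetSum, eval_mul]
    exact continuous_finsetSum _ fun q _ => (h a q.1).mul (ih q.2)

/-! ### counting -/

private lemma Sh_card_prod {ι : Type} (s : Finset ι) (P : ι → ℝ[X]) (hP : ∀ i ∈ s, P i ≠ 0)
    (p : ℝ → Prop) [DecidablePred p] :
    ((∏ i ∈ s, P i).roots.filter p).card = ∑ i ∈ s, ((P i).roots.filter p).card := by
  classical
  induction s using Finset.induction_on with
  | empty => simp
  | insert a s ha ih =>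
    have ih' := ih fun i hi => hP i (Finset.mem_insert_of_mem hi)
    have h1 : P a * ∏ i ∈ s, P i ≠ 0 := mul_ne_zero (hP a (Finset.mem_insert_self a s))
      (Finset.prod_ne_zero_iff.mpr fun i hi => hP i (Finset.mem_insert_of_mem hi))
    rw [Finset.prod_insert ha, roots_mul h1, Multiset.filter_add, Multiset.card_add,
      Finset.sum_insert ha, ih']

private lemma Sh_card_shift (q : ℝ[X]) (t η y₁ y₂ : ℝ) (ht : 0 ≤ t) (htη : t < η)
    (h : ∀ φ, q.eval φ = 0 → η ≤ |y₁ - φ| ∧ η ≤ |y₂ - φ|)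
    [DecidablePred fun y : ℝ => y₁ < y ∧ y < y₂] :
    ((taylor t q).roots.filter (fun y => y₁ < y ∧ y < y₂)).card =
      (q.roots.filter (fun y => y₁ < y ∧ y < y₂)).card := by
  have h1 : (taylor t q).roots = q.roots.map (fun φ => φ - t) := by
    rw [taylor_apply]
    have := roots_comp_C_mul_X_add_C q 1 t isUnit_one
    simpa using this
  rw [h1, Multiset.filter_map, Multiset.card_map]
  have h2 : Multiset.filter ((fun y => y₁ < y ∧ y < y₂) ∘ fun φ => φ - t) q.roots =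
      Multiset.filter (fun y => y₁ < y ∧ y < y₂) q.roots := by
    refine Multiset.filter_congr fun φ hφ => ?_
    have h3 := h φ (isRoot_of_mem_roots hφ)
    simp only [Function.comp_apply]
    constructor
    · rintro ⟨ha, hb⟩
      refine ⟨by linarith, ?_⟩
      by_contra hle
      rw [not_lt] at hle
      have h4 := h3.2
      rw [abs_of_nonpos (by linarith)] at h4
      linarith
    · rintro ⟨ha, hb⟩
      refine ⟨?_, by linarith⟩
      have h4 := h3.1
      rw [abs_of_neg (by linarith)] at h4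
      linarith
  rw [h2]

/-! ### the theorem -/

theorem thm_Sh : St_Pers → St_Sh := by
  intro hPers c N F G M₀ hP hTD hlf hsp K₁ K₃ K₂ Y η hK₁ hK₂ hK₃ hη h2 h3 hGd
  have hFm : F.Monic := by
    rw [hP.prod]
    exact monic_prod_of_monic _ _ fun r _ => hP.monic r
  -- the family
  let Φ : ℝ → BP := fun ε => ∏ r : Fin N, taylor (C (((r : ℕ) : ℝ) * ε)) (G r)
  have hTm : ∀ (s : ℝ) (r : Fin N), (taylor (C s) (G r)).Monic := by
    intro s r
    rw [Monic, leadingCoeff_taylor]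
    exact hP.monic r
  have hΦm : ∀ ε, (Φ ε).Monic := fun ε => monic_prod_of_monic _ _ fun r _ => hTm _ r
  have hdeg : ∑ r, (G r).natDegree = c := by
    rw [← hP.deg, hP.prod, natDegree_prod_of_monic _ _ fun r _ => hP.monic r]
  have hΦd : ∀ ε, (Φ ε).natDegree = c := by
    intro ε
    simp only [Φ]
    rw [natDegree_prod_of_monic _ _ fun r _ => hTm _ r]
    simp only [natDegree_taylor]
    exact hdeg
  have hΦ0 : Φ 0 = F := by
    simp only [Φ, mul_zero, map_zero, taylor_zero]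
    exact hP.prod.symm
  have hΦc : ∀ j, Continuous fun p : ℝ × ℝ => ((Φ p.1).coeff j).eval p.2 :=
    Sh_cont_prod Finset.univ (fun (r : Fin N) ε => taylor (C (((r : ℕ) : ℝ) * ε)) (G r))
      fun r j => Sh_cont_taylor (G r) ((r : ℕ) : ℝ) j
  obtain ⟨t₀, ht₀, hper⟩ := hPers c Φ (fun t => ⟨hΦm t, hΦd t⟩) hΦc ∅ K₃ K₂ Y η isCompact_empty
    hK₂ hK₃ hη (by rw [hΦ0]; exact h2) (by rw [hΦ0]; exact h3) (by simp)
  -- the total degree and the leading form
  have hPsi : ∀ ε t, (Sh_Psi t (Φ ε)).natDegree ≤ c ∨ t ≠ 0 := by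
    intro ε t
    by_cases ht : t = 0
    · left
      subst ht
      simp only [Φ, map_prod, Sh_Psi_taylor]
      rw [← hdeg]
      exact (Sh_prod_deg Finset.univ (fun r : Fin N => Sh_Psi (((r : ℕ) : ℝ) * ε) (G r))
        (fun r => (G r).natDegree) fun r _ => Sh_Psi_deg _ _ _ (hP.td r)).1
    · exact Or.inr ht
  have hΦT : ∀ ε, TD (Φ ε) c := fun ε =>
    Sh_TD_of _ _ ((hPsi ε 0).resolve_right (by simp))
  have hlfΦ : ∀ ε, lf (Φ ε) c = ∏ r, lf (G r) (G r).natDegree := by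
    intro ε
    rw [← Sh_Psi_coeff 0 (Φ ε) c (hΦT ε)]
    simp only [Φ, map_prod, Sh_Psi_taylor]
    have h := (Sh_prod_deg Finset.univ (fun r : Fin N => Sh_Psi (((r : ℕ) : ℝ) * ε) (G r))
        (fun r => (G r).natDegree) fun r _ => Sh_Psi_deg _ _ _ (hP.td r)).2
    rw [hdeg] at h
    rw [h]
    exact Finset.prod_congr rfl fun r _ => Sh_Psi_coeff _ _ _ (hP.td r)
  -- the gap
  obtain ⟨κ, hκ, hgap⟩ := Sh_gapG G hP.monic K₁ hK₁ hGd
  have hm : 0 < min (min κ η) t₀ := lt_min (lt_min hκ hη) ht₀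
  set ε : ℝ := min (min κ η) t₀ / (2 * (N + 1)) with hε
  have hN : (0 : ℝ) ≤ N := Nat.cast_nonneg N
  have hε0 : 0 < ε := by positivity
  have hεN : (N + 1) * ε < min (min κ η) t₀ := by
    have : (N + 1) * ε = min (min κ η) t₀ / 2 := by
      rw [hε]
      field_simp
    rw [this]
    linarith
  have hεκ : N * ε < κ := by
    have h1 : (N + 1) * ε < κ := hεN.trans_le ((min_le_left _ _).trans (min_le_left _ _))
    nlinarith
  have hεη : N * ε < η := by
    have h1 : (N + 1) * ε < η := hεN.trans_le ((min_le_left _ _).trans (min_le_right _ _))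
    nlinarith
  have hεt : |ε| < t₀ := by
    have h1 : (N + 1) * ε < t₀ := hεN.trans_le (min_le_right _ _)
    rw [abs_of_pos hε0]
    nlinarith
  obtain ⟨p1, p2, -⟩ := hper ε hεt
  rw [hΦ0] at p1
  have hrN : ∀ r : Fin N, ((r : ℕ) : ℝ) * ε ≤ N * ε := by
    intro r
    have : ((r : ℕ) : ℝ) ≤ N := by exact_mod_cast r.2.le
    exact mul_le_mul_of_nonneg_right this hε0.le
  have hr0 : ∀ r : Fin N, 0 ≤ ((r : ℕ) : ℝ) * ε := fun r =>
    mul_nonneg (Nat.cast_nonneg _) hε0.le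
  have hslΦ : ∀ x, sl (Φ ε) x = ∏ r : Fin N, taylor (((r : ℕ) : ℝ) * ε) (sl (G r) x) := by
    intro x
    simp only [Φ]
    rw [Sh_sl_prod]
    exact Finset.prod_congr rfl fun r _ => Sh_sl_taylor _ _ _
  have hslF : ∀ x, sl F x = ∏ r : Fin N, sl (G r) x := by
    intro x
    rw [hP.prod, Sh_sl_prod]
  have hsl0 : ∀ x r, sl (G r) x ≠ 0 := fun x r => (Sh_sl_monic (hP.monic r) x).ne_zero
  have hevF : ∀ x r φ, ev (G r) x φ = 0 → ev F x φ = 0 := by
    intro x r φ h
    rw [ev, hslF, eval_prod]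
    exact Finset.prod_eq_zero (Finset.mem_univ r) h
  have hroot : ∀ x y, ev (Φ ε) x y = 0 → ∃ r : Fin N, ev (G r) x (y + ((r : ℕ) : ℝ) * ε) = 0 := by
    intro x y h
    rw [ev, hslΦ, eval_prod, Finset.prod_eq_zero_iff] at h
    obtain ⟨r, _, hr⟩ := h
    rw [taylor_eval] at hr
    exact ⟨r, hr⟩
  refine ⟨Φ ε, hΦm ε, hΦd ε, hΦT ε, ?_, ?_, p1, p2, ?_⟩
  · rw [hlfΦ ε, ← hlfΦ 0, hΦ0]
    exact hlf
  · intro x hx
    rw [hslΦ]
    refine Splits.prod fun r _ => Splits.taylor ?_ _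
    have h := hsp x hx
    rw [hslF, splits_prod_iff fun r _ => hsl0 x r] at h
    exact h r (Finset.mem_univ r)
  · intro x hx
    refine ⟨?_, ?_, ?_⟩
    · intro y hy
      obtain ⟨r, hr⟩ := hroot x y hy
      have hne : ∀ r' : Fin N, r' ≠ r → ev (G r') x (y + ((r' : ℕ) : ℝ) * ε) ≠ 0 := by
        intro r' hr' h0
        have hd : y + ((r : ℕ) : ℝ) * ε ≠ y + ((r' : ℕ) : ℝ) * ε := by
          intro he
          have h1 : ((r : ℕ) : ℝ) * ε = ((r' : ℕ) : ℝ) * ε := by linarith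
          have h2 : ((r : ℕ) : ℝ) = ((r' : ℕ) : ℝ) := mul_right_cancel₀ hε0.ne' h1
          exact hr' (Fin.ext (by exact_mod_cast h2.symm))
        have h1 := hgap x hx r r' _ _ hr h0 hd
        have h2 : |y + ((r : ℕ) : ℝ) * ε - (y + ((r' : ℕ) : ℝ) * ε)| < κ := by
          rw [abs_lt]
          constructor
          · linarith [hrN r', hr0 r]
          · linarith [hrN r, hr0 r']
        linarith
      rw [ev, Sh_sl_der, hslΦ, ← Finset.mul_prod_erase _ _ (Finset.mem_univ r), derivative_mul,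
        eval_add, eval_mul, eval_mul, taylor_eval]
      have h1 : (sl (G r) x).eval (y + ((r : ℕ) : ℝ) * ε) = 0 := hr
      rw [h1, zero_mul, add_zero]
      refine mul_ne_zero ?_ ?_
      · have h2 : derivative (taylor (((r : ℕ) : ℝ) * ε) (sl (G r) x)) =
            taylor (((r : ℕ) : ℝ) * ε) (derivative (sl (G r) x)) := by
          rw [taylor_apply, taylor_apply, derivative_comp]
          simp
        rw [h2, taylor_eval]
        have h3 := (hGd x hx).1 r _ hr
        rw [ev, Sh_sl_der] at h3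
        exact h3
      · rw [eval_prod]
        refine Finset.prod_ne_zero_iff.mpr fun r' hr' => ?_
        rw [taylor_eval]
        exact hne r' (Finset.ne_of_mem_erase hr')
    · intro y hy
      obtain ⟨r, hr⟩ := hroot x y hy
      refine ⟨_, hevF x r _ hr, ?_⟩
      rw [abs_lt]
      constructor
      · linarith [hrN r]
      · linarith [hr0 r]
    · intro y₁ y₂ _ hφ
      rw [cnt, cnt, hslΦ, hslF]
      rw [Sh_card_prod, Sh_card_prod]
      · refine Finset.sum_congr rfl fun r _ => ?_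
        exact Sh_card_shift _ _ η y₁ y₂ (hr0 r) (lt_of_le_of_lt (hrN r) hεη)
          fun φ h => hφ φ (hevF x r φ h)
      · exact fun r _ => hsl0 x r
      · intro r _
        rw [Ne, taylor_eq_zero]
        exact hsl0 x r

end Pool.Agent.NCC
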