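import Pool.Agent.NCC.StA

/-!
# NCC, module Sig: signs on the branches
-/

set_option autoImplicit false

namespace Pool.Agent.NCC

open Polynomial Filter Topology Set

private theorem Sig_low {m : ℕ} (P : Fin m → Prop) [DecidablePred P]
    (hP : ∀ i j, i ≤ j → P j → P i) (i : Fin m) :
    P i ↔ (i : ℕ) < (Finset.univ.filter P).card := by
  constructor
  · intro h
    have h1 : Finset.Iic i ⊆ Finset.univ.filter P := by
      intro j hj
      simp only [Finset.mem_filter, Finset.mem_univ, true_and]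
      exact hP j i (Finset.mem_Iic.1 hj) h
    have h2 := Finset.card_le_card h1
    rw [Fin.card_Iic] at h2
    omega
  · intro h
    by_contra hn
    have h1 : Finset.univ.filter P ⊆ Finset.Iio i := by
      intro j hj
      simp only [Finset.mem_filter, Finset.mem_univ, true_and] at hj
      rw [Finset.mem_Iio]
      by_contra hji
      exact hn (hP i j (not_lt.1 hji) hj)
    have h2 := Finset.card_le_card h1
    rw [Fin.card_Iio] at h2
    omega

private theorem Sig_sum {m : ℕ} (P : Fin m → Prop) [DecidablePred P]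
    (hP : ∀ i j, i ≤ j → P j → P i) (σ : ℕ → ℤ) :
    ∑ i : Fin m, (if P i then σ i else 0) =
      ∑ i ∈ Finset.range (Finset.univ.filter P).card, σ i := by
  have hK : (Finset.univ.filter P).card ≤ m := by
    have := Finset.card_filter_le (Finset.univ : Finset (Fin m)) P
    simpa using this
  have h1 : ∀ i : Fin m, (if P i then σ i else 0) =
      (fun j : ℕ => if j < (Finset.univ.filter P).card then σ j else 0) i := by
    intro i
    exact if_congr (Sig_low P hP i) rfl rfl
  rw [Finset.sum_congr rfl fun i _ => h1 i, Fin.sum_univ_eq_sum_range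
    (fun j : ℕ => if j < (Finset.univ.filter P).card then σ j else 0) m, ← Finset.sum_filter]
  have h2 : (Finset.range m).filter (fun j => j < (Finset.univ.filter P).card) =
      Finset.range (Finset.univ.filter P).card := by
    ext j
    simp only [Finset.mem_filter, Finset.mem_range]
    omega
  rw [h2]

private theorem Sig_path (M : ℕ → ℕ) (n : ℕ → ℤ) (hM0 : M 0 = 0) (hM : ∀ k, M k ≤ M (k + 1))
    (h1 : ∀ k, |n k - n (k + 1)| ≤ (M (k + 1) : ℤ) - M k)
    (h2 : ∀ k, (n k - n (k + 1) - ((M (k + 1) : ℤ) - M k)) % 2 = 0) (K : ℕ) :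
    ∃ σ : ℕ → ℤ, (∀ i, σ i = 1 ∨ σ i = -1) ∧
      ∀ k ≤ K, ∑ i ∈ Finset.range (M k), σ i = n 0 - n k := by
  induction K with
  | zero =>
    refine ⟨fun _ => 1, fun _ => Or.inl rfl, ?_⟩
    intro k hk
    obtain rfl : k = 0 := by omega
    simp [hM0]
  | succ K ih =>
    obtain ⟨σ, hσ, hs⟩ := ih
    have hmono : ∀ k ≤ K, M k ≤ M K := by
      intro k hk
      exact (monotone_nat_of_le_succ hM) hk
    have e1 := h1 K
    have e2 := h2 K
    have e3 := hM K
    rw [abs_le] at e1
    obtain ⟨a, ha⟩ : ∃ a : ℕ, (a : ℤ) * 2 = (M (K + 1) : ℤ) - M K + (n K - n (K + 1)) := by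
      refine ⟨(((M (K + 1) : ℤ) - M K + (n K - n (K + 1))) / 2).toNat, ?_⟩
      have : 0 ≤ ((M (K + 1) : ℤ) - M K + (n K - n (K + 1))) / 2 := by omega
      rw [Int.toNat_of_nonneg this]
      omega
    have haM : M K + a ≤ M (K + 1) := by
      have : (M K : ℤ) + a ≤ M (K + 1) := by omega
      exact_mod_cast this
    refine ⟨fun i => if i < M K then σ i else if i < M K + a then 1 else -1, ?_, ?_⟩
    · intro i
      by_cases hi : i < M K
      · simpa [hi] using hσ i
      · by_cases hi' : i < M K + a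
        · simp [hi, hi']
        · simp [hi, hi']
    · have hlow : ∀ k ≤ K, ∑ i ∈ Finset.range (M k),
          (if i < M K then σ i else if i < M K + a then (1 : ℤ) else -1) = n 0 - n k := by
        intro k hk
        rw [← hs k hk]
        refine Finset.sum_congr rfl fun i hi => ?_
        have : i < M K := lt_of_lt_of_le (Finset.mem_range.1 hi) (hmono k hk)
        simp [this]
      intro k hk
      rcases Nat.lt_or_ge K k with hkk | hkk
      · obtain rfl : k = K + 1 := by omega
        rw [Finset.range_eq_Ico,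
          ← Finset.sum_Ico_consecutive _ (Nat.zero_le (M K)) (hM K),
          ← Finset.sum_Ico_consecutive _ (Nat.le_add_right (M K) a) haM]
        have s0 := hlow K le_rfl
        rw [Finset.range_eq_Ico] at s0
        have s1 : ∑ i ∈ Finset.Ico (M K) (M K + a),
            (if i < M K then σ i else if i < M K + a then (1 : ℤ) else -1) = a := by
          rw [Finset.sum_congr rfl (g := fun _ => (1 : ℤ))]
          · simp
          · intro i hi
            rw [Finset.mem_Ico] at hi
            have g1 : ¬ i < M K := by omega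
            simp [g1, hi.2]
        have s2 : ∑ i ∈ Finset.Ico (M K + a) (M (K + 1)),
            (if i < M K then σ i else if i < M K + a then (1 : ℤ) else -1) =
              - ((M (K + 1) : ℤ) - (M K + a)) := by
          rw [Finset.sum_congr rfl (g := fun _ => (-1 : ℤ))]
          · rw [Finset.sum_const, Nat.card_Ico, nsmul_eq_mul, Nat.cast_sub haM]
            push_cast
            ring
          · intro i hi
            rw [Finset.mem_Ico] at hi
            have g1 : ¬ i < M K := by omega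
            have g2 : ¬ i < M K + a := by omega
            simp [g1, g2]
        rw [s0, s1, s2]
        linarith
      · exact hlow k hkk

/-- exactly the first `k` of the numbers are below `y`, the others are above -/
private def Sig_Reg {R : ℕ} (a : Fin R → ℝ) (k : ℕ) (y : ℝ) : Prop :=
  ∀ i : Fin R, ((i : ℕ) < k → a i < y) ∧ (k ≤ (i : ℕ) → y < a i)

private theorem Sig_ex {R : ℕ} {a : Fin R → ℝ} (ha : StrictMono a) (k : ℕ) :
    ∃ y, Sig_Reg a k y := by
  classical
  obtain ⟨y, h1, h2⟩ := Order.exists_between_finsets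
    ((Finset.univ.filter fun i : Fin R => (i : ℕ) < k).image a)
    ((Finset.univ.filter fun i : Fin R => k ≤ (i : ℕ)).image a) (by
      intro u hu v hv
      obtain ⟨i, hi, rfl⟩ := Finset.mem_image.1 hu
      obtain ⟨j, hj, rfl⟩ := Finset.mem_image.1 hv
      apply ha
      rw [Fin.lt_def]
      simp only [Finset.mem_filter, Finset.mem_univ, true_and] at hi hj
      omega)
  refine ⟨y, fun i => ⟨fun hi => h1 _ (Finset.mem_image_of_mem _ (by simpa using hi)),
    fun hi => h2 _ (Finset.mem_image_of_mem _ (by simpa using hi))⟩⟩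

private theorem Sig_ex' {R : ℕ} {a : Fin R → ℝ} (ha : StrictMono a) (k : ℕ) {y₁ : ℝ}
    (h : Sig_Reg a k y₁) : ∃ y₂, y₁ < y₂ ∧ Sig_Reg a (k + 1) y₂ := by
  classical
  obtain ⟨y, h1, h2⟩ := Order.exists_between_finsets
    (insert y₁ ((Finset.univ.filter fun i : Fin R => (i : ℕ) < k + 1).image a))
    ((Finset.univ.filter fun i : Fin R => k + 1 ≤ (i : ℕ)).image a) (by
      intro u hu v hv
      obtain ⟨j, hj, rfl⟩ := Finset.mem_image.1 hv
      simp only [Finset.mem_filter, Finset.mem_univ, true_and] at hj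
      rcases Finset.mem_insert.1 hu with rfl | hu
      · exact (h j).2 (by omega)
      · obtain ⟨i, hi, rfl⟩ := Finset.mem_image.1 hu
        apply ha
        rw [Fin.lt_def]
        simp only [Finset.mem_filter, Finset.mem_univ, true_and] at hi
        omega)
  refine ⟨y, h1 _ (Finset.mem_insert_self _ _), fun i =>
    ⟨fun hi => h1 _ (Finset.mem_insert_of_mem (Finset.mem_image_of_mem _ (by simpa using hi))),
    fun hi => h2 _ (Finset.mem_image_of_mem _ (by simpa using hi))⟩⟩

private theorem Sig_ne {R : ℕ} {a : Fin R → ℝ} {k : ℕ} {y : ℝ} (h : Sig_Reg a k y) (i : Fin R) :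
    a i ≠ y := by
  rcases Nat.lt_or_ge (i : ℕ) k with hi | hi
  · exact ((h i).1 hi).ne
  · exact ((h i).2 hi).ne'

private theorem Sig_of {R : ℕ} {a : Fin R → ℝ} (ha : StrictMono a) {y : ℝ} (hy : ∀ i, a i ≠ y) :
    ∃ k ≤ R, Sig_Reg a k y := by
  classical
  have hl := Sig_low (fun i => a i < y) (fun i j hij hj => lt_of_le_of_lt (ha.monotone hij) hj)
  refine ⟨(Finset.univ.filter fun i => a i < y).card, ?_, fun i => ⟨fun hi => (hl i).2 hi, ?_⟩⟩
  · have := Finset.card_filter_le (Finset.univ : Finset (Fin R)) (fun i => a i < y)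
    simpa using this
  · intro hi
    have : ¬ a i < y := fun h => absurd ((hl i).1 h) (not_lt.2 hi)
    exact lt_of_le_of_ne (not_lt.1 this) (hy i).symm

/-- sum of the first `k` numbers -/
private def Sig_M {R : ℕ} (μ : Fin R → ℕ) (k : ℕ) : ℕ := ∑ i : Fin R, if (i : ℕ) < k then μ i else 0

private theorem Sig_MM {R : ℕ} {a : Fin R → ℝ} (μ : Fin R → ℕ) {k₁ k₂ : ℕ} {y₁ y₂ : ℝ}
    (hy : y₁ < y₂) (h1 : Sig_Reg a k₁ y₁) (h2 : Sig_Reg a k₂ y₂) :
    (∑ i, if y₁ < a i ∧ a i < y₂ then μ i else 0) + Sig_M μ k₁ = Sig_M μ k₂ := by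
  unfold Sig_M
  rw [← Finset.sum_add_distrib]
  refine Finset.sum_congr rfl fun i _ => ?_
  rcases Nat.lt_or_ge (i : ℕ) k₁ with hi | hi
  · have g1 := (h1 i).1 hi
    have g2 : (i : ℕ) < k₂ := by
      by_contra hc
      have := (h2 i).2 (not_lt.1 hc)
      linarith
    have g3 : ¬ (y₁ < a i ∧ a i < y₂) := fun h => absurd h.1 (not_lt.2 g1.le)
    rw [if_neg g3, if_pos hi, if_pos g2, zero_add]
  · have g1 := (h1 i).2 hi
    have g0 : ¬ (i : ℕ) < k₁ := not_lt.2 hi
    rcases Nat.lt_or_ge (i : ℕ) k₂ with hj | hj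
    · have g2 := (h2 i).1 hj
      rw [if_pos ⟨g1, g2⟩, if_neg g0, if_pos hj, add_zero]
    · have g2 := (h2 i).2 hj
      have g3 : ¬ (y₁ < a i ∧ a i < y₂) := fun h => absurd h.2 (not_lt.2 g2.le)
      rw [if_neg g3, if_neg g0, if_neg (not_lt.2 hj)]

private theorem Sig_cnt (H : BP) (x : ℝ) (hH : sl H x ≠ 0)
    (hs : ∀ y, ev H x y = 0 → ev (derivative H) x y ≠ 0) {n : ℕ} (θ : Fin n → ℝ)
    (hθ : Function.Injective θ) (hr : ∀ y, ev H x y = 0 → ∃ i, θ i = y) (y₁ y₂ : ℝ)
    [DecidablePred fun i => ev H x (θ i) = 0] :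
    cnt H x y₁ y₂ =
      ∑ i, if y₁ < θ i ∧ θ i < y₂ then (if ev H x (θ i) = 0 then 1 else 0) else 0 := by
  classical
  have hnd : (sl H x).roots.Nodup := by
    rw [Multiset.nodup_iff_count_le_one]
    intro y
    rw [count_roots]
    by_contra hc
    rw [not_le, one_lt_rootMultiplicity_iff_isRoot hH] at hc
    refine hs y hc.1 ?_
    have := hc.2
    rw [sl, derivative_map] at this
    exact this
  have heq : (sl H x).roots =
      (Finset.univ.filter fun i => ev H x (θ i) = 0).val.map θ := by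
    refine (Multiset.Nodup.ext hnd (Multiset.Nodup.map hθ (Finset.nodup _))).2 ?_
    intro y
    rw [mem_roots hH, Multiset.mem_map]
    constructor
    · intro hy
      obtain ⟨i, rfl⟩ := hr y hy
      refine ⟨i, ?_, rfl⟩
      rw [Finset.mem_val, Finset.mem_filter]
      exact ⟨Finset.mem_univ _, hy⟩
    · rintro ⟨i, hi, rfl⟩
      rw [Finset.mem_val, Finset.mem_filter] at hi
      exact hi.2
  have h1 : cnt H x y₁ y₂ = ((Finset.univ.filter fun i => ev H x (θ i) = 0).filter
      fun i => y₁ < θ i ∧ θ i < y₂).card := by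
    unfold cnt
    rw [heq, Multiset.filter_map, Multiset.card_map]
    rfl
  rw [h1, Finset.card_filter, Finset.sum_filter]
  refine Finset.sum_congr rfl fun i _ => ?_
  by_cases h : ev H x (θ i) = 0 <;> simp [h]

private theorem Sig_sl_ne {H : BP} (hH : H.Monic) (x : ℝ) : sl H x ≠ 0 := (hH.map _).ne_zero

private theorem Sig_cntprod {N : ℕ} (G : Fin N → BP) (hG : ∀ r, (G r).Monic) (x y₁ y₂ : ℝ)
    (s : Finset (Fin N)) : cnt (∏ r ∈ s, G r) x y₁ y₂ = ∑ r ∈ s, cnt (G r) x y₁ y₂ := by
  classical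
  induction s using Finset.induction_on with
  | empty => simp [cnt, sl]
  | insert r s hr ih =>
    rw [Finset.prod_insert hr, Finset.sum_insert hr, ← ih]
    have hne : sl (G r) x * sl (∏ r ∈ s, G r) x ≠ 0 :=
      mul_ne_zero (Sig_sl_ne (hG r) x) (Sig_sl_ne (monic_prod_of_monic _ _ fun r _ => hG r) x)
    unfold cnt
    have : sl (G r * ∏ r ∈ s, G r) x = sl (G r) x * sl (∏ r ∈ s, G r) x := by
      simp only [sl, Polynomial.map_mul]
    rw [this, roots_mul hne, Multiset.filter_add, Multiset.card_add]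

private theorem Sig_continuous (H : BP) : Continuous fun q : ℝ × ℝ => ev H q.1 q.2 := by
  have : (fun q : ℝ × ℝ => ev H q.1 q.2) = fun q : ℝ × ℝ =>
      ∑ i ∈ Finset.range (H.natDegree + 1), (H.coeff i).eval q.1 * q.2 ^ i := by
    funext q
    rw [ev, sl, eval_map, eval₂_eq_sum_range]
    rfl
  rw [this]
  refine continuous_finsetSum _ fun i _ => ?_
  exact ((H.coeff i).continuous.comp continuous_fst).mul (continuous_snd.pow i)

private theorem Sig_ev_mul (A B : BP) (x y : ℝ) : ev (A * B) x y = ev A x y * ev B x y := by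
  simp [ev, sl]

private theorem Sig_ev_add (A B : BP) (x y : ℝ) : ev (A + B) x y = ev A x y + ev B x y := by
  simp [ev, sl]

private theorem Sig_ev_prod {ι : Type} (s : Finset ι) (G : ι → BP) (x y : ℝ) :
    ev (∏ r ∈ s, G r) x y = ∏ r ∈ s, ev (G r) x y := by
  simp only [ev, sl, Polynomial.map_prod, eval_prod]

theorem thm_Sig : St_Br → St_Sig := by
  intro hBr c N F G w nn hD hP α β η f m ψ hαβ hη hGd hw hf hfs hψ hcnt
  classical
  -- the product of the different factors
  set p : BP := ∏ H ∈ Finset.univ.image G, H with hp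
  have hpm : p.Monic := by
    refine monic_prod_of_monic _ _ ?_
    intro H hH
    obtain ⟨r, _, rfl⟩ := Finset.mem_image.1 hH
    exact hP.monic r
  have hpz : ∀ x y, ev p x y = 0 ↔ ∃ r, ev (G r) x y = 0 := by
    intro x y
    rw [hp, Sig_ev_prod, Finset.prod_eq_zero_iff]
    constructor
    · rintro ⟨H, hH, h0⟩
      obtain ⟨r, _, rfl⟩ := Finset.mem_image.1 hH
      exact ⟨r, h0⟩
    · rintro ⟨r, h0⟩
      exact ⟨G r, Finset.mem_image_of_mem _ (Finset.mem_univ _), h0⟩
  have hFz : ∀ x y, ev F x y = 0 ↔ ∃ r, ev (G r) x y = 0 := by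
    intro x y
    rw [hP.prod, Sig_ev_prod, Finset.prod_eq_zero_iff]
    constructor
    · rintro ⟨r, _, h0⟩
      exact ⟨r, h0⟩
    · rintro ⟨r, h0⟩
      exact ⟨r, Finset.mem_univ _, h0⟩
  have hps : ∀ x ∈ Ioo α β, ∀ y, ev p x y = 0 → ev (derivative p) x y ≠ 0 := by
    intro x hx y h0
    obtain ⟨r, hr⟩ := (hpz x y).1 h0
    have hmem : G r ∈ Finset.univ.image G := Finset.mem_image_of_mem _ (Finset.mem_univ _)
    have e1 : p = G r * ∏ H ∈ (Finset.univ.image G).erase (G r), H := by
      exact (Finset.mul_prod_erase (Finset.univ.image G) (fun H : BP => H) hmem).symm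
    have e2 : ev (derivative p) x y = ev (derivative (G r)) x y *
        ev (∏ H ∈ (Finset.univ.image G).erase (G r), H) x y := by
      rw [e1, derivative_mul, Sig_ev_add, Sig_ev_mul, Sig_ev_mul, hr, zero_mul, add_zero]
    rw [e2]
    refine mul_ne_zero ((hGd x hx).1 r y hr) ?_
    rw [Sig_ev_prod, Finset.prod_ne_zero_iff]
    intro H hH
    rw [Finset.mem_erase] at hH
    obtain ⟨r', _, rfl⟩ := Finset.mem_image.1 hH.2
    exact (hGd x hx).2 r r' (Ne.symm hH.1) y hr
  obtain ⟨R, φ, hφ⟩ := hBr p α β hpm hps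
  have hroot : ∀ x ∈ Ioo α β, ∀ y, ev F x y = 0 ↔ ∃ i, φ i x = y := by
    intro x hx y
    rw [hFz, ← hpz, hφ.root x hx]
  have hφc : ∀ i, ∀ x ∈ Ioo α β, ContinuousAt (φ i) x := fun i x hx =>
    (hφ.diff i).continuousOn.continuousAt (isOpen_Ioo.mem_nhds hx)
  -- the multiplicities
  obtain ⟨x₀, hx₀⟩ : ∃ x₀, x₀ ∈ Ioo α β := ⟨(α + β) / 2, by constructor <;> linarith⟩
  have hμ : ∀ i, ∃ μ : ℕ, ∀ x ∈ Ioo α β,
      (Finset.univ.filter fun r => ev (G r) x (φ i x) = 0).card = μ := by
    intro i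
    refine ⟨(Finset.univ.filter fun r => ev (G r) x₀ (φ i x₀) = 0).card, ?_⟩
    intro x hx
    have hcont : ContinuousOn
        (fun x => (Finset.univ.filter fun r => ev (G r) x (φ i x) = 0).card) (Ioo α β) := by
      intro x hx
      apply ContinuousAt.continuousWithinAt
      apply tendsto_nhds_of_eventually_eq
      have h0 : ∀ᶠ x' in 𝓝 x, ∀ r, ev (G r) x (φ i x) ≠ 0 → ev (G r) x' (φ i x') ≠ 0 := by
        rw [eventually_all]
        intro r
        by_cases hr : ev (G r) x (φ i x) = 0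
        · exact Eventually.of_forall fun _ h => absurd hr h
        · have hc : ContinuousAt (fun x' => ev (G r) x' (φ i x')) x :=
            ContinuousAt.comp (x := x) (f := fun x' => (x', φ i x'))
              (g := fun q : ℝ × ℝ => ev (G r) q.1 q.2)
              (Sig_continuous (G r)).continuousAt (continuousAt_id.prodMk (hφc i x hx))
          filter_upwards [hc.eventually_ne hr] with x' hx' _
          exact hx'
      filter_upwards [h0, isOpen_Ioo.mem_nhds hx] with x' h0 hx'
      congr 1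
      refine Finset.filter_congr fun r _ => ?_
      constructor
      · intro h
        by_contra hn
        exact h0 r hn h
      · intro h
        obtain ⟨r', hr'⟩ := (hpz x' (φ i x')).1 ((hφ.root x' hx' _).2 ⟨i, rfl⟩)
        have h2 : ev (G r') x (φ i x) = 0 := by
          by_contra hn
          exact h0 r' hn hr'
        have h3 : G r = G r' := by
          by_contra hne
          exact (hGd x hx).2 r r' hne _ h h2
        rw [h3]
        exact hr'
    exact isPreconnected_Ioo.constant hcont hx hx₀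
  choose μ hμ using hμ
  have hcntF : ∀ x ∈ Ioo α β, ∀ y₁ y₂, cnt F x y₁ y₂ =
      ∑ i, if y₁ < φ i x ∧ φ i x < y₂ then μ i else 0 := by
    intro x hx y₁ y₂
    rw [hP.prod, Sig_cntprod G hP.monic]
    have e1 : ∀ r, cnt (G r) x y₁ y₂ = ∑ i, if y₁ < φ i x ∧ φ i x < y₂ then
        (if ev (G r) x (φ i x) = 0 then 1 else 0) else 0 := by
      intro r
      refine Sig_cnt (G r) x (Sig_sl_ne (hP.monic r) x) (fun y hy => (hGd x hx).1 r y hy)
        (fun i => φ i x) (hφ.mono x hx).injective ?_ y₁ y₂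
      intro y hy
      exact (hφ.root x hx y).1 ((hpz x y).2 ⟨r, hy⟩)
    rw [Finset.sum_congr rfl fun r _ => e1 r, Finset.sum_comm]
    refine Finset.sum_congr rfl fun i _ => ?_
    rw [← hμ i x hx, Finset.card_filter]
    by_cases h : y₁ < φ i x ∧ φ i x < y₂
    · simp only [if_pos h]
    · simp only [if_neg h, Finset.sum_const_zero]
  have hne : ∀ x ∈ Ioo α β, ∀ k y, Sig_Reg (fun i => φ i x) k y → ev F x y ≠ 0 := by
    intro x hx k y h h0
    obtain ⟨i, hi⟩ := (hroot x hx y).1 h0
    exact Sig_ne h i hi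
  have hwx : ∀ x ∈ Ioo α β, ∀ z ∈ w.support, z.re ≠ x := fun x hx z hz h => hw z hz (h ▸ hx)
  have hcM : ∀ x ∈ Ioo α β, ∀ k₁ k₂ y₁ y₂, y₁ < y₂ → Sig_Reg (fun i => φ i x) k₁ y₁ →
      Sig_Reg (fun i => φ i x) k₂ y₂ → cnt F x y₁ y₂ + Sig_M μ k₁ = Sig_M μ k₂ := by
    intro x hx k₁ k₂ y₁ y₂ hy h1 h2
    rw [hcntF x hx]
    exact Sig_MM (a := fun i => φ i x) μ hy h1 h2
  -- the values of nn on the regions
  have hsame' : ∀ x ∈ Ioo α β, ∀ k y y', y < y' → Sig_Reg (fun i => φ i x) k y →
      Sig_Reg (fun i => φ i x) k y' → nn x y = nn x y' := by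
    intro x hx k y y' hy h1 h2
    have e1 := hcM x hx k k y y' hy h1 h2
    have e2 : cnt F x y y' = 0 := by omega
    have e3 := (hD.jump x (hwx x hx) y y' hy (hne x hx k y h1) (hne x hx k y' h2)).1
    rw [e2] at e3
    have e4 : nn x y - nn x y' = 0 := by simpa using e3
    linarith
  have hsame : ∀ x ∈ Ioo α β, ∀ k y y', Sig_Reg (fun i => φ i x) k y →
      Sig_Reg (fun i => φ i x) k y' → nn x y = nn x y' := by
    intro x hx k y y' h1 h2
    rcases lt_trichotomy y y' with h | h | h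
    · exact hsame' x hx k y y' h h1 h2
    · rw [h]
    · exact (hsame' x hx k y' y h h2 h1).symm
  have hexY : ∀ (k : ℕ) (x : ℝ), ∃ y, x ∈ Ioo α β → Sig_Reg (fun i => φ i x) k y := by
    intro k x
    by_cases hx : x ∈ Ioo α β
    · obtain ⟨y, hy⟩ := Sig_ex (hφ.mono x hx) k
      exact ⟨y, fun _ => hy⟩
    · exact ⟨0, fun h => absurd h hx⟩
  choose Y hY using hexY
  have hn : ∀ k, ∀ x ∈ Ioo α β, ∀ y, Sig_Reg (fun i => φ i x) k y →
      nn x y = nn x₀ (Y k x₀) := by
    intro k x hx y hy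
    rw [hsame x hx k y (Y k x) hy (hY k x hx)]
    have hcont : ContinuousOn (fun x => nn x (Y k x)) (Ioo α β) := by
      intro x hx
      apply ContinuousAt.continuousWithinAt
      apply tendsto_nhds_of_eventually_eq
      have h1 : ∀ᶠ x' in 𝓝 x, nn x' (Y k x) = nn x (Y k x) := by
        have hc : Tendsto (fun x' : ℝ => (x', Y k x)) (𝓝 x) (𝓝 (x, Y k x)) :=
          (continuousAt_id.prodMk continuousAt_const)
        exact hc.eventually
          (hD.loc x (Y k x) (hwx x hx) (hne x hx k _ (hY k x hx)))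
      have h2 : ∀ᶠ x' in 𝓝 x, Sig_Reg (fun i => φ i x') k (Y k x) := by
        unfold Sig_Reg
        rw [eventually_all]
        intro i
        rcases Nat.lt_or_ge (i : ℕ) k with hi | hi
        · filter_upwards [(hφc i x hx).eventually_lt_const ((hY k x hx i).1 hi)] with x' hx'
          exact ⟨fun _ => hx', fun h => absurd hi (not_lt.2 h)⟩
        · filter_upwards [(hφc i x hx).eventually_const_lt ((hY k x hx i).2 hi)] with x' hx'
          exact ⟨fun h => absurd h (not_lt.2 hi), fun _ => hx'⟩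
      filter_upwards [h1, h2, isOpen_Ioo.mem_nhds hx] with x' h1 h2 hx'
      rw [hsame x' hx' k (Y k x') (Y k x) (hY k x' hx') h2, h1]
    exact isPreconnected_Ioo.constant hcont hx hx₀
  -- signs
  have hstep : ∀ k, Sig_M μ k ≤ Sig_M μ (k + 1) ∧
      |nn x₀ (Y k x₀) - nn x₀ (Y (k + 1) x₀)| ≤ (Sig_M μ (k + 1) : ℤ) - Sig_M μ k ∧
      (nn x₀ (Y k x₀) - nn x₀ (Y (k + 1) x₀) -
        ((Sig_M μ (k + 1) : ℤ) - Sig_M μ k)) % 2 = 0 := by
    intro k
    obtain ⟨y₂, hy, hr⟩ := Sig_ex' (hφ.mono x₀ hx₀) k (hY k x₀ hx₀)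
    have e1 := hcM x₀ hx₀ k (k + 1) _ y₂ hy (hY k x₀ hx₀) hr
    have e2 := hD.jump x₀ (hwx x₀ hx₀) _ _ hy (hne x₀ hx₀ k _ (hY k x₀ hx₀))
      (hne x₀ hx₀ (k + 1) y₂ hr)
    rw [hsame x₀ hx₀ (k + 1) y₂ (Y (k + 1) x₀) hr (hY (k + 1) x₀ hx₀)] at e2
    have e3 : (cnt F x₀ (Y k x₀) y₂ : ℤ) = (Sig_M μ (k + 1) : ℤ) - Sig_M μ k := by
      rw [← e1]
      push_cast
      ring
    rw [e3] at e2
    exact ⟨by omega, e2.1, e2.2⟩
  obtain ⟨σ, hσ, hσs⟩ := Sig_path (Sig_M μ) (fun k => nn x₀ (Y k x₀)) (by simp [Sig_M])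
    (fun k => (hstep k).1) (fun k => (hstep k).2.1) (fun k => (hstep k).2.2) R
  refine ⟨fun i => σ i, fun i => hσ i, ?_⟩
  intro x hx y₁ y₂ hy hy12
  have hmono := hψ.mono x hx
  have hyne : ∀ i, φ i x ≠ y₁ ∧ φ i x ≠ y₂ := by
    intro i
    have h := hy12 (φ i x) ((hroot x hx _).2 ⟨i, rfl⟩)
    constructor
    · intro hh
      have := h.1
      rw [hh, sub_self, abs_zero] at this
      linarith
    · intro hh
      have := h.2
      rw [hh, sub_self, abs_zero] at this
      linarith
  obtain ⟨k₁, hk₁, hr₁⟩ := Sig_of (hφ.mono x hx) fun i => (hyne i).1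
  obtain ⟨k₂, hk₂, hr₂⟩ := Sig_of (hφ.mono x hx) fun i => (hyne i).2
  have hcf : ∀ u v, cnt f x u v = (Finset.univ.filter fun j => u < ψ j x ∧ ψ j x < v).card := by
    intro u v
    rw [Sig_cnt f x (Sig_sl_ne hf x) (hfs x hx) (fun j => ψ j x) hmono.injective
      (fun y hy => (hψ.root x hx y).1 hy) u v, Finset.card_filter]
    refine Finset.sum_congr rfl fun j _ => ?_
    have : ev f x (ψ j x) = 0 := (hψ.root x hx _).2 ⟨j, rfl⟩
    simp only [this, if_true]
  -- number of branches below y₂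
  obtain ⟨V, _, hV⟩ := Order.exists_between_finsets (∅ : Finset ℝ)
    (insert y₂ ((Finset.univ.image fun i => φ i x - η) ∪ (Finset.univ.image fun j => ψ j x)))
    (by simp)
  have hV1 : V < y₂ := hV _ (Finset.mem_insert_self _ _)
  have hV2 : ∀ i, V < φ i x - η := fun i => hV _ (Finset.mem_insert_of_mem
    (Finset.mem_union_left _ (Finset.mem_image_of_mem _ (Finset.mem_univ _))))
  have hV3 : ∀ j, V < ψ j x := fun j => hV _ (Finset.mem_insert_of_mem
    (Finset.mem_union_right _ (Finset.mem_image_of_mem _ (Finset.mem_univ _))))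
  have hVr : Sig_Reg (fun i => φ i x) 0 V := by
    intro i
    refine ⟨fun h => absurd h (Nat.not_lt_zero _), fun _ => ?_⟩
    have := hV2 i
    linarith
  have hc2 : (Finset.univ.filter fun j => ψ j x < y₂).card = Sig_M μ k₂ := by
    have e1 := hcM x hx 0 k₂ V y₂ hV1 hVr hr₂
    have e2 : Sig_M μ 0 = 0 := by simp [Sig_M]
    rw [← hcnt x hx V y₂ hV1 ?_, hcf, e2, add_zero] at e1
    · rw [← e1]
      congr 1
      refine Finset.filter_congr fun j _ => ?_
      exact ⟨fun h => ⟨hV3 j, h⟩, fun h => h.2⟩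
    · intro θ hθ
      refine ⟨?_, (hy12 θ hθ).2⟩
      obtain ⟨i, rfl⟩ := (hroot x hx θ).1 hθ
      have := hV2 i
      rw [abs_sub_comm, abs_of_pos (by linarith)]
      linarith
  have hc1 : (Finset.univ.filter fun j => ψ j x ≤ y₁).card = Sig_M μ k₁ := by
    have e1 := hcM x hx k₁ k₂ y₁ y₂ hy hr₁ hr₂
    rw [← hcnt x hx y₁ y₂ hy hy12, hcf] at e1
    have e2 : (Finset.univ.filter fun j => y₁ < ψ j x ∧ ψ j x < y₂).card +
        (Finset.univ.filter fun j => ψ j x ≤ y₁).card =
          (Finset.univ.filter fun j => ψ j x < y₂).card := by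
      rw [Finset.card_filter, Finset.card_filter, Finset.card_filter, ← Finset.sum_add_distrib]
      refine Finset.sum_congr rfl fun j _ => ?_
      by_cases h1 : ψ j x ≤ y₁
      · have h2 : ¬ (y₁ < ψ j x ∧ ψ j x < y₂) := fun h => absurd h.1 (not_lt.2 h1)
        rw [if_neg h2, if_pos h1, if_pos (lt_of_le_of_lt h1 hy)]
      · by_cases h2 : ψ j x < y₂
        · rw [if_pos ⟨not_le.1 h1, h2⟩, if_neg h1, if_pos h2]
        · rw [if_neg (fun h => h2 h.2), if_neg h1, if_neg h2]
    omega
  have s2 := Sig_sum (fun j => ψ j x < y₂)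
    (fun i j hij hj => lt_of_le_of_lt (hmono.monotone hij) hj) σ
  have s1 := Sig_sum (fun j => ψ j x ≤ y₁)
    (fun i j hij hj => le_trans (hmono.monotone hij) hj) σ
  rw [hc2, hσs k₂ hk₂] at s2
  rw [hc1, hσs k₁ hk₁] at s1
  have s3 : (∑ i, (if y₁ < ψ i x ∧ ψ i x < y₂ then σ i else 0)) +
      ∑ i, (if ψ i x ≤ y₁ then σ i else 0) = ∑ i, (if ψ i x < y₂ then σ i else 0) := by
    rw [← Finset.sum_add_distrib]
    refine Finset.sum_congr rfl fun j _ => ?_
    by_cases h1 : ψ j x ≤ y₁
    · have h2 : ¬ (y₁ < ψ j x ∧ ψ j x < y₂) := fun h => absurd h.1 (not_lt.2 h1)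
      rw [if_neg h2, if_pos h1, if_pos (lt_of_le_of_lt h1 hy), zero_add]
    · by_cases h2 : ψ j x < y₂
      · rw [if_pos ⟨not_le.1 h1, h2⟩, if_neg h1, if_pos h2, add_zero]
      · rw [if_neg (fun h => h2 h.2), if_neg h1, if_neg h2, add_zero]
  rw [hn k₁ x hx y₁ hr₁, hn k₂ x hx y₂ hr₂]
  rw [s1, s2] at s3
  linarith

end Pool.Agent.NCC
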