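import Pool.Agent.NCC.StA

/-!
# NCC [Slab] : roots near a given `x`
-/

set_option autoImplicit false

namespace Pool.Agent.NCC

open Polynomial Filter Topology Set

private theorem Slab_ev (F : BP) (x y : ℝ) :
    ev F x y = ∑ j ∈ F.support, (F.coeff j).eval x * y ^ j := by
  unfold ev sl
  rw [eval_map, eval₂_eq_sum]
  rfl

private theorem Slab_cont (F : BP) : Continuous (fun q : ℝ × ℝ => ev F q.1 q.2) := by
  simp only [Slab_ev]
  refine continuous_finset_sum _ (fun j _ => ?_)
  exact ((F.coeff j).continuous.comp continuous_fst).mul (continuous_snd.pow j)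

private theorem Slab_bound (F : BP) (β : ℝ) (hF : F.Monic) : ∃ R : ℝ, ∀ x y : ℝ,
    x ∈ Icc (β - 1) (β + 1) → ev F x y = 0 → ‖y‖ ≤ R := by
  obtain ⟨C, hC⟩ := (isCompact_Icc (a := β - 1) (b := β + 1)).exists_bound_of_continuousOn
    (f := fun x : ℝ => ∑ j ∈ Finset.range F.natDegree, ‖(F.coeff j).eval x‖)
    (Continuous.continuousOn (continuous_finset_sum _ (fun j _ => (F.coeff j).continuous.norm)))
  refine ⟨C + 1, fun x y hx hy => ?_⟩
  have hm : (sl F x).Monic := hF.map _
  have h1 : ‖y‖ < (cauchyBound (sl F x) : ℝ) := IsRoot.norm_lt_cauchyBound hm.ne_zero hy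
  have h2 : (cauchyBound (sl F x) : ℝ) ≤ C + 1 := by
    have h3 : ∀ j ∈ Finset.range (sl F x).natDegree, (‖(sl F x).coeff j‖₊ : ℝ) ≤ C := by
      intro j hj
      have h4 : (sl F x).natDegree = F.natDegree := hF.natDegree_map _
      rw [h4] at hj
      have h5 : (sl F x).coeff j = (F.coeff j).eval x := coeff_map _ _
      rw [h5, coe_nnnorm]
      refine le_trans ?_ ((le_abs_self _).trans (hC x hx))
      exact Finset.single_le_sum (f := fun j => ‖(F.coeff j).eval x‖)
        (fun _ _ => norm_nonneg _) hj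
    have hC0 : 0 ≤ C := (norm_nonneg _).trans (hC x hx)
    have h6 : (Finset.sup (Finset.range (sl F x).natDegree) (fun j => ‖(sl F x).coeff j‖₊)) ≤
        C.toNNReal := by
      refine Finset.sup_le (fun j hj => ?_)
      rw [← NNReal.coe_le_coe, Real.coe_toNNReal C hC0]
      exact h3 j hj
    unfold cauchyBound
    rw [hm.leadingCoeff, nnnorm_one, div_one, NNReal.coe_add, NNReal.coe_one]
    have h7 := NNReal.coe_le_coe.mpr h6
    rw [Real.coe_toNNReal C hC0] at h7
    linarith
  exact h1.le.trans h2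

theorem thm_Slab : St_Slab := by
  intro F β η hF hη
  obtain ⟨R, hR⟩ := Slab_bound F β hF
  have hK : IsCompact {y : ℝ | y ∈ Icc (-R) R ∧ ∀ φ, ev F β φ = 0 → η ≤ |y - φ|} := by
    refine isCompact_Icc.of_isClosed_subset ?_ (fun y hy => hy.1)
    have h1 : {y : ℝ | y ∈ Icc (-R) R ∧ ∀ φ, ev F β φ = 0 → η ≤ |y - φ|} =
        Icc (-R) R ∩ ⋂ φ : ℝ, ⋂ _ : ev F β φ = 0, {y : ℝ | η ≤ |y - φ|} := by
      ext y
      simp only [mem_setOf_eq, mem_inter_iff, mem_iInter]
    rw [h1]
    refine isClosed_Icc.inter (isClosed_iInter (fun φ => isClosed_iInter (fun _ => ?_)))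
    exact isClosed_le continuous_const (continuous_id.sub continuous_const).abs
  have h2 := hK.eventually_forall_of_forall_eventually (x₀ := β)
    (P := fun x y => ev F x y ≠ 0) (by
      intro y hy
      have h3 : ev F β y ≠ 0 := by
        intro h4
        have h5 := hy.2 y h4
        rw [sub_self, abs_zero] at h5
        linarith
      exact (Slab_cont F).continuousAt.eventually_ne h3)
  obtain ⟨ε, hε, h3⟩ := Metric.eventually_nhds_iff.mp h2
  refine ⟨min (ε / 2) 1, lt_min (half_pos hε) one_pos, fun x y hx hy => ?_⟩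
  by_contra h4
  push Not at h4
  have h5 : |x - β| < ε := lt_of_le_of_lt (hx.trans (min_le_left _ _)) (half_lt_self hε)
  have h6 : |x - β| ≤ 1 := hx.trans (min_le_right _ _)
  rw [abs_le] at h6
  have h7 : ‖y‖ ≤ R := hR x y ⟨by linarith [h6.1], by linarith [h6.2]⟩ hy
  rw [Real.norm_eq_abs, abs_le] at h7
  exact h3 (by rw [Real.dist_eq]; exact h5) y ⟨h7, h4⟩ hy

end Pool.Agent.NCC
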