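import Pool.Agent.NCC.StS

/-!
# NCC, module Soc: the socle lemma
-/

set_option autoImplicit false

namespace Pool.Agent.NCC

open MvPolynomial Module

private theorem Soc_sum (s : Fin 2 →₀ ℕ) : (s.sum fun _ e => e) = s 0 + s 1 := by
  rw [Finsupp.sum_fintype _ _ (fun _ => rfl), Fin.sum_univ_two]

private theorem Soc_degree (s : Fin 2 →₀ ℕ) : s.degree = s 0 + s 1 := by
  rw [Finsupp.degree_eq_sum, Fin.sum_univ_two]

private theorem Soc_mem (N : ℕ) (p : CP) : p ∈ Pd (N : ℤ) ↔ p.totalDegree ≤ N := by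
  unfold Pd
  rw [mem_restrictSupport_iff]
  constructor
  · intro h
    rw [totalDegree, Finset.sup_le_iff]
    intro s hs
    have h1 := h (Finset.mem_coe.2 hs)
    rw [Soc_sum]
    have h2 : ((s 0 + s 1 : ℕ) : ℤ) ≤ N := h1
    exact_mod_cast h2
  · intro h s hs
    have h1 := le_totalDegree (Finset.mem_coe.1 hs)
    rw [Soc_sum] at h1
    show ((s 0 + s 1 : ℕ) : ℤ) ≤ N
    exact_mod_cast h1.trans h

private theorem Soc_low (R : ℕ) (q : CP) (h1 : q.totalDegree ≤ R)
    (h2 : homogeneousComponent R q = 0) : q ∈ Pd ((R : ℤ) - 1) := by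
  unfold Pd
  rw [mem_restrictSupport_iff]
  intro s hs
  have hs' := Finset.mem_coe.1 hs
  have h3 := le_totalDegree hs'
  rw [Soc_sum] at h3
  have h4 : s 0 + s 1 ≠ R := by
    intro h5
    have h6 := coeff_homogeneousComponent R q s
    rw [h2, if_pos (by rw [Soc_degree]; exact h5), coeff_zero] at h6
    exact (mem_support_iff.1 hs') h6.symm
  show ((s 0 + s 1 : ℕ) : ℤ) ≤ (R : ℤ) - 1
  omega

private theorem Soc_A (hTop : St_Top) {F : CP} {c : ℕ} (hF : F.totalDegree ≤ c)
    (F0 : homogeneousComponent c F ≠ 0) (M : ℕ) (u : CP) (h : (u * F).totalDegree ≤ M) :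
    ∃ s : CP, homogeneousComponent M (u * F) = s * homogeneousComponent c F ∧
      (s = 0 ∨ ∃ e, e + c = M ∧ s.IsHomogeneous e) := by
  by_cases hu : u = 0
  · exact ⟨0, by rw [hu, zero_mul, zero_mul, map_zero], Or.inl rfl⟩
  · have hF1 : F ≠ 0 := by
      rintro rfl
      exact F0 (map_zero _)
    have hFc : F.totalDegree = c := by
      refine le_antisymm hF ?_
      by_contra hlt
      exact F0 (homogeneousComponent_eq_zero c F (by omega))
    rw [totalDegree_mul_of_isDomain hu hF1, hFc] at h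
    obtain ⟨e, he⟩ : ∃ e, e + c = M := ⟨M - c, by omega⟩
    refine ⟨homogeneousComponent e u, ?_, Or.inr ⟨e, he, homogeneousComponent_isHomogeneous e u⟩⟩
    rw [← he]
    exact hTop u F e c (by omega) hF

private theorem Soc_B (hTop : St_Top) {F : CP} {c : ℕ} (hF : F.totalDegree ≤ c) (M : ℕ) (s : CP)
    (h : s = 0 ∨ ∃ e, e + c = M ∧ s.IsHomogeneous e) :
    homogeneousComponent M (s * F) = s * homogeneousComponent c F ∧ (s * F).totalDegree ≤ M := by
  rcases h with rfl | ⟨e, he, hs⟩
  · constructor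
    · rw [zero_mul, zero_mul, map_zero]
    · rw [zero_mul, totalDegree_zero]
      exact Nat.zero_le _
  · constructor
    · rw [← he, hTop s F e c hs.totalDegree_le hF,
        homogeneousComponent_of_mem ((mem_homogeneousSubmodule e s).2 hs), if_pos rfl]
    · calc (s * F).totalDegree ≤ s.totalDegree + F.totalDegree := totalDegree_mul _ _
        _ ≤ e + c := add_le_add hs.totalDegree_le hF
        _ = M := he

private theorem Soc_C {s : CP} {M c : ℕ}
    (h : X 0 * s = 0 ∨ ∃ e, e + c = M + 1 ∧ (X 0 * s).IsHomogeneous e) :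
    s = 0 ∨ ∃ e, e + c = M ∧ s.IsHomogeneous e := by
  by_cases hs : s = 0
  · exact Or.inl hs
  · right
    rcases h with h | ⟨e, he, h⟩
    · exact absurd ((mul_eq_zero.1 h).resolve_left (X_ne_zero 0)) hs
    · have key : ∀ m : Fin 2 →₀ ℕ, coeff m s ≠ 0 → m.degree + 1 = e := by
        intro m hm
        have h1 : coeff (m + Finsupp.single 0 1) (X 0 * s) ≠ 0 := by
          rw [mul_comm, coeff_mul_X]
          exact hm
        have h2 : (m + Finsupp.single 0 1).degree = e := by
          rw [Finsupp.degree_eq_weight_one]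
          exact h h1
        rw [← h2, map_add, Finsupp.degree_single]
      obtain ⟨m, hm⟩ := exists_coeff_ne_zero hs
      have h3 := key m hm
      refine ⟨m.degree, by omega, ?_⟩
      intro m' hm'
      have h4 := key m' hm'
      have h5 : m'.degree = m.degree := by omega
      rw [Finsupp.degree_eq_weight_one] at h5 ⊢
      exact h5

private theorem Soc_D {s : CP} {M c : ℕ} (hc : c ≤ M)
    (h : s = 0 ∨ ∃ e, e + c = M ∧ s.IsHomogeneous e) : s.totalDegree ≤ M - c := by
  rcases h with rfl | ⟨e, he, hs⟩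
  · rw [totalDegree_zero]
    exact Nat.zero_le _
  · exact hs.totalDegree_le.trans (by omega)

private theorem Soc_step (hTop : St_Top) (hRed : St_Red) {F G : CP} {c d : ℕ} (hP : Pair F G c d)
    (R : ℕ) (p p0 : CP) (i : Fin 2) (hp : p.totalDegree ≤ R) (hp0 : p0.totalDegree ≤ R)
    (h : mkq F G (X i) * mkq F G p = mkq F G p0) :
    ∃ s t : CP, X i * homogeneousComponent R p =
      s * homogeneousComponent c F + t * homogeneousComponent d G ∧
      (s = 0 ∨ ∃ e, e + c = R + 1 ∧ s.IsHomogeneous e) ∧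
      (t = 0 ∨ ∃ e, e + d = R + 1 ∧ t.IsHomogeneous e) := by
  have hm : X i * p - p0 ∈ II F G := by
    rw [← Ideal.Quotient.eq_zero_iff_mem]
    change mkq F G (X i * p - p0) = 0
    rw [map_sub, map_mul, h, sub_self]
  obtain ⟨u, v, huv⟩ := Ideal.mem_span_pair.1 hm
  have hX : (X i * p).totalDegree ≤ R + 1 := by
    refine (totalDegree_mul _ _).trans ?_
    rw [totalDegree_X]
    omega
  have hdeg : (u * F + v * G).totalDegree ≤ R + 1 := by
    rw [huv]
    exact (totalDegree_sub _ _).trans (max_le hX (by omega))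
  obtain ⟨u', v', h1, h2, h3⟩ := hRed F G c d hP u v (R + 1) hdeg
  obtain ⟨s, hs, hs'⟩ := Soc_A hTop hP.hF hP.F0 (R + 1) u' h2
  obtain ⟨t, ht, ht'⟩ := Soc_A hTop hP.hG hP.G0 (R + 1) v' h3
  refine ⟨s, t, ?_, hs', ht'⟩
  rw [← hs, ← ht, ← map_add, h1, huv, map_sub,
    homogeneousComponent_eq_zero (R + 1) p0 (by omega), sub_zero]
  have h4 := hTop (X i) p 1 R (by rw [totalDegree_X]) hp
  rw [homogeneousComponent_of_mem ((mem_homogeneousSubmodule 1 (X i)).2 (isHomogeneous_X ℂ i)),
    if_pos rfl, add_comm 1 R] at h4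
  exact h4.symm

private theorem Soc_div {s0 s1 : CP} (h : X 1 * s0 = X 0 * s1) : ∃ s : CP, s0 = X 0 * s := by
  have h1 : (X 0 : CP) ∣ X 1 * s0 := ⟨s1, h⟩
  rcases X_dvd_mul_iff.1 h1 with h2 | h2
  · rw [X_dvd_X] at h2
    exact absurd h2 (by decide)
  · exact h2

theorem thm_Soc : St_Top → St_Red → St_Soc := by
  intro hTop hRed F G c d hP r hr h hh h0 h1
  obtain ⟨p, hp, rfl⟩ := hh
  rcases lt_or_ge r 0 with hr0 | hr0
  · have hp0 : p = 0 := by
      by_contra hne
      obtain ⟨m, hm⟩ := exists_coeff_ne_zero hne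
      have h2 : m ∈ (p.support : Set (Fin 2 →₀ ℕ)) := Finset.mem_coe.2 (mem_support_iff.2 hm)
      have h3 : ((m 0 + m 1 : ℕ) : ℤ) ≤ r := ((mem_restrictSupport_iff ℂ).1 hp) h2
      omega
    rw [hp0, map_zero]
    exact zero_mem _
  · obtain ⟨R, rfl⟩ := Int.eq_ofNat_of_zero_le hr0
    have hpR : p.totalDegree ≤ R := (Soc_mem R p).1 hp
    obtain ⟨p0, hp0, hp0e⟩ := h0
    obtain ⟨p1, hp1, hp1e⟩ := h1
    obtain ⟨s0, t0, E0, hs0, ht0⟩ := Soc_step hTop hRed hP R p p0 0 hpR ((Soc_mem R p0).1 hp0)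
      hp0e.symm
    obtain ⟨s1, t1, E1, hs1, -⟩ := Soc_step hTop hRed hP R p p1 1 hpR ((Soc_mem R p1).1 hp1)
      hp1e.symm
    set Fc := homogeneousComponent c F with hFc
    set Gd := homogeneousComponent d G with hGd
    have hGd0 : Gd ≠ 0 := hP.G0
    have key : (X 1 * s0 - X 0 * s1) * Fc = (X 0 * t1 - X 1 * t0) * Gd := by
      linear_combination (X 0 : CP) * E1 - (X 1 : CP) * E0
    have hA : X 1 * s0 - X 0 * s1 = 0 := by
      by_contra hne
      have hdvd : Gd ∣ (X 1 * s0 - X 0 * s1) * Fc := ⟨X 0 * t1 - X 1 * t0, by rw [key, mul_comm]⟩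
      obtain ⟨B, hB⟩ := hP.rel.symm.dvd_of_dvd_mul_right hdvd
      have hB0 : B ≠ 0 := by
        rintro rfl
        exact hne (by rw [hB, mul_zero])
      have hdeg : (X 1 * s0 - X 0 * s1).totalDegree = Gd.totalDegree + B.totalDegree := by
        rw [hB, totalDegree_mul_of_isDomain hGd0 hB0]
      have hGdd : Gd.totalDegree = d :=
        (homogeneousComponent_isHomogeneous d G).totalDegree hGd0
      have hc : c ≤ R + 1 := by
        rcases hs0 with h2 | ⟨e, he, -⟩
        · rcases hs1 with h3 | ⟨e, he, -⟩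
          · exact absurd (by rw [h2, h3, mul_zero, mul_zero, sub_zero]) hne
          · omega
        · omega
      have h2 := Soc_D hc hs0
      have h3 := Soc_D hc hs1
      have h4 : (X 1 * s0 - X 0 * s1).totalDegree ≤ 1 + (R + 1 - c) := by
        refine (totalDegree_sub _ _).trans (max_le ?_ ?_)
        · refine (totalDegree_mul _ _).trans ?_
          rw [totalDegree_X]
          omega
        · refine (totalDegree_mul _ _).trans ?_
          rw [totalDegree_X]
          omega
      omega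
    have hB : X 0 * t1 - X 1 * t0 = 0 := by
      rw [hA, zero_mul] at key
      exact (mul_eq_zero.1 key.symm).resolve_right hGd0
    obtain ⟨s, hs⟩ := Soc_div (sub_eq_zero.1 hA)
    obtain ⟨t, ht⟩ := Soc_div (sub_eq_zero.1 hB).symm
    rw [hs] at hs0
    rw [ht] at ht0
    have hs2 := Soc_C hs0
    have ht2 := Soc_C ht0
    have hpr : homogeneousComponent R p = s * Fc + t * Gd := by
      apply mul_left_cancel₀ (X_ne_zero (R := ℂ) (0 : Fin 2))
      rw [E0, hs, ht]
      ring
    obtain ⟨b1, b2⟩ := Soc_B hTop hP.hF R s hs2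
    obtain ⟨b3, b4⟩ := Soc_B hTop hP.hG R t ht2
    refine ⟨p - (s * F + t * G), Soc_low R _ ?_ ?_, ?_⟩
    · exact (totalDegree_sub _ _).trans (max_le hpR ((totalDegree_add _ _).trans (max_le b2 b4)))
    · rw [map_sub, map_add, b1, b3, hpr, sub_self]
    · change mkq F G (p - (s * F + t * G)) = mkq F G p
      have h5 : mkq F G (s * F + t * G) = 0 := by
        change Ideal.Quotient.mk (II F G) (s * F + t * G) = 0
        rw [Ideal.Quotient.eq_zero_iff_mem]
        exact Ideal.mem_span_pair.2 ⟨s, t, rfl⟩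
      rw [map_sub, h5, sub_zero]

end Pool.Agent.NCC
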