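import Pool.Agent.NCC.StS

/-!
# NCC Split: finite dimensional algebras with involution, generalized eigenspaces
-/

set_option autoImplicit false

namespace Pool.Agent.NCC

open MvPolynomial Module
open scoped ComplexConjugate

section

variable {Q : Type} [CommRing Q] [Algebra ℂ Q]

/-- the elements which are killed by a polynomial in `ℓ` all of whose roots satisfy `S` -/
private noncomputable def Split_G (ℓ : Q) (S : ℂ → Prop) : Submodule ℂ Q where
  carrier := {x | ∃ p : Polynomial ℂ, p ≠ 0 ∧ (∀ s, p.IsRoot s → S s) ∧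
    Polynomial.aeval ℓ p * x = 0}
  zero_mem' := ⟨1, one_ne_zero, fun s hs => by
    rw [Polynomial.IsRoot.def, Polynomial.eval_one] at hs
    exact absurd hs one_ne_zero, mul_zero _⟩
  add_mem' := by
    rintro x y ⟨p, hp, hpS, hpx⟩ ⟨q, hq, hqS, hqy⟩
    refine ⟨p * q, mul_ne_zero hp hq, ?_, ?_⟩
    · intro s hs
      rcases Polynomial.root_mul.mp hs with h | h
      · exact hpS s h
      · exact hqS s h
    · rw [map_mul]
      linear_combination (Polynomial.aeval ℓ q) * hpx + (Polynomial.aeval ℓ p) * hqy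
  smul_mem' := by
    rintro c x ⟨p, hp, hpS, hpx⟩
    refine ⟨p, hp, hpS, ?_⟩
    rw [mul_smul_comm, hpx, smul_zero]

private theorem Split_mem {ℓ : Q} {S : ℂ → Prop} {x : Q} : x ∈ Split_G ℓ S ↔
    ∃ p : Polynomial ℂ, p ≠ 0 ∧ (∀ s, p.IsRoot s → S s) ∧ Polynomial.aeval ℓ p * x = 0 := Iff.rfl

private theorem Split_mono {ℓ : Q} {S S' : ℂ → Prop} (h : ∀ s, S s → S' s) {x : Q}
    (hx : x ∈ Split_G ℓ S) : x ∈ Split_G ℓ S' := by
  obtain ⟨p, hp, hpS, hpx⟩ := hx
  exact ⟨p, hp, fun s hs => h s (hpS s hs), hpx⟩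

private theorem Split_ideal {ℓ : Q} {S : ℂ → Prop} {x : Q} (hx : x ∈ Split_G ℓ S) (h : Q) :
    h * x ∈ Split_G ℓ S := by
  obtain ⟨p, hp, hpS, hpx⟩ := hx
  refine ⟨p, hp, hpS, ?_⟩
  linear_combination h * hpx

private theorem Split_coprime {S S' : ℂ → Prop} (hSS : ∀ s, S s → S' s → False)
    {p q : Polynomial ℂ} (hp : ∀ s, p.IsRoot s → S s) (hq : ∀ s, q.IsRoot s → S' s) :
    IsCoprime p q := by
  refine (Polynomial.isCoprime_iff_aeval_ne_zero_of_isAlgClosed (k := ℂ) (K := ℂ) p q).mpr ?_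
  intro a
  by_contra hc
  push Not at hc
  exact hSS a (hp a (by rw [Polynomial.IsRoot.def, ← Polynomial.coe_aeval_eq_eval]; exact hc.1))
    (hq a (by rw [Polynomial.IsRoot.def, ← Polynomial.coe_aeval_eq_eval]; exact hc.2))

private theorem Split_prod {ℓ : Q} {S S' : ℂ → Prop} (hSS : ∀ s, S s → S' s → False) {x y : Q}
    (hx : x ∈ Split_G ℓ S) (hy : y ∈ Split_G ℓ S') : x * y = 0 := by
  obtain ⟨p, hp, hpS, hpx⟩ := hx
  obtain ⟨q, hq, hqS, hqy⟩ := hy
  obtain ⟨u, v, huv⟩ := Split_coprime hSS hpS hqS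
  have h1 := congrArg (Polynomial.aeval ℓ) huv
  rw [map_add, map_mul, map_mul, map_one] at h1
  linear_combination (-(x * y)) * h1 + (Polynomial.aeval ℓ u * y) * hpx +
    (Polynomial.aeval ℓ v * x) * hqy

open Classical in
private theorem Split_factor (S' : ℂ → Prop) (p : Polynomial ℂ) (hp : p ≠ 0) :
    ∃ p1 p2 : Polynomial ℂ, p = p1 * p2 ∧ (∀ s, p1.IsRoot s → S' s) ∧
      (∀ s, p2.IsRoot s → ¬ S' s) := by
  have hs := (IsAlgClosed.splits p).eq_prod_roots
  refine ⟨((p.roots.filter S').map fun a => Polynomial.X - Polynomial.C a).prod,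
    Polynomial.C p.leadingCoeff *
      ((p.roots.filter fun a => ¬ S' a).map fun a => Polynomial.X - Polynomial.C a).prod,
    ?_, ?_, ?_⟩
  · rw [mul_left_comm, ← Multiset.prod_add, ← Multiset.map_add, Multiset.filter_add_not]
    exact hs
  · intro s hs
    have hne : ((p.roots.filter S').map fun a => Polynomial.X - Polynomial.C a).prod ≠ 0 :=
      (Polynomial.monic_multisetProd_X_sub_C _).ne_zero
    have h1 := (Polynomial.mem_roots hne).mpr hs
    rw [Polynomial.roots_multiset_prod_X_sub_C] at h1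
    exact (Multiset.mem_filter.mp h1).2
  · intro s hs
    rcases Polynomial.root_mul.mp hs with h | h
    · rw [Polynomial.IsRoot.def, Polynomial.eval_C] at h
      exact absurd h (Polynomial.leadingCoeff_ne_zero.mpr hp)
    · have hne : ((p.roots.filter fun a => ¬ S' a).map
          fun a => Polynomial.X - Polynomial.C a).prod ≠ 0 :=
        (Polynomial.monic_multisetProd_X_sub_C _).ne_zero
      have h1 := (Polynomial.mem_roots hne).mpr h
      rw [Polynomial.roots_multiset_prod_X_sub_C] at h1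
      exact (Multiset.mem_filter.mp h1).2

private theorem Split_dec {ℓ : Q} {S : ℂ → Prop} (S' : ℂ → Prop) {x : Q}
    (hx : x ∈ Split_G ℓ S) : ∃ b ∈ Split_G ℓ (fun s => S s ∧ S' s),
      ∃ r ∈ Split_G ℓ (fun s => S s ∧ ¬ S' s), x = b + r := by
  obtain ⟨p, hp, hpS, hpx⟩ := hx
  obtain ⟨p1, p2, hpp, h1, h2⟩ := Split_factor S' p hp
  have hp1 : p1 ≠ 0 := by
    rintro rfl
    rw [zero_mul] at hpp
    exact hp hpp
  have hp2 : p2 ≠ 0 := by
    rintro rfl
    rw [mul_zero] at hpp
    exact hp hpp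
  obtain ⟨u, v, huv⟩ := Split_coprime (S := S') (S' := fun s => ¬ S' s) (fun s h h' => h' h) h1 h2
  have h3 := congrArg (Polynomial.aeval ℓ) huv
  rw [map_add, map_mul, map_mul, map_one] at h3
  rw [hpp, map_mul] at hpx
  refine ⟨Polynomial.aeval ℓ v * Polynomial.aeval ℓ p2 * x, ⟨p1, hp1, fun s hs => ⟨?_, h1 s hs⟩, ?_⟩,
    Polynomial.aeval ℓ u * Polynomial.aeval ℓ p1 * x, ⟨p2, hp2, fun s hs => ⟨?_, h2 s hs⟩, ?_⟩, ?_⟩
  · apply hpS
    rw [hpp]
    exact Polynomial.root_mul.mpr (Or.inl hs)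
  · linear_combination (Polynomial.aeval ℓ v) * hpx
  · apply hpS
    rw [hpp]
    exact Polynomial.root_mul.mpr (Or.inr hs)
  · linear_combination (Polynomial.aeval ℓ u) * hpx
  · linear_combination (-x) * h3

private theorem Split_chi {ℓ : Q} {S : ℂ → Prop} {x : Q} (hx : x ∈ Split_G ℓ S) (χ : Q →ₐ[ℂ] ℂ)
    (hχ : ¬ S (χ ℓ)) : χ x = 0 := by
  obtain ⟨p, hp, hpS, hpx⟩ := hx
  have h1 := congrArg χ hpx
  rw [map_mul, map_zero, ← Polynomial.aeval_algHom_apply] at h1
  rcases mul_eq_zero.mp h1 with h | h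
  · exfalso
    apply hχ
    apply hpS
    rw [Polynomial.IsRoot.def, ← Polynomial.coe_aeval_eq_eval]
    exact h
  · exact h

private theorem Split_top [Module.Finite ℂ Q] (ℓ x : Q) : x ∈ Split_G ℓ (fun _ => True) := by
  have hint : IsIntegral ℂ ℓ := Algebra.IsIntegral.isIntegral ℓ
  exact ⟨minpoly ℂ ℓ, minpoly.ne_zero hint, fun _ _ => trivial, by
    rw [minpoly.aeval, zero_mul]⟩

private theorem Split_tau {ℓ : Q} (τ : Q →+* Q) (h1 : ∀ (z : ℂ) (x : Q), τ (z • x) = conj z • τ x)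
    (hℓ : τ ℓ = ℓ) {S : ℂ → Prop} {x : Q} (hx : x ∈ Split_G ℓ S) :
    τ x ∈ Split_G ℓ (fun s => S (conj s)) := by
  obtain ⟨p, hp, hpS, hpx⟩ := hx
  refine ⟨p.map (starRingEnd ℂ), ?_, ?_, ?_⟩
  · rw [Polynomial.map_ne_zero_iff (starRingEnd ℂ).injective]
    exact hp
  · intro s hs
    apply hpS
    rw [Polynomial.IsRoot.def] at hs ⊢
    have h2 := Polynomial.eval₂_at_apply (p := p) (starRingEnd ℂ) (conj s)
    rw [Polynomial.eval_map] at hs
    rw [Complex.conj_conj, hs] at h2
    exact (map_eq_zero_iff _ (starRingEnd ℂ).injective).mp h2.symm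
  · have h2 := congrArg τ hpx
    rw [map_mul, map_zero] at h2
    rw [← h2]
    congr 1
    rw [Polynomial.aeval_def, Polynomial.aeval_def, Polynomial.eval₂_map, Polynomial.hom_eval₂, hℓ]
    congr 1
    ext z
    · show algebraMap ℂ Q (conj z) = τ (algebraMap ℂ Q z)
      rw [Algebra.algebraMap_eq_smul_one, Algebra.algebraMap_eq_smul_one, h1, map_one]

end

theorem thm_Split : St_Split := by
  intro Q _ _ _ τ ℓ m χ δ hadd hmul hsmul hinv hℓ hδ hχδ hχτ hψ
  have hone : τ 1 = 1 := by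
    have h1 : τ 1 * τ (τ 1) = τ (τ 1) := by rw [← hmul, one_mul]
    rw [hinv, mul_one] at h1
    exact h1
  have hzero : τ 0 = 0 := by
    have h1 := hadd 0 0
    rw [add_zero] at h1
    exact (left_eq_add.mp h1)
  let τ' : Q →+* Q :=
    { toFun := τ
      map_one' := hone
      map_mul' := hmul
      map_zero' := hzero
      map_add' := hadd }
  have hτ' : ∀ x, τ' x = τ x := fun _ => rfl
  have him : ∀ i, (χ i ℓ).im = 0 := by
    intro i
    have h1 := hχτ i ℓ
    rw [hℓ] at h1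
    exact Complex.conj_eq_iff_im.mp h1.symm
  -- the real part
  have hR : ∀ r ∈ Split_G ℓ (fun s => s.im = 0), (∀ i, χ i r = 0) → r = 0 := by
    intro r hr hr0
    by_contra hne
    let I : Ideal Q :=
      { carrier := {x | x ∈ Split_G ℓ (fun s => s.im = 0) ∧ ∀ i, χ i x = 0}
        zero_mem' := ⟨Submodule.zero_mem _, fun i => map_zero _⟩
        add_mem' := fun {x y} hx hy => ⟨Submodule.add_mem _ hx.1 hy.1, fun i => by
          rw [map_add, hx.2 i, hy.2 i, add_zero]⟩
        smul_mem' := fun c x hx => ⟨Split_ideal hx.1 c, fun i => by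
          rw [smul_eq_mul, map_mul, hx.2 i, mul_zero]⟩ }
    have hx : (⟨r, hr, hr0⟩ : I) ≠ 0 := fun h => hne (congrArg Subtype.val h)
    have : IsNoetherianRing Q := IsNoetherianRing.of_finite ℂ Q
    obtain ⟨P, hP, _⟩ := exists_le_isAssociatedPrime_of_isNoetherianRing Q
      (⟨r, hr, hr0⟩ : I) hx
    rw [isAssociatedPrime_iff] at hP
    obtain ⟨hPp, w, hPw⟩ := hP
    have := hPp
    have hbij : Function.Bijective (algebraMap ℂ (Q ⧸ P)) :=
      IsAlgClosed.algebraMap_bijective_of_isIntegral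
    let e : ℂ ≃ₐ[ℂ] (Q ⧸ P) := AlgEquiv.ofBijective (Algebra.ofId ℂ (Q ⧸ P)) hbij
    let ψ : Q →ₐ[ℂ] ℂ := (e.symm : (Q ⧸ P) →ₐ[ℂ] ℂ).comp (Ideal.Quotient.mkₐ ℂ P)
    have hker : ∀ h : Q, ψ h = 0 → h ∈ P := by
      intro h hh
      have h1 : e.symm (Ideal.Quotient.mkₐ ℂ P h) = 0 := hh
      rw [map_eq_zero_iff _ e.symm.injective] at h1
      exact Ideal.Quotient.eq_zero_iff_mem.mp h1
    have hw : ∀ h : Q, h * (w : Q) = ψ h • (w : Q) := by
      intro h
      have h1 : ψ (h - algebraMap ℂ Q (ψ h)) = 0 := by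
        rw [map_sub, AlgHom.commutes]
        exact sub_self _
      have h2 := hker _ h1
      rw [hPw, Submodule.mem_colon_singleton, Submodule.mem_bot] at h2
      have h3 : (h - algebraMap ℂ Q (ψ h)) * (w : Q) = 0 := congrArg Subtype.val h2
      rw [sub_mul, sub_eq_zero, ← Algebra.smul_def] at h3
      exact h3
    have hw0 : (w : Q) ≠ 0 := by
      intro hc
      apply hPp.ne_top
      rw [hPw, Ideal.eq_top_iff_one, Submodule.mem_colon_singleton, Submodule.mem_bot, one_smul]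
      exact Subtype.ext hc
    obtain ⟨⟨p, hp, hpS, hpw⟩, hwχ⟩ := w.2
    have hψℓ : (ψ ℓ).im = 0 := by
      apply hpS
      rw [hw, ← Polynomial.aeval_algHom_apply] at hpw
      rcases smul_eq_zero.mp hpw with h | h
      · rw [Polynomial.IsRoot.def, ← Polynomial.coe_aeval_eq_eval]
        exact h
      · exact absurd h hw0
    obtain ⟨i, hi⟩ := hψ ψ hψℓ
    apply hw0
    have h1 := hδ i (w : Q)
    rw [hwχ i, zero_smul, mul_comm, hw, hi, hχδ i i, if_pos rfl, one_smul] at h1
    exact h1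
  refine ⟨Split_G ℓ (fun s => 0 < s.im), Split_G ℓ (fun s => s.im < 0), ?_, ?_, ?_, ?_, ?_, ?_, ?_⟩
  · intro a ha b hb
    exact Split_prod (fun s h1 h2 => lt_asymm h1 h2) ha hb
  · intro a ha h
    exact Split_ideal ha h
  · intro b hb h
    exact Split_ideal hb h
  · intro a
    constructor
    · intro ha
      have h1 := Split_tau τ' hsmul hℓ ha
      refine Split_mono ?_ h1
      intro s hs
      rw [Complex.conj_im] at hs
      linarith
    · intro ha
      have h1 := Split_tau τ' hsmul hℓ ha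
      have h2 : τ' (τ a) = a := hinv a
      rw [h2] at h1
      refine Split_mono ?_ h1
      intro s hs
      rw [Complex.conj_im] at hs
      linarith
  · intro a ha i
    exact Split_chi ha (χ i) (by rw [him i]; exact lt_irrefl _)
  · intro b hb i
    exact Split_chi hb (χ i) (by rw [him i]; exact lt_irrefl _)
  · intro h
    obtain ⟨a, ha, y, hy, hay⟩ := Split_dec (fun s => 0 < s.im) (Split_top ℓ h)
    obtain ⟨b, hb, r, hr, hbr⟩ := Split_dec (fun s => s.im < 0) hy
    have ha' : a ∈ Split_G ℓ (fun s => 0 < s.im) := Split_mono (fun s hs => hs.2) ha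
    have hb' : b ∈ Split_G ℓ (fun s => s.im < 0) := Split_mono (fun s hs => hs.2) hb
    have hr' : r ∈ Split_G ℓ (fun s => s.im = 0) :=
      Split_mono (fun s hs => le_antisymm (not_lt.mp hs.1.2) (not_lt.mp hs.2)) hr
    refine ⟨a, ha', b, hb', ?_⟩
    have hχh : ∀ i, χ i h = χ i r := by
      intro i
      rw [hay, hbr, map_add, map_add,
        Split_chi ha' (χ i) (by rw [him i]; exact lt_irrefl _),
        Split_chi hb' (χ i) (by rw [him i]; exact lt_irrefl _), zero_add, zero_add]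
    have hδR : ∀ i, δ i ∈ Split_G ℓ (fun s => s.im = 0) := by
      intro i
      refine ⟨Polynomial.X - Polynomial.C (χ i ℓ), Polynomial.X_sub_C_ne_zero _, ?_, ?_⟩
      · intro s hs
        rw [Polynomial.root_X_sub_C] at hs
        rw [← hs]
        exact him i
      · rw [map_sub, Polynomial.aeval_X, Polynomial.aeval_C, sub_mul, hδ i ℓ, ← Algebra.smul_def,
          sub_self]
    have h0 := hR (r - ∑ i, χ i h • δ i) (Submodule.sub_mem _ hr'
      (Submodule.sum_mem _ fun i _ => Submodule.smul_mem _ _ (hδR i))) (by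
        intro j
        rw [map_sub, map_sum, sub_eq_zero, Finset.sum_eq_single j]
        · rw [map_smul, hχδ j j, if_pos rfl, smul_eq_mul, mul_one, hχh j]
        · intro i _ hij
          rw [map_smul, hχδ j i, if_neg (Ne.symm hij), smul_zero]
        · intro hc
          exact absurd (Finset.mem_univ _) hc)
    rw [sub_eq_zero] at h0
    calc h = r + a + b := by
          rw [hay, hbr]
          ring
      _ = ∑ i, χ i h • δ i + a + b := by rw [← h0]

end Pool.Agent.NCC
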