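import Pool.Agent.NCC.StB

/-!
# NCC : [Tgt] The target function (interpolation on the strips, cutoffs).

MP_ca8ee9_an (captain: helper1). The step function is the quadratic spline
`2 u⁺² - 4 (u - 1/2)⁺² + 2 (u - 1)⁺²`.
-/

set_option autoImplicit false

namespace Pool.Agent.NCC

open Polynomial Filter Topology Set

/-! ### the step function -/

private lemma Tgt_sq (u : ℝ) : HasDerivAt (fun u : ℝ => max 0 u ^ 2) (2 * max 0 u) u := by
  rcases lt_trichotomy u 0 with h | h | h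
  · have h1 : max 0 u = 0 := max_eq_left h.le
    rw [h1, mul_zero]
    refine (hasDerivAt_const u (0 : ℝ)).congr_of_eventuallyEq ?_
    filter_upwards [eventually_lt_nhds h] with v hv
    rw [max_eq_left hv.le]
    simp
  · subst h
    have h1 : HasDerivWithinAt (fun u : ℝ => max 0 u ^ 2) 0 (Iic 0) 0 :=
      (hasDerivWithinAt_const (0 : ℝ) (Iic 0) (0 : ℝ)).congr (fun x hx => by
        rw [max_eq_left hx]; simp) (by simp)
    have h2 : HasDerivWithinAt (fun u : ℝ => max 0 u ^ 2) 0 (Ici 0) 0 := by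
      have h3 : HasDerivAt (fun u : ℝ => u ^ 2) 0 0 := by
        simpa using hasDerivAt_pow 2 (0 : ℝ)
      exact h3.hasDerivWithinAt.congr (fun x hx => by rw [max_eq_right hx]) (by simp)
    have h3 := h1.union h2
    rw [Set.Iic_union_Ici, hasDerivWithinAt_univ] at h3
    simpa using h3
  · have h1 : max 0 u = u := max_eq_right h.le
    rw [h1]
    have h3 : HasDerivAt (fun u : ℝ => u ^ 2) (2 * u) u := by
      simpa using hasDerivAt_pow 2 u
    refine h3.congr_of_eventuallyEq ?_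
    filter_upwards [eventually_gt_nhds h] with v hv
    rw [max_eq_right (le_of_lt hv)]

private noncomputable def Tgt_st (u : ℝ) : ℝ :=
  2 * max 0 u ^ 2 - 4 * max 0 (u - 1 / 2) ^ 2 + 2 * max 0 (u - 1) ^ 2

private noncomputable def Tgt_sd (u : ℝ) : ℝ :=
  4 * max 0 u - 8 * max 0 (u - 1 / 2) + 4 * max 0 (u - 1)

private lemma Tgt_hasDeriv (u : ℝ) : HasDerivAt Tgt_st (Tgt_sd u) u := by
  have h1 := (Tgt_sq u).const_mul 2
  have h2 := ((Tgt_sq (u - 1 / 2)).comp_sub_const u (1 / 2)).const_mul 4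
  have h3 := ((Tgt_sq (u - 1)).comp_sub_const u 1).const_mul 2
  have h4 := (h1.sub h2).add h3
  have h5 : 2 * (2 * max 0 u) - 4 * (2 * max 0 (u - 1 / 2)) + 2 * (2 * max 0 (u - 1)) =
      Tgt_sd u := by
    unfold Tgt_sd; ring
  rw [h5] at h4
  exact h4

private lemma Tgt_contDiff : ContDiff ℝ 1 Tgt_st := by
  rw [contDiff_one_iff_deriv]
  refine ⟨fun u => (Tgt_hasDeriv u).differentiableAt, ?_⟩
  have h : deriv Tgt_st = Tgt_sd := funext fun u => (Tgt_hasDeriv u).deriv
  rw [h]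
  unfold Tgt_sd
  fun_prop

private lemma Tgt_zero {u : ℝ} (h : u ≤ 0) : Tgt_st u = 0 := by
  unfold Tgt_st
  rw [max_eq_left h, max_eq_left (by linarith), max_eq_left (by linarith)]
  norm_num

private lemma Tgt_one {u : ℝ} (h : 1 ≤ u) : Tgt_st u = 1 := by
  unfold Tgt_st
  rw [max_eq_right (by linarith), max_eq_right (by linarith), max_eq_right (by linarith)]
  ring

private lemma Tgt_quant {u : ℝ} (h0 : 0 ≤ u) (h1 : u ≤ 1) (h : |1 - 2 * Tgt_st u| ≤ 3 / 4) :
    3 / 4 ≤ Tgt_sd u := by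
  rw [abs_le] at h
  obtain ⟨ha, hb⟩ := h
  unfold Tgt_st at ha hb
  unfold Tgt_sd
  rw [max_eq_right h0, max_eq_left (show u - 1 ≤ 0 by linarith)] at *
  rcases le_total u (1 / 2) with h2 | h2
  · rw [max_eq_left (show u - 1 / 2 ≤ 0 by linarith)] at *
    nlinarith
  · rw [max_eq_right (show 0 ≤ u - 1 / 2 by linarith)] at *
    nlinarith

/-! ### polynomials with continuously differentiable coefficients -/

private def Tgt_CC (I : Set ℝ) (P : ℝ → ℝ[X]) : Prop :=
  ∀ n, ContDiffOn ℝ 1 (fun x => (P x).coeff n) I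

private lemma Tgt_CC_mul {I : Set ℝ} {P Q : ℝ → ℝ[X]} (hP : Tgt_CC I P) (hQ : Tgt_CC I Q) :
    Tgt_CC I (fun x => P x * Q x) := by
  intro n
  simp only [coeff_mul]
  exact ContDiffOn.sum fun p _ => (hP p.1).mul (hQ p.2)

private lemma Tgt_CC_prod {I : Set ℝ} {ι : Type} [DecidableEq ι] (s : Finset ι)
    (P : ι → ℝ → ℝ[X]) (hP : ∀ i ∈ s, Tgt_CC I (P i)) :
    Tgt_CC I (fun x => ∏ i ∈ s, P i x) := by
  induction s using Finset.induction_on with
  | empty =>
    intro n
    simp only [Finset.prod_empty]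
    exact contDiffOn_const
  | insert a s ha ih =>
    have h1 := Tgt_CC_mul (hP a (Finset.mem_insert_self a s))
      (ih fun i hi => hP i (Finset.mem_insert_of_mem hi))
    intro n
    simp only [Finset.prod_insert ha]
    exact h1 n

private lemma Tgt_CC_C {I : Set ℝ} {f : ℝ → ℝ} (hf : ContDiffOn ℝ 1 f I) :
    Tgt_CC I (fun x => C (f x)) := by
  intro n
  by_cases h : n = 0
  · subst h
    simp only [coeff_C_zero]
    exact hf
  · simp only [coeff_C, if_neg h]
    exact contDiffOn_const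

private lemma Tgt_CC_XC {I : Set ℝ} {f : ℝ → ℝ} (hf : ContDiffOn ℝ 1 f I) :
    Tgt_CC I (fun x => X - C (f x)) := by
  intro n
  simp only [coeff_sub]
  exact contDiffOn_const.sub (Tgt_CC_C hf n)

/-- the interpolation polynomial -/
private noncomputable def Tgt_q {m : ℕ} (ψ : Fin m → ℝ → ℝ) (r : Fin m → ℝ) (x : ℝ) : ℝ[X] :=
  Lagrange.interpolate Finset.univ (fun i => ψ i x) r

private lemma Tgt_CC_q {m : ℕ} (ψ : Fin m → ℝ → ℝ) (r : Fin m → ℝ) {I : Set ℝ}
    (hψ : ∀ i, ContDiffOn ℝ 1 (ψ i) I) (hm : ∀ x ∈ I, StrictMono fun i => ψ i x) :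
    Tgt_CC I (Tgt_q ψ r) := by
  intro n
  have h1 : (fun x => (Tgt_q ψ r x).coeff n) = fun x => ∑ i : Fin m,
      (C (r i) * ∏ j ∈ Finset.univ.erase i,
        (C ((ψ i x - ψ j x)⁻¹) * (X - C (ψ j x)))).coeff n := by
    funext x
    simp only [Tgt_q, Lagrange.interpolate_apply, finsetSum_coeff, Lagrange.basis,
      Lagrange.basisDivisor]
  rw [h1]
  refine ContDiffOn.sum fun i _ => ?_
  refine Tgt_CC_mul (P := fun _ => C (r i)) (Tgt_CC_C contDiffOn_const)
    (Tgt_CC_prod (Finset.univ.erase i)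
      (fun j x => C ((ψ i x - ψ j x)⁻¹) * (X - C (ψ j x))) fun j hj => ?_) n
  refine Tgt_CC_mul (Tgt_CC_C (((hψ i).sub (hψ j)).inv fun x hx => ?_)) (Tgt_CC_XC (hψ j))
  intro h0
  have h2 := (hm x hx).injective (sub_eq_zero.mp h0)
  exact (Finset.ne_of_mem_erase hj) h2.symm

private lemma Tgt_ext {χ g : ℝ → ℝ} {A B a b : ℝ} (hχ : ContDiff ℝ 1 χ)
    (hg : ContDiffOn ℝ 1 g (Ioo A B)) (hA : A < a) (hB : b < B) (h1 : ∀ x, x ≤ a → χ x = 0)
    (h2 : ∀ x, b ≤ x → χ x = 0) : ContDiff ℝ 1 (fun x => χ x * g x) := by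
  rw [contDiff_iff_contDiffAt]
  intro x
  by_cases hx1 : x ≤ A
  · refine (contDiffAt_const (c := (0 : ℝ))).congr_of_eventuallyEq ?_
    filter_upwards [eventually_lt_nhds (lt_of_le_of_lt hx1 hA)] with v hv
    rw [h1 v hv.le, zero_mul]
  · by_cases hx2 : B ≤ x
    · refine (contDiffAt_const (c := (0 : ℝ))).congr_of_eventuallyEq ?_
      filter_upwards [eventually_gt_nhds (lt_of_lt_of_le hB hx2)] with v hv
      rw [h2 v (le_of_lt hv), zero_mul]
    · exact hχ.contDiffAt.mul (hg.contDiffAt (Ioo_mem_nhds (not_le.mp hx1) (not_le.mp hx2)))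

/-! ### the cutoffs -/

/-- cutoff which increases on `[a, a + h]` and decreases on `[b - k, b]` -/
private noncomputable def Tgt_chi (a h b k x : ℝ) : ℝ :=
  Tgt_st ((x - a) / h) * Tgt_st ((b - x) / k)

private lemma Tgt_chi_contDiff (a h b k : ℝ) : ContDiff ℝ 1 (Tgt_chi a h b k) := by
  unfold Tgt_chi
  exact (Tgt_contDiff.comp (by fun_prop)).mul (Tgt_contDiff.comp (by fun_prop))

private lemma Tgt_chi_left {a h b k x : ℝ} (hh : 0 < h) (hx : x ≤ a) : Tgt_chi a h b k x = 0 := by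
  unfold Tgt_chi
  rw [Tgt_zero (div_nonpos_of_nonpos_of_nonneg (by linarith) hh.le), zero_mul]

private lemma Tgt_chi_right {a h b k x : ℝ} (hk : 0 < k) (hx : b ≤ x) :
    Tgt_chi a h b k x = 0 := by
  unfold Tgt_chi
  rw [Tgt_zero (u := (b - x) / k) (div_nonpos_of_nonpos_of_nonneg (by linarith) hk.le), mul_zero]

private lemma Tgt_chi_mid {a h b k x : ℝ} (hh : 0 < h) (hk : 0 < k) (h1 : a + h ≤ x)
    (h2 : x ≤ b - k) : Tgt_chi a h b k x = 1 := by
  unfold Tgt_chi
  rw [Tgt_one (by rw [le_div_iff₀ hh]; linarith), Tgt_one (by rw [le_div_iff₀ hk]; linarith),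
    mul_one]

private lemma Tgt_chi_derivL {a h b k x : ℝ} (hh : 0 < h) (hk : 0 < k) (h1 : a ≤ x)
    (h2 : x ≤ a + h) (h3 : x < b - k) (h4 : |1 - 2 * Tgt_chi a h b k x| ≤ 3 / 4) :
    ∃ d, 3 / 4 / h ≤ d ∧ HasDerivAt (Tgt_chi a h b k) d x := by
  have h5 : Tgt_chi a h b k x = Tgt_st ((x - a) / h) := by
    unfold Tgt_chi
    rw [Tgt_one (u := (b - x) / k) (by rw [le_div_iff₀ hk]; linarith), mul_one]
  rw [h5] at h4
  have h6 := Tgt_quant (div_nonneg (by linarith) hh.le) (by rw [div_le_one hh]; linarith) h4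
  refine ⟨Tgt_sd ((x - a) / h) * (1 / h), ?_, ?_⟩
  · rw [div_eq_mul_one_div]
    exact mul_le_mul_of_nonneg_right h6 (by positivity)
  · have h7 : HasDerivAt (fun x : ℝ => (x - a) / h) (1 / h) x :=
      ((hasDerivAt_id x).sub_const a).div_const h
    refine ((Tgt_hasDeriv ((x - a) / h)).comp x h7).congr_of_eventuallyEq ?_
    filter_upwards [eventually_lt_nhds h3] with v hv
    unfold Tgt_chi
    rw [Tgt_one (u := (b - v) / k) (by rw [le_div_iff₀ hk]; linarith), mul_one]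
    rfl

private lemma Tgt_chi_derivR {a h b k x : ℝ} (hh : 0 < h) (hk : 0 < k) (h1 : b - k ≤ x)
    (h2 : x ≤ b) (h3 : a + h < x) (h4 : |1 - 2 * Tgt_chi a h b k x| ≤ 3 / 4) :
    ∃ d, 3 / 4 / k ≤ d ∧ HasDerivAt (Tgt_chi a h b k) (-d) x := by
  have h5 : Tgt_chi a h b k x = Tgt_st ((b - x) / k) := by
    unfold Tgt_chi
    rw [Tgt_one (u := (x - a) / h) (by rw [le_div_iff₀ hh]; linarith), one_mul]
  rw [h5] at h4
  have h6 := Tgt_quant (div_nonneg (by linarith) hk.le) (by rw [div_le_one hk]; linarith) h4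
  refine ⟨Tgt_sd ((b - x) / k) * (1 / k), ?_, ?_⟩
  · rw [div_eq_mul_one_div]
    exact mul_le_mul_of_nonneg_right h6 (by positivity)
  · have h7 : HasDerivAt (fun x : ℝ => (b - x) / k) (-1 / k) x :=
      ((hasDerivAt_id x).const_sub b).div_const k
    have h8 := (Tgt_hasDeriv ((b - x) / k)).comp x h7
    have h9 : Tgt_sd ((b - x) / k) * (-1 / k) = -(Tgt_sd ((b - x) / k) * (1 / k)) := by ring
    rw [h9] at h8
    refine h8.congr_of_eventuallyEq ?_
    filter_upwards [eventually_gt_nhds h3] with v hv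
    have hv' : a + h < v := hv
    unfold Tgt_chi
    rw [Tgt_one (u := (v - a) / h) (by rw [le_div_iff₀ hh]; linarith), one_mul]
    rfl

/-! ### the ends -/

private noncomputable def Tgt_A {M : ℕ} (β : Fin M → ℝ) (δ R τ : ℝ) : Fin (M + 1) → ℝ :=
  Fin.cases (-(3 * R) - τ / 2) (fun i => β i + δ / 2)

private noncomputable def Tgt_H {M : ℕ} (δ τ : ℝ) : Fin (M + 1) → ℝ :=
  Fin.cases (τ / 2) (fun _ => δ / 2)

private noncomputable def Tgt_B {M : ℕ} (β : Fin M → ℝ) (δ R τ : ℝ) : Fin (M + 1) → ℝ :=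
  Fin.lastCases (3 * R + τ / 2) (fun i => β i - δ / 2)

private noncomputable def Tgt_K {M : ℕ} (δ τ : ℝ) : Fin (M + 1) → ℝ :=
  Fin.lastCases (τ / 2) (fun _ => δ / 2)

section ends

variable {M : ℕ} {β : Fin M → ℝ} {δ R τ : ℝ}

private lemma Tgt_A1 (hτ : 0 < τ) (s : Fin (M + 1)) :
    LO β δ R s - τ < Tgt_A β δ R τ s ∧ Tgt_A β δ R τ s ≤ LO β δ R s := by
  refine Fin.cases ?_ (fun i => ?_) s
  · simp only [LO, Tgt_A, Fin.cases_zero]
    constructor <;> linarith
  · simp only [LO, Tgt_A, Fin.cases_succ]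
    constructor <;> linarith

private lemma Tgt_B1 (hτ : 0 < τ) (s : Fin (M + 1)) :
    Tgt_B β δ R τ s < HI β δ R s + τ ∧ HI β δ R s ≤ Tgt_B β δ R τ s := by
  refine Fin.lastCases ?_ (fun i => ?_) s
  · simp only [HI, Tgt_B, Fin.lastCases_last]
    constructor <;> linarith
  · simp only [HI, Tgt_B, Fin.lastCases_castSucc]
    constructor <;> linarith

private lemma Tgt_H1 (hδ : 0 < δ) (hτ : 0 < τ) (s : Fin (M + 1)) : 0 < Tgt_H δ τ s := by
  refine Fin.cases ?_ (fun i => ?_) s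
  · simp only [Tgt_H, Fin.cases_zero]; linarith
  · simp only [Tgt_H, Fin.cases_succ]; linarith

private lemma Tgt_K1 (hδ : 0 < δ) (hτ : 0 < τ) (s : Fin (M + 1)) : 0 < Tgt_K δ τ s := by
  refine Fin.lastCases ?_ (fun i => ?_) s
  · simp only [Tgt_K, Fin.lastCases_last]; linarith
  · simp only [Tgt_K, Fin.lastCases_castSucc]; linarith

private lemma Tgt_AH (s : Fin (M + 1)) :
    Tgt_A β δ R τ s + Tgt_H δ τ s = LO' β δ R s := by
  refine Fin.cases ?_ (fun i => ?_) s
  · simp only [LO', Tgt_A, Tgt_H, Fin.cases_zero]; ring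
  · simp only [LO', Tgt_A, Tgt_H, Fin.cases_succ]; ring

private lemma Tgt_BK (s : Fin (M + 1)) :
    Tgt_B β δ R τ s - Tgt_K δ τ s = HI' β δ R s := by
  refine Fin.lastCases ?_ (fun i => ?_) s
  · simp only [HI', Tgt_B, Tgt_K, Fin.lastCases_last]; ring
  · simp only [HI', Tgt_B, Tgt_K, Fin.lastCases_castSucc]; ring

private lemma Tgt_LL (hδ : 0 < δ) (s : Fin (M + 1)) : LO β δ R s ≤ LO' β δ R s := by
  refine Fin.cases ?_ (fun i => ?_) s
  · simp only [LO, LO', Fin.cases_zero]; exact le_refl _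
  · simp only [LO, LO', Fin.cases_succ]; linarith

private lemma Tgt_HH (hδ : 0 < δ) (s : Fin (M + 1)) : HI' β δ R s ≤ HI β δ R s := by
  refine Fin.lastCases ?_ (fun i => ?_) s
  · simp only [HI, HI', Fin.lastCases_last]; exact le_refl _
  · simp only [HI, HI', Fin.lastCases_castSucc]; linarith

private lemma Tgt_LH (hδ : 0 < δ) (hM : 1 ≤ M) (sep : ∀ s s' : Fin M, s < s' → β s + 2 * δ < β s')
    (bd : ∀ s, -R + δ < β s ∧ β s < R - δ) (s : Fin (M + 1)) :
    LO' β δ R s < HI' β δ R s := by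
  have hR : 0 < R := by
    have := bd ⟨0, hM⟩
    linarith [this.1, this.2]
  refine Fin.cases ?_ (fun i => ?_) s
  · refine Fin.lastCases (motive := fun s => (s = 0) → LO' β δ R s < HI' β δ R s) ?_
      (fun i => ?_) (0 : Fin (M + 1)) rfl
    · intro h
      exfalso
      have := congrArg Fin.val h
      simp at this
      omega
    · intro h
      rw [HI', Fin.lastCases_castSucc, h, LO', Fin.cases_zero]
      have := (bd i).1
      linarith
  · refine Fin.lastCases (motive := fun s => (s = i.succ) → LO' β δ R s < HI' β δ R s) ?_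
      (fun j => ?_) i.succ rfl
    · intro h
      rw [HI', Fin.lastCases_last, h, LO', Fin.cases_succ]
      have := (bd i).2
      linarith
    · intro h
      rw [HI', Fin.lastCases_castSucc, h, LO', Fin.cases_succ]
      have hij : i < j := by
        rw [Fin.lt_def]
        have := congrArg Fin.val h
        simp at this
        omega
      have := sep i j hij
      linarith

private lemma Tgt_mono (hδ : 0 < δ) (sep : ∀ s s' : Fin M, s < s' → β s + 2 * δ < β s')
    {i j : Fin M} (h : i ≤ j) : β i ≤ β j := by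
  rcases h.lt_or_eq with h | h
  · have := sep i j h; linarith
  · rw [h]

/-- the cutoffs do not overlap -/
private lemma Tgt_BA (hδ : 0 < δ) (sep : ∀ s s' : Fin M, s < s' → β s + 2 * δ < β s')
    {s s' : Fin (M + 1)} (h : s < s') : Tgt_B β δ R τ s = HI β δ R s ∧
      Tgt_A β δ R τ s' = LO β δ R s' ∧ HI β δ R s ≤ LO β δ R s' := by
  obtain ⟨i, rfl⟩ : ∃ i : Fin M, i.castSucc = s :=
    ⟨s.castPred (ne_of_lt (lt_of_lt_of_le h (Fin.le_last _))), Fin.castSucc_castPred _ _⟩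
  obtain ⟨j, rfl⟩ : ∃ j : Fin M, j.succ = s' :=
    ⟨s'.pred (ne_of_gt (lt_of_le_of_lt (Fin.zero_le _) h)), Fin.succ_pred _ _⟩
  have hij : i ≤ j := by
    rw [Fin.le_def]
    have := Fin.lt_def.mp h
    simp at this
    omega
  have := Tgt_mono hδ sep hij
  refine ⟨?_, ?_, ?_⟩
  · simp only [Tgt_B, HI, Fin.lastCases_castSucc]
  · simp only [Tgt_A, LO, Fin.cases_succ]
  · simp only [HI, LO, Fin.cases_succ, Fin.lastCases_castSucc]
    linarith

end ends

private lemma Tgt_m {f : BP} {c m : ℕ} {α β' : ℝ} {ψ : Fin m → ℝ → ℝ} (hf : f.Monic)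
    (hd : f.natDegree = c) (hB : Brs f α β' m ψ) {x : ℝ} (hx : x ∈ Ioo α β') : m ≤ c := by
  classical
  have hmon : (sl f x).Monic := hf.map _
  have hd' : (sl f x).natDegree = c := by
    unfold sl
    rw [hf.natDegree_map, hd]
  have hinj := (hB.mono x hx).injective
  calc m = (Finset.univ.image (fun i => ψ i x)).card := by
        rw [Finset.card_image_of_injective _ hinj]; simp
    _ ≤ (sl f x).roots.toFinset.card := by
        refine Finset.card_le_card fun y hy => ?_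
        obtain ⟨i, -, rfl⟩ := Finset.mem_image.mp hy
        rw [Multiset.mem_toFinset, mem_roots hmon.ne_zero]
        exact (hB.root x hx _).mpr ⟨i, rfl⟩
    _ ≤ (sl f x).roots.card := Multiset.toFinset_card_le _
    _ ≤ c := (card_roots' _).trans hd'.le

private lemma Tgt_deg {c m : ℕ} (hc : 1 ≤ c) {ψ : Fin m → ℝ → ℝ} (r : Fin m → ℝ) {x : ℝ}
    (hmono : StrictMono fun i => ψ i x) (hm : m ≤ c) : (Tgt_q ψ r x).natDegree < c := by
  by_cases h0 : Tgt_q ψ r x = 0
  · rw [h0, natDegree_zero]; omega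
  · rw [natDegree_lt_iff_degree_lt h0]
    have h1 : (Tgt_q ψ r x).degree < (Finset.univ : Finset (Fin m)).card :=
      Lagrange.degree_interpolate_lt r (hmono.injective.injOn)
    rw [Finset.card_univ, Fintype.card_fin] at h1
    exact lt_of_lt_of_le h1 (by exact_mod_cast hm)

/-- [Tgt] The target function. -/
theorem thm_Tgt : St_Tgt := by
  classical
  intro c M f β δ R τ m ψ γ hS
  obtain ⟨hδ, hτ⟩ := hS.pos
  have hLH : ∀ s, LO' β δ R s < HI' β δ R s := Tgt_LH hδ hS.hM hS.sep hS.bd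
  obtain ⟨χ, hχ⟩ : ∃ χ : Fin (M + 1) → ℝ → ℝ, χ = fun s => Tgt_chi (Tgt_A β δ R τ s)
    (Tgt_H δ τ s) (Tgt_B β δ R τ s) (Tgt_K δ τ s) := ⟨_, rfl⟩
  have hcL : ∀ s x, x ≤ Tgt_A β δ R τ s → χ s x = 0 := fun s x hx => by
    rw [hχ]; exact Tgt_chi_left (Tgt_H1 hδ hτ s) hx
  have hcR : ∀ s x, Tgt_B β δ R τ s ≤ x → χ s x = 0 := fun s x hx => by
    rw [hχ]; exact Tgt_chi_right (Tgt_K1 hδ hτ s) hx
  have hcM : ∀ s x, x ∈ Icc (LO' β δ R s) (HI' β δ R s) → χ s x = 1 := fun s x hx => by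
    rw [hχ]
    exact Tgt_chi_mid (Tgt_H1 hδ hτ s) (Tgt_K1 hδ hτ s) (by rw [Tgt_AH]; exact hx.1)
      (by rw [Tgt_BK]; exact hx.2)
  obtain ⟨q, hq⟩ : ∃ q : Fin (M + 1) → ℝ → ℝ[X],
    q = fun s => Tgt_q (ψ s) (fun i => 1 - γ s i) := ⟨_, rfl⟩
  obtain ⟨t, ht⟩ : ∃ t : Fin c → ℝ → ℝ, t = fun (j : Fin c) x => (if (j : ℕ) = 0 then 1 else 0) -
    ∑ s, χ s x * (q s x).coeff (j : ℕ) := ⟨_, rfl⟩
  -- the values
  have hT : ∀ x y, ∑ j, t j x * y ^ (j : ℕ) = 1 - ∑ s, χ s x * (q s x).eval y := by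
    intro x y
    have h1 : ∀ s, χ s x * (q s x).eval y = ∑ j : Fin c, χ s x * (q s x).coeff j * y ^ (j : ℕ) := by
      intro s
      by_cases h0 : χ s x = 0
      · simp [h0]
      · have hx : x ∈ Ioo (LO β δ R s - τ) (HI β δ R s + τ) := by
          constructor
          · by_contra hcon
            exact h0 (hcL s x ((not_lt.mp hcon).trans (Tgt_A1 hτ s).1.le))
          · by_contra hcon
            exact h0 (hcR s x ((Tgt_B1 hτ s).1.le.trans (not_lt.mp hcon)))
        have hdeg : (q s x).natDegree < c := by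
          rw [hq]
          exact Tgt_deg hS.hc _ ((hS.brs s).mono x hx) (Tgt_m hS.monic hS.deg (hS.brs s) hx)
        rw [eval_eq_sum_range' hdeg, Finset.mul_sum,
          Fin.sum_univ_eq_sum_range (fun j => χ s x * (q s x).coeff j * y ^ j) c]
        exact Finset.sum_congr rfl fun j _ => by ring
    have h2 : ∑ j : Fin c, (if (j : ℕ) = 0 then (1 : ℝ) else 0) * y ^ (j : ℕ) = 1 := by
      rw [Fin.sum_univ_eq_sum_range (fun j => (if j = 0 then (1 : ℝ) else 0) * y ^ j) c,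
        Finset.sum_eq_single 0]
      · simp
      · intro b _ hb
        simp [hb]
      · intro h
        exfalso
        have := hS.hc
        exact h (Finset.mem_range.mpr (by omega))
    rw [ht]
    simp only [sub_mul, Finset.sum_sub_distrib, Finset.sum_mul]
    rw [h2, Finset.sum_comm]
    congr 1
    exact Finset.sum_congr rfl fun s _ => (h1 s).symm
  -- vanishing of the other cutoffs
  have hv : ∀ s s' x, s' ≠ s → x ∈ Icc (LO β δ R s) (HI β δ R s) → χ s' x = 0 := by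
    intro s s' x hne hx
    rcases lt_or_gt_of_ne hne with h | h
    · obtain ⟨b1, -, b3⟩ := Tgt_BA (R := R) (τ := τ) hδ hS.sep h
      refine hcR s' x ?_
      rw [b1]
      exact b3.trans hx.1
    · obtain ⟨-, b2, b3⟩ := Tgt_BA (R := R) (τ := τ) hδ hS.sep h
      refine hcL s' x ?_
      rw [b2]
      exact hx.2.trans b3
  have hψ : ∀ s i x, x ∈ Icc (LO β δ R s) (HI β δ R s) →
      ∑ j, t j x * (ψ s i x) ^ (j : ℕ) = 1 - χ s x * (1 - γ s i) := by
    intro s i x hx
    rw [hT, Finset.sum_eq_single s (fun s' _ hs' => by rw [hv s s' x hs' hx, zero_mul])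
      (fun h => absurd (Finset.mem_univ s) h)]
    have hx' : x ∈ Ioo (LO β δ R s - τ) (HI β δ R s + τ) :=
      ⟨by linarith [hx.1], by linarith [hx.2]⟩
    have h1 : (q s x).eval (ψ s i x) = 1 - γ s i := by
      rw [hq]
      exact Lagrange.eval_interpolate_at_node (fun i => 1 - γ s i)
        ((hS.brs s).mono x hx').injective.injOn (Finset.mem_univ i)
    rw [h1]
  have hψd : ∀ s i x, x ∈ Ioo (LO β δ R s) (HI β δ R s) → γ s i = -1 → ∀ d : ℝ,
      HasDerivAt (χ s) d x →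
      deriv (fun x' => ∑ j, t j x' * (ψ s i x') ^ (j : ℕ)) x = -(2 * d) := by
    intro s i x hx hγ d hd
    have h1 : HasDerivAt (fun x' => 1 - χ s x' * 2) (-(d * 2)) x := by
      have := (hd.mul_const 2).const_sub 1
      exact this
    have h2 : (fun x' => ∑ j, t j x' * (ψ s i x') ^ (j : ℕ)) =ᶠ[𝓝 x]
        fun x' => 1 - χ s x' * 2 := by
      filter_upwards [Ioo_mem_nhds hx.1 hx.2] with v hv'
      rw [hψ s i v ⟨hv'.1.le, hv'.2.le⟩, hγ]
      norm_num
    rw [(h1.congr_of_eventuallyEq h2).deriv, mul_comm d 2]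
  refine ⟨t, ?_, ?_, ?_, ?_, ?_, ?_⟩
  · -- continuously differentiable
    intro j
    rw [ht]
    refine contDiff_const.sub (ContDiff.sum fun s _ => ?_)
    refine Tgt_ext (A := LO β δ R s - τ) (B := HI β δ R s + τ) (a := Tgt_A β δ R τ s)
      (b := Tgt_B β δ R τ s) ?_ ?_ (Tgt_A1 hτ s).1 (Tgt_B1 hτ s).1 (hcL s) (hcR s)
    · rw [hχ]; exact Tgt_chi_contDiff _ _ _ _
    · rw [hq]
      exact Tgt_CC_q (ψ s) _ (hS.brs s).diff (hS.brs s).mono j
  · -- the cores
    intro s₀ x hx y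
    rw [hT]
    have h1 : ∀ s, χ s x = 0 := by
      intro s
      by_cases h : s ≤ s₀.castSucc
      · obtain ⟨i, rfl⟩ : ∃ i : Fin M, i.castSucc = s :=
          ⟨s.castPred (ne_of_lt (lt_of_le_of_lt h (Fin.castSucc_lt_last _))),
            Fin.castSucc_castPred _ _⟩
        have hi : i ≤ s₀ := by
          rw [Fin.le_def] at h ⊢
          simpa using h
        refine hcR _ x ?_
        have h2 := Tgt_mono hδ hS.sep hi
        simp only [Tgt_B, Fin.lastCases_castSucc]
        linarith [hx.1]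
      · have h' := not_le.mp h
        obtain ⟨j, rfl⟩ : ∃ j : Fin M, j.succ = s :=
          ⟨s.pred (ne_of_gt (lt_of_le_of_lt (Fin.zero_le _) h')), Fin.succ_pred _ _⟩
        have hj : s₀ ≤ j := by
          rw [Fin.lt_def] at h'
          rw [Fin.le_def]
          simp at h'
          omega
        refine hcL _ x ?_
        have h2 := Tgt_mono hδ hS.sep hj
        simp only [Tgt_A, Fin.cases_succ]
        linarith [hx.2]
    rw [Finset.sum_eq_zero (fun s _ => by rw [h1 s, zero_mul]), sub_zero]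
  · intro s i hγ x hx
    rw [hψ s i x hx, hγ]
    norm_num
  · intro s i hγ x hx
    rw [hψ s i x ⟨(Tgt_LL hδ s).trans hx.1, hx.2.trans (Tgt_HH hδ s)⟩, hγ, hcM s x hx]
    norm_num
  · -- right of a core
    intro s i hγ x hx habs
    have e1 : LO β δ R s.succ = β s + δ / 2 := by simp only [LO, Fin.cases_succ]
    have e2 : LO' β δ R s.succ = β s + δ := by simp only [LO', Fin.cases_succ]
    have e3 : Tgt_A β δ R τ s.succ = β s + δ / 2 := by simp only [Tgt_A, Fin.cases_succ]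
    have e4 : Tgt_H δ τ s.succ = δ / 2 := by simp only [Tgt_H, Fin.cases_succ]
    have hlt : x < HI' β δ R s.succ := lt_of_le_of_lt (by rw [e2]; exact hx.2) (hLH s.succ)
    have hHI : x < HI β δ R s.succ := lt_of_lt_of_le hlt (Tgt_HH hδ _)
    rw [hψ s.succ i x ⟨by rw [e1]; exact hx.1, hHI.le⟩, hγ] at habs
    have hLO : LO β δ R s.succ < x := by
      rcases hx.1.lt_or_eq with h | h
      · rw [e1]; exact h
      · exfalso
        rw [hcL s.succ x (by rw [e3, ← h]), zero_mul, sub_zero, abs_one] at habs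
        norm_num at habs
    have habs' : |1 - 2 * Tgt_chi (Tgt_A β δ R τ s.succ) (Tgt_H δ τ s.succ)
        (Tgt_B β δ R τ s.succ) (Tgt_K δ τ s.succ) x| ≤ 3 / 4 := by
      rw [hχ] at habs
      rw [show (1 : ℝ) - -1 = 2 by norm_num, mul_comm] at habs
      exact habs
    obtain ⟨d, hd1, hd2⟩ := Tgt_chi_derivL (Tgt_H1 hδ hτ _) (Tgt_K1 hδ hτ _)
      (by rw [e3]; exact hx.1) (by rw [Tgt_AH, e2]; exact hx.2) (by rw [Tgt_BK]; exact hlt) habs'
    rw [hψd s.succ i x ⟨hLO, hHI⟩ hγ d (by rw [hχ]; exact hd2)]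
    rw [e4] at hd1
    have h5 : (3 / 4 : ℝ) / (δ / 2) * 2 = 3 / δ := by field_simp; norm_num
    linarith
  · -- left of a core
    intro s i hγ x hx habs
    have e1 : HI β δ R s.castSucc = β s - δ / 2 := by simp only [HI, Fin.lastCases_castSucc]
    have e2 : HI' β δ R s.castSucc = β s - δ := by simp only [HI', Fin.lastCases_castSucc]
    have e3 : Tgt_B β δ R τ s.castSucc = β s - δ / 2 := by
      simp only [Tgt_B, Fin.lastCases_castSucc]
    have e4 : Tgt_K δ τ s.castSucc = δ / 2 := by simp only [Tgt_K, Fin.lastCases_castSucc]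
    have hlt : LO' β δ R s.castSucc < x :=
      lt_of_lt_of_le (hLH s.castSucc) (by rw [e2]; exact hx.1)
    have hLO : LO β δ R s.castSucc < x := lt_of_le_of_lt (Tgt_LL hδ _) hlt
    rw [hψ s.castSucc i x ⟨hLO.le, by rw [e1]; exact hx.2⟩, hγ] at habs
    have hHI : x < HI β δ R s.castSucc := by
      rcases hx.2.lt_or_eq with h | h
      · rw [e1]; exact h
      · exfalso
        rw [hcR s.castSucc x (by rw [e3, ← h]), zero_mul, sub_zero, abs_one] at habs
        norm_num at habs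
    have habs' : |1 - 2 * Tgt_chi (Tgt_A β δ R τ s.castSucc) (Tgt_H δ τ s.castSucc)
        (Tgt_B β δ R τ s.castSucc) (Tgt_K δ τ s.castSucc) x| ≤ 3 / 4 := by
      rw [hχ] at habs
      rw [show (1 : ℝ) - -1 = 2 by norm_num, mul_comm] at habs
      exact habs
    obtain ⟨d, hd1, hd2⟩ := Tgt_chi_derivR (Tgt_H1 hδ hτ _) (Tgt_K1 hδ hτ _)
      (by rw [Tgt_BK, e2]; exact hx.1) (by rw [e3]; exact hx.2) (by rw [Tgt_AH]; exact hlt) habs'
    rw [hψd s.castSucc i x ⟨hLO, hHI⟩ hγ (-d) (by rw [hχ]; exact hd2)]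
    rw [e4] at hd1
    have h5 : (3 / 4 : ℝ) / (δ / 2) * 2 = 3 / δ := by field_simp; norm_num
    linarith

end Pool.Agent.NCC
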