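import Pool.Agent.NCC.StS

/-!
# NCC: top component of a product
-/

set_option autoImplicit false

namespace Pool.Agent.NCC

open MvPolynomial Module
open scoped ComplexConjugate

private theorem Top_zero {p : CP} {m : ℕ} (h : p.totalDegree ≤ m) {u : Fin 2 →₀ ℕ}
    (hu : m < u.degree) : coeff u p = 0 := by
  apply coeff_eq_zero_of_totalDegree_lt
  exact lt_of_le_of_lt h hu

/-- The top component of a product is the product of the top components. -/
theorem thm_Top : St_Top := by
  intro p q m n hp hq
  ext s
  rw [coeff_homogeneousComponent, coeff_mul, coeff_mul]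
  have key : ∀ x ∈ Finset.HasAntidiagonal.antidiagonal s,
      coeff x.1 (homogeneousComponent m p) * coeff x.2 (homogeneousComponent n q) =
      if s.degree = m + n then coeff x.1 p * coeff x.2 q else 0 := by
    intro x hx
    rw [Finset.HasAntidiagonal.mem_antidiagonal] at hx
    have hd : s.degree = x.1.degree + x.2.degree := by
      rw [← hx, map_add]
    rw [coeff_homogeneousComponent, coeff_homogeneousComponent]
    rcases lt_trichotomy x.1.degree m with h1 | h1 | h1
    · rw [if_neg (by omega), zero_mul]
      split_ifs with h2
      · rw [Top_zero hq (by omega), mul_zero]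
      · rfl
    · rw [if_pos h1]
      by_cases h2 : x.2.degree = n
      · rw [if_pos h2, if_pos (by omega)]
      · rw [if_neg h2, if_neg (by omega), mul_zero]
    · rw [if_neg (by omega), zero_mul]
      split_ifs with h2
      · rw [Top_zero hp h1, zero_mul]
      · rfl
  rw [Finset.sum_congr rfl key]
  split_ifs with h
  · rfl
  · rw [Finset.sum_const_zero]

end Pool.Agent.NCC
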