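import Pool.Agent.NCC.StS

/-!
# NCC, module Zero: a form of positive degree in two variables has a nontrivial zero
-/

set_option autoImplicit false

namespace Pool.Agent.NCC

open MvPolynomial Module

private lemma Zero_smul (m : ℕ) (H : CP) (hH : H.IsHomogeneous m) (c : ℂ) (v : Fin 2 → ℂ) :
    eval (fun i => c * v i) H = c ^ m * eval v H := by
  rw [eval_eq', eval_eq', Finset.mul_sum]
  refine Finset.sum_congr rfl fun d hd => ?_
  have h1 : d 0 + d 1 = m := by
    have h2 := hH (mem_support_iff.mp hd)
    simpa [Finsupp.weight_apply, Finsupp.sum_fintype, Fin.sum_univ_two] using h2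
  rw [Fin.prod_univ_two, Fin.prod_univ_two, ← h1, pow_add]
  ring

private lemma Zero_ev (g : Fin 2 → Polynomial ℂ) (H : CP) (t : ℂ) :
    (aeval g H : Polynomial ℂ).eval t = eval (fun i => (g i).eval t) H := by
  induction H using MvPolynomial.induction_on with
  | C a => simp
  | add p q hp hq => simp [hp, hq]
  | mul_X p i hp => simp [hp]

theorem thm_Zero : St_Zero := by
  intro m H hm hH
  set q : Polynomial ℂ := aeval ![Polynomial.X, 1] H with hq
  set r : Polynomial ℂ := aeval ![1, Polynomial.X] H with hr
  have hqe : ∀ t : ℂ, q.eval t = eval ![t, 1] H := by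
    intro t
    rw [hq, Zero_ev]
    congr 1
    congr 1
    funext i
    fin_cases i <;> simp
  have hre : ∀ t : ℂ, r.eval t = eval ![1, t] H := by
    intro t
    rw [hr, Zero_ev]
    congr 1
    congr 1
    funext i
    fin_cases i <;> simp
  by_cases hdeg : q.degree = 0
  · obtain ⟨c, hc⟩ : ∃ c, q = Polynomial.C c := ⟨_, Polynomial.eq_C_of_degree_eq_zero hdeg⟩
    have h1 : ∀ s : ℂ, s ≠ 0 → r.eval s = (Polynomial.C c * Polynomial.X ^ m).eval s := by
      intro s hs
      have h2 := Zero_smul m H hH s ![s⁻¹, 1]
      have h3 : (fun i => s * (![s⁻¹, 1] : Fin 2 → ℂ) i) = ![1, s] := by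
        funext i
        fin_cases i
        · simp [hs]
        · simp
      rw [h3] at h2
      rw [hre, h2, ← hqe, hc]
      simp
      ring
    have h4 : r = Polynomial.C c * Polynomial.X ^ m := by
      refine Polynomial.eq_of_infinite_eval_eq _ _ ?_
      refine Set.Infinite.mono (s := {s : ℂ | s ≠ 0}) (fun s hs => h1 s hs) ?_
      exact Set.Finite.infinite_compl (Set.finite_singleton (0 : ℂ))
    refine ⟨![1, 0], ?_, ?_⟩
    · intro h
      have := congrFun h 0
      simp at this
    · rw [← hre, h4]
      simp
      right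
      omega
  · obtain ⟨t, ht⟩ := IsAlgClosed.exists_root q hdeg
    refine ⟨![t, 1], ?_, ?_⟩
    · intro h
      have := congrFun h 1
      simp at this
    · rw [← hqe]
      exact ht

end Pool.Agent.NCC
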