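import Mathlib
import Pool.Agent.NCC.Fin
import Pool.Agent.NCC.Top
import Pool.Agent.NCC.Zero
import Pool.Agent.NCC.Rel
import Pool.Agent.NCC.Red
import Pool.Agent.NCC.DimP
import Pool.Agent.NCC.Hilb
import Pool.Agent.NCC.QFin
import Pool.Agent.NCC.Soc
import Pool.Agent.NCC.Lfun
import Pool.Agent.NCC.Bez
import Pool.Agent.NCC.FinZ
import Pool.Agent.NCC.Split
import Pool.Agent.NCC.Core
import Pool.Agent.NCC.Iso
import Pool.Agent.NCC.Clo
import Pool.Agent.NCC.SC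
import Pool.Agent.NCC.Ng
import Pool.Agent.NCC.Schur
import Pool.Agent.NCC.Semi
import Pool.Agent.NCC.Par
import Pool.Agent.NCC.PD0
import Pool.Agent.NCC.MId
import Pool.Agent.NCC.DetF
import Pool.Agent.NCC.FZer
import Pool.Agent.NCC.KId
import Pool.Agent.NCC.JB
import Pool.Agent.NCC.JA
import Pool.Agent.NCC.Jump
import Pool.Agent.NCC.JY
import Pool.Agent.NCC.Large
import Pool.Agent.NCC.NM
import Pool.Agent.NCC.Fac
import Pool.Agent.NCC.Good
import Pool.Agent.NCC.Nuij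
import Pool.Agent.NCC.NuB
import Pool.Agent.NCC.Pers
import Pool.Agent.NCC.Sh
import Pool.Agent.NCC.Pert
import Pool.Agent.NCC.BrL
import Pool.Agent.NCC.Br
import Pool.Agent.NCC.Sig
import Pool.Agent.NCC.Slab
import Pool.Agent.NCC.Box
import Pool.Agent.NCC.SgnSum
import Pool.Agent.NCC.Conv
import Pool.Agent.NCC.Apx
import Pool.Agent.NCC.Tgt
import Pool.Agent.NCC.Gc
import Pool.Agent.NCC.Low
import Pool.Agent.NCC.Gt
import Pool.Agent.NCC.Geo
import Pool.Agent.NCC.Zr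
import Pool.Agent.NCC.Cnt
import Pool.Agent.NCC.NA
import Pool.Agent.NCC.NB
import Pool.Agent.NCC.Rt
import Pool.Agent.NCC.SD
import Pool.Agent.NCC.DS


/-!
# NCC: all statements hold
-/

set_option autoImplicit false

namespace Pool.Agent.NCC

theorem QFin_holds : St_QFin := thm_QFin (thm_Hilb thm_Top (thm_Red thm_Top) thm_DimP)

theorem SC_holds : St_SC :=
  thm_SC (thm_Rel thm_Top thm_Zero) QFin_holds
    (thm_Lfun QFin_holds (thm_Soc thm_Top (thm_Red thm_Top)))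
    (thm_Bez thm_Top) (thm_FinZ QFin_holds) thm_Split thm_Core thm_Iso

theorem NM_holds : St_NM :=
  thm_NM thm_Ng (thm_Semi thm_Ng) thm_PD0 thm_MId (thm_DetF thm_MId) thm_FZer
    (thm_JB (thm_Schur thm_Ng) (thm_Semi thm_Ng) thm_Ng (thm_DetF thm_MId))
    (thm_JA (thm_Schur thm_Ng) (thm_Semi thm_Ng) thm_Ng (thm_DetF thm_MId) (thm_KId thm_MId))
    (thm_JY thm_Ng (thm_Semi thm_Ng) (thm_Par thm_Ng) thm_MId thm_Jump)
    (thm_Large thm_Ng thm_MId)

theorem Geo_holds : St_Geo :=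
  thm_Geo thm_Fac thm_Good (thm_Pert (thm_NuB thm_Nuij) thm_Pers (thm_Sh thm_Pers)) (thm_Br thm_BrL)
    (thm_Sig (thm_Br thm_BrL)) thm_Slab

theorem Cnt_holds : St_Cnt :=
  thm_Cnt thm_Box thm_SgnSum (thm_Zr (thm_Gt (thm_Gc thm_Apx thm_Tgt) thm_Low) thm_Conv)

theorem NA_holds : St_NA := thm_NA Geo_holds Cnt_holds

end Pool.Agent.NCC
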