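import Mathlib
import Pool.Agent.Helper45.NC.Final

/-!
# NCC: eigenvalues of normal matrices and of their normal compressions (MP_ca8ee9_an), all `k`, `n`

Definitions.
-/

set_option autoImplicit false

namespace Pool.Agent.NCC

open MvPolynomial Module
open scoped ComplexConjugate

/-! ### definitions of the result -/

/-- real polynomials in two variables -/
abbrev RP := MvPolynomial (Fin 2) ℝ

/-- complex polynomials in two variables -/
abbrev CP := MvPolynomial (Fin 2) ℂ

/-- the leading form -/
noncomputable def lead (f : RP) : RP := homogeneousComponent f.totalDegree f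

/-- the Jacobian determinant -/
noncomputable def jac (f g : RP) : RP := pderiv 0 f * pderiv 1 g - pderiv 1 f * pderiv 0 g

/-- the point of the real plane -/
noncomputable def pt (z : ℂ) : Fin 2 → ℝ := ![z.re, z.im]

/-- `z` is a common real zero of `f` and `g` -/
def Zer (f g : RP) (z : ℂ) : Prop := eval (pt z) f = 0 ∧ eval (pt z) g = 0

/-- the leading forms have no common complex zero except `0`, and all common real zeros are simple -/
structure Regular (f g : RP) : Prop where
  lead : ∀ v : Fin 2 → ℂ, aeval v (lead f) = 0 → aeval v (lead g) = 0 → v = 0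
  simple : ∀ z : ℂ, Zer f g z → eval (pt z) (jac f g) ≠ 0

/-- `b` lists the common real zeros with positive, `a` those with negative Jacobian determinant -/
def Lists (f g : RP) {k n : ℕ} (a : Fin k → ℂ) (b : Fin n → ℂ) : Prop :=
  Function.Injective a ∧ Function.Injective b ∧
  (∀ z : ℂ, z ∈ Set.range a ↔ Zer f g z ∧ eval (pt z) (jac f g) < 0) ∧
  (∀ z : ℂ, z ∈ Set.range b ↔ Zer f g z ∧ 0 < eval (pt z) (jac f g))

/-! ### sufficiency -/

/-- top components `F_c` and `G_d` are relatively prime -/
structure Pair (F G : CP) (c d : ℕ) : Prop where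
  hc : 1 ≤ c
  hd : 1 ≤ d
  hF : F.totalDegree ≤ c
  hG : G.totalDegree ≤ d
  F0 : homogeneousComponent c F ≠ 0
  G0 : homogeneousComponent d G ≠ 0
  rel : IsRelPrime (homogeneousComponent c F) (homogeneousComponent d G)

noncomputable abbrev II (F G : CP) : Ideal CP := Ideal.span {F, G}

noncomputable abbrev QQ (F G : CP) := CP ⧸ II F G

/-- the class of a polynomial -/
noncomputable def mkq (F G : CP) : CP →ₐ[ℂ] QQ F G := Ideal.Quotient.mkₐ ℂ (II F G)

/-- polynomials of degree at most `N` (`0` for negative `N`) -/
noncomputable def Pd (N : ℤ) : Submodule ℂ CP :=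
  restrictSupport ℂ {s : Fin 2 →₀ ℕ | ((s 0 + s 1 : ℕ) : ℤ) ≤ N}

/-- the image of `Pd N` in the quotient -/
noncomputable def Im (F G : CP) (N : ℤ) : Submodule ℂ (QQ F G) := (Pd N).map (mkq F G).toLinearMap

/-- dimension of `Pd N` -/
def DD (N : ℤ) : ℕ := (N + 1).toNat * (N + 2).toNat / 2

/-- complexification -/
noncomputable def cx (f : RP) : CP := map (algebraMap ℝ ℂ) f

end Pool.Agent.NCC
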