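import Pool.Agent.NCC.Defs

/-!
# NCC: definitions for the necessity part
-/

set_option autoImplicit false

namespace Pool.Agent.NCC

open Polynomial Matrix Filter Topology
open scoped ComplexConjugate

/-- real polynomials in `x` (inner variable) and `y` (outer variable) -/
abbrev BP := Polynomial (Polynomial ℝ)

/-- the polynomial in `y` obtained by fixing `x` -/
noncomputable def sl (F : BP) (x : ℝ) : ℝ[X] := F.map (evalRingHom x)

/-- value -/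
noncomputable def ev (F : BP) (x y : ℝ) : ℝ := (sl F x).eval y

/-- total degree at most `c` -/
def TD (F : BP) (c : ℕ) : Prop := ∀ j, F.coeff j ≠ 0 → (F.coeff j).natDegree + j ≤ c

/-- the form of degree `c` at `(1, s)`, a polynomial in `s` -/
noncomputable def lf (F : BP) (c : ℕ) : ℝ[X] :=
  ∑ j ∈ Finset.range (c + 1), C ((F.coeff j).coeff (c - j)) * X ^ j

open Classical in
/-- number of roots of `F (x, ·)` between `y₁` and `y₂`, with multiplicity -/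
noncomputable def cnt (F : BP) (x y₁ y₂ : ℝ) : ℕ :=
  ((sl F x).roots.filter (fun y => y₁ < y ∧ y < y₂)).card

/-- number of negative eigenvalues of a Hermitian matrix -/
noncomputable def ng {m : Type} [Fintype m] [DecidableEq m] (N : Matrix m m ℂ) : ℕ :=
  (N.charpoly.roots.filter (fun z => z.re < 0)).card

/-- real parts and imaginary parts, as diagonal matrices -/
noncomputable def dre {n : ℕ} (b : Fin n → ℂ) : Matrix (Fin n) (Fin n) ℂ :=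
  diagonal fun l => ((b l).re : ℂ)

noncomputable def dimg {n : ℕ} (b : Fin n → ℂ) : Matrix (Fin n) (Fin n) ℂ :=
  diagonal fun l => ((b l).im : ℂ)

/-- data of a compression: `[W E]` is unitary, `Wᴴ diag(b) W = diag(a)`, and
`B₂ E - B₁ E S = - E Gᴴ` where `B₁`, `B₂` are the diagonal matrices of the real and imaginary parts of `b` -/
structure PD {k c : ℕ} (a : Fin k → ℂ) (b : Fin (k + c) → ℂ) (W : Matrix (Fin (k + c)) (Fin k) ℂ)
    (E : Matrix (Fin (k + c)) (Fin c) ℂ) (S G : Matrix (Fin c) (Fin c) ℂ) : Prop where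
  hW : Wᴴ * W = 1
  hE : Eᴴ * E = 1
  hWE : Wᴴ * E = 0
  hsum : W * Wᴴ + E * Eᴴ = 1
  hS : S.IsHermitian
  hA : Wᴴ * diagonal b * W = diagonal a
  hG : dimg b * E = dre b * E * S - E * Gᴴ

/-- `y - x S + G` -/
noncomputable def PP {c : ℕ} (S G : Matrix (Fin c) (Fin c) ℂ) (x y : ℝ) : Matrix (Fin c) (Fin c) ℂ :=
  (y : ℂ) • 1 - (x : ℂ) • S + G

/-- `Θ x = ∑ ε_l* ε_l / (x - x_l)`, `ε_l` the rows of `E` -/
noncomputable def Th {n c : ℕ} (b : Fin n → ℂ) (E : Matrix (Fin n) (Fin c) ℂ) (x : ℝ) :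
    Matrix (Fin c) (Fin c) ℂ :=
  Eᴴ * diagonal (fun l => ((1 / (x - (b l).re) : ℝ) : ℂ)) * E

/-- `∑ ε_l* ε_l (y - y_l) / (x - x_l) - S` -/
noncomputable def Hm {n c : ℕ} (b : Fin n → ℂ) (E : Matrix (Fin n) (Fin c) ℂ)
    (S : Matrix (Fin c) (Fin c) ℂ) (x y : ℝ) : Matrix (Fin c) (Fin c) ℂ :=
  Eᴴ * diagonal (fun l => (((y - (b l).im) / (x - (b l).re) : ℝ) : ℂ)) * E - S

/-- weights of the points: `+ 1` at the `b l`, `- 1` at the `a j` -/
noncomputable def wt {k n : ℕ} (a : Fin k → ℂ) (b : Fin n → ℂ) : ℂ →₀ ℤ :=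
  ∑ l, Finsupp.single (b l) 1 - ∑ j, Finsupp.single (a j) 1

/-- signature data: a monic polynomial `F` in `y` of degree and total degree `c`, weights `w` of finitely
many points, and an integer function `nn` on the complement of `F = 0` and of the vertical lines
through the points -/
structure SigData (c : ℕ) (F : BP) (w : ℂ →₀ ℤ) (nn : ℝ → ℝ → ℤ) : Prop where
  monic : F.Monic
  deg : F.natDegree = c
  td : TD F c
  lfs : (lf F c).Splits
  inj : ∀ z ∈ w.support, ∀ z' ∈ w.support, z.re = z'.re → z = z'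
  zero : ∀ z ∈ w.support, ev F z.re z.im = 0
  loc : ∀ x y : ℝ, (∀ z ∈ w.support, z.re ≠ x) → ev F x y ≠ 0 →
    ∀ᶠ q : ℝ × ℝ in 𝓝 (x, y), nn q.1 q.2 = nn x y
  jump : ∀ x : ℝ, (∀ z ∈ w.support, z.re ≠ x) → ∀ y₁ y₂ : ℝ, y₁ < y₂ → ev F x y₁ ≠ 0 →
    ev F x y₂ ≠ 0 → |nn x y₁ - nn x y₂| ≤ cnt F x y₁ y₂ ∧
      (nn x y₁ - nn x y₂ - cnt F x y₁ y₂) % 2 = 0
  right : ∃ M : ℝ, ∀ x : ℝ, M ≤ x → (sl F x).Splits ∧ ∀ y₁ y₂ : ℝ, y₁ < y₂ → ev F x y₁ ≠ 0 →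
    ev F x y₂ ≠ 0 → nn x y₁ - nn x y₂ = cnt F x y₁ y₂
  left : ∃ M : ℝ, ∀ x : ℝ, x ≤ M → (sl F x).Splits ∧ ∀ y₁ y₂ : ℝ, y₁ < y₂ → ev F x y₁ ≠ 0 →
    ev F x y₂ ≠ 0 → nn x y₁ - nn x y₂ = - (cnt F x y₁ y₂ : ℤ)
  cross : ∃ Y₀ : Finset ℝ, ∀ z ∈ w.support, ∀ y : ℝ, y ∉ Y₀ → ev F z.re y ≠ 0 →
    ∀ᶠ h : ℝ in 𝓝[>] 0, nn (z.re + h) y - nn (z.re - h) y = if z.im < y then - w z else w z

/-- approximation of the weights by index divisors of regular pairs, with a bounded number of zeros -/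
def Approx (c : ℕ) (w : ℂ →₀ ℤ) : Prop :=
  ∃ (P : Finset ℂ) (K : ℕ), w.support ⊆ P ∧ ∀ η : ℝ, 0 < η →
    ∃ (f g : RP) (Zp Zm : Finset ℂ) (π : ℂ → ℂ), Regular f g ∧ f.totalDegree = c ∧
      (∀ z, z ∈ Zp ↔ Zer f g z ∧ 0 < MvPolynomial.eval (pt z) (jac f g)) ∧
      (∀ z, z ∈ Zm ↔ Zer f g z ∧ MvPolynomial.eval (pt z) (jac f g) < 0) ∧
      Zp.card ≤ K ∧ Zm.card ≤ K ∧ (∀ z ∈ Zp ∪ Zm, π z ∈ P ∧ dist z (π z) < η) ∧
      ∀ p ∈ P, ((Zp.filter (fun z => π z = p)).card : ℤ) - (Zm.filter (fun z => π z = p)).card = w p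

end Pool.Agent.NCC
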