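import Pool.Agent.NCC.StA

/-!
# NCC : [Nuij] The operator `q + e q'` separates real roots.

MP_ca8ee9_an (captain: helper1).
-/

set_option autoImplicit false

namespace Pool.Agent.NCC

open Polynomial Filter Topology Set

/-- a product of linear polynomials -/
private noncomputable def Nuij_P (m : Multiset ℝ) : ℝ[X] := (m.map fun a => X - C a).prod

/-- the inequality of Laguerre -/
private lemma Nuij_lag (m : Multiset ℝ) (y : ℝ) :
    (0 ≤ (derivative (Nuij_P m)).eval y ^ 2 -
      (Nuij_P m).eval y * (derivative (derivative (Nuij_P m))).eval y) ∧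
    (m ≠ 0 → (Nuij_P m).eval y ≠ 0 → 0 < (derivative (Nuij_P m)).eval y ^ 2 -
      (Nuij_P m).eval y * (derivative (derivative (Nuij_P m))).eval y) := by
  induction m using Multiset.induction_on with
  | empty => simp [Nuij_P]
  | cons a m ih =>
    have h1 : Nuij_P (a ::ₘ m) = (X - C a) * Nuij_P m := by simp [Nuij_P]
    have h2 : (derivative (Nuij_P (a ::ₘ m))).eval y ^ 2 -
        (Nuij_P (a ::ₘ m)).eval y * (derivative (derivative (Nuij_P (a ::ₘ m)))).eval y =
        (Nuij_P m).eval y ^ 2 + (y - a) ^ 2 * ((derivative (Nuij_P m)).eval y ^ 2 -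
          (Nuij_P m).eval y * (derivative (derivative (Nuij_P m))).eval y) := by
      rw [h1]
      simp only [derivative_mul, derivative_sub, derivative_X, derivative_C, sub_zero, one_mul,
        derivative_add, eval_add, eval_mul, eval_sub, eval_X, eval_C]
      ring
    rw [h2]
    have h3 := mul_nonneg (sq_nonneg (y - a)) ih.1
    refine ⟨by positivity, fun _ h4 => ?_⟩
    have h5 : (Nuij_P m).eval y ≠ 0 := by
      intro h6
      apply h4
      rw [h1, eval_mul, h6, mul_zero]
    have h6 : 0 < (Nuij_P m).eval y ^ 2 := by positivity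
    linarith

/-- a monic polynomial with at least `degree - 1` real roots splits -/
private lemma Nuij_split (p : ℝ[X]) (hp : p ≠ 0) (h : p.natDegree ≤ p.roots.card + 1) :
    p.Splits := by
  obtain ⟨q, h1, h2, h3⟩ := exists_prod_multiset_X_sub_C_mul p
  rw [splits_iff_card_roots]
  have hq : q ≠ 0 := by
    rintro rfl
    rw [mul_zero] at h1
    exact hp h1.symm
  have hd : q.natDegree ≠ 1 := by
    intro hd
    have h4 : q.degree = 1 := by rw [degree_eq_natDegree hq, hd]; rfl
    obtain ⟨x, hx⟩ := exists_root_of_degree_eq_one h4
    have : x ∈ q.roots := (mem_roots hq).mpr hx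
    rw [h3] at this
    exact absurd this (Multiset.notMem_zero x)
  omega

/-- Rolle -/
private lemma Nuij_rolle (p : ℝ[X]) (e : ℝ) (he : e ≠ 0) {x y : ℝ} (hxy : x < y)
    (hx : p.eval x = 0) (hy : p.eval y = 0) :
    ∃ z, x < z ∧ z < y ∧ (p + C e * derivative p).eval z = 0 := by
  have hd : ∀ z, HasDerivAt (fun z : ℝ => Real.exp (z / e) * p.eval z)
      (Real.exp (z / e) * (1 / e) * p.eval z + Real.exp (z / e) * (derivative p).eval z) z := by
    intro z
    have h1 : HasDerivAt (fun z : ℝ => z / e) (1 / e) z := (hasDerivAt_id z).div_const e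
    exact h1.exp.mul (p.hasDerivAt z)
  obtain ⟨z, hz, h0⟩ := exists_hasDerivAt_eq_zero (f := fun z : ℝ => Real.exp (z / e) * p.eval z)
    (f' := fun z => Real.exp (z / e) * (1 / e) * p.eval z +
      Real.exp (z / e) * (derivative p).eval z) hxy
    (fun z _ => (hd z).continuousAt.continuousWithinAt) (by simp [hx, hy]) (fun z _ => hd z)
  refine ⟨z, hz.1, hz.2, ?_⟩
  have h2 : Real.exp (z / e) * (1 / e) * p.eval z + Real.exp (z / e) * (derivative p).eval z =
      (Real.exp (z / e) / e) * (p.eval z + e * (derivative p).eval z) := by
    field_simp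
  have h0' : Real.exp (z / e) * (1 / e) * p.eval z +
      Real.exp (z / e) * (derivative p).eval z = 0 := h0
  rw [h2] at h0'
  rw [eval_add, eval_mul, eval_C]
  exact (mul_eq_zero.mp h0').resolve_left (div_ne_zero (Real.exp_ne_zero _) he)

/-- monic and the degree -/
private lemma Nuij_deg (p : ℝ[X]) (e : ℝ) (he : e ≠ 0) (hp : p.Monic) :
    (p + C e * derivative p).Monic ∧ (p + C e * derivative p).natDegree = p.natDegree := by
  by_cases h0 : p.natDegree = 0
  · have h1 : p = 1 := hp.natDegree_eq_zero.mp h0
    rw [h1]
    simp
  · have hlt : (C e * derivative p).degree < p.degree := by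
      rw [degree_C_mul he]
      exact degree_derivative_lt hp.ne_zero
    exact ⟨hp.add_of_left hlt, natDegree_add_eq_left_of_degree_lt hlt⟩

/-- one step -/
private lemma Nuij_step (p : ℝ[X]) (e : ℝ) (he : e ≠ 0) (hp : p.Monic) (hs : p.Splits) (k : ℕ)
    (hk : 1 ≤ k) (hm : ∀ r, p.rootMultiplicity r ≤ k) :
    (p + C e * derivative p).Splits ∧
    ∀ r, (p + C e * derivative p).rootMultiplicity r ≤ max 1 (k - 1) := by
  classical
  obtain ⟨hTm, hTd⟩ := Nuij_deg p e he hp
  have hT0 := hTm.ne_zero
  have hp0 := hp.ne_zero
  -- multiplicity at the old roots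
  have hmul : ∀ r, p.IsRoot r → (p + C e * derivative p).rootMultiplicity r =
      p.rootMultiplicity r - 1 := by
    intro r hr
    have h1 : 1 ≤ p.rootMultiplicity r := (rootMultiplicity_pos hp0).mpr hr
    have hd : (C e * derivative p).rootMultiplicity r = p.rootMultiplicity r - 1 := by
      rw [← count_roots, roots_C_mul _ he, count_roots, derivative_rootMultiplicity_of_root hr]
    have hdeg : p.natDegree ≠ 0 := by
      intro h0
      have h2 : p = 1 := hp.natDegree_eq_zero.mp h0
      rw [h2, IsRoot, eval_one] at hr
      exact one_ne_zero hr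
    have hd0 : C e * derivative p ≠ 0 := by
      refine mul_ne_zero (C_ne_zero.mpr he) ?_
      intro h2
      exact hdeg (derivative_eq_zero.mp h2)
    apply le_antisymm
    · have h3 : (p + C e * derivative p) + (-p) ≠ 0 := by
        rw [add_comm p, add_neg_cancel_right]
        exact hd0
      have h4 := rootMultiplicity_add r h3
      have h5 : (-p).rootMultiplicity r = p.rootMultiplicity r := by
        rw [← count_roots, roots_neg, count_roots]
      rw [add_comm p, add_neg_cancel_right, hd, h5] at h4
      rw [add_comm p]
      omega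
    · have h4 := rootMultiplicity_add (p := p) (q := C e * derivative p) r hT0
      rw [hd] at h4
      omega
  have hnew : ∀ r, ¬ p.IsRoot r → (p + C e * derivative p).rootMultiplicity r ≤ 1 := by
    intro r hr
    by_contra hcon
    obtain ⟨a1, a2⟩ := (one_lt_rootMultiplicity_iff_isRoot hT0).mp (not_le.mp hcon)
    have hP : p = Nuij_P p.roots := by
      have h5 := hs.eq_prod_roots
      rw [hp.leadingCoeff, C_1, one_mul] at h5
      exact h5
    have hne : p.roots ≠ 0 := by
      intro h5
      rw [h5] at hP
      have h6 : p = 1 := by rw [hP]; simp [Nuij_P]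
      rw [h6, IsRoot] at a1
      simp at a1
    have hL := (Nuij_lag p.roots r).2 hne (by rw [← hP]; exact hr)
    rw [← hP] at hL
    simp only [IsRoot, derivative_add, derivative_mul, derivative_C, zero_mul, zero_add,
      eval_add, eval_mul, eval_C] at a1 a2
    have h7 : eval r p = -(e * eval r (derivative p)) := by linarith
    have h8 : eval r (derivative p) = -(e * eval r (derivative (derivative p))) := by linarith
    have h9 : eval r p * eval r (derivative (derivative p)) = eval r (derivative p) ^ 2 := by
      rw [h7]
      calc -(e * eval r (derivative p)) * eval r (derivative (derivative p)) =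
          eval r (derivative p) * (-(e * eval r (derivative (derivative p)))) := by ring
        _ = eval r (derivative p) ^ 2 := by rw [← h8]; ring
    rw [h9, sub_self] at hL
    exact lt_irrefl _ hL
  refine ⟨?_, ?_⟩
  · -- counting
    have hint := Finset.card_le_sdiff_of_interleaved (s := p.roots.toFinset)
      (t := (p + C e * derivative p).roots.toFinset) (fun x hx y hy hxy _ => by
        rw [Multiset.mem_toFinset, mem_roots hp0] at hx hy
        obtain ⟨z, h1, h2, h3⟩ := Nuij_rolle p e he hxy hx hy
        exact ⟨z, by rw [Multiset.mem_toFinset, mem_roots hT0]; exact h3, h1, h2⟩)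
    have hc1 : ∑ r ∈ p.roots.toFinset, p.rootMultiplicity r = p.natDegree := by
      rw [hs.natDegree_eq_card_roots, ← Multiset.toFinset_sum_count_eq]
      exact Finset.sum_congr rfl fun r _ => (count_roots p).symm
    have hc2 : ∑ r ∈ p.roots.toFinset, (p + C e * derivative p).rootMultiplicity r +
        p.roots.toFinset.card = p.natDegree := by
      rw [← hc1, Finset.card_eq_sum_ones, ← Finset.sum_add_distrib]
      refine Finset.sum_congr rfl fun r hr => ?_
      rw [Multiset.mem_toFinset, mem_roots hp0] at hr
      rw [hmul r hr]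
      have h1 : 1 ≤ p.rootMultiplicity r := (rootMultiplicity_pos hp0).mpr hr
      omega
    have hc3 : ∑ r ∈ p.roots.toFinset, (p + C e * derivative p).rootMultiplicity r +
        ∑ r ∈ (p + C e * derivative p).roots.toFinset \ p.roots.toFinset,
          (p + C e * derivative p).rootMultiplicity r =
        (p + C e * derivative p).roots.card := by
      rw [← Finset.sum_union Finset.disjoint_sdiff, Finset.union_sdiff_self_eq_union]
      rw [← Multiset.sum_count_eq_card (s := p.roots.toFinset ∪
        (p + C e * derivative p).roots.toFinset) (m := (p + C e * derivative p).roots)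
        (fun a ha => Finset.mem_union_right _ (Multiset.mem_toFinset.mpr ha))]
      exact Finset.sum_congr rfl fun r _ => (count_roots _).symm
    have hc4 : ((p + C e * derivative p).roots.toFinset \ p.roots.toFinset).card ≤
        ∑ r ∈ (p + C e * derivative p).roots.toFinset \ p.roots.toFinset,
          (p + C e * derivative p).rootMultiplicity r := by
      rw [Finset.card_eq_sum_ones]
      refine Finset.sum_le_sum fun r hr => ?_
      have := (Finset.mem_sdiff.mp hr).1
      rw [Multiset.mem_toFinset, mem_roots hT0] at this
      exact (rootMultiplicity_pos hT0).mpr this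
    apply Nuij_split _ hT0
    rw [hTd]
    omega
  · intro r
    by_cases hr : p.IsRoot r
    · rw [hmul r hr]
      have := hm r
      omega
    · exact (hnew r hr).trans (le_max_left _ _)

/-- [Nuij] The operator separates real roots. -/
theorem thm_Nuij : St_Nuij := by
  intro q e c hq hc hs he
  have key : ∀ k : ℕ, ((fun p : ℝ[X] => p + C e * derivative p)^[k] q).Monic ∧
      ((fun p : ℝ[X] => p + C e * derivative p)^[k] q).natDegree = c ∧
      ((fun p : ℝ[X] => p + C e * derivative p)^[k] q).Splits ∧
      ∀ r, ((fun p : ℝ[X] => p + C e * derivative p)^[k] q).rootMultiplicity r ≤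
        max 1 (c - k) := by
    intro k
    induction k with
    | zero =>
      refine ⟨hq, hc, hs, fun r => ?_⟩
      have h1 : q.rootMultiplicity r ≤ q.natDegree := by
        rw [← count_roots]
        exact (Multiset.count_le_card _ _).trans (card_roots' q)
      rw [hc] at h1
      exact h1.trans (le_max_right _ _)
    | succ k ih =>
      obtain ⟨i1, i2, i3, i4⟩ := ih
      rw [Function.iterate_succ', Function.comp]
      obtain ⟨d1, d2⟩ := Nuij_deg _ e he i1
      obtain ⟨s1, s2⟩ := Nuij_step _ e he i1 i3 (max 1 (c - k)) (le_max_left _ _) i4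
      refine ⟨d1, d2.trans i2, s1, fun r => (s2 r).trans ?_⟩
      omega
  obtain ⟨k1, k2, k3, k4⟩ := key c
  refine ⟨k1, k2, k3, ?_⟩
  rw [Multiset.nodup_iff_count_le_one]
  intro r
  rw [count_roots]
  have := k4 r
  omega

end Pool.Agent.NCC
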