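import Pool.Agent.NCC.StS

/-!
# NCC, part S: zeros of regular pairs are realizable
-/

set_option autoImplicit false

namespace Pool.Agent.NCC

open MvPolynomial Module
open scoped ComplexConjugate

/-- conjugation of the coefficients -/
noncomputable def SC_cj : CP →+* CP := map (starRingEnd ℂ)

theorem SC_cj_cx (f : RP) : SC_cj (cx f) = cx f := by
  unfold SC_cj cx
  rw [map_map]
  have h : (starRingEnd ℂ).comp (algebraMap ℝ ℂ) = algebraMap ℝ ℂ := by
    ext x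
    simp
  rw [h]

theorem SC_cj_cj (p : CP) : SC_cj (SC_cj p) = p := by
  unfold SC_cj
  rw [map_map]
  have h : (starRingEnd ℂ).comp (starRingEnd ℂ) = RingHom.id ℂ := by
    ext x
    simp
  rw [h, map_id]

theorem SC_eval_cj (q : Fin 2 → ℂ) (hq : ∀ i, conj (q i) = q i) (p : CP) :
    eval q (SC_cj p) = conj (eval q p) := by
  unfold SC_cj
  rw [eval_map]
  have h : (starRingEnd ℂ) (eval q p) = eval₂ (starRingEnd ℂ) (fun i => starRingEnd ℂ (q i)) p := by
    induction p using MvPolynomial.induction_on with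
    | C a => simp
    | add p q hp hq => simp [hp, hq]
    | mul_X p i hp => simp [hp]
  rw [h]
  simp only [hq]

theorem SC_mem_Pd (N : ℤ) (p : CP) :
    p ∈ Pd N ↔ ∀ s ∈ p.support, ((s 0 + s 1 : ℕ) : ℤ) ≤ N := by
  unfold Pd
  rw [mem_restrictSupport_iff]
  rfl

theorem SC_Pd_mul (M N : ℤ) (p q : CP) (hp : p ∈ Pd M) (hq : q ∈ Pd N) :
    p * q ∈ Pd (M + N) := by
  classical
  rw [SC_mem_Pd] at *
  intro s hs
  have h0 := support_mul p q hs
  rw [Finset.mem_add] at h0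
  obtain ⟨u, hu, v, hv, rfl⟩ := h0
  have h1 := hp u hu
  have h2 := hq v hv
  simp only [Finsupp.add_apply]
  push_cast at *
  linarith

theorem SC_Pd_mono {M N : ℤ} (h : M ≤ N) : Pd M ≤ Pd N := by
  intro p hp
  rw [SC_mem_Pd] at *
  intro s hs
  exact (hp s hs).trans h

theorem SC_Pd_cj (N : ℤ) (p : CP) (hp : p ∈ Pd N) : SC_cj p ∈ Pd N := by
  rw [SC_mem_Pd] at *
  intro s hs
  exact hp s (support_map_subset _ _ hs)

theorem SC_one_Pd : (1 : CP) ∈ Pd 0 := by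
  classical
  rw [SC_mem_Pd]
  intro s hs
  have h : s = 0 := by
    by_contra h0
    rw [MvPolynomial.mem_support_iff, coeff_one, if_neg (fun h1 => h0 h1.symm)] at hs
    exact hs rfl
  rw [h]
  simp

theorem SC_X_Pd (i : Fin 2) : (X i : CP) ∈ Pd 1 := by
  classical
  rw [SC_mem_Pd]
  intro s hs
  rw [support_X, Finset.mem_singleton] at hs
  rw [hs]
  fin_cases i <;> simp

theorem SC_Im_mono (F G : CP) {M N : ℤ} (h : M ≤ N) : Im F G M ≤ Im F G N :=
  Submodule.map_mono (SC_Pd_mono h)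

theorem SC_Im_mul (F G : CP) (M N : ℤ) (x y : QQ F G) (hx : x ∈ Im F G M) (hy : y ∈ Im F G N) :
    x * y ∈ Im F G (M + N) := by
  obtain ⟨p, hp, rfl⟩ := hx
  obtain ⟨q, hq, rfl⟩ := hy
  refine ⟨p * q, SC_Pd_mul M N p q hp hq, ?_⟩
  simp

/-- the involution -/
noncomputable def SC_tau (F G : CP) (hF : SC_cj F = F) (hG : SC_cj G = G) : QQ F G →+* QQ F G :=
  Ideal.quotientMap (II F G) SC_cj (by
    rw [Ideal.span_le]
    intro x hx
    simp only [Set.mem_insert_iff, Set.mem_singleton_iff] at hx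
    rw [SetLike.mem_coe, Ideal.mem_comap]
    rcases hx with rfl | rfl
    · rw [hF]
      exact Ideal.subset_span (by simp)
    · rw [hG]
      exact Ideal.subset_span (by simp))

theorem SC_tau_mk (F G : CP) (hF : SC_cj F = F) (hG : SC_cj G = G) (p : CP) :
    SC_tau F G hF hG (mkq F G p) = mkq F G (SC_cj p) := rfl

theorem SC_mk_surj (F G : CP) (x : QQ F G) : ∃ p : CP, mkq F G p = x :=
  Ideal.Quotient.mk_surjective x

/-- evaluation at a common zero -/
noncomputable def SC_ev (F G : CP) (q : Fin 2 → ℂ) (hF : eval q F = 0) (hG : eval q G = 0) :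
    QQ F G →ₐ[ℂ] ℂ :=
  Ideal.Quotient.liftₐ (II F G) (aeval q) (by
    intro x hx
    have h : II F G ≤ RingHom.ker (aeval q : CP →ₐ[ℂ] ℂ) := by
      rw [Ideal.span_le]
      intro y hy
      simp only [Set.mem_insert_iff, Set.mem_singleton_iff] at hy
      rw [SetLike.mem_coe, RingHom.mem_ker]
      rcases hy with rfl | rfl
      · simpa [coe_aeval_eq_eval] using hF
      · simpa [coe_aeval_eq_eval] using hG
    exact h hx)

theorem SC_ev_mk (F G : CP) (q : Fin 2 → ℂ) (hF : eval q F = 0) (hG : eval q G = 0) (p : CP) :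
    SC_ev F G q hF hG (mkq F G p) = eval q p := by
  have h : SC_ev F G q hF hG (mkq F G p) = (aeval q : CP →ₐ[ℂ] ℂ) p := rfl
  rw [h]
  exact congrArg (fun φ : CP →+* ℂ => φ p) (coe_aeval_eq_eval (f := q))

theorem SC_mul_B (F G : CP) (q : Fin 2 → ℂ) (hF : eval q F = 0) (hG : eval q G = 0) (B : CP)
    (hB : ∀ i, mkq F G ((X i - C (q i)) * B) = 0) (h : QQ F G) :
    h * mkq F G B = SC_ev F G q hF hG h • mkq F G B := by
  obtain ⟨p, rfl⟩ := SC_mk_surj F G h
  rw [SC_ev_mk]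
  induction p using MvPolynomial.induction_on with
  | C a =>
    rw [eval_C, ← map_mul, ← map_smul, smul_eq_C_mul]
  | add p r hp hr =>
    rw [map_add, map_add, add_mul, add_smul, hp, hr]
  | mul_X p i hp =>
    have h1 : mkq F G (X i) * mkq F G B = q i • mkq F G B := by
      have h2 := hB i
      rw [sub_mul, map_sub, sub_eq_zero, map_mul] at h2
      rw [h2, ← map_smul, smul_eq_C_mul]
    rw [map_mul, mul_assoc, h1, mul_smul_comm, hp, smul_smul, map_mul, eval_X, mul_comm]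

/-- complex coordinates of a real point -/
noncomputable def SC_pt (z : ℂ) : Fin 2 → ℂ := ![(z.re : ℂ), (z.im : ℂ)]

theorem SC_pt_eq (z : ℂ) : SC_pt z = fun i => ((pt z i : ℝ) : ℂ) := by
  funext i
  fin_cases i <;> rfl

theorem SC_eval_cx (z : ℂ) (f : RP) : eval (SC_pt z) (cx f) = ((eval (pt z) f : ℝ) : ℂ) := by
  unfold cx
  rw [SC_pt_eq, eval_map]
  induction f using MvPolynomial.induction_on with
  | C a => simp
  | add p q hp hq => simp [hp, hq]
  | mul_X p i hp => simp [hp]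

theorem SC_cx_jac (f g : RP) :
    pderiv 0 (cx f) * pderiv 1 (cx g) - pderiv 1 (cx f) * pderiv 0 (cx g) = cx (jac f g) := by
  unfold jac cx
  simp [pderiv_map]

theorem SC_lead_cx (f : RP) (c : ℕ) :
    homogeneousComponent c (cx f) = cx (homogeneousComponent c f) := by
  unfold cx
  ext s
  rw [coeff_homogeneousComponent, coeff_map, coeff_map, coeff_homogeneousComponent]
  split_ifs <;> simp

theorem SC_cx_inj (f : RP) (h : cx f = 0) : f = 0 := by
  unfold cx at h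
  exact map_injective _ (algebraMap ℝ ℂ).injective (by rw [h, map_zero])

theorem SC_lead_ne (f : RP) (hf : f ≠ 0) : homogeneousComponent f.totalDegree f ≠ 0 := by
  intro h
  obtain ⟨s, hs, h1⟩ := Finset.exists_mem_eq_sup f.support (support_nonempty.mpr hf)
    (fun s => s.sum fun _ e => e)
  have h2 := congrArg (coeff s) h
  rw [coeff_homogeneousComponent, coeff_zero] at h2
  rw [if_pos] at h2
  · exact (MvPolynomial.mem_support_iff.mp hs) h2
  · rw [Finsupp.degree_eq_sum]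
    unfold totalDegree
    rw [h1, Finsupp.sum_fintype _ _ (fun _ => rfl)]

theorem SC_pair (hRel : St_Rel) (f g : RP) (k : ℕ) (b : Fin (k + f.totalDegree) → ℂ)
    (a : Fin k → ℂ) (hc : 1 ≤ f.totalDegree) (hR : Regular f g) (hL : Lists f g a b) :
    Pair (cx f) (cx g) f.totalDegree g.totalDegree := by
  have hf0 : f ≠ 0 := by
    rintro rfl
    simp at hc
  have hrel : IsRelPrime (homogeneousComponent f.totalDegree (cx f))
      (homogeneousComponent g.totalDegree (cx g)) := by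
    refine hRel f.totalDegree g.totalDegree _ _ (homogeneousComponent_isHomogeneous _ _)
      (homogeneousComponent_isHomogeneous _ _) ?_
    intro v hv hw
    refine hR.lead v ?_ ?_
    · rw [SC_lead_cx] at hv
      unfold cx at hv
      rw [eval_map] at hv
      exact hv
    · rw [SC_lead_cx] at hw
      unfold cx at hw
      rw [eval_map] at hw
      exact hw
  have hF0 : homogeneousComponent f.totalDegree (cx f) ≠ 0 := by
    rw [SC_lead_cx]
    exact fun h => SC_lead_ne f hf0 (SC_cx_inj _ h)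
  have hg0 : g ≠ 0 := by
    rintro rfl
    have h1 : homogeneousComponent (0 : RP).totalDegree (cx (0 : RP)) = 0 := by
      unfold cx
      rw [map_zero, map_zero]
    rw [h1] at hrel
    have h2 : IsUnit (homogeneousComponent f.totalDegree (cx f)) :=
      hrel dvd_rfl (dvd_zero _)
    have h3 := h2.map (eval (0 : Fin 2 → ℂ))
    have h4 : eval (0 : Fin 2 → ℂ) (homogeneousComponent f.totalDegree (cx f)) = 0 := by
      have h5 := (homogeneousComponent_isHomogeneous f.totalDegree (cx f)).coeff_eq_zero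
        (d := 0) (by simpa using (by omega : 0 ≠ f.totalDegree))
      rw [eval_zero]
      exact h5
    rw [h4] at h3
    exact not_isUnit_zero h3
  have hd : 1 ≤ g.totalDegree := by
    by_contra hd
    have hd0 : g.totalDegree = 0 := by omega
    have h1 := totalDegree_eq_zero_iff_eq_C.mp hd0
    have hz : Zer f g (b ⟨0, by omega⟩) := ((hL.2.2.2 _).mp ⟨_, rfl⟩).1
    have h2 := hz.2
    rw [h1, eval_C] at h2
    apply hg0
    rw [h1, h2, map_zero]
  exact ⟨hc, hd, Finset.sup_mono (support_map_subset _ _), Finset.sup_mono (support_map_subset _ _), hF0, by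
    rw [SC_lead_cx]
    exact fun h => SC_lead_ne g hg0 (SC_cx_inj _ h), hrel⟩


/-- all common real zeros in one list -/
noncomputable def SC_z {k n : ℕ} (a : Fin k → ℂ) (b : Fin n → ℂ) : Fin (n + k) → ℂ := Fin.append b a

/-- the scaled coordinates -/
noncomputable def SC_Phi {k n : ℕ} (w : Fin (n + k) → ℂ) :
    (Fin (n + k) → ℂ) →ₗ[ℂ] (Fin n → ℂ) × (Fin k → ℂ) where
  toFun x := (fun l => w (Fin.castAdd k l) * x (Fin.castAdd k l),
    fun j => w (Fin.natAdd n j) * x (Fin.natAdd n j))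
  map_add' x y := by
    ext i <;> simp [mul_add]
  map_smul' c x := by
    ext i <;> simp [mul_left_comm]

theorem SC_Phi_inj {k n : ℕ} (w : Fin (n + k) → ℂ) (hw : ∀ i, w i ≠ 0) :
    Function.Injective (SC_Phi w) := by
  rw [injective_iff_map_eq_zero]
  intro x hx
  have h1 := congrArg Prod.fst hx
  have h2 := congrArg Prod.snd hx
  funext i
  refine Fin.addCases (fun l => ?_) (fun j => ?_) i
  · have h3 := congrFun h1 l
    exact (mul_eq_zero.mp h3).resolve_left (hw _)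
  · have h3 := congrFun h2 j
    exact (mul_eq_zero.mp h3).resolve_left (hw _)

/-- the linear algebra at the real zeros -/
theorem SC_key {k n : ℕ} (J : Fin (n + k) → ℝ) (hpos : ∀ l, 0 < J (Fin.castAdd k l))
    (hneg : ∀ j, J (Fin.natAdd n j) < 0) (x y r : Fin (n + k) → ℂ)
    (h : ∑ i, x i * conj (y i) * r i * ((J i : ℝ) : ℂ)⁻¹ = 0) :
    ∑ l, (SC_Phi (fun i => (((Real.sqrt |J i|)⁻¹ : ℝ) : ℂ)) x).1 l *
        conj ((SC_Phi (fun i => (((Real.sqrt |J i|)⁻¹ : ℝ) : ℂ)) y).1 l) * r (Fin.castAdd k l) =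
      ∑ j, (SC_Phi (fun i => (((Real.sqrt |J i|)⁻¹ : ℝ) : ℂ)) x).2 j *
        conj ((SC_Phi (fun i => (((Real.sqrt |J i|)⁻¹ : ℝ) : ℂ)) y).2 j) * r (Fin.natAdd n j) := by
  have hs : ∀ i, (((Real.sqrt |J i|)⁻¹ : ℝ) : ℂ) * (((Real.sqrt |J i|)⁻¹ : ℝ) : ℂ) =
      ((|J i| : ℝ) : ℂ)⁻¹ := by
    intro i
    rw [← Complex.ofReal_mul, ← mul_inv, Real.mul_self_sqrt (abs_nonneg _), Complex.ofReal_inv]
  rw [Fin.sum_univ_add] at h
  have e1 : ∀ l : Fin n, (SC_Phi (fun i => (((Real.sqrt |J i|)⁻¹ : ℝ) : ℂ)) x).1 l *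
        conj ((SC_Phi (fun i => (((Real.sqrt |J i|)⁻¹ : ℝ) : ℂ)) y).1 l) * r (Fin.castAdd k l) =
      x (Fin.castAdd k l) * conj (y (Fin.castAdd k l)) * r (Fin.castAdd k l) *
        ((J (Fin.castAdd k l) : ℝ) : ℂ)⁻¹ := by
    intro l
    have h1 := hs (Fin.castAdd k l)
    rw [abs_of_pos (hpos l)] at h1
    rw [← h1]
    simp only [SC_Phi, LinearMap.coe_mk, AddHom.coe_mk, map_mul, Complex.conj_ofReal,
      abs_of_pos (hpos l)]
    ring
  have e2 : ∀ j : Fin k, (SC_Phi (fun i => (((Real.sqrt |J i|)⁻¹ : ℝ) : ℂ)) x).2 j *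
        conj ((SC_Phi (fun i => (((Real.sqrt |J i|)⁻¹ : ℝ) : ℂ)) y).2 j) * r (Fin.natAdd n j) =
      -(x (Fin.natAdd n j) * conj (y (Fin.natAdd n j)) * r (Fin.natAdd n j) *
        ((J (Fin.natAdd n j) : ℝ) : ℂ)⁻¹) := by
    intro j
    have h1 := hs (Fin.natAdd n j)
    rw [abs_of_neg (hneg j), Complex.ofReal_neg, inv_neg] at h1
    have h2 : ((J (Fin.natAdd n j) : ℝ) : ℂ)⁻¹ =
        -((((Real.sqrt (-J (Fin.natAdd n j)))⁻¹ : ℝ) : ℂ) *
          (((Real.sqrt (-J (Fin.natAdd n j)))⁻¹ : ℝ) : ℂ)) := by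
      rw [h1, neg_neg]
    rw [h2]
    simp only [SC_Phi, LinearMap.coe_mk, AddHom.coe_mk, map_mul, Complex.conj_ofReal,
      abs_of_neg (hneg j)]
    ring
  rw [Finset.sum_congr rfl (fun l _ => e1 l), Finset.sum_congr rfl (fun j _ => e2 j),
    Finset.sum_neg_distrib]
  exact eq_neg_of_add_eq_zero_left h

theorem SC_gen (hQ : St_QFin) (hLf : St_Lfun) (hBez : St_Bez) (hFZ : St_FinZ)
    (hSplit : St_Split) (hCore : St_Core) (hIso : St_Iso) (f g : RP) (k c d : ℕ)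
    (a : Fin k → ℂ) (b : Fin (k + c) → ℂ) (hP : Pair (cx f) (cx g) c d) (hR : Regular f g)
    (hL : Lists f g a b) : Pool.Agent.Helper45.NC.Dil a b := by
  obtain ⟨ha, hb, hA, hB⟩ := hL
  obtain ⟨hfin, hQcd, -, -, hE1, hE2⟩ := hQ _ _ c d hP
  have := hfin
  obtain ⟨L, hL0, hLn⟩ := hLf _ _ c d hP
  obtain ⟨ρ, hρ⟩ := hBez _ _ c d hP L hL0
  obtain ⟨-, t, ht⟩ := hFZ _ _ c d hP
  have hFc := SC_cj_cx f
  have hGc := SC_cj_cx g
  have hc1 : 1 ≤ c := hP.hc
  -- the real zeros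
  have hzl : ∀ l, SC_z a b (Fin.castAdd k l) = b l := fun l => Fin.append_left b a l
  have hzr : ∀ j, SC_z a b (Fin.natAdd (k + c) j) = a j := fun j => Fin.append_right b a j
  obtain ⟨J, hJ⟩ : ∃ J : Fin (k + c + k) → ℝ, ∀ i, J i = eval (pt (SC_z a b i)) (jac f g) :=
    ⟨_, fun _ => rfl⟩
  have hJpos : ∀ l, 0 < J (Fin.castAdd k l) := by
    intro l
    rw [hJ, hzl]
    exact ((hB _).mp ⟨l, rfl⟩).2
  have hJneg : ∀ j, J (Fin.natAdd (k + c) j) < 0 := by
    intro j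
    rw [hJ, hzr]
    exact ((hA _).mp ⟨j, rfl⟩).2
  have hJ0 : ∀ i, J i ≠ 0 := by
    intro i
    refine Fin.addCases (fun l => ?_) (fun j => ?_) i
    · exact (hJpos l).ne'
    · exact (hJneg j).ne
  have hzero : ∀ i, Zer f g (SC_z a b i) := by
    intro i
    refine Fin.addCases (fun l => ?_) (fun j => ?_) i
    · rw [hzl]
      exact ((hB _).mp ⟨l, rfl⟩).1
    · rw [hzr]
      exact ((hA _).mp ⟨j, rfl⟩).1
  have hzinj : ∀ i j, SC_z a b i = SC_z a b j → i = j := by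
    intro i j
    refine Fin.addCases (fun l => ?_) (fun l => ?_) i
    · refine Fin.addCases (fun l' => ?_) (fun l' => ?_) j
      · rw [hzl, hzl]
        intro h
        rw [hb h]
      · intro h
        have h1 := hJpos l
        have h2 := hJneg l'
        rw [hJ, h, ← hJ] at h1
        exact absurd h1 (not_lt.mpr h2.le)
    · refine Fin.addCases (fun l' => ?_) (fun l' => ?_) j
      · intro h
        have h1 := hJneg l
        have h2 := hJpos l'
        rw [hJ, h, ← hJ] at h1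
        exact absurd h1 (not_lt.mpr h2.le)
      · rw [hzr, hzr]
        intro h
        rw [ha h]
  have hall : ∀ z, Zer f g z → ∃ i, SC_z a b i = z := by
    intro z hz
    have h0 := hR.simple z hz
    rcases lt_or_gt_of_ne h0 with h1 | h1
    · obtain ⟨j, hj⟩ := (hA z).mpr ⟨hz, h1⟩
      exact ⟨Fin.natAdd (k + c) j, by rw [hzr, hj]⟩
    · obtain ⟨l, hl⟩ := (hB z).mpr ⟨hz, h1⟩
      exact ⟨Fin.castAdd k l, by rw [hzl, hl]⟩
  have hqF : ∀ i, eval (SC_pt (SC_z a b i)) (cx f) = 0 := by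
    intro i
    rw [SC_eval_cx, (hzero i).1, Complex.ofReal_zero]
  have hqG : ∀ i, eval (SC_pt (SC_z a b i)) (cx g) = 0 := by
    intro i
    rw [SC_eval_cx, (hzero i).2, Complex.ofReal_zero]
  choose B hB1 hB2 hB3 using fun i => hρ (SC_pt (SC_z a b i)) (hqF i) (hqG i)
  obtain ⟨χ, hχ⟩ : ∃ χ : Fin (k + c + k) → (QQ (cx f) (cx g) →ₐ[ℂ] ℂ),
      ∀ i, χ i = SC_ev _ _ _ (hqF i) (hqG i) := ⟨_, fun _ => rfl⟩
  have hχmk : ∀ i p, χ i (mkq _ _ p) = eval (SC_pt (SC_z a b i)) p := by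
    intro i p
    rw [hχ, SC_ev_mk]
  obtain ⟨δ, hδ⟩ : ∃ δ : Fin (k + c + k) → QQ (cx f) (cx g),
      ∀ i, δ i = ((J i : ℝ) : ℂ)⁻¹ • mkq _ _ (B i) := ⟨_, fun _ => rfl⟩
  have hval : ∀ i, eval (SC_pt (SC_z a b i)) (X 0 + C Complex.I * X 1) = SC_z a b i := by
    intro i
    have h1 : SC_pt (SC_z a b i) 0 = ((SC_z a b i).re : ℂ) := rfl
    have h2 : SC_pt (SC_z a b i) 1 = ((SC_z a b i).im : ℂ) := rfl
    rw [map_add, map_mul, eval_X, eval_X, eval_C, h1, h2, mul_comm]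
    exact Complex.re_add_im _
  have hδmul : ∀ i h, h * δ i = χ i h • δ i := by
    intro i h
    rw [hδ, mul_smul_comm, SC_mul_B _ _ _ (hqF i) (hqG i) (B i) (hB1 i) h, ← hχ, smul_comm]
  have hδχ : ∀ i j, χ i (δ j) = if i = j then 1 else 0 := by
    intro i j
    split_ifs with hij
    · subst hij
      rw [hδ, map_smul, hχmk, hB2, SC_cx_jac, SC_eval_cx, ← hJ, smul_eq_mul, inv_mul_cancel₀]
      exact Complex.ofReal_ne_zero.mpr (hJ0 i)
    · have h1 := congrArg (χ i) (hδmul j (mkq _ _ (X 0 + C Complex.I * X 1)))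
      rw [map_mul, map_smul, hχmk, hχmk, smul_eq_mul, hval, hval] at h1
      have h2 : (SC_z a b i - SC_z a b j) * χ i (δ j) = 0 := by
        rw [sub_mul, h1, sub_self]
      exact (mul_eq_zero.mp h2).resolve_left (sub_ne_zero.mpr fun h => hij (hzinj i j h))
  have hLδ : ∀ i, L (δ i) = ((J i : ℝ) : ℂ)⁻¹ * ρ := by
    intro i
    rw [hδ, map_smul, hB3, smul_eq_mul]
  have hρ0 : ρ ≠ 0 := by
    intro h0
    have h1 : δ ⟨0, by omega⟩ = 0 := by
      refine hLn _ fun h' => ?_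
      rw [mul_comm, hδmul, map_smul, hLδ, h0, mul_zero, smul_zero]
    have h2 := hδχ ⟨0, by omega⟩ ⟨0, by omega⟩
    rw [if_pos rfl, h1, map_zero] at h2
    exact zero_ne_one h2
  -- the involution
  obtain ⟨τ, hτ⟩ : ∃ τ : QQ (cx f) (cx g) →+* QQ (cx f) (cx g),
      ∀ p, τ (mkq _ _ p) = mkq _ _ (SC_cj p) :=
    ⟨SC_tau _ _ hFc hGc, fun p => SC_tau_mk _ _ hFc hGc p⟩
  have hτs : ∀ (z : ℂ) (x : QQ (cx f) (cx g)), τ (z • x) = conj z • τ x := by
    intro z x
    obtain ⟨p, rfl⟩ := SC_mk_surj _ _ x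
    rw [← map_smul, hτ, hτ, ← map_smul, smul_eq_C_mul, smul_eq_C_mul, map_mul]
    have h1 : SC_cj (C z) = C (conj z) := map_C _ _
    rw [h1]
  have hττ : ∀ x, τ (τ x) = x := by
    intro x
    obtain ⟨p, rfl⟩ := SC_mk_surj _ _ x
    rw [hτ, hτ, SC_cj_cj]
  have hχτ : ∀ i h, χ i (τ h) = conj (χ i h) := by
    intro i h
    obtain ⟨p, rfl⟩ := SC_mk_surj _ _ h
    rw [hτ, hχmk, hχmk, SC_eval_cj]
    intro j
    rw [SC_pt_eq]
    exact Complex.conj_ofReal _
  have hτℓ : τ (mkq _ _ (X 0 + C (t : ℂ) * X 1)) = mkq _ _ (X 0 + C (t : ℂ) * X 1) := by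
    rw [hτ]
    congr 1
    unfold SC_cj
    rw [map_add, map_mul, map_X, map_X, map_C, Complex.conj_ofReal]
  have hψ : ∀ ψ : QQ (cx f) (cx g) →ₐ[ℂ] ℂ,
      (ψ (mkq _ _ (X 0 + C (t : ℂ) * X 1))).im = 0 → ∃ i, ψ = χ i := by
    intro ψ hψ
    have hev : ∀ p : CP, ψ (mkq _ _ p) = eval (fun j => ψ (mkq _ _ (X j))) p := by
      intro p
      induction p using MvPolynomial.induction_on with
      | C a =>
        rw [eval_C]
        exact ψ.commutes a
      | add p q hp hq => rw [map_add, map_add, hp, hq, map_add]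
      | mul_X p j hp => rw [map_mul, map_mul, hp, map_mul, eval_X]
    have h1 : eval (fun j => ψ (mkq (cx f) (cx g) (X j))) (cx f) = 0 := by
      rw [← hev]
      have h0 : mkq (cx f) (cx g) (cx f) = 0 :=
        Ideal.Quotient.eq_zero_iff_mem.mpr (Ideal.subset_span (by simp))
      rw [h0, map_zero]
    have h2 : eval (fun j => ψ (mkq (cx f) (cx g) (X j))) (cx g) = 0 := by
      rw [← hev]
      have h0 : mkq (cx f) (cx g) (cx g) = 0 :=
        Ideal.Quotient.eq_zero_iff_mem.mpr (Ideal.subset_span (by simp))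
      rw [h0, map_zero]
    have h3 := ht _ h1 h2 (by
      rw [hev, map_add, map_mul, eval_X, eval_X, eval_C] at hψ
      exact hψ)
    have hpt : SC_pt ⟨(ψ (mkq (cx f) (cx g) (X 0))).re, (ψ (mkq (cx f) (cx g) (X 1))).re⟩ =
        fun j => ψ (mkq (cx f) (cx g) (X j)) := by
      funext j
      fin_cases j
      · exact Complex.ext rfl h3.1.symm
      · exact Complex.ext rfl h3.2.symm
    obtain ⟨i, hi⟩ := hall ⟨(ψ (mkq (cx f) (cx g) (X 0))).re,
      (ψ (mkq (cx f) (cx g) (X 1))).re⟩ (by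
        rw [← hpt, SC_eval_cx] at h1 h2
        exact ⟨Complex.ofReal_eq_zero.mp h1, Complex.ofReal_eq_zero.mp h2⟩)
    refine ⟨i, AlgHom.ext fun x => ?_⟩
    obtain ⟨p, rfl⟩ := SC_mk_surj _ _ x
    rw [hev, hχmk, hi, hpt]
  obtain ⟨A, Bs, hs1, hs2, hs3, hs4, hs5, hs6, hs7⟩ := hSplit (QQ (cx f) (cx g)) τ _
    (k + c + k) χ δ (map_add τ) (map_mul τ) hτs hττ hτℓ hδmul hδχ hχτ hψ
  have hgen : ∀ e e' : ℤ, e ≤ e' → e + e' ≤ c + d - 3 →
      c * d ≤ finrank ℂ (Im (cx f) (cx g) e) + finrank ℂ (Im (cx f) (cx g) e') →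
      ∃ U : Submodule ℂ ((Fin (k + c) → ℂ) × (Fin k → ℂ)),
        (∀ u ∈ U, ∀ v ∈ U, ∑ l, u.1 l * conj (v.1 l) = ∑ j, u.2 j * conj (v.2 j)) ∧
        (2 * e + 1 ≤ c + d - 3 →
          ∀ u ∈ U, ∀ v ∈ U, ∑ l, u.1 l * conj (v.1 l) * b l =
            ∑ j, u.2 j * conj (v.2 j) * a j) ∧
        2 * finrank ℂ (Im (cx f) (cx g) e) + (k + c + k) ≤ c * d + 2 * finrank ℂ U := by
    intro e e' hee he3 hdim
    obtain ⟨U, hUP, hUL, hUd⟩ := hCore (QQ (cx f) (cx g)) τ (k + c + k) χ δ (map_add τ)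
      (map_mul τ) hτs hττ hδmul hδχ hχτ A Bs hs1 hs2 hs3 hs4 hs5 hs6 hs7 L
      (Im (cx f) (cx g) e) (Im (cx f) (cx g) e') hLn (SC_Im_mono _ _ hee) (by
        rintro h ⟨p, hp, rfl⟩
        exact ⟨SC_cj p, SC_Pd_cj e p hp, (hτ p).symm⟩) (by
        intro h hh h' hh'
        exact hL0 _ (SC_Im_mono _ _ he3 (SC_Im_mul _ _ _ _ _ _ hh hh'))) (by
        rw [hQcd]
        exact hdim)
    have hτU : ∀ h ∈ U, τ h ∈ Im (cx f) (cx g) e := by
      intro h hh
      obtain ⟨p, hp, hp'⟩ := hUP hh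
      rw [← hp']
      exact ⟨SC_cj p, SC_Pd_cj e p hp, (hτ p).symm⟩
    have hsum : ∀ h₁ ∈ U, ∀ h₂ ∈ U, ∀ p : QQ (cx f) (cx g),
        h₁ * τ h₂ * p ∈ Im (cx f) (cx g) (c + d - 3) →
        ∑ i, χ i h₁ * conj (χ i h₂) * χ i p * ((J i : ℝ) : ℂ)⁻¹ = 0 := by
      intro h₁ hh₁ h₂ hh₂ p hp
      have h1 := hUL h₁ hh₁ h₂ hh₂ p
      rw [hL0 _ hp] at h1
      have h2 : (∑ i, χ i h₁ * conj (χ i h₂) * χ i p * ((J i : ℝ) : ℂ)⁻¹) * ρ = 0 := by
        rw [h1, Finset.sum_mul]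
        refine Finset.sum_congr rfl fun i _ => ?_
        rw [hLδ]
        ring
      exact (mul_eq_zero.mp h2).resolve_right hρ0
    refine ⟨(U.map (LinearMap.pi fun i => (χ i).toLinearMap :
      QQ (cx f) (cx g) →ₗ[ℂ] (Fin (k + c + k) → ℂ))).map
        (SC_Phi (fun i => (((Real.sqrt |J i|)⁻¹ : ℝ) : ℂ))), ?_, ?_, ?_⟩
    · rintro _ ⟨_, ⟨h₁, hh₁, rfl⟩, rfl⟩ _ ⟨_, ⟨h₂, hh₂, rfl⟩, rfl⟩
      have h1 := SC_key J hJpos hJneg (fun i => χ i h₁) (fun i => χ i h₂) (fun i => χ i 1)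
        (hsum h₁ hh₁ h₂ hh₂ 1 (by
          rw [mul_one]
          exact SC_Im_mono _ _ (by linarith) (SC_Im_mul _ _ _ _ _ _ (hUP hh₁) (hτU h₂ hh₂))))
      simp only [map_one, mul_one] at h1
      exact h1
    · intro he1
      rintro _ ⟨_, ⟨h₁, hh₁, rfl⟩, rfl⟩ _ ⟨_, ⟨h₂, hh₂, rfl⟩, rfl⟩
      have h1 := SC_key J hJpos hJneg (fun i => χ i h₁) (fun i => χ i h₂)
        (fun i => χ i (mkq _ _ (X 0 + C Complex.I * X 1)))
        (hsum h₁ hh₁ h₂ hh₂ _ (by
          refine SC_Im_mono _ _ (show (e + e) + 1 ≤ c + d - 3 by linarith)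
            (SC_Im_mul _ _ _ _ _ _ (SC_Im_mul _ _ _ _ _ _ (hUP hh₁) (hτU h₂ hh₂)) ?_)
          refine ⟨X 0 + C Complex.I * X 1, Submodule.add_mem _ (SC_X_Pd 0) ?_, rfl⟩
          rw [← smul_eq_C_mul]
          exact Submodule.smul_mem _ _ (SC_X_Pd 1)))
      simp only [hχmk, hval] at h1
      simp only [hzl, hzr] at h1
      exact h1
    · rw [hQcd] at hUd
      have h1 : finrank ℂ ((U.map (LinearMap.pi fun i => (χ i).toLinearMap :
          QQ (cx f) (cx g) →ₗ[ℂ] (Fin (k + c + k) → ℂ))).map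
          (SC_Phi (fun i => (((Real.sqrt |J i|)⁻¹ : ℝ) : ℂ)))) =
          finrank ℂ (U.map (LinearMap.pi fun i => (χ i).toLinearMap :
          QQ (cx f) (cx g) →ₗ[ℂ] (Fin (k + c + k) → ℂ))) := by
        refine (LinearEquiv.finrank_eq (Submodule.equivMapOfInjective _
          (SC_Phi_inj _ fun i => ?_) _)).symm
        exact Complex.ofReal_ne_zero.mpr (inv_ne_zero
          (Real.sqrt_ne_zero'.mpr (abs_pos.mpr (hJ0 i))))
      rw [h1]
      exact hUd
  rcases Nat.even_or_odd' (c + d) with ⟨r, hr | hr⟩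
  · have he : 2 * ((r : ℤ) - 2) + 4 = c + d := by
      have : ((c + d : ℕ) : ℤ) = ((2 * r : ℕ) : ℤ) := by rw [hr]
      push_cast at this
      linarith
    obtain ⟨h1, h2⟩ := hE1 _ he
    obtain ⟨U, hU1, hU2, hU3⟩ := hgen ((r : ℤ) - 2) ((r : ℤ) - 2 + 1) (by linarith)
      (by linarith) h2
    have hk : k ≤ finrank ℂ U := by omega
    exact (hIso k (k + c) a b U hU1).2 hk (hU2 (by linarith))
  · exfalso
    have he : 2 * ((r : ℤ) - 1) + 3 = c + d := by
      have : ((c + d : ℕ) : ℤ) = ((2 * r + 1 : ℕ) : ℤ) := by rw [hr]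
      push_cast at this
      linarith
    have h1 := hE2 _ he
    obtain ⟨U, hU1, -, hU3⟩ := hgen ((r : ℤ) - 1) ((r : ℤ) - 1) le_rfl
      (by linarith) (by omega)
    have hk := (hIso k (k + c) a b U hU1).1
    omega

theorem thm_SC : St_Rel → St_QFin → St_Lfun → St_Bez → St_FinZ → St_Split → St_Core → St_Iso →
    St_SC := by
  intro hRel hQ hLf hBez hFZ hSplit hCore hIso f g k a b hc hR hL
  exact SC_gen hQ hLf hBez hFZ hSplit hCore hIso f g k f.totalDegree g.totalDegree a b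
    (SC_pair hRel f g k b a hc hR hL) hR hL

end Pool.Agent.NCC
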