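import Pool.Agent.NCC.Defs2

/-!
# NCC, part A (necessity, analysis): statements, first half

The module `Pool/Agent/NCC/<X>.lean` proves `theorem Pool.Agent.NCC.thm_<X> : St_<Y> → ... → St_<X>`,
where the hypotheses are the statements named after `uses`, in that order (keep them all).

`sl F x : ℝ[X]` is `F (x, ·)`, `ev F x y = F (x, y)`, `derivative F` is the derivative with respect to `y`
(`sl (derivative F) x = derivative (sl F x)`), `C (C t * X) * F` is `t x F`.
-/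

set_option autoImplicit false

namespace Pool.Agent.NCC

open Polynomial Filter Topology Set

/-- `f + t x ∂_y f` -/
noncomputable def NU (t : ℝ) (F : BP) : BP := F + C (C t * X) * derivative F

/-- `F` is the product of the monic polynomials `G r` -/
structure Prd (c : ℕ) (F : BP) (N : ℕ) (G : Fin N → BP) : Prop where
  monic : ∀ r, (G r).Monic
  td : ∀ r, TD (G r) (G r).natDegree
  prod : F = ∏ r, G r
  deg : F.natDegree = c

/-- at `x` the real roots of the `G r` are simple, and different polynomials have different real roots -/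
def Gd {N : ℕ} (G : Fin N → BP) (x : ℝ) : Prop :=
  (∀ r y, ev (G r) x y = 0 → ev (derivative (G r)) x y ≠ 0) ∧
  ∀ r r', G r ≠ G r' → ∀ y, ev (G r) x y = 0 → ev (G r') x y ≠ 0

/-- [Fac] (uses nothing) Factorization. Proof: `F` is monic of positive degree in the factorial ring
`ℝ[x][y]`, hence a product of irreducible elements; the leading coefficients of the factors are units of
`ℝ[x]`, normalize them to `1`. Total degrees: for `H ≠ 0` let `D H` be the maximum of
`natDegree (H.coeff j) + j`; it is additive on products (the forms of top degree multiply, `ℝ[x, y]` is a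
domain; e.g. transport `MvPolynomial.totalDegree_mul_of_isDomain`), and `D H ≥ natDegree H` for monic `H`.
So `c ≥ D F = ∑ D (G r) ≥ ∑ natDegree (G r) = c` and `D (G r) = natDegree (G r)`. -/
def St_Fac : Prop := ∀ (c : ℕ) (F : BP), F.Monic → F.natDegree = c → TD F c →
  ∃ (N : ℕ) (G : Fin N → BP), Prd c F N G ∧ ∀ r, Irreducible (G r)

/-- [Good] (uses nothing) Proof: let `G`, `H` be in `ℝ[x][y]`, `G` monic irreducible (of positive degree), `G`
does not divide `H`. By Gauss' lemma `G` is irreducible over the field `K` of fractions of `ℝ[x]` and does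
not divide `H` there, so `u G + v H = w` with polynomials `u, v` and `0 ≠ w ∈ ℝ[x]` (clear
denominators). So for `w (x) ≠ 0` there is no common root of `G (x, ·)`, `H (x, ·)`. Apply this to `H =`
`derivative G` (nonzero of smaller degree) and to `H = G r'` (monic irreducible, different from `G r`). -/
def St_Good : Prop := ∀ (N : ℕ) (G : Fin N → BP), (∀ r, (G r).Monic) → (∀ r, Irreducible (G r)) →
  ∃ B : Finset ℝ, ∀ x : ℝ, x ∉ B → Gd G x

/-- [Nuij] (uses nothing) Proof: one step. Let `q` split with different roots `r_1 < ... < r_s` of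
multiplicities `m_i`. `q + e q'` has at `r_i` a root of multiplicity `m_i - 1` (or none, if `m_i = 1`),
since `q' = q ∑ m_i / (y - r_i)`. The function `exp (y / e) q (y)` has the derivative
`exp (y / e) (q + e q') / e` and vanishes at all `r_i` and tends to `0` at `- ∞` (for `e > 0`) or at `+ ∞`
(for `e < 0`), so (Rolle) `q + e q'` has roots in the `s - 1` intervals `(r_i, r_(i+1))` and one more in
`(- ∞, r_1)` or `(r_s, ∞)`. Together `∑ (m_i - 1) + s = c`, the degree: so it splits, and the new roots are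
simple. So the maximal multiplicity `μ` becomes `max 1 (μ - 1)`; after `c` steps it is `1`. -/
def St_Nuij : Prop := ∀ (q : ℝ[X]) (e : ℝ) (c : ℕ), q.Monic → q.natDegree = c → q.Splits → e ≠ 0 →
  ((fun p : ℝ[X] => p + C e * derivative p)^[c] q).Monic ∧
  ((fun p : ℝ[X] => p + C e * derivative p)^[c] q).natDegree = c ∧
  ((fun p : ℝ[X] => p + C e * derivative p)^[c] q).Splits ∧
  ((fun p : ℝ[X] => p + C e * derivative p)^[c] q).roots.Nodup

/-- [NuB] (uses Nuij) Proof: `sl (NU t F) x = sl F x + (t x) (sl F x)'` and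
`lf (NU t F) c = lf F c + t (lf F c)'`, `NU t` preserves `TD _ c`, monic and the degree. `lf F c` is monic of
degree `c` (the coefficient of `y ^ c` in `F` is `1`). Use `Nuij` with `e = t x`, `|x| ≥ M₀ > 0`, and with
`e = t`. Last part: the coefficients of `(NU t)^[c] F` are polynomials in `t` and `x`. -/
def St_NuB : Prop := ∀ (c : ℕ) (F : BP) (M₀ : ℝ), F.Monic → F.natDegree = c → TD F c →
  (∀ t : ℝ, ((NU t)^[c] F).Monic ∧ ((NU t)^[c] F).natDegree = c ∧ TD ((NU t)^[c] F) c) ∧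
  (∀ j, Continuous fun p : ℝ × ℝ => (((NU p.1)^[c] F).coeff j).eval p.2) ∧
  (NU 0)^[c] F = F ∧
  (0 < M₀ → (lf F c).Splits → (∀ x : ℝ, M₀ ≤ |x| → (sl F x).Splits) → ∀ t : ℝ, t ≠ 0 →
    (lf ((NU t)^[c] F) c).Splits ∧ (lf ((NU t)^[c] F) c).roots.Nodup ∧
    ∀ x : ℝ, M₀ ≤ |x| → (sl ((NU t)^[c] F) x).Splits ∧ (sl ((NU t)^[c] F) x).roots.Nodup)

/-- [Pers] (uses nothing) Persistence of simple real roots. `Φ t` are monic of degree `c` with coefficients
depending continuously on `(t, x)`; so `(t, x, y) ↦ ev (Φ t) x y` and its `y`-derivative are continuous.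
Proof of (1): compactness. (2): for `x ∈ K₃`, `|t| ≤ 1` the coefficients are bounded, so the roots are in a
fixed `[- Y', Y']`; apply (1) to `K₃ × ([- Y', - Y] ∪ [Y, Y'])`. (3): local claim at `x₀ ∈ K₁`. Let
`φ_1 < ... < φ_m` be the real roots of `Φ 0 (x₀, ·)`, all simple. Choose `η' < η / 2` such that the intervals
`[φ_i - η', φ_i + η']` are disjoint and the `y`-derivative has no zero on them. Then the signs at the
two ends are different. For `(t, x)` close to `(0, x₀)` the `y`-derivative has no zero on these intervals, the signs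
at the ends are the same, and there is no root outside (bound as in (2), compactness), so
`Φ t (x, ·)` has exactly one root in each interval, simple, and no other real root. This also holds for
`Φ 0 (x, ·)`. If `y₁`, `y₂` have distance `≥ η` from the roots of `Φ 0 (x, ·)`, they are not in the intervals
(two points of one interval have distance `≤ 2 η' < η`), so both counts are the number of the
intervals between `y₁` and `y₂`. Cover `K₁` by finitely many such neighbourhoods. -/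
def St_Pers : Prop := ∀ (c : ℕ) (Φ : ℝ → BP), (∀ t, (Φ t).Monic ∧ (Φ t).natDegree = c) →
  (∀ j, Continuous fun p : ℝ × ℝ => ((Φ p.1).coeff j).eval p.2) →
  ∀ (K₁ K₃ : Set ℝ) (K₂ : Set (ℝ × ℝ)) (Y η : ℝ), IsCompact K₁ → IsCompact K₂ → IsCompact K₃ →
    0 < η → (∀ q ∈ K₂, ev (Φ 0) q.1 q.2 ≠ 0) → (∀ x ∈ K₃, ∀ y, ev (Φ 0) x y = 0 → |y| < Y) →
    (∀ x ∈ K₁, ∀ y, ev (Φ 0) x y = 0 → ev (derivative (Φ 0)) x y ≠ 0) →
  ∃ t₀ : ℝ, 0 < t₀ ∧ ∀ t : ℝ, |t| < t₀ →
    (∀ q ∈ K₂, 0 < ev (Φ 0) q.1 q.2 * ev (Φ t) q.1 q.2) ∧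
    (∀ x ∈ K₃, ∀ y, ev (Φ t) x y = 0 → |y| < Y) ∧
    ∀ x ∈ K₁, (∀ y, ev (Φ t) x y = 0 → ev (derivative (Φ t)) x y ≠ 0) ∧
      ∀ y₁ y₂ : ℝ, y₁ < y₂ → (∀ φ, ev (Φ 0) x φ = 0 → η ≤ |y₁ - φ| ∧ η ≤ |y₂ - φ|) →
        cnt (Φ t) x y₁ y₂ = cnt (Φ 0) x y₁ y₂

/-- [Sh] (uses Pers) Shifting the factors apart. Proof: `f_ε (x, y) = ∏ G_r (x, y + r ε)`, `r < N`, monic of
degree `c`, `TD _ c`, with the same `lf`, for `|x| ≥ M₀` it splits (factors of a polynomial which splits,
shifted). Parts for `K₂`, `K₃`: `Pers` (1), (2) for `Φ ε = f_ε`, with empty `K₁`. For `K₁`: there is `κ > 0`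
such that different real roots of `F (x, ·)` have distance `≥ κ` for all `x ∈ K₁`: otherwise there are
`x_n → x ∈ K₁` and roots `φ_n < φ'_n` with `φ'_n - φ_n → 0`, both converging to `φ` (roots are bounded), roots of
`G_r`, `G_r'` with fixed `r, r'`; if `G_r ≠ G_r'` then both vanish at `(x, φ)`, if `G_r = G_r'` then (Rolle) also
the derivative vanishes at `(x, φ)`; both are excluded by `Gd G x`. Let `0 < ε`, `N ε < κ / 3`, `N ε < η`. The real
roots of `f_ε (x, ·)` are the `φ - r ε` with `G_r (x, φ) = 0`; they are different for different pairs `(φ, r)`, and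
simple: the factor `r` has a simple root there, a factor `r' ≠ r` vanishing there would have the root
`φ + (r' - r) ε` at distance `< κ` from the root `φ`, so equal to `φ`. The multiplicity of `φ` in
`F (x, ·)` is the number of the `r` with `G_r (x, φ) = 0`, so the counts between `y₁` and `y₂` agree. -/
def St_Sh : Prop := ∀ (c N : ℕ) (F : BP) (G : Fin N → BP) (M₀ : ℝ), Prd c F N G → TD F c →
  (lf F c).Splits → (∀ x : ℝ, M₀ ≤ |x| → (sl F x).Splits) →
  ∀ (K₁ K₃ : Set ℝ) (K₂ : Set (ℝ × ℝ)) (Y η : ℝ), IsCompact K₁ → IsCompact K₂ → IsCompact K₃ →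
    0 < η → (∀ q ∈ K₂, ev F q.1 q.2 ≠ 0) → (∀ x ∈ K₃, ∀ y, ev F x y = 0 → |y| < Y) →
    (∀ x ∈ K₁, Gd G x) →
  ∃ f : BP, f.Monic ∧ f.natDegree = c ∧ TD f c ∧ (lf f c).Splits ∧
    (∀ x : ℝ, M₀ ≤ |x| → (sl f x).Splits) ∧
    (∀ q ∈ K₂, 0 < ev F q.1 q.2 * ev f q.1 q.2) ∧
    (∀ x ∈ K₃, ∀ y, ev f x y = 0 → |y| < Y) ∧
    ∀ x ∈ K₁, (∀ y, ev f x y = 0 → ev (derivative f) x y ≠ 0) ∧
      (∀ y, ev f x y = 0 → ∃ φ, ev F x φ = 0 ∧ |y - φ| < η) ∧
      ∀ y₁ y₂ : ℝ, y₁ < y₂ → (∀ φ, ev F x φ = 0 → η ≤ |y₁ - φ| ∧ η ≤ |y₂ - φ|) →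
        cnt f x y₁ y₂ = cnt F x y₁ y₂

/-- [Pert] (uses NuB, Pers, Sh) Proof: take `f₁` from `Sh` with `η / 2` and then `f = (NU t)^[c] f₁` with a small
`t ≠ 0` (`NuB`, and `Pers` for `Φ t = (NU t)^[c] f₁`, `η / 2`): points at distance `≥ η` from the roots of
`F (x, ·)` have distance `≥ η / 2` from the roots of `f₁ (x, ·)`. -/
def St_Pert : Prop := ∀ (c N : ℕ) (F : BP) (G : Fin N → BP) (M₀ : ℝ), Prd c F N G → TD F c →
  (lf F c).Splits → 0 < M₀ → (∀ x : ℝ, M₀ ≤ |x| → (sl F x).Splits) →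
  ∀ (K₁ K₃ : Set ℝ) (K₂ : Set (ℝ × ℝ)) (Y η : ℝ), IsCompact K₁ → IsCompact K₂ → IsCompact K₃ →
    0 < η → (∀ q ∈ K₂, ev F q.1 q.2 ≠ 0) → (∀ x ∈ K₃, ∀ y, ev F x y = 0 → |y| < Y) →
    (∀ x ∈ K₁, Gd G x) →
  ∃ f : BP, f.Monic ∧ f.natDegree = c ∧ TD f c ∧ (lf f c).Splits ∧ (lf f c).roots.Nodup ∧
    (∀ x : ℝ, M₀ ≤ |x| → (sl f x).Splits ∧ (sl f x).roots.Nodup) ∧
    (∀ q ∈ K₂, 0 < ev F q.1 q.2 * ev f q.1 q.2) ∧
    (∀ x ∈ K₃, ∀ y, ev f x y = 0 → |y| < Y) ∧
    ∀ x ∈ K₁, (∀ y, ev f x y = 0 → ev (derivative f) x y ≠ 0) ∧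
      ∀ y₁ y₂ : ℝ, y₁ < y₂ → (∀ φ, ev F x φ = 0 → η ≤ |y₁ - φ| ∧ η ≤ |y₂ - φ|) →
        cnt f x y₁ y₂ = cnt F x y₁ y₂

/-- `ψ 0 < ψ 1 < ...` are the real roots of `f (x, ·)` for `x` in the open interval, continuously
differentiable in `x` -/
structure Brs (f : BP) (α β : ℝ) (m : ℕ) (ψ : Fin m → ℝ → ℝ) : Prop where
  mono : ∀ x ∈ Ioo α β, StrictMono fun i => ψ i x
  root : ∀ x ∈ Ioo α β, ∀ y, ev f x y = 0 ↔ ∃ i, ψ i x = y
  diff : ∀ i, ContDiffOn ℝ 1 (ψ i) (Ioo α β)

/-- [BrL] (uses nothing) Local branches. Proof: let `φ_1 < ... < φ_m` be the (simple) real roots of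
`f (x₀, ·)`. The implicit function theorem for `(x, y) ↦ ev f x y` gives continuously differentiable `ψ_i` near
`x₀` with `ψ_i (x₀) = φ_i`, `f (x, ψ_i x) = 0`, and `ψ_i x` is the only root in a neighbourhood of `φ_i`. As in
`Pers` (compactness, monic) there are no other real roots for `x` close to `x₀`; the order is
preserved by continuity. -/
def St_BrL : Prop := ∀ (f : BP) (x₀ : ℝ), f.Monic →
  (∀ y, ev f x₀ y = 0 → ev (derivative f) x₀ y ≠ 0) →
  ∃ (δ : ℝ) (m : ℕ) (ψ : Fin m → ℝ → ℝ), 0 < δ ∧ Brs f (x₀ - δ) (x₀ + δ) m ψ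

/-- [Br] (uses BrL) Branches over an interval. Proof: by `BrL` the number of real roots is locally constant
on the connected set `(α, β)`, so constant `= m`. Let `ψ i x` be the root number `i` of `f (x, ·)` in increasing
order; near each point it agrees with the local branch number `i` of `BrL`. (For `β ≤ α` the statement is
trivial, `m = 0`.) -/
def St_Br : Prop := ∀ (f : BP) (α β : ℝ), f.Monic →
  (∀ x ∈ Ioo α β, ∀ y, ev f x y = 0 → ev (derivative f) x y ≠ 0) →
  ∃ (m : ℕ) (ψ : Fin m → ℝ → ℝ), Brs f α β m ψ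

/-- [Sig] (uses Br) Signs on the branches. Proof: let `p` be the product of the different polynomials among
the `G r`; at `x` with `Gd G x` all real roots of `p (x, ·)` are simple. We use `Br` for `p` on `(α, β)`: branches `φ_1 < ... < φ_R`, the different
real roots of `F (x, ·)`. For fixed `i`, `r` the sets of `x ∈ (α, β)` with `G_r (x, φ_i x) = 0` and with
`≠ 0` are both closed in `(α, β)` (the second one is where one of the other different factors vanishes), so
one of them is everything; let `m_i` be the number of the `r` with `G_r (x, φ_i x) = 0`: the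
multiplicity of `φ_i x` in `F (x, ·)`. The region between `φ_i` and `φ_(i+1)` (below `φ_1`, above `φ_R`) over
`(α, β)` is connected and `nn` is locally constant on it (`SigData.loc`), so `nn = n_i` there
(`n_0` below `φ_1`, ..., `n_R` above `φ_R`). By `SigData.jump` `s_i = n_(i-1) - n_i` satisfies `|s_i| ≤ m_i`,
`s_i ≡ m_i (mod 2)`. If `x ∈ (α, β)` and `y` has distance `≥ η` from the roots of `F (x, ·)` and lies in the region
number `i` then exactly `M_i = m_1 + ... + m_i` of the `ψ_j x` are smaller than `y` (the hypothesis on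
`cnt` with a very negative `y₁`); and `m = M_R`. Let `σ` be `+ 1` for the first `(m_i + s_i) / 2` indices of the
block `M_(i-1) ≤ j < M_i` and `- 1` for the other indices of this block; its sum over the block is
`s_i`. For `y₁` in region `i` and `y₂` in region `i'` the sum is `s_(i+1) + ... + s_(i') = n_i - n_(i')`. -/
def St_Sig : Prop := ∀ (c N : ℕ) (F : BP) (G : Fin N → BP) (w : ℂ →₀ ℤ) (nn : ℝ → ℝ → ℤ),
  SigData c F w nn → Prd c F N G → ∀ (α β η : ℝ) (f : BP) (m : ℕ) (ψ : Fin m → ℝ → ℝ), α < β →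
  0 < η → (∀ x ∈ Ioo α β, Gd G x) → (∀ z ∈ w.support, z.re ∉ Ioo α β) →
  f.Monic → (∀ x ∈ Ioo α β, ∀ y, ev f x y = 0 → ev (derivative f) x y ≠ 0) → Brs f α β m ψ →
  (∀ x ∈ Ioo α β, ∀ y₁ y₂ : ℝ, y₁ < y₂ → (∀ φ, ev F x φ = 0 → η ≤ |y₁ - φ| ∧ η ≤ |y₂ - φ|) →
    cnt f x y₁ y₂ = cnt F x y₁ y₂) →
  ∃ σ : Fin m → ℤ, (∀ i, σ i = 1 ∨ σ i = -1) ∧ ∀ x ∈ Ioo α β, ∀ y₁ y₂ : ℝ, y₁ < y₂ →
    (∀ φ, ev F x φ = 0 → η ≤ |y₁ - φ| ∧ η ≤ |y₂ - φ|) →
    ∑ i, (if y₁ < ψ i x ∧ ψ i x < y₂ then σ i else 0) = nn x y₁ - nn x y₂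

/-- [Slab] (uses nothing) Proof: for `|x - β| ≤ 1` the roots of the monic `F (x, ·)` are bounded. If the claim fails,
there are `x_n → β` and roots `y_n` with distance `≥ η` from the roots of `F (β, ·)`; a limit point of the `y_n`
is a root of `F (β, ·)`, a contradiction. -/
def St_Slab : Prop := ∀ (F : BP) (β η : ℝ), F.Monic → 0 < η → ∃ δ : ℝ, 0 < δ ∧
  ∀ x y : ℝ, |x - β| ≤ δ → ev F x y = 0 → ∃ φ, ev F β φ = 0 ∧ |y - φ| < η

/-- [Box] (uses nothing) Signature balance. Proof: by compactness there is `τ > 0` with `F (x, y) ≠ 0` for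
`|x - β| ≤ δ` and `|y - y₁| ≤ τ` or `|y - y₂| ≤ τ`. No point of the support has a real part `x ≠ β` with
`|x - β| ≤ δ`. So by `SigData.loc` `nn` is constant on `(β, β + δ] × [y₁ - τ, y₁ + τ]` and on
`[β - δ, β) × [y₁ - τ, y₁ + τ]` (connected), similarly for `y₂`. If no point of the support has real part `β`,
`nn` is constant on the whole rectangles, and the left side is `0`, as is
`w ⟨β, φ₀⟩`. Otherwise let `z` be the only point with `z.re = β`; choose `y₁'`, `y₂'` in these intervals outside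
the set `Y₀` of `SigData.cross` and not roots; `cross` gives `nn xp y - nn xm y` for `y = y₁', y₂'` (small `h`,
then constancy). `F (β, z.im) = 0`, so `z.im` is `φ₀`, or `< y₁ - τ`, or `> y₂ + τ` (it is in no
`[y_i - τ, y_i + τ]`). In the first case the result is `w z - (- w z)`, in the others `0`, and
then `w ⟨β, φ₀⟩ = 0`. -/
def St_Box : Prop := ∀ (c : ℕ) (F : BP) (w : ℂ →₀ ℤ) (nn : ℝ → ℝ → ℤ), SigData c F w nn →
  ∀ (β δ φ₀ y₁ y₂ : ℝ), 0 < δ → (∀ z ∈ w.support, z.re ≠ β → δ < |z.re - β|) → y₁ < φ₀ → φ₀ < y₂ →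
  (∀ φ, ev F β φ = 0 → y₁ ≤ φ → φ ≤ y₂ → φ = φ₀) →
  (∀ x, |x - β| ≤ δ → ev F x y₁ ≠ 0 ∧ ev F x y₂ ≠ 0) →
  ∀ xp ∈ Ioc β (β + δ), ∀ xm ∈ Ico (β - δ) β,
    (nn xp y₁ - nn xp y₂) - (nn xm y₁ - nn xm y₂) = 2 * w ⟨β, φ₀⟩

/-- [SgnSum] (uses nothing) Proof: the roots of `q` in `(y₁, y₂)` are simple, `r_1 < ... < r_s`; `q` has
constant sign between consecutive roots and changes it at each root, and the sign of `q' (r_i)` is the sign of
`q` right of `r_i`, minus the sign left of it it is. So the sum of the signs telescopes: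
`2 sign q' (r_i) = sign (right of r_i) - sign (left of r_i)`. -/
def St_SgnSum : Prop := ∀ (q : ℝ[X]) (y₁ y₂ : ℝ) (m : ℕ) (r : Fin m → ℝ), y₁ < y₂ →
  q.eval y₁ ≠ 0 → q.eval y₂ ≠ 0 → Function.Injective r →
  (∀ y, q.eval y = 0 ∧ y₁ < y ∧ y < y₂ ↔ ∃ i, r i = y) → (∀ i, (derivative q).eval (r i) ≠ 0) →
  2 * ∑ i, (SignType.sign ((derivative q).eval (r i)) : ℤ) =
    (SignType.sign (q.eval y₂) : ℤ) - (SignType.sign (q.eval y₁) : ℤ)

/-- [Conv] (uses nothing) Conversion. Proof: `p = ∑ (f.coeff j) (x) y ^ j`, `x = X 0`, `y = X 1`, similarly `q` for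
`g = g₀ + λ x^(2 N + 1) ∂_y f`. `p` has total degree `c` (`TD`, and the monomial `y ^ c`), its leading form is
`P (u, v) = ∑ a_j u^(c-j) v^j`, `a_j = (f.coeff j).coeff (c - j)`, `P (1, s) = lf f c (s)`, `P (0, v) = v^c`. `g₀` has
total degree `< 2 N + c`, so the form of degree `2 N + c` of `q` is `λ u^(2 N + 1) ∂_v P (u, v)`; it is
nonzero (the coefficient of `u^(2 N + 1) v^(c - 1)` is `λ c`), so it is the leading form. Let `v` be a common
complex zero. If `v 0 = 0` then `P = (v 1)^c = 0`, so `v = 0`. If `v 0 ≠ 0`, then with `s = v 1 / v 0` we get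
`lf f c (s) = 0` and `(lf f c)' (s) = 0`; but `lf f c` is monic of degree `c`, splits over `ℝ` and has
simple roots, so it has no common complex root with its derivative. Last part: chain rule, from
`f (x', ψ x') = 0` near `x`: `∂_x f + ∂_y f ψ' = 0`, and `(g (x', ψ x'))' = ∂_x g + ∂_y g ψ'`, so
`∂_x f ∂_y g - ∂_y f ∂_x g = - ∂_y f (g (x', ψ x'))'`. -/
def St_Conv : Prop := ∀ (c N : ℕ) (f g g₀ : BP) (lam : ℝ), 1 ≤ c → f.Monic → f.natDegree = c →
  TD f c → (lf f c).Splits → (lf f c).roots.Nodup → lam ≠ 0 → TD g₀ (2 * N + c - 1) →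
  g = g₀ + C (C lam * X ^ (2 * N + 1)) * derivative f →
  ∃ p q : RP, p.totalDegree = c ∧ (∀ x y : ℝ, MvPolynomial.eval ![x, y] p = ev f x y) ∧
    (∀ x y : ℝ, MvPolynomial.eval ![x, y] q = ev g x y) ∧
    (∀ v : Fin 2 → ℂ, MvPolynomial.aeval v (lead p) = 0 → MvPolynomial.aeval v (lead q) = 0 → v = 0) ∧
    ∀ (x : ℝ) (ψ : ℝ → ℝ), DifferentiableAt ℝ ψ x → (∀ᶠ x' in 𝓝 x, ev f x' (ψ x') = 0) →
      MvPolynomial.eval ![x, ψ x] (jac p q) =
        - ev (derivative f) x (ψ x) * deriv (fun x' => ev g x' (ψ x')) x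

end Pool.Agent.NCC
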