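import Pool.Agent.NCC.Defs

/-!
# NCC, part S (sufficiency): statements

`F_c` denotes the top component `homogeneousComponent c F`. The module `Pool/Agent/NCC/<X>.lean`
proves `theorem Pool.Agent.NCC.thm_<X> : St_<Y> → ... → St_<X>`, where the hypotheses are the
statements named after `uses` in the docstring, in that order (keep them all, even if not needed).
-/

set_option autoImplicit false

namespace Pool.Agent.NCC

open MvPolynomial Module
open scoped ComplexConjugate

/-- [Top] (uses nothing) Top component of a product. Proof: `homogeneousComponent (m + n) (p * q)` is the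
sum over `i + j = m + n` of the products of the components `p_i q_j`, and `p_i = 0` for `i > m`,
`q_j = 0` for `j > n`. -/
def St_Top : Prop := ∀ (p q : CP) (m n : ℕ), p.totalDegree ≤ m → q.totalDegree ≤ n →
  homogeneousComponent (m + n) (p * q) = homogeneousComponent m p * homogeneousComponent n q

/-- [Zero] (uses nothing) A form of positive degree has a nontrivial zero. Proof: if `H (1, 0) = 0` done.
Otherwise `t ↦ H (t, 1)` is a polynomial of degree `m ≥ 1` (the coefficient of `t ^ m` is the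
coefficient of `x ^ m`, which is `H (1, 0) ≠ 0`), so it has a root. -/
def St_Zero : Prop := ∀ (m : ℕ) (H : CP), 1 ≤ m → H.IsHomogeneous m →
  ∃ v : Fin 2 → ℂ, v ≠ 0 ∧ eval v H = 0

/-- [Rel] (uses Top, Zero) Forms without common nontrivial zero are relatively prime. Proof: let
`h ∣ F`, `h ∣ G`, `F = h F'`, `G = h G'`. If `h = 0` then `F = G = 0` vanish at `(1, 1)`. Let
`m` be the total degree of `h`. If `m = 0`, `h` is a nonzero constant, a unit. If `m ≥ 1`: by `Top`
(for `m` and the degrees of `F'`, `G'`; if `F ≠ 0` then `c = m + deg F'` by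
`MvPolynomial.totalDegree_mul_of_isDomain` and `IsHomogeneous.totalDegree`; if `F = 0` nothing is to do)
the top component `h_m` divides `F = F_c` and `G = G_d`, and it is a form of degree `m ≥ 1`, so `Zero`
gives a common nontrivial zero. -/
def St_Rel : Prop := ∀ (c d : ℕ) (F G : CP), F.IsHomogeneous c → G.IsHomogeneous d →
  (∀ v : Fin 2 → ℂ, eval v F = 0 → eval v G = 0 → v = 0) → IsRelPrime F G

/-- [Red] (uses Top) Degree reduction. Proof: induction on the maximum `M` of the total degrees of `u F`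
and `v G`; done if `M ≤ N`. Let `M > N`. Top components of degree `M`: `u_(M-c) F_c + v_(M-d) G_d = 0`
(`Top`; note `(u F).totalDegree = u.totalDegree + c` for `u ≠ 0` since `F_c ≠ 0` gives
`F.totalDegree = c`; if `u = 0` then `v G` has degree `≤ N`, done). As `F_c`, `G_d` are relatively
prime (`IsRelPrime.dvd_of_dvd_mul_right` etc., `MvPolynomial` over a field is a UFD) we have `v_(M-d) = F_c w`,
`u_(M-c) = - G_d w`, and `w` can be taken homogeneous of degree `M - c - d` (replace it by its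
component). Replace `u` by `u + G w`, `v` by `v - F w`. -/
def St_Red : Prop := ∀ (F G : CP) (c d : ℕ), Pair F G c d → ∀ (u v : CP) (N : ℕ),
  (u * F + v * G).totalDegree ≤ N → ∃ u' v' : CP, u' * F + v' * G = u * F + v * G ∧
    (u' * F).totalDegree ≤ N ∧ (v' * G).totalDegree ≤ N

/-- [DimP] (uses nothing) Dimension of `Pd N`: it has the basis of the monomials `x ^ i y ^ j`,
`i + j ≤ N` (`MvPolynomial.restrictSupport` is `Finsupp.supported`); their number is
`(N + 1) (N + 2) / 2` for `N ≥ 0` and `0` for `N < 0`. -/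
def St_DimP : Prop := ∀ N : ℤ, Module.Finite ℂ (Pd N) ∧ finrank ℂ (Pd N) = DD N

/-- [Hilb] (uses Top, Red, DimP) Hilbert function. Proof: `Im N` is `Pd N` modulo
`Pd N ∩ (F, G) = {u F + v G : u ∈ Pd (N - c), v ∈ Pd (N - d)}` (`Red` for `N ≥ 0`; for `N < 0` all is
`0`). The map `(u, v) ↦ u F + v G` on `Pd (N - c) × Pd (N - d)` has the kernel
`{(G w, - F w) : w ∈ Pd (N - c - d)}`: `F` and `G` are relatively prime (the top component of a common
factor divides `F_c` and `G_d`, so it is constant, by `Top`), hence `u F = - v G` gives `u = G w`,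
`v = - F w`, and the degrees are additive (`MvPolynomial.totalDegree_mul_of_isDomain`).
Rank formulas. -/
def St_Hilb : Prop := ∀ (F G : CP) (c d : ℕ), Pair F G c d → ∀ N : ℤ,
  finrank ℂ (Im F G N) + DD (N - c) + DD (N - d) = DD N + DD (N - c - d)

/-- [QFin] (uses Hilb) Proof: for `N ≥ c + d - 2` the formula gives `finrank (Im N) = c d`
(`DD N = (N + 1) (N + 2) / 2` holds for `N ≥ - 2`), and `Im N` increases with `N`, so
`Im N = Im (c + d - 2)` for these `N`; every polynomial lies in some `Pd N`. For `N = c + d - 3` one gets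
`c d - 1` (the last term is `DD (- 3) = 0` instead of `1`). For `2 e + 4 = c + d` and `c ≤ d`:
`e - d ≤ - 2`, `e - c ≥ - 2`, `finrank (Im e) = c (d - 1) / 2` and `finrank (Im (e + 1)) = c (d + 1) / 2`; for
`d ≤ c` exchange `c` and `d`. For `2 e + 3 = c + d`: `finrank (Im e) = c d / 2`. -/
def St_QFin : Prop := ∀ (F G : CP) (c d : ℕ), Pair F G c d →
  Module.Finite ℂ (QQ F G) ∧ finrank ℂ (QQ F G) = c * d ∧ Im F G (c + d - 2) = ⊤ ∧
  finrank ℂ (Im F G (c + d - 3)) + 1 = c * d ∧
  (∀ e : ℤ, 2 * e + 4 = c + d → c * d ≤ 2 * finrank ℂ (Im F G e) + c ∧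
    c * d ≤ finrank ℂ (Im F G e) + finrank ℂ (Im F G (e + 1))) ∧
  (∀ e : ℤ, 2 * e + 3 = c + d → c * d ≤ 2 * finrank ℂ (Im F G e))

/-- [Soc] (uses Top, Red) Socle. Proof: let `h` be the class of `p ∈ Pd r`. If `r < 0` then `h = 0`. We have
`X 0 * p = p₀ + u₀ F + v₀ G` with `p₀ ∈ Pd r`, and by `Red` we may take `u₀ F, v₀ G ∈ Pd (r + 1)`; similarly
`X 1 * p = p₁ + u₁ F + v₁ G`. Components of degree `r + 1`: `x p_r = s₀ F_c + t₀ G_d`,
`y p_r = s₁ F_c + t₁ G_d` with forms `s_i` of degree `r + 1 - c` and `t_i` of degree `r + 1 - d` (`0` if this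
is negative). Hence `(y s₀ - x s₁) F_c = (x t₁ - y t₀) G_d`, so `G_d` divides `y s₀ - x s₁`, a form of degree
`r + 2 - c < d`, which is therefore `0`; then also `x t₁ = y t₀`. So `s₀ = x s`, `s₁ = y s`, `t₀ = x t`,
`t₁ = y t` (`x`, `y` relatively prime), `p_r = s F_c + t G_d` with forms `s`, `t` of degree `r - c`, `r - d`,
and `h` is the class of `p - s F - t G ∈ Pd (r - 1)`. -/
def St_Soc : Prop := ∀ (F G : CP) (c d : ℕ), Pair F G c d → ∀ r : ℤ, r + 2 < c + d →
  ∀ h ∈ Im F G r, mkq F G (X 0) * h ∈ Im F G r → mkq F G (X 1) * h ∈ Im F G r →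
    h ∈ Im F G (r - 1)

/-- [Lfun] (uses QFin, Soc) The residue functional. Proof: `Im (c + d - 3)` has codimension one, let `L` be
a functional with this kernel. Let `h ≠ 0`, and let `r` be the least integer with `h ∈ Im r`
(`Im (- 1) = 0`, `Im (c + d - 2) = ⊤`). Show by induction on `c + d - 2 - r` that `L (h * h') ≠ 0` for
some `h'`: for `r = c + d - 2` take `h' = 1`; for `r < c + d - 2` one of `X i * h` is not in `Im r` (`Soc`) but in
`Im (r + 1)`. -/
def St_Lfun : Prop := ∀ (F G : CP) (c d : ℕ), Pair F G c d → ∃ L : QQ F G →ₗ[ℂ] ℂ,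
  (∀ h ∈ Im F G (c + d - 3), L h = 0) ∧ ∀ h : QQ F G, (∀ h' : QQ F G, L (h * h') = 0) → h = 0

/-- [Bez] (uses Top) Bezoutian. Proof: for a common zero `q` write `F = (x - q 0) F¹ + (y - q 1) F²` with
`F¹, F²` of degree `≤ c - 1`, e.g. for a monomial
`x^i y^j - q₀^i q₁^j = (x^i - q₀^i) y^j + q₀^i (y^j - q₁^j)`; similarly `G`. Then `F¹ (q) = ∂₀ F (q)` etc.,
`B = F¹ G² - F² G¹` has `B (q) = J (q)` and `(x - q 0) B = F G² - G F²`, `(y - q 1) B = G F¹ - F G¹` are in the
ideal. `B` has degree `≤ c + d - 2`, and its component of degree `c + d - 2` does not depend on `q`: it is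
`F¹_(c-1) G²_(d-1) - F²_(c-1) G¹_(d-1)`, and the component `F¹_(c-1)` is the sum of
`a_ij x^(i-1) y^j` over `i + j = c`, `i ≥ 1`, and `F²_(c-1) = a_0c y^(c-1)`. So `L (mk B)` is the value of
`L` at the class of this component, for all `q`. -/
def St_Bez : Prop := ∀ (F G : CP) (c d : ℕ), Pair F G c d → ∀ L : QQ F G →ₗ[ℂ] ℂ,
  (∀ h ∈ Im F G (c + d - 3), L h = 0) → ∃ ρ : ℂ, ∀ q : Fin 2 → ℂ, eval q F = 0 → eval q G = 0 →
    ∃ B : CP, (∀ i, mkq F G ((X i - C (q i)) * B) = 0) ∧
      eval q B = eval q (pderiv 0 F * pderiv 1 G - pderiv 1 F * pderiv 0 G) ∧ L (mkq F G B) = ρ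

/-- [FinZ] (uses QFin) Finitely many common zeros, and a real linear form which is not real at the nonreal
common zeros. Proof: the evaluations at the common zeros are different algebra homomorphisms from the
finite dimensional algebra `QQ F G` to `ℂ`, these are linearly independent
(`linearIndependent_monoidHom`), so there are finitely many. Choose `t` such that
`Im (q 0) + t Im (q 1) ≠ 0` for the finitely many common zeros `q` with `Im (q 1) ≠ 0`; if `Im (q 1) = 0` it is
`Im (q 0)`. -/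
def St_FinZ : Prop := ∀ (F G : CP) (c d : ℕ), Pair F G c d →
  {q : Fin 2 → ℂ | eval q F = 0 ∧ eval q G = 0}.Finite ∧
  ∃ t : ℝ, ∀ q : Fin 2 → ℂ, eval q F = 0 → eval q G = 0 → (q 0 + t * q 1).im = 0 →
    (q 0).im = 0 ∧ (q 1).im = 0

/-- [Split] (uses nothing) The part of a finite dimensional algebra with involution at the non real
points. Proof: let `T` be the multiplication by `ℓ`, `E s` its generalized eigenspace for `s ∈ ℂ`
(`Module.End.maxGenEigenspace`); these are ideals, `E s * E s' = 0` for `s ≠ s'` (an element of the product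
is in both), `⊤` is their direct sum (`Module.End.iSup_maxGenEigenspace_eq_top`,
`Module.End.independent_maxGenEigenspace`), `τ (E s) = E (conj s)`. Let `A` be the sum of the `E s` with
`0 < s.im`, `B` the one with `s.im < 0`, `R` the one with `s.im = 0`. `χ i` vanishes on `A` and `B`
(`χ i ℓ` is real since `τ ℓ = ℓ`; on `E s` the element `ℓ - s` acts nilpotently and
`χ i (ℓ - s) ≠ 0`). `δ i ∈ R` since `ℓ * δ i = χ i ℓ • δ i`. It remains to see `R ⊆ span δ`: for `r ∈ R` put
`r' = r - ∑ χ i r • δ i`; let `R'` be the space of all `r ∈ R` with `χ i r = 0` for all `i`, an ideal. If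
`R' ≠ 0`, then it contains a common eigenvector `w ≠ 0` of all multiplications (a commuting family of
endomorphisms of a nonzero finite dimensional complex space; e.g. take a minimal nonzero ideal contained
in `R'`: it is one dimensional by Schur's lemma over `ℂ`), `h * w = ψ h • w` with an algebra
homomorphism `ψ`. `w ∈ R` gives that `ψ ℓ` is real, so `ψ = χ i`. But `δ i * w = χ i w • δ i = 0` and
`δ i * w = ψ (δ i) • w = w`, a contradiction. -/
def St_Split : Prop := ∀ (Q : Type) [CommRing Q] [Algebra ℂ Q] [Module.Finite ℂ Q] (τ : Q → Q)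
  (ℓ : Q) (m : ℕ) (χ : Fin m → (Q →ₐ[ℂ] ℂ)) (δ : Fin m → Q),
  (∀ x y, τ (x + y) = τ x + τ y) → (∀ x y, τ (x * y) = τ x * τ y) →
  (∀ (z : ℂ) (x : Q), τ (z • x) = conj z • τ x) → (∀ x, τ (τ x) = x) → τ ℓ = ℓ →
  (∀ i h, h * δ i = χ i h • δ i) → (∀ i j, χ i (δ j) = if i = j then 1 else 0) →
  (∀ i h, χ i (τ h) = conj (χ i h)) → (∀ ψ : Q →ₐ[ℂ] ℂ, (ψ ℓ).im = 0 → ∃ i, ψ = χ i) →
  ∃ A B : Submodule ℂ Q, (∀ a ∈ A, ∀ b ∈ B, a * b = 0) ∧ (∀ a ∈ A, ∀ h, h * a ∈ A) ∧
    (∀ b ∈ B, ∀ h, h * b ∈ B) ∧ (∀ a, a ∈ A ↔ τ a ∈ B) ∧ (∀ a ∈ A, ∀ i, χ i a = 0) ∧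
    (∀ b ∈ B, ∀ i, χ i b = 0) ∧ (∀ h, ∃ a ∈ A, ∃ b ∈ B, h = ∑ i, χ i h • δ i + a + b)

/-- [Core] (uses nothing) Linear algebra. Proof: write `D` for the span of the `δ i` (they are linearly
independent), so `Q = D ⊕ A ⊕ B` (if `∑ c_i δ_i + a + b = 0`, apply `χ i`; and `A ∩ B = 0`: for
`x` in it write `1 = ∑ δ i + a' + b'`, then `x = 1 * x = a' x + b' x + ∑ χ i x • δ i = 0`). `τ` is an
additive bijection `A → B`, semilinear, so `dim A = dim B = (dim Q - m) / 2`. Let
`U = P ∩ (D + B)`, `W = P' ∩ A`. With the nondegenerate symmetric form `(h, h') ↦ L (h h')` we have: the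
orthogonal space of `P'` contains `P` and has dimension `dim Q - dim P' ≤ dim P`, so it is `P`; the
orthogonal space of `A` contains `D + B` (`A B = 0`, `δ i * a = χ i a • δ i = 0`) and has the same
dimension, so it is `D + B`. So `U` is the orthogonal space of `P' + A` and `dim U = dim Q - dim (P' + A)
= dim Q - dim P' - dim A + dim W ≥ dim Q - dim P' - dim A + dim (P ∩ A)`, and `dim Q - dim P' = dim P`.
The kernel of `h ↦ (χ i h)_i` on `U` is `P ∩ B` (as `h = ∑ χ i h • δ i + a + b`), and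
`dim (P ∩ B) = dim (P ∩ A)` by `τ`. So the image has dimension `≥ dim P - dim A`. For `h₁, h₂ ∈ U`:
`τ h₂ ∈ D + A` (`τ (δ i) = δ i`: `τ (δ i)` is killed by ... `h * τ (δ i) = τ (τ h * δ i) = χ i h • τ (δ i)`, and
`δ i * τ (δ i) = τ (δ i)` as well as `= χ i (τ (δ i)) • δ i = δ i`), so `h₁ * τ h₂ * p` is
`∑ χ i h₁ * conj (χ i h₂) * χ i p • δ i`. -/
def St_Core : Prop := ∀ (Q : Type) [CommRing Q] [Algebra ℂ Q] [Module.Finite ℂ Q] (τ : Q → Q)
  (m : ℕ) (χ : Fin m → (Q →ₐ[ℂ] ℂ)) (δ : Fin m → Q),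
  (∀ x y, τ (x + y) = τ x + τ y) → (∀ x y, τ (x * y) = τ x * τ y) →
  (∀ (z : ℂ) (x : Q), τ (z • x) = conj z • τ x) → (∀ x, τ (τ x) = x) →
  (∀ i h, h * δ i = χ i h • δ i) → (∀ i j, χ i (δ j) = if i = j then 1 else 0) →
  (∀ i h, χ i (τ h) = conj (χ i h)) →
  ∀ A B : Submodule ℂ Q, (∀ a ∈ A, ∀ b ∈ B, a * b = 0) → (∀ a ∈ A, ∀ h, h * a ∈ A) →
    (∀ b ∈ B, ∀ h, h * b ∈ B) → (∀ a, a ∈ A ↔ τ a ∈ B) → (∀ a ∈ A, ∀ i, χ i a = 0) →
    (∀ b ∈ B, ∀ i, χ i b = 0) → (∀ h, ∃ a ∈ A, ∃ b ∈ B, h = ∑ i, χ i h • δ i + a + b) →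
  ∀ (L : Q →ₗ[ℂ] ℂ) (P P' : Submodule ℂ Q), (∀ h : Q, (∀ h' : Q, L (h * h') = 0) → h = 0) →
    P ≤ P' → (∀ h ∈ P, τ h ∈ P) → (∀ h ∈ P, ∀ h' ∈ P', L (h * h') = 0) →
    finrank ℂ Q ≤ finrank ℂ P + finrank ℂ P' →
  ∃ U : Submodule ℂ Q, U ≤ P ∧
    (∀ h₁ ∈ U, ∀ h₂ ∈ U, ∀ p : Q,
      L (h₁ * τ h₂ * p) = ∑ i, χ i h₁ * conj (χ i h₂) * χ i p * L (δ i)) ∧
    2 * finrank ℂ P + m ≤ finrank ℂ Q +
      2 * finrank ℂ (U.map (LinearMap.pi fun i => (χ i).toLinearMap : Q →ₗ[ℂ] (Fin m → ℂ)))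

/-- [Iso] (uses nothing) Isotropic subspaces. Proof: (first part) the projection of `U` to the second factor
is injective: if `u.2 = 0` then `∑ |u.1 l|² = 0`, so `u = 0`. Hence `finrank U ≤ k`. (second part) So it is
bijective and `U = {(V w, w)}` with a matrix `V`; the first equation says `Vᴴ V = 1`, the second
`Vᴴ diag(b) V = diag(a)` (`u = (V w, w)`, `v = (V w', w')`, all `w, w'`). `Dil` is
`Pool.Agent.Helper45.NC.Dil`. -/
def St_Iso : Prop := ∀ (k n : ℕ) (a : Fin k → ℂ) (b : Fin n → ℂ)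
  (U : Submodule ℂ ((Fin n → ℂ) × (Fin k → ℂ))),
  (∀ u ∈ U, ∀ v ∈ U, ∑ l, u.1 l * conj (v.1 l) = ∑ j, u.2 j * conj (v.2 j)) →
  finrank ℂ U ≤ k ∧ (k ≤ finrank ℂ U →
    (∀ u ∈ U, ∀ v ∈ U, ∑ l, u.1 l * conj (v.1 l) * b l = ∑ j, u.2 j * conj (v.2 j) * a j) →
    Pool.Agent.Helper45.NC.Dil a b)

/-- [SC] (uses Rel, QFin, Lfun, Bez, FinZ, Split, Core, Iso) Zeros of regular pairs are realizable. Proof: put
`F = cx f`, `G = cx g`, `c = f.totalDegree`, `d = g.totalDegree`. As `n = k + c ≥ 1` there is a common zero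
`z`, and `g` is not constant: if `g` is a constant `≠ 0` there is no common zero; if `g = 0`, then
`lead g = 0` and the form `lead f` of degree `c ≥ 1` would have no nontrivial zero (`St_Zero` is implicit in
`Rel`: `IsRelPrime F_c 0` gives that `F_c` is a unit). So `Pair F G c d` by `Rel` (`F_c = cx (lead f)`).
`τ` is induced by the complex conjugation of the coefficients. The common real zeros are
`z_i`, `i < m = n + k` (first the `b l`, then the `a j`); `χ i` the evaluation at `pt z_i`, `L`, `ρ` from `Lfun`,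
`Bez`, `δ i` the class of `B_i / J (z_i)` (then `h * δ i = χ i h • δ i` by the first property of `B`, all `h`;
`χ i (δ j) = 0` for `i ≠ j` follows by taking `h` with different values at `z_i` and `z_j`:
`χ_i(h) χ_i(δ_j) = χ_i (h δ_j) = χ_j(h) χ_i(δ_j)`), `L (δ i) = ρ / J (z_i)`; `ρ ≠ 0` by
nondegeneracy (`h = δ i ≠ 0`, `L (δ i * h') = χ i h' * L (δ i)`). `ℓ` is the class of `X 0 + t X 1` from `FinZ`;
an algebra homomorphism `ψ : QQ F G → ℂ` is the evaluation at the common zero `(ψ X0, ψ X1)`. So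
`Split` applies. Case `c + d = 2 e + 4`: `P = Im e`, `P' = Im (e + 1)`, products of
`P` and `P'` are in `Im (2 e + 1) = Im (c + d - 3)`. `Core`: `2 finrank (image of U) ≥ 2 finrank P + m - c d
≥ m - c = 2 k`. `X 0 + i X 1` times `h₁ * τ h₂` is in `Im (2 e + 1)` too, so for `p = 1` and
`p = X 0 + i X 1` we get `∑ h₁(z_i) conj h₂(z_i) p(z_i) / J(z_i) = 0`, with `p(z_i) = 1` or `z_i`. Divide the
coordinate `i` by `√|J(z_i)|` and use `Iso`. Case `c + d = 2 e + 3`: `P = P' = Im e`; the image `U'` has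
`2 finrank ≥ m = 2 k + c`, so `finrank > k`, contradicting the first part of `Iso`. -/
def St_SC : Prop := ∀ (f g : RP) (k : ℕ) (a : Fin k → ℂ) (b : Fin (k + f.totalDegree) → ℂ),
  1 ≤ f.totalDegree → Regular f g → Lists f g a b → Pool.Agent.Helper45.NC.Dil a b

/-- [Clo] (uses nothing) Closedness. Proof: `Dil a b` says that `Vᴴ V = 1` and
`Vᴴ diag(b) V = diag(a)` for some `V`; the set of the `V` with `Vᴴ V = 1` is compact (entries of
absolute value `≤ 1`), and the set of the triples `(V, a, b)` with both equations is closed, so its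
projection along a compact set is closed (`IsCompact.isClosed` of projections, or sequences:
choose a convergent subsequence of `V`). -/
def St_Clo : Prop := ∀ k n : ℕ,
  IsClosed {p : (Fin k → ℂ) × (Fin n → ℂ) | Pool.Agent.Helper45.NC.Dil p.1 p.2}

end Pool.Agent.NCC
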