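import Pool.Agent.NCC.StB

/-!
# NCC, module Zr: zeros of the regular pair
-/

set_option autoImplicit false

namespace Pool.Agent.NCC

open Polynomial Filter Topology Set

private theorem Zr_ev (F : BP) (x y : ℝ) :
    ev F x y = ∑ j ∈ Finset.range (F.natDegree + 1), (F.coeff j).eval x * y ^ j := by
  unfold ev sl
  rw [eval_map, eval₂_eq_sum_range]
  rfl

private theorem Zr_cont (F : BP) : Continuous fun p : ℝ × ℝ => ev F p.1 p.2 := by
  have h : (fun p : ℝ × ℝ => ev F p.1 p.2) =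
      fun p : ℝ × ℝ => ∑ j ∈ Finset.range (F.natDegree + 1), (F.coeff j).eval p.1 * p.2 ^ j := by
    funext p
    exact Zr_ev F p.1 p.2
  rw [h]
  exact continuous_finsetSum _ fun j _ =>
    ((F.coeff j).continuous.comp continuous_fst).mul (continuous_snd.pow j)

private theorem Zr_sign (a b : ℝ) (g : ℝ → ℝ) (hg : ContinuousOn g (Ioo a b))
    (h0 : ∀ x ∈ Ioo a b, g x ≠ 0) (x x' : ℝ) (hx : x ∈ Ioo a b) (hx' : x' ∈ Ioo a b)
    (hpos : 0 < g x) : 0 < g x' := by
  by_contra h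
  have h1 := isPreconnected_Ioo.intermediate_value hx' hx hg
  obtain ⟨z, hz, hz0⟩ := h1 ⟨not_lt.1 h, hpos.le⟩
  exact h0 z hz hz0

private theorem Zr_R {M : ℕ} (hM : 1 ≤ M) (β : Fin M → ℝ) (δ R : ℝ) (hδ : 0 < δ)
    (bd : ∀ s, -R + δ < β s ∧ β s < R - δ) : 0 < R := by
  have h := bd ⟨0, hM⟩
  linarith

private theorem Zr_HI {M : ℕ} (hM : 1 ≤ M) (β : Fin M → ℝ) (δ R : ℝ) (hδ : 0 < δ)
    (bd : ∀ s, -R + δ < β s ∧ β s < R - δ) (sep : ∀ s s' : Fin M, s < s' → β s + 2 * δ < β s')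
    (s : Fin M) : β s + δ ≤ HI β δ R s.succ := by
  have hR := Zr_R hM β δ R hδ bd
  rcases Fin.eq_castSucc_or_eq_last s.succ with ⟨j, hj⟩ | hj
  · rw [hj]
    have h1 : HI β δ R j.castSucc = β j - δ / 2 := Fin.lastCases_castSucc ..
    rw [h1]
    have h2 : s < j := by
      have h3 := congrArg Fin.val hj
      rw [Fin.val_succ, Fin.val_castSucc] at h3
      rw [Fin.lt_def]
      omega
    have h3 := sep s j h2
    linarith
  · rw [hj]
    have h1 : HI β δ R (Fin.last M) = 3 * R := Fin.lastCases_last ..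
    rw [h1]
    have h2 := (bd s).2
    linarith

private theorem Zr_LO {M : ℕ} (hM : 1 ≤ M) (β : Fin M → ℝ) (δ R : ℝ) (hδ : 0 < δ)
    (bd : ∀ s, -R + δ < β s ∧ β s < R - δ) (sep : ∀ s s' : Fin M, s < s' → β s + 2 * δ < β s')
    (s : Fin M) : LO β δ R s.castSucc ≤ β s - δ := by
  have hR := Zr_R hM β δ R hδ bd
  rcases Fin.eq_zero_or_eq_succ s.castSucc with hj | ⟨j, hj⟩
  · rw [hj]
    have h1 : LO β δ R 0 = -(3 * R) := Fin.cases_zero ..
    rw [h1]
    have h2 := (bd s).1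
    linarith
  · rw [hj]
    have h1 : LO β δ R j.succ = β j + δ / 2 := Fin.cases_succ ..
    rw [h1]
    have h2 : j < s := by
      have h3 := congrArg Fin.val hj
      rw [Fin.val_succ, Fin.val_castSucc] at h3
      rw [Fin.lt_def]
      omega
    have h3 := sep j s h2
    linarith

private theorem Zr_le {M : ℕ} (hM : 1 ≤ M) (β : Fin M → ℝ) (δ R : ℝ) (hδ : 0 < δ)
    (bd : ∀ s, -R + δ < β s ∧ β s < R - δ) (sep : ∀ s s' : Fin M, s < s' → β s + 2 * δ < β s')
    (s : Fin (M + 1)) : LO β δ R s ≤ HI β δ R s := by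
  rcases Fin.eq_zero_or_eq_succ s with rfl | ⟨j, rfl⟩
  · have h1 := Zr_LO hM β δ R hδ bd sep ⟨0, hM⟩
    have h2 : HI β δ R (Fin.castSucc ⟨0, hM⟩) = β ⟨0, hM⟩ - δ / 2 := Fin.lastCases_castSucc ..
    have h3 : (0 : Fin (M + 1)) = Fin.castSucc ⟨0, hM⟩ := rfl
    rw [h3, h2]
    linarith
  · have h1 := Zr_HI hM β δ R hδ bd sep j
    have h2 : LO β δ R j.succ = β j + δ / 2 := Fin.cases_succ ..
    rw [h2]
    linarith

private theorem Zr_cov {M : ℕ} (hM : 1 ≤ M) (β : Fin M → ℝ) (δ R x : ℝ) (h1 : -(3 * R) ≤ x)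
    (h2 : x ≤ 3 * R) (hδ : 0 < δ) (h3 : ∀ s, x ∉ Icc (β s - δ / 2) (β s + δ / 2)) :
    ∃ s, LO β δ R s ≤ x ∧ x ≤ HI β δ R s := by
  classical
  have hlo : ∀ s, x ≤ β s → x ≤ β s - δ / 2 := by
    intro s hs
    by_contra hc
    exact h3 s ⟨(not_le.1 hc).le, by linarith⟩
  have hhi : ∀ s, β s < x → β s + δ / 2 ≤ x := by
    intro s hs
    by_contra hc
    exact h3 s ⟨by linarith, (not_le.1 hc).le⟩
  have hex : ∃ k : ℕ, ∀ s : Fin M, k ≤ (s : ℕ) → x ≤ β s :=
    ⟨M, fun s hs => absurd s.2 (not_lt.2 hs)⟩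
  obtain ⟨k, hk, hmin⟩ : ∃ k : ℕ, (∀ s : Fin M, k ≤ (s : ℕ) → x ≤ β s) ∧
      ∀ k' < k, ¬ ∀ s : Fin M, k' ≤ (s : ℕ) → x ≤ β s :=
    ⟨Nat.find hex, Nat.find_spec hex, fun k' hk' => Nat.find_min hex hk'⟩
  rcases Nat.eq_zero_or_pos k with h0 | h0
  · subst h0
    refine ⟨Fin.castSucc ⟨0, hM⟩, ?_, ?_⟩
    · exact h1
    · have h4 : HI β δ R (Fin.castSucc ⟨0, hM⟩) = β ⟨0, hM⟩ - δ / 2 := Fin.lastCases_castSucc ..
      rw [h4]
      exact hlo _ (hk _ (Nat.zero_le _))
  · have h4 := hmin (k - 1) (by omega)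
    simp only [not_forall, not_le] at h4
    obtain ⟨s, hs1, hs2⟩ := h4
    have hs3 : ¬ k ≤ (s : ℕ) := fun h => absurd (hk s h) (not_le.2 hs2)
    refine ⟨s.succ, ?_, ?_⟩
    · have h5 : LO β δ R s.succ = β s + δ / 2 := Fin.cases_succ ..
      rw [h5]
      exact hhi s hs2
    · rcases Fin.eq_castSucc_or_eq_last s.succ with ⟨j, hj⟩ | hj
      · rw [hj]
        have h5 : HI β δ R j.castSucc = β j - δ / 2 := Fin.lastCases_castSucc ..
        rw [h5]
        refine hlo j (hk j ?_)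
        have h6 := congrArg Fin.val hj
        rw [Fin.val_succ, Fin.val_castSucc] at h6
        omega
      · rw [hj]
        have h5 : HI β δ R (Fin.last M) = 3 * R := Fin.lastCases_last ..
        rw [h5]
        exact h2

theorem thm_Zr : St_Gt → St_Conv → St_Zr := by
  intro hGt hConv c M F f nn β δ η R τ m ψ σ hG
  have hδ : 0 < δ := hG.pos.1
  have hτ : 0 < τ := hG.pos.2.1
  have hR : 0 < R := Zr_R hG.hM β δ R hδ hG.bd
  have hLH : ∀ s, LO β δ R s ≤ HI β δ R s := Zr_le hG.hM β δ R hδ hG.bd hG.sep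
  have hIcc : ∀ s, ∀ x ∈ Icc (LO β δ R s) (HI β δ R s),
      x ∈ Ioo (LO β δ R s - τ) (HI β δ R s + τ) := by
    intro s x hx
    exact ⟨by linarith [hx.1], by linarith [hx.2]⟩
  have hLO : ∀ s, LO β δ R s ∈ Ioo (LO β δ R s - τ) (HI β δ R s + τ) := fun s =>
    hIcc s _ ⟨le_rfl, hLH s⟩
  have hf0 : ∀ s i, ∀ x ∈ Ioo (LO β δ R s - τ) (HI β δ R s + τ), ev f x (ψ s i x) = 0 :=
    fun s i x hx => ((hG.brs s).root x hx _).2 ⟨i, rfl⟩
  have hσ0 : ∀ s i, (σ s i : ℝ) ≠ 0 := by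
    intro s i
    rcases hG.sgn s i with h | h <;> rw [h] <;> norm_num
  have hD0 : ∀ s i, ∀ x ∈ Ioo (LO β δ R s - τ) (HI β δ R s + τ),
      (σ s i : ℝ) * ev (derivative f) x (ψ s i x) ≠ 0 := fun s i x hx =>
    mul_ne_zero (hσ0 s i) (hG.simple s x hx _ (hf0 s i x hx))
  have hDc : ∀ s i, ContinuousOn (fun x => (σ s i : ℝ) * ev (derivative f) x (ψ s i x))
      (Ioo (LO β δ R s - τ) (HI β δ R s + τ)) := by
    intro s i
    refine continuousOn_const.mul ?_
    exact (Zr_cont (derivative f)).comp_continuousOn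
      (continuousOn_id.prodMk ((hG.brs s).diff i).continuousOn)
  obtain ⟨γ, hγ⟩ : ∃ γ : ∀ s, Fin (m s) → ℝ, ∀ s i, γ s i =
      if 0 < (σ s i : ℝ) * ev (derivative f) (LO β δ R s) (ψ s i (LO β δ R s)) then -1 else 1 :=
    ⟨fun s i => _, fun s i => rfl⟩
  have hγs : ∀ s i, γ s i = 1 ∨ γ s i = -1 := by
    intro s i
    rw [hγ]
    split_ifs
    · exact Or.inr rfl
    · exact Or.inl rfl
  have hγ1 : ∀ s i, ∀ x ∈ Ioo (LO β δ R s - τ) (HI β δ R s + τ), γ s i = -1 →
      0 < (σ s i : ℝ) * ev (derivative f) x (ψ s i x) := by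
    intro s i x hx h
    rw [hγ] at h
    split_ifs at h with h1
    · exact Zr_sign _ _ _ (hDc s i) (hD0 s i) _ _ (hLO s) hx h1
    · norm_num at h
  have hγ2 : ∀ s i, ∀ x ∈ Ioo (LO β δ R s - τ) (HI β δ R s + τ),
      0 < (σ s i : ℝ) * ev (derivative f) x (ψ s i x) → γ s i = -1 := by
    intro s i x hx h
    rw [hγ, if_pos (Zr_sign _ _ _ (hDc s i) (hD0 s i) _ _ hx (hLO s) h)]
  have hγ3 : ∀ s i, ∀ x ∈ Ioo (LO β δ R s - τ) (HI β δ R s + τ), γ s i = 1 →
      (σ s i : ℝ) * ev (derivative f) x (ψ s i x) < 0 := by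
    intro s i x hx h
    rcases lt_or_gt_of_ne (hD0 s i x hx) with h1 | h1
    · exact h1
    · have h2 := hγ2 s i x hx h1
      rw [h] at h2
      norm_num at h2
  have hSys : Sys c M f β δ R τ m ψ γ :=
    { hM := hG.hM
      hc := hG.hc
      monic := hG.monic
      deg := hG.deg
      td := hG.td
      far := hG.far
      pos := ⟨hδ, hτ⟩
      sep := hG.sep
      bd := hG.bd
      brs := hG.brs
      simple := hG.simple
      sg := hγs
      right := by
        intro i x hx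
        have hσ := hG.sl i
        rcases hγs (Fin.last M) i with h | h
        · have h1 := hγ3 (Fin.last M) i x (hIcc _ x hx) h
          rw [hσ, Int.cast_one, one_mul] at h1
          rw [h, one_mul]
          exact h1
        · have h1 := hγ1 (Fin.last M) i x (hIcc _ x hx) h
          rw [hσ, Int.cast_one, one_mul] at h1
          rw [h]
          linarith
      left := by
        intro i x hx
        have hσ := hG.s0 i
        rcases hγs 0 i with h | h
        · have h1 := hγ3 0 i x (hIcc _ x hx) h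
          rw [hσ, Int.cast_neg, Int.cast_one] at h1
          rw [h]
          linarith
        · have h1 := hγ1 0 i x (hIcc _ x hx) h
          rw [hσ, Int.cast_neg, Int.cast_one] at h1
          rw [h]
          exact h1 }
  obtain ⟨g, g₀, N, lam, hlam, htd, hgeq, g1, g2, g3, g4, g5, g6⟩ :=
    hGt c M f β δ R τ m ψ γ hSys
  obtain ⟨p, q, hpc, hp, hq, hlead, hjac⟩ :=
    hConv c N f g g₀ lam hG.hc hG.monic hG.deg hG.td hG.lfs hG.lfn hlam htd hgeq
  have hxr : ∀ (s : Fin M) (i : Fin (m s.succ)), ∃ x₁ ∈ Ioo (β s + δ / 2) (β s + δ),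
      (γ s.succ i = -1 → ev g x₁ (ψ s.succ i x₁) = 0 ∧
        deriv (fun x' => ev g x' (ψ s.succ i x')) x₁ < 0 ∧
        ∀ x ∈ Icc (β s + δ / 2) (β s + δ), ev g x (ψ s.succ i x) = 0 → x = x₁) := by
    intro s i
    rcases hγs s.succ i with h | h
    · refine ⟨β s + 3 * δ / 4, ⟨by linarith, by linarith⟩, fun h' => ?_⟩
      rw [h] at h'
      norm_num at h'
    · obtain ⟨x₁, hx₁, h1, h2, h3⟩ := g4 s i h
      exact ⟨x₁, hx₁, fun _ => ⟨h1, h2, h3⟩⟩
  have hxl : ∀ (s : Fin M) (i : Fin (m s.castSucc)), ∃ x₁ ∈ Ioo (β s - δ) (β s - δ / 2),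
      (γ s.castSucc i = -1 → ev g x₁ (ψ s.castSucc i x₁) = 0 ∧
        0 < deriv (fun x' => ev g x' (ψ s.castSucc i x')) x₁ ∧
        ∀ x ∈ Icc (β s - δ) (β s - δ / 2), ev g x (ψ s.castSucc i x) = 0 → x = x₁) := by
    intro s i
    rcases hγs s.castSucc i with h | h
    · refine ⟨β s - 3 * δ / 4, ⟨by linarith, by linarith⟩, fun h' => ?_⟩
      rw [h] at h'
      norm_num at h'
    · obtain ⟨x₁, hx₁, h1, h2, h3⟩ := g5 s i h
      exact ⟨x₁, hx₁, fun _ => ⟨h1, h2, h3⟩⟩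
  choose xr hxr1 hxr2 using hxr
  choose xl hxl1 hxl2 using hxl
  -- the zeros of the slabs are in the strips
  have hxrI : ∀ s i, xr s i ∈ Ioo (LO β δ R s.succ - τ) (HI β δ R s.succ + τ) := by
    intro s i
    have h1 : LO β δ R s.succ = β s + δ / 2 := Fin.cases_succ ..
    have h2 := Zr_HI hG.hM β δ R hδ hG.bd hG.sep s
    have h3 := hxr1 s i
    refine hIcc _ _ ⟨?_, ?_⟩
    · rw [h1]
      exact h3.1.le
    · exact h3.2.le.trans h2
  have hxlI : ∀ s i, xl s i ∈ Ioo (LO β δ R s.castSucc - τ) (HI β δ R s.castSucc + τ) := by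
    intro s i
    have h1 : HI β δ R s.castSucc = β s - δ / 2 := Fin.lastCases_castSucc ..
    have h2 := Zr_LO hG.hM β δ R hδ hG.bd hG.sep s
    have h3 := hxl1 s i
    refine hIcc _ _ ⟨?_, ?_⟩
    · exact h2.trans h3.1.le
    · rw [h1]
      exact h3.2.le
  -- the Jacobian
  have hJ : ∀ s i, ∀ x ∈ Ioo (LO β δ R s - τ) (HI β δ R s + τ),
      MvPolynomial.eval (pt ⟨x, ψ s i x⟩) (jac p q) =
        - ev (derivative f) x (ψ s i x) * deriv (fun x' => ev g x' (ψ s i x')) x := by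
    intro s i x hx
    have hnh : Ioo (LO β δ R s - τ) (HI β δ R s + τ) ∈ 𝓝 x := isOpen_Ioo.mem_nhds hx
    have h1 : DifferentiableAt ℝ (ψ s i) x :=
      (((hG.brs s).diff i).contDiffAt hnh).differentiableAt (by norm_num)
    exact hjac x (ψ s i) h1 (Filter.mem_of_superset hnh fun x' hx' => hf0 s i x' hx')
  have hJr : ∀ s i, 0 < (σ s.succ i : ℝ) * ev (derivative f) (xr s i) (ψ s.succ i (xr s i)) →
      0 < (σ s.succ i : ℝ) *
        MvPolynomial.eval (pt ⟨xr s i, ψ s.succ i (xr s i)⟩) (jac p q) := by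
    intro s i h
    have h1 := hγ2 s.succ i _ (hxrI s i) h
    have h2 := (hxr2 s i h1).2.1
    rw [hJ s.succ i _ (hxrI s i)]
    have h3 := mul_pos h (neg_pos.2 h2)
    linarith
  have hJl : ∀ s i, 0 < (σ s.castSucc i : ℝ) *
      ev (derivative f) (xl s i) (ψ s.castSucc i (xl s i)) →
      (σ s.castSucc i : ℝ) *
        MvPolynomial.eval (pt ⟨xl s i, ψ s.castSucc i (xl s i)⟩) (jac p q) < 0 := by
    intro s i h
    have h1 := hγ2 s.castSucc i _ (hxlI s i) h
    have h2 := (hxl2 s i h1).2.1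
    rw [hJ s.castSucc i _ (hxlI s i)]
    have h3 := mul_pos h h2
    linarith
  -- the zeros
  have hZ : ∀ z, Zer p q z ↔ ev f z.re z.im = 0 ∧ ev g z.re z.im = 0 := by
    intro z
    unfold Zer pt
    rw [hp, hq]
  have hzer : ∀ z, Zer p q z ↔
      (∃ s i, 0 < (σ (Fin.succ s) i : ℝ) *
        ev (derivative f) (xr s i) (ψ s.succ i (xr s i)) ∧
        z = ⟨xr s i, ψ s.succ i (xr s i)⟩) ∨
      ∃ s i, 0 < (σ (Fin.castSucc s) i : ℝ) *
        ev (derivative f) (xl s i) (ψ s.castSucc i (xl s i)) ∧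
        z = ⟨xl s i, ψ s.castSucc i (xl s i)⟩ := by
    intro z
    rw [hZ]
    constructor
    · rintro ⟨hf, hg⟩
      have hx3 : |z.re| < 3 * R := by
        by_contra h
        exact g6 z.re z.im (not_lt.1 h) hf hg
      rw [abs_lt] at hx3
      have hcore : ∀ s, z.re ∉ Icc (β s - δ / 2) (β s + δ / 2) := by
        intro s hs
        have h1 := g1 s z.re hs z.im hf
        rw [hg] at h1
        exact lt_irrefl _ h1
      obtain ⟨s, hs1, hs2⟩ := Zr_cov hG.hM β δ R z.re hx3.1.le hx3.2.le hδ hcore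
      have hsI := hIcc s z.re ⟨hs1, hs2⟩
      obtain ⟨i, hi⟩ := ((hG.brs s).root z.re hsI z.im).1 hf
      have hγm : γ s i = -1 := by
        rcases hγs s i with h | h
        · have h1 := g2 s i h z.re ⟨hs1, hs2⟩
          rw [hi, hg] at h1
          exact absurd h1 (lt_irrefl _)
        · exact h
      have hnot : ¬ (LO' β δ R s ≤ z.re ∧ z.re ≤ HI' β δ R s) := by
        intro h
        have h1 := g3 s i hγm z.re h
        rw [hi, hg] at h1
        exact lt_irrefl _ h1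
      by_cases hlo : LO' β δ R s ≤ z.re
      · have hhi : HI' β δ R s < z.re := by
          by_contra h
          exact hnot ⟨hlo, not_lt.1 h⟩
        right
        rcases Fin.eq_castSucc_or_eq_last s with ⟨j, rfl⟩ | rfl
        · have h1 : HI' β δ R j.castSucc = β j - δ := Fin.lastCases_castSucc ..
          have h2 : HI β δ R j.castSucc = β j - δ / 2 := Fin.lastCases_castSucc ..
          rw [h1] at hhi
          rw [h2] at hs2
          have h3 := (hxl2 j i hγm).2.2 z.re ⟨hhi.le, hs2⟩ (by rw [hi, hg])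
          refine ⟨j, i, ?_, ?_⟩
          · rw [← h3]
            exact hγ1 _ i _ hsI hγm
          · rw [← h3, hi]
        · have h1 : HI' β δ R (Fin.last M) = 3 * R := Fin.lastCases_last ..
          have h2 : HI β δ R (Fin.last M) = 3 * R := Fin.lastCases_last ..
          rw [h1] at hhi
          rw [h2] at hs2
          exact absurd hhi (not_lt.2 hs2)
      · left
        rcases Fin.eq_zero_or_eq_succ s with rfl | ⟨j, rfl⟩
        · have h1 : LO' β δ R 0 = -(3 * R) := Fin.cases_zero ..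
          have h2 : LO β δ R 0 = -(3 * R) := Fin.cases_zero ..
          rw [h1] at hlo
          rw [h2] at hs1
          exact absurd hs1 hlo
        · have h1 : LO' β δ R j.succ = β j + δ := Fin.cases_succ ..
          have h2 : LO β δ R j.succ = β j + δ / 2 := Fin.cases_succ ..
          rw [h1] at hlo
          rw [h2] at hs1
          have h3 := (hxr2 j i hγm).2.2 z.re ⟨hs1, (not_le.1 hlo).le⟩ (by rw [hi, hg])
          refine ⟨j, i, ?_, ?_⟩
          · rw [← h3]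
            exact hγ1 _ i _ hsI hγm
          · rw [← h3, hi]
    · rintro (⟨s, i, h, rfl⟩ | ⟨s, i, h, rfl⟩)
      · exact ⟨hf0 s.succ i _ (hxrI s i), (hxr2 s i (hγ2 s.succ i _ (hxrI s i) h)).1⟩
      · exact ⟨hf0 s.castSucc i _ (hxlI s i), (hxl2 s i (hγ2 s.castSucc i _ (hxlI s i) h)).1⟩
  refine ⟨p, q, xr, xl, ⟨hlead, ?_⟩, hpc, hxr1, hxl1, hzer, hJr, hJl⟩
  intro z hz
  rcases (hzer z).1 hz with ⟨s, i, h, rfl⟩ | ⟨s, i, h, rfl⟩
  · intro h0
    have h1 := hJr s i h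
    rw [h0, mul_zero] at h1
    exact lt_irrefl _ h1
  · intro h0
    have h1 := hJl s i h
    rw [h0, mul_zero] at h1
    exact lt_irrefl _ h1

end Pool.Agent.NCC
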